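import Pool.Agent.E8N.AQ

/-!
# E8N (2.4): the chart at a generic critical point
-/

set_option autoImplicit false

open Metric Set Filter Topology

namespace Pool.Agent.E8N.AChart

noncomputable section

variable {E : Type*} [NormedAddCommGroup E] [InnerProductSpace ℝ E] [FiniteDimensional ℝ E]
variable {K : Set E} {ρ R : ℝ}

open ZProj ZSurf ZGm AFib ALin AExp AChi APsi AQ Asymptotics

/-- chart of `S K` at `s` in which `F^2 - F(s)^2 = <H w, w>/2 + o(|w|^2)` -/
structure Chart (K : Set E) (p s : E) (δ : ℝ) (psi : Tg K s → ℝ) (H : Tg K s →L[ℝ] Tg K s) : Prop where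
  pos : 0 < δ
  cont : ContinuousOn psi (ball 0 δ)
  bd : ∀ w ∈ ball (0 : Tg K s) δ, 0 ≤ psi w ∧ psi w ≤ ‖w‖ ^ 2
  mem : ∀ w ∈ ball (0 : Tg K s) δ, chi K s psi w ∈ S K
  surj : ∀ x ∈ S K, ‖x - s‖ < δ → chi K s psi (pj K s x) = x
  symm : ∀ v w, inner ℝ (H v) w = inner ℝ v (H w)
  inj : ∀ v, H v = 0 → v = 0
  grad : ∃ G : Tg K s → Tg K s, (∀ w ∈ ball (0 : Tg K s) δ, HasFDerivAt (qf K p s psi) (innerSL ℝ (G w)) w) ∧
    (fun w => G w - H w) =o[𝓝 0] (fun w => w)
  tau : (fun w : Tg K s => (2 : ℝ) • tau K p (chi K s psi w) - ((H w : Tg K s) : E)) =o[𝓝 0] (fun w => w)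

theorem AChart_chi_sub (K : Set E) (p s : E) (psi : Tg K s → ℝ) {r : ℝ} (hr : s - p = r • nu K s) (w : Tg K s) :
    chi K s psi w - p = (r - psi w) • nu K s + (w : E) := by
  have : chi K s psi w - p = (s - p) + (w : E) - psi w • nu K s := by
    unfold chi; abel
  rw [this, hr, sub_smul]; abel

theorem AChart_perp {K : Set E} {s : E} (w : Tg K s) : inner ℝ (nu K s) (w : E) = 0 :=
  (Submodule.mem_orthogonal_singleton_iff_inner_right).1 w.2

theorem AChart_qf {K : Set E} {p s : E} (hs : s ∈ S K) (psi : Tg K s → ℝ) (hr : s - p = F p s • nu K s)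
    (w : Tg K s) : qf K p s psi w = (F p s - psi w) ^ 2 + ‖w‖ ^ 2 - F p s ^ 2 := by
  unfold qf
  have h1 : F p (chi K s psi w) ^ 2 = ‖(F p s - psi w) • nu K s + (w : E)‖ ^ 2 := by
    rw [← AChart_chi_sub K p s psi hr w]; rfl
  rw [h1, @norm_add_sq_real, inner_smul_left, AChart_perp w, norm_smul, nu_norm hs]
  simp

theorem AChart_grad {K : Set E} {p s : E} (hs : s ∈ S K) (psi : Tg K s → ℝ) (hr : s - p = F p s • nu K s)
    {w g : Tg K s} (h : HasFDerivAt psi (innerSL ℝ g) w) :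
    HasFDerivAt (qf K p s psi) (innerSL ℝ ((2 : ℝ) • w - (2 * (F p s - psi w)) • g)) w := by
  have hq : qf K p s psi = fun w => (F p s - psi w) ^ 2 + ‖w‖ ^ 2 - F p s ^ 2 :=
    funext (AChart_qf hs psi hr)
  rw [hq]
  have h2 : HasFDerivAt (fun w : Tg K s => ‖w‖ ^ 2) (2 • (innerSL ℝ w : Tg K s →L[ℝ] ℝ)) w :=
    (hasStrictFDerivAt_norm_sq w).hasFDerivAt
  have h3 : HasFDerivAt (fun w => F p s - psi w) (-(innerSL ℝ g)) w := h.const_sub (F p s)
  have h4 := h3.pow 2
  refine ((h4.add h2).sub_const (F p s ^ 2)).congr_fderiv ?_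
  ext v
  simp only [ContinuousLinearMap.add_apply, ContinuousLinearMap.smul_apply, ContinuousLinearMap.neg_apply,
    innerSL_apply_apply, inner_sub_left, inner_smul_left, smul_eq_mul, nsmul_eq_mul]
  simp
  ring

theorem chart (hK : Body K ρ R) {p s : E} (hg : Generic K p) (hs : s ∈ Crit K p) :
    ∃ δ psi H, Chart K p s δ psi H := by
  have hsS : s ∈ S K := hs.1
  have hpK : p ∈ K := interior_subset hg.1
  have hr1 : 1 < F p s := one_lt_F hK hsS hg.1
  have hr : s - p = F p s • nu K s := crit_eq hs hK hpK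
  obtain ⟨psi, h1, h2, h3⟩ := psi_exists hK hsS
  obtain ⟨B, C, hCB, hCs, hCi, hnu, hsl⟩ := slope_exp hK hg hs h1 h2
  have hlt : ∀ {w : Tg K s}, w ∈ ball (0 : Tg K s) (1 / 4) → ‖w‖ < 1 := by
    intro w hw
    rw [mem_ball_zero_iff] at hw
    linarith
  have hev : ∀ᶠ w in 𝓝 (0 : Tg K s), ‖w‖ < 1 := by
    have : ball (0 : Tg K s) 1 ∈ 𝓝 (0 : Tg K s) := ball_mem_nhds _ one_pos
    filter_upwards [this] with w hw
    rwa [mem_ball_zero_iff] at hw
  have hpsq : psi =O[𝓝 0] (fun w : Tg K s => ‖w‖ ^ 2) := by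
    refine IsBigO.of_bound 1 ?_
    filter_upwards [hev] with w hw
    have := h1 w hw
    rw [Real.norm_eq_abs, abs_of_nonneg this.1, one_mul, Real.norm_eq_abs, abs_of_nonneg (by positivity)]
    exact this.2
  have hsq : (fun w : Tg K s => ‖w‖ ^ 2) =o[𝓝 0] (fun w : Tg K s => w) := isLittleO_norm_pow_id one_lt_two
  refine ⟨1 / 4, psi, (2 : ℝ) • (ContinuousLinearMap.id ℝ (Tg K s) - F p s • C), ?_⟩
  have hH : ∀ w, ((2 : ℝ) • (ContinuousLinearMap.id ℝ (Tg K s) - F p s • C)) w = (2 : ℝ) • (w - F p s • C w) := by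
    intro w; rfl
  refine ⟨by norm_num, psi_cont hK hsS h1 h2, fun w hw => h1 w (hlt hw), fun w hw => h2 w (hlt hw),
    fun x hx hxs => h3 x hx (by linarith), ?_, ?_, ?_, ?_⟩
  · intro v w
    rw [hH, hH, inner_smul_left, inner_smul_right, inner_sub_left, inner_sub_right, inner_smul_left,
      inner_smul_right, hCs]
    rfl
  · intro v hv
    rw [hH] at hv
    have h4 : v - F p s • C v = 0 := by
      rcases smul_eq_zero.1 hv with h | h
      · norm_num at h
      · exact h
    exact hCi v (sub_eq_zero.1 h4).symm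
  · refine ⟨fun w => (2 : ℝ) • w - (2 * (F p s - psi w)) • slope K s (chi K s psi w), ?_, ?_⟩
    · intro w hw
      rw [mem_ball_zero_iff] at hw
      exact AChart_grad hsS psi hr (psi_grad hK hsS h1 h2 hw)
    · have hslO : (fun w : Tg K s => slope K s (chi K s psi w)) =O[𝓝 0] (fun w => w) := by
        have := hsl.isBigO.add (ContinuousLinearMap.isBigO_id C (𝓝 0))
        refine this.congr_left ?_
        intro w
        simp
      have hp1 : psi =o[𝓝 0] (fun _ : Tg K s => (1 : ℝ)) := by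
        refine hpsq.trans_isLittleO ?_
        rw [isLittleO_one_iff]
        have : Tendsto (fun w : Tg K s => ‖w‖ ^ 2) (𝓝 0) (𝓝 (‖(0 : Tg K s)‖ ^ 2)) :=
          (continuous_norm.pow 2).tendsto 0
        simpa using this
      have h5 : (fun w : Tg K s => psi w • slope K s (chi K s psi w)) =o[𝓝 0] (fun w : Tg K s => (1 : ℝ) • w) :=
        hp1.smul_isBigO hslO
      have h6 : (fun w : Tg K s => (2 : ℝ) • (psi w • slope K s (chi K s psi w)) -
          (2 * F p s) • (slope K s (chi K s psi w) - C w)) =o[𝓝 0] (fun w : Tg K s => w) := by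
        have h51 : (fun w : Tg K s => psi w • slope K s (chi K s psi w)) =o[𝓝 0] (fun w : Tg K s => w) := by
          simpa only [one_smul] using h5
        exact (h51.const_smul_left (2 : ℝ)).sub (hsl.const_smul_left (2 * F p s))
      refine h6.congr_left ?_
      intro w
      rw [hH]
      module
  · have hD2 : ∀ᶠ w in 𝓝 (0 : Tg K s), ‖(2 : ℝ) • tau K p (chi K s psi w) -
        ((((2 : ℝ) • (ContinuousLinearMap.id ℝ (Tg K s) - F p s • C)) w : Tg K s) : E) -
        (-(2 * F p s)) • (nu K (chi K s psi w) - nu K s - B (w : E))‖ ≤ (8 + 4 * F p s) * ‖(‖w‖ ^ 2 : ℝ)‖ := by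
      filter_upwards [hev] with w hw
      have hx : chi K s psi w ∈ S K := h2 w hw
      have hps := h1 w hw
      set x := chi K s psi w with hxdef
      set r := F p s with hrdef
      have hν1 : ‖nu K x‖ = 1 := nu_norm hx
      have hν0 : ‖nu K s‖ = 1 := nu_norm hsS
      have hD : ‖nu K x - nu K s‖ ≤ 2 * ‖w‖ := by
        refine (nu_lip hK x s).trans ?_
        have : x - s = (w : E) - psi w • nu K s := by
          rw [hxdef]; unfold chi; abel
        rw [this]
        refine (norm_sub_le _ _).trans ?_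
        rw [norm_smul, hν0, Real.norm_eq_abs, abs_of_nonneg hps.1]
        have h7 : ‖(w : E)‖ = ‖w‖ := rfl
        rw [h7]
        have h8 : ‖w‖ ^ 2 ≤ ‖w‖ := by
          have := norm_nonneg w
          nlinarith
        linarith [hps.2]
      have hin : inner ℝ (nu K s) (nu K x) = 1 - ‖nu K x - nu K s‖ ^ 2 / 2 := by
        have := @norm_sub_sq_real E _ _ (nu K x) (nu K s)
        rw [hν1, hν0] at this
        rw [real_inner_comm]
        linarith
      have hperp : inner ℝ (nu K s) (w : E) = 0 := AChart_perp w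
      have hwx : inner ℝ (w : E) (nu K x) = inner ℝ (w : E) (nu K x - nu K s) := by
        rw [inner_sub_right, real_inner_comm (nu K s) (w : E), hperp, sub_zero]
      set e : ℝ := -psi w - (r - psi w) * (‖nu K x - nu K s‖ ^ 2 / 2) + inner ℝ (w : E) (nu K x - nu K s) with he
      have hxp : x - p = (r - psi w) • nu K s + (w : E) := AChart_chi_sub K p s psi hr w
      have hip : inner ℝ (x - p) (nu K x) = r + e := by
        rw [hxp, inner_add_left, inner_smul_left, hin, hwx, he]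
        simp
        ring
      have hCw : ((((2 : ℝ) • (ContinuousLinearMap.id ℝ (Tg K s) - r • C)) w : Tg K s) : E) =
          (2 : ℝ) • ((w : E) - r • B (w : E)) := by
        rw [hH, ← hCB]; rfl
      have hkey : (2 : ℝ) • tau K p x -
          ((((2 : ℝ) • (ContinuousLinearMap.id ℝ (Tg K s) - r • C)) w : Tg K s) : E) -
          (-(2 * r)) • (nu K x - nu K s - B (w : E)) = (-(2 * psi w)) • nu K s + (-(2 * e)) • nu K x := by
        rw [hCw]
        unfold tau
        rw [hip, hxp]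
        module
      rw [hkey]
      have hee : |e| ≤ (3 + 2 * r) * ‖w‖ ^ 2 := by
        have hcs : |inner ℝ (w : E) (nu K x - nu K s)| ≤ ‖w‖ * (2 * ‖w‖) := by
          refine (abs_real_inner_le_norm _ _).trans ?_
          exact mul_le_mul_of_nonneg_left hD (norm_nonneg _)
        have hDs : ‖nu K x - nu K s‖ ^ 2 ≤ (2 * ‖w‖) ^ 2 := by
          exact pow_le_pow_left₀ (norm_nonneg _) hD 2
        have hw1 : ‖w‖ ^ 2 ≤ 1 := by
          have := norm_nonneg w
          nlinarith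
        have h9 : 0 ≤ (r - psi w) * (‖nu K x - nu K s‖ ^ 2 / 2) := by
          apply mul_nonneg
          · linarith [hps.2]
          · positivity
        have h10 : (r - psi w) * (‖nu K x - nu K s‖ ^ 2 / 2) ≤ r * ((2 * ‖w‖) ^ 2 / 2) := by
          apply mul_le_mul
          · linarith [hps.1]
          · linarith
          · positivity
          · linarith
        have h11 := abs_le.1 hcs
        rw [he, abs_le]
        constructor
        · nlinarith [hps.1, hps.2, h11.1, h11.2]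
        · nlinarith [hps.1, hps.2, h11.1, h11.2]
      refine (norm_add_le _ _).trans ?_
      rw [norm_smul, norm_smul, hν0, hν1, mul_one, mul_one, Real.norm_eq_abs, Real.norm_eq_abs, abs_neg, abs_neg,
        abs_mul, abs_mul, abs_of_nonneg hps.1, abs_of_pos (by norm_num : (0 : ℝ) < 2), Real.norm_eq_abs,
        abs_of_nonneg (by positivity : (0 : ℝ) ≤ ‖w‖ ^ 2)]
      nlinarith [hps.2, hee]
    have h12 : (fun w : Tg K s => (2 : ℝ) • tau K p (chi K s psi w) -
        ((((2 : ℝ) • (ContinuousLinearMap.id ℝ (Tg K s) - F p s • C)) w : Tg K s) : E) -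
        (-(2 * F p s)) • (nu K (chi K s psi w) - nu K s - B (w : E))) =o[𝓝 0] (fun w : Tg K s => w) :=
      (IsBigO.of_bound _ hD2).trans_isLittleO hsq
    have h13 := h12.add (hnu.const_smul_left (-(2 * F p s)))
    refine h13.congr_left ?_
    intro w
    exact sub_add_cancel _ _

/-- the descending step in the chart -/
theorem step (hK : Body K ρ R) {p s : E} {δ : ℝ} {psi : Tg K s → ℝ} {H : Tg K s →L[ℝ] Tg K s}
    (hC : Chart K p s δ psi H) {ε : ℝ} (hε : 0 < ε) : ∃ η > 0, ∀ x ∈ S K, ‖x - s‖ < η → ∀ t, 0 ≤ t → t ≤ 1 →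
      ‖pj K s (gm K t p x) - (pj K s x - (t / 2) • H (pj K s x))‖ ≤ ε * ‖pj K s x‖ := by
  have h1 := hC.tau.def hε
  rw [Metric.eventually_nhds_iff] at h1
  obtain ⟨δ1, hδ1, h1⟩ := h1
  set M : ℝ := (‖H‖ + ε) / 2 with hM
  have hM0 : 0 ≤ M := by positivity
  refine ⟨min δ (min δ1 (ε / (M ^ 2 + 1))), lt_min hC.pos (lt_min hδ1 (by positivity)), ?_⟩
  intro x hx hxs t ht0 ht1
  have hxδ : ‖x - s‖ < δ := lt_of_lt_of_le hxs (min_le_left _ _)
  have hxδ1 : ‖x - s‖ < δ1 := lt_of_lt_of_le hxs ((min_le_right _ _).trans (min_le_left _ _))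
  have hxε : ‖x - s‖ < ε / (M ^ 2 + 1) := lt_of_lt_of_le hxs ((min_le_right _ _).trans (min_le_right _ _))
  have hw := pj_norm K s x
  have hcx : chi K s psi (pj K s x) = x := hC.surj x hx hxδ
  have h2 := h1 (y := pj K s x) (by rw [dist_zero_right]; linarith)
  rw [hcx] at h2
  set w := pj K s x with hwdef
  have hHw : ‖((H w : Tg K s) : E)‖ ≤ ‖H‖ * ‖w‖ := H.le_opNorm w
  have hw0 := norm_nonneg w
  have h3 : ‖tau K p x - (1 / 2 : ℝ) • ((H w : Tg K s) : E)‖ ≤ ε / 2 * ‖w‖ := by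
    have : tau K p x - (1 / 2 : ℝ) • ((H w : Tg K s) : E) =
        (1 / 2 : ℝ) • ((2 : ℝ) • tau K p x - ((H w : Tg K s) : E)) := by module
    rw [this, norm_smul, Real.norm_eq_abs, abs_of_pos (by norm_num : (0 : ℝ) < 1 / 2)]
    linarith
  have h4 : ‖tau K p x‖ ≤ M * ‖w‖ := by
    have : tau K p x = (tau K p x - (1 / 2 : ℝ) • ((H w : Tg K s) : E)) + (1 / 2 : ℝ) • ((H w : Tg K s) : E) := by
      abel
    rw [this]
    refine (norm_add_le _ _).trans ?_
    have h5 : ‖(1 / 2 : ℝ) • ((H w : Tg K s) : E)‖ ≤ 1 / 2 * (‖H‖ * ‖w‖) := by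
      rw [norm_smul, Real.norm_eq_abs, abs_of_pos (by norm_num : (0 : ℝ) < 1 / 2)]
      linarith
    rw [hM]
    nlinarith
  have h6 : ‖gm K t p x - (x - t • tau K p x)‖ ≤ ε / 2 * ‖w‖ := by
    refine (gm_near hK hx).trans ?_
    have h7 : ‖tau K p x‖ ^ 2 ≤ (M * ‖w‖) ^ 2 := pow_le_pow_left₀ (norm_nonneg _) h4 2
    have h8 : t ^ 2 ≤ 1 := by nlinarith
    have h9 : t ^ 2 * ‖tau K p x‖ ^ 2 ≤ 1 * (M * ‖w‖) ^ 2 :=
      mul_le_mul h8 h7 (by positivity) (by norm_num)
    have h10 : ‖w‖ * (M ^ 2 + 1) ≤ ε := by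
      have : ‖w‖ ≤ ε / (M ^ 2 + 1) := by linarith
      rwa [le_div_iff₀ (by positivity)] at this
    have h11 : (M * ‖w‖) ^ 2 ≤ ε * ‖w‖ := by
      have : (M * ‖w‖) ^ 2 = (‖w‖ * M ^ 2) * ‖w‖ := by ring
      rw [this]
      apply mul_le_mul_of_nonneg_right _ hw0
      nlinarith
    linarith
  have h12 : pj K s (gm K t p x) - (w - (t / 2) • H w) =
      (Tg K s).orthogonalProjectionOnto ((gm K t p x - (x - t • tau K p x)) -
        t • (tau K p x - (1 / 2 : ℝ) • ((H w : Tg K s) : E))) := by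
    have h13 : (Tg K s).orthogonalProjectionOnto ((H w : Tg K s) : E) = H w :=
      Submodule.orthogonalProjectionOnto_mem_subspace_eq_self (H w)
    have h14 : w - (t / 2) • H w = (Tg K s).orthogonalProjectionOnto (x - s) -
        (t / 2) • (Tg K s).orthogonalProjectionOnto ((H w : Tg K s) : E) := by
      rw [h13]; rfl
    have h15 : pj K s (gm K t p x) = (Tg K s).orthogonalProjectionOnto (gm K t p x - s) := rfl
    rw [h14, h15, ← map_smul, ← map_sub, ← map_sub]
    congr 1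
    module
  rw [h12]
  refine ((Tg K s).norm_orthogonalProjectionOnto_apply_le _).trans ?_
  refine (norm_sub_le _ _).trans ?_
  have h16 : ‖t • (tau K p x - (1 / 2 : ℝ) • ((H w : Tg K s) : E))‖ ≤ ε / 2 * ‖w‖ := by
    rw [norm_smul, Real.norm_eq_abs, abs_of_nonneg ht0]
    calc t * ‖tau K p x - (1 / 2 : ℝ) • ((H w : Tg K s) : E)‖ ≤ 1 * (ε / 2 * ‖w‖) :=
          mul_le_mul ht1 h3 (norm_nonneg _) (by norm_num)
      _ = ε / 2 * ‖w‖ := one_mul _
  linarith

end

end Pool.Agent.E8N.AChart
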