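import Pool.Agent.E8N.ZSurf

/-!
# E8N (2.4): the graph chart of S K at s, the function psi
-/

set_option autoImplicit false

open Metric Set Filter Topology

namespace Pool.Agent.E8N.AChi

noncomputable section

variable {E : Type*} [NormedAddCommGroup E] [InnerProductSpace ℝ E] [FiniteDimensional ℝ E]
variable {K : Set E} {ρ R : ℝ}

open ZProj ZSurf

/-- tangent space at `s` -/
abbrev Tg (K : Set E) (s : E) : Submodule ℝ E := (Submodule.span ℝ {nu K s})ᗮ

/-- tangential coordinate at `s` -/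
def pj (K : Set E) (s x : E) : Tg K s := (Tg K s).orthogonalProjectionOnto (x - s)

/-- the graph chart -/
def chi (K : Set E) (s : E) (psi : Tg K s → ℝ) (w : Tg K s) : E := s + (w : E) - psi w • nu K s

/-- `F^2 - F(s)^2` in the chart -/
def qf (K : Set E) (p s : E) (psi : Tg K s → ℝ) (w : Tg K s) : ℝ := F p (chi K s psi w) ^ 2 - F p s ^ 2

theorem pj_chi (K : Set E) (s : E) (psi : Tg K s → ℝ) (w : Tg K s) : pj K s (chi K s psi w) = w := by
  have h1 : (Tg K s).orthogonalProjectionOnto (nu K s) = 0 :=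
    Submodule.orthogonalProjectionOnto_orthogonalComplement_singleton_eq_zero _
  have h2 : chi K s psi w - s = (w : E) - psi w • nu K s := by
    unfold chi; abel
  rw [pj, h2, map_sub, map_smul, h1, smul_zero, sub_zero]
  exact Submodule.orthogonalProjectionOnto_mem_subspace_eq_self w

theorem pj_norm (K : Set E) (s x : E) : ‖pj K s x‖ ≤ ‖x - s‖ :=
  Submodule.norm_orthogonalProjectionOnto_apply_le _ _

theorem eq_pj {s x : E} (hs : s ∈ S K) : x = s + (pj K s x : E) + inner ℝ (nu K s) (x - s) • nu K s := by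
  have h1 : (pj K s x : E) = (x - s) - inner ℝ (nu K s) (x - s) • nu K s := by
    have h := Submodule.starProjection_orthogonal_val (K := Submodule.span ℝ {nu K s}) (x - s)
    rw [Submodule.starProjection_unit_singleton ℝ (nu_norm hs)] at h
    exact h
  rw [h1]; abel

theorem AChi_perp (K : Set E) (s : E) (w : Tg K s) : inner ℝ (nu K s) (w : E) = (0 : ℝ) :=
  Submodule.mem_orthogonal_singleton_iff_inner_right.1 w.2

/-- squared norm of `w + a ν` -/
theorem AChi_sq {s : E} (hs : s ∈ S K) (w : Tg K s) (a : ℝ) : ‖(w : E) + a • nu K s‖ ^ 2 = ‖w‖ ^ 2 + a ^ 2 := by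
  have h1 : inner ℝ (w : E) (nu K s) = (0 : ℝ) := by
    rw [real_inner_comm]; exact AChi_perp K s w
  rw [@norm_add_sq_real, inner_smul_right, h1, norm_smul, nu_norm hs, Real.norm_eq_abs, mul_one, sq_abs,
    Submodule.coe_norm]
  ring

/-- the graph function: `psi w` is the smallest `t ≥ 0` with `s + w - t ν ∈ K1` -/
theorem psi_exists (hK : Body K ρ R) {s : E} (hs : s ∈ S K) : ∃ psi : Tg K s → ℝ,
    (∀ w, ‖w‖ < 1 → 0 ≤ psi w ∧ psi w ≤ ‖w‖ ^ 2) ∧
    (∀ w, ‖w‖ < 1 → chi K s psi w ∈ S K) ∧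
    (∀ x ∈ S K, ‖x - s‖ < 1 → chi K s psi (pj K s x) = x) := by
  classical
  have hn := nu_norm hs
  -- points in the unit ball around `P s`
  have hball : ∀ (w : Tg K s) (t : ℝ), ‖w‖ ^ 2 + (1 - t) ^ 2 ≤ 1 →
      ‖(s + (w : E) - t • nu K s) - P K (s + (w : E) - t • nu K s)‖ ≤ 1 := by
    intro w t h
    refine ball_K1 hK (P_mem hK s) ?_
    have h1 : s + (w : E) - t • nu K s - P K s = (w : E) + (1 - t) • nu K s := by
      have : P K s = s - nu K s := by unfold nu; abel
      rw [this, sub_smul, one_smul]; abel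
    rw [h1]
    have h2 := AChi_sq hs w (1 - t)
    nlinarith [norm_nonneg ((w : E) + (1 - t) • nu K s)]
  have hK1 := K1_compact hK
  have key : ∀ w : Tg K s, ‖w‖ < 1 → ∃ t : ℝ, (0 ≤ t ∧ t ≤ ‖w‖ ^ 2) ∧
      ‖(s + (w : E) - t • nu K s) - P K (s + (w : E) - t • nu K s)‖ ≤ 1 ∧
      ∀ t', 0 ≤ t' → ‖(s + (w : E) - t' • nu K s) - P K (s + (w : E) - t' • nu K s)‖ ≤ 1 → t ≤ t' := by
    intro w hw
    set f : ℝ → E := fun t => s + (w : E) - t • nu K s with hf
    have hfc : Continuous f := by fun_prop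
    set T : Set ℝ := Icc 0 (‖w‖ ^ 2) ∩ f ⁻¹' {y | ‖y - P K y‖ ≤ 1} with hT
    have hTc : IsCompact T := isCompact_Icc.inter_right (hK1.isClosed.preimage hfc)
    have hTn : T.Nonempty := by
      refine ⟨‖w‖ ^ 2, ⟨by positivity, le_rfl⟩, hball w _ ?_⟩
      nlinarith [norm_nonneg w, sq_nonneg ‖w‖, mul_nonneg (sq_nonneg ‖w‖) (sub_nonneg.2 hw.le)]
    obtain ⟨t, ht, htm⟩ := hTc.exists_isMinOn hTn continuousOn_id
    refine ⟨t, ht.1, ht.2, fun t' h0 h1 => ?_⟩
    rcases le_or_gt t' (‖w‖ ^ 2) with h | h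
    · exact htm ⟨⟨h0, h⟩, h1⟩
    · exact ht.1.2.trans h.le
  choose! psi hpsi using key
  refine ⟨psi, fun w hw => (hpsi w hw).1, fun w hw => ?_, fun x hx hxs => ?_⟩
  · obtain ⟨⟨h0, h1⟩, h2, h3⟩ := hpsi w hw
    change ‖chi K s psi w - P K (chi K s psi w)‖ = 1
    refine le_antisymm h2 ?_
    rcases h0.eq_or_lt with h | h
    · refine side' hK hs ?_
      have : chi K s psi w - s = (w : E) := by unfold chi; rw [← h]; simp
      rw [this, AChi_perp]
    · by_contra hc
      push Not at hc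
      have hcont : Continuous fun t : ℝ => ‖(s + (w : E) - t • nu K s) - P K (s + (w : E) - t • nu K s)‖ := by
        have := P_cont hK
        fun_prop
      have hev : ∀ᶠ t in 𝓝 (psi w), ‖(s + (w : E) - t • nu K s) - P K (s + (w : E) - t • nu K s)‖ < 1 :=
        hcont.continuousAt.eventually_lt continuousAt_const hc
      have hev2 : ∀ᶠ t in 𝓝 (psi w), 0 < t := lt_mem_nhds h
      have hev3 : ∀ᶠ t in 𝓝[<] (psi w), (‖(s + (w : E) - t • nu K s) - P K (s + (w : E) - t • nu K s)‖ < 1 ∧ 0 < t) ∧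
          t ∈ Iio (psi w) := ((hev.and hev2).filter_mono nhdsWithin_le_nhds).and self_mem_nhdsWithin
      obtain ⟨t, ⟨ht1, ht2⟩, ht3⟩ := hev3.exists
      exact absurd (h3 t ht2.le ht1.le) (not_le.2 ht3)
  · set w := pj K s x with hw
    set t := - inner ℝ (nu K s) (x - s) with ht
    have hx0 : x = s + (w : E) - t • nu K s := by
      have := eq_pj (x := x) hs
      rw [ht, neg_smul, sub_neg_eq_add]; exact this
    have ht0 : 0 ≤ t := by
      have := side hK hs (hx.le : ‖x - P K x‖ ≤ 1)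
      linarith
    have hsq : ‖w‖ ^ 2 + t ^ 2 < 1 := by
      have h1 := AChi_sq hs w (-t)
      have h2 : (w : E) + (-t) • nu K s = x - s := by
        conv_rhs => rw [hx0]
        rw [neg_smul]; abel
      rw [h2] at h1
      have h3 : ‖x - s‖ ^ 2 < 1 := by nlinarith [norm_nonneg (x - s)]
      nlinarith
    have hw1 : ‖w‖ < 1 := by nlinarith [norm_nonneg w, sq_nonneg t]
    have ht1 : t < 1 := by nlinarith [norm_nonneg w, sq_nonneg ‖w‖]
    obtain ⟨⟨h0, h1⟩, h2, h3⟩ := hpsi w hw1
    have hxK : ‖x - P K x‖ ≤ 1 := (hx : ‖x - P K x‖ = 1).le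
    have hle : psi w ≤ t := h3 t ht0 (by rw [← hx0]; exact hxK)
    rcases hle.eq_or_lt with he | hlt
    · unfold chi; rw [he]; exact hx0.symm
    · exfalso
      -- supporting hyperplane at `x`
      have hnx := nu_norm hx
      have a1 := side hK hx h2
      have a2 := side hK hx (y := s + (w : E) - (1 : ℝ) • nu K s) (hball w 1 (by nlinarith [norm_nonneg w]))
      have a3 : ‖(s + (w : E) - (1 : ℝ) • nu K s + (1 - ‖w‖) • nu K x) -
          P K (s + (w : E) - (1 : ℝ) • nu K s + (1 - ‖w‖) • nu K x)‖ ≤ 1 := by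
        refine ball_K1 hK (P_mem hK s) ?_
        have e1 : s + (w : E) - (1 : ℝ) • nu K s + (1 - ‖w‖) • nu K x - P K s = (w : E) + (1 - ‖w‖) • nu K x := by
          have : P K s = s - nu K s := by unfold nu; abel
          rw [this, one_smul]; abel
        rw [e1]
        refine (norm_add_le _ _).trans ?_
        rw [norm_smul, hnx, Real.norm_eq_abs, abs_of_nonneg (by linarith), mul_one, Submodule.coe_norm]
        linarith
      have a4 := side hK hx a3
      have b1 : s + (w : E) - psi w • nu K s - x = (t - psi w) • nu K s := by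
        conv_lhs => rw [hx0]
        rw [sub_smul]; abel
      have b2 : s + (w : E) - (1 : ℝ) • nu K s - x = (t - 1) • nu K s := by
        conv_lhs => rw [hx0]
        rw [sub_smul]; abel
      have b3 : s + (w : E) - (1 : ℝ) • nu K s + (1 - ‖w‖) • nu K x - x = (t - 1) • nu K s + (1 - ‖w‖) • nu K x := by
        rw [← b2]; abel
      rw [b1, inner_smul_right] at a1
      rw [b2, inner_smul_right] at a2
      rw [b3, inner_add_right, inner_smul_right, inner_smul_right, real_inner_self_eq_norm_sq, hnx] at a4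
      have c1 : inner ℝ (nu K x) (nu K s) ≤ 0 := by
        by_contra hc
        push Not at hc
        nlinarith [mul_pos (sub_pos.2 hlt) hc]
      have c2 : 0 ≤ (t - 1) * inner ℝ (nu K x) (nu K s) := by nlinarith
      nlinarith

end

end Pool.Agent.E8N.AChi
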