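import Pool.Agent.E8N.ALin

/-!
# E8N (2.3): expansion of the normal along S K at a generic critical point
-/

set_option autoImplicit false

open Metric Set Filter Topology

namespace Pool.Agent.E8N.AExp

noncomputable section

variable {E : Type*} [NormedAddCommGroup E] [InnerProductSpace ℝ E] [FiniteDimensional ℝ E]
variable {K : Set E} {ρ R : ℝ}

open ZProj ZSurf AFib ALin Asymptotics

theorem nu_exp (hK : Body K ρ R) {p s : E} (hg : Generic K p) (hs : s ∈ Crit K p) :
    ∃ B : E →L[ℝ] E, (∀ h, F p s • B h = h → h = 0) ∧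
      (fun x => nu K x - nu K s - B (x - s)) =o[𝓝[S K] s] (fun x => x - s) := by
  obtain ⟨L, hL, h1, h2⟩ := lin hK hg hs
  have hpi := hg.1
  have hr := one_lt_F hK hs.1 hpi
  obtain ⟨r, hrr⟩ : ∃ r, r = F p s := ⟨_, rfl⟩
  rw [← hrr] at hL hr ⊢
  obtain ⟨B, hB1, hB2, c, hc, hB3⟩ := bop L h1 h2 hr
  refine ⟨B, hB2, ?_⟩
  have hy : ∀ x ∈ S K, P K (x + (r - 2) • nu K x) = x - nu K x := by
    intro x hx
    have e2 : P K x = x - nu K x := by unfold nu; abel
    have e : x + (r - 2) • nu K x = P K x + (r - 1) • (x - P K x) := by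
      rw [e2]
      module
    rw [e, P_ray hK x (by linarith)]
    exact e2
  have hlim : Tendsto (fun x => x + (r - 2) • nu K x) (𝓝[S K] s)
      (𝓝 (s + (r - 2) • nu K s)) :=
    ((continuous_id.add ((nu_cont hK).const_smul (r - 2))).tendsto s).mono_left
      nhdsWithin_le_nhds
  have ho := hL.isLittleO.comp_tendsto hlim
  have hO : (fun x => (x + (r - 2) • nu K x) - (s + (r - 2) • nu K s)) =O[𝓝[S K] s]
      (fun x => x - s) := by
    refine IsBigO.of_bound (1 + |r - 2|) (Eventually.of_forall (fun x => ?_))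
    have e : (x + (r - 2) • nu K x) - (s + (r - 2) • nu K s) =
        (x - s) + (r - 2) • (nu K x - nu K s) := by module
    rw [e]
    calc ‖(x - s) + (r - 2) • (nu K x - nu K s)‖ ≤
          ‖x - s‖ + ‖(r - 2) • (nu K x - nu K s)‖ := norm_add_le _ _
      _ = ‖x - s‖ + |r - 2| * ‖nu K x - nu K s‖ := by rw [norm_smul, Real.norm_eq_abs]
      _ ≤ ‖x - s‖ + |r - 2| * ‖x - s‖ := by
          have := mul_le_mul_of_nonneg_left (nu_lip hK x s) (abs_nonneg (r - 2))
          linarith
      _ = (1 + |r - 2|) * ‖x - s‖ := by ring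
  have ho2 := ho.trans_isBigO hO
  refine IsBigO.trans_isLittleO ?_ ho2
  refine IsBigO.of_bound c⁻¹ (eventually_nhdsWithin_of_forall (fun x hx => ?_))
  simp only [Function.comp]
  rw [hy x hx, hy s hs.1]
  have hb := hB1 (x - s)
  have key : (x - nu K x) - (s - nu K s) -
      L ((x + (r - 2) • nu K x) - (s + (r - 2) • nu K s)) =
      -((nu K x - nu K s - B (x - s)) + (r - 2) • L (nu K x - nu K s - B (x - s))) := by
    have e1 : (x + (r - 2) • nu K x) - (s + (r - 2) • nu K s) =
        (x - s) + (r - 2) • (nu K x - nu K s) := by module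
    have e2 : L (nu K x - nu K s - B (x - s)) = L (nu K x - nu K s) - L (B (x - s)) :=
      map_sub L _ _
    rw [e1, map_add, map_smul, e2]
    generalize L (nu K x - nu K s) = A
    have e3 : B (x - s) = (x - s) - L (x - s) - (r - 2) • L (B (x - s)) := by
      rw [← hb]
      abel
    generalize L (B (x - s)) = D at e3 ⊢
    rw [e3]
    module
  rw [key, norm_neg]
  have h3 := hB3 (nu K x - nu K s - B (x - s))
  rw [inv_mul_eq_div, le_div_iff₀ hc, mul_comm]
  exact h3

end

end Pool.Agent.E8N.AExp
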