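import Pool.Agent.E8N.ZSurf

/-!
# E8N (2.1): the fibre of 2P - id over p
-/

set_option autoImplicit false

open Metric Set Filter Topology

namespace Pool.Agent.E8N.AFib

noncomputable section

variable {E : Type*} [NormedAddCommGroup E] [InnerProductSpace ℝ E] [FiniteDimensional ℝ E]
variable {K : Set E} {ρ R : ℝ}

open ZProj ZSurf

/-- a critical point in terms of its normal -/
theorem AFib_crit (hK : Body K ρ R) {p s : E} (hp : p ∈ K) (hs : s ∈ Crit K p) :
    s - p = F p s • nu K s := by
  obtain ⟨h1, h2⟩ := hs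
  unfold tau at h2
  have h3 : s - p = inner ℝ (s - p) (nu K s) • nu K s := sub_eq_zero.mp h2
  have h4 := inner_ge_one hK h1 hp
  have h5 := nu_norm h1
  rw [real_inner_comm] at h4
  have h6 : F p s = inner ℝ (s - p) (nu K s) := by
    unfold F
    conv_lhs => rw [h3]
    rw [norm_smul, h5, mul_one, Real.norm_eq_abs, abs_of_nonneg (by linarith)]
  rw [h6]
  exact h3

theorem AFib_split (s : E) : s = P K s + nu K s := by
  unfold nu
  abel

theorem Pi_nonexp (hK : Body K ρ R) (y z : E) :
    ‖((2 : ℝ) • P K y - y) - ((2 : ℝ) • P K z - z)‖ ≤ ‖y - z‖ := by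
  have h := P_firm hK y z
  have e1 : ((2 : ℝ) • P K y - y) - ((2 : ℝ) • P K z - z) =
      (2 : ℝ) • (P K y - P K z) - (y - z) := by
    rw [smul_sub]
    abel
  rw [e1]
  have h2 : ‖(2 : ℝ) • (P K y - P K z) - (y - z)‖ ^ 2 ≤ ‖y - z‖ ^ 2 := by
    rw [norm_sub_sq_real, norm_smul, inner_smul_left, real_inner_comm (y - z)]
    simp only [Real.norm_ofNat, conj_trivial]
    nlinarith
  exact le_of_sq_le_sq h2 (norm_nonneg _)

theorem fib_mem (hK : Body K ρ R) {p s : E} (hp : p ∈ K) (hs : s ∈ Crit K p) :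
    P K (s + (F p s - 2) • nu K s) = P K s ∧
      (2 : ℝ) • P K (s + (F p s - 2) • nu K s) - (s + (F p s - 2) • nu K s) = p := by
  have h1 := one_le_F hK hs.1 hp
  have h2 := AFib_crit hK hp hs
  have h3 : s + (F p s - 2) • nu K s = P K s + (F p s - 1) • (s - P K s) := by
    have e : s - P K s = nu K s := rfl
    rw [e]
    conv_lhs => rw [AFib_split (K := K) s]
    have e2 : P K (P K s + nu K s) = P K s := by rw [← AFib_split (K := K) s]
    have e3 : nu K (P K s + nu K s) = nu K s := by rw [← AFib_split (K := K) s]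
    have e4 : F p (P K s + nu K s) = F p s := by rw [← AFib_split (K := K) s]
    rw [e3, e4]
    module
  have h4 : P K (s + (F p s - 2) • nu K s) = P K s := by
    rw [h3]
    exact P_ray hK s (by linarith)
  refine ⟨h4, ?_⟩
  rw [h4]
  have h5 : p = s - F p s • nu K s := by rw [← h2]; abel
  have h6 : P K s = s - nu K s := by unfold nu; abel
  rw [h6]
  conv_rhs => rw [h5]
  module

theorem fib_inv (hK : Body K ρ R) {p y : E} (hp : p ∈ K) (hy : (2 : ℝ) • P K y - y = p) :
    y = p ∨ ∃ s ∈ Crit K p, y = s + (F p s - 2) • nu K s := by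
  by_cases h0 : y = p
  · exact Or.inl h0
  right
  have h1 : P K y - p = y - P K y := by
    rw [← hy]
    module
  have h2 : y - P K y ≠ 0 := by
    intro h
    rw [h] at h1
    exact h0 ((sub_eq_zero.mp h).trans (sub_eq_zero.mp h1))
  have hr : 0 < ‖y - P K y‖ := norm_pos_iff.mpr h2
  obtain ⟨r, hrr⟩ : ∃ r, r = ‖y - P K y‖ := ⟨_, rfl⟩
  rw [← hrr] at hr
  obtain ⟨v, hv⟩ : ∃ v, v = r⁻¹ • (y - P K y) := ⟨_, rfl⟩
  have hv1 : ‖v‖ = 1 := by
    rw [hv, norm_smul, ← hrr, Real.norm_eq_abs, abs_of_pos (inv_pos.mpr hr),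
      inv_mul_cancel₀ hr.ne']
  have hv2 : y - P K y = r • v := by
    rw [hv, smul_smul, mul_inv_cancel₀ hr.ne', one_smul]
  have hP : P K (P K y + v) = P K y := by
    rw [hv]
    exact P_ray hK y (inv_nonneg.mpr hr.le)
  have hnu : nu K (P K y + v) = v := by
    unfold nu
    rw [hP]
    abel
  have hsp : (P K y + v) - p = (r + 1) • v := by
    have e : (P K y + v) - p = (P K y - p) + v := by abel
    rw [e, h1, hv2]
    module
  have hF : F p (P K y + v) = r + 1 := by
    unfold F
    rw [hsp, norm_smul, hv1, mul_one, Real.norm_eq_abs, abs_of_pos (by linarith)]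
  refine ⟨P K y + v, ⟨?_, ?_⟩, ?_⟩
  · show ‖(P K y + v) - P K (P K y + v)‖ = 1
    rw [hP, add_sub_cancel_left, hv1]
  · unfold tau
    rw [hnu, hsp, inner_smul_left, real_inner_self_eq_norm_sq, hv1]
    simp
  · rw [hF, hnu]
    have e : y = P K y + r • v := by rw [← hv2]; abel
    conv_lhs => rw [e]
    module

theorem fib_inj (hK : Body K ρ R) {p s s' : E} (hp : p ∈ interior K) (hs : s ∈ Crit K p) (hs' : s' ∈ Crit K p)
    (h : s + (F p s - 2) • nu K s = s' + (F p s' - 2) • nu K s') : s = s' := by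
  have hpK := interior_subset hp
  have h1 := (fib_mem hK hpK hs).1
  have h2 := (fib_mem hK hpK hs').1
  have h3 : P K s = P K s' := by rw [← h1, h, h2]
  have h4 := one_lt_F hK hs.1 hp
  have h5 := one_lt_F hK hs'.1 hp
  have n1 := nu_norm hs.1
  have n2 := nu_norm hs'.1
  have e1 : s + (F p s - 2) • nu K s = P K s + (F p s - 1) • nu K s := by
    have h6 : P K s = s - nu K s := by unfold nu; abel
    rw [h6]
    module
  have e2 : s' + (F p s' - 2) • nu K s' = P K s' + (F p s' - 1) • nu K s' := by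
    have h6 : P K s' = s' - nu K s' := by unfold nu; abel
    rw [h6]
    module
  rw [e1, e2, h3] at h
  have h7 := add_left_cancel h
  have h8 : F p s - 1 = F p s' - 1 := by
    have h9 := congrArg norm h7
    rw [norm_smul, norm_smul, n1, n2, mul_one, mul_one, Real.norm_eq_abs, Real.norm_eq_abs,
      abs_of_pos (by linarith), abs_of_pos (by linarith)] at h9
    exact h9
  rw [h8] at h7
  have h9 : nu K s = nu K s' := smul_right_injective E (by linarith : F p s' - 1 ≠ 0) h7
  rw [AFib_split (K := K) s, AFib_split (K := K) s', h3, h9]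

theorem fib_ne (hK : Body K ρ R) {p s : E} (hp : p ∈ interior K) (hs : s ∈ Crit K p) :
    s + (F p s - 2) • nu K s ≠ p := by
  intro h
  have hpK := interior_subset hp
  have h1 := (fib_mem hK hpK hs).1
  rw [h, P_of_mem hK hpK] at h1
  have h2 := one_lt_F hK hs.1 hp
  have h3 : F p s = 1 := by
    unfold F
    have e : s - p = nu K s := by unfold nu; rw [← h1]
    rw [e]
    exact nu_norm hs.1
  linarith

theorem fib_card (hK : Body K ρ R) {p : E} (hp : p ∈ interior K) (hf : (Crit K p).Finite) :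
    {y : E | (2 : ℝ) • P K y - y = p}.Finite ∧ {y : E | (2 : ℝ) • P K y - y = p}.ncard = (Crit K p).ncard + 1 := by
  have hpK := interior_subset hp
  have h1 : {y : E | (2 : ℝ) • P K y - y = p} =
      insert p ((fun s => s + (F p s - 2) • nu K s) '' Crit K p) := by
    ext y
    simp only [mem_ofPred_eq, mem_insert_iff, mem_image]
    constructor
    · intro hy
      rcases fib_inv hK hpK hy with h | ⟨s, hs, h⟩
      · exact Or.inl h
      · exact Or.inr ⟨s, hs, h.symm⟩
    · rintro (h | ⟨s, hs, h⟩)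
      · rw [h, P_of_mem hK hpK]
        module
      · rw [← h]
        exact (fib_mem hK hpK hs).2
  have h2 : ((fun s => s + (F p s - 2) • nu K s) '' Crit K p).Finite := hf.image _
  have h3 : p ∉ (fun s => s + (F p s - 2) • nu K s) '' Crit K p := by
    rintro ⟨s, hs, h⟩
    exact fib_ne hK hp hs h
  have h4 : InjOn (fun s => s + (F p s - 2) • nu K s) (Crit K p) :=
    fun s hs s' hs' h => fib_inj hK hp hs hs' h
  rw [h1]
  refine ⟨h2.insert p, ?_⟩
  rw [ncard_insert_of_notMem h3 h2, h4.ncard_image]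

end

end Pool.Agent.E8N.AFib
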