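import Pool.Agent.E8N.AFib

/-!
# E8N (2.2): generic points are dense (Rademacher and the area formula)

Use the measure `μH[Module.finrank ℝ E]` (it is an additive Haar measure), `LipschitzWith.ae_differentiableAt`,
`LipschitzWith.hausdorffMeasure_image_le`, `MeasureTheory.addHaar_image_eq_zero_of_det_fderivWithin_eq_zero`.
-/

set_option autoImplicit false

open Metric Set Filter Topology

namespace Pool.Agent.E8N.AGen

noncomputable section

variable {E : Type*} [NormedAddCommGroup E] [InnerProductSpace ℝ E] [FiniteDimensional ℝ E]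
variable {K : Set E} {ρ R : ℝ}

open ZProj ZSurf AFib

open MeasureTheory in
/-- Regular values of a nonexpansive map are dense. -/
theorem AGen_dense (f : E → E) (hf : ∀ y z, ‖f y - f z‖ ≤ ‖y - z‖) {U : Set E} (hU : IsOpen U) (hne : U.Nonempty) :
    ∃ q ∈ U, ∀ y, f y = q → ∃ L : E ≃L[ℝ] E, HasFDerivAt f (L : E →L[ℝ] E) y := by
  let _ : MeasurableSpace E := borel E
  have _ : BorelSpace E := ⟨rfl⟩
  have hL : LipschitzWith 1 f := LipschitzWith.of_dist_le_mul fun y z => by
    simpa [dist_eq_norm] using hf y z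
  set μ : Measure E := Measure.hausdorffMeasure (Module.finrank ℝ E : ℝ) with hμ
  have _ : μ.IsAddHaarMeasure := isAddHaarMeasure_hausdorffMeasure
  have hae : ∀ᵐ x ∂μ, DifferentiableAt ℝ f x := hL.ae_differentiableAt
  set A : Set E := {x | ¬ DifferentiableAt ℝ f x} with hA
  have hA0 : μ A = 0 := hae
  have hA1 : μ (f '' A) = 0 := by
    have h := hL.hausdorffMeasure_image_le (d := (Module.finrank ℝ E : ℝ)) (by positivity) A
    rw [← hμ, hA0, mul_zero] at h
    exact le_antisymm h (by positivity)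
  set B : Set E := {x | DifferentiableAt ℝ f x ∧ (fderiv ℝ f x).det = 0} with hB
  have hB1 : μ (f '' B) = 0 :=
    addHaar_image_eq_zero_of_det_fderivWithin_eq_zero μ
      (fun x hx => hx.1.hasFDerivAt.hasFDerivWithinAt) (fun x hx => hx.2)
  have hAB : μ (f '' A ∪ f '' B) = 0 := measure_union_null hA1 hB1
  have hpos : 0 < μ U := hU.measure_pos μ hne
  obtain ⟨q, hq, hq'⟩ : ∃ q ∈ U, q ∉ f '' A ∪ f '' B := by
    by_contra hc
    push Not at hc
    have : μ U ≤ 0 := hAB ▸ measure_mono hc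
    exact absurd hpos (not_lt.2 this)
  refine ⟨q, hq, fun y hy => ?_⟩
  have h1 : DifferentiableAt ℝ f y := by
    by_contra hc
    exact hq' (Or.inl ⟨y, hc, hy⟩)
  have h2 : (fderiv ℝ f y).det ≠ 0 := by
    intro hc
    exact hq' (Or.inr ⟨y, ⟨h1, hc⟩, hy⟩)
  refine ⟨(fderiv ℝ f y).toContinuousLinearEquivOfDetNeZero h2, ?_⟩
  rw [ContinuousLinearMap.coe_toContinuousLinearEquivOfDetNeZero]
  exact h1.hasFDerivAt

theorem generic_dense (hK : Body K ρ R) {p : E} (hp : p ∈ interior K) {ε : ℝ} (hε : 0 < ε) :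
    ∃ q, Generic K q ∧ ‖q - p‖ < ε := by
  obtain ⟨q, hq, h⟩ := AGen_dense (fun z => (2 : ℝ) • P K z - z) (Pi_nonexp hK)
    (U := interior K ∩ ball p ε) (isOpen_interior.inter isOpen_ball) ⟨p, hp, mem_ball_self hε⟩
  exact ⟨q, ⟨hq.1, h⟩, by simpa [dist_eq_norm] using hq.2⟩

end

end Pool.Agent.E8N.AGen
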