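import Pool.Agent.E8N.AFib

/-!
# E8N (2.3): linear algebra at a generic critical point
-/

set_option autoImplicit false

open Metric Set Filter Topology

namespace Pool.Agent.E8N.ALin

noncomputable section

variable {E : Type*} [NormedAddCommGroup E] [InnerProductSpace ℝ E] [FiniteDimensional ℝ E]
variable {K : Set E} {ρ R : ℝ}

open ZProj ZSurf AFib

/-- the derivative of `P` at the point of the fibre -/
theorem lin (hK : Body K ρ R) {p s : E} (hg : Generic K p) (hs : s ∈ Crit K p) :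
    ∃ L : E →L[ℝ] E, HasFDerivAt (P K) L (s + (F p s - 2) • nu K s) ∧ (∀ h, ‖L h‖ ^ 2 ≤ inner ℝ (L h) h) ∧
      ∀ h, (2 : ℝ) • L h = h → h = 0 := by
  obtain ⟨hp, hgen⟩ := hg
  set y0 : E := s + (F p s - 2) • nu K s with hy0
  obtain ⟨L0, hL0⟩ := hgen y0 (fib_mem hK (interior_subset hp) hs).2
  have hfun : P K = fun z => (1 / 2 : ℝ) • (((2 : ℝ) • P K z - z) + z) := by
    funext z
    rw [sub_add_cancel, smul_smul]
    norm_num
  have hder : HasFDerivAt (P K) ((1 / 2 : ℝ) • ((L0 : E →L[ℝ] E) + ContinuousLinearMap.id ℝ E)) y0 := by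
    have h1 := (hL0.add (hasFDerivAt_id y0)).const_smul (1 / 2 : ℝ)
    rw [hfun]
    exact h1
  refine ⟨(1 / 2 : ℝ) • ((L0 : E →L[ℝ] E) + ContinuousLinearMap.id ℝ E), hder, ?_, ?_⟩
  · intro h
    set L : E →L[ℝ] E := (1 / 2 : ℝ) • ((L0 : E →L[ℝ] E) + ContinuousLinearMap.id ℝ E) with hL
    have h1 : HasDerivAt (fun t : ℝ => P K (y0 + t • h)) (L h) 0 := hder.hasLineDerivAt h
    rw [hasDerivAt_iff_tendsto_slope_zero] at h1
    have h2 : Tendsto (fun t : ℝ => ‖t⁻¹ • (P K (y0 + (0 + t) • h) - P K (y0 + (0 : ℝ) • h))‖ ^ 2)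
        (𝓝[≠] 0) (𝓝 (‖L h‖ ^ 2)) := (h1.norm).pow 2
    have h3 : Tendsto (fun t : ℝ =>
        inner ℝ (t⁻¹ • (P K (y0 + (0 + t) • h) - P K (y0 + (0 : ℝ) • h))) h)
        (𝓝[≠] 0) (𝓝 (inner ℝ (L h) h)) := h1.inner tendsto_const_nhds
    refine le_of_tendsto_of_tendsto h2 h3 ?_
    filter_upwards [self_mem_nhdsWithin] with t ht
    have ht0 : t ≠ 0 := ht
    have h4 := P_firm hK (y0 + (0 + t) • h) (y0 + (0 : ℝ) • h)
    set D : E := P K (y0 + (0 + t) • h) - P K (y0 + (0 : ℝ) • h) with hD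
    have h5 : y0 + (0 + t) • h - (y0 + (0 : ℝ) • h) = t • h := by
      rw [zero_add, zero_smul, add_zero, add_sub_cancel_left]
    rw [h5, inner_smul_left] at h4
    have h6 : (starRingEnd ℝ) t = t := rfl
    rw [h6] at h4
    rw [norm_smul, mul_pow, inner_smul_left, Real.norm_eq_abs, sq_abs]
    have h7 : (starRingEnd ℝ) t⁻¹ = t⁻¹ := rfl
    rw [h7]
    have h8 : 0 < t⁻¹ ^ 2 := by positivity
    calc t⁻¹ ^ 2 * ‖D‖ ^ 2 ≤ t⁻¹ ^ 2 * (t * inner ℝ h D) := mul_le_mul_of_nonneg_left h4 h8.le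
      _ = t⁻¹ * inner ℝ D h := by
          rw [real_inner_comm D h]
          field_simp
  · intro h hh
    have h1 : (2 : ℝ) • (((1 / 2 : ℝ) • ((L0 : E →L[ℝ] E) + ContinuousLinearMap.id ℝ E)) h) = L0 h + h := by
      rw [ContinuousLinearMap.smul_apply, smul_smul, ContinuousLinearMap.add_apply]
      norm_num
    rw [h1] at hh
    have h2 : L0 h = 0 := by
      have := sub_eq_zero.mpr hh
      rwa [add_sub_cancel_right] at this
    exact L0.map_eq_zero_iff.mp h2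

/-- the operator `B = (1 + (r - 2) L)⁻¹ (1 - L)` -/
theorem bop (L : E →L[ℝ] E) (h1 : ∀ h, ‖L h‖ ^ 2 ≤ inner ℝ (L h) h) (h2 : ∀ h, (2 : ℝ) • L h = h → h = 0) {r : ℝ}
    (hr : 1 < r) : ∃ B : E →L[ℝ] E, (∀ h, B h + (r - 2) • L (B h) = h - L h) ∧ (∀ h, r • B h = h → h = 0) ∧
      ∃ c > 0, ∀ h, c * ‖h‖ ≤ ‖h + (r - 2) • L h‖ := by
  have hc0 : 0 < min 1 (r - 1) := lt_min one_pos (by linarith)
  have hcoer : ∀ h, min 1 (r - 1) * ‖h‖ ≤ ‖h + (r - 2) • L h‖ := by
    intro h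
    by_cases hh : ‖h‖ = 0
    · rw [hh, mul_zero]
      exact norm_nonneg _
    have hpos : 0 < ‖h‖ := lt_of_le_of_ne (norm_nonneg _) (Ne.symm hh)
    have e1 : inner ℝ (h + (r - 2) • L h) h = ‖h‖ ^ 2 + (r - 2) * inner ℝ (L h) h := by
      rw [inner_add_left, real_inner_smul_left, real_inner_self_eq_norm_sq]
    have e2 : inner ℝ (h + (r - 2) • L h) h ≤ ‖h + (r - 2) • L h‖ * ‖h‖ := real_inner_le_norm _ _
    have e3 : 0 ≤ inner ℝ (L h) h := (sq_nonneg _).trans (h1 h)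
    have e4 : inner ℝ (L h) h ≤ ‖h‖ ^ 2 := by
      have e5 : inner ℝ (L h) h ≤ ‖L h‖ * ‖h‖ := real_inner_le_norm _ _
      have e6 := h1 h
      have e7 := norm_nonneg (L h)
      have e8 : ‖L h‖ ≤ ‖h‖ := by
        by_contra hcon
        push Not at hcon
        have : ‖L h‖ * ‖h‖ < ‖L h‖ ^ 2 := by
          rw [sq]
          exact mul_lt_mul_of_pos_left hcon (hpos.trans hcon)
        linarith
      nlinarith
    have e9 : min 1 (r - 1) * ‖h‖ ^ 2 ≤ ‖h‖ ^ 2 + (r - 2) * inner ℝ (L h) h := by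
      rcases le_total 2 r with h2r | h2r
      · have : min 1 (r - 1) ≤ 1 := min_le_left _ _
        nlinarith [sq_nonneg ‖h‖]
      · have : min 1 (r - 1) ≤ r - 1 := min_le_right _ _
        nlinarith [sq_nonneg ‖h‖]
    have e10 : min 1 (r - 1) * ‖h‖ * ‖h‖ ≤ ‖h + (r - 2) • L h‖ * ‖h‖ := by
      rw [e1] at e2
      nlinarith
    exact le_of_mul_le_mul_right e10 hpos
  let A : E →ₗ[ℝ] E := LinearMap.id + (r - 2) • (L : E →ₗ[ℝ] E)
  have hA : ∀ h, A h = h + (r - 2) • L h := fun h => rfl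
  have hinj : Function.Injective A := by
    rw [injective_iff_map_eq_zero]
    intro h hh
    have h3 := hcoer h
    rw [← hA, hh, norm_zero] at h3
    have h4 : ‖h‖ ≤ 0 := by
      by_contra hcon
      push Not at hcon
      have := mul_pos hc0 hcon
      linarith
    exact norm_le_zero_iff.mp h4
  let A' : E ≃ₗ[ℝ] E := LinearEquiv.ofInjectiveEndo A hinj
  have hA' : ∀ h, A (A'.symm h) = h := fun h => A'.apply_symm_apply h
  let B : E →L[ℝ] E :=
    LinearMap.toContinuousLinearMap ((A'.symm : E →ₗ[ℝ] E) ∘ₗ (LinearMap.id - (L : E →ₗ[ℝ] E)))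
  have hB : ∀ h, B h = A'.symm (h - L h) := fun h => rfl
  have hAB : ∀ h, B h + (r - 2) • L (B h) = h - L h := by
    intro h
    rw [← hA, hB, hA']
  refine ⟨B, hAB, ?_, min 1 (r - 1), hc0, hcoer⟩
  intro h hh
  apply h2
  have h3 := hAB h
  have h4 : r • (B h + (r - 2) • L (B h)) = h + (r - 2) • L h := by
    rw [smul_add, smul_comm r (r - 2), ← map_smul L r (B h), hh]
  rw [h3] at h4
  have h5 : (r - 1) • h = (r - 1) • ((2 : ℝ) • L h) := by
    have e1 : r • (h - L h) = r • h - r • L h := smul_sub _ _ _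
    rw [e1] at h4
    have e2 : (r - 1) • h - (r - 1) • ((2 : ℝ) • L h) =
        (r • h - r • L h) - (h + (r - 2) • L h) := by
      simp only [sub_smul, smul_smul, one_smul]
      module
    rw [h4, sub_self] at e2
    exact sub_eq_zero.mp e2
  have h6 : (r - 1) ≠ 0 := by linarith
  exact (smul_right_injective E h6 h5).symm

end

end Pool.Agent.E8N.ALin
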