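import Pool.Agent.E8N.AChi

/-!
# E8N (2.4): psi is C^1 near 0 with gradient G
-/

set_option autoImplicit false

open Metric Set Filter Topology

namespace Pool.Agent.E8N.APsi

noncomputable section

variable {E : Type*} [NormedAddCommGroup E] [InnerProductSpace ℝ E] [FiniteDimensional ℝ E]
variable {K : Set E} {ρ R : ℝ}

open ZProj ZSurf AChi

/-- the slope of `S K` at `x` in the chart at `s` -/
def slope (K : Set E) (s x : E) : Tg K s :=
  (inner ℝ (nu K x) (nu K s))⁻¹ • (Tg K s).orthogonalProjectionOnto (nu K x)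

omit [FiniteDimensional ℝ E] in
theorem APsi_chi_sub (K : Set E) (s : E) (psi : Tg K s → ℝ) (w w' : Tg K s) :
    chi K s psi w' - chi K s psi w = ((w' - w : Tg K s) : E) - (psi w' - psi w) • nu K s := by
  unfold chi
  rw [Submodule.coe_sub, sub_smul]
  abel

theorem APsi_near {s : E} (hs : s ∈ S K) {psi : Tg K s → ℝ}
    (h1 : ∀ w, ‖w‖ < 1 → 0 ≤ psi w ∧ psi w ≤ ‖w‖ ^ 2) {w : Tg K s} (hw : ‖w‖ < 1) :
    ‖chi K s psi w - s‖ ≤ ‖w‖ + ‖w‖ ^ 2 := by
  have e : chi K s psi w - s = (w : E) - psi w • nu K s := by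
    unfold chi
    abel
  rw [e]
  refine (norm_sub_le _ _).trans ?_
  rw [norm_smul, nu_norm hs, mul_one, Real.norm_eq_abs, abs_of_nonneg (h1 w hw).1]
  have e2 : ‖(w : E)‖ = ‖w‖ := rfl
  rw [e2]
  linarith [(h1 w hw).2]

theorem APsi_inner (hK : Body K ρ R) {s : E} (hs : s ∈ S K) {psi : Tg K s → ℝ}
    (h1 : ∀ w, ‖w‖ < 1 → 0 ≤ psi w ∧ psi w ≤ ‖w‖ ^ 2) (h2 : ∀ w, ‖w‖ < 1 → chi K s psi w ∈ S K)
    {w : Tg K s} (hw : ‖w‖ < 1 / 4) :
    9 / 10 ≤ inner ℝ (nu K (chi K s psi w)) (nu K s) := by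
  have hw1 : ‖w‖ < 1 := by linarith
  have hx := h2 w hw1
  have a1 := nu_lip hK (chi K s psi w) s
  have a2 := APsi_near hs h1 hw1
  have a3 := norm_sub_sq_real (nu K (chi K s psi w)) (nu K s)
  rw [nu_norm hx, nu_norm hs] at a3
  have a4 : ‖nu K (chi K s psi w) - nu K s‖ ≤ 5 / 16 := by
    have := norm_nonneg w
    nlinarith
  have a5 : ‖nu K (chi K s psi w) - nu K s‖ ^ 2 ≤ (5 / 16) ^ 2 :=
    pow_le_pow_left₀ (norm_nonneg _) a4 2
  linarith

theorem APsi_sub (hK : Body K ρ R) {s : E} (hs : s ∈ S K) {psi : Tg K s → ℝ}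
    (h1 : ∀ w, ‖w‖ < 1 → 0 ≤ psi w ∧ psi w ≤ ‖w‖ ^ 2) (h2 : ∀ w, ‖w‖ < 1 → chi K s psi w ∈ S K)
    {w w' : Tg K s} (hw : ‖w‖ < 1 / 4) (hw' : ‖w'‖ < 1) :
    inner ℝ (slope K s (chi K s psi w)) (w' - w) ≤ psi w' - psi w := by
  have hx : chi K s psi w ∈ S K := h2 w (by linarith)
  have hy : chi K s psi w' ∈ S K := h2 w' hw'
  have a := side hK hx (y := chi K s psi w') (le_of_eq hy)
  rw [APsi_chi_sub, inner_sub_right, inner_smul_right] at a
  have b := APsi_inner hK hs h1 h2 hw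
  have c : inner ℝ (slope K s (chi K s psi w)) (w' - w) =
      (inner ℝ (nu K (chi K s psi w)) (nu K s))⁻¹ *
        inner ℝ (nu K (chi K s psi w)) ((w' - w : Tg K s) : E) := by
    unfold slope
    rw [inner_smul_left, Submodule.inner_orthogonalProjectionOnto_eq_of_mem_right]
    simp
  rw [c, inv_mul_le_iff₀ (by linarith)]
  linarith

theorem APsi_slope_norm (hK : Body K ρ R) {s : E} (hs : s ∈ S K) {psi : Tg K s → ℝ}
    (h1 : ∀ w, ‖w‖ < 1 → 0 ≤ psi w ∧ psi w ≤ ‖w‖ ^ 2) (h2 : ∀ w, ‖w‖ < 1 → chi K s psi w ∈ S K)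
    {w : Tg K s} (hw : ‖w‖ < 1 / 4) : ‖slope K s (chi K s psi w)‖ ≤ 2 := by
  have b := APsi_inner hK hs h1 h2 hw
  have hx : chi K s psi w ∈ S K := h2 w (by linarith)
  unfold slope
  rw [norm_smul, norm_inv, Real.norm_eq_abs, abs_of_pos (by linarith)]
  have a : ‖(Tg K s).orthogonalProjectionOnto (nu K (chi K s psi w))‖ ≤ 1 := by
    refine ((Tg K s).norm_orthogonalProjectionOnto_apply_le _).trans (le_of_eq ?_)
    exact nu_norm hx
  have c : (inner ℝ (nu K (chi K s psi w)) (nu K s))⁻¹ ≤ 2 := by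
    rw [inv_le_comm₀ (by linarith) (by norm_num)]
    linarith
  calc (inner ℝ (nu K (chi K s psi w)) (nu K s))⁻¹ *
        ‖(Tg K s).orthogonalProjectionOnto (nu K (chi K s psi w))‖ ≤ 2 * 1 :=
        mul_le_mul c a (norm_nonneg _) (by norm_num)
    _ = 2 := by norm_num

theorem psi_cont (hK : Body K ρ R) {s : E} (hs : s ∈ S K) {psi : Tg K s → ℝ}
    (h1 : ∀ w, ‖w‖ < 1 → 0 ≤ psi w ∧ psi w ≤ ‖w‖ ^ 2) (h2 : ∀ w, ‖w‖ < 1 → chi K s psi w ∈ S K) :
    ContinuousOn psi (ball 0 (1 / 4)) := by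
  have key : ∀ w ∈ ball (0 : Tg K s) (1 / 4), ∀ w' ∈ ball (0 : Tg K s) (1 / 4),
      psi w - psi w' ≤ 2 * dist w w' := by
    intro w hw w' hw'
    rw [mem_ball_zero_iff] at hw hw'
    have a := APsi_sub hK hs h1 h2 hw (show ‖w'‖ < 1 by linarith)
    have b : |inner ℝ (slope K s (chi K s psi w)) (w' - w)| ≤
        ‖slope K s (chi K s psi w)‖ * ‖w' - w‖ := abs_real_inner_le_norm _ _
    have c := APsi_slope_norm hK hs h1 h2 hw
    have d : ‖slope K s (chi K s psi w)‖ * ‖w' - w‖ ≤ 2 * ‖w' - w‖ :=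
      mul_le_mul_of_nonneg_right c (norm_nonneg _)
    rw [dist_comm, dist_eq_norm]
    have e := (abs_le.mp b).1
    linarith
  have hl : LipschitzOnWith 2 psi (ball 0 (1 / 4)) := by
    refine LipschitzOnWith.of_dist_le_mul fun w hw w' hw' => ?_
    rw [Real.dist_eq, abs_le]
    have a := key w hw w' hw'
    have b := key w' hw' w hw
    rw [dist_comm w' w] at b
    have e : ((2 : NNReal) : ℝ) = 2 := rfl
    rw [e]
    constructor <;> linarith
  exact hl.continuousOn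

theorem APsi_slope_cont (hK : Body K ρ R) {s : E} (hs : s ∈ S K) {psi : Tg K s → ℝ}
    (h1 : ∀ w, ‖w‖ < 1 → 0 ≤ psi w ∧ psi w ≤ ‖w‖ ^ 2) (h2 : ∀ w, ‖w‖ < 1 → chi K s psi w ∈ S K)
    {w : Tg K s} (hw : ‖w‖ < 1 / 4) :
    ContinuousAt (fun v => slope K s (chi K s psi v)) w := by
  have hpsi : ContinuousAt psi w := (psi_cont hK hs h1 h2).continuousAt
    (isOpen_ball.mem_nhds (by rw [mem_ball_zero_iff]; exact hw))
  have hchi : ContinuousAt (chi K s psi) w := by
    unfold chi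
    exact (continuousAt_const.add (Submodule.subtypeL _).continuous.continuousAt).sub
      (hpsi.smul continuousAt_const)
  have hnu : ContinuousAt (fun v => nu K (chi K s psi v)) w :=
    ContinuousAt.comp (nu_cont hK).continuousAt hchi
  have hin : ContinuousAt (fun v => inner ℝ (nu K (chi K s psi v)) (nu K s)) w :=
    hnu.inner continuousAt_const
  have b := APsi_inner hK hs h1 h2 hw
  unfold slope
  refine ContinuousAt.smul (hin.inv₀ (by intro h; rw [h] at b; norm_num at b)) ?_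
  exact ContinuousAt.comp (Tg K s).orthogonalProjectionOnto.continuous.continuousAt hnu

/-- `slope` is a subgradient, hence the gradient of `psi` -/
theorem psi_grad (hK : Body K ρ R) {s : E} (hs : s ∈ S K) {psi : Tg K s → ℝ}
    (h1 : ∀ w, ‖w‖ < 1 → 0 ≤ psi w ∧ psi w ≤ ‖w‖ ^ 2) (h2 : ∀ w, ‖w‖ < 1 → chi K s psi w ∈ S K)
    {w : Tg K s} (hw : ‖w‖ < 1 / 4) : HasFDerivAt psi (innerSL ℝ (slope K s (chi K s psi w))) w := by
  refine HasFDerivAt.of_isLittleO ?_
  rw [Asymptotics.isLittleO_iff]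
  intro c hc
  have hcont := APsi_slope_cont hK hs h1 h2 hw
  have hev : ∀ᶠ v in 𝓝 w, ‖slope K s (chi K s psi v) - slope K s (chi K s psi w)‖ ≤ c := by
    have := Metric.continuousAt_iff.mp hcont c hc
    obtain ⟨δ, hδ, h⟩ := this
    filter_upwards [Metric.ball_mem_nhds w hδ] with v hv
    have := h hv
    rw [dist_eq_norm] at this
    exact this.le
  have hball : ∀ᶠ v in 𝓝 w, ‖v‖ < 1 / 4 := by
    have := isOpen_ball.mem_nhds (show w ∈ ball (0 : Tg K s) (1 / 4) by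
      rw [mem_ball_zero_iff]; exact hw)
    filter_upwards [this] with v hv
    rwa [mem_ball_zero_iff] at hv
  filter_upwards [hev, hball] with v hv hv1
  have a := APsi_sub hK hs h1 h2 hw (show ‖v‖ < 1 by linarith)
  have b := APsi_sub hK hs h1 h2 hv1 (show ‖w‖ < 1 by linarith)
  have e : inner ℝ (slope K s (chi K s psi v) - slope K s (chi K s psi w)) (v - w) ≤
      ‖slope K s (chi K s psi v) - slope K s (chi K s psi w)‖ * ‖v - w‖ := real_inner_le_norm _ _
  have f : ‖slope K s (chi K s psi v) - slope K s (chi K s psi w)‖ * ‖v - w‖ ≤ c * ‖v - w‖ :=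
    mul_le_mul_of_nonneg_right hv (norm_nonneg _)
  have g : inner ℝ (slope K s (chi K s psi v)) (w - v) =
      - inner ℝ (slope K s (chi K s psi v)) (v - w) := by
    rw [← inner_neg_right, neg_sub]
  rw [g] at b
  rw [inner_sub_left] at e
  rw [Real.norm_eq_abs, abs_le, innerSL_apply_apply]
  constructor
  · have : 0 ≤ c * ‖v - w‖ := by positivity
    linarith
  · linarith

end

end Pool.Agent.E8N.APsi
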