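import Pool.Agent.E8N.ZRet

/-!
# E8N section 0: descending steps
-/

set_option autoImplicit false

open Metric Set Filter Topology

namespace Pool.Agent.E8N.ZGm

noncomputable section

variable {E : Type*} [NormedAddCommGroup E] [InnerProductSpace ℝ E] [FiniteDimensional ℝ E]
variable {K : Set E} {ρ R : ℝ}

open ZProj ZSurf ZRet

theorem tau_cont (hK : Body K ρ R) : Continuous fun z : E × E => tau K z.1 z.2 := by
  have hn := nu_cont hK
  unfold tau
  fun_prop

theorem tau_perp {p x : E} (hx : x ∈ S K) : inner ℝ (tau K p x) (nu K x) = 0 := by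
  have hn : inner ℝ (nu K x) (nu K x) = (1 : ℝ) := by
    rw [real_inner_self_eq_norm_sq, nu_norm hx, one_pow]
  rw [tau, inner_sub_left, real_inner_smul_left, hn, mul_one, sub_self]

theorem tau_inner {p x : E} (hx : x ∈ S K) : inner ℝ (tau K p x) (x - p) = ‖tau K p x‖ ^ 2 := by
  have h1 := tau_perp (p := p) hx
  have h2 : x - p = tau K p x + inner ℝ (x - p) (nu K x) • nu K x := by
    rw [tau, sub_add_cancel]
  rw [← real_inner_self_eq_norm_sq]
  conv_lhs => rw [h2]
  rw [inner_add_right, real_inner_smul_right]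
  rw [h1, mul_zero, add_zero]

theorem tau_le {p x : E} (hx : x ∈ S K) : ‖tau K p x‖ ≤ F p x := by
  have h1 := tau_inner (p := p) hx
  have h2 : inner ℝ (tau K p x) (x - p) ≤ ‖tau K p x‖ * ‖x - p‖ := real_inner_le_norm _ _
  unfold F
  by_cases h5 : ‖tau K p x‖ = 0
  · rw [h5]
    exact norm_nonneg _
  · have h6 : 0 < ‖tau K p x‖ := lt_of_le_of_ne (norm_nonneg _) (Ne.symm h5)
    nlinarith

/-- a point of the tangent plane is at distance between `1` and `1 + |w|^2 / 2` -/
theorem tangent_dist (hK : Body K ρ R) {x w : E} (hx : x ∈ S K) (hw : inner ℝ w (nu K x) = 0) :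
    1 ≤ ‖(x + w) - P K (x + w)‖ ∧ ‖(x + w) - P K (x + w)‖ ≤ 1 + ‖w‖ ^ 2 / 2 := by
  refine ⟨side' hK hx ?_, ?_⟩
  · rw [add_sub_cancel_left, real_inner_comm, hw]
  · have hPx : P K x ∈ K := P_mem hK x
    have h1 := P_near hK (x + w) hPx
    have h2 : ‖x + w - P K x‖ ^ 2 = 1 + ‖w‖ ^ 2 := by
      have e : x + w - P K x = w + nu K x := by
        rw [nu]
        abel
      rw [e, norm_add_sq_real, hw, nu_norm hx]
      ring
    have h3 : ‖x + w - P K x‖ ≤ 1 + ‖w‖ ^ 2 / 2 := by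
      refine abs_le_of_sq_le_sq' ?_ (by positivity) |>.2
      rw [h2]
      nlinarith [sq_nonneg (‖w‖ ^ 2)]
    linarith

theorem gm_mem (hK : Body K ρ R) {s : ℝ} {p x : E} (hx : x ∈ S K) : gm K s p x ∈ S K := by
  unfold gm
  rw [sub_eq_add_neg]
  refine P1_mem hK (tangent_dist hK hx ?_).1
  rw [inner_neg_left, real_inner_smul_left, tau_perp hx, mul_zero, neg_zero]

theorem gm_cont (hK : Body K ρ R) : Continuous fun z : ℝ × E × E => gm K z.1 z.2.1 z.2.2 := by
  have h1 := P1_cont hK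
  have h2 := tau_cont hK
  unfold gm
  refine h1.comp ?_
  have h3 : Continuous fun z : ℝ × E × E => tau K z.2.1 z.2.2 := h2.comp continuous_snd
  fun_prop

theorem gm_zero (hK : Body K ρ R) {p x : E} (hx : x ∈ S K) : gm K 0 p x = x := by
  unfold gm
  rw [zero_smul, sub_zero]
  exact P1_of_le (le_of_eq hx)

theorem gm_dec (hK : Body K ρ R) {s : ℝ} {p x : E} (hx : x ∈ S K) (hp : p ∈ K) (h0 : 0 ≤ s) (h1 : s ≤ 1) :
    F p (gm K s p x) ^ 2 + (2 * s - s ^ 2) * ‖tau K p x‖ ^ 2 ≤ F p x ^ 2 := by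
  have hpK : P1 K p = p := P1_of_le (by rw [P_of_mem hK hp, sub_self, norm_zero]; exact zero_le_one)
  have h1 : F p (gm K s p x) ≤ ‖x - s • tau K p x - p‖ := by
    unfold F gm
    have := P1_nonexp hK (x - s • tau K p x) p
    rwa [hpK] at this
  have h2 : ‖x - s • tau K p x - p‖ ^ 2 = F p x ^ 2 - (2 * s - s ^ 2) * ‖tau K p x‖ ^ 2 := by
    have e : x - s • tau K p x - p = (x - p) - s • tau K p x := by abel
    have e2 : inner ℝ (x - p) (tau K p x) = ‖tau K p x‖ ^ 2 := by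
      rw [real_inner_comm]
      exact tau_inner hx
    rw [e, norm_sub_sq_real, real_inner_smul_right, e2, norm_smul, mul_pow, Real.norm_eq_abs, sq_abs, F]
    ring
  have h3 : 0 ≤ F p (gm K s p x) := norm_nonneg _
  have h4 : F p (gm K s p x) ^ 2 ≤ ‖x - s • tau K p x - p‖ ^ 2 := by gcongr
  linarith

theorem crit_eq {p x : E} (h : x ∈ Crit K p) (hK : Body K ρ R) (hp : p ∈ K) : x - p = F p x • nu K x := by
  obtain ⟨hx, h0⟩ := h
  have h1 : x - p = inner ℝ (x - p) (nu K x) • nu K x := sub_eq_zero.mp h0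
  have h2 := inner_ge_one hK hx hp
  have h3 : F p x = inner ℝ (x - p) (nu K x) := by
    rw [real_inner_comm] at h2
    unfold F
    conv_lhs => rw [h1]
    rw [norm_smul, nu_norm hx, mul_one, Real.norm_eq_abs, abs_of_nonneg (by linarith)]
  rw [h3]
  exact h1

/-- a step moves the point by `- s τ` up to a second order error -/
theorem gm_near (hK : Body K ρ R) {s : ℝ} {p x : E} (hx : x ∈ S K) :
    ‖gm K s p x - (x - s • tau K p x)‖ ≤ s ^ 2 * ‖tau K p x‖ ^ 2 / 2 := by
  have hw : inner ℝ (-(s • tau K p x)) (nu K x) = 0 := by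
    rw [inner_neg_left, real_inner_smul_left, tau_perp hx, mul_zero, neg_zero]
  obtain ⟨h1, h2⟩ := tangent_dist hK hx hw
  rw [← sub_eq_add_neg] at h1 h2
  unfold gm
  rw [norm_sub_rev, P1_dist hK h1]
  have h3 : ‖-(s • tau K p x)‖ ^ 2 = s ^ 2 * ‖tau K p x‖ ^ 2 := by
    rw [norm_neg, norm_smul, mul_pow, Real.norm_eq_abs, sq_abs]
  rw [h3] at h2
  linarith

end

end Pool.Agent.E8N.ZGm
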