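import Pool.Agent.E8N.APsi
import Pool.Agent.E8N.AExp
import Pool.Agent.E8N.ZGm

/-!
# E8N (2.4): the expansion of q = F^2 - F(s)^2 in the chart
-/

set_option autoImplicit false

open Metric Set Filter Topology

namespace Pool.Agent.E8N.AQ

noncomputable section

variable {E : Type*} [NormedAddCommGroup E] [InnerProductSpace ℝ E] [FiniteDimensional ℝ E]
variable {K : Set E} {ρ R : ℝ}

open ZProj ZSurf AFib ALin AExp AChi APsi Asymptotics

/-- the slope has the derivative `B` (compressed to the tangent space) at `0`; `B` is symmetric there and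
`1 - r B` is injective there -/
theorem slope_exp (hK : Body K ρ R) {p s : E} (hg : Generic K p) (hs : s ∈ Crit K p) {psi : Tg K s → ℝ}
    (h1 : ∀ w, ‖w‖ < 1 → 0 ≤ psi w ∧ psi w ≤ ‖w‖ ^ 2) (h2 : ∀ w, ‖w‖ < 1 → chi K s psi w ∈ S K) :
    ∃ (B : E →L[ℝ] E) (C : Tg K s →L[ℝ] Tg K s), (∀ w, ((C w : Tg K s) : E) = B (w : E)) ∧
      (∀ v w, inner ℝ (C v) w = inner ℝ v (C w)) ∧ (∀ w, F p s • C w = w → w = 0) ∧
      (fun w : Tg K s => nu K (chi K s psi w) - nu K s - B (w : E)) =o[𝓝 0] (fun w => w) ∧
      (fun w : Tg K s => slope K s (chi K s psi w) - C w) =o[𝓝 0] (fun w => w) := by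
  have hsS : s ∈ S K := hs.1
  obtain ⟨B, hB1, hB2⟩ := nu_exp hK hg hs
  have h0 : psi 0 = 0 := by
    have h := h1 0 (by rw [norm_zero]; exact zero_lt_one)
    rw [norm_zero] at h
    norm_num at h
    exact le_antisymm h.2 h.1
  have hchi0 : chi K s psi 0 = s := by
    unfold chi
    rw [h0]
    simp
  have hsub : ∀ w : Tg K s, chi K s psi w - s = (w : E) - psi w • nu K s := by
    intro w
    unfold chi
    abel
  have hball : ∀ᶠ w : Tg K s in 𝓝 0, ‖w‖ < 1 / 4 := by
    filter_upwards [Metric.ball_mem_nhds (0 : Tg K s) (show (0 : ℝ) < 1 / 4 by norm_num)] with w hw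
    rwa [mem_ball_zero_iff] at hw
  -- the second order term
  have hpsi : (fun w : Tg K s => psi w • nu K s) =o[𝓝 0] (fun w => w) := by
    rw [Asymptotics.isLittleO_iff]
    intro c hc
    filter_upwards [hball, Metric.ball_mem_nhds (0 : Tg K s) hc] with w hw hw'
    rw [mem_ball_zero_iff] at hw'
    have h := h1 w (by linarith)
    rw [norm_smul, nu_norm hsS, mul_one, Real.norm_eq_abs, abs_of_nonneg h.1]
    refine h.2.trans ?_
    rw [pow_two]
    exact mul_le_mul_of_nonneg_right hw'.le (norm_nonneg _)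
  have hid : (fun w : Tg K s => (w : E)) =O[𝓝 0] (fun w => w) := by
    refine Asymptotics.IsBigO.of_bound 1 (Eventually.of_forall fun w => ?_)
    rw [one_mul]
    exact le_of_eq rfl
  have hchiO : (fun w : Tg K s => chi K s psi w - s) =O[𝓝 0] (fun w => w) := by
    have h : (fun w : Tg K s => chi K s psi w - s) = fun w : Tg K s => (w : E) - psi w • nu K s :=
      funext hsub
    rw [h]
    exact hid.sub hpsi.isBigO
  have hchi_cont : Tendsto (chi K s psi) (𝓝 0) (𝓝 s) := by
    have h : Tendsto (fun w : Tg K s => chi K s psi w - s) (𝓝 0) (𝓝 0) :=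
      hchiO.trans_tendsto tendsto_id
    have h2 := h.add_const s
    simpa using h2
  have htend : Tendsto (chi K s psi) (𝓝 0) (𝓝[S K] s) := by
    rw [tendsto_nhdsWithin_iff]
    refine ⟨hchi_cont, ?_⟩
    filter_upwards [hball] with w hw
    exact h2 w (by linarith)
  have e1 : (fun w : Tg K s => nu K (chi K s psi w) - nu K s - B (chi K s psi w - s)) =o[𝓝 0]
      (fun w => chi K s psi w - s) := hB2.comp_tendsto htend
  have e2 := e1.trans_isBigO hchiO
  have e3 : (fun w : Tg K s => nu K (chi K s psi w) - nu K s - B (w : E)) =o[𝓝 0]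
      (fun w => w) := by
    have h : (fun w : Tg K s => nu K (chi K s psi w) - nu K s - B (w : E)) = fun w =>
        (nu K (chi K s psi w) - nu K s - B (chi K s psi w - s)) - B (psi w • nu K s) := by
      funext w
      rw [hsub w, map_sub]
      abel
    rw [h]
    exact e2.sub ((B.isBigO_comp _ _).trans_isLittleO hpsi)
  -- the image of the tangent space
  obtain ⟨ℓ, hℓ⟩ : ∃ ℓ : Tg K s →L[ℝ] ℝ, ∀ w, ℓ w = inner ℝ (nu K s) (B (w : E)) :=
    ⟨((innerSL ℝ (nu K s)).comp B).comp (Tg K s).subtypeL, fun w => rfl⟩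
  have hℓo : (fun w : Tg K s => ℓ w) =o[𝓝 0] (fun w => w) := by
    have a1 : (fun w : Tg K s => inner ℝ (nu K s)
        (nu K (chi K s psi w) - nu K s - B (w : E))) =o[𝓝 0] (fun w => w) := by
      have := ((innerSL ℝ (nu K s)).isBigO_comp (fun w : Tg K s =>
        nu K (chi K s psi w) - nu K s - B (w : E)) (𝓝 0)).trans_isLittleO e3
      exact this
    have a2 : (fun w : Tg K s => inner ℝ (nu K s)
        (nu K (chi K s psi w) - nu K s)) =o[𝓝 0] (fun w => w) := by
      rw [Asymptotics.isLittleO_iff]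
      intro c hc
      filter_upwards [hball, Metric.ball_mem_nhds (0 : Tg K s) (show 0 < c / 2 by linarith)]
        with w hw hw'
      rw [mem_ball_zero_iff] at hw'
      have hx := h2 w (by linarith)
      have b1 := norm_sub_sq_real (nu K (chi K s psi w)) (nu K s)
      rw [nu_norm hx, nu_norm hsS] at b1
      have b2 : inner ℝ (nu K s) (nu K (chi K s psi w) - nu K s) =
          -(‖nu K (chi K s psi w) - nu K s‖ ^ 2 / 2) := by
        rw [inner_sub_right, real_inner_self_eq_norm_sq, nu_norm hsS, real_inner_comm]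
        linarith
      have b3 : ‖nu K (chi K s psi w) - nu K s‖ ≤ 2 * ‖w‖ := by
        refine (nu_lip hK _ _).trans ((APsi_near hsS h1 (by linarith)).trans ?_)
        have := norm_nonneg w
        nlinarith
      rw [b2, norm_neg, Real.norm_eq_abs, abs_of_nonneg (by positivity)]
      have b4 : ‖nu K (chi K s psi w) - nu K s‖ ^ 2 ≤ (2 * ‖w‖) ^ 2 :=
        pow_le_pow_left₀ (norm_nonneg _) b3 2
      have b5 : ‖w‖ * ‖w‖ ≤ c / 2 * ‖w‖ := mul_le_mul_of_nonneg_right hw'.le (norm_nonneg _)
      nlinarith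
    have h : (fun w : Tg K s => ℓ w) = fun w => inner ℝ (nu K s)
        (nu K (chi K s psi w) - nu K s) - inner ℝ (nu K s)
        (nu K (chi K s psi w) - nu K s - B (w : E)) := by
      funext w
      rw [hℓ, ← inner_sub_right]
      congr 1
      abel
    rw [h]
    exact a2.sub a1
  have hℓ0 : ℓ = 0 := by
    have d1 : HasFDerivAt (fun w : Tg K s => ℓ w) (0 : Tg K s →L[ℝ] ℝ) 0 := by
      refine HasFDerivAt.of_isLittleO ?_
      simpa using hℓo
    have d2 : HasFDerivAt (fun w : Tg K s => ℓ w) ℓ 0 := ℓ.hasFDerivAt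
    exact d2.unique d1
  have hBT : ∀ w : Tg K s, B (w : E) ∈ Tg K s := by
    intro w
    rw [Submodule.mem_orthogonal_singleton_iff_inner_right, ← hℓ, hℓ0]
    rfl
  obtain ⟨C, hC⟩ : ∃ C : Tg K s →L[ℝ] Tg K s, ∀ w, ((C w : Tg K s) : E) = B (w : E) := by
    refine ⟨((Tg K s).orthogonalProjectionOnto.comp B).comp (Tg K s).subtypeL, fun w => ?_⟩
    have h : (((Tg K s).orthogonalProjectionOnto.comp B).comp (Tg K s).subtypeL) w =
        (Tg K s).orthogonalProjectionOnto (((⟨B (w : E), hBT w⟩ : Tg K s)) : E) := rfl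
    rw [h, Submodule.orthogonalProjectionOnto_mem_subspace_eq_self]
  -- the slope
  have hpr0 : (Tg K s).orthogonalProjectionOnto (nu K s) = 0 :=
    Submodule.orthogonalProjectionOnto_orthogonalComplement_singleton_eq_zero (nu K s)
  have e4 : (fun w : Tg K s => (Tg K s).orthogonalProjectionOnto (nu K (chi K s psi w)) - C w)
      =o[𝓝 0] (fun w => w) := by
    have h : (fun w : Tg K s => (Tg K s).orthogonalProjectionOnto (nu K (chi K s psi w)) - C w) =
        fun w => (Tg K s).orthogonalProjectionOnto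
          (nu K (chi K s psi w) - nu K s - B (w : E)) := by
      funext w
      rw [map_sub, map_sub, hpr0, sub_zero, ← hC w,
        Submodule.orthogonalProjectionOnto_mem_subspace_eq_self]
    rw [h]
    exact ((Tg K s).orthogonalProjectionOnto.isBigO_comp _ _).trans_isLittleO e3
  have e5 : (fun w : Tg K s => (Tg K s).orthogonalProjectionOnto (nu K (chi K s psi w)))
      =O[𝓝 0] (fun w => w) := by
    have h : (fun w : Tg K s => (Tg K s).orthogonalProjectionOnto (nu K (chi K s psi w))) =
        fun w => ((Tg K s).orthogonalProjectionOnto (nu K (chi K s psi w)) - C w) + C w := by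
      funext w
      abel
    rw [h]
    exact e4.isBigO.add (C.isBigO_id _)
  have e6 : Tendsto (fun w : Tg K s => (inner ℝ (nu K (chi K s psi w)) (nu K s))⁻¹ - 1)
      (𝓝 0) (𝓝 0) := by
    have c1 : Tendsto (fun w : Tg K s => nu K (chi K s psi w)) (𝓝 0) (𝓝 (nu K s)) :=
      ((nu_cont hK).tendsto s).comp hchi_cont
    have c2 : Tendsto (fun w : Tg K s => inner ℝ (nu K (chi K s psi w)) (nu K s)) (𝓝 0)
        (𝓝 (inner ℝ (nu K s) (nu K s))) := c1.inner tendsto_const_nhds
    have c3 : inner ℝ (nu K s) (nu K s) = (1 : ℝ) := by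
      rw [real_inner_self_eq_norm_sq, nu_norm hsS]
      norm_num
    rw [c3] at c2
    have c4 := (c2.inv₀ one_ne_zero).sub_const 1
    simpa using c4
  have e7 : (fun w : Tg K s => ((inner ℝ (nu K (chi K s psi w)) (nu K s))⁻¹ - 1) •
      (Tg K s).orthogonalProjectionOnto (nu K (chi K s psi w))) =o[𝓝 0] (fun w => w) := by
    have c1 : (fun w : Tg K s => (inner ℝ (nu K (chi K s psi w)) (nu K s))⁻¹ - 1) =o[𝓝 0]
        (fun _ => (1 : ℝ)) := (Asymptotics.isLittleO_one_iff ℝ).mpr e6
    have c2 := c1.smul_isBigO e5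
    simpa using c2
  have e8 : (fun w : Tg K s => slope K s (chi K s psi w) - C w) =o[𝓝 0] (fun w => w) := by
    have h : (fun w : Tg K s => slope K s (chi K s psi w) - C w) = fun w =>
        ((inner ℝ (nu K (chi K s psi w)) (nu K s))⁻¹ - 1) •
          (Tg K s).orthogonalProjectionOnto (nu K (chi K s psi w)) +
        ((Tg K s).orthogonalProjectionOnto (nu K (chi K s psi w)) - C w) := by
      funext w
      unfold APsi.slope
      rw [sub_smul, one_smul]
      abel
    rw [h]
    exact e7.add e4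
  refine ⟨B, C, hC, ?_, ?_, e3, e8⟩
  · -- symmetry
    have hder : ∀ᶠ w : Tg K s in 𝓝 0,
        HasFDerivAt psi (innerSL ℝ (slope K s (chi K s psi w))) w := by
      filter_upwards [hball] with w hw
      exact psi_grad hK hsS h1 h2 hw
    have hslope0 : slope K s (chi K s psi 0) = 0 := by
      rw [hchi0]
      unfold APsi.slope
      rw [hpr0, smul_zero]
    have hder2 : HasFDerivAt (fun w : Tg K s => innerSL ℝ (slope K s (chi K s psi w)))
        ((innerSL ℝ : Tg K s →L[ℝ] Tg K s →L[ℝ] ℝ).comp C) 0 := by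
      refine HasFDerivAt.of_isLittleO ?_
      have h : (fun w : Tg K s => innerSL ℝ (slope K s (chi K s psi w)) -
          innerSL ℝ (slope K s (chi K s psi 0)) -
          ((innerSL ℝ : Tg K s →L[ℝ] Tg K s →L[ℝ] ℝ).comp C) (w - 0)) = fun w =>
          (innerSL ℝ : Tg K s →L[ℝ] Tg K s →L[ℝ] ℝ) (slope K s (chi K s psi w) - C w) := by
        funext w
        rw [hslope0, map_zero, sub_zero, sub_zero, map_sub]
        rfl
      rw [h]
      have h' : (fun w : Tg K s => w - 0) = fun w => w := by
        funext w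
        rw [sub_zero]
      rw [h']
      exact ((innerSL ℝ : Tg K s →L[ℝ] Tg K s →L[ℝ] ℝ).isBigO_comp _ _).trans_isLittleO e8
    intro v w
    have hsym := second_derivative_symmetric_of_eventually_of_real hder hder2 v w
    have h3 : inner ℝ (C v) w = inner ℝ (C w) v := hsym
    rw [h3, real_inner_comm]
  · intro w hw
    have h3 : F p s • B (w : E) = (w : E) := by
      rw [← hC w, ← Submodule.coe_smul, hw]
    have h4 := hB1 (w : E) h3
    exact Submodule.coe_eq_zero.mp h4

end

end Pool.Agent.E8N.AQ
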