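import Pool.Agent.E8N.T_CD

/-!
# E8N module T_CN

COUNTING. `cn_pass`: A ≠ A' components of {f < c}, x ∈ A, y ∈ A', pass f x y = c: there is s ∈ Z with f s = c in the closures of two different components (LPass f s): else cd_graph with FA = {A} (closures of A and of other components are disjoint by cb_inter and the absence of s) gives c < pass. `cn_two`: x, y separated, c = pass, A ∋ x, A' ∋ y
(pb_sepd'), minima m1 ∈ A, m2 ∈ A' (cc_min), s from cn_pass. `cn_three`: x, y, z pairwise separated. By pa_ultra the two largest of the three levels are equal; after renaming (Sepd is symmetric) c1 = pass x y ≤ c2 = pass y z = pass x z. Ax, Ay: components of {f < c1}, different; Az: component of z in {f < c2}; x, y ∉ Az (pb_lt). Minima m1 ∈ Ax, m2 ∈ Ay,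
m3 ∈ Az; m3 ≠ m1: m1 is in the component of x in {f < c2} (contains Ax), which is disjoint from Az. If c1 < c2: s1 from cn_pass at level c1, s2 at level c2 (components of y and z in {f < c2}), f s1 ≠ f s2. If c1 = c2 = c: Ax, Ay, Az pairwise different components of {f < c}. s1 from cn_pass, touching B ≠ B'. One of Ax, Ay, Az, say A*, is neither
B nor B'. If there were no second pass at level c then the closure of A* does not meet the closure of any other component (cb_inter: the common point is a pass of level c, so it is s1, in the closures of A*, B, B': against htouch), so cd_graph with FA = {A*} gives pass > c for a point of A* and a point of another of Ax, Ay, Az, contradiction.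
-/

set_option autoImplicit false

open Metric Set Filter Topology

namespace Pool.Agent.E8N

variable {α : Type*} [MetricSpace α] [CompactSpace α] [ConnectedSpace α] [LocallyPathConnectedSpace α]


theorem cn_lpass {f : α → ℝ} {Z : Set α} {g : ℝ → α → α} (hd : Desc f Z g) {A A' : Set α} {c : ℝ}
    (hA : IsComp {z | f z < c} A) (hA' : IsComp {z | f z < c} A') (h : A ≠ A') {z : α} (hz : z ∈ closure A)
    (hz' : z ∈ closure A') : z ∈ Z ∧ f z = c ∧ LPass f z := by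
  obtain ⟨h1, h2⟩ := cb_inter hd hA hA' h hz hz'
  subst h2
  exact ⟨h1, rfl, A, A', hA, hA', h, hz, hz'⟩

theorem cn_pass {f : α → ℝ} {Z : Set α} {g : ℝ → α → α} (hd : Desc f Z g) (hZ : Z.Finite) {A A' : Set α} {c : ℝ}
    (hA : IsComp {z | f z < c} A) (hA' : IsComp {z | f z < c} A') (h : A ≠ A') {x y : α} (hx : x ∈ A) (hy : y ∈ A')
    (hc : pass (univ : Set α) f x y = c) : ∃ s ∈ Z, f s = c ∧ LPass f s := by
  by_contra hcon
  push Not at hcon
  have h1 : c < pass (univ : Set α) f x y := by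
    refine cd_graph hd hZ (FA := {A}) ?_ ?_ (A := A) (A' := A') rfl hA' (fun h2 => h h2.symm) hx hy
    · rintro B rfl
      exact hA
    · rintro B rfl B' hB' hn
      rw [Set.disjoint_left]
      intro z hz hz'
      obtain ⟨h2, h3, h4⟩ := cn_lpass hd hA hB' (fun h5 => hn h5.symm) hz hz'
      exact hcon z h2 h3 h4
  exact absurd hc h1.ne'

theorem cn_two {f : α → ℝ} {Z : Set α} {g : ℝ → α → α} (hd : Desc f Z g) (hZ : Z.Finite)
    (h : Two (univ : Set α) f) : ∃ m₁ m₂ s, m₁ ∈ Z ∧ m₂ ∈ Z ∧ s ∈ Z ∧ m₁ ≠ m₂ ∧ IsLocalMin f m₁ ∧ IsLocalMin f m₂ ∧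
      LPass f s := by
  obtain ⟨x, -, y, -, hxy⟩ := h
  obtain ⟨A, A', hA, hA', hne, hx, hy⟩ := pb_sepd' hd.fc hxy
  obtain ⟨m₁, hm₁, hz₁, hl₁, -⟩ := cc_min hd hA
  obtain ⟨m₂, hm₂, hz₂, hl₂, -⟩ := cc_min hd hA'
  obtain ⟨s, hs, -, hp⟩ := cn_pass hd hZ hA hA' hne hx hy rfl
  refine ⟨m₁, m₂, s, hz₁, hz₂, hs, ?_, hl₁, hl₂, hp⟩
  rintro rfl
  exact Set.disjoint_left.mp (ca_disj hA hA' hne) hm₁ hm₂

theorem cn_second {f : α → ℝ} {Z : Set α} {g : ℝ → α → α} (hd : Desc f Z g) (hZ : Z.Finite)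
    (htouch : ∀ s ∈ Z, ∀ A₁ A₂ A₃ : Set α, IsComp {z | f z < f s} A₁ → IsComp {z | f z < f s} A₂ →
      IsComp {z | f z < f s} A₃ → s ∈ closure A₁ → s ∈ closure A₂ → s ∈ closure A₃ → A₁ ≠ A₂ → A₃ = A₁ ∨ A₃ = A₂)
    {c : ℝ} {s : α} (hs : s ∈ Z) (hsc : f s = c) {B B' A A' : Set α}
    (hB : IsComp {z | f z < c} B) (hB' : IsComp {z | f z < c} B') (hBB : B ≠ B') (hsB : s ∈ closure B)
    (hsB' : s ∈ closure B') (hA : IsComp {z | f z < c} A) (hA' : IsComp {z | f z < c} A') (hAA : A ≠ A')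
    (hAB : A ≠ B) (hAB' : A ≠ B') {u v : α} (hu : u ∈ A) (hv : v ∈ A')
    (hc : pass (univ : Set α) f u v = c) : ∃ s' ∈ Z, s' ≠ s ∧ LPass f s' := by
  by_contra hcon
  push Not at hcon
  have h1 : c < pass (univ : Set α) f u v := by
    refine cd_graph hd hZ (FA := {A}) ?_ ?_ (A := A) (A' := A') rfl hA' (fun h2 => hAA h2.symm) hu hv
    · rintro D rfl
      exact hA
    · rintro D rfl D' hD' hn
      rw [Set.disjoint_left]
      intro z hz hz'
      obtain ⟨h2, h3, h4⟩ := cn_lpass hd hA hD' (fun h5 => hn h5.symm) hz hz'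
      have h6 : z = s := by
        by_contra h7
        exact hcon z h2 h7 h4
      subst h6
      subst hsc
      rcases htouch z h2 B B' D hB hB' hA hsB hsB' hz hBB with h8 | h8
      · exact hAB h8
      · exact hAB' h8
  exact absurd hc h1.ne'

theorem cn_core {f : α → ℝ} {Z : Set α} {g : ℝ → α → α} (hd : Desc f Z g) (hZ : Z.Finite)
    (htouch : ∀ s ∈ Z, ∀ A₁ A₂ A₃ : Set α, IsComp {z | f z < f s} A₁ → IsComp {z | f z < f s} A₂ →
      IsComp {z | f z < f s} A₃ → s ∈ closure A₁ → s ∈ closure A₂ → s ∈ closure A₃ → A₁ ≠ A₂ → A₃ = A₁ ∨ A₃ = A₂)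
    {x y z : α} (hxy : Sepd (univ : Set α) f x y) (hyz : Sepd (univ : Set α) f y z)
    (hle : pass (univ : Set α) f x y ≤ pass (univ : Set α) f y z)
    (heq : pass (univ : Set α) f x z = pass (univ : Set α) f y z) :
    ∃ m₁ m₂ m₃ s₁ s₂, m₁ ∈ Z ∧ m₂ ∈ Z ∧ m₃ ∈ Z ∧ s₁ ∈ Z ∧ s₂ ∈ Z ∧ m₁ ≠ m₂ ∧ m₂ ≠ m₃ ∧
      m₁ ≠ m₃ ∧ s₁ ≠ s₂ ∧ IsLocalMin f m₁ ∧ IsLocalMin f m₂ ∧ IsLocalMin f m₃ ∧ LPass f s₁ ∧ LPass f s₂ := by
  obtain ⟨Ax, Ay, hAx, hAy, hne, hx, hy⟩ := pb_sepd' hd.fc hxy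
  obtain ⟨By, Az, hBy, hAz, hne', hy', hz⟩ := pb_sepd' hd.fc hyz
  have hxz : x ∉ Az := by
    intro h1
    have h2 := pb_lt hd.fc hAz h1 hz
    rw [heq] at h2
    exact lt_irrefl _ h2
  have hyz' : y ∉ Az := by
    intro h1
    exact lt_irrefl _ (pb_lt hd.fc hAz h1 hz)
  have hsub : ∀ B : Set α, IsComp {w | f w < pass (univ : Set α) f x y} B → ∀ w, w ∈ B → w ∈ Az →
      B ⊆ Az := by
    intro B hB w hw hw'
    refine ca_sub hAz (ca_conn hB).1 ?_ ⟨w, hw, hw'⟩
    intro v hv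
    exact lt_of_lt_of_le (ca_lt hB hv) hle
  obtain ⟨m₁, hm₁, hz₁, hl₁, -⟩ := cc_min hd hAx
  obtain ⟨m₂, hm₂, hz₂, hl₂, -⟩ := cc_min hd hAy
  obtain ⟨m₃, hm₃, hz₃, hl₃, -⟩ := cc_min hd hAz
  have h12 : m₁ ≠ m₂ := by
    rintro rfl
    exact Set.disjoint_left.mp (ca_disj hAx hAy hne) hm₁ hm₂
  have h23 : m₂ ≠ m₃ := by
    rintro rfl
    exact hyz' (hsub Ay hAy _ hm₂ hm₃ hy)
  have h13 : m₁ ≠ m₃ := by
    rintro rfl
    exact hxz (hsub Ax hAx _ hm₁ hm₃ hx)
  obtain ⟨s₁, hs₁, hf₁, hp₁⟩ := cn_pass hd hZ hAx hAy hne hx hy rfl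
  rcases hle.lt_or_eq with hlt | hceq
  · obtain ⟨s₂, hs₂, hf₂, hp₂⟩ := cn_pass hd hZ hBy hAz hne' hy' hz rfl
    refine ⟨m₁, m₂, m₃, s₁, s₂, hz₁, hz₂, hz₃, hs₁, hs₂, h12, h23, h13, ?_, hl₁, hl₂, hl₃, hp₁, hp₂⟩
    rintro rfl
    rw [hf₁] at hf₂
    exact hlt.ne hf₂
  · have hAz' : IsComp {w | f w < pass (univ : Set α) f x y} Az := by
      rw [hceq]; exact hAz
    have hxAz : Ax ≠ Az := by
      rintro rfl
      exact hxz hx
    have hyAz : Ay ≠ Az := by
      rintro rfl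
      exact hyz' hy
    obtain ⟨B, B', hB, hB', hBB, hsB, hsB'⟩ := id hp₁
    rw [hf₁] at hB hB'
    have hfin : ∃ s' ∈ Z, s' ≠ s₁ ∧ LPass f s' := by
      by_cases hx1 : Ax ≠ B ∧ Ax ≠ B'
      · exact cn_second hd hZ htouch hs₁ hf₁ hB hB' hBB hsB hsB' hAx hAy hne hx1.1 hx1.2 hx hy rfl
      · by_cases hy1 : Ay ≠ B ∧ Ay ≠ B'
        · exact cn_second hd hZ htouch hs₁ hf₁ hB hB' hBB hsB hsB' hAy hAx hne.symm hy1.1 hy1.2 hy hx
            (pa_comm f y x)
        · have h3 : Az ≠ B ∧ Az ≠ B' := by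
            constructor
            · rintro rfl
              apply hx1
              refine ⟨hxAz, ?_⟩
              intro h4
              apply hy1
              refine ⟨hyAz, ?_⟩
              intro h5
              exact hne (h4.trans h5.symm)
            · rintro rfl
              apply hx1
              refine ⟨?_, hxAz⟩
              intro h4
              apply hy1
              refine ⟨?_, hyAz⟩
              intro h5
              exact hne (h4.trans h5.symm)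
          refine cn_second hd hZ htouch hs₁ hf₁ hB hB' hBB hsB hsB' hAz' hAx hxAz.symm h3.1 h3.2 hz hx ?_
          rw [pa_comm, heq, hceq]
    obtain ⟨s₂, hs₂, hn, hp₂⟩ := hfin
    exact ⟨m₁, m₂, m₃, s₁, s₂, hz₁, hz₂, hz₃, hs₁, hs₂, h12, h23, h13, hn.symm, hl₁, hl₂, hl₃, hp₁, hp₂⟩

theorem cn_three {f : α → ℝ} {Z : Set α} {g : ℝ → α → α} (hd : Desc f Z g) (hZ : Z.Finite)
    (htouch : ∀ s ∈ Z, ∀ A₁ A₂ A₃ : Set α, IsComp {z | f z < f s} A₁ → IsComp {z | f z < f s} A₂ →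
      IsComp {z | f z < f s} A₃ → s ∈ closure A₁ → s ∈ closure A₂ → s ∈ closure A₃ → A₁ ≠ A₂ → A₃ = A₁ ∨ A₃ = A₂)
    (h : Three (univ : Set α) f) : ∃ m₁ m₂ m₃ s₁ s₂, m₁ ∈ Z ∧ m₂ ∈ Z ∧ m₃ ∈ Z ∧ s₁ ∈ Z ∧ s₂ ∈ Z ∧ m₁ ≠ m₂ ∧ m₂ ≠ m₃ ∧
      m₁ ≠ m₃ ∧ s₁ ≠ s₂ ∧ IsLocalMin f m₁ ∧ IsLocalMin f m₂ ∧ IsLocalMin f m₃ ∧ LPass f s₁ ∧ LPass f s₂ := by
  obtain ⟨x, -, y, -, z, -, hxy, hyz, hxz⟩ := h
  have u1 := pa_ultra hd.fc x y z
  have u2 := pa_ultra hd.fc x z y
  have u3 := pa_ultra hd.fc y x z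
  rw [pa_comm f z y] at u2
  rw [pa_comm f y x] at u3
  have hyx := pa_sepd_comm hxy
  have hzy := pa_sepd_comm hyz
  have hzx := pa_sepd_comm hxz
  rcases le_total (pass (univ : Set α) f x y) (pass (univ : Set α) f y z) with hab | hab
  · rcases le_total (pass (univ : Set α) f x y) (pass (univ : Set α) f x z) with hac | hac
    · -- pass x y minimal
      rw [max_eq_right hab] at u1
      rw [max_eq_right hac] at u3
      exact cn_core hd hZ htouch hxy hyz hab (le_antisymm u1 u3)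
    · -- pass x z ≤ pass x y ≤ pass y z
      have h1 : pass (univ : Set α) f x z ≤ pass (univ : Set α) f y z := hac.trans hab
      rw [max_eq_right h1] at u2
      rw [max_eq_left hac] at u3
      refine cn_core hd hZ htouch (x := x) (y := z) (z := y) hxz hzy ?_ ?_
      · rw [pa_comm f z y]; exact h1
      · rw [pa_comm f z y]; exact le_antisymm hab u3
  · rcases le_total (pass (univ : Set α) f y z) (pass (univ : Set α) f x z) with hbc | hbc
    · -- pass y z minimal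
      rw [max_eq_left hab] at u1
      rw [max_eq_left hbc] at u2
      refine cn_core hd hZ htouch (x := y) (y := z) (z := x) hyz hzx ?_ ?_
      · rw [pa_comm f z x]; exact hbc
      · rw [pa_comm f y x, pa_comm f z x]; exact le_antisymm u2 u1
    · -- pass x z ≤ pass y z ≤ pass x y
      have h1 : pass (univ : Set α) f x z ≤ pass (univ : Set α) f x y := hbc.trans hab
      rw [max_eq_right hbc] at u2
      refine cn_core hd hZ htouch (x := x) (y := z) (z := y) hxz hzy ?_ ?_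
      · rw [pa_comm f z y]; exact hbc
      · rw [pa_comm f z y]; exact le_antisymm u2 hab

end Pool.Agent.E8N
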