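import Pool.Agent.E8N.T_CE

/-!
# E8N module T_OA

ONE LEVEL. `oa_level`: suppose c' := pass x' y' < c := pass x y. x' , y' are in one component of {f < c} (pb_lt_iff), x and y in different ones
(pb_sepd'). So one of x, y, say u, is not in the component A of {f < c} containing x', y' (f x', f y' ≤ c' < c). Then u, x' are separated and
u, y' are separated (pb_sepd with t = c, f u < c), and x', y' are separated: Three. By symmetry the levels are equal.
`oa_lev`: the set in the definition of lev is {pass x y}. `oa_two`: Sepd x y with pass = lev f =: c: pb_sepd' gives A ≠ A'. If a point z with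
f z < c is in neither, then x, y, z are pairwise separated (pb_sepd with the components A, A'), against not Three.
`oa_no`: a separated pair in A would have pass < lev f (pb_lt), against oa_lev. `oa_exists`: Two gives it.
-/

set_option autoImplicit false

open Metric Set Filter Topology

namespace Pool.Agent.E8N

variable {α : Type*} [MetricSpace α] [CompactSpace α] [ConnectedSpace α] [LocallyPathConnectedSpace α]


theorem T_OA_aux {f : α → ℝ} (hf : Continuous f) (h3 : ¬ Three (univ : Set α) f) {x y x' y' : α}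
    (h : Sepd (univ : Set α) f x y) (h' : Sepd (univ : Set α) f x' y') :
    ¬ pass (univ : Set α) f x' y' < pass (univ : Set α) f x y := by
  intro hlt
  obtain ⟨B, B', hB, hB', hne, hxB, hyB'⟩ := pb_sepd' hf h
  obtain ⟨hx', hy'⟩ := (pb_lt_iff hf).1 hlt
  obtain ⟨hA, hxA⟩ := pb_comp hx'
  have key : ∀ u, u ∉ connectedComponentIn {z | f z < pass (univ : Set α) f x y} x' →
      f u < pass (univ : Set α) f x y → False := by
    intro u hu hlt
    exact h3 ⟨x', mem_univ _, y', mem_univ _, u, mem_univ _, h', pb_sepd hf hA hy' hu hlt,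
      pb_sepd hf hA hxA hu hlt⟩
  have hx : f x < pass (univ : Set α) f x y := (le_max_left _ _).trans_lt h
  have hy : f y < pass (univ : Set α) f x y := (le_max_right _ _).trans_lt h
  by_cases hxu : x ∈ connectedComponentIn {z | f z < pass (univ : Set α) f x y} x'
  · by_cases hyu : y ∈ connectedComponentIn {z | f z < pass (univ : Set α) f x y} x'
    · apply hne
      rw [pb_comp_eq hB hxB, pb_comp_eq hB' hyB', ← pb_comp_eq hA hxu, ← pb_comp_eq hA hyu]
    · exact key y hyu hy
  · exact key x hxu hx

theorem oa_level {f : α → ℝ} (hf : Continuous f) (h3 : ¬ Three (univ : Set α) f) {x y x' y' : α}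
    (h : Sepd (univ : Set α) f x y) (h' : Sepd (univ : Set α) f x' y') :
    pass (univ : Set α) f x y = pass (univ : Set α) f x' y' :=
  le_antisymm (not_lt.1 (T_OA_aux hf h3 h h')) (not_lt.1 (T_OA_aux hf h3 h' h))

theorem oa_lev {f : α → ℝ} (hf : Continuous f) (h3 : ¬ Three (univ : Set α) f) {x y : α}
    (h : Sepd (univ : Set α) f x y) : pass (univ : Set α) f x y = lev f := by
  have hs : {t | ∃ x y, Sepd (univ : Set α) f x y ∧ t = pass (univ : Set α) f x y} =
      {pass (univ : Set α) f x y} := by
    ext t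
    simp only [mem_ofPred_eq, mem_singleton_iff]
    constructor
    · rintro ⟨a, b, hab, rfl⟩
      exact oa_level hf h3 hab h
    · rintro rfl
      exact ⟨x, y, h, rfl⟩
  rw [lev, hs, csSup_singleton]

theorem oa_two {f : α → ℝ} (hf : Continuous f) (h2 : Two (univ : Set α) f) (h3 : ¬ Three (univ : Set α) f) :
    ∃ A A' : Set α, IsComp {z | f z < lev f} A ∧ IsComp {z | f z < lev f} A' ∧ A ≠ A' ∧
      {z | f z < lev f} = A ∪ A' := by
  obtain ⟨x, -, y, -, h⟩ := h2
  obtain ⟨A, A', hA, hA', hne, hxA, hyA'⟩ := pb_sepd' hf h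
  rw [← oa_lev hf h3 h]
  refine ⟨A, A', hA, hA', hne, Subset.antisymm (fun z hz => ?_) ?_⟩
  · by_contra hc
    rw [mem_union, not_or] at hc
    exact h3 ⟨x, mem_univ _, y, mem_univ _, z, mem_univ _, h, pb_sepd hf hA' hyA' hc.2 hz,
      pb_sepd hf hA hxA hc.1 hz⟩
  · rintro z (hz | hz)
    · exact ca_lt hA hz
    · exact ca_lt hA' hz

theorem oa_no {f : α → ℝ} (hf : Continuous f) (h3 : ¬ Three (univ : Set α) f) {A : Set α}
    (hA : IsComp {z | f z < lev f} A) : ∀ x ∈ A, ∀ y ∈ A, ¬ Sepd (univ : Set α) f x y := by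
  intro x hx y hy h
  have h1 := pb_lt hf hA hx hy
  rw [oa_lev hf h3 h] at h1
  exact lt_irrefl _ h1

end Pool.Agent.E8N
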