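import Pool.Agent.E8N.Top2
import Pool.Agent.E8N.T_OA

/-!
# E8N module T_FA

FAMILIES: CONTINUITY OF PASS LEVELS. `fa_desc`: projection. `fa_near`: f continuous, x0, ε > 0: there is a neighbourhood V of x0 with pass f x x0 ≤ f x0 + ε and
f x0 ≤ f x + ε for x ∈ V (V a connected neighbourhood inside {|f - f x0| ≤ ε}, locally connected; pa_le). `fa_pass`: |pass F(p k) - pass F(p0)| ≤ dist (pa_lip, Fl) → 0;
for fixed f = F p0: pass x y ≤ max (pass x x0) (pass x0 y0) (pass y0 y) ≤ pass x0 y0 + ε for x, y in the V's (pa_ultra, pa_ge), and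
pass x0 y0 ≤ max (pass x0 x) (pass x y) (pass y y0) ≤ pass x y + 2ε. `fa_sepd`: max (f x) (f y) < pass is an open condition in p (fa_pass with constant x, y along 𝓝 p0, or
pa_lip). `fa_two`, `fa_three`: open by fa_sepd. `fa_lev`: Two at p0: x, y separated at p0, eventually separated at p k, so lev (F (p k)) = pass (oa_lev) → pass F(p0) x y = lev.
-/

set_option autoImplicit false

open Metric Set Filter Topology

namespace Pool.Agent.E8N

variable {α : Type*} [MetricSpace α] [CompactSpace α] [ConnectedSpace α] [LocallyPathConnectedSpace α]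
variable {Q : Type*} [MetricSpace Q] {F : Q → α → ℝ} {Z : Q → Set α} {g g' : ℝ → Q → α → α}


theorem fa_desc (hF : Fam F Z g) (p : Q) : Desc (F p) (Z p) (fun s x => g s p x) := by
  exact
    { fc := hF.Fc.comp (continuous_const.prodMk continuous_id)
      gc := hF.gc.comp (continuous_fst.prodMk (continuous_const.prodMk continuous_snd))
      g0 := fun x => hF.g0 p x
      dec := fun x s h0 h1 => hF.dec p x s h0 h1
      lt := fun x s h0 h1 h2 => hF.lt p x s h0 h1 h2 }

theorem fa_near {f : α → ℝ} (hf : Continuous f) (x₀ : α) {ε : ℝ} (hε : 0 < ε) :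
    ∀ᶠ x in 𝓝 x₀, pass (univ : Set α) f x x₀ ≤ f x₀ + ε ∧ f x₀ ≤ f x + ε := by
  have h1 : {x | |f x - f x₀| < ε} ∈ 𝓝 x₀ := by
    have h2 : Continuous fun x => |f x - f x₀| := by fun_prop
    refine (isOpen_lt h2 continuous_const).mem_nhds ?_
    simp [hε]
  have h2 : connectedComponentIn {x | |f x - f x₀| < ε} x₀ ∈ 𝓝 x₀ := connectedComponentIn_mem_nhds h1
  filter_upwards [h2] with x hx
  have hsub : connectedComponentIn {x | |f x - f x₀| < ε} x₀ ⊆ {x | |f x - f x₀| < ε} :=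
    connectedComponentIn_subset _ _
  have h3 : |f x - f x₀| < ε := hsub hx
  have h4 := abs_lt.mp h3
  refine ⟨pa_le hf isPreconnected_connectedComponentIn hx (mem_connectedComponentIn (mem_of_mem_nhds h1)) ?_, ?_⟩
  · intro z hz
    have h5 : |f z - f x₀| < ε := hsub hz
    have h6 := abs_lt.mp h5
    linarith [h6.2]
  · linarith [h4.1]

theorem fa_pass (hF : Fam F Z g) {ι : Type*} {l : Filter ι} {p : ι → Q} {x y : ι → α} {p₀ : Q} {x₀ y₀ : α}
    (hp : Tendsto p l (𝓝 p₀)) (hx : Tendsto x l (𝓝 x₀)) (hy : Tendsto y l (𝓝 y₀)) :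
    Tendsto (fun k => pass (univ : Set α) (F (p k)) (x k) (y k)) l (𝓝 (pass (univ : Set α) (F p₀) x₀ y₀)) := by
  have hf : Continuous (F p₀) := (fa_desc hF p₀).fc
  have hfk : ∀ k, Continuous (F (p k)) := fun k => (fa_desc hF (p k)).fc
  rw [Metric.tendsto_nhds]
  intro ε hε
  have e1 : ∀ᶠ k in l, dist (p k) p₀ < ε / 4 := (Metric.tendsto_nhds.mp hp) _ (by positivity)
  have e2 := hx.eventually (fa_near hf x₀ (ε := ε / 4) (by positivity))
  have e3 := hy.eventually (fa_near hf y₀ (ε := ε / 4) (by positivity))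
  filter_upwards [e1, e2, e3] with k h1 h2 h3
  have h4 := pa_lip (hfk k) hf (fun z => hF.Fl (p k) p₀ z) (x k) (y k)
  have h5 := pa_ultra hf (x k) x₀ (y k)
  have h6 := pa_ultra hf x₀ y₀ (y k)
  have h7 := pa_ultra hf x₀ (x k) y₀
  have h8 := pa_ultra hf (x k) (y k) y₀
  rw [pa_comm (F p₀) y₀ (y k)] at h6
  rw [pa_comm (F p₀) x₀ (x k)] at h7
  have h9 := pa_ge hf x₀ y₀
  have h10 := pa_ge hf (x k) (y k)
  have h11 := le_trans (le_max_left _ _) h9
  have h12 := le_trans (le_max_right _ _) h9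
  have h13 := le_trans (le_max_left _ _) h10
  have h14 := le_trans (le_max_right _ _) h10
  obtain ⟨h2a, h2b⟩ := h2
  obtain ⟨h3a, h3b⟩ := h3
  have u1 : pass (univ : Set α) (F p₀) (x k) (y k) ≤ pass (univ : Set α) (F p₀) x₀ y₀ + ε / 4 := by
    refine h5.trans (max_le (by linarith) (h6.trans (max_le (by linarith) (by linarith))))
  have u2 : pass (univ : Set α) (F p₀) x₀ y₀ ≤ pass (univ : Set α) (F p₀) (x k) (y k) + ε / 2 := by
    refine h7.trans (max_le (by linarith) (h8.trans (max_le (by linarith) (by linarith))))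
  have h15 := abs_le.mp h4
  rw [Real.dist_eq, abs_lt]
  constructor <;> linarith [h15.1, h15.2]

theorem fa_sepd (hF : Fam F Z g) {p₀ : Q} {x y : α} (h : Sepd (univ : Set α) (F p₀) x y) :
    ∀ᶠ p in 𝓝 p₀, Sepd (univ : Set α) (F p) x y := by
  have h1 : Tendsto (fun p => pass (univ : Set α) (F p) x y) (𝓝 p₀) (𝓝 (pass (univ : Set α) (F p₀) x y)) :=
    fa_pass hF tendsto_id tendsto_const_nhds tendsto_const_nhds
  have hc : ∀ z : α, Continuous fun p => F p z := fun z => hF.Fc.comp (continuous_id.prodMk continuous_const)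
  have h2 : Tendsto (fun p => max (F p x) (F p y)) (𝓝 p₀) (𝓝 (max (F p₀ x) (F p₀ y))) :=
    ((hc x).max (hc y)).tendsto p₀
  exact h2.eventually_lt h1 h

theorem fa_two (hF : Fam F Z g) : IsOpen {p | Two (univ : Set α) (F p)} := by
  rw [isOpen_iff_mem_nhds]
  rintro p₀ ⟨x, _, y, _, h⟩
  filter_upwards [fa_sepd hF h] with p hp
  exact ⟨x, trivial, y, trivial, hp⟩

theorem fa_three (hF : Fam F Z g) : IsOpen {p | Three (univ : Set α) (F p)} := by
  rw [isOpen_iff_mem_nhds]
  rintro p₀ ⟨x, _, y, _, z, _, h, h', h''⟩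
  filter_upwards [fa_sepd hF h, fa_sepd hF h', fa_sepd hF h''] with p hp hp' hp''
  exact ⟨x, trivial, y, trivial, z, trivial, hp, hp', hp''⟩

theorem fa_lev (hF : Fam F Z g) {ι : Type*} {l : Filter ι} {p : ι → Q} {p₀ : Q} (hp : Tendsto p l (𝓝 p₀))
    (h3 : ∀ᶠ k in l, ¬ Three (univ : Set α) (F (p k))) (h2 : Two (univ : Set α) (F p₀))
    (h30 : ¬ Three (univ : Set α) (F p₀)) : Tendsto (fun k => lev (F (p k))) l (𝓝 (lev (F p₀))) := by
  obtain ⟨x, _, y, _, hs⟩ := h2
  rw [← oa_lev (fa_desc hF p₀).fc h30 hs]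
  have h1 : Tendsto (fun k => pass (univ : Set α) (F (p k)) x y) l (𝓝 (pass (univ : Set α) (F p₀) x y)) :=
    fa_pass hF hp tendsto_const_nhds tendsto_const_nhds
  refine h1.congr' ?_
  filter_upwards [h3, hp.eventually (fa_sepd hF hs)] with k hk hk'
  exact oa_lev (fa_desc hF (p k)).fc hk hk'

end Pool.Agent.E8N
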