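import Pool.Agent.E8N.T_CA

/-!
# E8N module T_CB

STEPS AND COMPONENTS. `cb_mem`: the path s ↦ g s x, s ∈ [0,1], is in {f ≤ f x} ⊆ {f < c}, it starts at x ∈ A: `ca_sub`.
`cb_cl`: g s maps A into A (cb_mem), it is continuous, so g s z ∈ closure A; f (g s z) < f z ≤ c: `ca_cl_mem`.
`cb_inter`: f z ≤ c; if f z < c then z ∈ A and z ∈ A' (ca_cl_mem), against ca_disj; so f z = c; if z ∉ Z then g 1 z ∈ A ∩ A' by
cb_cl, contradiction. `cb_exists`: the set {g s z | 0 < s ≤ 1} is connected (image of Ioc 0 1) and in {f < c}: it is in one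
component A (the one of g 1 z); z = lim of g (1/n) z. `cb_near`: g 1 z ∈ A (open), so g 1 x ∈ A for x near z; if f x < c the path
s ↦ g s x is in {f < c} and ends in A, so x ∈ A (ca_sub). `cb_approx`: points g s z, s small.
-/

set_option autoImplicit false

open Metric Set Filter Topology

namespace Pool.Agent.E8N

variable {α : Type*} [MetricSpace α] [CompactSpace α] [ConnectedSpace α] [LocallyPathConnectedSpace α]


theorem T_CB_c1 {f : α → ℝ} {Z : Set α} {g : ℝ → α → α} (hd : Desc f Z g) (x : α) :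
    Continuous fun s : ℝ => g s x :=
  hd.gc.comp (continuous_id.prodMk continuous_const)

theorem T_CB_c2 {f : α → ℝ} {Z : Set α} {g : ℝ → α → α} (hd : Desc f Z g) (s : ℝ) :
    Continuous fun x : α => g s x :=
  hd.gc.comp (continuous_const.prodMk continuous_id)

theorem T_CB_path {f : α → ℝ} {Z : Set α} {g : ℝ → α → α} (hd : Desc f Z g) {A : Set α} {c : ℝ}
    (hA : IsComp {z | f z < c} A) {x : α} (hx : f x < c)
    (hm : ((fun s : ℝ => g s x) '' Icc 0 1 ∩ A).Nonempty) : (fun s : ℝ => g s x) '' Icc 0 1 ⊆ A := by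
  refine ca_sub hA (isPreconnected_Icc.image _ (T_CB_c1 hd x).continuousOn) ?_ hm
  rintro _ ⟨s, hs, rfl⟩
  exact lt_of_le_of_lt (hd.dec x s hs.1 hs.2) hx

theorem T_CB_tend {f : α → ℝ} {Z : Set α} {g : ℝ → α → α} (hd : Desc f Z g) (z : α) :
    Tendsto (fun s : ℝ => g s z) (𝓝[>] 0) (𝓝 z) := by
  have h := (T_CB_c1 hd z).tendsto 0
  simp only [hd.g0] at h
  exact h.mono_left nhdsWithin_le_nhds

theorem cb_mem {f : α → ℝ} {Z : Set α} {g : ℝ → α → α} (hd : Desc f Z g) {A : Set α} {c : ℝ}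
    (hA : IsComp {z | f z < c} A) {x : α} (hx : x ∈ A) {s : ℝ} (h0 : 0 ≤ s) (h1 : s ≤ 1) : g s x ∈ A := by
  have h2 : (fun s : ℝ => g s x) '' Icc 0 1 ⊆ A :=
    T_CB_path hd hA (ca_lt hA hx) ⟨x, ⟨0, ⟨le_refl _, zero_le_one⟩, hd.g0 x⟩, hx⟩
  exact h2 ⟨s, ⟨h0, h1⟩, rfl⟩

theorem cb_cl {f : α → ℝ} {Z : Set α} {g : ℝ → α → α} (hd : Desc f Z g) {A : Set α} {c : ℝ}
    (hA : IsComp {z | f z < c} A) {z : α} (hz : z ∈ closure A) (hzZ : z ∉ Z) {s : ℝ} (h0 : 0 < s) (h1 : s ≤ 1) :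
    g s z ∈ A := by
  have h2 : g s z ∈ closure A :=
    map_mem_closure (T_CB_c2 hd s) hz (fun a ha => cb_mem hd hA ha h0.le h1)
  exact ca_cl_mem hd.fc hA h2 (lt_of_lt_of_le (hd.lt z s h0 h1 hzZ) (ca_cl_le hd.fc hA hz))

theorem cb_inter {f : α → ℝ} {Z : Set α} {g : ℝ → α → α} (hd : Desc f Z g) {A A' : Set α} {c : ℝ}
    (hA : IsComp {z | f z < c} A) (hA' : IsComp {z | f z < c} A') (h : A ≠ A') {z : α} (hz : z ∈ closure A)
    (hz' : z ∈ closure A') : z ∈ Z ∧ f z = c := by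
  have hd1 := ca_disj hA hA' h
  have h1 : f z = c := by
    refine le_antisymm (ca_cl_le hd.fc hA hz) (not_lt.mp fun hlt => ?_)
    exact Set.disjoint_left.mp hd1 (ca_cl_mem hd.fc hA hz hlt) (ca_cl_mem hd.fc hA' hz' hlt)
  refine ⟨by_contra fun hZ => ?_, h1⟩
  exact Set.disjoint_left.mp hd1 (cb_cl hd hA hz hZ one_pos le_rfl) (cb_cl hd hA' hz' hZ one_pos le_rfl)

theorem cb_exists {f : α → ℝ} {Z : Set α} {g : ℝ → α → α} (hd : Desc f Z g) {z : α} {c : ℝ} (hzZ : z ∉ Z)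
    (hc : f z = c) : ∃ A, IsComp {z | f z < c} A ∧ z ∈ closure A := by
  have hlt : f (g 1 z) < c := hc ▸ hd.lt z 1 one_pos le_rfl hzZ
  obtain ⟨h1, h2⟩ := pb_comp hlt
  refine ⟨_, h1, ?_⟩
  have h3 : (fun s : ℝ => g s z) '' Ioc 0 1 ⊆ connectedComponentIn {w | f w < c} (g 1 z) := by
    refine ca_sub h1 (isPreconnected_Ioc.image _ (T_CB_c1 hd z).continuousOn) ?_
      ⟨g 1 z, ⟨1, ⟨one_pos, le_rfl⟩, rfl⟩, h2⟩
    rintro _ ⟨s, hs, rfl⟩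
    exact hc ▸ hd.lt z s hs.1 hs.2 hzZ
  refine mem_closure_of_tendsto (T_CB_tend hd z) ?_
  filter_upwards [Ioc_mem_nhdsGT one_pos] with s hs
  exact h3 ⟨s, hs, rfl⟩

theorem cb_near {f : α → ℝ} {Z : Set α} {g : ℝ → α → α} (hd : Desc f Z g) {A : Set α} {c : ℝ}
    (hA : IsComp {z | f z < c} A) {z : α} (hz : z ∈ closure A) (hzZ : z ∉ Z) :
    ∃ U ∈ 𝓝 z, ∀ x ∈ U, f x < c → x ∈ A := by
  have h1 : g 1 z ∈ A := cb_cl hd hA hz hzZ one_pos le_rfl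
  refine ⟨(fun x => g 1 x) ⁻¹' A, (T_CB_c2 hd 1).continuousAt ((ca_open hd.fc hA).mem_nhds h1), ?_⟩
  intro x hx hxc
  have h2 : (fun s : ℝ => g s x) '' Icc 0 1 ⊆ A :=
    T_CB_path hd hA hxc ⟨g 1 x, ⟨1, ⟨zero_le_one, le_rfl⟩, rfl⟩, hx⟩
  exact h2 ⟨0, ⟨le_rfl, zero_le_one⟩, hd.g0 x⟩

theorem cb_approx {f : α → ℝ} {Z : Set α} {g : ℝ → α → α} (hd : Desc f Z g) {z : α} (hzZ : z ∉ Z) {N : Set α}
    (hN : N ∈ 𝓝 z) : ∃ x ∈ N, f x < f z := by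
  have h1 := (T_CB_tend hd z).eventually hN
  have h2 : ∀ᶠ s : ℝ in 𝓝[>] 0, s ∈ Ioc (0 : ℝ) 1 := Ioc_mem_nhdsGT one_pos
  obtain ⟨s, hs1, hs2⟩ := (h1.and h2).exists
  exact ⟨g s z, hs1, hd.lt z s hs2.1 hs2.2 hzZ⟩

end Pool.Agent.E8N
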