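import Pool.Agent.E8N.T_PA

/-!
# E8N module T_PB

PASS LEVELS AND COMPONENTS. `α` is locally path connected.
`pb_lt_iff`. (→) C from `pa_lt` is a preconnected subset of {f < t} containing x and y
(IsPreconnected.subset_connectedComponentIn). (←) U := connectedComponentIn {f < t} x is open (IsOpen.connectedComponentIn)
and connected, so path connected (IsOpen.isConnected_iff_isPathConnected or similar in Mathlib.Topology.Connected.LocallyPathConnected);
a path from x to y in U has compact range (image of the unit interval), f attains its maximum t' < t on it; `pa_le`, range preconnected.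
`pb_comp`: connectedComponentIn {f < t} x is a component and contains x. `pb_comp_eq`: connectedComponentIn_eq.
`pb_le`: otherwise `pb_lt_iff` gives y ∈ A. `pb_sepd`: x in the component A of {f < t}, y outside A, f y < t: separated.
`pb_sepd'`: converse with t = pass: x, y are in different components of {f < pass}.
-/

set_option autoImplicit false

open Metric Set Filter Topology

namespace Pool.Agent.E8N

variable {α : Type*} [MetricSpace α] [CompactSpace α] [ConnectedSpace α] [LocallyPathConnectedSpace α]


theorem pb_lt_iff {f : α → ℝ} (hf : Continuous f) {x y : α} {t : ℝ} :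
    pass (univ : Set α) f x y < t ↔ f x < t ∧ y ∈ connectedComponentIn {z | f z < t} x := by
  constructor
  · intro h
    obtain ⟨C, hC, hx, hy, t', ht', hz⟩ := pa_lt hf h
    have hsub : C ⊆ {z | f z < t} := fun z hzC => (hz z hzC).trans_lt ht'
    exact ⟨hsub hx, hC.subset_connectedComponentIn hx hsub hy⟩
  · rintro ⟨hx, hy⟩
    have hopen : IsOpen {z : α | f z < t} := isOpen_lt hf continuous_const
    set U := connectedComponentIn {z | f z < t} x with hU
    have hUo : IsOpen U := hopen.connectedComponentIn
    have hxU : x ∈ U := mem_connectedComponentIn hx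
    have hUc : IsConnected U := ⟨⟨x, hxU⟩, isPreconnected_connectedComponentIn⟩
    have hUp : IsPathConnected U := hUo.isConnected_iff_isPathConnected.mp hUc
    obtain ⟨γ, hγ⟩ := hUp.joinedIn x hxU y hy
    obtain ⟨s, _, hs⟩ := isCompact_univ.exists_isMaxOn (Set.univ_nonempty)
      ((hf.comp γ.continuous).continuousOn (s := (univ : Set unitInterval)))
    have h1' : γ s ∈ {z : α | f z < t} := connectedComponentIn_subset _ _ (hγ s)
    have h1 : f (γ s) < t := h1'
    refine lt_of_le_of_lt (pa_le hf (isPreconnected_range γ.continuous)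
      ⟨0, γ.source⟩ ⟨1, γ.target⟩ ?_) h1
    rintro _ ⟨r, rfl⟩
    exact hs (Set.mem_univ r)

theorem pb_comp {f : α → ℝ} {x : α} {t : ℝ} (h : f x < t) :
    IsComp {z | f z < t} (connectedComponentIn {z | f z < t} x) ∧ x ∈ connectedComponentIn {z | f z < t} x :=
  ⟨⟨x, h, rfl⟩, mem_connectedComponentIn h⟩

theorem pb_comp_eq {U A : Set α} (hA : IsComp U A) {x : α} (hx : x ∈ A) : A = connectedComponentIn U x := by
  obtain ⟨x0, _, rfl⟩ := hA
  exact connectedComponentIn_eq hx

theorem pb_le {f : α → ℝ} (hf : Continuous f) {A : Set α} {t : ℝ} (hA : IsComp {z | f z < t} A) {x y : α} (hx : x ∈ A)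
    (hy : y ∉ A) : t ≤ pass (univ : Set α) f x y := by
  by_contra h
  push Not at h
  have h1 := ((pb_lt_iff hf).mp h).2
  rw [← pb_comp_eq hA hx] at h1
  exact hy h1

theorem pb_lt {f : α → ℝ} (hf : Continuous f) {A : Set α} {t : ℝ} (hA : IsComp {z | f z < t} A) {x y : α} (hx : x ∈ A)
    (hy : y ∈ A) : pass (univ : Set α) f x y < t := by
  rw [pb_lt_iff hf, ← pb_comp_eq hA hx]
  refine ⟨?_, hy⟩
  obtain ⟨x0, _, rfl⟩ := hA
  have h3 : x ∈ {z : α | f z < t} := connectedComponentIn_subset _ _ hx
  exact h3

theorem pb_sepd {f : α → ℝ} (hf : Continuous f) {A : Set α} {t : ℝ} (hA : IsComp {z | f z < t} A) {x y : α} (hx : x ∈ A)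
    (hy : y ∉ A) (hyt : f y < t) : Sepd (univ : Set α) f x y := by
  have h1 := pb_le hf hA hx hy
  have h2 : f x < t := by
    obtain ⟨x0, _, rfl⟩ := hA
    have h3 : x ∈ {z : α | f z < t} := connectedComponentIn_subset _ _ hx
    exact h3
  exact (max_lt h2 hyt).trans_le h1

theorem pb_sepd' {f : α → ℝ} (hf : Continuous f) {x y : α} (h : Sepd (univ : Set α) f x y) :
    ∃ A A' : Set α, IsComp {z | f z < pass (univ : Set α) f x y} A ∧ IsComp {z | f z < pass (univ : Set α) f x y} A' ∧
      A ≠ A' ∧ x ∈ A ∧ y ∈ A' := by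
  have hx : f x < pass (univ : Set α) f x y := (le_max_left _ _).trans_lt h
  have hy : f y < pass (univ : Set α) f x y := (le_max_right _ _).trans_lt h
  refine ⟨_, _, (pb_comp hx).1, (pb_comp hy).1, ?_, (pb_comp hx).2, (pb_comp hy).2⟩
  intro he
  have h1 : y ∈ connectedComponentIn {z | f z < pass (univ : Set α) f x y} x := by
    rw [he]
    exact (pb_comp hy).2
  exact lt_irrefl _ ((pb_lt_iff hf).mpr ⟨hx, h1⟩)

end Pool.Agent.E8N
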