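import Pool.Agent.E8N.T_NA
import Pool.Agent.E8N.T_PB
import Pool.Agent.E8N.T_CB

/-!
# E8N module T_PM

`pm_lt`: {z | f z < f M} = {M}ᶜ is preconnected (na_compl), so y is in the component of x: pb_lt_iff. `pm_upass`: s is a local minimum of f and Z (critical points, finite) contains all local minima near s; then s is not a pass of -f: f ≥ f s on an open neighbourhood N of s; points z ∈ N with f z = f s are local minima, so in Z (Desc: z ∉ Z gives
points near z with smaller value, cb_approx), so there is a smaller neighbourhood N1 with f > f s on N1 \ {s}; D from hN.punc in N1: D \ {s} is preconnected and in {f > f s}. Two components B, B' of {-f < - f s} with s in both closures meet D \ {s} (s itself is not in them), so D \ {s} is inside both (ca_sub), so they are equal.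
`pm_minmax`: not both local minimum and local maximum: f would be constant near s, so all points near s would be in Z (cb_approx), but Z is finite (na_iso).
-/

set_option autoImplicit false

open Metric Set Filter Topology

namespace Pool.Agent.E8N

variable {α : Type*} [MetricSpace α] [CompactSpace α] [ConnectedSpace α] [LocallyPathConnectedSpace α]
variable {f : α → ℝ} {Z : Set α} {g g' : ℝ → α → α}


theorem pm_lt (hN : Nice α) (hf : Continuous f) {x y M : α} (hM : ∀ z, z ≠ M → f z < f M) (hx : x ≠ M) (hy : y ≠ M) :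
    pass (univ : Set α) f x y < f M := by
  rw [pb_lt_iff hf]
  refine ⟨hM x hx, ?_⟩
  have hc : IsPreconnected ({M} : Set α)ᶜ := na_compl hN (finite_singleton M)
  have hsub : ({M} : Set α)ᶜ ⊆ {z | f z < f M} := fun z hz => hM z (by simpa using hz)
  exact hc.subset_connectedComponentIn (x := x) (by simpa using hx) hsub (by simpa using hy)

theorem pm_upass (hN : Nice α) (hd : Desc f Z g) (hd' : Desc (fun z => - f z) Z g') (hZ : Z.Finite) {s : α}
    (hs : IsLocalMin f s) : ¬ LPass (fun z => - f z) s := by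
  rintro ⟨A, A', hA, hA', hne, hsA, hsA'⟩
  have hs' : {z | f s ≤ f z} ∈ 𝓝 s := hs
  obtain ⟨N, hNsub, hNo, hsN⟩ := _root_.mem_nhds_iff.1 hs'
  have hfin : (Z \ {s}).Finite := hZ.subset sdiff_subset
  have hN1o : IsOpen (N \ (Z \ {s})) := hNo.sdiff hfin.isClosed
  have hsN1 : s ∈ N \ (Z \ {s}) := ⟨hsN, fun h => h.2 rfl⟩
  have hgt : ∀ z ∈ N \ (Z \ {s}), z ≠ s → f s < f z := by
    intro z hz hzs
    have h1 : f s ≤ f z := hNsub hz.1
    rcases lt_or_eq_of_le h1 with h | h
    · exact h
    · exfalso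
      have hzZ : z ∉ Z := fun hzZ => hz.2 ⟨hzZ, hzs⟩
      obtain ⟨x, hxN, hx⟩ := cb_approx hd hzZ (hNo.mem_nhds hz.1)
      have h2 : f s ≤ f x := hNsub hxN
      linarith
  obtain ⟨D, hDsub, hDn, hDc⟩ := hN.punc s _ (hN1o.mem_nhds hsN1)
  have hDU : D \ {s} ⊆ {z | (fun z => - f z) z < (fun z => - f z) s} := by
    intro z hz
    have := hgt z (hDsub hz.1) hz.2
    show - f z < - f s
    linarith
  have key : ∀ B : Set α, IsComp {z | (fun z => - f z) z < (fun z => - f z) s} B → s ∈ closure B →
      (D \ {s} ∩ B).Nonempty ∧ D \ {s} ⊆ B := by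
    intro B hB hsB
    obtain ⟨a, haD, haB⟩ := mem_closure_iff_nhds.1 hsB D hDn
    have halt : - f a < - f s := ca_lt (f := fun z => - f z) hB haB
    have has : a ≠ s := by
      rintro rfl
      exact lt_irrefl _ halt
    have hne' : (D \ {s} ∩ B).Nonempty := ⟨a, ⟨haD, has⟩, haB⟩
    exact ⟨hne', ca_sub hB hDc hDU hne'⟩
  obtain ⟨⟨a, haD, haA⟩, -⟩ := key A hA hsA
  have haA' : a ∈ A' := (key A' hA' hsA').2 haD
  exact (Set.disjoint_left.1 (ca_disj hA hA' hne)) haA haA'

theorem pm_minmax (hd : Desc f Z g) (hZ : Z.Finite) (hne : ∃ x y : α, x ≠ y) {s : α}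
    (h1 : IsLocalMin f s) (h2 : IsLocalMin (fun z => - f z) s) : False := by
  have h1' : ∀ᶠ z in 𝓝 s, f s ≤ f z := h1
  have h2' : ∀ᶠ z in 𝓝 s, - f s ≤ - f z := h2
  have h3 : {z | f z = f s} ∈ 𝓝 s := by
    filter_upwards [h1', h2'] with z ha hb
    show f z = f s
    linarith
  obtain ⟨O, hOsub, hOo, hsO⟩ := _root_.mem_nhds_iff.1 h3
  have hOZ : O ⊆ Z := by
    intro z hz
    by_contra hzZ
    obtain ⟨x, hxO, hx⟩ := cb_approx hd hzZ (hOo.mem_nhds hz)
    have e1 : f z = f s := hOsub hz
    have e2 : f x = f s := hOsub hxO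
    linarith
  have h4 := na_iso hne hOo hZ hOZ
  rw [h4] at hsO
  exact hsO

end Pool.Agent.E8N
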