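import Pool.Agent.E8N.T_K0
import Pool.Agent.E8N.T_CN
import Pool.Agent.E8N.T_PM
import Pool.Agent.E8N.T_FA
import Pool.Agent.E8N.AGen

/-!
# E8N module T_K1

COUNTING, (2.7). `k1_open`: {p ∈ interior K | Two, Three} is open and generic points are dense: T_FA.fa_two for F, fa_three for -F (x3_fam, x3_fam'), AGen.generic_dense: there is a generic q (as an element of the subtype) with Two (FS q) and Three (- FS q). `k1_count`: f = FS q, Z = ZS q (finite, at most 7 elements).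
cn_two for f: m1 ≠ m2 local minima, s pass. cn_three for -f (k0_touch'): M1, M2, M3 local minima of -f, different, v1 ≠ v2 passes of -f. All eight are different: m_i ≠ s, M_j ≠ v_k (cc_loc); m_i ≠ M_j (pm_minmax); m_i ≠ v_k (pm_upass); M_j ≠ s (pm_upass for -f; - - f = f); s ≠ v_k (k0_not_both). So the finset
{m1,m2,s,M1,M2,M3,v1,v2} ⊆ Z has 8 elements: contradiction with ncard ≤ 7. `k1_count'`: the same with f and -f exchanged (cn_three for f with k0_touch, cn_two for -f).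
Instances: haveI := SN.S_cs hK, SN.S_conn hK hd, SN.S_lpc hK hd; SN.S_nice hK hd; SN.S_two hK hd.
-/

set_option autoImplicit false

open Metric Set Filter Topology

namespace Pool.Agent.E8N.TY

variable {E : Type*} [NormedAddCommGroup E] [InnerProductSpace ℝ E] [FiniteDimensional ℝ E]
variable {K : Set E} {ρ R : ℝ}


/-- abstract counting -/
theorem k1_abs {α : Type*} [MetricSpace α] [CompactSpace α] [ConnectedSpace α] [LocallyPathConnectedSpace α]
    (hN : Nice α) (hne : ∃ x y : α, x ≠ y) {f : α → ℝ} {Z : Set α} {g g' : ℝ → α → α} (hd : Desc f Z g)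
    (hd' : Desc (fun z => - f z) Z g') (hZ : Z.Finite) (h7 : Z.ncard ≤ 7)
    (hnb : ∀ s ∈ Z, LPass f s → LPass (fun z => - f z) s → False)
    (htouch : ∀ s ∈ Z, ∀ A₁ A₂ A₃ : Set α, IsComp {z | - f z < - f s} A₁ → IsComp {z | - f z < - f s} A₂ →
      IsComp {z | - f z < - f s} A₃ → s ∈ closure A₁ → s ∈ closure A₂ → s ∈ closure A₃ → A₁ ≠ A₂ →
      A₃ = A₁ ∨ A₃ = A₂)
    (h2 : Two (univ : Set α) f) (h3 : Three (univ : Set α) (fun z => - f z)) : False := by
  classical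
  have hd2 : Desc (fun z => - (fun z => - f z) z) Z g := by
    simp only [neg_neg]
    exact hd
  obtain ⟨m1, m2, s, hm1, hm2, hs, n12, l1, l2, ps⟩ := cn_two hd hZ h2
  obtain ⟨M1, M2, M3, v1, v2, hM1, hM2, hM3, hv1, hv2, N12, N23, N13, nv, L1, L2, L3, q1, q2⟩ :=
    cn_three hd' hZ htouch h3
  have ps' : LPass (fun z => - (fun z => - f z) z) s := by
    simp only [neg_neg]
    exact ps
  have a1 : ∀ m : α, IsLocalMin f m → m ≠ s := fun m h e => cc_loc ps (e ▸ h)
  have a2 : ∀ m M : α, IsLocalMin f m → IsLocalMin (fun z => - f z) M → m ≠ M := fun m M h h' e =>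
    pm_minmax hd hZ hne h (e ▸ h')
  have a3 : ∀ m v : α, IsLocalMin f m → LPass (fun z => - f z) v → m ≠ v := fun m v h h' e =>
    pm_upass hN hd hd' hZ h (e ▸ h')
  have a4 : ∀ M : α, IsLocalMin (fun z => - f z) M → s ≠ M := fun M h e =>
    pm_upass hN hd' hd2 hZ h (e ▸ ps')
  have a5 : ∀ v : α, LPass (fun z => - f z) v → s ≠ v := fun v h e => hnb s hs ps (e ▸ h)
  have a6 : ∀ M v : α, IsLocalMin (fun z => - f z) M → LPass (fun z => - f z) v → M ≠ v := fun M v h h' e =>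
    cc_loc h' (e ▸ h)
  have hcard : ({m1, m2, s, M1, M2, M3, v1, v2} : Finset α).card = 8 := by
    rw [Finset.card_insert_of_notMem, Finset.card_insert_of_notMem, Finset.card_insert_of_notMem,
      Finset.card_insert_of_notMem, Finset.card_insert_of_notMem, Finset.card_insert_of_notMem,
      Finset.card_insert_of_notMem, Finset.card_singleton]
    · simp only [Finset.mem_singleton]
      exact nv
    · simp only [Finset.mem_insert, Finset.mem_singleton, not_or]
      exact ⟨a6 _ _ L3 q1, a6 _ _ L3 q2⟩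
    · simp only [Finset.mem_insert, Finset.mem_singleton, not_or]
      exact ⟨N23, a6 _ _ L2 q1, a6 _ _ L2 q2⟩
    · simp only [Finset.mem_insert, Finset.mem_singleton, not_or]
      exact ⟨N12, N13, a6 _ _ L1 q1, a6 _ _ L1 q2⟩
    · simp only [Finset.mem_insert, Finset.mem_singleton, not_or]
      exact ⟨a4 _ L1, a4 _ L2, a4 _ L3, a5 _ q1, a5 _ q2⟩
    · simp only [Finset.mem_insert, Finset.mem_singleton, not_or]
      exact ⟨a1 _ l2, a2 _ _ l2 L1, a2 _ _ l2 L2, a2 _ _ l2 L3, a3 _ _ l2 q1, a3 _ _ l2 q2⟩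
    · simp only [Finset.mem_insert, Finset.mem_singleton, not_or]
      exact ⟨n12, a1 _ l1, a2 _ _ l1 L1, a2 _ _ l1 L2, a2 _ _ l1 L3, a3 _ _ l1 q1, a3 _ _ l1 q2⟩
  have hsub : ({m1, m2, s, M1, M2, M3, v1, v2} : Finset α) ⊆ hZ.toFinset := by
    intro x hx
    simp only [Finset.mem_insert, Finset.mem_singleton] at hx
    rw [Set.Finite.mem_toFinset]
    rcases hx with rfl | rfl | rfl | rfl | rfl | rfl | rfl | rfl <;> assumption
  have h8 := Finset.card_le_card hsub
  rw [hcard, ← Set.ncard_eq_toFinset_card Z hZ] at h8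
  omega

theorem k1_dense (hK : Body K ρ R) {P : ↥(interior K) → Prop} (hP : IsOpen {p | P p}) {p : ↥(interior K)}
    (hp : P p) : ∃ q : ↥(interior K), Generic K (q : E) ∧ P q := by
  obtain ⟨ε, hε, hb⟩ := Metric.isOpen_iff.1 hP p hp
  obtain ⟨q, hq, hqp⟩ := AGen.generic_dense hK p.2 hε
  refine ⟨⟨q, hq.1⟩, hq, hb ?_⟩
  rw [mem_ball, Subtype.dist_eq, dist_eq_norm]
  exact hqp

theorem k1_count (hK : Body K ρ R) (h7 : AtMost7 K) (hd : 4 ≤ Module.finrank ℝ E) {p : ↥(interior K)}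
    (hg : Generic K (p : E)) (h2 : Two (univ : Set ↥(S K)) (FS K p))
    (h3 : Three (univ : Set ↥(S K)) (fun z => - FS K p z)) : False := by
  have := SN.S_cs hK
  have := SN.S_conn hK hd
  have := SN.S_lpc hK hd
  obtain ⟨s₀, hF'⟩ := x3_fam' hK
  obtain ⟨hfin, hcard⟩ := x3_fin h7 p
  exact k1_abs (SN.S_nice hK hd) (SN.S_two hK hd) (fa_desc (x3_fam hK) p) (fa_desc hF' p) hfin hcard
    (fun s hs a b => k0_not_both hK hd hg hs a b)
    (fun s hs A₁ A₂ A₃ a b c d e f g => k0_touch' hK hg hs A₁ A₂ A₃ a b c d e f g) h2 h3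

theorem k1_count' (hK : Body K ρ R) (h7 : AtMost7 K) (hd : 4 ≤ Module.finrank ℝ E) {p : ↥(interior K)}
    (hg : Generic K (p : E)) (h3 : Three (univ : Set ↥(S K)) (FS K p))
    (h2 : Two (univ : Set ↥(S K)) (fun z => - FS K p z)) : False := by
  have := SN.S_cs hK
  have := SN.S_conn hK hd
  have := SN.S_lpc hK hd
  obtain ⟨s₀, hF'⟩ := x3_fam' hK
  obtain ⟨hfin, hcard⟩ := x3_fin h7 p
  have hnn : (fun z => - (fun z => - FS K p z) z) = FS K p := by
    funext z
    simp only [neg_neg]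
  refine k1_abs (f := fun z => - FS K p z) (SN.S_nice hK hd) (SN.S_two hK hd) (fa_desc hF' p)
    (g' := fun s x => gS K s p x) ?_ hfin hcard
    (fun s hs a b => k0_not_both hK hd hg hs (by rw [hnn] at b; exact b) a) ?_ h2 (by rw [hnn]; exact h3)
  · rw [hnn]
    exact fa_desc (x3_fam hK) p
  · simp only [neg_neg]
    exact fun s hs A₁ A₂ A₃ a b c d e f g => k0_touch hK hg hs A₁ A₂ A₃ a b c d e f g

/-- (2.7) -/
theorem count3 (hK : Body K ρ R) (h7 : AtMost7 K) (hd : 4 ≤ Module.finrank ℝ E) {p : E} (hp : p ∈ interior K)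
    (h2 : Two (S K) (F p)) (h3 : Three (S K) (fun x => - F p x)) : False := by
  have := SN.S_cs hK
  have := SN.S_conn hK hd
  have := SN.S_lpc hK hd
  obtain ⟨s₀, hF'⟩ := x3_fam' hK
  obtain ⟨q, hq, h2', h3'⟩ := k1_dense hK (P := fun p => Two (univ : Set ↥(S K)) (FS K p) ∧
    Three (univ : Set ↥(S K)) (fun z => - FS K p z)) (IsOpen.inter (fa_two (x3_fam hK)) (fa_three hF'))
    (p := ⟨p, hp⟩) ⟨(x4_two ⟨p, hp⟩).1 h2, (x4_three' ⟨p, hp⟩).1 h3⟩
  exact k1_count hK h7 hd hq h2' h3'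

theorem count3' (hK : Body K ρ R) (h7 : AtMost7 K) (hd : 4 ≤ Module.finrank ℝ E) {p : E} (hp : p ∈ interior K)
    (h2 : Three (S K) (F p)) (h3 : Two (S K) (fun x => - F p x)) : False := by
  have := SN.S_cs hK
  have := SN.S_conn hK hd
  have := SN.S_lpc hK hd
  obtain ⟨s₀, hF'⟩ := x3_fam' hK
  obtain ⟨q, hq, h2', h3'⟩ := k1_dense hK (P := fun p => Three (univ : Set ↥(S K)) (FS K p) ∧
    Two (univ : Set ↥(S K)) (fun z => - FS K p z)) (IsOpen.inter (fa_three (x3_fam hK)) (fa_two hF'))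
    (p := ⟨p, hp⟩) ⟨(x4_three ⟨p, hp⟩).1 h2, (x4_two' ⟨p, hp⟩).1 h3⟩
  exact k1_count' hK h7 hd hq h2' h3'

end Pool.Agent.E8N.TY
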