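import Pool.Agent.E8N.T_X5

/-!
# E8N module T_Y2

OPENNESS AND CONTINUITY OF LEVELS. `notTwo_closed`: the set is the image under the open embedding Subtype.val : ↥(interior K) → E of the open set {p | Two (FS K p)} (fa_two, x3_fam, x4_two). `notTwo_closed'`: fa_two for x3_fam'. `Om_open`: intersection. `cl_eq`: oa_lev (x1_sepd, x1_pass, x4_cl) with not Three from count3'.
`cl_cont`: for p₀ ∈ Om K: fa_lev along the filter comap Subtype.val (𝓝[Om K] p₀) or with sequences (tendsto_nhdsWithin_iff, SequentialSpace: continuousOn_iff via sequences `tendsto_of_seq_tendsto`). `dl_cont`: the same for -F.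
-/

set_option autoImplicit false

open Metric Set Filter Topology

namespace Pool.Agent.E8N.TY

variable {E : Type*} [NormedAddCommGroup E] [InnerProductSpace ℝ E] [FiniteDimensional ℝ E]
variable {K : Set E} {ρ R : ℝ}


theorem notTwo_closed (hK : Body K ρ R) (hd : 4 ≤ Module.finrank ℝ E) :
    IsOpen {p | p ∈ interior K ∧ Two (S K) (F p)} := by
  have := SN.S_cs hK
  have := SN.S_conn hK hd
  have := SN.S_lpc hK hd
  have h := fa_two (x3_fam hK)
  have e : {p | p ∈ interior K ∧ Two (S K) (F p)} =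
      Subtype.val '' {p : ↥(interior K) | Two (univ : Set ↥(S K)) (FS K p)} := by
    ext p
    constructor
    · rintro ⟨hp, h2⟩
      exact ⟨⟨p, hp⟩, (x4_two ⟨p, hp⟩).1 h2, rfl⟩
    · rintro ⟨q, hq, rfl⟩
      exact ⟨q.2, (x4_two q).2 hq⟩
  rw [e]
  exact isOpen_interior.isOpenMap_subtype_val _ h

theorem notTwo_closed' (hK : Body K ρ R) (hd : 4 ≤ Module.finrank ℝ E) :
    IsOpen {p | p ∈ interior K ∧ Two (S K) (fun x => - F p x)} := by
  have := SN.S_cs hK
  have := SN.S_conn hK hd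
  have := SN.S_lpc hK hd
  obtain ⟨s₀, hs₀⟩ := x3_fam' hK
  have h := fa_two hs₀
  have e : {p | p ∈ interior K ∧ Two (S K) (fun x => - F p x)} =
      Subtype.val '' {p : ↥(interior K) | Two (univ : Set ↥(S K)) (fun z => - FS K p z)} := by
    ext p
    constructor
    · rintro ⟨hp, h2⟩
      exact ⟨⟨p, hp⟩, (x4_two' ⟨p, hp⟩).1 h2, rfl⟩
    · rintro ⟨q, hq, rfl⟩
      exact ⟨q.2, (x4_two' q).2 hq⟩
  rw [e]
  exact isOpen_interior.isOpenMap_subtype_val _ h

theorem Om_open (hK : Body K ρ R) (hd : 4 ≤ Module.finrank ℝ E) : IsOpen (Om K) := by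
  have e : Om K = {p | p ∈ interior K ∧ Two (S K) (F p)} ∩ {p | p ∈ interior K ∧ Two (S K) (fun x => - F p x)} := by
    ext p
    simp only [Om, mem_ofPred_eq, mem_inter_iff]
    tauto
  rw [e]
  exact (notTwo_closed hK hd).inter (notTwo_closed' hK hd)

theorem cl_eq (hK : Body K ρ R) (h7 : AtMost7 K) (hd : 4 ≤ Module.finrank ℝ E) {p x y : E} (hp : p ∈ Om K)
    (hx : x ∈ S K) (hy : y ∈ S K) (h : Sepd (S K) (F p) x y) : pass (S K) (F p) x y = cl K p := by
  have := SN.S_cs hK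
  have := SN.S_conn hK hd
  have := SN.S_lpc hK hd
  have h3 : ¬ Three (univ : Set ↥(S K)) (FS K ⟨p, hp.1⟩) := fun h3 =>
    count3' hK h7 hd hp.1 ((x4_three ⟨p, hp.1⟩).2 h3) hp.2.2
  have hc : Continuous (FS K ⟨p, hp.1⟩) := (fa_desc (x3_fam hK) ⟨p, hp.1⟩).fc
  have hs : Sepd (univ : Set ↥(S K)) (FS K ⟨p, hp.1⟩) ⟨x, hx⟩ ⟨y, hy⟩ :=
    (x1_sepd (S K) (F p) ⟨x, hx⟩ ⟨y, hy⟩).1 h
  have h1 := oa_lev hc h3 hs
  have h2 := x1_pass (S K) (F p) ⟨x, hx⟩ ⟨y, hy⟩
  have h4 := x4_cl (K := K) ⟨p, hp.1⟩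
  simp only at h4 h2
  rw [h4, h2, ← h1]
  rfl

theorem cl_cont (hK : Body K ρ R) (h7 : AtMost7 K) (hd : 4 ≤ Module.finrank ℝ E) : ContinuousOn (cl K) (Om K) := by
  have := SN.S_cs hK
  have := SN.S_conn hK hd
  have := SN.S_lpc hK hd
  rw [continuousOn_iff_continuous_domRestrict, continuous_iff_continuousAt]
  intro p₀
  let j : ↥(Om K) → ↥(interior K) := fun p => ⟨p, p.2.1⟩
  have hj : Continuous j := Continuous.subtype_mk continuous_subtype_val _
  have h3 : ∀ p : ↥(Om K), ¬ Three (univ : Set ↥(S K)) (FS K (j p)) := fun p h3 =>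
    count3' hK h7 hd p.2.1 ((x4_three (j p)).2 h3) p.2.2.2
  have h := fa_lev (x3_fam hK) (hj.tendsto p₀) (Filter.Eventually.of_forall h3) ((x4_two (j p₀)).1 p₀.2.2.1) (h3 p₀)
  have e : (Om K).domRestrict (cl K) = fun p => lev (FS K (j p)) := funext fun p => x4_cl (j p)
  rw [ContinuousAt, e]
  exact h

theorem dl_cont (hK : Body K ρ R) (h7 : AtMost7 K) (hd : 4 ≤ Module.finrank ℝ E) : ContinuousOn (dl K) (Om K) := by
  have := SN.S_cs hK
  have := SN.S_conn hK hd
  have := SN.S_lpc hK hd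
  rw [continuousOn_iff_continuous_domRestrict, continuous_iff_continuousAt]
  intro p₀
  obtain ⟨s₀, hs₀⟩ := x3_fam' hK
  let j : ↥(Om K) → ↥(interior K) := fun p => ⟨p, p.2.1⟩
  have hj : Continuous j := Continuous.subtype_mk continuous_subtype_val _
  have h3 : ∀ p : ↥(Om K), ¬ Three (univ : Set ↥(S K)) (fun z => - FS K (j p) z) := fun p h3 =>
    count3 hK h7 hd p.2.1 p.2.2.1 ((x4_three' (j p)).2 h3)
  have h := fa_lev hs₀ (hj.tendsto p₀) (Filter.Eventually.of_forall h3) ((x4_two' (j p₀)).1 p₀.2.2.2) (h3 p₀)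
  have e : (Om K).domRestrict (dl K) = fun p => dev (FS K (j p)) := funext fun p => x4_dl (j p)
  rw [ContinuousAt, e]
  exact h.neg

end Pool.Agent.E8N.TY
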