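import Pool.Agent.E8N.S_FIN

/-!
# E8N: `↥(S K)` is compact, connected, locally path connected and Nice

The theorems `SN.S_cs`, `SN.S_conn`, `SN.S_lpc`, `SN.S_two`, `SN.S_nice` are proved in `S_FIN`.
-/
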