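import Pool.Agent.E8N.Top

/-!
# E8N module T_PA

PASS LEVELS, ELEMENTARY. `pass univ f x y = sInf T(x,y)`, `T(x,y) = {t | ∃ C ⊆ univ, IsPreconnected C ∧ x ∈ C ∧ y ∈ C ∧
∀ z ∈ C, f z ≤ t}`. For `f` continuous on the compact connected space `α` the set `T(x,y)` is nonempty (C = univ,
t = a bound of f: `isCompact_univ`, `IsCompact.bddAbove_image`), bounded below by `max (f x) (f y)`.
`pa_le`: csInf_le. `pa_ge`: le_csInf. `pa_lt`: exists_lt_of_csInf_lt. `pa_ultra`: if the right side is < t take C, C'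
from `pa_lt`, their union is preconnected (common point y) (IsPreconnected.union); conclude by le_of_forall_gt.
`pa_lip`: from f ≤ g + ε and g ≤ f + ε: T_g(x,y) + ε ⊆ T_f(x,y).
-/

set_option autoImplicit false

open Metric Set Filter Topology

namespace Pool.Agent.E8N

variable {α : Type*} [MetricSpace α] [CompactSpace α] [ConnectedSpace α]


private theorem t_pa_bdd {f : α → ℝ} (x y : α) :
    BddBelow {t | ∃ C ⊆ (univ : Set α), IsPreconnected C ∧ x ∈ C ∧ y ∈ C ∧ ∀ z ∈ C, f z ≤ t} := by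
  refine ⟨f x, ?_⟩
  rintro t ⟨C, _, _, hx, _, h⟩
  exact h x hx

private theorem t_pa_ne {f : α → ℝ} (hf : Continuous f) (x y : α) :
    {t | ∃ C ⊆ (univ : Set α), IsPreconnected C ∧ x ∈ C ∧ y ∈ C ∧ ∀ z ∈ C, f z ≤ t}.Nonempty := by
  obtain ⟨t, ht⟩ := (isCompact_univ (X := α)).bddAbove_image hf.continuousOn
  refine ⟨t, univ, Subset.rfl, isPreconnected_univ, mem_univ _, mem_univ _, ?_⟩
  intro z _
  exact ht (mem_image_of_mem f (mem_univ z))

theorem pa_le {f : α → ℝ} (hf : Continuous f) {x y : α} {C : Set α} {t : ℝ} (hC : IsPreconnected C)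
    (hx : x ∈ C) (hy : y ∈ C) (h : ∀ z ∈ C, f z ≤ t) : pass (univ : Set α) f x y ≤ t :=
  csInf_le (t_pa_bdd x y) ⟨C, subset_univ _, hC, hx, hy, h⟩

theorem pa_ge {f : α → ℝ} (hf : Continuous f) (x y : α) : max (f x) (f y) ≤ pass (univ : Set α) f x y := by
  refine le_csInf (t_pa_ne hf x y) ?_
  rintro t ⟨C, _, _, hx, hy, h⟩
  exact max_le (h x hx) (h y hy)

theorem pa_lt {f : α → ℝ} (hf : Continuous f) {x y : α} {t : ℝ} (h : pass (univ : Set α) f x y < t) :
    ∃ C : Set α, IsPreconnected C ∧ x ∈ C ∧ y ∈ C ∧ ∃ t' < t, ∀ z ∈ C, f z ≤ t' := by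
  obtain ⟨t', ⟨C, _, hC, hx, hy, h1⟩, h2⟩ := exists_lt_of_csInf_lt (t_pa_ne hf x y) h
  exact ⟨C, hC, hx, hy, t', h2, h1⟩

theorem pa_comm (f : α → ℝ) (x y : α) : pass (univ : Set α) f x y = pass (univ : Set α) f y x := by
  unfold pass
  congr 1
  ext t
  constructor
  · rintro ⟨C, h1, h2, h3, h4, h5⟩
    exact ⟨C, h1, h2, h4, h3, h5⟩
  · rintro ⟨C, h1, h2, h3, h4, h5⟩
    exact ⟨C, h1, h2, h4, h3, h5⟩

theorem pa_self {f : α → ℝ} (hf : Continuous f) (x : α) : pass (univ : Set α) f x x = f x := by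
  apply le_antisymm
  · refine pa_le hf (C := {x}) isPreconnected_singleton (mem_singleton x) (mem_singleton x) ?_
    intro z hz
    rw [mem_singleton_iff.mp hz]
  · have := pa_ge hf x x
    rwa [max_self] at this

theorem pa_ultra {f : α → ℝ} (hf : Continuous f) (x y z : α) :
    pass (univ : Set α) f x z ≤ max (pass (univ : Set α) f x y) (pass (univ : Set α) f y z) := by
  refine le_of_forall_gt_imp_ge_of_dense ?_
  intro t ht
  obtain ⟨C, hC, hx, hy, t1, ht1, h1⟩ := pa_lt hf (lt_of_le_of_lt (le_max_left _ _) ht)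
  obtain ⟨C', hC', hy', hz, t2, ht2, h2⟩ := pa_lt hf (lt_of_le_of_lt (le_max_right _ _) ht)
  refine pa_le hf (IsPreconnected.union y hy hy' hC hC') (Or.inl hx) (Or.inr hz) ?_
  intro w hw
  rcases hw with hw | hw
  · exact (h1 w hw).trans ht1.le
  · exact (h2 w hw).trans ht2.le

private theorem t_pa_lip1 {f g : α → ℝ} (hf : Continuous f) (hg : Continuous g) {ε : ℝ}
    (h : ∀ z, |f z - g z| ≤ ε) (x y : α) :
    pass (univ : Set α) f x y - ε ≤ pass (univ : Set α) g x y := by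
  refine le_of_forall_gt_imp_ge_of_dense ?_
  intro t ht
  obtain ⟨C, hC, hx, hy, t1, ht1, h1⟩ := pa_lt hg ht
  have h2 : pass (univ : Set α) f x y ≤ t + ε := by
    refine pa_le hf hC hx hy ?_
    intro z hz
    have h3 := (abs_le.mp (h z)).2
    have h4 := h1 z hz
    linarith
  linarith

theorem pa_lip {f g : α → ℝ} (hf : Continuous f) (hg : Continuous g) {ε : ℝ} (h : ∀ z, |f z - g z| ≤ ε) (x y : α) :
    |pass (univ : Set α) f x y - pass (univ : Set α) g x y| ≤ ε := by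
  have h1 := t_pa_lip1 hf hg h x y
  have h2 := t_pa_lip1 hg hf (fun z => by rw [abs_sub_comm]; exact h z) x y
  rw [abs_le]
  constructor <;> linarith

theorem pa_sepd_comm {f : α → ℝ} {x y : α} (h : Sepd (univ : Set α) f x y) : Sepd (univ : Set α) f y x := by
  unfold Sepd at h ⊢
  rw [pa_comm f y x, max_comm]
  exact h

end Pool.Agent.E8N
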