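import Pool.Agent.E8N.Top2

/-!
# E8N module T_X1

TRANSFER OF PASS LEVELS between a subset X and the subtype. `x1_pass`: the two sets of levels t are equal: if C ⊆ X is preconnected take the preimage C' in the subtype; val '' C' = C and C' is preconnected because Subtype.val is inducing
(Topology.IsInducing.isPreconnected_image); conversely take the image val '' C'. `x1_sepd`, `x1_two`, `x1_three`: unfold, use x1_pass.
-/

set_option autoImplicit false

open Metric Set Filter Topology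

namespace Pool.Agent.E8N.TY

theorem x1_pass {α : Type*} [TopologicalSpace α] (X : Set α) (f : α → ℝ) (x y : ↥X) :
    pass X f (x : α) (y : α) = pass (univ : Set ↥X) (fun z : ↥X => f z) x y := by
  have hind : Topology.IsInducing (Subtype.val : ↥X → α) := Topology.IsInducing.subtypeVal
  unfold pass
  congr 1
  ext t
  constructor
  · rintro ⟨C, hCX, hC, hx, hy, h⟩
    refine ⟨Subtype.val ⁻¹' C, subset_univ _, ?_, hx, hy, fun z hz => h z hz⟩
    rw [← hind.isPreconnected_image, Subtype.image_preimage_coe, inter_eq_right.mpr hCX]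
    exact hC
  · rintro ⟨C, -, hC, hx, hy, h⟩
    refine ⟨Subtype.val '' C, ?_, ?_, ⟨x, hx, rfl⟩, ⟨y, hy, rfl⟩, ?_⟩
    · rintro _ ⟨z, -, rfl⟩
      exact z.2
    · rw [hind.isPreconnected_image]
      exact hC
    · rintro _ ⟨z, hz, rfl⟩
      exact h z hz

theorem x1_sepd {α : Type*} [TopologicalSpace α] (X : Set α) (f : α → ℝ) (x y : ↥X) :
    Sepd X f (x : α) (y : α) ↔ Sepd (univ : Set ↥X) (fun z : ↥X => f z) x y := by
  unfold Sepd
  rw [x1_pass]

theorem x1_two {α : Type*} [TopologicalSpace α] (X : Set α) (f : α → ℝ) :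
    Two X f ↔ Two (univ : Set ↥X) (fun z : ↥X => f z) := by
  constructor
  · rintro ⟨x, hx, y, hy, h⟩
    exact ⟨⟨x, hx⟩, trivial, ⟨y, hy⟩, trivial, (x1_sepd X f ⟨x, hx⟩ ⟨y, hy⟩).1 h⟩
  · rintro ⟨x, -, y, -, h⟩
    exact ⟨x, x.2, y, y.2, (x1_sepd X f x y).2 h⟩

theorem x1_three {α : Type*} [TopologicalSpace α] (X : Set α) (f : α → ℝ) :
    Three X f ↔ Three (univ : Set ↥X) (fun z : ↥X => f z) := by
  constructor
  · rintro ⟨x, hx, y, hy, z, hz, h, h', h''⟩
    exact ⟨⟨x, hx⟩, trivial, ⟨y, hy⟩, trivial, ⟨z, hz⟩, trivial, (x1_sepd X f ⟨x, hx⟩ ⟨y, hy⟩).1 h,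
      (x1_sepd X f ⟨y, hy⟩ ⟨z, hz⟩).1 h', (x1_sepd X f ⟨x, hx⟩ ⟨z, hz⟩).1 h''⟩
  · rintro ⟨x, -, y, -, z, -, h, h', h''⟩
    exact ⟨x, x.2, y, y.2, z, z.2, (x1_sepd X f x y).2 h, (x1_sepd X f y z).2 h', (x1_sepd X f x z).2 h''⟩

end Pool.Agent.E8N.TY
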