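import Pool.Agent.E8N.T_X3
import Pool.Agent.E8N.T_X1
import Pool.Agent.E8N.SN
import Pool.Agent.E8N.T_PA

/-!
# E8N module T_Y1

SIMPLE FACTS. S K is compact (ZSurf.S_compact) and nonempty (SN.S_conn or a ray), F p is continuous, so minimum and maximum are attained: IsCompact.exists_isMinOn; mn K p = sInf (F p '' S K). `Lo_nonempty`, `Hi_nonempty` (if S K were empty the statement would be false: use ZRayC.ray_cont or ZRet.ret_mem for a point outside K; E is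
nontrivial because of hd). `mn_le`, `le_mx`: csInf_le, le_csSup. `mn_cont`, `mx_cont`: |F p x - F q x| ≤ ‖p - q‖ (ZSurf.F_lip). `argmin_crit`: if tau ≠ 0, ZGm.gm_dec with s = 1 gives a point of S K with smaller F, contradiction; x ∈ Lo K 0 p means x ∈ S K, F p x ≤ mn. `argmax_crit`: ZGp.gp_inc with s = s₀.
`pass_le`: csInf_le; bounded below by F p x (x ∈ C). `pass_lip`: x1_pass and pa_lip on the subtype (instances SN.S_cs, SN.S_conn).
-/

set_option autoImplicit false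

open Metric Set Filter Topology

namespace Pool.Agent.E8N.TY

variable {E : Type*} [NormedAddCommGroup E] [InnerProductSpace ℝ E] [FiniteDimensional ℝ E]
variable {K : Set E} {ρ R : ℝ}


theorem ty1_ne (hK : Body K ρ R) (hd : 4 ≤ Module.finrank ℝ E) : (S K).Nonempty := by
  obtain ⟨x, _, _⟩ := SN.S_two hK hd
  exact ⟨x, x.2⟩

theorem ty1_cont (p : E) : Continuous (F p) := by
  unfold F
  fun_prop

theorem Lo_nonempty (hK : Body K ρ R) (hd : 4 ≤ Module.finrank ℝ E) (p : E) : ∃ x ∈ S K, F p x = mn K p := by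
  obtain ⟨x, hx, hmin⟩ := (ZSurf.S_compact hK).exists_isMinOn (ty1_ne hK hd) (ty1_cont p).continuousOn
  refine ⟨x, hx, ?_⟩
  have h : IsLeast (F p '' S K) (F p x) := by
    refine ⟨⟨x, hx, rfl⟩, ?_⟩
    rintro _ ⟨y, hy, rfl⟩
    exact hmin hy
  exact h.csInf_eq.symm

theorem Hi_nonempty (hK : Body K ρ R) (hd : 4 ≤ Module.finrank ℝ E) (p : E) : ∃ x ∈ S K, F p x = mx K p := by
  obtain ⟨x, hx, hmax⟩ := (ZSurf.S_compact hK).exists_isMaxOn (ty1_ne hK hd) (ty1_cont p).continuousOn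
  refine ⟨x, hx, ?_⟩
  have h : IsGreatest (F p '' S K) (F p x) := by
    refine ⟨⟨x, hx, rfl⟩, ?_⟩
    rintro _ ⟨y, hy, rfl⟩
    exact hmax hy
  exact h.csSup_eq.symm

theorem mn_le (hK : Body K ρ R) {p x : E} (hx : x ∈ S K) : mn K p ≤ F p x := by
  refine csInf_le ⟨0, ?_⟩ ⟨x, hx, rfl⟩
  rintro _ ⟨y, _, rfl⟩
  exact norm_nonneg _

theorem le_mx (hK : Body K ρ R) {p x : E} (hx : x ∈ S K) : F p x ≤ mx K p :=
  le_csSup ((ZSurf.S_compact hK).bddAbove_image (ty1_cont p).continuousOn) ⟨x, hx, rfl⟩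

theorem mn_cont (hK : Body K ρ R) (hd : 4 ≤ Module.finrank ℝ E) (p q : E) : |mn K p - mn K q| ≤ ‖p - q‖ := by
  obtain ⟨x, hx, hx'⟩ := Lo_nonempty hK hd p
  obtain ⟨y, hy, hy'⟩ := Lo_nonempty hK hd q
  have h1 := mn_le hK (p := p) hy
  have h2 := mn_le hK (p := q) hx
  have h3 := abs_le.1 (ZSurf.F_lip p q x)
  have h4 := abs_le.1 (ZSurf.F_lip p q y)
  rw [abs_le]
  constructor <;> linarith [h3.1, h3.2, h4.1, h4.2]

theorem mx_cont (hK : Body K ρ R) (hd : 4 ≤ Module.finrank ℝ E) (p q : E) : |mx K p - mx K q| ≤ ‖p - q‖ := by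
  obtain ⟨x, hx, hx'⟩ := Hi_nonempty hK hd p
  obtain ⟨y, hy, hy'⟩ := Hi_nonempty hK hd q
  have h1 := le_mx hK (p := p) hy
  have h2 := le_mx hK (p := q) hx
  have h3 := abs_le.1 (ZSurf.F_lip p q x)
  have h4 := abs_le.1 (ZSurf.F_lip p q y)
  rw [abs_le]
  constructor <;> linarith [h3.1, h3.2, h4.1, h4.2]

theorem argmin_crit (hK : Body K ρ R) {p x : E} (hp : p ∈ K) (hx : x ∈ Lo K 0 p) : x ∈ Crit K p := by
  refine ⟨hx.1, ?_⟩
  have h1 := ZGm.gm_dec hK (s := 1) hx.1 hp zero_le_one le_rfl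
  have h2 := mn_le hK (p := p) (ZGm.gm_mem hK (s := 1) (p := p) hx.1)
  have h3 : F p x ≤ mn K p + 0 := hx.2
  have h4 : 0 ≤ F p x := norm_nonneg _
  have h5 : F p x ≤ F p (gm K 1 p x) := by linarith
  have h6 : F p x ^ 2 ≤ F p (gm K 1 p x) ^ 2 := by gcongr
  have h7 : ‖tau K p x‖ ^ 2 ≤ 0 := by nlinarith
  have h8 : ‖tau K p x‖ = 0 := by
    have := sq_nonneg ‖tau K p x‖
    exact pow_eq_zero_iff (two_ne_zero) |>.1 (le_antisymm h7 this)
  exact norm_eq_zero.1 h8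

theorem argmax_crit (hK : Body K ρ R) {p x : E} (hp : p ∈ K) (hx : x ∈ Hi K 0 p) : x ∈ Crit K p := by
  refine ⟨hx.1, ?_⟩
  obtain ⟨s₀, hs₀, κ, hκ, h⟩ := ZGp.gp_inc hK
  have h1 := h s₀ hs₀.le le_rfl p hp x hx.1
  have h2 := le_mx hK (p := p) (ZGp.gp_mem hK (s := s₀) (p := p) hx.1)
  have h3 : mx K p - 0 ≤ F p x := hx.2
  have h4 : κ * s₀ * ‖tau K p x‖ ^ 2 ≤ 0 := by linarith
  have h5 : 0 < κ * s₀ := mul_pos hκ hs₀
  have h7 : ‖tau K p x‖ ^ 2 ≤ 0 := by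
    by_contra h6
    exact absurd h4 (not_le.2 (mul_pos h5 (not_le.1 h6)))
  have h8 : ‖tau K p x‖ = 0 := by
    have := sq_nonneg ‖tau K p x‖
    exact pow_eq_zero_iff (two_ne_zero) |>.1 (le_antisymm h7 this)
  exact norm_eq_zero.1 h8

theorem pass_lip (hK : Body K ρ R) (hd : 4 ≤ Module.finrank ℝ E) (p q : E) {x y : E} (hx : x ∈ S K) (hy : y ∈ S K) :
    |pass (S K) (F p) x y - pass (S K) (F q) x y| ≤ ‖p - q‖ := by
  haveI := SN.S_cs hK
  haveI := SN.S_conn hK hd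
  haveI := SN.S_lpc hK hd
  have h1 := x1_pass (S K) (F p) ⟨x, hx⟩ ⟨y, hy⟩
  have h2 := x1_pass (S K) (F q) ⟨x, hx⟩ ⟨y, hy⟩
  have h3 := pa_lip (α := ↥(S K)) (f := fun z : ↥(S K) => F p z) (g := fun z : ↥(S K) => F q z)
    ((ty1_cont p).comp continuous_subtype_val) ((ty1_cont q).comp continuous_subtype_val)
    (fun z => ZSurf.F_lip p q (z : E)) ⟨x, hx⟩ ⟨y, hy⟩
  rw [← h1, ← h2] at h3
  exact h3

theorem pass_le (hK : Body K ρ R) {p x y : E} {C : Set E} {t : ℝ} (hC : C ⊆ S K) (hc : IsPreconnected C)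
    (hx : x ∈ C) (hy : y ∈ C) (h : ∀ z ∈ C, F p z ≤ t) : pass (S K) (F p) x y ≤ t := by
  refine csInf_le ⟨F p x, ?_⟩ ⟨C, hC, hc, hx, hy, h⟩
  rintro t' ⟨C', _, _, hx', _, h'⟩
  exact h' x hx'

end Pool.Agent.E8N.TY
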