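import Pool.Agent.E8N.T_X5
import Pool.Agent.E8N.T_Y1

/-!
# E8N module T_Y3

`argmin_unique`: ce_unique' for FS K p (x4_two, x3_fin): m with F p m < F p z for z ≠ m; Lo K 0 p = {x ∈ S K | F p x ≤ mn K p} (mn_le, Lo_nonempty). `argmax_unique`: for -FS. `mn_lt_mx`: otherwise F p is constant on S K, all points are critical (argmin_crit), but S K is infinite (na_iso with SN.S_two on the subtype, X = ZS finite). `pass_lt_max`: pm_lt
with M (x1_pass): M is the unique maximum (hM), so F p z < F p M = mx K p for z ≠ M.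
-/

set_option autoImplicit false

open Metric Set Filter Topology

namespace Pool.Agent.E8N.TY

variable {E : Type*} [NormedAddCommGroup E] [InnerProductSpace ℝ E] [FiniteDimensional ℝ E]
variable {K : Set E} {ρ R : ℝ}


theorem argmin_unique (hK : Body K ρ R) (h7 : AtMost7 K) (hd : 4 ≤ Module.finrank ℝ E) {p : E} (hp : p ∈ interior K)
    (h : ¬ Two (S K) (F p)) : ∃ m, Lo K 0 p = {m} := by
  have := SN.S_cs hK
  have := SN.S_conn hK hd
  have := SN.S_lpc hK hd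
  have hno : ¬ Two (univ : Set ↥(S K)) (FS K ⟨p, hp⟩) := fun h' => h ((x4_two ⟨p, hp⟩).mpr h')
  obtain ⟨m, -, hm⟩ := ce_unique' (fa_desc (x3_fam hK) ⟨p, hp⟩) (x3_fin h7 ⟨p, hp⟩).1 hno
  obtain ⟨x, hx, hxm⟩ := Lo_nonempty hK hd p
  have hxe : x = (m : E) := by
    by_contra hne
    have h1 : (⟨x, hx⟩ : ↥(S K)) ≠ m := fun e => hne (congrArg Subtype.val e)
    have h2 : F p (m : E) < F p x := hm _ h1
    have h3 : mn K p ≤ F p (m : E) := mn_le hK m.2
    linarith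
  refine ⟨(m : E), ?_⟩
  ext y
  simp only [Lo, mem_setOf_eq, mem_singleton_iff, add_zero]
  constructor
  · rintro ⟨hy, hy2⟩
    by_contra hne
    have h1 : (⟨y, hy⟩ : ↥(S K)) ≠ m := fun e => hne (congrArg Subtype.val e)
    have h2 : F p (m : E) < F p y := hm _ h1
    have h3 : mn K p ≤ F p (m : E) := mn_le hK m.2
    linarith
  · rintro rfl
    exact ⟨m.2, by rw [← hxe, hxm]⟩

theorem argmax_unique (hK : Body K ρ R) (h7 : AtMost7 K) (hd : 4 ≤ Module.finrank ℝ E) {p : E} (hp : p ∈ interior K)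
    (h : ¬ Two (S K) (fun x => - F p x)) : ∃ m, Hi K 0 p = {m} := by
  have := SN.S_cs hK
  have := SN.S_conn hK hd
  have := SN.S_lpc hK hd
  obtain ⟨s₀, hF'⟩ := x3_fam' hK
  have hno : ¬ Two (univ : Set ↥(S K)) (fun z => - FS K ⟨p, hp⟩ z) := fun h' => h ((x4_two' ⟨p, hp⟩).mpr h')
  obtain ⟨m, -, hm⟩ := ce_unique' (fa_desc hF' ⟨p, hp⟩) (x3_fin h7 ⟨p, hp⟩).1 hno
  obtain ⟨x, hx, hxm⟩ := Hi_nonempty hK hd p
  have hm' : ∀ y (hy : y ∈ S K), y ≠ (m : E) → F p y < F p (m : E) := by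
    intro y hy hne
    have h1 : (⟨y, hy⟩ : ↥(S K)) ≠ m := fun e => hne (congrArg Subtype.val e)
    have h2 : - F p (m : E) < - F p y := hm _ h1
    linarith
  have hxe : x = (m : E) := by
    by_contra hne
    have h2 := hm' x hx hne
    have h3 : F p (m : E) ≤ mx K p := le_mx hK m.2
    linarith
  refine ⟨(m : E), ?_⟩
  ext y
  simp only [Hi, mem_setOf_eq, mem_singleton_iff, sub_zero]
  constructor
  · rintro ⟨hy, hy2⟩
    by_contra hne
    have h2 := hm' y hy hne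
    have h3 : F p (m : E) ≤ mx K p := le_mx hK m.2
    linarith
  · rintro rfl
    exact ⟨m.2, by rw [← hxe, hxm]⟩

theorem mn_lt_mx (hK : Body K ρ R) (h7 : AtMost7 K) (hd : 4 ≤ Module.finrank ℝ E) {p : E} (hp : p ∈ interior K) :
    mn K p < mx K p := by
  have := SN.S_cs hK
  have := SN.S_conn hK hd
  have := SN.S_lpc hK hd
  by_contra hlt
  push Not at hlt
  have hpK : p ∈ K := interior_subset hp
  obtain ⟨x, hx, hxm⟩ := Lo_nonempty hK hd p
  have hle : ∀ z ∈ S K, z ∈ Lo K 0 p := by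
    intro z hz
    refine ⟨hz, ?_⟩
    have := le_mx hK (p := p) hz
    linarith
  have hall : ∀ z : ↥(S K), z ∈ ZS K ⟨p, hp⟩ := by
    intro z
    exact (argmin_crit hK hpK (hle z z.2)).2
  have := na_iso (SN.S_two hK hd) isOpen_univ (x3_fin h7 ⟨p, hp⟩).1 (fun z _ => hall z)
  have h3 : (⟨x, hx⟩ : ↥(S K)) ∈ (univ : Set ↥(S K)) := mem_univ _
  rw [this] at h3
  exact h3

theorem pass_lt_max (hK : Body K ρ R) (h7 : AtMost7 K) (hd : 4 ≤ Module.finrank ℝ E) {p x y M : E}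
    (hp : p ∈ interior K) (hM : Hi K 0 p = {M}) (hx : x ∈ S K) (hy : y ∈ S K) (hxM : x ≠ M) (hyM : y ≠ M) :
    pass (S K) (F p) x y < mx K p := by
  have := SN.S_cs hK
  have := SN.S_conn hK hd
  have := SN.S_lpc hK hd
  have hMm : M ∈ Hi K 0 p := by rw [hM]; rfl
  have hMS : M ∈ S K := hMm.1
  have hMx : F p M = mx K p := by
    refine le_antisymm (le_mx hK hMS) ?_
    have := hMm.2
    linarith
  have hu : ∀ z : ↥(S K), z ≠ ⟨M, hMS⟩ → FS K ⟨p, hp⟩ z < FS K ⟨p, hp⟩ ⟨M, hMS⟩ := by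
    intro z hz
    change F p (z : E) < F p M
    rw [hMx]
    refine lt_of_le_of_ne (le_mx hK z.2) ?_
    intro he
    apply hz
    have h1 : (z : E) ∈ Hi K 0 p := ⟨z.2, by rw [he]; linarith⟩
    rw [hM] at h1
    exact Subtype.ext h1
  have hfc : Continuous (FS K ⟨p, hp⟩) := (fa_desc (x3_fam hK) ⟨p, hp⟩).fc
  have key := pm_lt (SN.S_nice hK hd) hfc (x := ⟨x, hx⟩) (y := ⟨y, hy⟩) (M := ⟨M, hMS⟩) hu
    (fun e => hxM (congrArg Subtype.val e)) (fun e => hyM (congrArg Subtype.val e))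
  have h1 := x1_pass (S K) (F p) ⟨x, hx⟩ ⟨y, hy⟩
  have h2 : pass (S K) (F p) x y = pass (univ : Set ↥(S K)) (FS K ⟨p, hp⟩) ⟨x, hx⟩ ⟨y, hy⟩ := h1
  rw [h2, ← hMx]
  exact key

end Pool.Agent.E8N.TY
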