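import Pool.Agent.E8N.T_FB

/-!
# E8N module T_FC

CONTINUITY OF THE PAIR OF MINIMA. By ob_struct at p0: components A0 ∋ lo0, A0' ∋ hi0 with unique minima lo0, hi0. By ob_struct at p k: components A k ∋ lo k, A' k ∋ hi k.
Eventually lo0, hi0 are separated for F(p k) (fa_sepd) with pass = lev (oa_lev), both have value < lev, so they are in different ones of the two components A k, A' k. Define
a k := the component of lo0 at p k and m k := the minimum in it (lo k or hi k), b k, n k the same for hi0 (choose lo k, hi k arbitrarily for the finitely many bad k;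
or use subsequences). fb_min gives m k → lo0, n k → hi0; and {m k, n k} = {lo k, hi k}. (To apply fb_min, whose hypotheses are for all k, shift the sequence by a large N.)
-/

set_option autoImplicit false

open Metric Set Filter Topology

namespace Pool.Agent.E8N

variable {α : Type*} [MetricSpace α] [CompactSpace α] [ConnectedSpace α] [LocallyPathConnectedSpace α]
variable {Q : Type*} [MetricSpace Q] {F : Q → α → ℝ} {Z : Q → Set α} {g g' : ℝ → Q → α → α}


theorem fc_mins (hF : Fam F Z g) {p : ℕ → Q} {p₀ : Q} (hp : Tendsto p atTop (𝓝 p₀)) (hfin : ∀ k, (Z (p k)).Finite)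
    (hfin₀ : (Z p₀).Finite) (h2k : ∀ k, Two (univ : Set α) (F (p k))) (h3 : ∀ k, ¬ Three (univ : Set α) (F (p k)))
    (h2 : Two (univ : Set α) (F p₀)) (h30 : ¬ Three (univ : Set α) (F p₀)) {lo hi : ℕ → α} {lo₀ hi₀ : α}
    (h : ∀ k, MinsT (F (p k)) (Z (p k)) (lo k) (hi k)) (h₀ : MinsT (F p₀) (Z p₀) lo₀ hi₀) {ε : ℝ} (hε : 0 < ε) :
    ∀ᶠ k in atTop, (dist (lo k) lo₀ < ε ∧ dist (hi k) hi₀ < ε) ∨ (dist (lo k) hi₀ < ε ∧ dist (hi k) lo₀ < ε) := by
  classical
  obtain ⟨A0, A0', hA0, hA0', hne, heq, hlo, hhi, hmin, hmin', -, -⟩ :=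
    ob_struct (fa_desc hF p₀) hfin₀ h2 h30 h₀
  choose A A' hA hA' hAne hAeq hAlo hAhi hAmin hAmin' _ _ using fun k =>
    ob_struct (fa_desc hF (p k)) (hfin k) (h2k k) (h3 k) (h k)
  have hcont : ∀ q : Q, Continuous (F q) := fun q => (fa_desc hF q).fc
  have hev : ∀ᶠ k in atTop, (lo₀ ∈ A k ∧ hi₀ ∈ A' k) ∨ (lo₀ ∈ A' k ∧ hi₀ ∈ A k) := by
    filter_upwards [hp.eventually (fa_sepd hF h₀.sepd)] with k hk
    have hpl := oa_lev (hcont (p k)) (h3 k) hk
    have hk' : max (F (p k) lo₀) (F (p k) hi₀) < lev (F (p k)) := hpl ▸ hk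
    have h1 : lo₀ ∈ A k ∪ A' k := by
      rw [← hAeq k]; exact lt_of_le_of_lt (le_max_left _ _) hk'
    have h2 : hi₀ ∈ A k ∪ A' k := by
      rw [← hAeq k]; exact lt_of_le_of_lt (le_max_right _ _) hk'
    rcases h1 with h1 | h1 <;> rcases h2 with h2 | h2
    · exact absurd (pb_lt (hcont (p k)) (hA k) h1 h2) (by rw [hpl]; exact lt_irrefl _)
    · exact Or.inl ⟨h1, h2⟩
    · exact Or.inr ⟨h1, h2⟩
    · exact absurd (pb_lt (hcont (p k)) (hA' k) h1 h2) (by rw [hpl]; exact lt_irrefl _)
  have hle : ∀ k, ∀ z ∈ A k, F (p k) (lo k) ≤ F (p k) z := by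
    intro k z hz
    by_cases hzl : z = lo k
    · rw [hzl]
    · exact (hAmin k z hz hzl).le
  have hle' : ∀ k, ∀ z ∈ A' k, F (p k) (hi k) ≤ F (p k) z := by
    intro k z hz
    by_cases hzl : z = hi k
    · rw [hzl]
    · exact (hAmin' k z hz hzl).le
  have t1 : Tendsto (fun k => if lo₀ ∈ A k then lo k else hi k) atTop (𝓝 lo₀) := by
    refine fb_min hF hp h3 h2 h30 hA0 hlo hmin (A := fun k => if lo₀ ∈ A k then A k else A' k)
      (fun k => ?_) ?_ (fun k => ?_) (fun k => ?_)
    · by_cases hk : lo₀ ∈ A k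
      · simp only [if_pos hk]; exact hA k
      · simp only [if_neg hk]; exact hA' k
    · filter_upwards [hev] with k hk
      by_cases hk1 : lo₀ ∈ A k
      · simp only [if_pos hk1]; exact hk1
      · simp only [if_neg hk1]
        rcases hk with hk | hk
        · exact absurd hk.1 hk1
        · exact hk.1
    · by_cases hk : lo₀ ∈ A k
      · simp only [if_pos hk]; exact hAlo k
      · simp only [if_neg hk]; exact hAhi k
    · by_cases hk : lo₀ ∈ A k
      · simp only [if_pos hk]; exact hle k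
      · simp only [if_neg hk]; exact hle' k
  have t2 : Tendsto (fun k => if lo₀ ∈ A k then hi k else lo k) atTop (𝓝 hi₀) := by
    refine fb_min hF hp h3 h2 h30 hA0' hhi hmin' (A := fun k => if lo₀ ∈ A k then A' k else A k)
      (fun k => ?_) ?_ (fun k => ?_) (fun k => ?_)
    · by_cases hk : lo₀ ∈ A k
      · simp only [if_pos hk]; exact hA' k
      · simp only [if_neg hk]; exact hA k
    · filter_upwards [hev] with k hk
      have hdis := ca_disj (hA k) (hA' k) (hAne k)
      by_cases hk1 : lo₀ ∈ A k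
      · simp only [if_pos hk1]
        rcases hk with hk | hk
        · exact hk.2
        · exact absurd hk.1 (Set.disjoint_left.1 hdis hk1)
      · simp only [if_neg hk1]
        rcases hk with hk | hk
        · exact absurd hk.1 hk1
        · exact hk.2
    · by_cases hk : lo₀ ∈ A k
      · simp only [if_pos hk]; exact hAhi k
      · simp only [if_neg hk]; exact hAlo k
    · by_cases hk : lo₀ ∈ A k
      · simp only [if_pos hk]; exact hle' k
      · simp only [if_neg hk]; exact hle k
  filter_upwards [(Metric.tendsto_nhds.1 t1) ε hε, (Metric.tendsto_nhds.1 t2) ε hε] with k h1 h2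
  by_cases hk : lo₀ ∈ A k
  · simp only [if_pos hk] at h1 h2
    exact Or.inl ⟨h1, h2⟩
  · simp only [if_neg hk] at h1 h2
    exact Or.inr ⟨h2, h1⟩

end Pool.Agent.E8N
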