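import Pool.Agent.E8N.T_X6
import Pool.Agent.E8N.T_FC
import Pool.Agent.E8N.T_Y1

/-!
# E8N module T_Y4

MINIMA. Everything by x6_mins, x6_mins' and ob_mins, ob_unique, fc_mins (Om2 from x5_om2, s₀ from x3_fam'). `mins_cont`: from mins_cont' (for all ε) : in both alternatives F (p k) (hi k) → F p₀ hi₀? In the second alternative infinitely often would give lo k → hi₀, hi k → lo₀ along a subsequence, and F lo k ≤ F hi k (lo is global minimum) gives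
F p₀ hi₀ ≤ F p₀ lo₀, so equality and F (p k) (hi k) → F p₀ lo₀ = F p₀ hi₀. If F p₀ lo₀ < F p₀ hi₀ the second alternative is eventually impossible (for small ε, because F (p k) (lo k) ≤ F (p k) (hi k)).
-/

set_option autoImplicit false

open Metric Set Filter Topology

namespace Pool.Agent.E8N.TY

variable {E : Type*} [NormedAddCommGroup E] [InnerProductSpace ℝ E] [FiniteDimensional ℝ E]
variable {K : Set E} {ρ R : ℝ}


theorem mins_exists (hK : Body K ρ R) (h7 : AtMost7 K) (hd : 4 ≤ Module.finrank ℝ E) {p : E} (hp : p ∈ Om K) :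
    ∃ lo hi, MinsE K p lo hi := by
  have := SN.S_cs hK
  have := SN.S_conn hK hd
  have := SN.S_lpc hK hd
  obtain ⟨s₀, hF'⟩ := x3_fam' hK
  have hO := x5_om2 hK h7 hd hF' (p := ⟨p, hp.1⟩) hp
  obtain ⟨lo, hi, h⟩ := ob_mins hO.hd hO.hZ hO.h2 hO.h3
  exact ⟨_, _, x6_mins' hK h⟩

theorem mins_unique (hK : Body K ρ R) (h7 : AtMost7 K) (hd : 4 ≤ Module.finrank ℝ E) {p lo hi lo' hi' : E}
    (hp : p ∈ Om K) (h : MinsE K p lo hi) (h' : MinsE K p lo' hi') :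
    (lo = lo' ∧ hi = hi') ∨ (lo = hi' ∧ hi = lo' ∧ F p lo = F p hi) := by
  have := SN.S_cs hK
  have := SN.S_conn hK hd
  have := SN.S_lpc hK hd
  obtain ⟨s₀, hF'⟩ := x3_fam' hK
  have hO := x5_om2 hK h7 hd hF' (p := ⟨p, hp.1⟩) hp
  have h1 := x6_mins (p := ⟨p, hp.1⟩) h
  have h2 := x6_mins (p := ⟨p, hp.1⟩) h'
  rcases ob_unique hO.hd hO.hZ hO.h2 hO.h3 h1 h2 with ⟨e1, e2⟩ | ⟨e1, e2, e3⟩
  · left
    exact ⟨congrArg Subtype.val e1, congrArg Subtype.val e2⟩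
  · right
    exact ⟨congrArg Subtype.val e1, congrArg Subtype.val e2, e3⟩

theorem mins_cont' (hK : Body K ρ R) (h7 : AtMost7 K) (hd : 4 ≤ Module.finrank ℝ E) {p : ℕ → E} {p₀ : E}
    {lo hi : ℕ → E} {lo₀ hi₀ : E} (hp : ∀ k, p k ∈ Om K) (hp₀ : p₀ ∈ Om K) (hlim : Tendsto p atTop (𝓝 p₀))
    (h : ∀ k, MinsE K (p k) (lo k) (hi k)) (h₀ : MinsE K p₀ lo₀ hi₀) {ε : ℝ} (hε : 0 < ε) :
    ∀ᶠ k in atTop, (‖lo k - lo₀‖ < ε ∧ ‖hi k - hi₀‖ < ε) ∨ (‖lo k - hi₀‖ < ε ∧ ‖hi k - lo₀‖ < ε) := by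
  have := SN.S_cs hK
  have := SN.S_conn hK hd
  have := SN.S_lpc hK hd
  obtain ⟨s₀, hF'⟩ := x3_fam' hK
  have hF := x3_fam hK
  have hO₀ := x5_om2 hK h7 hd hF' (p := ⟨p₀, hp₀.1⟩) hp₀
  have hO : ∀ k, Om2 (FS K ⟨p k, (hp k).1⟩) (ZS K ⟨p k, (hp k).1⟩) (fun s x => gS K s ⟨p k, (hp k).1⟩ x)
      (fun s x => gS' K s₀ s ⟨p k, (hp k).1⟩ x) :=
    fun k => x5_om2 hK h7 hd hF' (p := ⟨p k, (hp k).1⟩) (hp k)
  have hlim' : Tendsto (fun k => (⟨p k, (hp k).1⟩ : ↥(interior K))) atTop (𝓝 ⟨p₀, hp₀.1⟩) := by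
    rw [tendsto_subtype_rng]
    exact hlim
  have key := fc_mins hF hlim' (fun k => (hO k).hZ) hO₀.hZ (fun k => (hO k).h2) (fun k => (hO k).h3) hO₀.h2 hO₀.h3
    (fun k => x6_mins (p := ⟨p k, (hp k).1⟩) (h k)) (x6_mins (p := ⟨p₀, hp₀.1⟩) h₀) hε
  filter_upwards [key] with k hk
  simpa only [Subtype.dist_eq, dist_eq_norm] using hk

omit [InnerProductSpace ℝ E] [FiniteDimensional ℝ E] in
theorem T_Y4_F_close (p q x y : E) : |F p x - F q y| ≤ ‖p - q‖ + ‖x - y‖ := by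
  unfold F
  have h1 : |‖x - p‖ - ‖y - q‖| ≤ ‖(x - p) - (y - q)‖ := abs_norm_sub_norm_le _ _
  have h2 : (x - p) - (y - q) = (x - y) - (p - q) := by abel
  rw [h2] at h1
  have h3 : ‖(x - y) - (p - q)‖ ≤ ‖x - y‖ + ‖p - q‖ := norm_sub_le _ _
  linarith

theorem mins_cont (hK : Body K ρ R) (h7 : AtMost7 K) (hd : 4 ≤ Module.finrank ℝ E) {p : ℕ → E} {p₀ : E}
    {lo hi : ℕ → E} {lo₀ hi₀ : E} (hp : ∀ k, p k ∈ Om K) (hp₀ : p₀ ∈ Om K) (hlim : Tendsto p atTop (𝓝 p₀))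
    (h : ∀ k, MinsE K (p k) (lo k) (hi k)) (h₀ : MinsE K p₀ lo₀ hi₀) :
    Tendsto (fun k => F (p k) (hi k)) atTop (𝓝 (F p₀ hi₀)) ∧
      (F p₀ lo₀ < F p₀ hi₀ → Tendsto lo atTop (𝓝 lo₀) ∧ Tendsto hi atTop (𝓝 hi₀)) := by
  have hlohi : ∀ q l m, MinsE K q l m → F q l ≤ F q m := by
    intro q l m hm
    rw [hm.lo_min]
    exact mn_le hK hm.hi_mem
  have hp' : ∀ ε > 0, ∀ᶠ k in atTop, ‖p k - p₀‖ < ε := by
    intro ε hε
    have := (Metric.tendsto_nhds.mp hlim) ε hε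
    simpa only [dist_eq_norm] using this
  constructor
  · rw [Metric.tendsto_nhds]
    intro ε hε
    have hε3 : 0 < ε / 3 := by linarith
    filter_upwards [mins_cont' hK h7 hd hp hp₀ hlim h h₀ hε3, hp' _ hε3] with k hk hk2
    rw [Real.dist_eq]
    rcases hk with ⟨_, h2⟩ | ⟨h1, h2⟩
    · have := T_Y4_F_close (p k) p₀ (hi k) hi₀
      linarith
    · -- swapped: `hi k` near `lo₀`, `lo k` near `hi₀`
      have a1 := T_Y4_F_close (p k) p₀ (hi k) lo₀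
      have a2 := T_Y4_F_close (p k) p₀ (lo k) hi₀
      have a3 := hlohi _ _ _ (h k)
      have a4 := hlohi _ _ _ h₀
      rw [abs_le] at a1 a2
      rw [abs_lt]
      constructor
      · linarith [a1.1, a1.2, a2.1, a2.2]
      · linarith [a1.1, a1.2, a2.1, a2.2]
  · intro hlt
    have hne : ∀ ε > 0, ∀ᶠ k in atTop, ‖lo k - lo₀‖ < ε ∧ ‖hi k - hi₀‖ < ε := by
      intro ε hε
      set d := F p₀ hi₀ - F p₀ lo₀ with hd'
      have hdpos : 0 < d := by rw [hd']; linarith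
      have hmin : 0 < min ε (d / 5) := lt_min hε (by linarith)
      filter_upwards [mins_cont' hK h7 hd hp hp₀ hlim h h₀ hmin, hp' (d / 5) (by linarith)] with k hk hk2
      rcases hk with ⟨h1, h2⟩ | ⟨h1, h2⟩
      · exact ⟨lt_of_lt_of_le h1 (min_le_left _ _), lt_of_lt_of_le h2 (min_le_left _ _)⟩
      · exfalso
        have h1' := lt_of_lt_of_le h1 (min_le_right _ _)
        have h2' := lt_of_lt_of_le h2 (min_le_right _ _)
        have a1 := T_Y4_F_close (p k) p₀ (hi k) lo₀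
        have a2 := T_Y4_F_close (p k) p₀ (lo k) hi₀
        have a3 := hlohi _ _ _ (h k)
        rw [abs_le] at a1 a2
        linarith [a1.1, a1.2, a2.1, a2.2]
    constructor
    · rw [Metric.tendsto_nhds]
      intro ε hε
      filter_upwards [hne ε hε] with k hk
      rw [dist_eq_norm]; exact hk.1
    · rw [Metric.tendsto_nhds]
      intro ε hε
      filter_upwards [hne ε hε] with k hk
      rw [dist_eq_norm]; exact hk.2

end Pool.Agent.E8N.TY
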