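import Pool.Agent.E8N.T_MB

/-!
# E8N module T_MC

UNIQUENESS. {Al, Am} = {Al', Am'}: both are the two components of {f < lev f} (cA; components with a common point are equal). If Al' = Am: Bl' is Bl or Bm; ll' says that closure Am and closure Bl' meet only in X; Bl' = Bl contradicts ml, Bl' = Bm
contradicts mm. So Al' = Al, Am' = Am. If Bl' = Bm: ll' for (Al, Bm) contradicts lm. So Bl' = Bl, Bm' = Bm. x = x', y = y' by the uniqueness in mb_x, mb_y.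
-/

set_option autoImplicit false

open Metric Set Filter Topology

namespace Pool.Agent.E8N

variable {α : Type*} [MetricSpace α] [CompactSpace α] [ConnectedSpace α] [LocallyPathConnectedSpace α]
variable {f : α → ℝ} {Z : Set α} {g g' : ℝ → α → α}

theorem mc_one {U A B C : Set α} (hA : IsComp U A) (hB : IsComp U B) (hC : IsComp U C)
    (h : U = A ∪ B) : C = A ∨ C = B := by
  obtain ⟨x, hxU, hCx⟩ := hC
  have hx : x ∈ C := by rw [hCx]; exact mem_connectedComponentIn hxU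
  have h1 : x ∈ A ∪ B := by rw [← h]; exact hxU
  rcases h1 with h1 | h1
  · left; rw [hCx, pb_comp_eq hA h1]
  · right; rw [hCx, pb_comp_eq hB h1]

theorem mc_pair {U A B C D : Set α} (hA : IsComp U A) (hB : IsComp U B) (hC : IsComp U C)
    (hD : IsComp U D) (hAB : A ≠ B) (hCD : C ≠ D) (h : U = A ∪ B) :
    (A = C ∧ B = D) ∨ (A = D ∧ B = C) := by
  rcases mc_one hA hB hC h with h1 | h1 <;> rcases mc_one hA hB hD h with h2 | h2
  · exact absurd (h1.trans h2.symm) hCD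
  · exact Or.inl ⟨h1.symm, h2.symm⟩
  · exact Or.inr ⟨h2.symm, h1.symm⟩
  · exact absurd (h1.trans h2.symm) hCD

theorem mc_unique (hO : Om2 f Z g g') {Al Am Bl Bm Al' Am' Bl' Bm' : Set α} {x y x' y' : α}
    (h : MidT f Z (lev f) (dev f) Al Am Bl Bm x y) (h' : MidT f Z (lev f) (dev f) Al' Am' Bl' Bm' x' y') :
    Al = Al' ∧ Am = Am' ∧ Bl = Bl' ∧ Bm = Bm' ∧ x = x' ∧ y = y' := by
  have key : (Al = Al' ∧ Am = Am') ∧ (Bl = Bl' ∧ Bm = Bm') := by
    rcases mc_pair h.hAl h.hAm h'.hAl h'.hAm h.hA h'.hA h.cA with ⟨h1, h2⟩ | ⟨h1, h2⟩ <;>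
    rcases mc_pair h.hBl h.hBm h'.hBl h'.hBm h.hB h'.hB h.cB with ⟨h3, h4⟩ | ⟨h3, h4⟩
    · exact ⟨⟨h1, h2⟩, h3, h4⟩
    · exfalso
      obtain ⟨z, hz1, hz2, hz3⟩ := h.lm
      exact hz3 (h'.ll z (h1 ▸ hz1) (h4 ▸ hz2))
    · exfalso
      obtain ⟨z, hz1, hz2, hz3⟩ := h.ml
      exact hz3 (h'.ll z (h2 ▸ hz1) (h3 ▸ hz2))
    · exfalso
      obtain ⟨z, hz1, hz2, hz3⟩ := h.mm
      exact hz3 (h'.ll z (h2 ▸ hz1) (h4 ▸ hz2))
  obtain ⟨⟨h1, h2⟩, h3, h4⟩ := key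
  subst h1 h2 h3 h4
  refine ⟨rfl, rfl, rfl, rfl, ?_, ?_⟩
  · by_contra hne
    have h5 := (mb_x hO h).2.2 x' h'.hx (Ne.symm hne)
    exact absurd (h'.hx' x h.hx) (not_le.2 h5)
  · by_contra hne
    have h5 := (mb_y hO h).2.2 y' h'.hy (Ne.symm hne)
    exact absurd (h'.hy' y h.hy) (not_le.2 h5)

end Pool.Agent.E8N
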