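import Pool.Agent.E8N.T_X6
import Pool.Agent.E8N.T_MC
import Pool.Agent.E8N.T_Y1

/-!
# E8N module T_Y5

MIDDLE STRUCTURE. `mid_exists`: ma_exists (SN.S_nice) + x6_mid'. `mid_unique`: x6_mid twice + mc_unique (images of equal sets). `mid_facts`: x6_mid + mb_x, mb_y, mb_lt, mb_low (mn K p ≤ F p z < dl), mb_min + x6_mins'; last: m ∈ Lo K 0 p is a global minimum; F p x ≠ mn; by mb_min x = hi (x = lo would be a global minimum, F p x = mn), lo ∈ Al;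
m is a global minimum, F p m ≤ F p lo < cl, so m ∈ Al ∪ Am; on Am the values are ≥ F p x > mn (hx', mn_le), so m ∈ Al.
-/

set_option autoImplicit false

open Metric Set Filter Topology

namespace Pool.Agent.E8N.TY

variable {E : Type*} [NormedAddCommGroup E] [InnerProductSpace ℝ E] [FiniteDimensional ℝ E]
variable {K : Set E} {ρ R : ℝ}


theorem mid_exists (hK : Body K ρ R) (h7 : AtMost7 K) (hd : 4 ≤ Module.finrank ℝ E) {p : E} (hp : p ∈ Om K)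
    (hcd : dl K p ≤ cl K p) : ∃ Al Am Bl Bm x y, Mid K p Al Am Bl Bm x y := by
  have := SN.S_cs hK
  have := SN.S_conn hK hd
  have := SN.S_lpc hK hd
  obtain ⟨s₀, hF'⟩ := x3_fam' hK
  have hO := x5_om2 hK h7 hd hF' (p := ⟨p, hp.1⟩) hp
  have hcd' : dev (FS K ⟨p, hp.1⟩) ≤ lev (FS K ⟨p, hp.1⟩) := by
    rw [← x4_cl, ← x4_dl]; exact hcd
  obtain ⟨Al, Am, Bl, Bm, x, y, h⟩ := ma_exists (SN.S_nice hK hd) hO hcd'
  exact ⟨_, _, _, _, _, _, x6_mid' hK h⟩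

theorem mid_unique (hK : Body K ρ R) (h7 : AtMost7 K) (hd : 4 ≤ Module.finrank ℝ E) {p : E} (hp : p ∈ Om K)
    (hcd : dl K p ≤ cl K p) {Al Am Bl Bm Al' Am' Bl' Bm' : Set E} {x y x' y' : E}
    (h : Mid K p Al Am Bl Bm x y) (h' : Mid K p Al' Am' Bl' Bm' x' y') :
    Al = Al' ∧ Am = Am' ∧ Bl = Bl' ∧ Bm = Bm' ∧ x = x' ∧ y = y' := by
  have := SN.S_cs hK
  have := SN.S_conn hK hd
  have := SN.S_lpc hK hd
  obtain ⟨s₀, hF'⟩ := x3_fam' hK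
  have hO := x5_om2 hK h7 hd hF' (p := ⟨p, hp.1⟩) hp
  obtain ⟨Al1, Am1, Bl1, Bm1, x1, y1, h1, rfl, rfl, rfl, rfl, rfl, rfl⟩ := x6_mid hK (p := ⟨p, hp.1⟩) h
  obtain ⟨Al2, Am2, Bl2, Bm2, x2, y2, h2, rfl, rfl, rfl, rfl, rfl, rfl⟩ := x6_mid hK (p := ⟨p, hp.1⟩) h'
  obtain ⟨e1, e2, e3, e4, e5, e6⟩ := mc_unique hO h1 h2
  subst e1 e2 e3 e4 e5 e6
  exact ⟨rfl, rfl, rfl, rfl, rfl, rfl⟩

theorem mid_facts (hK : Body K ρ R) (h7 : AtMost7 K) (hd : 4 ≤ Module.finrank ℝ E) {p : E} (hp : p ∈ Om K)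
    (hcd : dl K p ≤ cl K p) {Al Am Bl Bm : Set E} {x y : E} (h : Mid K p Al Am Bl Bm x y) :
    x ∈ Crit K p ∧ y ∈ Crit K p ∧ F p x < cl K p ∧ cl K p < F p y ∧ dl K p < F p y ∧ mn K p < dl K p ∧
      (∃ lo hi, MinsE K p lo hi ∧ (x = lo ∨ x = hi)) ∧
      (∀ m ∈ Lo K 0 p, F p x ≠ mn K p → m ∈ Al) := by
  have := SN.S_cs hK
  have := SN.S_conn hK hd
  have := SN.S_lpc hK hd
  obtain ⟨s₀, hF'⟩ := x3_fam' hK
  have hO := x5_om2 hK h7 hd hF' (p := ⟨p, hp.1⟩) hp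
  have hc : cl K p = lev (FS K ⟨p, hp.1⟩) := x4_cl (⟨p, hp.1⟩ : ↥(interior K))
  have hdl : dl K p = dev (FS K ⟨p, hp.1⟩) := x4_dl (⟨p, hp.1⟩ : ↥(interior K))
  have hcrit : Crit K p = Subtype.val '' ZS K ⟨p, hp.1⟩ := x3_crit (⟨p, hp.1⟩ : ↥(interior K))
  have hcd' : dev (FS K ⟨p, hp.1⟩) ≤ lev (FS K ⟨p, hp.1⟩) := by
    rw [← hc, ← hdl]; exact hcd
  obtain ⟨Al1, Am1, Bl1, Bm1, x1, y1, h1, rfl, rfl, rfl, rfl, rfl, rfl⟩ := x6_mid hK (p := ⟨p, hp.1⟩) h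
  have hx := mb_x hO h1
  have hy := mb_y hO h1
  have hlt := mb_lt (SN.S_nice hK hd) hO hcd' h1
  obtain ⟨z, hz⟩ := mb_low (SN.S_nice hK hd) hO h1
  obtain ⟨lo, hi, hm, hcase⟩ := mb_min hO h1
  have hmE := x6_mins' hK hm
  refine ⟨?_, ?_, ?_, ?_, ?_, ?_, ?_, ?_⟩
  · rw [hcrit]; exact ⟨x1, hx.1, rfl⟩
  · rw [hcrit]; exact ⟨y1, hy.1, rfl⟩
  · rw [hc]; exact hx.2.1
  · rw [hc]; exact hlt
  · rw [hdl]; exact hy.2.1
  · rw [hdl]; exact lt_of_le_of_lt (mn_le hK z.2) hz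
  · refine ⟨(lo : E), (hi : E), hmE, ?_⟩
    rcases hcase with h2 | h2
    · left; rw [h2.1]
    · right; rw [h2.1]
  · intro m hmL hne
    rcases hcase with h2 | h2
    · exfalso
      apply hne
      rw [h2.1]
      exact hmE.lo_min
    · have hmS : m ∈ S K := hmL.1
      have hm0 : F p m ≤ mn K p := by
        have := hmL.2
        simpa using this
      have hlo : lo ∈ {z | FS K ⟨p, hp.1⟩ z < lev (FS K ⟨p, hp.1⟩)} := by
        rw [h1.cA]; exact Or.inl h2.2.2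
      have hlo' : F p (lo : E) < lev (FS K ⟨p, hp.1⟩) := hlo
      have hml : F p m < lev (FS K ⟨p, hp.1⟩) := by
        have := hmE.lo_min
        have h3 : F p (lo : E) = mn K p := this
        linarith
      have hmem : (⟨m, hmS⟩ : ↥(S K)) ∈ {z | FS K ⟨p, hp.1⟩ z < lev (FS K ⟨p, hp.1⟩)} := hml
      rw [h1.cA] at hmem
      rcases hmem with h3 | h3
      · exact ⟨_, h3, rfl⟩
      · exfalso
        have h4 : F p (x1 : E) ≤ F p m := h1.hx' _ h3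
        have h5 : mn K p ≤ F p (x1 : E) := mn_le hK x1.2
        exact hne (le_antisymm (by linarith) h5)

end Pool.Agent.E8N.TY
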