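import Pool.Agent.E8N.T_MD
import Pool.Agent.E8N.T_FC
import Pool.Agent.E8N.T_MC

/-!
# E8N module T_ME

CONTINUITY OF THE MIDDLE POINTS. c k = lev (F (p k)) → c0, d k = dev (F (p k)) → d0 (fa_lev for F and -F). Let ml0, Ml0 be points of Al0, Bl0. For large k (md_open three times, for (Al0,Bm0), (Am0,Bm0), (Am0,Bl0), with the points ml0, x0, Ml0, y0): writing
A[z] for the component of z in {F (p k) < c k}, B[z] similarly, the pairs (A[ml0], B[y0]), (A[x0], B[y0]), (A[x0], B[Ml0]) have a common closure point off X. A[ml0] ≠ A[x0], B[Ml0] ≠ B[y0] for large k: ml0 and x0 are separated at p0, so eventually at p k, with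
pass = lev (oa_lev): pb_lt would give pass < lev. So {A[ml0], A[x0]} = {Al k, Am k}, {B[Ml0], B[y0]} = {Bl k, Bm k}; since (Al k, Bl k) has no common closure point off X (ll), necessarily Al k = A[ml0], Bl k = B[Ml0], so Am k = A[x0] ∋ x0, Bm k = B[y0] ∋ y0 eventually.
fb_min (for F, A = Am, m = x) gives x k → x0; fb_min for -F gives y k → y0.
-/

set_option autoImplicit false

open Metric Set Filter Topology

namespace Pool.Agent.E8N

variable {α : Type*} [MetricSpace α] [CompactSpace α] [ConnectedSpace α] [LocallyPathConnectedSpace α]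
variable {Q : Type*} [MetricSpace Q] {F : Q → α → ℝ} {Z : Q → Set α} {g g' : ℝ → Q → α → α}


omit [CompactSpace α] [ConnectedSpace α] [LocallyPathConnectedSpace α] in
/-- superlevel component as a sublevel component of the negative -/
theorem me_neg {f : α → ℝ} {B : Set α} (h : IsComp {z | dev f < f z} B) :
    IsComp {z | (fun z => - f z) z < lev (fun z => - f z)} B := by
  rw [← sup_eq']
  exact h

/-- two separated points lie in different components of the sublevel set at the level -/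
theorem me_diff {f : α → ℝ} (hf : Continuous f) (h3 : ¬ Three (univ : Set α) f) {A A' : Set α}
    (hA : IsComp {z | f z < lev f} A) (hA' : IsComp {z | f z < lev f} A')
    (hU : {z | f z < lev f} = A ∪ A') {a b : α} (h : Sepd (univ : Set α) f a b) :
    (a ∈ A ∧ b ∈ A') ∨ (a ∈ A' ∧ b ∈ A) := by
  have hl : pass (univ : Set α) f a b = lev f := oa_lev hf h3 h
  have hm : max (f a) (f b) < lev f := hl ▸ h
  have ha : a ∈ A ∪ A' := by
    rw [← hU]
    exact lt_of_le_of_lt (le_max_left _ _) hm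
  have hb : b ∈ A ∪ A' := by
    rw [← hU]
    exact lt_of_le_of_lt (le_max_right _ _) hm
  rcases ha with ha | ha <;> rcases hb with hb | hb
  · exact absurd (pb_lt hf hA ha hb) (by rw [hl]; exact lt_irrefl _)
  · exact Or.inl ⟨ha, hb⟩
  · exact Or.inr ⟨ha, hb⟩
  · exact absurd (pb_lt hf hA' ha hb) (by rw [hl]; exact lt_irrefl _)

theorem me_lim (hF : Fam F Z g) (hF' : Fam (fun p z => - F p z) Z g') {p : ℕ → Q} {p₀ : Q}
    (hp : Tendsto p atTop (𝓝 p₀))
    (hO : ∀ k, Om2 (F (p k)) (Z (p k)) (fun s x => g s (p k) x) (fun s x => g' s (p k) x))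
    (hO₀ : Om2 (F p₀) (Z p₀) (fun s x => g s p₀ x) (fun s x => g' s p₀ x))
    (hcd : ∀ k, dev (F (p k)) ≤ lev (F (p k))) {Al Am Bl Bm : ℕ → Set α} {x y : ℕ → α}
    {Al₀ Am₀ Bl₀ Bm₀ : Set α} {x₀ y₀ : α}
    (h : ∀ k, MidT (F (p k)) (Z (p k)) (lev (F (p k))) (dev (F (p k))) (Al k) (Am k) (Bl k) (Bm k) (x k) (y k))
    (h₀ : MidT (F p₀) (Z p₀) (lev (F p₀)) (dev (F p₀)) Al₀ Am₀ Bl₀ Bm₀ x₀ y₀) :
    Tendsto x atTop (𝓝 x₀) ∧ Tendsto y atTop (𝓝 y₀) := by
  have hc : Tendsto (fun k => lev (F (p k))) atTop (𝓝 (lev (F p₀))) :=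
    fa_lev hF hp (Eventually.of_forall fun k => (hO k).h3) hO₀.h2 hO₀.h3
  have hd' : Tendsto (fun k => lev (fun z => - F (p k) z)) atTop (𝓝 (lev (fun z => - F p₀ z))) :=
    fa_lev hF' hp (Eventually.of_forall fun k => (hO k).h3') hO₀.h2' hO₀.h3'
  have hd : Tendsto (fun k => dev (F (p k))) atTop (𝓝 (dev (F p₀))) := by
    unfold dev
    exact hd'.neg
  have hf₀ : Continuous (F p₀) := hO₀.hd.fc
  have hf₀' : Continuous (fun z => - F p₀ z) := hO₀.hd'.fc
  obtain ⟨a, ha⟩ := (ca_conn h₀.hAl).2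
  obtain ⟨b, hb⟩ := (ca_conn h₀.hBl).2
  have hBl₀ := me_neg h₀.hBl
  have hBm₀ := me_neg h₀.hBm
  have hx₀A : x₀ ∉ Al₀ := fun hx => (Set.disjoint_left.mp (ca_disj h₀.hAl h₀.hAm h₀.hA)) hx h₀.hx
  have hy₀B : y₀ ∉ Bl₀ := fun hy => (Set.disjoint_left.mp (ca_disj h₀.hBl h₀.hBm h₀.hB)) hy h₀.hy
  have hsA : Sepd (univ : Set α) (F p₀) a x₀ := pb_sepd hf₀ h₀.hAl ha hx₀A (ca_lt h₀.hAm h₀.hx)
  have hsB : Sepd (univ : Set α) (fun z => - F p₀ z) b y₀ :=
    pb_sepd hf₀' hBl₀ hb hy₀B (ca_lt hBm₀ h₀.hy)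
  have e1 := md_open hF hF' hp hc hd hcd h₀.hAl h₀.hBm ha h₀.hy h₀.lm
  have e2 := md_open hF hF' hp hc hd hcd h₀.hAm h₀.hBm h₀.hx h₀.hy h₀.mm
  have e3 := md_open hF hF' hp hc hd hcd h₀.hAm h₀.hBl h₀.hx hb h₀.ml
  have e4 := hp.eventually (fa_sepd hF hsA)
  have e5 := hp.eventually (fa_sepd hF' hsB)
  have key : ∀ᶠ k in atTop, x₀ ∈ Am k ∧ y₀ ∈ Bm k := by
    filter_upwards [e1, e2, e3, e4, e5] with k h1 h2 h3 h4 h5
    have hA := me_diff (hO k).hd.fc (hO k).h3 (h k).hAl (h k).hAm (h k).cA h4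
    have hB := me_diff (hO k).hd'.fc (hO k).h3' (me_neg (h k).hBl) (me_neg (h k).hBm)
      (by rw [← sup_eq']; exact (h k).cB) h5
    rcases hA with ⟨hA1, hA2⟩ | ⟨hA1, hA2⟩
    · refine ⟨hA2, ?_⟩
      rcases hB with ⟨hB1, hB2⟩ | ⟨hB1, hB2⟩
      · exact hB2
      · exfalso
        obtain ⟨z, hz1, hz2, hz3⟩ := h1
        rw [← pb_comp_eq (h k).hAl hA1] at hz1
        rw [← pb_comp_eq (h k).hBl hB2] at hz2
        exact hz3 ((h k).ll z hz1 hz2)
    · exfalso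
      rcases hB with ⟨hB1, hB2⟩ | ⟨hB1, hB2⟩
      · obtain ⟨z, hz1, hz2, hz3⟩ := h3
        rw [← pb_comp_eq (h k).hAl hA2] at hz1
        rw [← pb_comp_eq (h k).hBl hB1] at hz2
        exact hz3 ((h k).ll z hz1 hz2)
      · obtain ⟨z, hz1, hz2, hz3⟩ := h2
        rw [← pb_comp_eq (h k).hAl hA2] at hz1
        rw [← pb_comp_eq (h k).hBl hB2] at hz2
        exact hz3 ((h k).ll z hz1 hz2)
  have hmx := (mb_x hO₀ h₀).2.2
  have hmy := (mb_y hO₀ h₀).2.2
  constructor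
  · exact fb_min hF hp (fun k => (hO k).h3) hO₀.h2 hO₀.h3 h₀.hAm h₀.hx hmx (fun k => (h k).hAm)
      (key.mono fun k hk => hk.1) (fun k => (h k).hx) (fun k => (h k).hx')
  · refine fb_min hF' hp (fun k => (hO k).h3') hO₀.h2' hO₀.h3' hBm₀ h₀.hy ?_
      (fun k => me_neg (h k).hBm) (key.mono fun k hk => hk.2) (fun k => (h k).hy) ?_
    · intro z hz hne
      exact neg_lt_neg (hmy z hz hne)
    · intro k z hz
      exact neg_le_neg ((h k).hy' z hz)

end Pool.Agent.E8N
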