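import Pool.Agent.E8N.T_X6
import Pool.Agent.E8N.T_ME
import Pool.Agent.E8N.T_Y1

/-!
# E8N module T_Y6

`mid_lim`: me_lim with x6_mid at every p k and at p₀ (choose), tendsto in the subtypes ↔ in E (tendsto_subtype_rng), p k, p₀ as elements of ↥(interior K).
-/

set_option autoImplicit false

open Metric Set Filter Topology

namespace Pool.Agent.E8N.TY

variable {E : Type*} [NormedAddCommGroup E] [InnerProductSpace ℝ E] [FiniteDimensional ℝ E]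
variable {K : Set E} {ρ R : ℝ}


theorem mid_lim (hK : Body K ρ R) (h7 : AtMost7 K) (hd : 4 ≤ Module.finrank ℝ E) {p : ℕ → E} {p₀ : E}
    {Al Am Bl Bm : ℕ → Set E} {x y : ℕ → E} {Al₀ Am₀ Bl₀ Bm₀ : Set E} {x₀ y₀ : E}
    (hp : ∀ k, p k ∈ Om K) (hcd : ∀ k, dl K (p k) ≤ cl K (p k)) (hp₀ : p₀ ∈ Om K) (hlim : Tendsto p atTop (𝓝 p₀))
    (h : ∀ k, Mid K (p k) (Al k) (Am k) (Bl k) (Bm k) (x k) (y k)) (h₀ : Mid K p₀ Al₀ Am₀ Bl₀ Bm₀ x₀ y₀) :
    Tendsto x atTop (𝓝 x₀) ∧ Tendsto y atTop (𝓝 y₀) := by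
  have := SN.S_cs hK
  have := SN.S_conn hK hd
  have := SN.S_lpc hK hd
  obtain ⟨s₀, hF'⟩ := x3_fam' hK
  have hF := x3_fam hK
  let q : ℕ → ↥(interior K) := fun k => ⟨p k, (hp k).1⟩
  let q₀ : ↥(interior K) := ⟨p₀, hp₀.1⟩
  have hq : Tendsto q atTop (𝓝 q₀) := by
    rw [tendsto_subtype_rng]
    exact hlim
  have H := fun k => x6_mid hK (p := q k) (h k)
  choose Al' Am' Bl' Bm' x' y' hM e1 e2 e3 e4 e5 e6 using H
  obtain ⟨Al₀', Am₀', Bl₀', Bm₀', x₀', y₀', hM₀, f1, f2, f3, f4, f5, f6⟩ := x6_mid hK (p := q₀) h₀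
  have hcd' : ∀ k, dev (FS K (q k)) ≤ lev (FS K (q k)) := by
    intro k
    rw [← x4_dl, ← x4_cl]
    exact hcd k
  have key := me_lim hF hF' hq (fun k => x5_om2 hK h7 hd hF' (hp k)) (x5_om2 hK h7 hd hF' hp₀) hcd' hM hM₀
  rw [tendsto_subtype_rng, tendsto_subtype_rng] at key
  have hx : x = fun k => (x' k : E) := funext e5
  have hy : y = fun k => (y' k : E) := funext e6
  rw [hx, hy, f5, f6]
  exact key

end Pool.Agent.E8N.TY
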