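import Pool.Agent.E8N.T_OA

/-!
# E8N module T_OB

THE TWO MINIMA. c := lev f. A, A' from oa_two, unique minima m ∈ A, m' ∈ A' from oa_no + ce_unique. WLOG f m ≤ f m': lo = m, hi = m'.
`ob_mins`: lo is a global minimum: f z < c means z ∈ A ∪ A', otherwise f z ≥ c > f m. Separated: pb_sepd. hi_min: pass hi z < c gives z ∈ A'
(pb_lt_iff, pb_comp_eq). `ob_struct`: the components of lo and of hi in {f < c} (both values are < c: f hi < pass lo hi = c by
oa_lev) are different (pb_lt with pass = c); they are A and A' in some order; lo is a minimum on its component, hi too by hi_min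
and pb_lt; unique by ce_sepd + oa_no; local minima by cc_crit. `ob_unique`: by ob_struct both pairs consist of the unique minima
of the two components; if swapped then f lo = f hi because lo and lo' = hi are both global minima.
-/

set_option autoImplicit false

open Metric Set Filter Topology

namespace Pool.Agent.E8N

variable {α : Type*} [MetricSpace α] [CompactSpace α] [ConnectedSpace α] [LocallyPathConnectedSpace α]


theorem T_OB_mins {f : α → ℝ} {Z : Set α} (hf : Continuous f) {A A' : Set α}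
    (hA : IsComp {z | f z < lev f} A) (hA' : IsComp {z | f z < lev f} A') (hne : A ≠ A')
    (hc : {z | f z < lev f} = A ∪ A') {m m' : α} (hm : m ∈ A) (hm' : m' ∈ A') (hmZ : m ∈ Z) (hmZ' : m' ∈ Z)
    (h : ∀ z ∈ A, z ≠ m → f m < f z) (h' : ∀ z ∈ A', z ≠ m' → f m' < f z) (hle : f m ≤ f m') : MinsT f Z m m' := by
  have hmA : ∀ z ∈ A, f m ≤ f z := fun z hz => by
    by_cases hzm : z = m
    · rw [hzm]
    · exact (h z hz hzm).le
  have hmA' : ∀ z ∈ A', f m' ≤ f z := fun z hz => by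
    by_cases hzm : z = m'
    · rw [hzm]
    · exact (h' z hz hzm).le
  have hdis := ca_disj hA hA' hne
  refine ⟨fun z => ?_, pb_sepd hf hA hm (fun hx => disjoint_left.1 hdis hx hm') (ca_lt hA' hm'), fun z hz => ?_,
    hmZ', hmZ⟩
  · rcases lt_or_ge (f z) (lev f) with hz | hz
    · have hz' : z ∈ A ∪ A' := hc ▸ hz
      rcases hz' with hz' | hz'
      · exact hmA z hz'
      · exact hle.trans (hmA' z hz')
    · exact (ca_lt hA hm).le.trans hz
  · apply hmA'
    rw [pb_comp_eq hA' hm']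
    exact ((pb_lt_iff hf).1 hz).2

theorem ob_mins {f : α → ℝ} {Z : Set α} {g : ℝ → α → α} (hd : Desc f Z g) (hZ : Z.Finite)
    (h2 : Two (univ : Set α) f) (h3 : ¬ Three (univ : Set α) f) : ∃ lo hi, MinsT f Z lo hi := by
  obtain ⟨A, A', hA, hA', hne, hc⟩ := oa_two hd.fc h2 h3
  obtain ⟨m, hm, hmZ, -, h⟩ := ce_unique hd hZ hA (oa_no hd.fc h3 hA)
  obtain ⟨m', hm', hmZ', -, h'⟩ := ce_unique hd hZ hA' (oa_no hd.fc h3 hA')
  rcases le_total (f m) (f m') with hle | hle
  · exact ⟨m, m', T_OB_mins hd.fc hA hA' hne hc hm hm' hmZ hmZ' h h' hle⟩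
  · exact ⟨m', m, T_OB_mins hd.fc hA' hA hne.symm (by rw [hc, union_comm]) hm' hm hmZ' hmZ h' h hle⟩

theorem ob_struct {f : α → ℝ} {Z : Set α} {g : ℝ → α → α} (hd : Desc f Z g) (hZ : Z.Finite)
    (h2 : Two (univ : Set α) f) (h3 : ¬ Three (univ : Set α) f) {lo hi : α} (h : MinsT f Z lo hi) :
    ∃ A A' : Set α, IsComp {z | f z < lev f} A ∧ IsComp {z | f z < lev f} A' ∧ A ≠ A' ∧
      {z | f z < lev f} = A ∪ A' ∧ lo ∈ A ∧ hi ∈ A' ∧ (∀ z ∈ A, z ≠ lo → f lo < f z) ∧
      (∀ z ∈ A', z ≠ hi → f hi < f z) ∧ IsLocalMin f lo ∧ IsLocalMin f hi := by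
  have hf := hd.fc
  have hlev := oa_lev hf h3 h.sepd
  have hlo : f lo < lev f := by
    rw [← hlev]; exact (le_max_left _ _).trans_lt h.sepd
  have hhi : f hi < lev f := by
    rw [← hlev]; exact (le_max_right _ _).trans_lt h.sepd
  obtain ⟨hA, hloA⟩ := pb_comp hlo
  obtain ⟨hA', hhiA'⟩ := pb_comp hhi
  set A := connectedComponentIn {z | f z < lev f} lo with hAdef
  set A' := connectedComponentIn {z | f z < lev f} hi with hA'def
  have hne : A ≠ A' := by
    intro he
    have h1 : pass (univ : Set α) f lo hi < lev f := pb_lt hf hA hloA (he ▸ hhiA')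
    rw [hlev] at h1
    exact lt_irrefl _ h1
  obtain ⟨B, B', hB, hB', hneB, hc⟩ := oa_two hf h2 h3
  have hcov : {z | f z < lev f} = A ∪ A' := by
    have h1 : A = B ∨ A = B' := by
      have : lo ∈ B ∪ B' := hc ▸ hlo
      rcases this with h | h
      · exact Or.inl (pb_comp_eq hB h).symm
      · exact Or.inr (pb_comp_eq hB' h).symm
    have h2 : A' = B ∨ A' = B' := by
      have : hi ∈ B ∪ B' := hc ▸ hhi
      rcases this with h | h
      · exact Or.inl (pb_comp_eq hB h).symm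
      · exact Or.inr (pb_comp_eq hB' h).symm
    rcases h1 with h1 | h1 <;> rcases h2 with h2 | h2
    · exact absurd (h1.trans h2.symm) hne
    · rw [hc, h1, h2]
    · rw [hc, h1, h2, union_comm]
    · exact absurd (h1.trans h2.symm) hne
  have hmin : ∀ z ∈ A, f lo ≤ f z := fun z _ => h.lo_min z
  have hmin' : ∀ z ∈ A', f hi ≤ f z := fun z hz => h.hi_min z (pb_lt hf hA' hhiA' hz)
  refine ⟨A, A', hA, hA', hne, hcov, hloA, hhiA', fun z hz hzne => ?_, fun z hz hzne => ?_,
    (cc_crit hd hA hloA hmin).2, (cc_crit hd hA' hhiA' hmin').2⟩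
  · refine lt_of_le_of_ne (hmin z hz) fun he => ?_
    exact oa_no hf h3 hA lo hloA z hz (ce_sepd hd hZ hA hloA hz hmin (fun w hw => he ▸ hmin w hw) (Ne.symm hzne))
  · refine lt_of_le_of_ne (hmin' z hz) fun he => ?_
    exact oa_no hf h3 hA' hi hhiA' z hz
      (ce_sepd hd hZ hA' hhiA' hz hmin' (fun w hw => he ▸ hmin' w hw) (Ne.symm hzne))

theorem ob_unique {f : α → ℝ} {Z : Set α} {g : ℝ → α → α} (hd : Desc f Z g) (hZ : Z.Finite)
    (h2 : Two (univ : Set α) f) (h3 : ¬ Three (univ : Set α) f) {lo hi lo' hi' : α} (h : MinsT f Z lo hi)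
    (h' : MinsT f Z lo' hi') : (lo = lo' ∧ hi = hi') ∨ (lo = hi' ∧ hi = lo' ∧ f lo = f hi) := by
  obtain ⟨A, A', hA, hA', hne, hc, hlo, hhi, m1, m2, -, -⟩ := ob_struct hd hZ h2 h3 h
  obtain ⟨B, B', hB, hB', hneB, hcB, hloB, hhiB, n1, n2, -, -⟩ := ob_struct hd hZ h2 h3 h'
  have huniq : ∀ (C : Set α) (a b : α), a ∈ C → b ∈ C → (∀ z ∈ C, z ≠ a → f a < f z) →
      (∀ z ∈ C, z ≠ b → f b < f z) → a = b := by
    intro C a b ha hb h1 h2
    by_contra hne
    exact lt_asymm (h1 b hb (Ne.symm hne)) (h2 a ha hne)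
  have e1 : lo' ∈ A ∪ A' := by rw [← hc]; exact ca_lt hB hloB
  have e2 : hi' ∈ A ∪ A' := by rw [← hc]; exact ca_lt hB' hhiB
  rcases e1 with e1 | e1
  · have hBA : B = A := by rw [pb_comp_eq hB hloB, ← pb_comp_eq hA e1]
    rcases e2 with e2 | e2
    · exfalso
      apply hneB
      rw [hBA, pb_comp_eq hB' hhiB, ← pb_comp_eq hA e2]
    · have hBA' : B' = A' := by rw [pb_comp_eq hB' hhiB, ← pb_comp_eq hA' e2]
      left
      exact ⟨huniq A lo lo' hlo e1 m1 (hBA ▸ n1), huniq A' hi hi' hhi e2 m2 (hBA' ▸ n2)⟩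
  · have hBA : B = A' := by rw [pb_comp_eq hB hloB, ← pb_comp_eq hA' e1]
    rcases e2 with e2 | e2
    · have hBA' : B' = A := by rw [pb_comp_eq hB' hhiB, ← pb_comp_eq hA e2]
      right
      have q1 : lo = hi' := huniq A lo hi' hlo e2 m1 (hBA' ▸ n2)
      have q2 : hi = lo' := huniq A' hi lo' hhi e1 m2 (hBA ▸ n1)
      refine ⟨q1, q2, le_antisymm (h.lo_min hi) ?_⟩
      rw [q2]; exact h'.lo_min lo
    · exfalso
      apply hneB
      rw [hBA, pb_comp_eq hB' hhiB, ← pb_comp_eq hA' e2]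

end Pool.Agent.E8N
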