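import Pool.Agent.E8N.T_FA
import Pool.Agent.E8N.T_OB

/-!
# E8N module T_FB

CONTINUITY OF A MINIMUM. Suppose m does not tend to x0: there are ε > 0 and a subsequence with dist (m k) x0 ≥ ε, and (compactness) a further subsequence with m k → m'.
Write f0 = F p0, c0 = lev f0, c k = lev F(p k) → c0 (fa_lev). (1) F(p k)(m k) ≤ F(p k) x0 eventually (x0 ∈ A k), so f0 m' ≤ f0 x0 < c0. (2) If m' ∈ A0
then m' = x0 by hmin, against dist ≥ ε. (3) If m' ∉ A0: x0, m' are separated for f0 (pb_sepd), so for F(p k) eventually (fa_sepd), with pass F(p k) x0 m' = c k (oa_lev).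
But pass F(p k) x0 (m k) < c k (pb_lt: both in A k), and pass F(p k) (m k) m' → pass f0 m' m' = f0 m' < c0 (fa_pass, pa_self), so it is < c k eventually; pa_ultra
gives pass F(p k) x0 m' < c k: contradiction.
`fb_eventually`: points x, y in one component of {F p0 < c0} are in one component of {F (p k) < c k} for large k; if c k → c0.
-/

set_option autoImplicit false

open Metric Set Filter Topology

namespace Pool.Agent.E8N

variable {α : Type*} [MetricSpace α] [CompactSpace α] [ConnectedSpace α] [LocallyPathConnectedSpace α]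
variable {Q : Type*} [MetricSpace Q] {F : Q → α → ℝ} {Z : Q → Set α} {g g' : ℝ → Q → α → α}


theorem fb_eventually (hF : Fam F Z g) {p : ℕ → Q} {p₀ : Q} (hp : Tendsto p atTop (𝓝 p₀)) {c : ℕ → ℝ} {c₀ : ℝ}
    (hc : Tendsto c atTop (𝓝 c₀)) {x y : α} {A₀ : Set α} (hA₀ : IsComp {z | F p₀ z < c₀} A₀) (hx : x ∈ A₀)
    (hy : y ∈ A₀) : ∀ᶠ k in atTop, F (p k) x < c k ∧ y ∈ connectedComponentIn {z | F (p k) z < c k} x := by
  have h1 := pb_lt (fa_desc hF p₀).fc hA₀ hx hy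
  have h2 : Tendsto (fun k => pass (univ : Set α) (F (p k)) x y) atTop (𝓝 (pass (univ : Set α) (F p₀) x y)) :=
    fa_pass hF hp tendsto_const_nhds tendsto_const_nhds
  filter_upwards [h2.eventually_lt hc h1] with k hk
  exact (pb_lt_iff (fa_desc hF (p k)).fc).1 hk

theorem fb_min (hF : Fam F Z g) {p : ℕ → Q} {p₀ : Q} (hp : Tendsto p atTop (𝓝 p₀))
    (h3 : ∀ k, ¬ Three (univ : Set α) (F (p k))) (h2 : Two (univ : Set α) (F p₀))
    (h30 : ¬ Three (univ : Set α) (F p₀)) {A₀ : Set α} {x₀ : α} (hA₀ : IsComp {z | F p₀ z < lev (F p₀)} A₀)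
    (hx₀ : x₀ ∈ A₀) (hmin : ∀ z ∈ A₀, z ≠ x₀ → F p₀ x₀ < F p₀ z) {A : ℕ → Set α} {m : ℕ → α}
    (hA : ∀ k, IsComp {z | F (p k) z < lev (F (p k))} (A k)) (hxA : ∀ᶠ k in atTop, x₀ ∈ A k)
    (hm : ∀ k, m k ∈ A k) (hm' : ∀ k, ∀ z ∈ A k, F (p k) (m k) ≤ F (p k) z) : Tendsto m atTop (𝓝 x₀) := by
  have hf : Continuous (F p₀) := (fa_desc hF p₀).fc
  refine tendsto_of_subseq_tendsto fun ns hns => ?_
  obtain ⟨m', -, ms, hms, hlim⟩ := (isCompact_univ (X := α)).tendsto_subseq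
    (x := fun n => m (ns n)) (fun n => mem_univ _)
  have hk : Tendsto (fun n => ns (ms n)) atTop atTop := hns.comp hms.tendsto_atTop
  have hpk : Tendsto (fun n => p (ns (ms n))) atTop (𝓝 p₀) := hp.comp hk
  have hmk : Tendsto (fun n => m (ns (ms n))) atTop (𝓝 m') := hlim
  have hxk : ∀ᶠ n in atTop, x₀ ∈ A (ns (ms n)) := hk.eventually hxA
  have hlev : Tendsto (fun n => lev (F (p (ns (ms n))))) atTop (𝓝 (lev (F p₀))) :=
    fa_lev hF hpk (Eventually.of_forall fun n => h3 _) h2 h30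
  have hFm : Tendsto (fun n => F (p (ns (ms n))) (m (ns (ms n)))) atTop (𝓝 (F p₀ m')) :=
    (hF.Fc.tendsto (p₀, m')).comp (hpk.prodMk_nhds hmk)
  have hFx : Tendsto (fun n => F (p (ns (ms n))) x₀) atTop (𝓝 (F p₀ x₀)) :=
    (hF.Fc.tendsto (p₀, x₀)).comp (hpk.prodMk_nhds tendsto_const_nhds)
  have h4 : F p₀ m' ≤ F p₀ x₀ := by
    refine le_of_tendsto_of_tendsto hFm hFx ?_
    filter_upwards [hxk] with n hn
    exact hm' _ x₀ hn
  have h5 : F p₀ x₀ < lev (F p₀) := ca_lt hA₀ hx₀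
  have h6 : F p₀ m' < lev (F p₀) := lt_of_le_of_lt h4 h5
  refine ⟨ms, ?_⟩
  have h7 : m' = x₀ := by
    by_contra hne
    by_cases hA' : m' ∈ A₀
    · exact absurd h4 (not_le.mpr (hmin m' hA' hne))
    · have hs : Sepd (univ : Set α) (F p₀) x₀ m' := pb_sepd hf hA₀ hx₀ hA' h6
      have e1 := hpk.eventually (fa_sepd hF hs)
      have h8 : Tendsto (fun n => pass (univ : Set α) (F (p (ns (ms n)))) (m (ns (ms n))) m') atTop
          (𝓝 (pass (univ : Set α) (F p₀) m' m')) := fa_pass hF hpk hmk tendsto_const_nhds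
      rw [pa_self hf] at h8
      have e2 := h8.eventually_lt hlev h6
      obtain ⟨n, g1, g2, g3⟩ := (e1.and (e2.and hxk)).exists
      have hfk : Continuous (F (p (ns (ms n)))) := (fa_desc hF _).fc
      have g4 := oa_lev hfk (h3 _) g1
      have g5 := pb_lt hfk (hA (ns (ms n))) g3 (hm (ns (ms n)))
      have g6 := pa_ultra hfk x₀ (m (ns (ms n))) m'
      have g7 := lt_of_le_of_lt g6 (max_lt g5 g2)
      exact absurd g4 (ne_of_lt g7)
  rw [h7] at hmk
  exact hmk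

end Pool.Agent.E8N
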