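import Pool.Agent.E8N.T_FA

/-!
# E8N module T_SH

SHRINKING (1.4), (1.5). `sh_shrink`: Z p0 finite: ε' ≤ ε with 2 ε' < dist e e' for different e, e' ∈ Z p0, ε' > 0. W := complement of the union of the balls ball e ε', e ∈ Z p0, compact. The function
D(p,x) = F p x - F p (g 1 p x) is continuous, > 0 on {p0} × W; so there are κ > 0 and a neighbourhood of p0 with D ≥ κ on it × W (compactness: e.g. by contradiction with sequences,
or generalized_tube_lemma). For k large c k - F(p k)(m k) < κ. If x ∈ A k ∩ W: g 1 (p k) x ∈ A k (cb_mem, fa_desc) has value ≤ F(p k) x - κ < c k - κ < F(p k)(m k): contradiction. So A k is in the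
union of the pairwise disjoint open balls and preconnected and nonempty, so in one (also if Z p0 were empty: then A k = ∅, impossible).
`sh_pass`: no separated pair at p0: pass F(p0) x y = max (F p0 x) (F p0 y) (pa_ge), and pa_lip, Fl.
`sh_hi`: lev F(p k) = pass lo hi (oa_lev, Sepd) ≤ max (F lo) (F hi) + 2 dist = F(p k)(hi k) + 2 dist (sh_pass, lo_min), and ≥ F(p k)(hi k): so lev - F(hi k) → 0; hi k is a minimum on its
component A k by ob_struct / hi_min and pb_lt. Apply sh_shrink with m = hi.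
-/

set_option autoImplicit false

open Metric Set Filter Topology

namespace Pool.Agent.E8N

variable {α : Type*} [MetricSpace α] [CompactSpace α] [ConnectedSpace α] [LocallyPathConnectedSpace α]
variable {Q : Type*} [MetricSpace Q] {F : Q → α → ℝ} {Z : Q → Set α} {g g' : ℝ → Q → α → α}


theorem sh_disc {S : Set α} (hS : S.Finite) : ∃ δ : ℝ, 0 < δ ∧ ∀ x ∈ S, ∀ y ∈ S, x ≠ y → δ ≤ dist x y := by
  obtain ⟨C, hC, h⟩ := hS.relatively_discrete
  have h1 : min C 1 ≠ ⊤ := ne_top_of_le_ne_top ENNReal.one_ne_top (min_le_right C 1)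
  refine ⟨(min C 1).toReal, ENNReal.toReal_pos (lt_min hC one_pos).ne' h1, ?_⟩
  intro x hx y hy hxy
  rw [dist_edist]
  exact ENNReal.toReal_mono (edist_ne_top x y) ((min_le_left C 1).trans (h x hx y hy hxy))

theorem sh_shrink (hF : Fam F Z g) {p : ℕ → Q} {p₀ : Q} (hp : Tendsto p atTop (𝓝 p₀)) (hfin : (Z p₀).Finite)
    {c : ℕ → ℝ} {A : ℕ → Set α} {m : ℕ → α} (hA : ∀ k, IsComp {z | F (p k) z < c k} (A k))
    (hm : ∀ k, m k ∈ A k) (hm' : ∀ k, ∀ z ∈ A k, F (p k) (m k) ≤ F (p k) z)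
    (hlim : Tendsto (fun k => c k - F (p k) (m k)) atTop (𝓝 0)) {ε : ℝ} (hε : 0 < ε) :
    ∀ᶠ k in atTop, ∃ e ∈ Z p₀, A k ⊆ ball e ε := by
  obtain ⟨δ, hδ, hsep⟩ := sh_disc hfin
  obtain ⟨ε', hε'0, hε'1, hε'2⟩ : ∃ ε' : ℝ, 0 < ε' ∧ ε' ≤ ε ∧ 2 * ε' ≤ δ :=
    ⟨min ε (δ / 2), lt_min hε (by linarith), min_le_left _ _, by
      have := min_le_right ε (δ / 2); linarith⟩
  -- the compact complement of the balls
  have hWo : IsOpen (⋃ e ∈ Z p₀, ball e ε') := isOpen_biUnion fun e _ => isOpen_ball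
  have hWc : IsCompact (⋃ e ∈ Z p₀, ball e ε')ᶜ := hWo.isClosed_compl.isCompact
  have hDc : Continuous fun z : Q × α => F z.1 z.2 - F z.1 (g 1 z.1 z.2) := by
    have h1 : Continuous fun z : Q × α => g 1 z.1 z.2 :=
      hF.gc.comp (continuous_const.prodMk (continuous_fst.prodMk continuous_snd))
    exact hF.Fc.sub (hF.Fc.comp (continuous_fst.prodMk h1))
  have hDpos : ∀ x ∈ (⋃ e ∈ Z p₀, ball e ε')ᶜ, 0 < F p₀ x - F p₀ (g 1 p₀ x) := by
    intro x hx
    have hxZ : x ∉ Z p₀ := by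
      intro hxZ
      exact hx (mem_iUnion₂.2 ⟨x, hxZ, mem_ball_self hε'0⟩)
    have := hF.lt p₀ x 1 one_pos le_rfl hxZ
    linarith
  obtain ⟨κ, hκ, hκW⟩ : ∃ κ : ℝ, 0 < κ ∧ ∀ x ∈ (⋃ e ∈ Z p₀, ball e ε')ᶜ, κ < F p₀ x - F p₀ (g 1 p₀ x) := by
    rcases ((⋃ e ∈ Z p₀, ball e ε')ᶜ).eq_empty_or_nonempty with h0 | h0
    · refine ⟨1, one_pos, ?_⟩
      intro x hx
      rw [h0] at hx
      exact absurd hx (notMem_empty x)
    · have hc : ContinuousOn (fun x : α => F p₀ x - F p₀ (g 1 p₀ x)) (⋃ e ∈ Z p₀, ball e ε')ᶜ :=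
        (hDc.comp (continuous_const.prodMk continuous_id)).continuousOn
      obtain ⟨x0, hx0, hmin⟩ := hWc.exists_isMinOn h0 hc
      refine ⟨(F p₀ x0 - F p₀ (g 1 p₀ x0)) / 2, by have := hDpos x0 hx0; linarith, ?_⟩
      intro x hx
      have h1 : F p₀ x0 - F p₀ (g 1 p₀ x0) ≤ F p₀ x - F p₀ (g 1 p₀ x) := hmin hx
      have := hDpos x0 hx0
      linarith
  have hev : ∀ᶠ q in 𝓝 p₀, ∀ x ∈ (⋃ e ∈ Z p₀, ball e ε')ᶜ, κ < F q x - F q (g 1 q x) := by
    refine hWc.eventually_forall_of_forall_eventually (P := fun q x => κ < F q x - F q (g 1 q x)) ?_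
    intro x hx
    exact hDc.continuousAt.eventually (lt_mem_nhds (hκW x hx))
  have hev2 : ∀ᶠ k in atTop, c k - F (p k) (m k) < κ := hlim.eventually (gt_mem_nhds hκ)
  filter_upwards [hp.eventually hev, hev2] with k h1 h2
  have hsub : A k ⊆ ⋃ e ∈ Z p₀, ball e ε' := by
    intro x hx
    by_contra hxW
    have h3 := h1 x hxW
    have h4 : g 1 (p k) x ∈ A k := cb_mem (fa_desc hF (p k)) (hA k) hx zero_le_one le_rfl
    have h5 := hm' k _ h4
    have h6 : F (p k) x < c k := ca_lt (hA k) hx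
    linarith
  obtain ⟨e, he, hme⟩ := mem_iUnion₂.1 (hsub (hm k))
  refine ⟨e, he, ?_⟩
  have hsub2 : A k ⊆ ball e ε' := by
    refine IsPreconnected.subset_left_of_subset_union isOpen_ball
      (isOpen_biUnion fun e' (_ : e' ∈ Z p₀ \ {e}) => isOpen_ball (x := e') (ε := ε')) ?_ ?_ ⟨m k, hm k, hme⟩
      (ca_conn (hA k)).1
    · rw [Set.disjoint_left]
      intro z hz hz'
      obtain ⟨e', he', hze'⟩ := mem_iUnion₂.1 hz'
      have h3 := hsep e he e' he'.1 (fun h => he'.2 (mem_singleton_iff.2 h.symm))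
      have h4 : dist e e' ≤ dist z e + dist z e' := dist_triangle_left e e' z
      have h5 : dist z e < ε' := mem_ball.1 hz
      have h6 : dist z e' < ε' := mem_ball.1 hze'
      linarith
    · intro z hz
      obtain ⟨e', he', hze'⟩ := mem_iUnion₂.1 (hsub hz)
      by_cases hee : e' = e
      · left; rw [← hee]; exact hze'
      · right; exact mem_iUnion₂.2 ⟨e', ⟨he', hee⟩, hze'⟩
  exact hsub2.trans (ball_subset_ball hε'1)

theorem sh_pass (hF : Fam F Z g) {p₀ p : Q} (h : ¬ Two (univ : Set α) (F p₀)) (x y : α) :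
    pass (univ : Set α) (F p) x y ≤ max (F p x) (F p y) + 2 * dist p p₀ := by
  have h1 : pass (univ : Set α) (F p₀) x y ≤ max (F p₀ x) (F p₀ y) := by
    by_contra h2
    exact h ⟨x, mem_univ _, y, mem_univ _, not_le.1 h2⟩
  have h2 := pa_lip (fa_desc hF p).fc (fa_desc hF p₀).fc (fun z => hF.Fl p p₀ z) x y
  have h3 : F p₀ x ≤ F p x + dist p p₀ := by
    have := (abs_le.1 (hF.Fl p p₀ x)).1; linarith
  have h4 : F p₀ y ≤ F p y + dist p p₀ := by
    have := (abs_le.1 (hF.Fl p p₀ y)).1; linarith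
  have h5 : max (F p₀ x) (F p₀ y) ≤ max (F p x) (F p y) + dist p p₀ := by
    refine max_le ?_ ?_
    · exact h3.trans (by have := le_max_left (F p x) (F p y); linarith)
    · exact h4.trans (by have := le_max_right (F p x) (F p y); linarith)
  have h6 := (abs_le.1 h2).2
  linarith

theorem sh_hi (hF : Fam F Z g) {p : ℕ → Q} {p₀ : Q} (hp : Tendsto p atTop (𝓝 p₀)) (hfin : (Z p₀).Finite)
    (h0 : ¬ Two (univ : Set α) (F p₀)) (h3 : ∀ k, ¬ Three (univ : Set α) (F (p k))) {lo hi : ℕ → α}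
    (hM : ∀ k, MinsT (F (p k)) (Z (p k)) (lo k) (hi k)) {A : ℕ → Set α}
    (hA : ∀ k, IsComp {z | F (p k) z < lev (F (p k))} (A k)) (hhi : ∀ k, hi k ∈ A k) {ε : ℝ} (hε : 0 < ε) :
    ∀ᶠ k in atTop, ∃ e ∈ Z p₀, A k ⊆ ball e ε := by
  have hlev : ∀ k, lev (F (p k)) = pass (univ : Set α) (F (p k)) (lo k) (hi k) :=
    fun k => (oa_lev (fa_desc hF (p k)).fc (h3 k) (hM k).sepd).symm
  refine sh_shrink hF hp hfin (c := fun k => lev (F (p k))) (m := hi) hA hhi ?_ ?_ hε
  · intro k z hz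
    exact (hM k).hi_min z (pb_lt (fa_desc hF (p k)).fc (hA k) (hhi k) hz)
  · have hub : ∀ k, lev (F (p k)) - F (p k) (hi k) ≤ 2 * dist (p k) p₀ := by
      intro k
      have h1 := sh_pass hF (p := p k) h0 (lo k) (hi k)
      rw [max_eq_right ((hM k).lo_min (hi k))] at h1
      rw [hlev k]
      linarith
    have hlb : ∀ k, 0 ≤ lev (F (p k)) - F (p k) (hi k) := by
      intro k
      have h1 := (hM k).sepd
      have h2 : F (p k) (hi k) < pass (univ : Set α) (F (p k)) (lo k) (hi k) :=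
        (le_max_right _ _).trans_lt h1
      rw [hlev k]
      linarith
    have hd : Tendsto (fun k => 2 * dist (p k) p₀) atTop (𝓝 0) := by
      have h1 := (tendsto_iff_dist_tendsto_zero.1 hp).const_mul 2
      rw [mul_zero] at h1
      exact h1
    exact tendsto_of_tendsto_of_tendsto_of_le_of_le tendsto_const_nhds hd hlb hub

end Pool.Agent.E8N
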