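import Pool.Agent.E8N.T_FR
import Pool.Agent.E8N.T_SH
import Pool.Agent.E8N.T_FB

/-!
# E8N module T_SA

(3.6). Suppose not: ε > 0 and a subsequence with dist (y k) M ≥ ε; by compactness a further subsequence with y k → e, e ≠ M (rename it p, x, y). mb_max: MinsT (-F) lo' hi' with y = lo' or y = hi' . lo' k is a global maximum of F(p k): every limit point is a global maximum of F p0, so it is M: lo' k → M
(compactness). So eventually y k ≠ lo' k, i.e. y k = hi' k ∈ Bm k, lo' k ∈ Bl k (pass to a tail where this holds for all k). sh_hi for -F with A = Bm: for every ε', eventually Bm k ⊆ ball e' ε' with e' ∈ Z p0; y k ∈ Bm k and y k → e: since Z p0 is finite, for small ε' the point e' is e (e ∈ Z p0): for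
every η > 0 eventually Bm k ⊆ ball e η. Choose a separated pair x1, x2 of F p0 (ha) with x1 ≠ e, x2 ≠ e: the components A1 ∋ x1, A2 ∋ x2 of {F p0 < pass} are open (pb_sepd', ca_open) and not finite (na_iso), so replace x_i by another point of A_i (pb_sepd). ε'' := a third of the minimum of dist e M, dist e x1, dist e x2.
O := the cap of hN.cap at e with radius ε''. Eventually Bm k ⊆ O (O ∈ 𝓝 e), so fr_B: Al k ⊆ O or Bl k ⊆ O. Bl k ∋ lo' k → M ∉ O (far from e): impossible for large k. Al k ⊆ O: x1, x2 are eventually separated for F(p k) (fa_sepd), pass = lev (oa_lev), both in {F(p k) < lev} = Al k ∪ Am k, not both in Am k (pb_lt), so one of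
them is in Al k ⊆ O ⊆ ball e ε'': contradiction to the choice of ε''.
-/

set_option autoImplicit false

open Metric Set Filter Topology

namespace Pool.Agent.E8N

variable {α : Type*} [MetricSpace α] [CompactSpace α] [ConnectedSpace α] [LocallyPathConnectedSpace α]
variable {Q : Type*} [MetricSpace Q] {F : Q → α → ℝ} {Z : Q → Set α} {g g' : ℝ → Q → α → α}


theorem sa_key2 (hN : Nice α) (hF : Fam F Z g) (hF' : Fam (fun p z => - F p z) Z g') {p : ℕ → Q} {p₀ : Q}
    (hp : Tendsto p atTop (𝓝 p₀)) (hfin₀ : (Z p₀).Finite)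
    (hO : ∀ k, Om2 (F (p k)) (Z (p k)) (fun s x => g s (p k) x) (fun s x => g' s (p k) x))
    (hcd : ∀ k, dev (F (p k)) ≤ lev (F (p k))) {Al Am Bl Bm : ℕ → Set α} {x y : ℕ → α}
    (h : ∀ k, MidT (F (p k)) (Z (p k)) (lev (F (p k))) (dev (F (p k))) (Al k) (Am k) (Bl k) (Bm k) (x k) (y k))
    (ha : Two (univ : Set α) (F p₀)) (hb : ¬ Two (univ : Set α) (fun z => - F p₀ z)) {M : α}
    {e : α} (hy : Tendsto y atTop (𝓝 e)) (hne : e ≠ M) {lo hi : ℕ → α} (hlo : Tendsto lo atTop (𝓝 M))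
    (hm : ∀ k, MinsT (fun z => - F (p k) z) (Z (p k)) (lo k) (hi k))
    (hc : ∀ k, y k = hi k ∧ hi k ∈ Bm k ∧ lo k ∈ Bl k) : False := by
  have hsh : ∀ η > 0, ∀ᶠ k in atTop, Bm k ⊆ ball e η := by
    intro η hη
    have hcl : (Z p₀ \ {e})ᶜ ∈ 𝓝 e := by
      have h1 : IsClosed (Z p₀ \ {e}) := (hfin₀.subset (fun z hz => hz.1)).isClosed
      exact h1.isOpen_compl.mem_nhds (fun hh => hh.2 rfl)
    obtain ⟨δ, hδ, hδ2⟩ := Metric.mem_nhds_iff.mp hcl
    have h1 := sh_hi hF' hp hfin₀ hb (fun k => (hO k).h3') hm (A := Bm)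
      (fun k => by rw [← sup_eq']; exact (h k).hBm) (fun k => (hc k).2.1)
      (ε := min η (δ / 2)) (by positivity)
    have h2 : ∀ᶠ k in atTop, dist (y k) e < δ / 2 := hy.eventually (Metric.ball_mem_nhds e (by positivity))
    filter_upwards [h1, h2] with k hk1 hk2
    obtain ⟨e', he', hBe⟩ := hk1
    have hy1 : y k ∈ ball e' (min η (δ / 2)) := by
      apply hBe
      rw [(hc k).1]
      exact (hc k).2.1
    have hd1 : dist (y k) e' < δ / 2 := lt_of_lt_of_le hy1 (min_le_right _ _)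
    have hd2 : dist e' e < δ := by
      have := dist_triangle e' (y k) e
      rw [dist_comm e' (y k)] at this
      linarith
    have hee : e' = e := by
      by_contra hcon
      exact hδ2 (show e' ∈ ball e δ from hd2) ⟨he', hcon⟩
    rw [hee] at hBe
    exact hBe.trans (ball_subset_ball (min_le_left _ _))
  -- a separated pair away from `e`
  have hpair : ∃ x1 x2 : α, x1 ≠ e ∧ x2 ≠ e ∧ Sepd (univ : Set α) (F p₀) x1 x2 := by
    obtain ⟨a, _, b, _, hab⟩ := ha
    have hfc : Continuous (F p₀) := (fa_desc hF p₀).fc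
    obtain ⟨A, A', hA, hA', hAA, haA, hbA⟩ := pb_sepd' hfc hab
    have hex : ∀ W : Set α, IsOpen W → W.Nonempty → ∃ z ∈ W, z ≠ e := by
      intro W hW hWn
      by_contra hcon
      push Not at hcon
      have h0 := na_iso (α := α) ⟨e, M, hne⟩ hW (Set.finite_singleton e) (fun z hz => hcon z hz)
      rw [h0] at hWn
      exact Set.not_nonempty_empty hWn
    obtain ⟨x1, hx1, hx1e⟩ := hex A (ca_open hfc hA) ⟨a, haA⟩
    obtain ⟨x2, hx2, hx2e⟩ := hex A' (ca_open hfc hA') ⟨b, hbA⟩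
    refine ⟨x1, x2, hx1e, hx2e, pb_sepd hfc hA hx1 ?_ (ca_lt hA' hx2)⟩
    intro hx2A
    exact (Set.disjoint_left.mp (ca_disj hA hA' hAA)) hx2A hx2
  obtain ⟨x1, x2, hx1, hx2, hs12⟩ := hpair
  have d1 : 0 < dist x1 e := dist_pos.mpr hx1
  have d2 : 0 < dist x2 e := dist_pos.mpr hx2
  have d3 : 0 < dist M e := dist_pos.mpr (Ne.symm hne)
  obtain ⟨ε, hε⟩ : ∃ ε : ℝ, ε = min (min (dist x1 e) (dist x2 e)) (dist M e) / 2 := ⟨_, rfl⟩
  have hεpos : 0 < ε := by rw [hε]; positivity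
  have hε1 : ε < dist x1 e := by
    rw [hε]
    have : min (min (dist x1 e) (dist x2 e)) (dist M e) ≤ dist x1 e := (min_le_left _ _).trans (min_le_left _ _)
    linarith
  have hε2 : ε < dist x2 e := by
    rw [hε]
    have : min (min (dist x1 e) (dist x2 e)) (dist M e) ≤ dist x2 e := (min_le_left _ _).trans (min_le_right _ _)
    linarith
  have hε3 : 2 * ε ≤ dist M e := by
    rw [hε]
    have : min (min (dist x1 e) (dist x2 e)) (dist M e) ≤ dist M e := min_le_right _ _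
    linarith
  obtain ⟨O, hOc, hOn, hOb, hOX⟩ := hN.cap e ε hεpos
  obtain ⟨η, hη, hηO⟩ := Metric.mem_nhds_iff.mp hOn
  have e1 := hsh η hη
  have e2 : ∀ᶠ k in atTop, dist (lo k) M < ε := hlo.eventually (Metric.ball_mem_nhds M hεpos)
  have e3 : ∀ᶠ k in atTop, Sepd (univ : Set α) (F (p k)) x1 x2 := hp.eventually (fa_sepd hF hs12)
  obtain ⟨k, hk1, hk2, hk3⟩ := (e1.and (e2.and e3)).exists
  have hfk : Continuous (F (p k)) := (fa_desc hF (p k)).fc
  rcases fr_B hN (hO k) (hcd k) (h k) hOc hOX (hk1.trans hηO) with hA | hB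
  · have hl := oa_lev hfk (hO k).h3 hk3
    have hmax : max (F (p k) x1) (F (p k) x2) < lev (F (p k)) := by rw [← hl]; exact hk3
    have hx1m : x1 ∈ Al k ∪ Am k := by
      rw [← (h k).cA]
      exact lt_of_le_of_lt (le_max_left _ _) hmax
    have hx2m : x2 ∈ Al k ∪ Am k := by
      rw [← (h k).cA]
      exact lt_of_le_of_lt (le_max_right _ _) hmax
    rcases hx1m with h1 | h1
    · have := hOb (hA h1)
      rw [mem_ball] at this
      linarith
    rcases hx2m with h2 | h2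
    · have := hOb (hA h2)
      rw [mem_ball] at this
      linarith
    have := pb_lt hfk (h k).hAm h1 h2
    linarith
  · have h1 := hOb (hB (hc k).2.2)
    rw [mem_ball] at h1
    have h2 := dist_triangle M (lo k) e
    rw [dist_comm M (lo k)] at h2
    linarith

omit [ConnectedSpace α] [LocallyPathConnectedSpace α] in
theorem sa_argmax (hF : Fam F Z g) {p : ℕ → Q} {p₀ : Q} (hp : Tendsto p atTop (𝓝 p₀)) {M : α}
    (hM : ∀ z, z ≠ M → F p₀ z < F p₀ M) {lo : ℕ → α} (hlo : ∀ k z, F (p k) z ≤ F (p k) (lo k)) :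
    Tendsto lo atTop (𝓝 M) := by
  refine Filter.tendsto_of_subseq_tendsto (fun ns hns => ?_)
  obtain ⟨e, _, φ, hφ, he⟩ := isCompact_univ.tendsto_subseq (x := fun n => lo (ns n)) (fun n => mem_univ _)
  refine ⟨φ, ?_⟩
  have hpe : Tendsto (fun n => p (ns (φ n))) atTop (𝓝 p₀) := hp.comp (hns.comp hφ.tendsto_atTop)
  have h1 : ∀ z, F p₀ z ≤ F p₀ e := by
    intro z
    have t1 : Tendsto (fun n => F (p (ns (φ n))) z) atTop (𝓝 (F p₀ z)) :=
      (hF.Fc.tendsto (p₀, z)).comp (hpe.prodMk_nhds tendsto_const_nhds)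
    have t2 : Tendsto (fun n => F (p (ns (φ n))) (lo (ns (φ n)))) atTop (𝓝 (F p₀ e)) :=
      (hF.Fc.tendsto (p₀, e)).comp (hpe.prodMk_nhds he)
    exact le_of_tendsto_of_tendsto' t1 t2 (fun n => hlo _ z)
  have h2 : e = M := by
    by_contra hcon
    exact absurd (h1 M) (not_le.mpr (hM e hcon))
  rw [h2] at he
  exact he

theorem sa_shr (hN : Nice α) (hF : Fam F Z g) (hF' : Fam (fun p z => - F p z) Z g') {p : ℕ → Q} {p₀ : Q}
    (hp : Tendsto p atTop (𝓝 p₀)) (hfin₀ : (Z p₀).Finite)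
    (hO : ∀ k, Om2 (F (p k)) (Z (p k)) (fun s x => g s (p k) x) (fun s x => g' s (p k) x))
    (hcd : ∀ k, dev (F (p k)) ≤ lev (F (p k))) {Al Am Bl Bm : ℕ → Set α} {x y : ℕ → α}
    (h : ∀ k, MidT (F (p k)) (Z (p k)) (lev (F (p k))) (dev (F (p k))) (Al k) (Am k) (Bl k) (Bm k) (x k) (y k))
    (ha : Two (univ : Set α) (F p₀)) (hb : ¬ Two (univ : Set α) (fun z => - F p₀ z)) {M : α}
    (hM : ∀ z, z ≠ M → F p₀ z < F p₀ M) : Tendsto y atTop (𝓝 M) := by
  choose lo hi hm hcase using fun k => mb_max (hO k) (h k)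
  have hlo : Tendsto lo atTop (𝓝 M) := by
    refine sa_argmax hF hp hM (fun k z => ?_)
    have := (hm k).lo_min z
    simp only [neg_le_neg_iff] at this
    exact this
  refine Filter.tendsto_of_subseq_tendsto (fun ns hns => ?_)
  obtain ⟨e, _, φ, hφ, he⟩ := isCompact_univ.tendsto_subseq (x := fun n => y (ns n)) (fun n => mem_univ _)
  refine ⟨φ, ?_⟩
  obtain ⟨ψ, hψ⟩ : ∃ ψ : ℕ → ℕ, ψ = fun n => ns (φ n) := ⟨_, rfl⟩
  have hψt : Tendsto ψ atTop atTop := by rw [hψ]; exact hns.comp hφ.tendsto_atTop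
  have hye : Tendsto (fun n => y (ψ n)) atTop (𝓝 e) := by rw [hψ]; exact he
  have hloψ : Tendsto (fun n => lo (ψ n)) atTop (𝓝 M) := hlo.comp hψt
  have hpψ : Tendsto (fun n => p (ψ n)) atTop (𝓝 p₀) := hp.comp hψt
  by_cases hne : e = M
  · rw [hne] at he
    exact he
  exfalso
  have hev : ∀ᶠ n in atTop, y (ψ n) ≠ lo (ψ n) := by
    filter_upwards [(hye.dist hloψ).eventually (lt_mem_nhds (dist_pos.mpr hne))] with n hn
    exact dist_pos.mp hn
  obtain ⟨N, hNN⟩ := Filter.eventually_atTop.mp hev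
  have hsN : Tendsto (fun n : ℕ => n + N) atTop atTop := tendsto_add_atTop_nat N
  refine sa_key2 hN hF hF' (p := fun n => p (ψ (n + N))) (hpψ.comp hsN) hfin₀ (fun k => hO _) (fun k => hcd _)
    (Al := fun n => Al (ψ (n + N))) (Am := fun n => Am (ψ (n + N))) (Bl := fun n => Bl (ψ (n + N)))
    (Bm := fun n => Bm (ψ (n + N))) (x := fun n => x (ψ (n + N))) (y := fun n => y (ψ (n + N))) (fun k => h _)
    ha hb (hye.comp hsN) hne (lo := fun n => lo (ψ (n + N))) (hi := fun n => hi (ψ (n + N)))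
    (hloψ.comp hsN) (fun k => hm _) (fun k => ?_)
  rcases hcase (ψ (k + N)) with hc | hc
  · exact absurd hc.1 (hNN (k + N) (by omega))
  · exact ⟨hc.1, hc.2.1, hc.2.2⟩

end Pool.Agent.E8N
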