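import Pool.Agent.E8N.T_X6
import Pool.Agent.E8N.T_SA
import Pool.Agent.E8N.T_Y1

/-!
# E8N module T_Y7

`shr`: sa_shr with x6_mid at every p k; M is the unique maximum (hM : Hi K 0 p₀ = {M}).
-/

set_option autoImplicit false

open Metric Set Filter Topology

namespace Pool.Agent.E8N.TY

variable {E : Type*} [NormedAddCommGroup E] [InnerProductSpace ℝ E] [FiniteDimensional ℝ E]
variable {K : Set E} {ρ R : ℝ}


theorem shr (hK : Body K ρ R) (h7 : AtMost7 K) (hd : 4 ≤ Module.finrank ℝ E) {p : ℕ → E} {p₀ : E}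
    {Al Am Bl Bm : ℕ → Set E} {x y : ℕ → E} (hp : ∀ k, p k ∈ Om K) (hcd : ∀ k, dl K (p k) ≤ cl K (p k))
    (hp₀ : p₀ ∈ interior K) (hlim : Tendsto p atTop (𝓝 p₀))
    (h : ∀ k, Mid K (p k) (Al k) (Am k) (Bl k) (Bm k) (x k) (y k))
    (ha : Two (S K) (F p₀)) (hb : ¬ Two (S K) (fun x => - F p₀ x)) {M : E} (hM : Hi K 0 p₀ = {M}) :
    Tendsto y atTop (𝓝 M) := by
  have := SN.S_cs hK
  have := SN.S_conn hK hd
  have := SN.S_lpc hK hd
  have hN := SN.S_nice hK hd
  obtain ⟨s₀, hF'⟩ := x3_fam' (K := K) hK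
  have hF := x3_fam (K := K) hK
  let p' : ℕ → ↥(interior K) := fun k => ⟨p k, (hp k).1⟩
  let q : ↥(interior K) := ⟨p₀, hp₀⟩
  have hM' : M ∈ Hi K 0 p₀ := by rw [hM]; rfl
  have hcho := fun k => x6_mid hK (p := p' k) (h k)
  choose Al' Am' Bl' Bm' x' y' hm e1 e2 e3 e4 e5 e6 using hcho
  have key : Tendsto y' atTop (𝓝 (⟨M, hM'.1⟩ : ↥(S K))) := by
    refine sa_shr hN hF hF' (p := p') (p₀ := q) ?_ (x3_fin h7 q).1
      (fun k => x5_om2 hK h7 hd hF' (p := p' k) (hp k)) ?_ hm ?_ ?_ ?_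
    · rw [tendsto_subtype_rng]
      exact hlim
    · intro k
      have h1 := hcd k
      rw [show dl K (p k) = dev (FS K (p' k)) from x4_dl (p' k),
        show cl K (p k) = lev (FS K (p' k)) from x4_cl (p' k)] at h1
      exact h1
    · exact (x4_two q).1 ha
    · intro h2
      exact hb ((x4_two' q).2 h2)
    · intro z hz
      by_contra hcon
      push Not at hcon
      have h1 : mx K p₀ - 0 ≤ F p₀ M := hM'.2
      have h2 : F p₀ M ≤ F p₀ (z : E) := hcon
      have h3 : (z : E) ∈ Hi K 0 p₀ := ⟨z.2, h1.trans h2⟩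
      rw [hM] at h3
      exact hz (Subtype.ext h3)
  have h1 : y = fun k => (y' k : E) := funext e6
  rw [h1]
  exact (continuous_subtype_val.tendsto _).comp key

end Pool.Agent.E8N.TY
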