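import Pool.Agent.E8N.T_FR
import Pool.Agent.E8N.T_SH
import Pool.Agent.E8N.T_FB

/-!
# E8N module T_SB

(3.7). u k is a global minimum at p k, a = lim (F (p k)(x k) - F (p k)(u k)); u0, v0 global minimum and maximum at p0, 0 < a < F p0 v0 - F p0 u0. Suppose not: a subsequence on which y k is not a global maximum of F(p k), by compactness with x k → e and u k → u' (a global minimum of F p0, so u' = u0 by ce_unique' and ha; F p0 e = F p0 u0 + a,
so e ≠ u0). Pass to a tail with F(p k)(x k) > F(p k)(u k): x k is not a global minimum. mb_min: x k = hi k ∈ Am k, lo k ∈ Al k. sh_hi with A = Am, finiteness of Z p0 and x k → e: for every η > 0 eventually Am k ⊆ ball e η. Choose κ > 0 with F p0 e + 3κ < F p0 v0 and ε'' > 0 with ε'' < dist e u0 / 2 and F p0 < F p0 e + κ on ball e ε''.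
O := cap at e with radius ε''. Eventually Am k ⊆ O, so by fr_A Bl k ⊆ O or Al k ⊆ O. lo k → u0 (global minima, unique at p0) and u0 ∉ closedBall e ε'': Al k ⊆ O is impossible for large k. So Bl k ⊆ O: F(p k) ≤ F p0 e + κ + dist (p k) p0 on Bl k. A global maximum v of F(p k) has value ≥ F(p k) v0 ≥ F p0 v0 - dist > F p0 e + 2κ,
so v ∉ Bl k for large k; v ∈ {dev < F(p k)} (its value is ≥ F(p k)(y k) > dev by mb_y) = Bl k ∪ Bm k, so v ∈ Bm k and F (p k) v ≤ F (p k)(y k) (hy'): y k is a global maximum: contradiction.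
-/

set_option autoImplicit false

open Metric Set Filter Topology

namespace Pool.Agent.E8N

variable {α : Type*} [MetricSpace α] [CompactSpace α] [ConnectedSpace α] [LocallyPathConnectedSpace α]
variable {Q : Type*} [MetricSpace Q] {F : Q → α → ℝ} {Z : Q → Set α} {g g' : ℝ → Q → α → α}


/-- the contradiction, with convergent `x` and `u` -/
theorem sb_core (hN : Nice α) (hF : Fam F Z g) {p : ℕ → Q} {p₀ : Q}
    (hp : Tendsto p atTop (𝓝 p₀)) (hfin₀ : (Z p₀).Finite)
    (hO : ∀ k, Om2 (F (p k)) (Z (p k)) (fun s x => g s (p k) x) (fun s x => g' s (p k) x))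
    (hcd : ∀ k, dev (F (p k)) ≤ lev (F (p k))) {Al Am Bl Bm : ℕ → Set α} {x y : ℕ → α}
    (h : ∀ k, MidT (F (p k)) (Z (p k)) (lev (F (p k))) (dev (F (p k))) (Al k) (Am k) (Bl k) (Bm k) (x k) (y k))
    (ha : ¬ Two (univ : Set α) (F p₀)) {u : ℕ → α} (hu : ∀ k z, F (p k) (u k) ≤ F (p k) z) {u₀ v₀ : α}
    (hu₀ : ∀ z, F p₀ u₀ ≤ F p₀ z) {a : ℝ}
    (hlim : Tendsto (fun k => F (p k) (x k) - F (p k) (u k)) atTop (𝓝 a)) (ha0 : 0 < a)
    (ha1 : a < F p₀ v₀ - F p₀ u₀) {e u' : α} (hxe : Tendsto x atTop (𝓝 e))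
    (huu : Tendsto u atTop (𝓝 u')) (hbad : ∀ k, ∃ z, F (p k) (y k) < F (p k) z) : False := by
  -- limits of the values
  have hlx : Tendsto (fun k => F (p k) (x k)) atTop (𝓝 (F p₀ e)) :=
    (hF.Fc.tendsto (p₀, e)).comp (hp.prodMk_nhds hxe)
  have hlu : Tendsto (fun k => F (p k) (u k)) atTop (𝓝 (F p₀ u')) :=
    (hF.Fc.tendsto (p₀, u')).comp (hp.prodMk_nhds huu)
  have hea : F p₀ e - F p₀ u' = a := tendsto_nhds_unique (hlx.sub hlu) hlim
  have hu'min : ∀ z, F p₀ u' ≤ F p₀ z := by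
    intro z
    have hz : Tendsto (fun k => F (p k) z) atTop (𝓝 (F p₀ z)) :=
      (hF.Fc.tendsto (p₀, z)).comp (hp.prodMk_nhds tendsto_const_nhds)
    exact le_of_tendsto_of_tendsto' hlu hz (fun k => hu k z)
  obtain ⟨m, _, hm⟩ := ce_unique' (fa_desc hF p₀) hfin₀ ha
  have hum : u' = m := by
    by_contra hne
    exact absurd (hm u' hne) (not_lt.mpr (hu'min m))
  have hum0 : u₀ = m := by
    by_contra hne
    exact absurd (hm u₀ hne) (not_lt.mpr (hu₀ m))
  have hu'0 : u' = u₀ := hum.trans hum0.symm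
  subst hu'0
  have hne : e ≠ u' := by
    rintro rfl
    linarith
  have hd0 : 0 < dist e u' := dist_pos.mpr hne
  -- the two minima
  have hmb : ∀ k, ∃ lo hi, MinsT (F (p k)) (Z (p k)) lo hi ∧
      ((x k = lo ∧ lo ∈ Am k ∧ hi ∈ Al k) ∨ (x k = hi ∧ hi ∈ Am k ∧ lo ∈ Al k)) :=
    fun k => mb_min (hO k) (h k)
  choose lo hi hM hcase using hmb
  have hhilt : ∀ k, F (p k) (hi k) < lev (F (p k)) := by
    intro k
    rcases hcase k with hc | hc
    · exact ca_lt (h k).hAl hc.2.2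
    · exact ca_lt (h k).hAm hc.2.1
  have hev1 : ∀ᶠ k in atTop, F (p k) (u k) < F (p k) (x k) := by
    have h1 := hlim.eventually (lt_mem_nhds ha0)
    filter_upwards [h1] with k hk
    linarith
  have hxhi : ∀ k, F (p k) (u k) < F (p k) (x k) → x k = hi k ∧ hi k ∈ Am k := by
    intro k hk
    rcases hcase k with hc | hc
    · exfalso
      have h1 := (hM k).lo_min (u k)
      rw [← hc.1] at h1
      linarith
    · exact ⟨hc.1, hc.2.1⟩
  have huAl : ∀ k, F (p k) (u k) < F (p k) (x k) → u k ∈ Al k := by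
    intro k hk
    have h1 : F (p k) (x k) < lev (F (p k)) := ca_lt (h k).hAm (h k).hx
    have h2 : u k ∈ {z | F (p k) z < lev (F (p k))} := hk.trans h1
    rw [(h k).cA] at h2
    rcases h2 with h2 | h2
    · exact h2
    · exact absurd ((h k).hx' (u k) h2) (not_le.mpr hk)
  have hAmb : ∀ η : ℝ, 0 < η → ∀ᶠ k in atTop, Am k ⊆ ball e η := by
    intro η hη
    have h1 := sh_hi hF hp hfin₀ ha (fun k => (hO k).h3) hM
      (A := fun k => connectedComponentIn {z | F (p k) z < lev (F (p k))} (hi k))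
      (fun k => (pb_comp (hhilt k)).1) (fun k => (pb_comp (hhilt k)).2) (ε := η / 3) (by positivity)
    have h2 : ∀ᶠ k in atTop, dist (x k) e < η / 3 :=
      hxe.eventually (ball_mem_nhds e (by positivity))
    filter_upwards [h1, h2, hev1] with k hk1 hk2 hk3
    obtain ⟨e', _, he'⟩ := hk1
    obtain ⟨hxh, hhA⟩ := hxhi k hk3
    have hAeq : Am k = connectedComponentIn {z | F (p k) z < lev (F (p k))} (hi k) :=
      pb_comp_eq (h k).hAm hhA
    intro z hz
    have hz1 : dist z e' < η / 3 := by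
      have := he' (hAeq ▸ hz)
      exact this
    have hx1 : dist (x k) e' < η / 3 := by
      have := he' (hAeq ▸ (h k).hx)
      exact this
    rw [mem_ball]
    have t1 := dist_triangle z e' e
    have t2 := dist_triangle e' (x k) e
    rw [dist_comm e' (x k)] at t2
    linarith
  -- the cap
  set κ : ℝ := (F p₀ v₀ - F p₀ e) / 4 with hκ
  have hκ0 : 0 < κ := by
    rw [hκ]
    linarith
  have hFe : ∀ᶠ z in 𝓝 e, F p₀ z < F p₀ e + κ := by
    have hc : Continuous (F p₀) := (fa_desc hF p₀).fc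
    exact hc.continuousAt.eventually (gt_mem_nhds (by linarith))
  obtain ⟨r, hr0, hr⟩ := Metric.eventually_nhds_iff_ball.mp hFe
  obtain ⟨O, hOc, hOe, hOb, hOX⟩ := hN.cap e (min r (dist e u' / 2)) (by positivity)
  obtain ⟨η, hη0, hη⟩ := Metric.mem_nhds_iff.mp hOe
  have hudist : ∀ᶠ k in atTop, dist (u k) u' < dist e u' / 2 :=
    huu.eventually (ball_mem_nhds u' (by positivity))
  have hpdist : ∀ᶠ k in atTop, dist (p k) p₀ < κ :=
    hp.eventually (ball_mem_nhds p₀ hκ0)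
  obtain ⟨k, hk1, hk2, hk3, hk4⟩ :=
    ((hAmb η hη0).and (hev1.and (hudist.and hpdist))).exists
  have hAmO : Am k ⊆ O := hk1.trans hη
  rcases fr_A hN (hO k) (hcd k) (h k) hOc hOX hAmO with hB | hA
  · -- `Bl k ⊆ O`
    have hc : Continuous (F (p k)) := (fa_desc hF (p k)).fc
    obtain ⟨v, _, hv⟩ := isCompact_univ.exists_isMaxOn (univ_nonempty : (univ : Set α).Nonempty)
      hc.continuousOn
    have hv' : ∀ z, F (p k) z ≤ F (p k) v := fun z => hv (mem_univ z)
    obtain ⟨z, hz⟩ := hbad k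
    have hyv : F (p k) (y k) < F (p k) v := hz.trans_le (hv' z)
    have hdy : dev (F (p k)) < F (p k) (y k) := (mb_y (hO k) (h k)).2.1
    have hvB : v ∈ {z | dev (F (p k)) < F (p k) z} := hdy.trans hyv
    rw [(h k).cB] at hvB
    rcases hvB with hvB | hvB
    · have h1 : v ∈ ball e (min r (dist e u' / 2)) := hOb (hB hvB)
      have h2 : v ∈ ball e r := ball_subset_ball (min_le_left _ _) h1
      have h3 := hr v h2
      have h4 := hF.Fl (p k) p₀ v
      have h5 := hF.Fl (p k) p₀ v₀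
      have h6 := hv' v₀
      rw [abs_le] at h4 h5
      have h7 : F p₀ v₀ = F p₀ e + 4 * κ := by
        rw [hκ]
        ring
      linarith [h4.1, h4.2, h5.1, h5.2]
    · exact absurd ((h k).hy' v hvB) (not_le.mpr hyv)
  · -- `Al k ⊆ O`
    have h1 : u k ∈ ball e (min r (dist e u' / 2)) := hOb (hA (huAl k hk2))
    have h2 : dist (u k) e < dist e u' / 2 := lt_of_lt_of_le h1 (min_le_right _ _)
    have t := dist_triangle e (u k) u'
    rw [dist_comm e (u k)] at t
    linarith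

theorem sb_shr (hN : Nice α) (hF : Fam F Z g) (hF' : Fam (fun p z => - F p z) Z g') {p : ℕ → Q} {p₀ : Q}
    (hp : Tendsto p atTop (𝓝 p₀)) (hfin₀ : (Z p₀).Finite)
    (hO : ∀ k, Om2 (F (p k)) (Z (p k)) (fun s x => g s (p k) x) (fun s x => g' s (p k) x))
    (hcd : ∀ k, dev (F (p k)) ≤ lev (F (p k))) {Al Am Bl Bm : ℕ → Set α} {x y : ℕ → α}
    (h : ∀ k, MidT (F (p k)) (Z (p k)) (lev (F (p k))) (dev (F (p k))) (Al k) (Am k) (Bl k) (Bm k) (x k) (y k))
    (ha : ¬ Two (univ : Set α) (F p₀)) {u : ℕ → α} (hu : ∀ k z, F (p k) (u k) ≤ F (p k) z) {u₀ v₀ : α}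
    (hu₀ : ∀ z, F p₀ u₀ ≤ F p₀ z) (hv₀ : ∀ z, F p₀ z ≤ F p₀ v₀) {a : ℝ}
    (hlim : Tendsto (fun k => F (p k) (x k) - F (p k) (u k)) atTop (𝓝 a)) (ha0 : 0 < a)
    (ha1 : a < F p₀ v₀ - F p₀ u₀) : ∀ᶠ k in atTop, ∀ z, F (p k) z ≤ F (p k) (y k) := by
  by_contra hcon
  rw [not_eventually] at hcon
  obtain ⟨φ, hφ, hφb⟩ := extraction_of_frequently_atTop hcon
  obtain ⟨e, -, ψ, hψ, hψe⟩ := isCompact_univ.tendsto_subseq (x := fun n => x (φ n)) (fun _ => mem_univ _)
  obtain ⟨u', -, χ, hχ, hχu⟩ := isCompact_univ.tendsto_subseq (x := fun n => u (φ (ψ n)))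
    (fun _ => mem_univ _)
  have hs : Tendsto (fun n => φ (ψ (χ n))) atTop atTop :=
    hφ.tendsto_atTop.comp (hψ.tendsto_atTop.comp hχ.tendsto_atTop)
  refine sb_core (g' := g') hN hF (p := fun n => p (φ (ψ (χ n)))) (hp.comp hs) hfin₀
    (fun k => hO _) (fun k => hcd _)
    (Al := fun n => Al (φ (ψ (χ n)))) (Am := fun n => Am (φ (ψ (χ n))))
    (Bl := fun n => Bl (φ (ψ (χ n)))) (Bm := fun n => Bm (φ (ψ (χ n))))
    (x := fun n => x (φ (ψ (χ n)))) (y := fun n => y (φ (ψ (χ n)))) (fun k => h _) ha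
    (u := fun n => u (φ (ψ (χ n)))) (fun k => hu _) (v₀ := v₀) hu₀ (hlim.comp hs) ha0 ha1
    (e := e) (u' := u') (hψe.comp hχ.tendsto_atTop) hχu ?_
  intro k
  have h1 := hφb (ψ (χ k))
  push Not at h1
  exact h1

end Pool.Agent.E8N
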