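import Pool.Agent.E8N.T_X6
import Pool.Agent.E8N.T_SB
import Pool.Agent.E8N.T_Y1

/-!
# E8N module T_Y8

`shr'`: sb_shr with x6_mid at every p k, u k, u₀ from Lo_nonempty, v₀ from Hi_nonempty (mn K (p k) = F (p k) (u k)); the conclusion: F (p k) z ≤ F (p k) (y k) for all z gives F (p k) (y k) = mx K (p k) (Hi_nonempty, le_mx).
-/

set_option autoImplicit false

open Metric Set Filter Topology

namespace Pool.Agent.E8N.TY

variable {E : Type*} [NormedAddCommGroup E] [InnerProductSpace ℝ E] [FiniteDimensional ℝ E]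
variable {K : Set E} {ρ R : ℝ}


theorem shr' (hK : Body K ρ R) (h7 : AtMost7 K) (hd : 4 ≤ Module.finrank ℝ E) {p : ℕ → E} {p₀ : E}
    {Al Am Bl Bm : ℕ → Set E} {x y : ℕ → E} (hp : ∀ k, p k ∈ Om K) (hcd : ∀ k, dl K (p k) ≤ cl K (p k))
    (hp₀ : p₀ ∈ interior K) (hlim : Tendsto p atTop (𝓝 p₀))
    (h : ∀ k, Mid K (p k) (Al k) (Am k) (Bl k) (Bm k) (x k) (y k))
    (ha : ¬ Two (S K) (F p₀)) {α : ℝ} (hα : Tendsto (fun k => F (p k) (x k) - mn K (p k)) atTop (𝓝 α))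
    (hα0 : 0 < α) (hα1 : α < mx K p₀ - mn K p₀) :
    ∀ᶠ k in atTop, F (p k) (y k) = mx K (p k) := by
  have := SN.S_cs hK
  have := SN.S_conn hK hd
  have := SN.S_lpc hK hd
  have hN := SN.S_nice hK hd
  obtain ⟨s₀, hF'⟩ := x3_fam' (K := K) hK
  have hF := x3_fam (K := K) hK
  let p' : ℕ → ↥(interior K) := fun k => ⟨p k, (hp k).1⟩
  let q : ↥(interior K) := ⟨p₀, hp₀⟩
  have hcho := fun k => x6_mid hK (p := p' k) (h k)
  choose Al' Am' Bl' Bm' x' y' hm e1 e2 e3 e4 e5 e6 using hcho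
  choose u huS hu using fun k => Lo_nonempty hK hd (p k)
  obtain ⟨u₀, hu₀S, hu₀⟩ := Lo_nonempty hK hd p₀
  obtain ⟨v₀, hv₀S, hv₀⟩ := Hi_nonempty hK hd p₀
  have key : ∀ᶠ k in atTop, ∀ z, FS K (p' k) z ≤ FS K (p' k) (y' k) := by
    refine sb_shr hN hF hF' (p := p') (p₀ := q) ?_ (x3_fin h7 q).1
      (fun k => x5_om2 hK h7 hd hF' (p := p' k) (hp k)) ?_ hm ?_ (u := fun k => ⟨u k, huS k⟩) ?_
      (u₀ := ⟨u₀, hu₀S⟩) (v₀ := ⟨v₀, hv₀S⟩) ?_ ?_ (a := α) ?_ hα0 ?_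
    · rw [tendsto_subtype_rng]
      exact hlim
    · intro k
      have h1 := hcd k
      rw [show dl K (p k) = dev (FS K (p' k)) from x4_dl (p' k),
        show cl K (p k) = lev (FS K (p' k)) from x4_cl (p' k)] at h1
      exact h1
    · intro h2
      exact ha ((x4_two q).2 h2)
    · intro k z
      show F (p k) (u k) ≤ F (p k) (z : E)
      rw [hu k]
      exact mn_le hK z.2
    · intro z
      show F p₀ u₀ ≤ F p₀ (z : E)
      rw [hu₀]
      exact mn_le hK z.2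
    · intro z
      show F p₀ (z : E) ≤ F p₀ v₀
      rw [hv₀]
      exact le_mx hK z.2
    · have h1 : (fun k => FS K (p' k) (x' k) - FS K (p' k) (⟨u k, huS k⟩ : ↥(S K))) =
          fun k => F (p k) (x k) - mn K (p k) := by
        funext k
        show F (p k) (x' k : E) - F (p k) (u k) = _
        rw [← e5 k, hu k]
      rw [h1]
      exact hα
    · show α < F p₀ v₀ - F p₀ u₀
      rw [hv₀, hu₀]
      exact hα1
  filter_upwards [key] with k hk
  obtain ⟨w, hw, hw'⟩ := Hi_nonempty hK hd (p k)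
  have h1 : F (p k) w ≤ F (p k) (y' k : E) := hk ⟨w, hw⟩
  rw [hw', ← e6 k] at h1
  refine le_antisymm ?_ h1
  rw [e6 k]
  exact le_mx hK (y' k).2

end Pool.Agent.E8N.TY
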