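import Pool.Agent.E8N.T_X2
import Pool.Agent.E8N.T_CB
import Pool.Agent.E8N.SN
import Pool.Agent.E8N.ZGm

/-!
# E8N module T_Y9

LAST INTERFACE FACTS. `y9_desc`: for p ∈ K (not only interior) the function f z = F p z on ↥(S K) with Z = {z | tau K p z = 0} and the step g s x = ⟨gm K s p x, ZGm.gm_mem⟩ is a Desc (ZGm.gm_dec, ZGm.gm_cont, ZGm.gm_zero; as in T_X3). `closure_inter`: cb_inter for it, transferred by x2_iff, x2_cl (sub K p t = val '' {z | F p z < t};
S K closed); instances SN.S_cs, SN.S_conn, SN.S_lpc. `mem_closure_sub`: the points gm K s p z, s → 0+, are in S K with F p < F p z ≤ t (ZGm.gm_dec with tau ≠ 0, F ≥ 0) and tend to gm K 0 p z = z. `S_preconn`: SN.S_conn (isConnected or isPreconnected_iff_preconnectedSpace). `S_loc`: ↥(S K) is locally connected (SN.S_lpc): the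
preimage of ball x ε is a neighbourhood of x, it contains an open connected set V' ∋ x (locallyConnectedSpace_iff_subsets_isOpen_isConnected or connectedComponentIn of the ball), V := val '' V'. `tietze`: Mathlib Tietze extension for maps into a finite dimensional space: ContinuousMap.exists_restrict_eq (TietzeExtension ℝ, and for E through a linear
homeomorphism with Fin n → ℝ: `ContinuousLinearEquiv` / `TietzeExtension.of_homeo`, instance for finite dimensional spaces in Mathlib.Analysis.Complex.Tietze).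
-/

set_option autoImplicit false

open Metric Set Filter Topology

namespace Pool.Agent.E8N.TY

variable {E : Type*} [NormedAddCommGroup E] [InnerProductSpace ℝ E] [FiniteDimensional ℝ E]
variable {K : Set E} {ρ R : ℝ}


theorem y9_desc (hK : Body K ρ R) {p : E} (hp : p ∈ K) :
    ∃ g : ℝ → ↥(S K) → ↥(S K), Desc (fun z : ↥(S K) => F p (z : E)) {z | tau K p (z : E) = 0} g := by
  refine ⟨fun s x => ⟨gm K s p (x : E), ZGm.gm_mem hK x.2⟩, ?_, ?_, ?_, ?_, ?_⟩
  · exact (continuous_subtype_val.sub continuous_const).norm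
  · exact Continuous.subtype_mk ((ZGm.gm_cont hK).comp
      (continuous_fst.prodMk (continuous_const.prodMk (continuous_subtype_val.comp continuous_snd)))) _
  · intro x
    exact Subtype.ext (ZGm.gm_zero hK x.2)
  · intro x s h0 h1
    have h2 := ZGm.gm_dec hK x.2 hp h0 h1
    have h3 : 0 ≤ (2 * s - s ^ 2) * ‖tau K p (x : E)‖ ^ 2 :=
      mul_nonneg (by nlinarith) (sq_nonneg _)
    exact le_of_sq_le_sq (by linarith) (norm_nonneg _)
  · intro x s h0 h1 hx
    have h2 := ZGm.gm_dec hK x.2 hp h0.le h1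
    have h4 : 0 < ‖tau K p (x : E)‖ := norm_pos_iff.mpr hx
    have h3 : 0 < (2 * s - s ^ 2) * ‖tau K p (x : E)‖ ^ 2 :=
      mul_pos (by nlinarith) (by positivity)
    exact lt_of_pow_lt_pow_left₀ 2 (norm_nonneg _) (by
      change F p (gm K s p (x : E)) ^ 2 < F p (x : E) ^ 2
      linarith)

theorem y9_sub (p : E) (t : ℝ) : sub K p t = Subtype.val '' {z : ↥(S K) | F p (z : E) < t} := by
  ext z
  constructor
  · rintro ⟨h1, h2⟩
    exact ⟨⟨z, h1⟩, h2, rfl⟩
  · rintro ⟨w, hw, rfl⟩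
    exact ⟨w.2, hw⟩

/-- (1.1): closures of two different components of a sublevel set meet only in critical points -/
theorem closure_inter (hK : Body K ρ R) (hd : 4 ≤ Module.finrank ℝ E) {p : E} (hp : p ∈ K) {A A' : Set E} {t : ℝ}
    (hA : IsComp (sub K p t) A) (hA' : IsComp (sub K p t) A') (hne : A ≠ A') {z : E} (hz : z ∈ closure A)
    (hz' : z ∈ closure A') : z ∈ Crit K p ∧ F p z = t := by
  have := SN.S_cs hK
  have := SN.S_conn hK hd
  have := SN.S_lpc hK hd
  obtain ⟨g, hg⟩ := y9_desc hK hp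
  rw [y9_sub] at hA hA'
  obtain ⟨A1, hA1, rfl⟩ := x2_iff.1 hA
  obtain ⟨A2, hA2, rfl⟩ := x2_iff.1 hA'
  have hcl := (ZSurf.S_compact hK).isClosed
  rw [x2_cl hcl] at hz hz'
  obtain ⟨z1, hz1, rfl⟩ := hz
  obtain ⟨z2, hz2, hz12⟩ := hz'
  have h12 : z2 = z1 := Subtype.ext hz12
  rw [h12] at hz2
  have hne' : A1 ≠ A2 := fun he => hne (by rw [he])
  have h := cb_inter hg hA1 hA2 hne' hz1 hz2
  exact ⟨⟨z1.2, h.1⟩, h.2⟩

/-- (1.1): a noncritical point is in the closure of the sublevel set -/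
theorem mem_closure_sub (hK : Body K ρ R) {p z : E} {t : ℝ} (hp : p ∈ K) (hz : z ∈ S K) (h : F p z ≤ t)
    (hc : z ∉ Crit K p) : z ∈ closure (sub K p t) := by
  have hτ : tau K p z ≠ 0 := fun h0 => hc ⟨hz, h0⟩
  have hs : Tendsto (fun n : ℕ => 1 / ((n : ℝ) + 1)) atTop (𝓝 0) := tendsto_one_div_add_atTop_nhds_zero_nat
  have hcont : Continuous fun s : ℝ => gm K s p z :=
    (ZGm.gm_cont hK).comp (continuous_id.prodMk (continuous_const (y := (p, z))))
  have hlim : Tendsto (fun n : ℕ => gm K (1 / ((n : ℝ) + 1)) p z) atTop (𝓝 z) := by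
    have h1 := (hcont.tendsto 0).comp hs
    rw [ZGm.gm_zero hK hz] at h1
    exact h1
  refine mem_closure_of_tendsto hlim (Filter.Eventually.of_forall (fun n => ?_))
  have hpos : (0 : ℝ) < 1 / ((n : ℝ) + 1) := Nat.one_div_pos_of_nat
  have hle : 1 / ((n : ℝ) + 1) ≤ 1 := by
    rw [div_le_one (by positivity)]
    have : (0 : ℝ) ≤ n := Nat.cast_nonneg n
    linarith
  refine ⟨ZGm.gm_mem hK hz, lt_of_lt_of_le ?_ h⟩
  have h2 := ZGm.gm_dec hK hz hp hpos.le hle
  have h4 : 0 < ‖tau K p z‖ := norm_pos_iff.mpr hτ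
  have h3 : 0 < (2 * (1 / ((n : ℝ) + 1)) - (1 / ((n : ℝ) + 1)) ^ 2) * ‖tau K p z‖ ^ 2 :=
    mul_pos (by nlinarith) (by positivity)
  exact lt_of_pow_lt_pow_left₀ 2 (norm_nonneg _) (by linarith)

theorem S_preconn (hK : Body K ρ R) (hd : 4 ≤ Module.finrank ℝ E) : IsPreconnected (S K) := by
  have := SN.S_conn hK hd
  exact isPreconnected_iff_preconnectedSpace.2 inferInstance

/-- `S K` is locally connected -/
theorem S_loc (hK : Body K ρ R) (hd : 4 ≤ Module.finrank ℝ E) {x : E} (hx : x ∈ S K) {ε : ℝ} (hε : 0 < ε) :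
    ∃ V ⊆ S K ∩ ball x ε, IsPreconnected V ∧ x ∈ V ∧ ∃ η > 0, S K ∩ ball x η ⊆ V := by
  have := SN.S_lpc hK hd
  obtain ⟨x', hx'⟩ : ∃ x' : ↥(S K), x' = ⟨x, hx⟩ := ⟨_, rfl⟩
  have hxv : (x' : E) = x := by rw [hx']
  obtain ⟨V', hV'⟩ : ∃ V' : Set ↥(S K), V' = connectedComponentIn (ball x' ε) x' := ⟨_, rfl⟩
  have hopen : IsOpen V' := by rw [hV']; exact isOpen_ball.connectedComponentIn
  have hxV : x' ∈ V' := by rw [hV']; exact mem_connectedComponentIn (mem_ball_self hε)
  have hsub : V' ⊆ ball x' ε := by rw [hV']; exact connectedComponentIn_subset _ _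
  have hpre : IsPreconnected V' := by rw [hV']; exact isPreconnected_connectedComponentIn
  obtain ⟨η, hη, hηV⟩ := Metric.isOpen_iff.mp hopen x' hxV
  refine ⟨Subtype.val '' V', ?_, hpre.image _ continuous_subtype_val.continuousOn, ⟨x', hxV, hxv⟩, η, hη, ?_⟩
  · rintro _ ⟨z, hz, rfl⟩
    refine ⟨z.2, ?_⟩
    have := hsub hz
    rw [← hxv]
    exact this
  · rintro z ⟨hz1, hz2⟩
    refine ⟨⟨z, hz1⟩, hηV ?_, rfl⟩
    rw [← hxv] at hz2
    exact hz2

/-- Tietze extension for maps into `E` -/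
theorem tietze {X : Type*} [MetricSpace X] {A : Set X} (hA : IsClosed A) {g : X → E} (hg : ContinuousOn g A) :
    ∃ G : X → E, Continuous G ∧ ∀ x ∈ A, G x = g x := by
  obtain ⟨G, hG⟩ := ContinuousMap.exists_restrict_eq hA (⟨A.domRestrict g, hg.domRestrict⟩ : C(A, E))
  refine ⟨G, G.continuous, fun x hx => ?_⟩
  have := congrArg (fun f : C(A, E) => f ⟨x, hx⟩) hG
  exact this

end Pool.Agent.E8N.TY
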