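import Pool.Agent.E8N.Api0
import Pool.Agent.E8N.T_Y2
import Pool.Agent.E8N.T_Y3
import Pool.Agent.E8N.T_Y4
import Pool.Agent.E8N.T_Y5
import Pool.Agent.E8N.T_Y6
import Pool.Agent.E8N.T_Y7
import Pool.Agent.E8N.T_Y8
import Pool.Agent.E8N.T_Y9
import Pool.Agent.E8N.T_K1

/-!
# E8N: interface, sections 1, 2.7, 3 (real version)

Section numbers refer to the proof text. 
-/

set_option autoImplicit false

open Metric Set Filter Topology

namespace Pool.Agent.E8N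

variable {E : Type*} [NormedAddCommGroup E] [InnerProductSpace ℝ E] [FiniteDimensional ℝ E]
variable {K : Set E} {ρ R : ℝ}

/-- `S K` is locally connected -/
theorem S_loc (hK : Body K ρ R) (hd : 4 ≤ Module.finrank ℝ E) {x : E} (hx : x ∈ S K) {ε : ℝ} (hε : 0 < ε) :
    ∃ V ⊆ S K ∩ ball x ε, IsPreconnected V ∧ x ∈ V ∧ ∃ η > 0, S K ∩ ball x η ⊆ V := TY.S_loc hK hd hx hε

/-- Tietze extension for maps into `E` -/
theorem tietze {X : Type*} [MetricSpace X] {A : Set X} (hA : IsClosed A) {g : X → E} (hg : ContinuousOn g A) :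
    ∃ G : X → E, Continuous G ∧ ∀ x ∈ A, G x = g x := TY.tietze hA hg

/-! ## Section 1, 3 -/

theorem cl_eq (hK : Body K ρ R) (h7 : AtMost7 K) (hd : 4 ≤ Module.finrank ℝ E) {p x y : E} (hp : p ∈ Om K)
    (hx : x ∈ S K) (hy : y ∈ S K) (h : Sepd (S K) (F p) x y) : pass (S K) (F p) x y = cl K p :=
  TY.cl_eq hK h7 hd hp hx hy h

theorem cl_cont (hK : Body K ρ R) (h7 : AtMost7 K) (hd : 4 ≤ Module.finrank ℝ E) : ContinuousOn (cl K) (Om K) :=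
  TY.cl_cont hK h7 hd

theorem dl_cont (hK : Body K ρ R) (h7 : AtMost7 K) (hd : 4 ≤ Module.finrank ℝ E) : ContinuousOn (dl K) (Om K) :=
  TY.dl_cont hK h7 hd

/-- unique minimum if there is no separated pair -/
theorem argmin_unique (hK : Body K ρ R) (h7 : AtMost7 K) (hd : 4 ≤ Module.finrank ℝ E) {p : E} (hp : p ∈ interior K)
    (h : ¬ Two (S K) (F p)) : ∃ m, Lo K 0 p = {m} := TY.argmin_unique hK h7 hd hp h

theorem argmax_unique (hK : Body K ρ R) (h7 : AtMost7 K) (hd : 4 ≤ Module.finrank ℝ E) {p : E} (hp : p ∈ interior K)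
    (h : ¬ Two (S K) (fun x => - F p x)) : ∃ m, Hi K 0 p = {m} := TY.argmax_unique hK h7 hd hp h

/-- the two minima at `p ∈ Om K`: `lo` the global one -/
structure Mins (K : Set E) (p lo hi : E) : Prop where
  lo_mem : lo ∈ S K
  hi_mem : hi ∈ S K
  lo_min : F p lo = mn K p
  sepd : Sepd (S K) (F p) lo hi
  hi_min : ∀ z ∈ S K, pass (S K) (F p) hi z < cl K p → F p hi ≤ F p z
  hi_crit : hi ∈ Crit K p
  lo_crit : lo ∈ Crit K p

omit [FiniteDimensional ℝ E] in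
theorem api_mins {p lo hi : E} : Mins K p lo hi ↔ MinsE K p lo hi :=
  ⟨fun h => ⟨h.lo_mem, h.hi_mem, h.lo_min, h.sepd, h.hi_min, h.hi_crit, h.lo_crit⟩,
    fun h => ⟨h.lo_mem, h.hi_mem, h.lo_min, h.sepd, h.hi_min, h.hi_crit, h.lo_crit⟩⟩

theorem mins_exists (hK : Body K ρ R) (h7 : AtMost7 K) (hd : 4 ≤ Module.finrank ℝ E) {p : E} (hp : p ∈ Om K) :
    ∃ lo hi, Mins K p lo hi := by
  obtain ⟨lo, hi, h⟩ := TY.mins_exists hK h7 hd hp
  exact ⟨lo, hi, api_mins.2 h⟩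

/-- the pair of minima is unique up to a swap -/
theorem mins_unique (hK : Body K ρ R) (h7 : AtMost7 K) (hd : 4 ≤ Module.finrank ℝ E) {p lo hi lo' hi' : E}
    (hp : p ∈ Om K) (h : Mins K p lo hi) (h' : Mins K p lo' hi') :
    (lo = lo' ∧ hi = hi') ∨ (lo = hi' ∧ hi = lo' ∧ F p lo = F p hi) :=
  TY.mins_unique hK h7 hd hp (api_mins.1 h) (api_mins.1 h')

/-- continuity of the pair of minima -/
theorem mins_cont (hK : Body K ρ R) (h7 : AtMost7 K) (hd : 4 ≤ Module.finrank ℝ E) {p : ℕ → E} {p₀ : E}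
    {lo hi : ℕ → E} {lo₀ hi₀ : E} (hp : ∀ k, p k ∈ Om K) (hp₀ : p₀ ∈ Om K) (hlim : Tendsto p atTop (𝓝 p₀))
    (h : ∀ k, Mins K (p k) (lo k) (hi k)) (h₀ : Mins K p₀ lo₀ hi₀) :
    Tendsto (fun k => F (p k) (hi k)) atTop (𝓝 (F p₀ hi₀)) ∧
      (F p₀ lo₀ < F p₀ hi₀ → Tendsto lo atTop (𝓝 lo₀) ∧ Tendsto hi atTop (𝓝 hi₀)) :=
  TY.mins_cont hK h7 hd hp hp₀ hlim (fun k => api_mins.1 (h k)) (api_mins.1 h₀)

/-- continuity of the unordered pair of minima -/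
theorem mins_cont' (hK : Body K ρ R) (h7 : AtMost7 K) (hd : 4 ≤ Module.finrank ℝ E) {p : ℕ → E} {p₀ : E}
    {lo hi : ℕ → E} {lo₀ hi₀ : E} (hp : ∀ k, p k ∈ Om K) (hp₀ : p₀ ∈ Om K) (hlim : Tendsto p atTop (𝓝 p₀))
    (h : ∀ k, Mins K (p k) (lo k) (hi k)) (h₀ : Mins K p₀ lo₀ hi₀) {ε : ℝ} (hε : 0 < ε) :
    ∀ᶠ k in atTop, (‖lo k - lo₀‖ < ε ∧ ‖hi k - hi₀‖ < ε) ∨ (‖lo k - hi₀‖ < ε ∧ ‖hi k - lo₀‖ < ε) :=
  TY.mins_cont' hK h7 hd hp hp₀ hlim (fun k => api_mins.1 (h k)) (api_mins.1 h₀) hε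

theorem mid_exists (hK : Body K ρ R) (h7 : AtMost7 K) (hd : 4 ≤ Module.finrank ℝ E) {p : E} (hp : p ∈ Om K)
    (hcd : dl K p ≤ cl K p) : ∃ Al Am Bl Bm x y, Mid K p Al Am Bl Bm x y := TY.mid_exists hK h7 hd hp hcd

theorem mid_unique (hK : Body K ρ R) (h7 : AtMost7 K) (hd : 4 ≤ Module.finrank ℝ E) {p : E} (hp : p ∈ Om K)
    (hcd : dl K p ≤ cl K p) {Al Am Bl Bm Al' Am' Bl' Bm' : Set E} {x y x' y' : E}
    (h : Mid K p Al Am Bl Bm x y) (h' : Mid K p Al' Am' Bl' Bm' x' y') :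
    Al = Al' ∧ Am = Am' ∧ Bl = Bl' ∧ Bm = Bm' ∧ x = x' ∧ y = y' := TY.mid_unique hK h7 hd hp hcd h h'

theorem mid_lim (hK : Body K ρ R) (h7 : AtMost7 K) (hd : 4 ≤ Module.finrank ℝ E) {p : ℕ → E} {p₀ : E}
    {Al Am Bl Bm : ℕ → Set E} {x y : ℕ → E} {Al₀ Am₀ Bl₀ Bm₀ : Set E} {x₀ y₀ : E}
    (hp : ∀ k, p k ∈ Om K) (hcd : ∀ k, dl K (p k) ≤ cl K (p k)) (hp₀ : p₀ ∈ Om K) (hlim : Tendsto p atTop (𝓝 p₀))
    (h : ∀ k, Mid K (p k) (Al k) (Am k) (Bl k) (Bm k) (x k) (y k)) (h₀ : Mid K p₀ Al₀ Am₀ Bl₀ Bm₀ x₀ y₀) :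
    Tendsto x atTop (𝓝 x₀) ∧ Tendsto y atTop (𝓝 y₀) := TY.mid_lim hK h7 hd hp hcd hp₀ hlim h h₀

/-- the middle minimum and the middle maximum -/
theorem mid_facts (hK : Body K ρ R) (h7 : AtMost7 K) (hd : 4 ≤ Module.finrank ℝ E) {p : E} (hp : p ∈ Om K)
    (hcd : dl K p ≤ cl K p) {Al Am Bl Bm : Set E} {x y : E} (h : Mid K p Al Am Bl Bm x y) :
    x ∈ Crit K p ∧ y ∈ Crit K p ∧ F p x < cl K p ∧ cl K p ≤ F p y ∧ dl K p < F p y ∧ mn K p ≤ dl K p ∧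
      (∃ lo hi, Mins K p lo hi ∧ (x = lo ∨ x = hi)) ∧
      (∀ m ∈ Lo K 0 p, F p x ≠ mn K p → m ∈ Al) := by
  obtain ⟨h1, h2, h3, h4, h5, h6, ⟨lo, hi, hm, hx⟩, h8⟩ := TY.mid_facts hK h7 hd hp hcd h
  exact ⟨h1, h2, h3, h4.le, h5, h6.le, ⟨lo, hi, api_mins.2 hm, hx⟩, h8⟩

theorem S_preconn (hK : Body K ρ R) (hd : 4 ≤ Module.finrank ℝ E) : IsPreconnected (S K) := TY.S_preconn hK hd

/-- (1.1): closures of two different components of a sublevel set meet only in critical points -/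
theorem closure_inter (hK : Body K ρ R) (hd : 4 ≤ Module.finrank ℝ E) {p : E} (hp : p ∈ K) {A A' : Set E} {t : ℝ}
    (hA : IsComp (sub K p t) A) (hA' : IsComp (sub K p t) A') (hne : A ≠ A') {z : E} (hz : z ∈ closure A)
    (hz' : z ∈ closure A') : z ∈ Crit K p ∧ F p z = t := TY.closure_inter hK hd hp hA hA' hne hz hz'

/-- (1.1): a noncritical point is in the closure of the sublevel set -/
theorem mem_closure_sub (hK : Body K ρ R) {p z : E} {t : ℝ} (hp : p ∈ K) (hz : z ∈ S K) (h : F p z ≤ t)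
    (hc : z ∉ Crit K p) : z ∈ closure (sub K p t) := TY.mem_closure_sub hK hp hz h hc

/-- (3.6) -/
theorem shr (hK : Body K ρ R) (h7 : AtMost7 K) (hd : 4 ≤ Module.finrank ℝ E) {p : ℕ → E} {p₀ : E}
    {Al Am Bl Bm : ℕ → Set E} {x y : ℕ → E} (hp : ∀ k, p k ∈ Om K) (hcd : ∀ k, dl K (p k) ≤ cl K (p k))
    (hp₀ : p₀ ∈ interior K) (hlim : Tendsto p atTop (𝓝 p₀))
    (h : ∀ k, Mid K (p k) (Al k) (Am k) (Bl k) (Bm k) (x k) (y k))
    (ha : Two (S K) (F p₀)) (hb : ¬ Two (S K) (fun x => - F p₀ x)) {M : E} (hM : Hi K 0 p₀ = {M}) :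
    Tendsto y atTop (𝓝 M) := TY.shr hK h7 hd hp hcd hp₀ hlim h ha hb hM

/-- (3.7) -/
theorem shr' (hK : Body K ρ R) (h7 : AtMost7 K) (hd : 4 ≤ Module.finrank ℝ E) {p : ℕ → E} {p₀ : E}
    {Al Am Bl Bm : ℕ → Set E} {x y : ℕ → E} (hp : ∀ k, p k ∈ Om K) (hcd : ∀ k, dl K (p k) ≤ cl K (p k))
    (hp₀ : p₀ ∈ interior K) (hlim : Tendsto p atTop (𝓝 p₀))
    (h : ∀ k, Mid K (p k) (Al k) (Am k) (Bl k) (Bm k) (x k) (y k))
    (ha : ¬ Two (S K) (F p₀)) {α : ℝ} (hα : Tendsto (fun k => F (p k) (x k) - mn K (p k)) atTop (𝓝 α))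
    (hα0 : 0 < α) (hα1 : α < mx K p₀ - mn K p₀) :
    ∀ᶠ k in atTop, F (p k) (y k) = mx K (p k) := TY.shr' hK h7 hd hp hcd hp₀ hlim h ha hα hα0 hα1

/-- the complement of one point is connected: the merging level is below the maximum if the maximum is unique -/
theorem pass_lt_max (hK : Body K ρ R) (h7 : AtMost7 K) (hd : 4 ≤ Module.finrank ℝ E) {p x y M : E}
    (hp : p ∈ interior K) (hM : Hi K 0 p = {M}) (hx : x ∈ S K) (hy : y ∈ S K) (hxM : x ≠ M) (hyM : y ≠ M) :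
    pass (S K) (F p) x y < mx K p := TY.pass_lt_max hK h7 hd hp hM hx hy hxM hyM

/-- the extrema are critical and different -/
theorem argmin_crit (hK : Body K ρ R) {p x : E} (hp : p ∈ K) (hx : x ∈ Lo K 0 p) : x ∈ Crit K p :=
  TY.argmin_crit hK hp hx

theorem argmax_crit (hK : Body K ρ R) {p x : E} (hp : p ∈ K) (hx : x ∈ Hi K 0 p) : x ∈ Crit K p :=
  TY.argmax_crit hK hp hx

theorem mn_lt_mx (hK : Body K ρ R) (h7 : AtMost7 K) (hd : 4 ≤ Module.finrank ℝ E) {p : E} (hp : p ∈ interior K) :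
    mn K p < mx K p := TY.mn_lt_mx hK h7 hd hp

theorem Lo_nonempty (hK : Body K ρ R) (hd : 4 ≤ Module.finrank ℝ E) (p : E) : ∃ x ∈ S K, F p x = mn K p :=
  TY.Lo_nonempty hK hd p

theorem Hi_nonempty (hK : Body K ρ R) (hd : 4 ≤ Module.finrank ℝ E) (p : E) : ∃ x ∈ S K, F p x = mx K p :=
  TY.Hi_nonempty hK hd p

/-- pass levels are 1-Lipschitz in the parameter -/
theorem pass_lip (hK : Body K ρ R) (hd : 4 ≤ Module.finrank ℝ E) (p q : E) {x y : E} (hx : x ∈ S K) (hy : y ∈ S K) :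
    |pass (S K) (F p) x y - pass (S K) (F q) x y| ≤ ‖p - q‖ := TY.pass_lip hK hd p q hx hy

theorem pass_le (hK : Body K ρ R) {p x y : E} {C : Set E} {t : ℝ} (hC : C ⊆ S K) (hc : IsPreconnected C)
    (hx : x ∈ C) (hy : y ∈ C) (h : ∀ z ∈ C, F p z ≤ t) : pass (S K) (F p) x y ≤ t := TY.pass_le hK hC hc hx hy h

/-! ## Section 2 -/

/-- (2.7) -/
theorem count3 (hK : Body K ρ R) (h7 : AtMost7 K) (hd : 4 ≤ Module.finrank ℝ E) {p : E} (hp : p ∈ interior K)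
    (h2 : Two (S K) (F p)) (h3 : Three (S K) (fun x => - F p x)) : False := TY.count3 hK h7 hd hp h2 h3

theorem count3' (hK : Body K ρ R) (h7 : AtMost7 K) (hd : 4 ≤ Module.finrank ℝ E) {p : E} (hp : p ∈ interior K)
    (h2 : Three (S K) (F p)) (h3 : Two (S K) (fun x => - F p x)) : False := TY.count3' hK h7 hd hp h2 h3

end Pool.Agent.E8N
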