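import Pool.Agent.E8N.CDefs
import Pool.Agent.E8N.Api1

/-!
# E8N module C_End (Lemma C): the straight line homotopy at the end

`end_delta`: m1, m2 ∈ S K are not in the closed set K (S_disj; hK.cpt.isClosed), ret K is continuous on the open set Kᶜ
(ret_cont), ret K m_i = m_i (ret_of_mem), ret_mem; F p (ret K y) < t' near m_i by continuity; δ = minimum of the two radii.
`end_hom`: H z = ret K ((1 - z.1) • T z.2 + z.1 • β (θ z.2)). Continuous on [0,1] × X: the inner map L is continuous, with values in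
Kᶜ: if -1 < θ x < 1 then T x = β (θ x), so L = T x ∈ S K and H = T x ∈ U (ret_of_mem, S_disj); if θ x = 1 then T x and β 1 are in the convex
ball m1 δ, so L ∈ ball m1 δ and ret K L ∈ U by hδ; the same for θ x = -1. H (0, x) = ret K (T x) = T x, H (1, x) = β (θ x).
-/

set_option autoImplicit false

open Metric Set Filter Topology

namespace Pool.Agent.E8N

variable {E : Type*} [NormedAddCommGroup E] [InnerProductSpace ℝ E] [FiniteDimensional ℝ E]
variable {K : Set E} {ρ R : ℝ}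

theorem C_End_aux (hK : Body K ρ R) {p m : E} (h1 : m ∈ S K) {t' : ℝ} (f1 : F p m < t') :
    ∃ δ > 0, ∀ y : E, ‖y - m‖ < δ → y ∉ K ∧ ret K y ∈ S K ∧ F p (ret K y) < t' := by
  have hKo : IsOpen Kᶜ := hK.cpt.isClosed.isOpen_compl
  have hm : m ∈ Kᶜ := S_disj hK h1
  have hn : Kᶜ ∈ 𝓝 m := hKo.mem_nhds hm
  have hc : ContinuousAt (ret K) m := (ret_cont hK).continuousAt hn
  have hF : ContinuousAt (fun y => F p (ret K y)) m := (hc.sub continuousAt_const).norm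
  have hv : F p (ret K m) < t' := by rw [ret_of_mem hK h1]; exact f1
  have he : ∀ᶠ y in 𝓝 m, F p (ret K y) < t' ∧ y ∈ Kᶜ := (hF.eventually_lt_const hv).and hn
  obtain ⟨δ, hδ, hb⟩ := Metric.eventually_nhds_iff.mp he
  refine ⟨δ, hδ, fun y hy => ?_⟩
  have h2 := hb (by rw [dist_eq_norm]; exact hy)
  exact ⟨h2.2, ret_mem hK h2.2, h2.1⟩

theorem end_delta (hK : Body K ρ R) {p m1 m2 : E} (h1 : m1 ∈ S K) (h2 : m2 ∈ S K) {t' : ℝ} (f1 : F p m1 < t')
    (f2 : F p m2 < t') : ∃ δ > 0, ∀ y : E, (‖y - m1‖ < δ ∨ ‖y - m2‖ < δ) →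
      y ∉ K ∧ ret K y ∈ S K ∧ F p (ret K y) < t' := by
  obtain ⟨δ₁, hδ₁, hb1⟩ := C_End_aux hK h1 f1
  obtain ⟨δ₂, hδ₂, hb2⟩ := C_End_aux hK h2 f2
  refine ⟨min δ₁ δ₂, lt_min hδ₁ hδ₂, fun y hy => ?_⟩
  rcases hy with hy | hy
  · exact hb1 y (hy.trans_le (min_le_left _ _))
  · exact hb2 y (hy.trans_le (min_le_right _ _))

theorem end_hom (hK : Body K ρ R) {X U : Set E} {T : E → E} {θ : E → ℝ} {β : ℝ → E} (hT : ContinuousOn T X)
    (hTS : ∀ x ∈ X, T x ∈ S K ∧ T x ∈ U) (hθ : ContinuousOn θ X) (hθ' : ∀ x ∈ X, θ x ∈ Icc (-1 : ℝ) 1)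
    (hβ : ContinuousOn β (Icc (-1) 1)) (hβS : ∀ u ∈ Icc (-1 : ℝ) 1, β u ∈ S K ∧ β u ∈ U)
    (heq : ∀ x ∈ X, -1 < θ x → θ x < 1 → T x = β (θ x)) {m1 m2 : E} {δ : ℝ}
    (hδ : ∀ y : E, (‖y - m1‖ < δ ∨ ‖y - m2‖ < δ) → y ∉ K ∧ ret K y ∈ U)
    (n1 : ∀ x ∈ X, θ x = 1 → ‖T x - m1‖ < δ) (n1' : ‖β 1 - m1‖ < δ)
    (n2 : ∀ x ∈ X, θ x = -1 → ‖T x - m2‖ < δ) (n2' : ‖β (-1) - m2‖ < δ) :
    Hom X U T (fun x => β (θ x)) := by
  have hconv : ∀ (m a b : E) (u : ℝ), 0 ≤ u → u ≤ 1 → ‖a - m‖ < δ → ‖b - m‖ < δ →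
      ‖((1 - u) • a + u • b) - m‖ < δ := by
    intro m a b u hu0 hu1 ha hb
    have h1 : a ∈ ball m δ := by rw [mem_ball, dist_eq_norm]; exact ha
    have h2 : b ∈ ball m δ := by rw [mem_ball, dist_eq_norm]; exact hb
    have h3 := (convex_ball m δ) h1 h2 (by linarith : (0 : ℝ) ≤ 1 - u) hu0 (by ring)
    rw [mem_ball, dist_eq_norm] at h3
    exact h3
  have key : ∀ u ∈ Icc (0 : ℝ) 1, ∀ x ∈ X,
      ((1 - u) • T x + u • β (θ x)) ∈ Kᶜ ∧ ret K ((1 - u) • T x + u • β (θ x)) ∈ U := by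
    intro u hu x hx
    have hth := hθ' x hx
    rcases eq_or_lt_of_le hth.1 with h | h
    · have h5 : θ x = -1 := h.symm
      have h6 := hδ ((1 - u) • T x + u • β (θ x)) (Or.inr (by
        rw [h5]
        exact hconv m2 _ _ u hu.1 hu.2 (n2 x hx h5) n2'))
      exact h6
    · rcases eq_or_lt_of_le hth.2 with h' | h'
      · have h6 := hδ ((1 - u) • T x + u • β (θ x)) (Or.inl (by
          rw [h']
          exact hconv m1 _ _ u hu.1 hu.2 (n1 x hx h') n1'))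
        exact h6
      · have h7 := heq x hx h h'
        have h8 : (1 - u) • T x + u • β (θ x) = T x := by
          rw [← h7, ← add_smul]
          simp
        rw [h8]
        refine ⟨S_disj hK (hTS x hx).1, ?_⟩
        rw [ret_of_mem hK (hTS x hx).1]
        exact (hTS x hx).2
  refine ⟨fun z => ret K ((1 - z.1) • T z.2 + z.1 • β (θ z.2)), ?_, ?_, ?_, ?_⟩
  · have hsnd : ContinuousOn (fun z : ℝ × E => z.2) (Icc (0 : ℝ) 1 ×ˢ X) := continuous_snd.continuousOn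
    have hfst : ContinuousOn (fun z : ℝ × E => z.1) (Icc (0 : ℝ) 1 ×ˢ X) := continuous_fst.continuousOn
    have hTc : ContinuousOn (fun z : ℝ × E => T z.2) (Icc (0 : ℝ) 1 ×ˢ X) :=
      hT.comp hsnd (fun z hz => hz.2)
    have hθc : ContinuousOn (fun z : ℝ × E => θ z.2) (Icc (0 : ℝ) 1 ×ˢ X) :=
      hθ.comp hsnd (fun z hz => hz.2)
    have hβc : ContinuousOn (fun z : ℝ × E => β (θ z.2)) (Icc (0 : ℝ) 1 ×ˢ X) :=
      hβ.comp hθc (fun z hz => hθ' z.2 hz.2)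
    have hL : ContinuousOn (fun z : ℝ × E => (1 - z.1) • T z.2 + z.1 • β (θ z.2))
        (Icc (0 : ℝ) 1 ×ˢ X) :=
      ((continuousOn_const.sub hfst).smul hTc).add (hfst.smul hβc)
    exact (ret_cont hK).comp hL (fun z hz => (key z.1 hz.1 z.2 hz.2).1)
  · intro x hx
    show ret K ((1 - (0 : ℝ)) • T x + (0 : ℝ) • β (θ x)) = T x
    rw [sub_zero, one_smul, zero_smul, add_zero]
    exact ret_of_mem hK (hTS x hx).1
  · intro x hx
    show ret K ((1 - (1 : ℝ)) • T x + (1 : ℝ) • β (θ x)) = β (θ x)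
    rw [sub_self, zero_smul, one_smul, zero_add]
    exact ret_of_mem hK (hβS _ (hθ' x hx)).1
  · intro u hu x hx
    exact (key u hu x hx).2

end Pool.Agent.E8N
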