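import Pool.Agent.E8N.C_Cm

/-!
# E8N module C_Fl (Lemma C): points of `Good` flow into A1 below the level c1

g = gm K σ p. Good = {x ∈ A1, F x ≤ c1} ∪ R+, R+ = {x ∈ S K, ‖x - s‖ ≤ r/2, a ≤ l x, F x ^ 2 ≤ M}.
The first set is mapped into itself by g (cm_iter). x ∈ R+ with ‖x - s‖ ≤ r/4: ‖g x - s‖ ≤ r/2 (near), by push
l (g x) ≥ (1 + lam) l x - ε r ≥ l x + lam a - ε r ≥ l x + lam a / 2 ≥ a, F (g x) ≤ F x (it_le1), so g x ∈ R+ and l increased by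
lam a / 2. x ∈ R+ with ‖x - s‖ > r/4: ‖g x - s‖ ≤ r (near), again l (g x) ≥ a > 0, and by dec
F(g x)^2 ≤ M - c (r/4)^2 ≤ c1^2, so F(g x) ≤ c1 < F(s); by side (valid for ‖g x - s‖ ≤ r) g x ∈ A1. So g x is in the first set.
By induction: after n steps x is in the first set or in R+ with l ≥ a + n lam a / 2; but l ≤ ‖x - s‖ ≤ r/2 on R+ (l_le),
so N with N lam a / 2 > r/2 works, and all n ≥ N.
-/

set_option autoImplicit false

open Metric Set Filter Topology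

namespace Pool.Agent.E8N

variable {E : Type*} [NormedAddCommGroup E] [InnerProductSpace ℝ E] [FiniteDimensional ℝ E]
variable {K : Set E} {ρ R : ℝ}

theorem fl_step (hK : Body K ρ R) {p s : E} (hp : p ∈ K) {A1 A2 : Set E}
    {σ lam c C ε r : ℝ} {l : E → ℝ} {V : ℝ × E → E} {γ : ℝ → E}
    (hL : Loc K p s A1 A2 σ lam c C ε r l V γ) (hlam : 0 < lam) (hc : 0 < c)
    (hε : 0 < ε) {a M c1 : ℝ} (ha : 0 < a) (hεa : ε * r ≤ lam * a / 2) (hc0 : 0 ≤ c1) (hc1 : c1 < F p s)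
    (hM : M - c * r ^ 2 / 16 ≤ c1 ^ 2) {b : ℝ} (hb : a ≤ b) {x : E} (hx : x ∈ S K) (hxr : ‖x - s‖ ≤ r / 2)
    (hlx : b ≤ l x) (hFx : F p x ^ 2 ≤ M) :
    (gm K σ p x ∈ A1 ∧ F p (gm K σ p x) ≤ c1) ∨ (gm K σ p x ∈ S K ∧ ‖gm K σ p x - s‖ ≤ r / 2 ∧
      b + lam * a / 2 ≤ l (gm K σ p x) ∧ F p (gm K σ p x) ^ 2 ≤ M) := by
  have hr := hL.hr
  have hxr' : ‖x - s‖ ≤ r := by linarith
  have hnear := hL.near x hx hxr'
  have hpush := hL.push x hx hxr'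
  have hdec := hL.dec x hx hxr'
  have hgS : gm K σ p x ∈ S K := gm_mem hK hx
  have h1 : ε * ‖x - s‖ ≤ ε * r := mul_le_mul_of_nonneg_left hxr' hε.le
  have h2 : lam * a ≤ lam * l x := mul_le_mul_of_nonneg_left (hb.trans hlx) hlam.le
  have h3 := (abs_le.1 hpush).1
  have hl : b + lam * a / 2 ≤ l (gm K σ p x) := by nlinarith
  have hcn : 0 ≤ c * ‖x - s‖ ^ 2 := by positivity
  rcases le_or_gt ‖x - s‖ (r / 4) with h4 | h4
  · right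
    refine ⟨hgS, by linarith, hl, by linarith⟩
  · left
    have h5 : c * (r / 4) ^ 2 ≤ c * ‖x - s‖ ^ 2 :=
      mul_le_mul_of_nonneg_left (pow_le_pow_left₀ (by linarith) h4.le 2) hc.le
    have h6 : F p (gm K σ p x) ^ 2 ≤ c1 ^ 2 := by nlinarith
    have h7 : F p (gm K σ p x) ≤ c1 := (sq_le_sq₀ (norm_nonneg _) hc0).1 h6
    refine ⟨?_, h7⟩
    have h8 : 0 < lam * a := mul_pos hlam ha
    exact (hL.side _ hgS (by linarith) (lt_of_le_of_lt h7 hc1)).2.1 (by linarith)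

theorem fl_iter (hK : Body K ρ R) {p s m1 m2 : E} (hp : p ∈ K) {A1 A2 : Set E} {d : ℝ}
    (hG : Glo K p s m1 m2 A1 A2 d) {σ lam c C ε r : ℝ} {l : E → ℝ} {V : ℝ × E → E} {γ : ℝ → E}
    (hL : Loc K p s A1 A2 σ lam c C ε r l V γ) (h0 : 0 < σ) (h1 : σ ≤ 1) (hlam : 0 < lam) (hc : 0 < c)
    (hε : 0 < ε) {a M c1 : ℝ} (ha : 0 < a) (hεa : ε * r ≤ lam * a / 2) (hc0 : 0 ≤ c1) (hc1 : c1 < F p s)
    (hM : M - c * r ^ 2 / 16 ≤ c1 ^ 2) {x : E} (hx : x ∈ Good K p s A1 l r a M c1) (n : ℕ) :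
    ((gm K σ p)^[n] x ∈ A1 ∧ F p ((gm K σ p)^[n] x) ≤ c1) ∨ ((gm K σ p)^[n] x ∈ S K ∧
      ‖(gm K σ p)^[n] x - s‖ ≤ r / 2 ∧ a + n * (lam * a / 2) ≤ l ((gm K σ p)^[n] x) ∧
      F p ((gm K σ p)^[n] x) ^ 2 ≤ M) := by
  induction n with
  | zero =>
    rcases hx with h | ⟨h2, h3, h4, h5⟩
    · exact Or.inl h
    · refine Or.inr ⟨h2, h3, ?_, h5⟩
      simpa using h4
  | succ n ih =>
    rw [Function.iterate_succ_apply']
    rcases ih with ⟨h2, h3⟩ | ⟨h2, h3, h4, h5⟩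
    · left
      refine ⟨cm_step hK hp hG.h1 h0.le h1 h2, ?_⟩
      exact (it_le1 hK hp h0.le h1 (cm_mem hG.h1 h2).1).trans h3
    · have hla : 0 ≤ lam * a / 2 := by positivity
      have h6 := fl_step hK hp hL hlam hc hε ha hεa hc0 hc1 hM (b := a + n * (lam * a / 2))
        (by have : (0 : ℝ) ≤ n * (lam * a / 2) := by positivity
            linarith) h2 h3 h4 h5
      rcases h6 with h6 | ⟨h6, h7, h8, h9⟩
      · exact Or.inl h6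
      · refine Or.inr ⟨h6, h7, ?_, h9⟩
        push_cast
        linarith

theorem fl_good (hK : Body K ρ R) {p s m1 m2 : E} (hp : p ∈ K) {A1 A2 : Set E} {d : ℝ}
    (hG : Glo K p s m1 m2 A1 A2 d) {σ lam c C ε r : ℝ} {l : E → ℝ} {V : ℝ × E → E} {γ : ℝ → E}
    (hL : Loc K p s A1 A2 σ lam c C ε r l V γ) (h0 : 0 < σ) (h1 : σ ≤ 1) (hlam : 0 < lam) (hc : 0 < c)
    (hε : 0 < ε) {a M c1 : ℝ} (ha : 0 < a) (hεa : ε * r ≤ lam * a / 2) (hc0 : 0 ≤ c1) (hc1 : c1 < F p s)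
    (hM : M - c * r ^ 2 / 16 ≤ c1 ^ 2) :
    ∃ N : ℕ, ∀ n ≥ N, ∀ x ∈ Good K p s A1 l r a M c1, (gm K σ p)^[n] x ∈ A1 ∧ F p ((gm K σ p)^[n] x) ≤ c1 := by
  have hla : 0 < lam * a / 2 := by positivity
  obtain ⟨N, hN⟩ := exists_nat_gt ((r / 2) / (lam * a / 2))
  refine ⟨N, fun n hn x hx => ?_⟩
  rcases fl_iter hK hp hG hL h0 h1 hlam hc hε ha hεa hc0 hc1 hM hx n with h | ⟨h2, h3, h4, h5⟩
  · exact h
  · exfalso
    rw [div_lt_iff₀ hla] at hN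
    have h6 : (N : ℝ) ≤ n := by exact_mod_cast hn
    have h7 := mul_le_mul_of_nonneg_right h6 hla.le
    have h8 := (le_abs_self (l ((gm K σ p)^[n] x))).trans (hL.l_le _)
    linarith

/-- and then near `m1` -/
theorem fl_near (hK : Body K ρ R) {p s m1 m2 : E} (hp : p ∈ K) {A1 A2 : Set E} {d : ℝ}
    (hG : Glo K p s m1 m2 A1 A2 d) {σ lam c C ε r : ℝ} {l : E → ℝ} {V : ℝ × E → E} {γ : ℝ → E}
    (hL : Loc K p s A1 A2 σ lam c C ε r l V γ) (h0 : 0 < σ) (h1 : σ ≤ 1) (hlam : 0 < lam) (hc : 0 < c)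
    (hε : 0 < ε) {a M c1 : ℝ} (ha : 0 < a) (hεa : ε * r ≤ lam * a / 2) (hc0 : 0 ≤ c1) (hc1 : c1 < F p s)
    (hM : M - c * r ^ 2 / 16 ≤ c1 ^ 2) {δ : ℝ} (hδ : 0 < δ) :
    ∃ N : ℕ, ∀ n ≥ N, ∀ x ∈ Good K p s A1 l r a M c1, ‖(gm K σ p)^[n] x - m1‖ < δ := by
  obtain ⟨N1, hN1⟩ := fl_good hK hp hG hL h0 h1 hlam hc hε ha hεa hc0 hc1 hM
  obtain ⟨N2, hN2⟩ := cm_near hK hp hG.h1 hc1 h0 h1 hG.k1 hG.min1 (fun z hz hcz => by
    have hzs := (cm_mem hG.h1 hz).2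
    rcases hG.crit z hcz (hzs.trans hG.lt) with h | h | h
    · exact h
    · rw [h] at hz
      exact (cm_disj hG.h1 hG.h2 hG.hne hz hG.k2).elim
    · rw [h] at hzs
      exact (lt_irrefl _ hzs).elim) hδ
  refine ⟨N1 + N2, fun n hn x hx => ?_⟩
  obtain ⟨k, rfl⟩ := Nat.exists_eq_add_of_le hn
  have h2 : (gm K σ p)^[N1 + N2 + k] x = (gm K σ p)^[N2 + k] ((gm K σ p)^[N1] x) := by
    rw [← Function.iterate_add_apply]
    congr 1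
    omega
  rw [h2]
  obtain ⟨h3, h4⟩ := hN1 N1 le_rfl x hx
  exact hN2 (N2 + k) (by omega) _ h3 h4

end Pool.Agent.E8N
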