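import Pool.Agent.E8N.CDefs

/-!
# E8N module C_Sw (Lemma C): symmetry

Swap the two sides: l ↦ - l, γ u ↦ γ (- u). All fields are immediate (abs_neg, ContinuousOn.comp with neg).
-/

set_option autoImplicit false

open Metric Set Filter Topology

namespace Pool.Agent.E8N

variable {E : Type*} [NormedAddCommGroup E] [InnerProductSpace ℝ E]

theorem loc_swap {K : Set E} {p s : E} {A1 A2 : Set E} {σ lam c C ε r : ℝ} {l : E → ℝ} {V : ℝ × E → E} {γ : ℝ → E}
    (h : Loc K p s A1 A2 σ lam c C ε r l V γ) :
    Loc K p s A2 A1 σ lam c C ε r (fun x => - l x) V (fun u => γ (-u)) := by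
  exact
    { hr := h.hr
      l_cont := h.l_cont.neg
      l_le := fun x => by rw [abs_neg]; exact h.l_le x
      side := fun x hx hxr hF => by
        obtain ⟨a, b, c⟩ := h.side x hx hxr hF
        rw [abs_neg]
        exact ⟨a, fun hl => c (by linarith), fun hl => b (by linarith)⟩
      near := h.near
      push := fun x hx hxr => by
        have e : - l (gm K σ p x) - (1 + lam) * (- l x) = - (l (gm K σ p x) - (1 + lam) * l x) := by ring
        rw [e, abs_neg]
        exact h.push x hx hxr
      dec := h.dec
      V_cont := h.V_cont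
      V_mem := fun u hu x hx hxr => by
        obtain ⟨a, b, c, d⟩ := h.V_mem u hu x hx hxr
        exact ⟨a, b, by rw [c], d⟩
      V_zero := h.V_zero
      V_one := fun x hx hxr => by
        rw [neg_neg]
        exact h.V_one x hx hxr
      γ_cont := by
        refine h.γ_cont.comp continuous_neg.continuousOn (fun u hu => ?_)
        exact ⟨by linarith [hu.2], by linarith [hu.1]⟩
      γ_mem := fun u hu => by
        obtain ⟨a, b, c, d⟩ := h.γ_mem (-u) (by rw [abs_neg]; exact hu)
        rw [abs_neg] at b
        exact ⟨a, b, by rw [c, neg_neg], d⟩ }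

theorem glo_swap {K : Set E} {p s m1 m2 : E} {A1 A2 : Set E} {d : ℝ} (h : Glo K p s m1 m2 A1 A2 d) :
    Glo K p s m2 m1 A2 A1 d := by
  exact
    { hs := h.hs
      h1 := h.h2
      h2 := h.h1
      hne := h.hne.symm
      cov := by rw [h.cov, union_comm]
      c1 := h.c2
      c2 := h.c1
      k1 := h.k2
      k2 := h.k1
      min1 := h.min2
      min2 := h.min1
      crit := fun z hz hzd => by
        rcases h.crit z hz hzd with h1 | h1 | h1
        · exact Or.inr (Or.inl h1)
        · exact Or.inl h1
        · exact Or.inr (Or.inr h1)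
      lt := h.lt }

end Pool.Agent.E8N
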