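import Pool.Agent.E8N.C_Ta

/-!
# E8N module C_Tb (Lemma C): the deformation D on XX

omf l a x = max 0 (min 1 (2 - |l x| / a)) ∈ [0, 1]; it is 1 for |l x| ≤ a and 0 for |l x| ≥ 2a. Df z = V (z.1 * omf z.2, z.2) if
‖z.2 - s‖ ≤ r and z.2 otherwise. For x ∈ XX with r/4 < ‖x - s‖ ≤ r: |l x| ≥ 2a (ta_ring), so omf = 0 and Df (u, x) = V (0, x) = x (V_zero).
`tb_id`: so Df (u, x) = x for x ∈ XX, r/4 < ‖x - s‖. `tb_zero`: Df (0, x) = x.
`tb_cont`: [0,1] × XX is the union of the relatively closed sets ‖x - s‖ ≤ r (V_cont composed with the continuous map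
(u, x) ↦ (u omf x, x)) and r/2 ≤ ‖x - s‖ (Df z = z.2 there).
`tb_mem`: ‖x - s‖ ≤ r/4: V_mem: Df ∈ S K, ‖Df - s‖ ≤ 2 ‖x - s‖ ≤ r/2, so F (Df) ≤ F p s + r (F is 1-Lipschitz: F p y ≤ F p s + ‖y - s‖).
Otherwise Df = x and F x ≤ c2.
`tb_mid`: |thf| < 1: ta_in, omf = 1, V_one, l x = a * thf x.
`tb_one`: thf x = 1. ‖x - s‖ ≤ r/4: a ≤ l x (ta_one), Df (1, x) = V (omf x, x) is in S K, ‖ - s‖ ≤ r/2, l = l x ≥ a,
F ^ 2 ≤ F x ^ 2 + ε (r/4)^2 ≤ c2 ^ 2 + ε r ^ 2 ≤ M (0 ≤ F x ≤ c2). r/4 < ‖x - s‖: Df = x, F x ≤ c1 and x ∈ A1: if ‖x - s‖ ≤ r then a ≤ l x so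
0 < l x and ta_ring; otherwise ta_one. `tb_neg`: the same with ta_neg, ta_far (x ∉ A1 implies x ∈ A2).
-/

set_option autoImplicit false

open Metric Set Filter Topology

namespace Pool.Agent.E8N

variable {E : Type*} [NormedAddCommGroup E] [InnerProductSpace ℝ E] [FiniteDimensional ℝ E]
variable {K : Set E} {ρ R : ℝ} {p s m1 m2 : E} {A1 A2 : Set E} {d σ lam c C ε r : ℝ} {l : E → ℝ} {V : ℝ × E → E}
  {γ : ℝ → E} {a c1 c2 M : ℝ}

omit [InnerProductSpace ℝ E] [FiniteDimensional ℝ E] in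
theorem tb_omf_mem (l : E → ℝ) (a : ℝ) (x : E) : omf l a x ∈ Icc (0 : ℝ) 1 := by
  unfold omf
  exact ⟨le_max_left _ _, max_le zero_le_one (min_le_left _ _)⟩

omit [InnerProductSpace ℝ E] [FiniteDimensional ℝ E] in
theorem tb_mul_mem {u w : ℝ} (hu : u ∈ Icc (0 : ℝ) 1) (hw : w ∈ Icc (0 : ℝ) 1) : u * w ∈ Icc (0 : ℝ) 1 :=
  ⟨mul_nonneg hu.1 hw.1, mul_le_one₀ hu.2 hw.1 hw.2⟩

theorem tb_apos (hr : 0 < r) (hC : 1 ≤ C) (ha : a = r / (8 * C)) : 0 < a := by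
  rw [ha]; positivity

theorem tb_id (hL : Loc K p s A1 A2 σ lam c C ε r l V γ) (hC : 1 ≤ C) (ha : a = r / (8 * C)) (hc1 : c1 < F p s)
    {x : E} (hx : x ∈ XX K p s r c1 c2) (h : r / 4 < ‖x - s‖) (u : ℝ) : Df s l V r a (u, x) = x := by
  unfold Df
  by_cases h2 : ‖x - s‖ ≤ r
  · have h3 := ta_ring hL hC ha hc1 hx h h2
    have hap : 0 < a := tb_apos hL.hr hC ha
    have h4 : omf l a x = 0 := by
      unfold omf
      have h5 : 2 ≤ |l x| / a := by rw [le_div_iff₀ hap]; exact h3.2.1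
      exact max_eq_left (le_trans (min_le_right _ _) (by linarith))
    simp only [h2, if_true, h4, mul_zero]
    exact hL.V_zero x hx.1 h2
  · simp only [h2, if_false]

theorem tb_cont (hL : Loc K p s A1 A2 σ lam c C ε r l V γ) (hC : 1 ≤ C) (ha : a = r / (8 * C)) (hc1 : c1 < F p s) :
    ContinuousOn (Df s l V r a) (Icc (0 : ℝ) 1 ×ˢ XX K p s r c1 c2) := by
  intro z0 hz0
  have hr := hL.hr
  have hcn : Continuous (fun z : ℝ × E => ‖z.2 - s‖) := by fun_prop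
  rcases lt_or_ge (‖z0.2 - s‖) r with h | h
  · have hop : {z : ℝ × E | ‖z.2 - s‖ < r} ∈ 𝓝 z0 := (isOpen_lt hcn continuous_const).mem_nhds h
    have hom : Continuous (omf l a) := by
      have hlc := hL.l_cont
      unfold omf
      exact continuous_const.max (continuous_const.min (continuous_const.sub (hlc.abs.div_const a)))
    have hg : ContinuousOn (fun z : ℝ × E => ((z.1 * omf l a z.2, z.2) : ℝ × E))
        ((Icc (0 : ℝ) 1 ×ˢ XX K p s r c1 c2) ∩ {z : ℝ × E | ‖z.2 - s‖ < r}) := by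
      apply Continuous.continuousOn
      exact (continuous_fst.mul (hom.comp continuous_snd)).prodMk continuous_snd
    have hmt : MapsTo (fun z : ℝ × E => ((z.1 * omf l a z.2, z.2) : ℝ × E))
        ((Icc (0 : ℝ) 1 ×ˢ XX K p s r c1 c2) ∩ {z : ℝ × E | ‖z.2 - s‖ < r})
        (Icc (0 : ℝ) 1 ×ˢ (S K ∩ closedBall s r)) := by
      rintro z ⟨⟨hz1, hz2⟩, hz3⟩
      refine ⟨tb_mul_mem hz1 (tb_omf_mem l a z.2), hz2.1, ?_⟩
      rw [mem_closedBall, dist_eq_norm]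
      exact le_of_lt hz3
    have hc := hL.V_cont.comp hg hmt
    have h5 : ContinuousWithinAt (Df s l V r a)
        ((Icc (0 : ℝ) 1 ×ˢ XX K p s r c1 c2) ∩ {z : ℝ × E | ‖z.2 - s‖ < r}) z0 := by
      refine (hc z0 ⟨hz0, h⟩).congr ?_ ?_
      · intro z hz
        have h6 : ‖z.2 - s‖ ≤ r := le_of_lt hz.2
        simp only [Df, h6, if_true, Function.comp]
      · have h6 : ‖z0.2 - s‖ ≤ r := le_of_lt h
        simp only [Df, h6, if_true, Function.comp]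
    exact (continuousWithinAt_inter hop).1 h5
  · have h4 : r / 4 < ‖z0.2 - s‖ := by linarith
    have hop : {z : ℝ × E | r / 4 < ‖z.2 - s‖} ∈ 𝓝 z0 := (isOpen_lt continuous_const hcn).mem_nhds h4
    have h5 : ContinuousWithinAt (Df s l V r a)
        ((Icc (0 : ℝ) 1 ×ˢ XX K p s r c1 c2) ∩ {z : ℝ × E | r / 4 < ‖z.2 - s‖}) z0 := by
      refine (continuous_snd.continuousWithinAt (s := (Icc (0 : ℝ) 1 ×ˢ XX K p s r c1 c2) ∩
        {z : ℝ × E | r / 4 < ‖z.2 - s‖}) (x := z0)).congr ?_ ?_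
      · rintro ⟨u, x⟩ hz
        exact tb_id hL hC ha hc1 hz.1.2 hz.2 u
      · exact tb_id hL hC ha hc1 hz0.2 h4 z0.1
    exact (continuousWithinAt_inter hop).1 h5

theorem tb_zero (hL : Loc K p s A1 A2 σ lam c C ε r l V γ) {x : E} (hx : x ∈ XX K p s r c1 c2) :
    Df s l V r a (0, x) = x := by
  unfold Df
  by_cases h2 : ‖x - s‖ ≤ r
  · simp only [h2, if_true, zero_mul]
    exact hL.V_zero x hx.1 h2
  · simp only [h2, if_false]

theorem tb_mem (hL : Loc K p s A1 A2 σ lam c C ε r l V γ) (hC : 1 ≤ C) (ha : a = r / (8 * C)) (hc1 : c1 < F p s)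
    {x : E} (hx : x ∈ XX K p s r c1 c2) {u : ℝ} (hu : u ∈ Icc (0 : ℝ) 1) :
    Df s l V r a (u, x) ∈ S K ∧ F p (Df s l V r a (u, x)) ≤ max (F p s + r) c2 := by
  have hr := hL.hr
  rcases le_or_gt (‖x - s‖) (r / 4) with h | h
  · have h2 : ‖x - s‖ ≤ r := by linarith
    have hm := hL.V_mem _ (tb_mul_mem hu (tb_omf_mem l a x)) x hx.1 h2
    have he : Df s l V r a (u, x) = V (u * omf l a x, x) := by
      simp only [Df, h2, if_true]
    rw [he]
    refine ⟨hm.1, le_trans ?_ (le_max_left _ _)⟩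
    have h3 : F p (V (u * omf l a x, x)) ≤ ‖V (u * omf l a x, x) - s‖ + ‖s - p‖ := by
      unfold F
      have : V (u * omf l a x, x) - p = (V (u * omf l a x, x) - s) + (s - p) := by abel
      rw [this]
      exact norm_add_le _ _
    have h4 : F p s = ‖s - p‖ := rfl
    rw [h4]
    linarith [hm.2.1]
  · rw [tb_id hL hC ha hc1 hx h u]
    exact ⟨hx.1, le_trans hx.2.1 (le_max_right _ _)⟩

theorem tb_mid (hL : Loc K p s A1 A2 σ lam c C ε r l V γ) (ha : 0 < a) {x : E} (hx : x ∈ XX K p s r c1 c2)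
    (h1 : -1 < thf s A1 l r a x) (h2 : thf s A1 l r a x < 1) :
    Df s l V r a (1, x) = γ (a * thf s A1 l r a x) := by
  obtain ⟨h3, h4, h5⟩ := ta_in ha h1 h2
  have h6 : omf l a x = 1 := by
    unfold omf
    have h7 : |l x| / a < 1 := by rw [div_lt_one ha]; exact h4
    rw [min_eq_left (by linarith)]
    exact max_eq_right zero_le_one
  rw [h5, mul_div_cancel₀ _ ha.ne']
  simp only [Df, h3, if_true, h6, mul_one]
  exact hL.V_one x hx.1 h3

theorem tb_near (hL : Loc K p s A1 A2 σ lam c C ε r l V γ) (hε : 0 < ε)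
    (hM : c2 ^ 2 + ε * r ^ 2 ≤ M) {x : E} (hx : x ∈ XX K p s r c1 c2) (h : ‖x - s‖ ≤ r / 4) :
    Df s l V r a (1, x) ∈ S K ∧ ‖Df s l V r a (1, x) - s‖ ≤ r / 2 ∧ l (Df s l V r a (1, x)) = l x ∧
      F p (Df s l V r a (1, x)) ^ 2 ≤ M := by
  have hr := hL.hr
  have h2 : ‖x - s‖ ≤ r := by linarith
  have hm := hL.V_mem _ (tb_mul_mem (u := 1) ⟨zero_le_one, le_rfl⟩ (tb_omf_mem l a x)) x hx.1 h2
  have he : Df s l V r a (1, x) = V (1 * omf l a x, x) := by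
    simp only [Df, h2, if_true]
  rw [he]
  refine ⟨hm.1, by linarith [hm.2.1], hm.2.2.1, le_trans hm.2.2.2 (le_trans ?_ hM)⟩
  have h3 : 0 ≤ F p x := norm_nonneg _
  have h4 : F p x ^ 2 ≤ c2 ^ 2 := pow_le_pow_left₀ h3 hx.2.1 2
  have h5 : ‖x - s‖ ^ 2 ≤ r ^ 2 := pow_le_pow_left₀ (norm_nonneg _) h2 2
  have h6 : ε * ‖x - s‖ ^ 2 ≤ ε * r ^ 2 := mul_le_mul_of_nonneg_left h5 hε.le
  linarith

theorem tb_one (hL : Loc K p s A1 A2 σ lam c C ε r l V γ) (hC : 1 ≤ C) (hε : 0 < ε) (ha : a = r / (8 * C))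
    (hc1 : c1 < F p s) (hM : c2 ^ 2 + ε * r ^ 2 ≤ M) {x : E} (hx : x ∈ XX K p s r c1 c2)
    (h : thf s A1 l r a x = 1) : Df s l V r a (1, x) ∈ Good K p s A1 l r a M c1 := by
  have hr := hL.hr
  have hap : 0 < a := tb_apos hr hC ha
  have h1 := ta_one hap h
  rcases le_or_gt (‖x - s‖) (r / 4) with h2 | h2
  · obtain ⟨k1, k2, k3, k4⟩ := tb_near (a := a) hL hε hM hx h2
    refine Or.inr ⟨k1, k2, ?_, k4⟩
    rw [k3]
    rcases h1 with h1 | h1
    · exact h1.2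
    · exfalso; linarith [h1.1]
  · rw [tb_id hL hC ha hc1 hx h2 1]
    refine Or.inl ⟨?_, ?_⟩
    · rcases h1 with h1 | h1
      · exact (ta_ring hL hC ha hc1 hx h2 h1.1).2.2.1 (lt_of_lt_of_le hap h1.2)
      · exact h1.2
    · rcases hx.2.2 with h3 | h3
      · exfalso; linarith
      · exact h3

theorem tb_neg (hG : Glo K p s m1 m2 A1 A2 d) (hL : Loc K p s A1 A2 σ lam c C ε r l V γ) (hC : 1 ≤ C) (hε : 0 < ε)
    (ha : a = r / (8 * C)) (hc1 : c1 < F p s) (hM : c2 ^ 2 + ε * r ^ 2 ≤ M) {x : E} (hx : x ∈ XX K p s r c1 c2)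
    (h : thf s A1 l r a x = -1) : Df s l V r a (1, x) ∈ Good K p s A2 (fun x => - l x) r a M c1 := by
  have hr := hL.hr
  have hap : 0 < a := tb_apos hr hC ha
  have h1 := ta_neg hap h
  rcases le_or_gt (‖x - s‖) (r / 4) with h2 | h2
  · obtain ⟨k1, k2, k3, k4⟩ := tb_near (a := a) hL hε hM hx h2
    refine Or.inr ⟨k1, k2, ?_, k4⟩
    show a ≤ - l (Df s l V r a (1, x))
    rw [k3]
    rcases h1 with h1 | h1
    · linarith [h1.2]
    · exfalso; linarith [h1.1]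
  · rw [tb_id hL hC ha hc1 hx h2 1]
    refine Or.inl ⟨?_, ?_⟩
    · rcases h1 with h1 | h1
      · exact (ta_ring hL hC ha hc1 hx h2 h1.1).2.2.2 (by linarith [h1.2])
      · rcases (ta_far hG hr hc1 hx h2).2 with h3 | h3
        · exact absurd h3 h1.2
        · exact h3
    · rcases hx.2.2 with h3 | h3
      · exfalso; linarith
      · exact h3

end Pool.Agent.E8N
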