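import Pool.Agent.E8N.C_Cm

/-!
# E8N module C_X (Lemma C): one step into XX

c0 = F p s. κ' = min κ (min ((c0 - max (F m1) (F m2)) / 2) ((d - c0) / 2)) > 0 (m1, m2 ∈ sub K p c0 by cm_mem). On
Z = {x ∈ S K, c0 - κ' ≤ F x ≤ c0 + κ', r / 8 ≤ ‖x - s‖} (compact) there is no critical point: it would have F < d, so be m1,
m2 or s (Glo.crit), but F m_i < c0 - κ' and ‖s - s‖ = 0. it_drop gives k; η = min κ' (k/2), c1 = c0 - η, c2 = c0 + η.
x ∈ S K, F x ≤ c2: if ‖x - s‖ ≤ r/8 then ‖g x - s‖ ≤ r/4 (Loc.near) and F(g x) ≤ c2 (it_le1). Otherwise if F x ≤ c1 then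
F (g x) ≤ c1; otherwise x ∈ Z and F (g x) ≤ F x - k ≤ c0 + η - k ≤ c1.
-/

set_option autoImplicit false

open Metric Set Filter Topology

namespace Pool.Agent.E8N

variable {E : Type*} [NormedAddCommGroup E] [InnerProductSpace ℝ E] [FiniteDimensional ℝ E]
variable {K : Set E} {ρ R : ℝ}

theorem xx_step (hK : Body K ρ R) {p s m1 m2 : E} (hp : p ∈ K) {A1 A2 : Set E} {d : ℝ}
    (hG : Glo K p s m1 m2 A1 A2 d) {σ r : ℝ} (h0 : 0 < σ) (h1 : σ ≤ 1) (hr : 0 < r)
    (near : ∀ x ∈ S K, ‖x - s‖ ≤ r → ‖gm K σ p x - s‖ ≤ 2 * ‖x - s‖) {κ : ℝ} (hκ : 0 < κ) :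
    ∃ c1 c2, c1 < F p s ∧ F p s < c2 ∧ F p s - κ ≤ c1 ∧ c2 ≤ F p s + κ ∧
      ∀ x ∈ Sle K p c2, gm K σ p x ∈ XX K p s r c1 c2 := by
  have hm1 : F p m1 < F p s := (cm_mem hG.h1 hG.k1).2
  have hm2 : F p m2 < F p s := (cm_mem hG.h2 hG.k2).2
  have hlt := hG.lt
  have hFc : Continuous (fun x : E => F p x) := by
    unfold F
    fun_prop
  obtain ⟨κ', hκ'0, hκ'κ, hκ'1, hκ'2, hκ'd⟩ : ∃ κ' : ℝ, 0 < κ' ∧ κ' ≤ κ ∧ F p m1 < F p s - κ' ∧ F p m2 < F p s - κ' ∧
      F p s + κ' < d := by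
    refine ⟨min κ (min (min ((F p s - F p m1) / 2) ((F p s - F p m2) / 2)) ((d - F p s) / 2)), ?_, min_le_left _ _,
      ?_, ?_, ?_⟩
    · refine lt_min hκ (lt_min (lt_min ?_ ?_) ?_) <;> linarith
    · have h : min κ (min (min ((F p s - F p m1) / 2) ((F p s - F p m2) / 2)) ((d - F p s) / 2)) ≤
          (F p s - F p m1) / 2 :=
        (min_le_right _ _).trans ((min_le_left _ _).trans (min_le_left _ _))
      linarith
    · have h : min κ (min (min ((F p s - F p m1) / 2) ((F p s - F p m2) / 2)) ((d - F p s) / 2)) ≤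
          (F p s - F p m2) / 2 :=
        (min_le_right _ _).trans ((min_le_left _ _).trans (min_le_right _ _))
      linarith
    · have h : min κ (min (min ((F p s - F p m1) / 2) ((F p s - F p m2) / 2)) ((d - F p s) / 2)) ≤
          (d - F p s) / 2 :=
        (min_le_right _ _).trans (min_le_right _ _)
      linarith
  set Z : Set E := S K ∩ {x : E | F p s - κ' ≤ F p x ∧ F p x ≤ F p s + κ' ∧ r / 8 ≤ ‖x - s‖} with hZ
  have hZc : IsCompact Z := by
    refine (S_compact hK).inter_right ?_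
    have q1 : IsClosed {x : E | F p s - κ' ≤ F p x} := isClosed_le continuous_const hFc
    have q2 : IsClosed {x : E | F p x ≤ F p s + κ'} := isClosed_le hFc continuous_const
    have q3 : IsClosed {x : E | r / 8 ≤ ‖x - s‖} := isClosed_le continuous_const (by fun_prop)
    exact q1.inter (q2.inter q3)
  have hZS : Z ⊆ S K := fun x hx => hx.1
  have hZn : ∀ x ∈ Z, x ∉ Crit K p := by
    intro x hx hxc
    have h2 := hx.2
    simp only [mem_ofPred_eq] at h2
    obtain ⟨h3, h4, h5⟩ := h2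
    rcases hG.crit x hxc (by linarith) with h | h | h
    · rw [h] at h3
      linarith
    · rw [h] at h3
      linarith
    · rw [h, sub_self, norm_zero] at h5
      linarith
  obtain ⟨k, hk, hdrop⟩ := it_drop hK hp h0 h1 hZc hZS hZn
  refine ⟨F p s - min κ' (k / 2), F p s + min κ' (k / 2), ?_, ?_, ?_, ?_, ?_⟩
  · have : 0 < min κ' (k / 2) := lt_min hκ'0 (by linarith)
    linarith
  · have : 0 < min κ' (k / 2) := lt_min hκ'0 (by linarith)
    linarith
  · have : min κ' (k / 2) ≤ κ' := min_le_left _ _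
    linarith
  · have : min κ' (k / 2) ≤ κ' := min_le_left _ _
    linarith
  · intro x hx
    obtain ⟨hxS, hxF⟩ := hx
    have hle := it_le1 hK hp h0.le h1 hxS
    have e1 : min κ' (k / 2) ≤ κ' := min_le_left _ _
    have e2 : min κ' (k / 2) ≤ k / 2 := min_le_right _ _
    refine ⟨gm_mem hK hxS, hle.trans hxF, ?_⟩
    by_cases hx8 : ‖x - s‖ ≤ r / 8
    · left
      have := near x hxS (by linarith)
      linarith
    · right
      push Not at hx8
      by_cases hc : F p x ≤ F p s - min κ' (k / 2)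
      · exact hle.trans hc
      · push Not at hc
        have hxZ : x ∈ Z := by
          refine ⟨hxS, ?_⟩
          simp only [mem_ofPred_eq]
          exact ⟨by linarith, by linarith, hx8.le⟩
        have := hdrop x hxZ
        linarith

end Pool.Agent.E8N
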