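import Pool.Agent.E8N.C_Loc
import Pool.Agent.E8N.C_Sw
import Pool.Agent.E8N.C_Fl
import Pool.Agent.E8N.C_X
import Pool.Agent.E8N.C_Tb
import Pool.Agent.E8N.C_End

/-!
# E8N module C_Nl (Lemma C): assembly near the level of the saddle

c0 = F p s. p ∈ K (interior_subset hg.1). σ, lam, c, C, l, V, γ from loc_exists. ε = min (lam / (16 C)) (c / 32); r₀ for this ε;
r = min r₀ ((t' - c0) / 2), hL : Loc ... r. a = r / (8 C), so ε r ≤ lam a / 2. κ = min (1/2) (min ((t' - c0) / 2) (c r^2 / (64 (2 c0 + 1)))).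
xx_step: c1, c2; 0 ≤ c1 (c0 ≥ 1 by one_le_F), c2 < t', c2^2 - c1^2 = (c2 - c1)(c2 + c1) ≤ 2 κ (2 c0 + 1) ≤ c r^2 / 32.
M = c2^2 + ε r^2, so M - c r^2 / 16 ≤ c1^2. X = XX K p s r c1 c2, θ = thf s A1 l r a, D = Df s l V r a, t'' = max (c0 + r) c2 < t',
U = {x ∈ S K, F < t'}. δ from end_delta (m_i ∈ A_i ⊆ sub K p c0, cm_mem; t' > c0). N = max of the two N of fl_near, one for hG, hL, the other
for glo_swap hG, loc_swap hL (same σ, lam, c, C, ε, r, a, M, c1).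
T x = (gm K σ p)^[N] (D (1, x)), β u = (gm K σ p)^[N] (γ (a u)).
(1) Hom X U id D(1,.) : H = D (tb_cont, tb_zero, tb_mem). (2) Hom X U D(1,.) T: it_hom for t'' and hom_pre (D(1,.) maps X into
Sle K p t'', Sle K p t'' ⊆ U). (3) Hom X U T (β ∘ θ): end_hom: T continuous (it_cont, D), values: it_le;
β continuous on [-1,1] (γ_cont, |a u| ≤ a ≤ r), β u ∈ S K, F (β u) ≤ F (γ (a u)) ≤ c0 < t' (γ_mem, it_le); heq: tb_mid; n1: tb_one and
fl_near; n1': γ a ∈ Good K p s A1 l r a M c1 (‖γ a - s‖ ≤ 2 a ≤ r / 2, l (γ a) = a, F(γ a)^2 ≤ c0^2 ≤ M); n2: tb_neg and fl_near for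
the swapped data; n2': γ (-a) ∈ Good K p s A2 (-l) r a M c1. (4) hom_const_param: β ∘ θ is homotopic to the constant β 0.
(5) Hom (Sle K p c2) U id g (it_hom with n = 1, hom_mono) and hom_pre with k = g = gm K σ p, which maps Sle K p c2 to X
(xx_step): Hom (Sle K p c2) U g (const). hom_trans.
-/

set_option autoImplicit false

open Metric Set Filter Topology

namespace Pool.Agent.E8N

variable {E : Type*} [NormedAddCommGroup E] [InnerProductSpace ℝ E] [FiniteDimensional ℝ E]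
variable {K : Set E} {ρ R : ℝ}

theorem nl_main (hK : Body K ρ R) {p s m1 m2 : E} (hg : Generic K p) {A1 A2 : Set E} {d : ℝ}
    (hG : Glo K p s m1 m2 A1 A2 d) {t' : ℝ} (ht' : F p s < t') :
    ∃ c2, F p s < c2 ∧ c2 < t' ∧ ∃ c₀ : E,
      Hom (Sle K p c2) {x | x ∈ S K ∧ F p x < t'} (fun x => x) (fun _ => c₀) := by
  have hp : p ∈ K := interior_subset hg.1
  have hsS : s ∈ S K := hG.hs.1
  obtain ⟨σ, lam, c, C, hσ0, hσ1, hlam, hc, hC, l, V, γ, hloc⟩ :=
    loc_exists hK hg hG.hs hG.h1 hG.h2 hG.hne hG.c1 hG.c2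
  have hc0 : 1 ≤ F p s := one_le_F hK hsS hp
  have hCpos : 0 < C := by linarith
  obtain ⟨ε, hεdef⟩ : ∃ ε, ε = min (lam / (16 * C)) (c / 32) := ⟨_, rfl⟩
  have hε0 : 0 < ε := by
    rw [hεdef]
    exact lt_min (by positivity) (by positivity)
  have hε1 : ε ≤ lam / (16 * C) := by rw [hεdef]; exact min_le_left _ _
  have hε2 : ε ≤ c / 32 := by rw [hεdef]; exact min_le_right _ _
  obtain ⟨r₀, hr₀, hloc⟩ := hloc ε hε0
  obtain ⟨r, hrdef⟩ : ∃ r, r = min r₀ ((t' - F p s) / 2) := ⟨_, rfl⟩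
  have hr : 0 < r := by
    rw [hrdef]
    exact lt_min hr₀ (by linarith)
  have hL := hloc r hr (by rw [hrdef]; exact min_le_left _ _)
  have hrt : F p s + r < t' := by
    have : r ≤ (t' - F p s) / 2 := by rw [hrdef]; exact min_le_right _ _
    linarith
  obtain ⟨a, ha⟩ : ∃ a, a = r / (8 * C) := ⟨_, rfl⟩
  have ha0 : 0 < a := by rw [ha]; positivity
  have har : 8 * a ≤ r := by
    have h1 : 8 * a = r / C := by rw [ha]; field_simp
    rw [h1]
    exact div_le_self hr.le hC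
  have hεa : ε * r ≤ lam * a / 2 := by
    have h1 : ε * r ≤ lam / (16 * C) * r := mul_le_mul_of_nonneg_right hε1 hr.le
    have h2 : lam / (16 * C) * r = lam * a / 2 := by rw [ha]; field_simp; ring
    linarith
  obtain ⟨κ, hκdef⟩ : ∃ κ, κ = min (1 / 2) (min ((t' - F p s) / 2) (c * r ^ 2 / (64 * (2 * F p s + 1)))) :=
    ⟨_, rfl⟩
  have hκ : 0 < κ := by
    rw [hκdef]
    exact lt_min (by norm_num) (lt_min (by linarith) (by positivity))
  have hκ1 : κ ≤ 1 / 2 := by rw [hκdef]; exact min_le_left _ _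
  have hκ2 : κ ≤ (t' - F p s) / 2 := by rw [hκdef]; exact (min_le_right _ _).trans (min_le_left _ _)
  have hκ3 : κ ≤ c * r ^ 2 / (64 * (2 * F p s + 1)) := by
    rw [hκdef]; exact (min_le_right _ _).trans (min_le_right _ _)
  have hκ4 : κ * (2 * F p s + 1) ≤ c * r ^ 2 / 64 := by
    have hpos : 0 < 2 * F p s + 1 := by linarith
    have h1 : κ * (2 * F p s + 1) ≤ c * r ^ 2 / (64 * (2 * F p s + 1)) * (2 * F p s + 1) :=
      mul_le_mul_of_nonneg_right hκ3 hpos.le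
    have h2 : c * r ^ 2 / (64 * (2 * F p s + 1)) * (2 * F p s + 1) = c * r ^ 2 / 64 := by
      field_simp
    linarith
  obtain ⟨c1, c2, h1, h2, h3, h4, hstep⟩ := xx_step hK hp hG hσ0 hσ1 hr hL.near hκ
  have hc1 : 0 ≤ c1 := by linarith
  have hc2t : c2 < t' := by linarith
  obtain ⟨M, hMdef⟩ : ∃ M, M = c2 ^ 2 + ε * r ^ 2 := ⟨_, rfl⟩
  have hM2 : c2 ^ 2 + ε * r ^ 2 ≤ M := hMdef.ge
  have hM : M - c * r ^ 2 / 16 ≤ c1 ^ 2 := by
    have e1 : c2 ^ 2 - c1 ^ 2 ≤ 2 * κ * (2 * F p s + 1) := by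
      have e2 : c2 ^ 2 - c1 ^ 2 = (c2 - c1) * (c2 + c1) := by ring
      rw [e2]
      have e3 : c2 - c1 ≤ 2 * κ := by linarith
      have e4 : c2 + c1 ≤ 2 * F p s + 1 := by linarith
      exact mul_le_mul e3 e4 (by linarith) (by linarith)
    have e5 : ε * r ^ 2 ≤ c / 32 * r ^ 2 := mul_le_mul_of_nonneg_right hε2 (sq_nonneg r)
    rw [hMdef]
    linarith
  have hm1 := cm_mem hG.h1 hG.k1
  have hm2 := cm_mem hG.h2 hG.k2
  obtain ⟨δ, hδ, hδ'⟩ := end_delta hK hm1.1 hm2.1 (hm1.2.trans ht') (hm2.2.trans ht')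
  obtain ⟨N1, hN1⟩ := fl_near hK hp hG hL hσ0 hσ1 hlam hc hε0 ha0 hεa hc1 h1 hM hδ
  obtain ⟨N2, hN2⟩ := fl_near hK hp (glo_swap hG) (loc_swap hL) hσ0 hσ1 hlam hc hε0 ha0 hεa hc1 h1 hM hδ
  have hn1 := hN1 (max N1 N2) (le_max_left _ _)
  have hn2 := hN2 (max N1 N2) (le_max_right _ _)
  generalize hNN : max N1 N2 = N at hn1 hn2
  have hUt : ∀ t'' < t', Sle K p t'' ⊆ {x | x ∈ S K ∧ F p x < t'} := by
    rintro t'' ht'' x ⟨hx1, hx2⟩
    exact ⟨hx1, hx2.trans_lt ht''⟩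
  -- the first homotopy
  have hDmem : ∀ u ∈ Icc (0 : ℝ) 1, ∀ x ∈ XX K p s r c1 c2, Df s l V r a (u, x) ∈ Sle K p (max (F p s + r) c2) :=
    fun u hu x hx => tb_mem hL hC ha h1 hx hu
  have ht'' : max (F p s + r) c2 < t' := max_lt hrt hc2t
  have H1 : Hom (XX K p s r c1 c2) {x | x ∈ S K ∧ F p x < t'} (fun x => x) (fun x => Df s l V r a (1, x)) :=
    ⟨Df s l V r a, tb_cont hL hC ha h1, fun x hx => tb_zero hL hx, fun x _ => rfl,
      fun u hu x hx => hUt _ ht'' (hDmem u hu x hx)⟩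
  have hDc : ContinuousOn (fun x => Df s l V r a (1, x)) (XX K p s r c1 c2) := by
    have htc := tb_cont (c2 := c2) hL hC ha h1
    refine htc.comp (f := fun x : E => ((1 : ℝ), x)) ?_ ?_
    · exact (continuous_const.prodMk continuous_id).continuousOn
    · intro x hx
      exact ⟨right_mem_Icc.2 zero_le_one, hx⟩
  have h01 : (1 : ℝ) ∈ Icc (0 : ℝ) 1 := right_mem_Icc.2 zero_le_one
  -- the second homotopy
  have H2 : Hom (XX K p s r c1 c2) {x | x ∈ S K ∧ F p x < t'} (fun x => Df s l V r a (1, x))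
      (fun x => (gm K σ p)^[N] (Df s l V r a (1, x))) :=
    hom_mono (hom_pre (it_hom hK hp hσ0.le hσ1 (max (F p s + r) c2) N) hDc (fun x hx => hDmem 1 h01 x hx))
      (hUt _ ht'')
  -- the third homotopy
  have hau : ∀ u ∈ Icc (-1 : ℝ) 1, |a * u| ≤ a := by
    rintro u ⟨hu1, hu2⟩
    rw [abs_mul, abs_of_pos ha0]
    have : |u| ≤ 1 := abs_le.2 ⟨hu1, hu2⟩
    exact mul_le_of_le_one_right ha0.le this
  have har' : a ≤ r := by linarith
  have hβc : ContinuousOn (fun u : ℝ => (gm K σ p)^[N] (γ (a * u))) (Icc (-1) 1) := by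
    refine (it_cont hK p σ N).comp_continuousOn ?_
    refine hL.γ_cont.comp (f := fun u : ℝ => a * u) (by fun_prop) ?_
    intro u hu
    exact abs_le.1 ((hau u hu).trans har')
  have hβS : ∀ u ∈ Icc (-1 : ℝ) 1, (gm K σ p)^[N] (γ (a * u)) ∈ S K ∧
      (gm K σ p)^[N] (γ (a * u)) ∈ {x | x ∈ S K ∧ F p x < t'} := by
    intro u hu
    obtain ⟨g1, g2, g3, g4⟩ := hL.γ_mem (a * u) ((hau u hu).trans har')
    have g5 := it_le hK hp hσ0.le hσ1 g1 N
    exact ⟨g5.1, g5.1, by linarith [g5.2]⟩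
  have hMs : F p s ^ 2 ≤ M := by
    have : F p s ^ 2 ≤ c2 ^ 2 := pow_le_pow_left₀ (by linarith) h2.le 2
    have h5 : 0 ≤ ε * r ^ 2 := by positivity
    linarith
  have hFn : ∀ x, 0 ≤ F p x := fun x => norm_nonneg _
  have H3 : Hom (XX K p s r c1 c2) {x | x ∈ S K ∧ F p x < t'} (fun x => (gm K σ p)^[N] (Df s l V r a (1, x)))
      (fun x => (gm K σ p)^[N] (γ (a * thf s A1 l r a x))) := by
    refine end_hom hK (T := fun x => (gm K σ p)^[N] (Df s l V r a (1, x))) (θ := thf s A1 l r a)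
      (β := fun u : ℝ => (gm K σ p)^[N] (γ (a * u))) (m1 := m1) (m2 := m2) (δ := δ) ?_ ?_ ?_ ?_ hβc hβS ?_ ?_ ?_ ?_ ?_ ?_
    · exact (it_cont hK p σ N).comp_continuousOn hDc
    · intro x hx
      have e1 := hDmem 1 h01 x hx
      have e2 := it_le hK hp hσ0.le hσ1 e1.1 N
      exact ⟨e2.1, e2.1, lt_of_le_of_lt (e2.2.trans e1.2) ht''⟩
    · exact ta_cont hK hG hL hC ha h1
    · exact fun x _ => ta_range s A1 l r a x
    · intro x hx e1 e2
      have e3 := tb_mid hL ha0 hx e1 e2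
      simp only [e3]
    · intro y hy
      obtain ⟨e1, e2, e3⟩ := hδ' y hy
      exact ⟨e1, e2, e3⟩
    · intro x hx e
      exact hn1 _ (tb_one hL hC hε0 ha h1 hM2 hx e)
    · refine hn1 _ (Or.inr ?_)
      obtain ⟨g1, g2, g3, g4⟩ := hL.γ_mem (a * 1) (by rw [mul_one, abs_of_pos ha0]; exact har')
      rw [mul_one, abs_of_pos ha0] at g2
      rw [mul_one] at g1 g3 g4 ⊢
      exact ⟨g1, by linarith, g3.ge, (pow_le_pow_left₀ (hFn _) g4 2).trans hMs⟩
    · intro x hx e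
      exact hn2 _ (tb_neg hG hL hC hε0 ha h1 hM2 hx e)
    · refine hn2 _ (Or.inr ?_)
      obtain ⟨g1, g2, g3, g4⟩ := hL.γ_mem (a * -1) (by rw [mul_neg_one, abs_neg, abs_of_pos ha0]; exact har')
      rw [mul_neg_one, abs_neg, abs_of_pos ha0] at g2
      rw [mul_neg_one] at g1 g3 g4 ⊢
      exact ⟨g1, by linarith, by simp only [g3, neg_neg, le_refl], (pow_le_pow_left₀ (hFn _) g4 2).trans hMs⟩
  -- the fourth homotopy
  have H4 : Hom (XX K p s r c1 c2) {x | x ∈ S K ∧ F p x < t'} (fun x => (gm K σ p)^[N] (γ (a * thf s A1 l r a x)))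
      (fun _ => (gm K σ p)^[N] (γ (a * 0))) :=
    hom_const_param (β := fun u : ℝ => (gm K σ p)^[N] (γ (a * u))) hβc (fun u hu => (hβS u hu).2)
      (ta_cont hK hG hL hC ha h1) (fun x _ => ta_range s A1 l r a x)
  have H := hom_trans (hom_trans (hom_trans H1 H2) H3) H4
  have hgc : Continuous (gm K σ p) := by
    have := it_cont hK p σ 1
    rwa [Function.iterate_one] at this
  have H5 := hom_pre H (hgc.continuousOn (s := Sle K p c2)) hstep
  have H6 := hom_mono (it_hom hK hp hσ0.le hσ1 c2 1) (hUt c2 hc2t)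
  rw [Function.iterate_one] at H6
  exact ⟨c2, h2, hc2t, (gm K σ p)^[N] (γ (a * 0)), hom_trans H6 H5⟩

end Pool.Agent.E8N
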