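import Pool.Agent.E8N.C_Glo
import Pool.Agent.E8N.C_Nl

/-!
# E8N module C_Null: Lemma C (section 2.9)

glo_exists (cl K p < t < t' < dl K p) gives s, m1, m2, A1, A2 with F p s = cl K p, d = dl K p. nl_main for t': c2, c₀. No critical
point has c2 ≤ F ≤ t: it would be m1, m2 or s (F ≤ t < d), which have F ≤ F p s < c2 (cm_mem). it_down with σ = 1, a = c2, b = t gives N:
(gm K 1 p)^[N] maps Sle K p t into Sle K p c2. it_hom and hom_mono (Sle K p t ⊆ U = {F < t'}): id ~ g^N in U; hom_pre applied to nl_main: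
g^N ~ const; hom_trans. Unfold Hom.
-/

set_option autoImplicit false

open Metric Set Filter Topology

namespace Pool.Agent.E8N.C_Null

variable {E : Type*} [NormedAddCommGroup E] [InnerProductSpace ℝ E] [FiniteDimensional ℝ E]
variable {K : Set E} {ρ R : ℝ}

theorem null_homotopy (hK : Body K ρ R) (h7 : AtMost7 K) (hd : 4 ≤ Module.finrank ℝ E) {p : E} (hp : p ∈ Om K)
    (hg : Generic K p) {t t' : ℝ} (h1 : cl K p < t) (h2 : t < t') (h3 : t' < dl K p) :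
    ∃ (H : ℝ × E → E) (c₀ : E), ContinuousOn H (Icc (0 : ℝ) 1 ×ˢ {x | x ∈ S K ∧ F p x ≤ t}) ∧
      (∀ x, x ∈ S K → F p x ≤ t → H (0, x) = x ∧ H (1, x) = c₀) ∧
      ∀ s ∈ Icc (0 : ℝ) 1, ∀ x, x ∈ S K → F p x ≤ t → H (s, x) ∈ S K ∧ F p (H (s, x)) < t' := by
  have hpK : p ∈ K := interior_subset hg.1
  obtain ⟨s, m1, m2, A1, A2, hs, hG⟩ := glo_exists hK h7 hd hp hg (h1.trans (h2.trans h3))
  have hst' : F p s < t' := by rw [hs]; exact h1.trans h2
  obtain ⟨c2, hc2, -, c₀, hc₀⟩ := nl_main hK hg hG hst'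
  have hcr : ∀ x ∈ Crit K p, c2 ≤ F p x → F p x ≤ t → False := by
    intro x hx hx1 hx2
    rcases hG.crit x hx (lt_of_le_of_lt hx2 (h2.trans h3)) with h | h | h
    · have := (cm_mem hG.h1 hG.k1).2
      rw [h] at hx1
      linarith
    · have := (cm_mem hG.h2 hG.k2).2
      rw [h] at hx1
      linarith
    · rw [h] at hx1
      linarith
  obtain ⟨N, hN⟩ := it_down hK hpK (σ := 1) one_pos le_rfl hcr
  have e1 : Hom (Sle K p t) {x | x ∈ S K ∧ F p x < t'} (fun x => x) ((gm K 1 p)^[N]) := by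
    refine hom_mono (it_hom hK hpK zero_le_one le_rfl t N) ?_
    intro x hx
    exact ⟨hx.1, lt_of_le_of_lt hx.2 h2⟩
  have e2 : Hom (Sle K p t) {x | x ∈ S K ∧ F p x < t'} ((gm K 1 p)^[N]) (fun _ => c₀) := by
    have := hom_pre (k := (gm K 1 p)^[N]) (X := Sle K p t) hc₀ (it_cont hK p 1 N).continuousOn (by
      intro x hx
      exact ⟨(it_le hK hpK zero_le_one le_rfl hx.1 N).1, (hN x hx.1 hx.2).le⟩)
    exact this
  obtain ⟨H, g1, g2, g3, g4⟩ := hom_trans e1 e2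
  refine ⟨H, c₀, g1, ?_, ?_⟩
  · intro x hx hxt
    exact ⟨g2 x ⟨hx, hxt⟩, g3 x ⟨hx, hxt⟩⟩
  · intro u hu x hx hxt
    exact g4 u hu x ⟨hx, hxt⟩

end Pool.Agent.E8N.C_Null
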