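import Pool.Agent.E8N.ZGm

/-!
# E8N section 0: ascending steps
-/

set_option autoImplicit false

open Metric Set Filter Topology

namespace Pool.Agent.E8N.ZGp

noncomputable section

variable {E : Type*} [NormedAddCommGroup E] [InnerProductSpace ℝ E] [FiniteDimensional ℝ E]
variable {K : Set E} {ρ R : ℝ}

open ZProj ZSurf ZRet ZGm

theorem gp_mem (hK : Body K ρ R) {s : ℝ} {p x : E} (hx : x ∈ S K) : gp K s p x ∈ S K := by
  unfold gp
  refine P1_mem hK (tangent_dist hK hx ?_).1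
  rw [real_inner_smul_left, tau_perp hx, mul_zero]

theorem gp_cont (hK : Body K ρ R) : Continuous fun z : ℝ × E × E => gp K z.1 z.2.1 z.2.2 := by
  have h1 := P1_cont hK
  have h2 := tau_cont hK
  unfold gp
  refine h1.comp ?_
  have h3 : Continuous fun z : ℝ × E × E => tau K z.2.1 z.2.2 := h2.comp continuous_snd
  fun_prop

theorem gp_zero (hK : Body K ρ R) {p x : E} (hx : x ∈ S K) : gp K 0 p x = x := by
  unfold gp
  rw [zero_smul, add_zero]
  exact P1_of_le (le_of_eq hx)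

theorem gp_inc (hK : Body K ρ R) : ∃ s₀ > 0, ∃ κ > 0, ∀ s, 0 ≤ s → s ≤ s₀ → ∀ p ∈ K, ∀ x ∈ S K,
    F p x + κ * s * ‖tau K p x‖ ^ 2 ≤ F p (gp K s p x) := by
  have hR : 0 ≤ R := by
    have h0 : (0 : E) ∈ closedBall (0 : E) R := hK.sub (hK.ball (mem_closedBall_self hK.hρ.le))
    rw [mem_closedBall, dist_self] at h0
    exact h0
  obtain ⟨M, hM⟩ : ∃ M : ℝ, M = 2 * R + 1 := ⟨_, rfl⟩
  have hM1 : 1 ≤ M := by linarith
  have hM0 : 0 < M := by linarith
  refine ⟨2 / (3 * M), by positivity, 1 / (3 * M), by positivity, ?_⟩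
  intro s hs0 hs1 p hp x hx
  have hs2 : s ≤ 1 := by
    refine hs1.trans ?_
    rw [div_le_one (by positivity)]
    linarith
  obtain ⟨T, hT⟩ : ∃ T : ℝ, T = ‖tau K p x‖ := ⟨_, rfl⟩
  have hT0 : 0 ≤ T := by rw [hT]; exact norm_nonneg _
  have hTF : T ≤ F p x := by rw [hT]; exact tau_le hx
  have hFM : F p x ≤ M := by rw [hM]; exact S_bound hK hx hp
  have hF1 := one_le_F hK hx hp
  have hw : inner ℝ (s • tau K p x) (nu K x) = 0 := by
    rw [real_inner_smul_left, tau_perp hx, mul_zero]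
  obtain ⟨h1, h2⟩ := tangent_dist hK hx hw
  have h3 : ‖s • tau K p x‖ ^ 2 = s ^ 2 * T ^ 2 := by
    rw [hT, norm_smul, mul_pow, Real.norm_eq_abs, sq_abs]
  have h3' : ‖s • tau K p x‖ = s * T := by
    rw [hT, norm_smul, Real.norm_eq_abs, abs_of_nonneg hs0]
  rw [h3] at h2
  have h4 : ‖x + s • tau K p x - gp K s p x‖ ≤ s ^ 2 * T ^ 2 / 2 := by
    unfold gp
    rw [P1_dist hK h1]
    linarith
  obtain ⟨D, hD⟩ : ∃ D : ℝ, D = ‖x + s • tau K p x - p‖ := ⟨_, rfl⟩
  have hD0 : 0 ≤ D := by rw [hD]; exact norm_nonneg _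
  have e : x + s • tau K p x - p = (x - p) + s • tau K p x := by abel
  have h5 : D ^ 2 = F p x ^ 2 + (2 * s + s ^ 2) * T ^ 2 := by
    have e2 : inner ℝ (x - p) (tau K p x) = ‖tau K p x‖ ^ 2 := by
      rw [real_inner_comm]
      exact tau_inner hx
    rw [hD, e, norm_add_sq_real, real_inner_smul_right, e2, h3, F, ← hT]
    ring
  have h6 : D ≤ 2 * M := by
    have : D ≤ ‖x - p‖ + ‖s • tau K p x‖ := by
      rw [hD, e]
      exact norm_add_le _ _
    rw [h3'] at this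
    have h7 : s * T ≤ 1 * T := by gcongr
    have h8 : ‖x - p‖ = F p x := rfl
    linarith
  have h7 : D - s ^ 2 * T ^ 2 / 2 ≤ F p (gp K s p x) := by
    have : D ≤ ‖x + s • tau K p x - gp K s p x‖ + ‖gp K s p x - p‖ := by
      rw [hD]
      exact norm_sub_le_norm_sub_add_norm_sub _ _ _
    have h8 : ‖gp K s p x - p‖ = F p (gp K s p x) := rfl
    linarith
  have h8 : 2 * s * T ^ 2 ≤ (D - F p x) * (3 * M) := by
    have h9 : (D - F p x) * (D + F p x) = (2 * s + s ^ 2) * T ^ 2 := by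
      have : (D - F p x) * (D + F p x) = D ^ 2 - F p x ^ 2 := by ring
      rw [this, h5]
      ring
    have h10 : 0 ≤ D - F p x := by
      by_contra hneg
      have h11 : (D - F p x) * (D + F p x) < 0 := mul_neg_of_neg_of_pos (not_le.mp hneg) (by linarith)
      have h12 : 0 ≤ (2 * s + s ^ 2) * T ^ 2 := by positivity
      linarith
    have h11 : (D - F p x) * (D + F p x) ≤ (D - F p x) * (3 * M) :=
      mul_le_mul_of_nonneg_left (by linarith) h10
    have h12 : 2 * s * T ^ 2 ≤ (2 * s + s ^ 2) * T ^ 2 := by nlinarith [sq_nonneg (s * T)]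
    linarith
  have h9 : s ^ 2 * T ^ 2 / 2 ≤ 1 / (3 * M) * s * T ^ 2 := by
    have h10 : s ^ 2 ≤ s * (2 / (3 * M)) := by
      rw [sq]
      gcongr
    have h11 : s ^ 2 * T ^ 2 ≤ s * (2 / (3 * M)) * T ^ 2 := by gcongr
    have h12 : s * (2 / (3 * M)) * T ^ 2 = 2 * (1 / (3 * M) * s * T ^ 2) := by ring
    linarith
  have h10 : 2 * (1 / (3 * M) * s * T ^ 2) ≤ D - F p x := by
    have h11 : 2 * (1 / (3 * M) * s * T ^ 2) = (2 * s * T ^ 2) / (3 * M) := by ring
    rw [h11, div_le_iff₀ (by positivity)]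
    exact h8
  rw [← hT]
  linarith

end

end Pool.Agent.E8N.ZGp
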