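import Pool.Agent.E8N.ZRayC
import Pool.Agent.E8N.ZGp
import Pool.Agent.E8N.AGen

/-!
# E8N: interface, section 0 (real version)
-/

set_option autoImplicit false

open Metric Set Filter Topology

namespace Pool.Agent.E8N

variable {E : Type*} [NormedAddCommGroup E] [InnerProductSpace ℝ E] [FiniteDimensional ℝ E]
variable {K : Set E} {ρ R : ℝ}

theorem P_mem (hK : Body K ρ R) (y : E) : P K y ∈ K := ZProj.P_mem hK y

theorem P_var (hK : Body K ρ R) (y : E) {w : E} (hw : w ∈ K) : inner ℝ (y - P K y) (w - P K y) ≤ 0 :=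
  ZProj.P_var hK y hw

theorem P_unique (hK : Body K ρ R) {y x : E} (hx : x ∈ K) (h : ∀ w ∈ K, inner ℝ (y - x) (w - x) ≤ 0) :
    P K y = x := ZProj.P_unique hK hx h

theorem P_firm (hK : Body K ρ R) (y z : E) : ‖P K y - P K z‖ ^ 2 ≤ inner ℝ (y - z) (P K y - P K z) :=
  ZProj.P_firm hK y z

theorem P_nonexp (hK : Body K ρ R) (y z : E) : ‖P K y - P K z‖ ≤ ‖y - z‖ := ZProj.P_nonexp hK y z

theorem P_cont (hK : Body K ρ R) : Continuous (P K) := ZProj.P_cont hK

theorem P_of_mem (hK : Body K ρ R) {y : E} (hy : y ∈ K) : P K y = y := ZProj.P_of_mem hK hy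

omit [FiniteDimensional ℝ E] in
theorem nu_norm {x : E} (hx : x ∈ S K) : ‖nu K x‖ = 1 := hx

/-- `K1 = {dist ≤ 1}` lies on one side of the tangent plane of `S K` at `x` -/
theorem side (hK : Body K ρ R) {x y : E} (hx : x ∈ S K) (hy : ‖y - P K y‖ ≤ 1) :
    inner ℝ (nu K x) (y - x) ≤ 0 := ZSurf.side hK hx hy

/-- unit balls around points of `K` are in `K1` -/
theorem ball_K1 (hK : Body K ρ R) {z y : E} (hz : z ∈ K) (hy : ‖y - z‖ ≤ 1) : ‖y - P K y‖ ≤ 1 :=
  ZSurf.ball_K1 hK hz hy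

theorem K1_convex (hK : Body K ρ R) : Convex ℝ {y : E | ‖y - P K y‖ ≤ 1} := ZSurf.K1_convex hK

theorem S_compact (hK : Body K ρ R) : IsCompact (S K) := ZSurf.S_compact hK

theorem S_bound (hK : Body K ρ R) {x p : E} (hx : x ∈ S K) (hp : p ∈ K) : F p x ≤ 2 * R + 1 :=
  ZSurf.S_bound hK hx hp

theorem one_le_F (hK : Body K ρ R) {x p : E} (hx : x ∈ S K) (hp : p ∈ K) : 1 ≤ F p x := ZSurf.one_le_F hK hx hp

omit [FiniteDimensional ℝ E] in
theorem F_lip (p q x : E) : |F p x - F q x| ≤ ‖p - q‖ := by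
  have h := abs_norm_sub_norm_le (x - p) (x - q)
  have e : x - p - (x - q) = q - p := by abel
  rw [e, norm_sub_rev q p] at h
  exact h

omit [FiniteDimensional ℝ E] in
theorem F_lip' (p x y : E) : |F p x - F p y| ≤ ‖x - y‖ := by
  have h := abs_norm_sub_norm_le (x - p) (y - p)
  have e : x - p - (y - p) = x - y := by abel
  rw [e] at h
  exact h

theorem ret_mem (hK : Body K ρ R) {y : E} (hy : y ∉ K) : ret K y ∈ S K := ZRet.ret_mem hK hy

theorem ret_of_mem (hK : Body K ρ R) {x : E} (hx : x ∈ S K) : ret K x = x := ZRet.ret_of_mem hK hx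

theorem ret_cont (hK : Body K ρ R) : ContinuousOn (ret K) Kᶜ := ZRet.ret_cont hK

theorem S_disj (hK : Body K ρ R) {x : E} (hx : x ∈ S K) : x ∉ K := ZSurf.S_disj hK hx

theorem gm_mem (hK : Body K ρ R) {s : ℝ} {p x : E} (hx : x ∈ S K) : gm K s p x ∈ S K := ZGm.gm_mem hK hx

theorem gm_cont (hK : Body K ρ R) : Continuous fun z : ℝ × E × E => gm K z.1 z.2.1 z.2.2 := ZGm.gm_cont hK

theorem gm_zero (hK : Body K ρ R) {p x : E} (hx : x ∈ S K) : gm K 0 p x = x := ZGm.gm_zero hK hx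

theorem gm_dec (hK : Body K ρ R) {s : ℝ} {p x : E} (hx : x ∈ S K) (hp : p ∈ K) (h0 : 0 ≤ s) (h1 : s ≤ 1) :
    F p (gm K s p x) ^ 2 + (2 * s - s ^ 2) * ‖tau K p x‖ ^ 2 ≤ F p x ^ 2 := ZGm.gm_dec hK hx hp h0 h1

theorem gp_mem (hK : Body K ρ R) {s : ℝ} {p x : E} (hx : x ∈ S K) : gp K s p x ∈ S K := ZGp.gp_mem hK hx

theorem gp_cont (hK : Body K ρ R) : Continuous fun z : ℝ × E × E => gp K z.1 z.2.1 z.2.2 := ZGp.gp_cont hK

theorem gp_zero (hK : Body K ρ R) {p x : E} (hx : x ∈ S K) : gp K 0 p x = x := ZGp.gp_zero hK hx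

theorem gp_inc (hK : Body K ρ R) : ∃ s₀ > 0, ∃ κ > 0, ∀ s, 0 ≤ s → s ≤ s₀ → ∀ p ∈ K, ∀ x ∈ S K,
    F p x + κ * s * ‖tau K p x‖ ^ 2 ≤ F p (gp K s p x) := ZGp.gp_inc hK

theorem tau_cont (hK : Body K ρ R) : Continuous fun z : E × E => tau K z.1 z.2 := ZGm.tau_cont hK

theorem crit_eq {p x : E} (h : x ∈ Crit K p) (hK : Body K ρ R) (hp : p ∈ K) : x - p = F p x • nu K x :=
  ZGm.crit_eq h hK hp

/-- rays from points of `K` meet `S K` exactly once -/
theorem ray (hK : Body K ρ R) {p u : E} (hp : p ∈ K) (hu : ‖u‖ = 1) :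
    ∃! x : E, x ∈ S K ∧ dir p x = u := ZRay.ray hK hp hu

/-- the point of `S K` on a ray depends continuously on everything -/
theorem ray_cont (hK : Body K ρ R) : ∃ z : E × E → E,
    ContinuousOn z (K ×ˢ sphere (0 : E) 1) ∧ ∀ p ∈ K, ∀ u ∈ sphere (0 : E) 1, z (p, u) ∈ S K ∧ dir p (z (p, u)) = u :=
  ZRayC.ray_cont hK

theorem dir_inj (hK : Body K ρ R) {p x y : E} (hp : p ∈ K) (hx : x ∈ S K) (hy : y ∈ S K) (h : dir p x = dir p y) :
    x = y := ZRay.dir_inj hK hp hx hy h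

theorem generic_dense (hK : Body K ρ R) {p : E} (hp : p ∈ interior K) {ε : ℝ} (hε : 0 < ε) :
    ∃ q, Generic K q ∧ ‖q - p‖ < ε := AGen.generic_dense hK hp hε

/-! Direct proofs without a dimension hypothesis -/

theorem api_bdd (hK : Body K ρ R) (p : E) : BddBelow (F p '' S K) ∧ BddAbove (F p '' S K) := by
  have hc : IsCompact (F p '' S K) := (S_compact hK).image (by unfold F; fun_prop)
  exact ⟨hc.bddBelow, hc.bddAbove⟩

theorem mn_cont (hK : Body K ρ R) (p q : E) : |mn K p - mn K q| ≤ ‖p - q‖ := by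
  rcases (S K).eq_empty_or_nonempty with h | h
  · simp [mn, h]
  · have key : ∀ p q : E, mn K p ≤ mn K q + ‖p - q‖ := by
      intro p q
      have h1 : mn K p - ‖p - q‖ ≤ mn K q := by
        refine le_csInf (h.image _) ?_
        rintro _ ⟨x, hx, rfl⟩
        have h2 : mn K p ≤ F p x := csInf_le (api_bdd hK p).1 ⟨x, hx, rfl⟩
        have h3 := (abs_le.1 (F_lip p q x)).2
        linarith
      linarith
    have h1 := key p q
    have h2 := key q p
    rw [norm_sub_rev q p] at h2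
    rw [abs_le]
    constructor <;> linarith

theorem mx_cont (hK : Body K ρ R) (p q : E) : |mx K p - mx K q| ≤ ‖p - q‖ := by
  rcases (S K).eq_empty_or_nonempty with h | h
  · simp [mx, h]
  · have key : ∀ p q : E, mx K p ≤ mx K q + ‖p - q‖ := by
      intro p q
      refine csSup_le (h.image _) ?_
      rintro _ ⟨x, hx, rfl⟩
      have h2 : F q x ≤ mx K q := le_csSup (api_bdd hK q).2 ⟨x, hx, rfl⟩
      have h3 := (abs_le.1 (F_lip p q x)).2
      linarith
    have h1 := key p q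
    have h2 := key q p
    rw [norm_sub_rev q p] at h2
    rw [abs_le]
    constructor <;> linarith

theorem mn_le (hK : Body K ρ R) {p x : E} (hx : x ∈ S K) : mn K p ≤ F p x :=
  csInf_le (api_bdd hK p).1 ⟨x, hx, rfl⟩

theorem le_mx (hK : Body K ρ R) {p x : E} (hx : x ∈ S K) : F p x ≤ mx K p :=
  le_csSup (api_bdd hK p).2 ⟨x, hx, rfl⟩

/-- pass levels are 1-Lipschitz for uniformly close functions -/
theorem api_pass {f g : E → ℝ} {e : ℝ} (hfg : ∀ x, |f x - g x| ≤ e) {x y : E}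
    (hx : x ∈ S K) (hy : y ∈ S K) : pass (S K) f x y ≤ pass (S K) g x y + e := by
  have he : 0 ≤ e := le_trans (abs_nonneg _) (hfg x)
  rcases {t | ∃ C ⊆ S K, IsPreconnected C ∧ x ∈ C ∧ y ∈ C ∧ ∀ z ∈ C, g z ≤ t}.eq_empty_or_nonempty with h | h
  · have h' : {t | ∃ C ⊆ S K, IsPreconnected C ∧ x ∈ C ∧ y ∈ C ∧ ∀ z ∈ C, f z ≤ t} = ∅ := by
      rw [eq_empty_iff_forall_notMem]
      rintro t ⟨C, hC, hc, hxC, hyC, hz⟩
      have : t + e ∈ {t | ∃ C ⊆ S K, IsPreconnected C ∧ x ∈ C ∧ y ∈ C ∧ ∀ z ∈ C, g z ≤ t} :=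
        ⟨C, hC, hc, hxC, hyC, fun z hzC => by
          have := hz z hzC
          have h3 := (abs_le.1 (hfg z)).1
          linarith⟩
      rw [h] at this
      exact this
    rw [pass, pass, h, h']
    linarith
  · have h1 : pass (S K) f x y - e ≤ pass (S K) g x y := by
      refine le_csInf h ?_
      rintro t ⟨C, hC, hc, hxC, hyC, hz⟩
      have : pass (S K) f x y ≤ t + e := by
        refine csInf_le ⟨f x, ?_⟩ ⟨C, hC, hc, hxC, hyC, fun z hzC => ?_⟩
        · rintro s ⟨C', _, _, hx', _, hz'⟩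
          exact hz' x hx'
        · have := hz z hzC
          have h3 := (abs_le.1 (hfg z)).2
          linarith
      linarith
    linarith

theorem api_two_open {G : E → E → ℝ} (hG : ∀ p q x, |G p x - G q x| ≤ ‖p - q‖) :
    IsOpen {p | p ∈ interior K ∧ Two (S K) (G p)} := by
  rw [Metric.isOpen_iff]
  rintro p ⟨hp, x, hx, y, hy, hs⟩
  obtain ⟨r, hr, hrb⟩ := Metric.isOpen_iff.1 isOpen_interior p hp
  have hs' : max (G p x) (G p y) < pass (S K) (G p) x y := hs
  set m := pass (S K) (G p) x y - max (G p x) (G p y) with hm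
  have hm0 : 0 < m := by rw [hm]; linarith
  refine ⟨min r (m / 3), lt_min hr (by positivity), ?_⟩
  intro q hq
  rw [Metric.mem_ball, dist_eq_norm] at hq
  have hq1 : ‖q - p‖ < r := lt_of_lt_of_le hq (min_le_left _ _)
  have hq2 : ‖q - p‖ < m / 3 := lt_of_lt_of_le hq (min_le_right _ _)
  refine ⟨hrb (by rw [Metric.mem_ball, dist_eq_norm]; exact hq1), x, hx, y, hy, ?_⟩
  have h1 : pass (S K) (G p) x y ≤ pass (S K) (G q) x y + ‖p - q‖ := api_pass (fun z => hG p q z) hx hy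
  rw [norm_sub_rev p q] at h1
  have h2 := (abs_le.1 (hG q p x)).2
  have h3 := (abs_le.1 (hG q p y)).2
  have h4 := le_max_left (G p x) (G p y)
  have h5 := le_max_right (G p x) (G p y)
  show max (G q x) (G q y) < pass (S K) (G q) x y
  rw [max_lt_iff]
  constructor <;> linarith

/-- the set where the minimum is canonical is relatively closed -/
theorem notTwo_closed (hK : Body K ρ R) : IsOpen {p | p ∈ interior K ∧ Two (S K) (F p)} :=
  api_two_open F_lip

theorem notTwo_closed' (hK : Body K ρ R) : IsOpen {p | p ∈ interior K ∧ Two (S K) (fun x => - F p x)} :=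
  api_two_open (G := fun p x => - F p x) (fun p q x => by
    have := F_lip q p x
    rw [norm_sub_rev] at this
    have e : - F p x - - F q x = F q x - F p x := by ring
    rw [e]
    exact this)

theorem Om_open (hK : Body K ρ R) : IsOpen (Om K) := by
  have : Om K = {p | p ∈ interior K ∧ Two (S K) (F p)} ∩ {p | p ∈ interior K ∧ Two (S K) (fun x => - F p x)} := by
    ext p
    constructor
    · rintro ⟨h1, h2, h3⟩
      exact ⟨⟨h1, h2⟩, ⟨h1, h3⟩⟩
    · rintro ⟨⟨h1, h2⟩, ⟨_, h3⟩⟩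
      exact ⟨h1, h2, h3⟩
  rw [this]
  exact (notTwo_closed hK).inter (notTwo_closed' hK)

end Pool.Agent.E8N
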