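import Pool.Agent.E8N.DParE
import Pool.Agent.E8N.Api0

/-!
# E8N DBrou

Brouwer for inward fields. `D` is compact convex with `0` in its interior, so `Body D ρ' R'` for suitable `ρ' > 0`, `R'`: use the metric projection `P D` and its properties `P_mem`, `P_var`, `P_cont` (Api, section 0) for `D`. Let `f y = Z (P D y) - (y - P D y)`: continuous (`ContinuousOn.comp_continuous`), `‖f y + y‖ = ‖Z (P D y) + P D y‖ ≤ C` (compactness of `D`).
`f y ≠ 0`: if `y ∈ D`, `P D y = y` (`P_of_mem`) and `f y = Z y ≠ 0`. If `y ∉ D`, `q = P D y ∈ D`, `y - q ≠ 0`, `⟪y - q, w - q⟫ ≤ 0` for `w ∈ D`, so `q ∈ frontier D` (if `q ∈ interior D`, `w = q + e • (y - q) ∈ D` for small `e > 0` gives a contradiction) and with `w = 0`: `⟪y - q, q⟫ ≥ 0`; if `f y = 0` then `Z q = y - q` and `⟪Z q, q⟫ ≥ 0`,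
contradiction to `hin`. `parityE` with `Z = ∅` gives `Odd 0`: contradiction. Dimension: `0 < finrank`; if `finrank = 0` then `E` is a subsingleton, `D` contains `0` and `Z 0 ≠ 0` is impossible.
(The theorem is named `brouwer_field'`; it is the Api statement `brouwer_field`.)
-/

set_option autoImplicit false

open Metric Set Filter Topology Pool.Agent.H84

namespace Pool.Agent.E8N

theorem brou_finrank_pos {E : Type*} [NormedAddCommGroup E] [InnerProductSpace ℝ E] [FiniteDimensional ℝ E]
    {D : Set E} (h0 : (0 : E) ∈ interior D) {Z : E → E}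
    (hne : ∀ p ∈ D, Z p ≠ 0) : 0 < Module.finrank ℝ E := by
  have h : Nontrivial E := ⟨⟨Z 0, 0, hne 0 (interior_subset h0)⟩⟩
  exact Module.finrank_pos

theorem brou_body {E : Type*} [NormedAddCommGroup E] [InnerProductSpace ℝ E] [FiniteDimensional ℝ E]
    {D : Set E} (hD : IsCompact D) (hc : Convex ℝ D) (h0 : (0 : E) ∈ interior D) :
    ∃ ρ R : ℝ, Body D ρ R := by
  rw [mem_interior_iff_mem_nhds, Metric.mem_nhds_iff] at h0
  obtain ⟨e, he, hb⟩ := h0
  obtain ⟨R, hR⟩ := hD.isBounded.subset_closedBall (0 : E)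
  refine ⟨e / 2, R, ⟨hD, hc, by positivity, ?_, hR⟩⟩
  exact (closedBall_subset_ball (by linarith)).trans hb

theorem brou_frontier {E : Type*} [NormedAddCommGroup E] [InnerProductSpace ℝ E] [FiniteDimensional ℝ E]
    {D : Set E} (hD : IsCompact D) {y q : E} (hq : q ∈ D) (hyq : y ≠ q)
    (hv : ∀ w ∈ D, inner ℝ (y - q) (w - q) ≤ 0) : q ∈ frontier D := by
  rw [hD.isClosed.frontier_eq]
  refine ⟨hq, fun hi => ?_⟩
  rw [mem_interior_iff_mem_nhds, Metric.mem_nhds_iff] at hi
  obtain ⟨e, he, hb⟩ := hi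
  have hn : 0 < ‖y - q‖ := norm_pos_iff.mpr (sub_ne_zero.mpr hyq)
  set c : ℝ := e / (2 * ‖y - q‖) with hcdef
  have hcpos : 0 < c := by positivity
  have hw : q + c • (y - q) ∈ D := by
    apply hb
    rw [Metric.mem_ball, dist_eq_norm]
    have : q + c • (y - q) - q = c • (y - q) := by abel
    rw [this, norm_smul, Real.norm_of_nonneg hcpos.le, hcdef]
    have : e / (2 * ‖y - q‖) * ‖y - q‖ = e / 2 := by field_simp
    rw [this]; linarith
  have h1 := hv _ hw
  have : q + c • (y - q) - q = c • (y - q) := by abel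
  rw [this, inner_smul_right, real_inner_self_eq_norm_sq] at h1
  have : 0 < c * ‖y - q‖ ^ 2 := by positivity
  linarith

theorem brouwer_field' {E : Type*} [NormedAddCommGroup E] [InnerProductSpace ℝ E] [FiniteDimensional ℝ E]
    {D : Set E} (hD : IsCompact D) (hc : Convex ℝ D) (h0 : (0 : E) ∈ interior D) {Z : E → E}
    (hZ : ContinuousOn Z D) (hne : ∀ p ∈ D, Z p ≠ 0) (hin : ∀ p ∈ frontier D, inner ℝ (Z p) p < 0) : False := by
  have hfr := brou_finrank_pos h0 hne
  obtain ⟨ρ, R, hB⟩ := brou_body hD hc h0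
  have hPc : Continuous (P D) := P_cont hB
  have hfc : Continuous (fun y => Z (P D y) - (y - P D y)) := by
    have h1 : Continuous (fun y => Z (P D y)) := hZ.comp_continuous hPc (fun y => P_mem hB y)
    exact h1.sub (continuous_id.sub hPc)
  obtain ⟨C, hC⟩ : ∃ C, ∀ p ∈ D, ‖Z p + p‖ ≤ C := by
    have h1 : ContinuousOn (fun p => Z p + p) D := hZ.add continuousOn_id
    obtain ⟨C, hC⟩ := hD.exists_bound_of_continuousOn h1
    exact ⟨C, hC⟩
  have hodd : Odd (∅ : Finset E).card := by
    refine parityE hfr hfc (C := C) ?_ (Z := ∅) ?_ ?_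
    · intro x
      have : Z (P D x) - (x - P D x) + x = Z (P D x) + P D x := by abel
      rw [this]
      exact hC _ (P_mem hB x)
    · intro x
      simp only [Finset.notMem_empty, iff_false]
      intro hx
      have hx' : Z (P D x) = x - P D x := sub_eq_zero.mp hx
      by_cases hxD : x ∈ D
      · rw [P_of_mem hB hxD] at hx'
        exact hne x hxD (by rw [hx']; abel)
      · have hne' : x ≠ P D x := fun h => hxD (h ▸ P_mem hB x)
        have hq : P D x ∈ frontier D := brou_frontier hD (P_mem hB x) hne' (fun w hw => P_var hB x hw)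
        have h1 := hin _ hq
        have h2 := P_var hB x (w := 0) (interior_subset h0)
        rw [zero_sub, inner_neg_right] at h2
        rw [hx'] at h1
        linarith
    · intro y hy
      simp at hy
  simp at hodd

end Pool.Agent.E8N
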