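import Pool.Agent.E8N.Api1
import Pool.Agent.E8N.DBrou
import Pool.Agent.E8N.C_Null

/-!
# E8N: interface (real version)
-/

set_option autoImplicit false

open Metric Set Filter Topology

namespace Pool.Agent.E8N

variable {E : Type*} [NormedAddCommGroup E] [InnerProductSpace ℝ E] [FiniteDimensional ℝ E]
variable {K : Set E} {ρ R : ℝ}

/-- (2.9) Lemma C -/
theorem null_homotopy (hK : Body K ρ R) (h7 : AtMost7 K) (hd : 4 ≤ Module.finrank ℝ E) {p : E} (hp : p ∈ Om K)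
    (hg : Generic K p) {t t' : ℝ} (h1 : cl K p < t) (h2 : t < t') (h3 : t' < dl K p) :
    ∃ (H : ℝ × E → E) (c₀ : E), ContinuousOn H (Icc (0 : ℝ) 1 ×ˢ {x | x ∈ S K ∧ F p x ≤ t}) ∧
      (∀ x, x ∈ S K → F p x ≤ t → H (0, x) = x ∧ H (1, x) = c₀) ∧
      ∀ s ∈ Icc (0 : ℝ) 1, ∀ x, x ∈ S K → F p x ≤ t → H (s, x) ∈ S K ∧ F p (H (s, x)) < t' :=
  C_Null.null_homotopy hK h7 hd hp hg h1 h2 h3

/-! ## Section 7 -/

theorem brouwer_field {D : Set E} (hD : IsCompact D) (hc : Convex ℝ D) (h0 : (0 : E) ∈ interior D) {Z : E → E}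
    (hZ : ContinuousOn Z D) (hne : ∀ p ∈ D, Z p ≠ 0) (hin : ∀ p ∈ frontier D, inner ℝ (Z p) p < 0) : False :=
  brouwer_field' hD hc h0 hZ hne hin

end Pool.Agent.E8N
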