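import Pool.Agent.E8N.CDefs

/-!
# E8N Lemma C: the function θ and the deformation D
-/

set_option autoImplicit false

open Metric Set Filter Topology

namespace Pool.Agent.E8N

noncomputable section

variable {E : Type*} [NormedAddCommGroup E] [InnerProductSpace ℝ E]

open Classical in
/-- position with respect to the saddle: `+1` on the side of `A1`, `-1` on the side of `A2` -/
def thf (s : E) (A1 : Set E) (l : E → ℝ) (r a : ℝ) (x : E) : ℝ :=
  if ‖x - s‖ ≤ r then max (-1) (min 1 (l x / a)) else if x ∈ A1 then 1 else -1

/-- cut-off function of the unstable coordinate -/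
def omf (l : E → ℝ) (a : ℝ) (x : E) : ℝ := max 0 (min 1 (2 - |l x| / a))

open Classical in
/-- deformation: contracts the stable part where the unstable coordinate is small -/
def Df (s : E) (l : E → ℝ) (V : ℝ × E → E) (r a : ℝ) (z : ℝ × E) : E :=
  if ‖z.2 - s‖ ≤ r then V (z.1 * omf l a z.2, z.2) else z.2

end

end Pool.Agent.E8N
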