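import Pool.Agent.E8N.Defs

/-!
# E8N Lemma C (section 2.9): definitions
-/

set_option autoImplicit false

open Metric Set Filter Topology

namespace Pool.Agent.E8N

noncomputable section

variable {E : Type*} [NormedAddCommGroup E] [InnerProductSpace ℝ E]

/-- homotopy from `f` to `g` on `X` inside `U` -/
def Hom (X U : Set E) (f g : E → E) : Prop :=
  ∃ H : ℝ × E → E, ContinuousOn H (Icc (0 : ℝ) 1 ×ˢ X) ∧ (∀ x ∈ X, H (0, x) = f x) ∧ (∀ x ∈ X, H (1, x) = g x) ∧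
    ∀ u ∈ Icc (0 : ℝ) 1, ∀ x ∈ X, H (u, x) ∈ U

/-- closed sublevel set -/
def Sle (K : Set E) (p : E) (t : ℝ) : Set E := {x | x ∈ S K ∧ F p x ≤ t}

/-- local data near the saddle `s`: `l` is the unstable coordinate, `σ` the time of the step, `V (u, x)` contracts
the stable coordinates by the factor `1 - u`, `γ` is the unstable curve -/
structure Loc (K : Set E) (p s : E) (A1 A2 : Set E) (σ lam c C ε r : ℝ) (l : E → ℝ) (V : ℝ × E → E) (γ : ℝ → E) :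
    Prop where
  hr : 0 < r
  l_cont : Continuous l
  l_le : ∀ x, |l x| ≤ ‖x - s‖
  side : ∀ x ∈ S K, ‖x - s‖ ≤ r → F p x < F p s →
    ‖x - s‖ ≤ C * |l x| ∧ (0 < l x → x ∈ A1) ∧ (l x < 0 → x ∈ A2)
  near : ∀ x ∈ S K, ‖x - s‖ ≤ r → ‖gm K σ p x - s‖ ≤ 2 * ‖x - s‖
  push : ∀ x ∈ S K, ‖x - s‖ ≤ r → |l (gm K σ p x) - (1 + lam) * l x| ≤ ε * ‖x - s‖
  dec : ∀ x ∈ S K, ‖x - s‖ ≤ r → F p (gm K σ p x) ^ 2 + c * ‖x - s‖ ^ 2 ≤ F p x ^ 2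
  V_cont : ContinuousOn V (Icc (0 : ℝ) 1 ×ˢ (S K ∩ closedBall s r))
  V_mem : ∀ u ∈ Icc (0 : ℝ) 1, ∀ x ∈ S K, ‖x - s‖ ≤ r → V (u, x) ∈ S K ∧ ‖V (u, x) - s‖ ≤ 2 * ‖x - s‖ ∧
    l (V (u, x)) = l x ∧ F p (V (u, x)) ^ 2 ≤ F p x ^ 2 + ε * ‖x - s‖ ^ 2
  V_zero : ∀ x ∈ S K, ‖x - s‖ ≤ r → V (0, x) = x
  V_one : ∀ x ∈ S K, ‖x - s‖ ≤ r → V (1, x) = γ (l x)
  γ_cont : ContinuousOn γ (Icc (-r) r)
  γ_mem : ∀ u, |u| ≤ r → γ u ∈ S K ∧ ‖γ u - s‖ ≤ 2 * |u| ∧ l (γ u) = u ∧ F p (γ u) ≤ F p s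

/-- global data: below the level `d` the only critical points are the two minima `m1, m2` and the saddle `s`;
`A1, A2` are the two components of `{F < F(s)}` -/
structure Glo (K : Set E) (p s m1 m2 : E) (A1 A2 : Set E) (d : ℝ) : Prop where
  hs : s ∈ Crit K p
  h1 : IsComp (sub K p (F p s)) A1
  h2 : IsComp (sub K p (F p s)) A2
  hne : A1 ≠ A2
  cov : sub K p (F p s) = A1 ∪ A2
  c1 : s ∈ closure A1
  c2 : s ∈ closure A2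
  k1 : m1 ∈ A1
  k2 : m2 ∈ A2
  min1 : ∀ z ∈ A1, z ≠ m1 → F p m1 < F p z
  min2 : ∀ z ∈ A2, z ≠ m2 → F p m2 < F p z
  crit : ∀ z ∈ Crit K p, F p z < d → z = m1 ∨ z = m2 ∨ z = s
  lt : F p s < d

/-- points which flow into `A1`: already there below the level `c1`, or near the saddle with unstable coordinate at
least `a` and `F ^ 2 ≤ M` -/
def Good (K : Set E) (p s : E) (A1 : Set E) (l : E → ℝ) (r a M c1 : ℝ) : Set E :=
  {x | (x ∈ A1 ∧ F p x ≤ c1) ∨ (x ∈ S K ∧ ‖x - s‖ ≤ r / 2 ∧ a ≤ l x ∧ F p x ^ 2 ≤ M)}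

/-- the domain of the last part of the deformation -/
def XX (K : Set E) (p s : E) (r c1 c2 : ℝ) : Set E :=
  {x | x ∈ S K ∧ F p x ≤ c2 ∧ (‖x - s‖ ≤ r / 4 ∨ F p x ≤ c1)}

end

end Pool.Agent.E8N
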