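import Pool.Agent.E8N.LTouch

/-!
# E8N (2.5): passes (interface for sections 2.7, 2.8, 2.9)
-/

set_option autoImplicit false

open Metric Set Filter Topology

namespace Pool.Agent.E8N.LPass

noncomputable section

variable {E : Type*} [NormedAddCommGroup E] [InnerProductSpace ℝ E] [FiniteDimensional ℝ E]
variable {K : Set E} {ρ R : ℝ}

open ZProj ZSurf ZGm AFib ALin AExp AChi APsi AQ AChart LSplit LPath LConn LTouch Asymptotics

theorem lpass_fin1 {V : Type*} [NormedAddCommGroup V] [InnerProductSpace ℝ V] {U : Submodule ℝ V}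
    (h : Module.finrank ℝ U = 1) : ∃ e : V, ‖e‖ = 1 ∧ U = Submodule.span ℝ {e} := by
  obtain ⟨v, hv0, hv⟩ := finrank_eq_one_iff'.1 h
  have hv1 : (v : V) ≠ 0 := fun h0 => hv0 (Subtype.ext h0)
  have hn : ‖(v : V)‖ ≠ 0 := norm_ne_zero_iff.2 hv1
  refine ⟨‖(v : V)‖⁻¹ • (v : V), ?_, ?_⟩
  · rw [norm_smul, norm_inv, norm_norm, inv_mul_cancel₀ hn]
  · apply le_antisymm
    · intro u hu
      obtain ⟨c, hc⟩ := hv ⟨u, hu⟩
      have hc' : c • (v : V) = u := congrArg Subtype.val hc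
      rw [Submodule.mem_span_singleton]
      refine ⟨c * ‖(v : V)‖, ?_⟩
      rw [smul_smul, mul_assoc, mul_inv_cancel₀ hn, mul_one, hc']
    · rw [Submodule.span_singleton_le_iff_mem]
      exact U.smul_mem _ v.2

/-- separation of two sets of chart points -/
def lpassSep {V : Type*} [NormedAddCommGroup V] (δ : ℝ) (q : V → ℝ) (X Y : Set V) : Prop :=
  ∀ A ⊆ ball (0 : V) δ ∩ {z | q z < 0}, IsPreconnected A → ∀ w ∈ A, ∀ v ∈ A, w ∈ X → v ∈ Y → False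

theorem lpass_idx {V : Type*} [NormedAddCommGroup V] [InnerProductSpace ℝ V] [FiniteDimensional ℝ V] {δ : ℝ}
    {q : V → ℝ} {H : V →L[ℝ] V} (h : QLoc δ q H)
    (symm : ∀ v w, inner ℝ (H v) w = inner ℝ v (H w)) {U : Submodule ℝ V} {lam : ℝ} (hU : Split H U lam)
    {X Y : Set V} (hX : ∀ η > 0, ∃ w, ‖w‖ < η ∧ q w < 0 ∧ w ∈ X) (hY : ∀ η > 0, ∃ w, ‖w‖ < η ∧ q w < 0 ∧ w ∈ Y)
    (hs : lpassSep δ q X Y) : Module.finrank ℝ U = 1 := by
  by_contra hne
  rcases Nat.lt_or_ge (Module.finrank ℝ U) 1 with h1 | h1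
  · have h0 : U = ⊥ := Submodule.finrank_eq_zero.1 (by omega)
    subst h0
    obtain ⟨η, hη, hc⟩ := conn0 h symm hU
    obtain ⟨w, hw, hq, -⟩ := hX η hη
    exact absurd hq (not_lt.2 (hc w hw))
  · have h2 : 2 ≤ Module.finrank ℝ U := by omega
    obtain ⟨η, hη, hηδ, hc⟩ := conn2 h symm hU h2
    obtain ⟨w, hw, hqw, hwX⟩ := hX η hη
    obtain ⟨v, hv, hqv, hvY⟩ := hY η hη
    obtain ⟨A, hA, hAc, hwA, hvA⟩ := hc w hw hqw v hv hqv
    exact hs A (fun z hz => ⟨ball_subset_ball hηδ (hA hz).1, (hA hz).2⟩) hAc w hwA v hvA hwX hvY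

theorem lpass_ne {V : Type*} [NormedAddCommGroup V] [InnerProductSpace ℝ V] {δ : ℝ}
    {q : V → ℝ} {H : V →L[ℝ] V} (h : QLoc δ q H) {w e : V} {C : ℝ} (hq : q w < 0)
    (hw : ‖w‖ ≤ C * |inner ℝ w e|) : (inner ℝ w e : ℝ) ≠ 0 := by
  intro h0
  rw [h0, abs_zero, mul_zero] at hw
  have hw0 : w = 0 := norm_eq_zero.1 (le_antisymm hw (norm_nonneg _))
  rw [hw0, h.zero] at hq
  exact lt_irrefl _ hq

theorem lpass_three {V : Type*} [NormedAddCommGroup V] [InnerProductSpace ℝ V] [FiniteDimensional ℝ V] {δ : ℝ}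
    {q : V → ℝ} {H : V →L[ℝ] V} (h : QLoc δ q H)
    (symm : ∀ v w, inner ℝ (H v) w = inner ℝ v (H w)) {U : Submodule ℝ V} {lam : ℝ} (hU : Split H U lam)
    {X Y Z : Set V} (hX : ∀ η > 0, ∃ w, ‖w‖ < η ∧ q w < 0 ∧ w ∈ X) (hY : ∀ η > 0, ∃ w, ‖w‖ < η ∧ q w < 0 ∧ w ∈ Y)
    (hZ : ∀ η > 0, ∃ w, ‖w‖ < η ∧ q w < 0 ∧ w ∈ Z)
    (h1 : lpassSep δ q X Y) (h2 : lpassSep δ q X Z) (h3 : lpassSep δ q Y Z) : False := by
  obtain ⟨e, he, hUe⟩ := lpass_fin1 (lpass_idx h symm hU hX hY h1)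
  obtain ⟨η, hη, hηδ, C, hC, hc⟩ := conn1 h symm hU he hUe
  obtain ⟨x, hx, hqx, hxX⟩ := hX η hη
  obtain ⟨y, hy, hqy, hyY⟩ := hY η hη
  obtain ⟨z, hz, hqz, hzZ⟩ := hZ η hη
  obtain ⟨nx, cx⟩ := hc x hx hqx
  obtain ⟨ny, cy⟩ := hc y hy hqy
  obtain ⟨nz, -⟩ := hc z hz hqz
  have ex := lpass_ne h hqx nx
  have ey := lpass_ne h hqy ny
  have ez := lpass_ne h hqz nz
  have a1 : ¬ 0 < (inner ℝ x e : ℝ) * inner ℝ y e := by
    intro hp
    obtain ⟨A, hA, hAc, hwA, hvA⟩ := cx y hy hqy hp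
    exact h1 A (fun z hz => ⟨ball_subset_ball hηδ (hA hz).1, (hA hz).2⟩) hAc x hwA y hvA hxX hyY
  have a2 : ¬ 0 < (inner ℝ x e : ℝ) * inner ℝ z e := by
    intro hp
    obtain ⟨A, hA, hAc, hwA, hvA⟩ := cx z hz hqz hp
    exact h2 A (fun z hz => ⟨ball_subset_ball hηδ (hA hz).1, (hA hz).2⟩) hAc x hwA z hvA hxX hzZ
  have a3 : ¬ 0 < (inner ℝ y e : ℝ) * inner ℝ z e := by
    intro hp
    obtain ⟨A, hA, hAc, hwA, hvA⟩ := cy z hz hqz hp
    exact h3 A (fun z hz => ⟨ball_subset_ball hηδ (hA hz).1, (hA hz).2⟩) hAc y hwA z hvA hyY hzZ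
  rcases lt_or_gt_of_ne ex with b1 | b1 <;> rcases lt_or_gt_of_ne ey with b2 | b2 <;>
    rcases lt_or_gt_of_ne ez with b3 | b3
  · exact a1 (mul_pos_of_neg_of_neg b1 b2)
  · exact a1 (mul_pos_of_neg_of_neg b1 b2)
  · exact a2 (mul_pos_of_neg_of_neg b1 b3)
  · exact a3 (mul_pos b2 b3)
  · exact a3 (mul_pos_of_neg_of_neg b2 b3)
  · exact a2 (mul_pos b1 b3)
  · exact a1 (mul_pos b1 b2)
  · exact a1 (mul_pos b1 b2)

theorem lpass_sepL (hK : Body K ρ R) {p s : E} {δ : ℝ} {psi : Tg K s → ℝ} {H : Tg K s →L[ℝ] Tg K s} (hs : s ∈ S K)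
    (hC : Chart K p s δ psi H) {A1 A2 : Set E} (h1 : IsComp (sub K p (F p s)) A1)
    (h2 : IsComp (sub K p (F p s)) A2) (hne : A1 ≠ A2) :
    lpassSep δ (qf K p s psi) {w | chi K s psi w ∈ A1} {w | chi K s psi w ∈ A2} :=
  fun _ hA hAc _ hw _ hv hw1 hv2 => hne (same_lower hK hs hC hAc hA h1 h2 hw hv hw1 hv2)

theorem lpass_sepU (hK : Body K ρ R) {p s : E} {δ : ℝ} {psi : Tg K s → ℝ} {H : Tg K s →L[ℝ] Tg K s} (hs : s ∈ S K)
    (hC : Chart K p s δ psi H) {A1 A2 : Set E} (h1 : IsComp (sup K p (F p s)) A1)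
    (h2 : IsComp (sup K p (F p s)) A2) (hne : A1 ≠ A2) :
    lpassSep δ (fun w => - qf K p s psi w) {w | chi K s psi w ∈ A1} {w | chi K s psi w ∈ A2} :=
  fun _ hA hAc _ hw _ hv hw1 hv2 => hne (same_upper hK hs hC hAc hA h1 h2 hw hv hw1 hv2)

theorem lpass_negsymm {p s : E} {δ : ℝ} {psi : Tg K s → ℝ} {H : Tg K s →L[ℝ] Tg K s}
    (hC : Chart K p s δ psi H) : ∀ v w, inner ℝ ((-H) v) w = inner ℝ v ((-H) w) := by
  intro v w
  change inner ℝ (-(H v)) w = inner ℝ v (-(H w))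
  rw [inner_neg_left, inner_neg_right, hC.symm]

theorem lpass_mono {p s : E} {δ η : ℝ} {psi : Tg K s → ℝ} {H : Tg K s →L[ℝ] Tg K s}
    (hC : Chart K p s δ psi H) (hη : 0 < η) (hηδ : η ≤ δ) : Chart K p s η psi H where
  pos := hη
  cont := hC.cont.mono (ball_subset_ball hηδ)
  bd := fun w hw => hC.bd w (ball_subset_ball hηδ hw)
  mem := fun w hw => hC.mem w (ball_subset_ball hηδ hw)
  surj := fun x hx hn => hC.surj x hx (lt_of_lt_of_le hn hηδ)
  symm := hC.symm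
  inj := hC.inj
  grad := by
    obtain ⟨G, h1, h2⟩ := hC.grad
    exact ⟨G, fun w hw => h1 w (ball_subset_ball hηδ hw), h2⟩
  tau := hC.tau

theorem lpass_dim {s : E} (hs : s ∈ S K) : Module.finrank ℝ (Tg K s) + 1 = Module.finrank ℝ E := by
  have h1 := Submodule.finrank_add_finrank_orthogonal (Submodule.span ℝ {nu K s})
  have hn : nu K s ≠ 0 := by
    intro h0
    have := nu_norm hs
    rw [h0, norm_zero] at this
    exact zero_ne_one this
  rw [finrank_span_singleton hn] at h1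
  have h2 : Module.finrank ℝ (Tg K s) = Module.finrank ℝ ((Submodule.span ℝ {nu K s})ᗮ : Submodule ℝ E) := rfl
  rw [h2, add_comm]
  exact h1

/-- a lower pass has index one -/
theorem lower_index (hK : Body K ρ R) {p s : E} {δ : ℝ} {psi : Tg K s → ℝ} {H : Tg K s →L[ℝ] Tg K s} (hs : s ∈ S K)
    (hC : Chart K p s δ psi H) {A1 A2 : Set E} (h1 : IsComp (sub K p (F p s)) A1)
    (h2 : IsComp (sub K p (F p s)) A2) (hne : A1 ≠ A2) (c1 : s ∈ closure A1) (c2 : s ∈ closure A2)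
    {U : Submodule ℝ (Tg K s)} {lam : ℝ} (hU : Split H U lam) : Module.finrank ℝ U = 1 :=
  lpass_idx (qloc hs hC) hC.symm hU (fun _ hη => close_lower hs hC h1 c1 hη)
    (fun _ hη => close_lower hs hC h2 c2 hη) (lpass_sepL hK hs hC h1 h2 hne)

/-- an upper pass has coindex one -/
theorem upper_index (hK : Body K ρ R) {p s : E} {δ : ℝ} {psi : Tg K s → ℝ} {H : Tg K s →L[ℝ] Tg K s} (hs : s ∈ S K)
    (hC : Chart K p s δ psi H) {A1 A2 : Set E} (h1 : IsComp (sup K p (F p s)) A1)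
    (h2 : IsComp (sup K p (F p s)) A2) (hne : A1 ≠ A2) (c1 : s ∈ closure A1) (c2 : s ∈ closure A2)
    {U : Submodule ℝ (Tg K s)} {lam : ℝ} (hU : Split H U lam) : Module.finrank ℝ Uᗮ = 1 :=
  lpass_idx (qloc hs hC).neg (lpass_negsymm hC) (split_neg hU) (fun _ hη => close_upper hs hC h1 c1 hη)
    (fun _ hη => close_upper hs hC h2 c2 hη) (lpass_sepU hK hs hC h1 h2 hne)

/-- a lower pass touches exactly two components -/
theorem lower_two (hK : Body K ρ R) {p s : E} (hg : Generic K p) (hs : s ∈ Crit K p) {A1 A2 A3 : Set E}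
    (h1 : IsComp (sub K p (F p s)) A1) (h2 : IsComp (sub K p (F p s)) A2) (h3 : IsComp (sub K p (F p s)) A3)
    (hne : A1 ≠ A2) (c1 : s ∈ closure A1) (c2 : s ∈ closure A2) (c3 : s ∈ closure A3) : A3 = A1 ∨ A3 = A2 := by
  by_contra hcon
  obtain ⟨hn1, hn2⟩ := not_or.1 hcon
  obtain ⟨δ, psi, H, hC⟩ := chart hK hg hs
  obtain ⟨U, lam, hU⟩ := split_exists H hC.symm hC.inj
  exact lpass_three (qloc hs.1 hC) hC.symm hU (fun _ hη => close_lower hs.1 hC h1 c1 hη)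
    (fun _ hη => close_lower hs.1 hC h2 c2 hη) (fun _ hη => close_lower hs.1 hC h3 c3 hη)
    (lpass_sepL hK hs.1 hC h1 h2 hne) (lpass_sepL hK hs.1 hC h1 h3 (Ne.symm hn1))
    (lpass_sepL hK hs.1 hC h2 h3 (Ne.symm hn2))

theorem upper_two (hK : Body K ρ R) {p s : E} (hg : Generic K p) (hs : s ∈ Crit K p) {A1 A2 A3 : Set E}
    (h1 : IsComp (sup K p (F p s)) A1) (h2 : IsComp (sup K p (F p s)) A2) (h3 : IsComp (sup K p (F p s)) A3)
    (hne : A1 ≠ A2) (c1 : s ∈ closure A1) (c2 : s ∈ closure A2) (c3 : s ∈ closure A3) : A3 = A1 ∨ A3 = A2 := by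
  by_contra hcon
  obtain ⟨hn1, hn2⟩ := not_or.1 hcon
  obtain ⟨δ, psi, H, hC⟩ := chart hK hg hs
  obtain ⟨U, lam, hU⟩ := split_exists H hC.symm hC.inj
  exact lpass_three (qloc hs.1 hC).neg (lpass_negsymm hC) (split_neg hU)
    (fun _ hη => close_upper hs.1 hC h1 c1 hη)
    (fun _ hη => close_upper hs.1 hC h2 c2 hη) (fun _ hη => close_upper hs.1 hC h3 c3 hη)
    (lpass_sepU hK hs.1 hC h1 h2 hne) (lpass_sepU hK hs.1 hC h1 h3 (Ne.symm hn1))
    (lpass_sepU hK hs.1 hC h2 h3 (Ne.symm hn2))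

/-- a critical point is not both a lower and an upper pass -/
theorem not_both (hK : Body K ρ R) (hd : 4 ≤ Module.finrank ℝ E) {p s : E} (hg : Generic K p) (hs : s ∈ Crit K p)
    {A1 A2 B1 B2 : Set E} (h1 : IsComp (sub K p (F p s)) A1) (h2 : IsComp (sub K p (F p s)) A2) (hne : A1 ≠ A2)
    (c1 : s ∈ closure A1) (c2 : s ∈ closure A2) (k1 : IsComp (sup K p (F p s)) B1)
    (k2 : IsComp (sup K p (F p s)) B2) (kne : B1 ≠ B2) (d1 : s ∈ closure B1) (d2 : s ∈ closure B2) : False := by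
  obtain ⟨δ, psi, H, hC⟩ := chart hK hg hs
  obtain ⟨U, lam, hU⟩ := split_exists H hC.symm hC.inj
  have e1 := lower_index hK hs.1 hC h1 h2 hne c1 c2 hU
  have e2 := upper_index hK hs.1 hC k1 k2 kne d1 d2 hU
  have e3 := Submodule.finrank_add_finrank_orthogonal U
  have e4 := lpass_dim (K := K) hs.1
  rw [e1, e2] at e3
  omega

/-- the saddle chart at a lower pass -/
theorem saddle (hK : Body K ρ R) {p s : E} (hg : Generic K p) (hs : s ∈ Crit K p) {A1 A2 : Set E}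
    (h1 : IsComp (sub K p (F p s)) A1) (h2 : IsComp (sub K p (F p s)) A2) (hne : A1 ≠ A2)
    (c1 : s ∈ closure A1) (c2 : s ∈ closure A2) :
    ∃ δ psi H, Chart K p s δ psi H ∧ ∃ (e : Tg K s) (lam mu : ℝ), ‖e‖ = 1 ∧ 0 < lam ∧ 0 < mu ∧
      H e = - (lam • e) ∧ (∀ w, inner ℝ w e = 0 → mu * ‖w‖ ^ 2 ≤ inner ℝ (H w) w) ∧
      ∃ C > 0, ∀ w : Tg K s, ‖w‖ < δ → qf K p s psi w < 0 → ‖w‖ ≤ C * |inner ℝ w e| ∧
        (0 < inner ℝ w e → chi K s psi w ∈ A1) ∧ (inner ℝ w e < 0 → chi K s psi w ∈ A2) := by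
  obtain ⟨δ, psi, H, hC⟩ := chart hK hg hs
  obtain ⟨U, lam, hU⟩ := split_exists H hC.symm hC.inj
  have hq := qloc (p := p) hs.1 hC
  obtain ⟨e0, he0, hUe0⟩ := lpass_fin1 (lower_index hK hs.1 hC h1 h2 hne c1 c2 hU)
  obtain ⟨η, hη, hηδ, C, hCp, hc⟩ := conn1 hq hC.symm hU he0 hUe0
  obtain ⟨x, hx, hqx, hxX⟩ := close_lower hs.1 hC h1 c1 hη
  obtain ⟨y, hy, hqy, hyY⟩ := close_lower hs.1 hC h2 c2 hη
  obtain ⟨nx, cx⟩ := hc x hx hqx
  obtain ⟨ny, cy⟩ := hc y hy hqy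
  have ex := lpass_ne hq hqx nx
  have ey := lpass_ne hq hqy ny
  have a1 : ¬ 0 < (inner ℝ x e0 : ℝ) * inner ℝ y e0 := by
    intro hp
    obtain ⟨A, hA, hAc, hwA, hvA⟩ := cx y hy hqy hp
    exact lpass_sepL hK hs.1 hC h1 h2 hne A (fun z hz => ⟨ball_subset_ball hηδ (hA hz).1, (hA hz).2⟩) hAc
      x hwA y hvA hxX hyY
  -- membership in the component of a chart point
  have key : ∀ {A1 : Set E}, IsComp (sub K p (F p s)) A1 → ∀ x : Tg K s, chi K s psi x ∈ A1 → ‖x‖ < η →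
      qf K p s psi x < 0 → ∀ w : Tg K s, ‖w‖ < η → qf K p s psi w < 0 →
      0 < (inner ℝ x e0 : ℝ) * inner ℝ w e0 → chi K s psi w ∈ A1 := by
    intro A1 h1 x hxX hx hqx w hw hqw hp
    obtain ⟨-, cx⟩ := hc x hx hqx
    obtain ⟨A, hA, hAc, hxA, hwA⟩ := cx w hw hqw hp
    have hmem : chi K s psi w ∈ sub K p (F p s) := by
      refine ⟨hC.mem w (mem_ball_zero_iff.2 (lt_of_lt_of_le hw hηδ)), ?_⟩
      have h5 : F p (chi K s psi w) ^ 2 < F p s ^ 2 := by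
        have := hqw
        unfold qf at this
        linarith
      exact lt_of_pow_lt_pow_left₀ 2 (norm_nonneg _) h5
    have h6 : IsComp (sub K p (F p s)) (connectedComponentIn (sub K p (F p s)) (chi K s psi w)) :=
      ⟨_, hmem, rfl⟩
    have h7 := same_lower hK hs.1 hC hAc (fun z hz => ⟨ball_subset_ball hηδ (hA hz).1, (hA hz).2⟩) h1 h6 hxA hwA
      hxX (mem_connectedComponentIn hmem)
    rw [h7]
    exact mem_connectedComponentIn hmem
  -- the operator on the negative line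
  have heU : e0 ∈ U := by rw [hUe0]; exact Submodule.mem_span_singleton_self e0
  have hHe : H e0 ∈ Submodule.span ℝ {e0} := by rw [← hUe0]; exact hU.inv e0 heU
  obtain ⟨c, hce⟩ := Submodule.mem_span_singleton.1 hHe
  have hcneg : c ≤ - lam := by
    have h5 := hU.neg e0 heU
    rw [← hce, inner_smul_left, real_inner_self_eq_norm_sq, he0] at h5
    simp only [conj_trivial] at h5
    linarith
  have hmu : ∀ w : Tg K s, (inner ℝ w e0 : ℝ) = 0 → lam * ‖w‖ ^ 2 ≤ inner ℝ (H w) w := by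
    intro w hw
    refine hU.psd w ?_
    rw [hUe0, Submodule.mem_orthogonal_singleton_iff_inner_left]
    exact hw
  rcases lt_or_gt_of_ne ex with b1 | b1
  · have b2 : 0 < (inner ℝ y e0 : ℝ) := by
      rcases lt_or_gt_of_ne ey with b2 | b2
      · exact absurd (mul_pos_of_neg_of_neg b1 b2) a1
      · exact b2
    refine ⟨η, psi, H, lpass_mono hC hη hηδ, -e0, -c, lam, by rw [norm_neg, he0], by linarith [hU.pos], hU.pos,
      ?_, ?_, C, hCp, ?_⟩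
    · rw [map_neg, ← hce, neg_smul, smul_neg, neg_neg]
    · intro w hw
      rw [inner_neg_right, neg_eq_zero] at hw
      exact hmu w hw
    · intro w hw hqw
      rw [inner_neg_right, abs_neg]
      refine ⟨(hc w hw hqw).1, ?_, ?_⟩
      · intro h8
        exact key h1 x hxX hx hqx w hw hqw (mul_pos_of_neg_of_neg b1 (by linarith))
      · intro h8
        exact key h2 y hyY hy hqy w hw hqw (mul_pos b2 (by linarith))
  · have b2 : (inner ℝ y e0 : ℝ) < 0 := by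
      rcases lt_or_gt_of_ne ey with b2 | b2
      · exact b2
      · exact absurd (mul_pos b1 b2) a1
    refine ⟨η, psi, H, lpass_mono hC hη hηδ, e0, -c, lam, he0, by linarith [hU.pos], hU.pos,
      ?_, hmu, C, hCp, ?_⟩
    · rw [← hce, neg_smul, neg_neg]
    · intro w hw hqw
      refine ⟨(hc w hw hqw).1, ?_, ?_⟩
      · intro h8
        exact key h1 x hxX hx hqx w hw hqw (mul_pos b1 h8)
      · intro h8
        exact key h2 y hyY hy hqy w hw hqw (mul_pos_of_neg_of_neg b2 h8)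

end

end Pool.Agent.E8N.LPass
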