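import Pool.Agent.E8N.CDefs
import Pool.Agent.E8N.LPass

/-!
# E8N Lemma C: definitions for the saddle chart
-/

set_option autoImplicit false

open Metric Set Filter Topology

namespace Pool.Agent.E8N

noncomputable section

variable {E : Type*} [NormedAddCommGroup E] [InnerProductSpace ℝ E] [FiniteDimensional ℝ E]

open AChi AChart

/-- the saddle chart (conclusion of `LPass.saddle`) -/
structure Sad (K : Set E) (p s : E) (A1 A2 : Set E) (δ : ℝ) (psi : Tg K s → ℝ) (H : Tg K s →L[ℝ] Tg K s)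
    (e : Tg K s) (lam mu C : ℝ) : Prop where
  chart : Chart K p s δ psi H
  he : ‖e‖ = 1
  hlam : 0 < lam
  hmu : 0 < mu
  hHe : H e = - (lam • e)
  hH : ∀ w, inner ℝ w e = 0 → mu * ‖w‖ ^ 2 ≤ inner ℝ (H w) w
  hC : 0 < C
  side : ∀ w : Tg K s, ‖w‖ < δ → qf K p s psi w < 0 → ‖w‖ ≤ C * |inner ℝ w e| ∧
    (0 < inner ℝ w e → chi K s psi w ∈ A1) ∧ (inner ℝ w e < 0 → chi K s psi w ∈ A2)

/-- the unstable coordinate -/
def lf (K : Set E) (s : E) (e : Tg K s) (x : E) : ℝ := inner ℝ (pj K s x) e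

/-- contraction of the stable part of a tangent vector -/
def wc (K : Set E) (s : E) (e : Tg K s) (u : ℝ) (w : Tg K s) : Tg K s :=
  (inner ℝ w e : ℝ) • e + (1 - u) • (w - (inner ℝ w e : ℝ) • e)

/-- contraction of the stable part -/
def Vf (K : Set E) (s : E) (psi : Tg K s → ℝ) (e : Tg K s) (z : ℝ × E) : E := chi K s psi (wc K s e z.1 (pj K s z.2))

/-- the unstable curve -/
def cf (K : Set E) (s : E) (psi : Tg K s → ℝ) (e : Tg K s) (u : ℝ) : E := chi K s psi (u • e)

end

end Pool.Agent.E8N
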