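import Pool.Agent.E8N.CDefs

set_option autoImplicit false

open Metric Set Filter Topology

namespace Pool.Agent.E8N

variable {E : Type*} [NormedAddCommGroup E] [InnerProductSpace ℝ E]

theorem hom_refl {X U : Set E} {f : E → E} (hf : ContinuousOn f X) (h : MapsTo f X U) : Hom X U f f := by
  refine ⟨fun z => f z.2, ?_, fun _ _ => rfl, fun _ _ => rfl, fun u _ x hx => h hx⟩
  exact hf.comp continuous_snd.continuousOn (fun z hz => hz.2)

theorem hom_trans {X U : Set E} {f g h : E → E} (h1 : Hom X U f g) (h2 : Hom X U g h) : Hom X U f h := by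
  obtain ⟨H1, c1, a1, b1, u1⟩ := h1
  obtain ⟨H2, c2, a2, b2, u2⟩ := h2
  refine ⟨fun z => if z.1 ≤ 1 / 2 then H1 (2 * z.1, z.2) else H2 (2 * z.1 - 1, z.2), ?_, ?_, ?_, ?_⟩
  · have k1 : ContinuousOn (fun z : ℝ × E => H1 (2 * z.1, z.2)) (Icc (0 : ℝ) (1 / 2) ×ˢ X) := by
      refine c1.comp (by fun_prop) ?_
      rintro ⟨t, x⟩ ⟨ht, hx⟩
      refine ⟨⟨?_, ?_⟩, hx⟩
      · have := ht.1; simp only at this ⊢; linarith
      · have := ht.2; simp only at this ⊢; linarith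
    have k2 : ContinuousOn (fun z : ℝ × E => H2 (2 * z.1 - 1, z.2)) (Icc (1 / 2 : ℝ) 1 ×ˢ X) := by
      refine c2.comp (by fun_prop) ?_
      rintro ⟨t, x⟩ ⟨ht, hx⟩
      refine ⟨⟨?_, ?_⟩, hx⟩
      · have := ht.1; simp only at this ⊢; linarith
      · have := ht.2; simp only at this ⊢; linarith
    have hA : Icc (0 : ℝ) 1 ×ˢ X = (Icc (0 : ℝ) 1 ×ˢ X) ∩ {z | z.1 ≤ 1 / 2} ∪ (Icc (0 : ℝ) 1 ×ˢ X) ∩ {z | 1 / 2 ≤ z.1} := by
      ext z
      simp only [mem_union, mem_inter_iff, mem_setOf_eq]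
      constructor
      · intro hz
        rcases le_total z.1 (1 / 2) with h | h
        · exact Or.inl ⟨hz, h⟩
        · exact Or.inr ⟨hz, h⟩
      · rintro (h | h)
        · exact h.1
        · exact h.1
    have hc1 : IsClosed {z : ℝ × E | z.1 ≤ 1 / 2} := isClosed_le continuous_fst continuous_const
    have hc2 : IsClosed {z : ℝ × E | 1 / 2 ≤ z.1} := isClosed_le continuous_const continuous_fst
    intro z hz
    by_cases hz1 : z.1 < 1 / 2
    · have hev : (fun z : ℝ × E => if z.1 ≤ 1 / 2 then H1 (2 * z.1, z.2) else H2 (2 * z.1 - 1, z.2)) =ᶠ[𝓝[Icc (0 : ℝ) 1 ×ˢ X] z]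
          fun z => H1 (2 * z.1, z.2) := by
        have : {w : ℝ × E | w.1 < 1 / 2} ∈ 𝓝 z := (isOpen_lt continuous_fst continuous_const).mem_nhds hz1
        filter_upwards [mem_nhdsWithin_of_mem_nhds this] with w hw
        exact if_pos (le_of_lt hw)
      refine ContinuousWithinAt.congr_of_eventuallyEq ?_ hev (if_pos hz1.le)
      have hk := k1 z ⟨⟨hz.1.1, hz1.le⟩, hz.2⟩
      refine hk.mono_of_mem_nhdsWithin ?_
      have : {w : ℝ × E | w.1 < 1 / 2} ∈ 𝓝 z := (isOpen_lt continuous_fst continuous_const).mem_nhds hz1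
      filter_upwards [mem_nhdsWithin_of_mem_nhds this, self_mem_nhdsWithin] with w hw hw'
      exact ⟨⟨hw'.1.1, le_of_lt hw⟩, hw'.2⟩
    · by_cases hz2 : 1 / 2 < z.1
      · have hev : (fun z : ℝ × E => if z.1 ≤ 1 / 2 then H1 (2 * z.1, z.2) else H2 (2 * z.1 - 1, z.2)) =ᶠ[𝓝[Icc (0 : ℝ) 1 ×ˢ X] z]
            fun z => H2 (2 * z.1 - 1, z.2) := by
          have : {w : ℝ × E | 1 / 2 < w.1} ∈ 𝓝 z := (isOpen_lt continuous_const continuous_fst).mem_nhds hz2
          filter_upwards [mem_nhdsWithin_of_mem_nhds this] with w hw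
          exact if_neg (not_le.2 hw)
        refine ContinuousWithinAt.congr_of_eventuallyEq ?_ hev (if_neg (not_le.2 hz2))
        have hk := k2 z ⟨⟨hz2.le, hz.1.2⟩, hz.2⟩
        refine hk.mono_of_mem_nhdsWithin ?_
        have : {w : ℝ × E | 1 / 2 < w.1} ∈ 𝓝 z := (isOpen_lt continuous_const continuous_fst).mem_nhds hz2
        filter_upwards [mem_nhdsWithin_of_mem_nhds this, self_mem_nhdsWithin] with w hw hw'
        exact ⟨⟨le_of_lt hw, hw'.1.2⟩, hw'.2⟩
      · have hz3 : z.1 = 1 / 2 := le_antisymm (not_lt.1 hz2) (not_lt.1 hz1)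
        rw [hA]
        refine ContinuousWithinAt.union ?_ ?_
        · refine ContinuousWithinAt.congr (f := fun z : ℝ × E => H1 (2 * z.1, z.2)) ?_ ?_ ?_
          · refine (k1 z ⟨⟨hz.1.1, hz3.le⟩, hz.2⟩).mono ?_
            rintro w ⟨hw, hw'⟩
            exact ⟨⟨hw.1.1, hw'⟩, hw.2⟩
          · rintro w ⟨_, hw'⟩
            exact if_pos hw'
          · exact if_pos hz3.le
        · refine ContinuousWithinAt.congr (f := fun z : ℝ × E => H2 (2 * z.1 - 1, z.2)) ?_ ?_ ?_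
          · refine (k2 z ⟨⟨hz3.ge, hz.1.2⟩, hz.2⟩).mono ?_
            rintro w ⟨hw, hw'⟩
            exact ⟨⟨hw', hw.1.2⟩, hw.2⟩
          · rintro w ⟨hw, hw'⟩
            by_cases hw1 : w.1 ≤ 1 / 2
            · have e : w.1 = 1 / 2 := le_antisymm hw1 hw'
              rw [if_pos hw1, e]
              norm_num
              rw [b1 w.2 hw.2, a2 w.2 hw.2]
            · exact if_neg hw1
          · rw [if_pos hz3.le, hz3]
            norm_num
            rw [b1 z.2 hz.2, a2 z.2 hz.2]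
  · intro x hx
    have e : ((0 : ℝ) ≤ 1 / 2) := by norm_num
    show (if (0 : ℝ) ≤ 1 / 2 then H1 (2 * 0, x) else H2 (2 * 0 - 1, x)) = f x
    rw [if_pos e, mul_zero]
    exact a1 x hx
  · intro x hx
    have e : ¬ ((1 : ℝ) ≤ 1 / 2) := by norm_num
    have e2 : (2 * 1 - 1 : ℝ) = 1 := by norm_num
    show (if (1 : ℝ) ≤ 1 / 2 then H1 (2 * 1, x) else H2 (2 * 1 - 1, x)) = h x
    rw [if_neg e, e2]
    exact b2 x hx
  · rintro u ⟨hu0, hu1⟩ x hx
    by_cases h : u ≤ 1 / 2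
    · simp only [if_pos h]
      exact u1 _ ⟨by linarith, by linarith⟩ x hx
    · simp only [if_neg h]
      rw [not_le] at h
      exact u2 _ ⟨by linarith, by linarith⟩ x hx

theorem hom_pre {X Y U : Set E} {f g k : E → E} (h : Hom Y U f g) (hk : ContinuousOn k X) (hk' : MapsTo k X Y) :
    Hom X U (fun x => f (k x)) (fun x => g (k x)) := by
  obtain ⟨H, c, a, b, u⟩ := h
  refine ⟨fun z => H (z.1, k z.2), ?_, fun x hx => a _ (hk' hx), fun x hx => b _ (hk' hx),
    fun t ht x hx => u t ht _ (hk' hx)⟩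
  refine c.comp (continuous_fst.continuousOn.prodMk (hk.comp continuous_snd.continuousOn fun z hz => hz.2)) ?_
  rintro z ⟨hz1, hz2⟩
  exact ⟨hz1, hk' hz2⟩

theorem hom_post {X U W : Set E} {f g k : E → E} (h : Hom X U f g) (hk : ContinuousOn k U) (hk' : MapsTo k U W) :
    Hom X W (fun x => k (f x)) (fun x => k (g x)) := by
  obtain ⟨H, c, a, b, u⟩ := h
  refine ⟨fun z => k (H z), hk.comp c fun z hz => u z.1 hz.1 z.2 hz.2, fun x hx => congrArg k (a x hx),
    fun x hx => congrArg k (b x hx), fun t ht x hx => hk' (u t ht x hx)⟩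

theorem hom_mono {X U W : Set E} {f g : E → E} (h : Hom X U f g) (hU : U ⊆ W) : Hom X W f g := by
  obtain ⟨H, c, a, b, u⟩ := h
  exact ⟨H, c, a, b, fun t ht x hx => hU (u t ht x hx)⟩

theorem hom_congr {X U : Set E} {f g f' g' : E → E} (h : Hom X U f g) (hf : ∀ x ∈ X, f x = f' x)
    (hg : ∀ x ∈ X, g x = g' x) : Hom X U f' g' := by
  obtain ⟨H, c, a, b, u⟩ := h
  exact ⟨H, c, fun x hx => (a x hx).trans (hf x hx), fun x hx => (b x hx).trans (hg x hx), u⟩

theorem hom_const_param {X U : Set E} {β : ℝ → E} {θ : E → ℝ} (hβ : ContinuousOn β (Icc (-1) 1))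
    (hβU : ∀ u ∈ Icc (-1 : ℝ) 1, β u ∈ U) (hθ : ContinuousOn θ X) (hθ' : ∀ x ∈ X, θ x ∈ Icc (-1 : ℝ) 1) :
    Hom X U (fun x => β (θ x)) (fun _ => β 0) := by
  have key : ∀ t ∈ Icc (0 : ℝ) 1, ∀ x ∈ X, (1 - t) * θ x ∈ Icc (-1 : ℝ) 1 := by
    intro t ht x hx
    have h := hθ' x hx
    constructor
    · nlinarith [ht.1, ht.2, h.1, h.2]
    · nlinarith [ht.1, ht.2, h.1, h.2]
  refine ⟨fun z => β ((1 - z.1) * θ z.2), ?_, fun x _ => by simp, fun x _ => by simp,
    fun t ht x hx => hβU _ (key t ht x hx)⟩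
  refine hβ.comp ?_ (fun z hz => key z.1 hz.1 z.2 hz.2)
  exact (continuous_const.sub continuous_fst).continuousOn.mul (hθ.comp continuous_snd.continuousOn fun z hz => hz.2)

end Pool.Agent.E8N
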