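import Pool.Agent.E8N.CDefs
import Pool.Agent.E8N.Api1
import Pool.Agent.E8N.C_Hom

set_option autoImplicit false

open Metric Set Filter Topology

namespace Pool.Agent.E8N

variable {E : Type*} [NormedAddCommGroup E] [InnerProductSpace ℝ E] [FiniteDimensional ℝ E]
variable {K : Set E} {ρ R : ℝ}

theorem it_le1 (hK : Body K ρ R) {p : E} (hp : p ∈ K) {σ : ℝ} (h0 : 0 ≤ σ) (h1 : σ ≤ 1) {x : E} (hx : x ∈ S K) :
    F p (gm K σ p x) ≤ F p x := by
  have h := gm_dec hK (s := σ) (p := p) hx hp h0 h1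
  have h2 : 0 ≤ (2 * σ - σ ^ 2) * ‖tau K p x‖ ^ 2 := by
    have : 0 ≤ 2 * σ - σ ^ 2 := by nlinarith
    positivity
  have h3 : F p (gm K σ p x) ^ 2 ≤ F p x ^ 2 := by linarith
  exact (sq_le_sq₀ (norm_nonneg _) (norm_nonneg _)).1 h3

theorem it_le (hK : Body K ρ R) {p : E} (hp : p ∈ K) {σ : ℝ} (h0 : 0 ≤ σ) (h1 : σ ≤ 1) {x : E} (hx : x ∈ S K)
    (n : ℕ) : (gm K σ p)^[n] x ∈ S K ∧ F p ((gm K σ p)^[n] x) ≤ F p x := by
  induction n with
  | zero => exact ⟨hx, le_rfl⟩
  | succ n ih =>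
    rw [Function.iterate_succ_apply']
    exact ⟨gm_mem hK ih.1, (it_le1 hK hp h0 h1 ih.1).trans ih.2⟩

theorem it_gcont (hK : Body K ρ R) (p : E) (σ : ℝ) : Continuous (gm K σ p) :=
  (gm_cont hK).comp ((continuous_const (y := σ)).prodMk ((continuous_const (y := p)).prodMk continuous_id))

theorem it_cont (hK : Body K ρ R) (p : E) (σ : ℝ) (n : ℕ) : Continuous ((gm K σ p)^[n]) :=
  (it_gcont hK p σ).iterate n

theorem it_hom (hK : Body K ρ R) {p : E} (hp : p ∈ K) {σ : ℝ} (h0 : 0 ≤ σ) (h1 : σ ≤ 1) (t : ℝ) (n : ℕ) :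
    Hom (Sle K p t) (Sle K p t) (fun x => x) ((gm K σ p)^[n]) := by
  induction n with
  | zero => exact hom_refl continuousOn_id (fun x hx => hx)
  | succ n ih =>
    have h2 : Hom (Sle K p t) (Sle K p t) (fun x => x) (gm K σ p) := by
      refine ⟨fun z => gm K (z.1 * σ) p z.2, ?_, ?_, ?_, ?_⟩
      · refine Continuous.continuousOn ?_
        exact (gm_cont hK).comp ((continuous_fst.mul continuous_const).prodMk
          ((continuous_const (y := p)).prodMk continuous_snd))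
      · intro x hx
        show gm K (0 * σ) p x = x
        rw [zero_mul]
        exact gm_zero hK hx.1
      · intro x hx
        show gm K (1 * σ) p x = gm K σ p x
        rw [one_mul]
      · intro u hu x hx
        exact ⟨gm_mem hK hx.1, (it_le1 hK hp (mul_nonneg hu.1 h0) (by nlinarith [hu.1, hu.2]) hx.1).trans hx.2⟩
    have h3 : Hom (Sle K p t) (Sle K p t) (fun x => (gm K σ p)^[n] x) (fun x => gm K σ p ((gm K σ p)^[n] x)) := by
      refine hom_pre (Y := Sle K p t) (f := fun x => x) (g := gm K σ p) (k := (gm K σ p)^[n]) h2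
        (it_cont hK p σ n).continuousOn ?_
      intro x hx
      have := it_le hK hp h0 h1 hx.1 n
      exact ⟨this.1, this.2.trans hx.2⟩
    refine hom_congr (hom_trans ih h3) (fun _ _ => rfl) ?_
    intro x _
    rw [Function.iterate_succ_apply']

theorem it_drop (hK : Body K ρ R) {p : E} (hp : p ∈ K) {σ : ℝ} (h0 : 0 < σ) (h1 : σ ≤ 1) {Z : Set E}
    (hZ : IsCompact Z) (hZS : Z ⊆ S K) (hc : ∀ x ∈ Z, x ∉ Crit K p) :
    ∃ k > 0, ∀ x ∈ Z, F p (gm K σ p x) ≤ F p x - k := by
  rcases Z.eq_empty_or_nonempty with he | hne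
  · exact ⟨1, one_pos, fun x hx => by rw [he] at hx; exact absurd hx (notMem_empty x)⟩
  · have hcf : Continuous fun x => F p x - F p (gm K σ p x) := by
      have h1 : Continuous (F p) := by unfold F; fun_prop
      exact h1.sub (h1.comp (it_gcont hK p σ))
    obtain ⟨x₀, hx₀, hmin⟩ := hZ.exists_isMinOn hne hcf.continuousOn
    have hpos : 0 < F p x₀ - F p (gm K σ p x₀) := by
      have h := gm_dec hK (s := σ) (p := p) (hZS hx₀) hp h0.le h1
      have h2 : 0 < ‖tau K p x₀‖ := by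
        rw [norm_pos_iff]
        intro ht
        exact hc x₀ hx₀ ⟨hZS hx₀, ht⟩
      have h3 : 0 < (2 * σ - σ ^ 2) * ‖tau K p x₀‖ ^ 2 := by
        have : 0 < 2 * σ - σ ^ 2 := by nlinarith
        positivity
      have h4 : F p (gm K σ p x₀) ^ 2 < F p x₀ ^ 2 := by linarith
      have h5 := (sq_lt_sq₀ (norm_nonneg (gm K σ p x₀ - p)) (norm_nonneg (x₀ - p))).1 h4
      have h6 : F p (gm K σ p x₀) < F p x₀ := h5
      linarith
    refine ⟨_, hpos, fun x hx => ?_⟩
    have := hmin hx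
    simp only [mem_setOf_eq] at this
    linarith

theorem it_down (hK : Body K ρ R) {p : E} (hp : p ∈ K) {σ : ℝ} (h0 : 0 < σ) (h1 : σ ≤ 1) {a b : ℝ}
    (hc : ∀ x ∈ Crit K p, a ≤ F p x → F p x ≤ b → False) :
    ∃ N : ℕ, ∀ x ∈ S K, F p x ≤ b → F p ((gm K σ p)^[N] x) < a := by
  have hFc : Continuous (F p) := by unfold F; fun_prop
  have hZ : IsCompact (S K ∩ F p ⁻¹' Icc a b) := (S_compact hK).inter_right (isClosed_Icc.preimage hFc)
  obtain ⟨k, hk, hdrop⟩ := it_drop hK hp h0 h1 hZ inter_subset_left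
    (fun x hx hcx => hc x hcx hx.2.1 hx.2.2)
  obtain ⟨N, hN⟩ := exists_nat_gt ((b - a) / k)
  rw [div_lt_iff₀ hk] at hN
  have key : ∀ n : ℕ, ∀ x ∈ S K, F p x ≤ b → F p ((gm K σ p)^[n] x) < a ∨ F p ((gm K σ p)^[n] x) ≤ b - n * k := by
    intro n
    induction n with
    | zero =>
      intro x _ hxb
      right
      simpa using hxb
    | succ n ih =>
      intro x hx hxb
      rw [Function.iterate_succ_apply']
      obtain ⟨hm, hle⟩ := it_le hK hp h0.le h1 hx n
      have hstep := it_le1 hK hp h0.le h1 hm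
      rcases ih x hx hxb with h | h
      · exact Or.inl (lt_of_le_of_lt hstep h)
      · by_cases ha : F p ((gm K σ p)^[n] x) < a
        · exact Or.inl (lt_of_le_of_lt hstep ha)
        · right
          have := hdrop _ ⟨hm, not_lt.1 ha, hle.trans hxb⟩
          push_cast
          linarith
  refine ⟨N, fun x hx hxb => ?_⟩
  rcases key N x hx hxb with h | h
  · exact h
  · linarith

end Pool.Agent.E8N
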