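import Pool.Agent.E8N.CDefs
import Pool.Agent.E8N.Api1
import Pool.Agent.E8N.C_It

/-!
# E8N module C_Cm (Lemma C): components of a sublevel set

A = connectedComponentIn (sub K p c) x₀, x₀ ∈ sub K p c (definition IsComp).
`cm_sub`: A preconnected subset C of sub K p c which meets A is contained in A (connectedComponentIn_eq,
IsPreconnected.subset_connectedComponentIn). `cm_disj`: connectedComponentIn_eq.
`cm_compact`: z in the closure of {x ∈ A, F x ≤ c1}: z ∈ S K (S_compact.isClosed), F z ≤ c1 < c, so z ∈ sub K p c;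
insert z A is preconnected (IsPreconnected.subset_closure: A ⊆ insert z A ⊆ closure A) and contained in sub K p c, so
z ∈ A. So the set is closed, and contained in the compact S K.
`cm_step`: the set {gm K u p x | u ∈ [0, σ]} is preconnected (image of an interval, gm_cont), contained in sub K p c
(gm_mem, gm_dec) and contains x = gm K 0 p x (gm_zero); cm_sub. `cm_iter`: induction.
`cm_near`: let m be the strict minimum of F on A, the only critical point in A, c1 < c. B := {x ∈ A, F x ≤ c1} is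
compact (cm_compact) and invariant under g = gm K σ p (cm_step, gm_dec). B \ ball m δ is compact; if it is empty, N = 0. Otherwise F has a minimum b there, b > F m.
So x ∈ B, F x < b implies x ∈ ball m δ. B ∩ {F ≥ b} is compact without critical points, so by it_drop one
step decreases F by k > 0 there; by induction F(g^n x) < b or F(g^n x) ≤ c1 - n k; take n with c1 - n k < b.
-/

set_option autoImplicit false

open Metric Set Filter Topology

namespace Pool.Agent.E8N

variable {E : Type*} [NormedAddCommGroup E] [InnerProductSpace ℝ E] [FiniteDimensional ℝ E]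
variable {K : Set E} {ρ R : ℝ}

theorem cm_sub {p : E} {c : ℝ} {A : Set E} (hA : IsComp (sub K p c) A) {C : Set E} (hC : IsPreconnected C)
    (hCs : C ⊆ sub K p c) (h : (C ∩ A).Nonempty) : C ⊆ A := by
  obtain ⟨x₀, -, rfl⟩ := hA
  obtain ⟨y, hyC, hyA⟩ := h
  rw [connectedComponentIn_eq hyA]
  exact hC.subset_connectedComponentIn hyC hCs

theorem cm_mem {p : E} {c : ℝ} {A : Set E} (hA : IsComp (sub K p c) A) {x : E} (hx : x ∈ A) :
    x ∈ S K ∧ F p x < c := by
  obtain ⟨x₀, -, rfl⟩ := hA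
  have h : x ∈ sub K p c := connectedComponentIn_subset _ _ hx
  exact h

theorem cm_disj {p : E} {c : ℝ} {A1 A2 : Set E} (h1 : IsComp (sub K p c) A1) (h2 : IsComp (sub K p c) A2)
    (hne : A1 ≠ A2) {x : E} (hx : x ∈ A1) (hx' : x ∈ A2) : False := by
  obtain ⟨x₁, -, rfl⟩ := h1
  obtain ⟨x₂, -, rfl⟩ := h2
  exact hne (by rw [connectedComponentIn_eq hx, connectedComponentIn_eq hx'])

theorem C_Cm_pre {p : E} {c : ℝ} {A : Set E} (hA : IsComp (sub K p c) A) : IsPreconnected A := by
  obtain ⟨x₀, -, rfl⟩ := hA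
  exact isPreconnected_connectedComponentIn

theorem C_Cm_F (p : E) : Continuous (F p) := by
  unfold F
  fun_prop

theorem cm_compact (hK : Body K ρ R) {p : E} {c c1 : ℝ} {A : Set E} (hA : IsComp (sub K p c) A) (hc : c1 < c) :
    IsCompact {x | x ∈ A ∧ F p x ≤ c1} := by
  have hF : Continuous (F p) := C_Cm_F p
  refine (S_compact hK).of_isClosed_subset ?_ (fun x hx => (cm_mem hA hx.1).1)
  refine isClosed_of_closure_subset (fun z hz => ?_)
  have h1 : z ∈ S K ∩ {x | F p x ≤ c1} := by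
    have hcl : IsClosed (S K ∩ {x | F p x ≤ c1}) :=
      (S_compact hK).isClosed.inter (isClosed_le hF continuous_const)
    refine hcl.closure_subset_iff.2 ?_ hz
    intro x hx
    exact ⟨(cm_mem hA hx.1).1, hx.2⟩
  have h2 : z ∈ closure A := closure_mono (fun x hx => hx.1) hz
  have h3 : z ∈ sub K p c := ⟨h1.1, lt_of_le_of_lt h1.2 hc⟩
  refine ⟨?_, h1.2⟩
  by_cases hne : A.Nonempty
  · obtain ⟨a, ha⟩ := hne
    have h4 : IsPreconnected (insert z A) :=
      (C_Cm_pre hA).subset_closure (subset_insert z A) (insert_subset h2 subset_closure)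
    have h5 : insert z A ⊆ sub K p c := insert_subset h3 (fun x hx => cm_mem hA hx)
    exact cm_sub hA h4 h5 ⟨a, mem_insert_of_mem z ha, ha⟩ (mem_insert z A)
  · rw [not_nonempty_iff_eq_empty.1 hne, closure_empty] at h2
    exact h2.elim

theorem cm_step (hK : Body K ρ R) {p : E} (hp : p ∈ K) {c : ℝ} {A : Set E} (hA : IsComp (sub K p c) A) {σ : ℝ}
    (h0 : 0 ≤ σ) (h1 : σ ≤ 1) {x : E} (hx : x ∈ A) : gm K σ p x ∈ A := by
  obtain ⟨hxS, hxc⟩ := cm_mem hA hx
  have hcont : Continuous fun u : ℝ => gm K u p x := by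
    have h2 := gm_cont hK
    have h3 : Continuous fun u : ℝ => ((u, p, x) : ℝ × E × E) := by fun_prop
    exact h2.comp h3
  have hpre : IsPreconnected ((fun u : ℝ => gm K u p x) '' Icc 0 σ) :=
    isPreconnected_Icc.image _ hcont.continuousOn
  refine cm_sub hA hpre ?_ ⟨x, ⟨0, ⟨le_rfl, h0⟩, gm_zero hK hxS⟩, hx⟩ ⟨σ, ⟨h0, le_rfl⟩, rfl⟩
  rintro _ ⟨u, ⟨hu0, hu1⟩, rfl⟩
  exact ⟨gm_mem hK hxS, lt_of_le_of_lt (it_le1 hK hp hu0 (hu1.trans h1) hxS) hxc⟩

theorem cm_iter (hK : Body K ρ R) {p : E} (hp : p ∈ K) {c : ℝ} {A : Set E} (hA : IsComp (sub K p c) A) {σ : ℝ}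
    (h0 : 0 ≤ σ) (h1 : σ ≤ 1) {x : E} (hx : x ∈ A) (n : ℕ) :
    (gm K σ p)^[n] x ∈ A ∧ F p ((gm K σ p)^[n] x) ≤ F p x := by
  induction n with
  | zero => exact ⟨hx, le_rfl⟩
  | succ n ih =>
    rw [Function.iterate_succ_apply']
    exact ⟨cm_step hK hp hA h0 h1 ih.1, (it_le1 hK hp h0 h1 (cm_mem hA ih.1).1).trans ih.2⟩

theorem cm_near (hK : Body K ρ R) {p : E} (hp : p ∈ K) {c c1 : ℝ} {A : Set E} (hA : IsComp (sub K p c) A)
    (hc : c1 < c) {σ : ℝ} (h0 : 0 < σ) (h1 : σ ≤ 1) {m : E} (hm : m ∈ A) (hmin : ∀ z ∈ A, z ≠ m → F p m < F p z)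
    (hcr : ∀ z ∈ A, z ∈ Crit K p → z = m) {δ : ℝ} (hδ : 0 < δ) :
    ∃ N : ℕ, ∀ n ≥ N, ∀ x ∈ A, F p x ≤ c1 → ‖(gm K σ p)^[n] x - m‖ < δ := by
  have hF : Continuous (F p) := C_Cm_F p
  obtain ⟨B, hB⟩ : ∃ B : Set E, B = {x | x ∈ A ∧ F p x ≤ c1} := ⟨_, rfl⟩
  have hBc : IsCompact B := by rw [hB]; exact cm_compact hK hA hc
  have hBm : ∀ x, x ∈ B ↔ x ∈ A ∧ F p x ≤ c1 := fun x => by rw [hB]; exact Iff.rfl
  have hinv : ∀ x ∈ A, F p x ≤ c1 → ∀ n, (gm K σ p)^[n] x ∈ B := by
    intro x hx hxc n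
    obtain ⟨h2, h3⟩ := cm_iter hK hp hA h0.le h1 hx n
    exact (hBm _).2 ⟨h2, h3.trans hxc⟩
  have hB' : IsCompact (B \ ball m δ) := hBc.diff isOpen_ball
  rcases (B \ ball m δ).eq_empty_or_nonempty with he | hne
  · refine ⟨0, fun n _ x hx hxc => ?_⟩
    by_contra hcon
    have : (gm K σ p)^[n] x ∈ B \ ball m δ := by
      refine ⟨hinv x hx hxc n, fun hb => hcon ?_⟩
      rwa [mem_ball, dist_eq_norm] at hb
    rw [he] at this
    exact this.elim
  · obtain ⟨b, hb, hbmin⟩ := hB'.exists_isMinOn hne hF.continuousOn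
    have hbm : F p m < F p b := by
      refine hmin b ((hBm b).1 hb.1).1 ?_
      rintro rfl
      exact hb.2 (mem_ball_self hδ)
    have hnear : ∀ x ∈ B, F p x < F p b → ‖x - m‖ < δ := by
      intro x hx hlt
      by_contra hcon
      have hx' : x ∈ B \ ball m δ := by
        refine ⟨hx, fun h => hcon ?_⟩
        rwa [mem_ball, dist_eq_norm] at h
      exact absurd hlt (not_lt.2 (hbmin hx'))
    have hZc : IsCompact (B ∩ {x | F p b ≤ F p x}) := hBc.inter_right (isClosed_le continuous_const hF)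
    obtain ⟨k, hk, hdrop⟩ := it_drop hK hp h0 h1 hZc (fun x hx => (cm_mem hA ((hBm x).1 hx.1).1).1)
      (fun x hx hxc => by
        have h2 := hcr x ((hBm x).1 hx.1).1 hxc
        have h3 : F p b ≤ F p x := hx.2
        rw [h2] at h3
        exact absurd hbm (not_lt.2 h3))
    have hind : ∀ n : ℕ, ∀ x ∈ A, F p x ≤ c1 → F p ((gm K σ p)^[n] x) < F p b ∨
        F p ((gm K σ p)^[n] x) ≤ c1 - n * k := by
      intro n
      induction n with
      | zero => intro x hx hxc; right; simpa using hxc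
      | succ n ih =>
        intro x hx hxc
        have h2 := hinv x hx hxc n
        rw [Function.iterate_succ_apply']
        by_cases h3 : F p ((gm K σ p)^[n] x) < F p b
        · left
          exact lt_of_le_of_lt (it_le1 hK hp h0.le h1 (cm_mem hA ((hBm _).1 h2).1).1) h3
        · rcases ih x hx hxc with h4 | h4
          · exact absurd h4 h3
          · right
            have h5 := hdrop _ ⟨h2, not_lt.1 h3⟩
            push_cast
            linarith
    obtain ⟨N, hN⟩ := exists_nat_gt ((c1 - F p b) / k)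
    refine ⟨N, fun n hn x hx hxc => hnear _ (hinv x hx hxc n) ?_⟩
    rcases hind n x hx hxc with h2 | h2
    · exact h2
    · rw [div_lt_iff₀ hk] at hN
      have h3 : (N : ℝ) * k ≤ n * k := by
        have : (N : ℝ) ≤ n := by exact_mod_cast hn
        exact mul_le_mul_of_nonneg_right this hk.le
      linarith

end Pool.Agent.E8N
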