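import Pool.Agent.E8N.DParE
import Pool.Agent.E8N.AFib
import Pool.Agent.E8N.Api0

/-!
# E8N DEven

At a generic `p` the number of critical points is even. `f y = 2 • P K y - y - p`: continuous (`P_cont`), `‖f y + y‖ = ‖2 • P K y - p‖ ≤ 2 R + ‖p‖` (`P K y ∈ K ⊆ closedBall 0 R`). Zeros: the fibre `{y | 2 • P K y - y = p}`, finite with `ncard = (Crit K p).ncard + 1` (`AFib.fib_card`; `Crit K p` is finite by `h7`, `p ∈ interior K` is part of `Generic`). At every
zero `f` has an invertible derivative (`Generic`; subtract the constant `p`). `parityE`: `(Crit K p).ncard + 1` is odd.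
-/

set_option autoImplicit false

open Metric Set Filter Topology Pool.Agent.H84

namespace Pool.Agent.E8N

theorem crit_even {E : Type*} [NormedAddCommGroup E] [InnerProductSpace ℝ E] [FiniteDimensional ℝ E] {K : Set E}
    {ρ R : ℝ} (hK : Body K ρ R) (h7 : AtMost7 K) (hd : 4 ≤ Module.finrank ℝ E) {p : E} (hg : Generic K p) :
    Even (Crit K p).ncard := by
  obtain ⟨hfin, hcard⟩ := AFib.fib_card hK hg.1 (h7 p hg.1).1
  have hP := P_cont hK
  have hodd : Odd hfin.toFinset.card := by
    refine parityE (f := fun y => (2 : ℝ) • P K y - y - p) (by omega) (by fun_prop) (C := 2 * R + ‖p‖)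
      (fun x => ?_) (fun x => ?_) (fun y hy => ?_)
    · have h1 : (2 : ℝ) • P K x - x - p + x = (2 : ℝ) • P K x - p := by abel
      rw [h1]
      refine (norm_sub_le _ _).trans (add_le_add ?_ le_rfl)
      rw [norm_smul, Real.norm_eq_abs, abs_of_pos (by norm_num : (0 : ℝ) < 2)]
      have h2 := hK.sub (P_mem hK x)
      rw [mem_closedBall_zero_iff] at h2
      linarith
    · rw [sub_eq_zero, Set.Finite.mem_toFinset]
      exact Iff.rfl
    · rw [Set.Finite.mem_toFinset] at hy
      obtain ⟨L, hL⟩ := hg.2 y hy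
      exact ⟨L, hL.sub_const p⟩
  rw [← ncard_eq_toFinset_card _ hfin, hcard] at hodd
  rw [Nat.odd_add_one, Nat.not_odd_iff_even] at hodd
  exact hodd

end Pool.Agent.E8N
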