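import Pool.Agent.E8N.T_X6
import Pool.Agent.E8N.T_CN
import Pool.Agent.E8N.T_PM

/-!
# E8N module T_K2

THE SIX CRITICAL POINTS, (2.8). p generic in Om K, c = cl < d = dl, the number of critical points is even (hypothesis) and ≤ 7, so ≤ 6. f = FS K p, Om2 from x5_om2 (s₀ from x3_fam'). oa_two: A1, A2 with {f < c} = A1 ∪ A2, minima m1 ∈ A1, m2 ∈ A2 (cc_min); a pass s with f s = c: cn_pass (pass f m1 m2 = lev f = c by oa_lev);
its two components are A1, A2 (only two components). The same for -f: M1, M2 with f > d (local maxima), v with f v = d, pass of -f. These six are different (f m_i < c, f s = c < d, f v = d, f M_j > d; M1 ≠ M2, m1 ≠ m2 in different components), so Crit = {m1,m2,s,M1,M2,v} and the critical points with f < d are m1, m2, s.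
Write the result for the sets in E (x4_sub, x2_iff', x2_cl).
-/

set_option autoImplicit false

open Metric Set Filter Topology

namespace Pool.Agent.E8N.TY

variable {E : Type*} [NormedAddCommGroup E] [InnerProductSpace ℝ E] [FiniteDimensional ℝ E]
variable {K : Set E} {ρ R : ℝ}


/-- two minima and the pass between them -/
theorem T_K2_pair {α : Type*} [MetricSpace α] [CompactSpace α] [ConnectedSpace α] [LocallyPathConnectedSpace α]
    {f : α → ℝ} {Z : Set α} {g : ℝ → α → α} (hd : Desc f Z g) (hZ : Z.Finite) (h2 : Two (univ : Set α) f)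
    (h3 : ¬ Three (univ : Set α) f) : ∃ (A₁ A₂ : Set α) (m₁ m₂ s : α), IsComp {z | f z < lev f} A₁ ∧
      IsComp {z | f z < lev f} A₂ ∧ A₁ ≠ A₂ ∧ {z | f z < lev f} = A₁ ∪ A₂ ∧ m₁ ∈ A₁ ∧ m₂ ∈ A₂ ∧
      (∀ z ∈ A₁, f m₁ ≤ f z) ∧ (∀ z ∈ A₂, f m₂ ≤ f z) ∧ m₁ ∈ Z ∧ m₂ ∈ Z ∧ s ∈ Z ∧ f s = lev f ∧
      s ∈ closure A₁ ∧ s ∈ closure A₂ := by
  obtain ⟨A, A', hA, hA', hne, hc⟩ := oa_two hd.fc h2 h3
  obtain ⟨m, hm, hmZ, -, hmin⟩ := cc_min hd hA
  obtain ⟨m', hm', hmZ', -, hmin'⟩ := cc_min hd hA'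
  have hdis := ca_disj hA hA' hne
  have hsep : Sepd (univ : Set α) f m m' :=
    pb_sepd hd.fc hA hm (fun hx => disjoint_left.1 hdis hx hm') (ca_lt hA' hm')
  obtain ⟨s, hsZ, hfs, hp⟩ := cn_pass hd hZ hA hA' hne hm hm' (oa_lev hd.fc h3 hsep)
  obtain ⟨B, B', hB, hB', hneB, hsB, hsB'⟩ := hp
  rw [hfs] at hB hB'
  have key : ∀ C, IsComp {z | f z < lev f} C → C = A ∨ C = A' := by
    intro C hC
    obtain ⟨b, hb⟩ := (ca_conn hC).2
    have hb' : b ∈ A ∪ A' := hc ▸ (show b ∈ {z | f z < lev f} from ca_lt hC hb)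
    rcases hb' with hb' | hb'
    · left
      rw [pb_comp_eq hC hb, ← pb_comp_eq hA hb']
    · right
      rw [pb_comp_eq hC hb, ← pb_comp_eq hA' hb']
  refine ⟨A, A', m, m', s, hA, hA', hne, hc, hm, hm', hmin, hmin', hmZ, hmZ', hsZ, hfs, ?_⟩
  rcases key B hB with h1 | h1 <;> rcases key B' hB' with h4 | h4
  · exact absurd (h1.trans h4.symm) hneB
  · exact ⟨h1 ▸ hsB, h4 ▸ hsB'⟩
  · exact ⟨h4 ▸ hsB', h1 ▸ hsB⟩
  · exact absurd (h1.trans h4.symm) hneB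

/-- six different points -/
theorem T_K2_six {α : Type*} {Z : Set α} (hZ : Z.Finite) (hpar : Even Z.ncard) (h7 : Z.ncard ≤ 7) {f : α → ℝ}
    {c d : ℝ} (hcd : c < d) {m₁ m₂ s v M₁ M₂ : α} (hm₁ : m₁ ∈ Z) (hm₂ : m₂ ∈ Z) (hs : s ∈ Z) (hv : v ∈ Z)
    (hM₁ : M₁ ∈ Z) (hM₂ : M₂ ∈ Z) (hm : m₁ ≠ m₂) (hM : M₁ ≠ M₂) (h1 : f m₁ < c) (h2 : f m₂ < c) (h3 : f s = c)
    (h4 : f v = d) (h5 : d < f M₁) (h6 : d < f M₂) {x : α} (hx : x ∈ Z) (hfx : f x < d) :
    x = m₁ ∨ x = m₂ ∨ x = s := by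
  by_contra hc
  push Not at hc
  obtain ⟨x1, x2, x3⟩ := hc
  have ne : ∀ a b : α, f a < f b → a ≠ b := fun a b h e => by rw [e] at h; exact lt_irrefl _ h
  have n1 : M₁ ∉ ({M₂} : Set α) := by simpa using hM
  have n2 : v ∉ ({M₁, M₂} : Set α) := by
    simp only [mem_insert_iff, mem_singleton_iff, not_or]
    exact ⟨ne _ _ (by linarith), ne _ _ (by linarith)⟩
  have n3 : s ∉ ({v, M₁, M₂} : Set α) := by
    simp only [mem_insert_iff, mem_singleton_iff, not_or]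
    exact ⟨ne _ _ (by linarith), ne _ _ (by linarith), ne _ _ (by linarith)⟩
  have n4 : m₂ ∉ ({s, v, M₁, M₂} : Set α) := by
    simp only [mem_insert_iff, mem_singleton_iff, not_or]
    exact ⟨ne _ _ (by linarith), ne _ _ (by linarith), ne _ _ (by linarith), ne _ _ (by linarith)⟩
  have n5 : m₁ ∉ ({m₂, s, v, M₁, M₂} : Set α) := by
    simp only [mem_insert_iff, mem_singleton_iff, not_or]
    exact ⟨hm, ne _ _ (by linarith), ne _ _ (by linarith), ne _ _ (by linarith), ne _ _ (by linarith)⟩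
  have n6 : x ∉ ({m₁, m₂, s, v, M₁, M₂} : Set α) := by
    simp only [mem_insert_iff, mem_singleton_iff, not_or]
    exact ⟨x1, x2, x3, ne _ _ (by linarith), ne _ _ (by linarith), ne _ _ (by linarith)⟩
  have hcard : ({x, m₁, m₂, s, v, M₁, M₂} : Set α).ncard = 7 := by
    rw [ncard_insert_of_notMem n6 (toFinite _), ncard_insert_of_notMem n5 (toFinite _),
      ncard_insert_of_notMem n4 (toFinite _), ncard_insert_of_notMem n3 (toFinite _),
      ncard_insert_of_notMem n2 (toFinite _), ncard_insert_of_notMem n1 (toFinite _), ncard_singleton]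
  have hsub : ({x, m₁, m₂, s, v, M₁, M₂} : Set α) ⊆ Z := by
    intro y hy
    simp only [mem_insert_iff, mem_singleton_iff] at hy
    rcases hy with rfl | rfl | rfl | rfl | rfl | rfl | rfl <;> assumption
  have hle := ncard_le_ncard hsub hZ
  rw [hcard] at hle
  have h8 : Z.ncard = 7 := le_antisymm h7 hle
  rw [h8] at hpar
  exact absurd hpar (by decide)

/-- (2.8) -/
theorem six (hK : Body K ρ R) (h7 : AtMost7 K) (hd : 4 ≤ Module.finrank ℝ E) {p : E} (hp : p ∈ Om K)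
    (hpar : Even (Crit K p).ncard) (hcd : cl K p < dl K p) :
    ∃ (m₁ m₂ s : E) (A₁ A₂ : Set E), IsComp (sub K p (cl K p)) A₁ ∧ IsComp (sub K p (cl K p)) A₂ ∧ A₁ ≠ A₂ ∧
      sub K p (cl K p) = A₁ ∪ A₂ ∧ m₁ ∈ A₁ ∧ m₂ ∈ A₂ ∧ (∀ z ∈ A₁, F p m₁ ≤ F p z) ∧ (∀ z ∈ A₂, F p m₂ ≤ F p z) ∧
      m₁ ∈ Crit K p ∧ m₂ ∈ Crit K p ∧ s ∈ Crit K p ∧ F p s = cl K p ∧ s ∈ closure A₁ ∧ s ∈ closure A₂ ∧
      ∀ x ∈ Crit K p, F p x < dl K p → x = m₁ ∨ x = m₂ ∨ x = s := by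
  haveI := SN.S_cs hK
  haveI := SN.S_conn hK hd
  haveI := SN.S_lpc hK hd
  obtain ⟨s₀, hF'⟩ := x3_fam' hK
  obtain ⟨q, hq⟩ : ∃ q : ↥(interior K), (q : E) = p := ⟨⟨p, hp.1⟩, rfl⟩
  subst hq
  have hO := x5_om2 hK h7 hd hF' hp
  obtain ⟨A₁, A₂, m₁, m₂, s, hA₁, hA₂, hne, hc, hm₁, hm₂, hmin₁, hmin₂, hZ₁, hZ₂, hsZ, hfs, hs₁, hs₂⟩ :=
    T_K2_pair hO.hd hO.hZ hO.h2 hO.h3
  obtain ⟨B₁, B₂, M₁, M₂, v, hB₁, hB₂, hneB, hcB, hM₁, hM₂, -, -, hY₁, hY₂, hvZ, hfv, -, -⟩ :=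
    T_K2_pair hO.hd' hO.hZ hO.h2' hO.h3'
  have ecl := x4_cl q
  have edl := x4_dl q
  have ecr := x3_crit q
  have hcl := (ZSurf.S_compact hK).isClosed
  have hinj : Function.Injective (Subtype.val : ↥(S K) → E) := Subtype.val_injective
  have hncard : (Crit K (q : E)).ncard = (ZS K q).ncard := by
    rw [ecr, ncard_image_of_injective _ hinj]
  have h7' : (ZS K q).ncard ≤ 7 := (x3_fin h7 q).2
  rw [hncard] at hpar
  rw [ecl, edl] at hcd
  have esub : sub K (q : E) (lev (FS K q)) = Subtype.val '' {z : ↥(S K) | FS K q z < lev (FS K q)} := x4_sub q _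
  have hmne : m₁ ≠ m₂ := by
    rintro rfl
    exact disjoint_left.1 (ca_disj hA₁ hA₂ hne) hm₁ hm₂
  have hMne : M₁ ≠ M₂ := by
    rintro rfl
    exact disjoint_left.1 (ca_disj hB₁ hB₂ hneB) hM₁ hM₂
  have f1 : FS K q m₁ < lev (FS K q) := ca_lt hA₁ hm₁
  have f2 : FS K q m₂ < lev (FS K q) := ca_lt hA₂ hm₂
  have f3 : dev (FS K q) < FS K q M₁ := by
    have : - FS K q M₁ < lev (fun z => - FS K q z) := ca_lt hB₁ hM₁
    unfold dev; linarith
  have f4 : dev (FS K q) < FS K q M₂ := by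
    have : - FS K q M₂ < lev (fun z => - FS K q z) := ca_lt hB₂ hM₂
    unfold dev; linarith
  have f5 : FS K q v = dev (FS K q) := by
    unfold dev; rw [← hfv]; ring
  refine ⟨m₁, m₂, s, Subtype.val '' A₁, Subtype.val '' A₂, ?_, ?_, ?_, ?_, mem_image_of_mem _ hm₁,
    mem_image_of_mem _ hm₂, ?_, ?_, ?_, ?_, ?_, ?_, ?_, ?_, ?_⟩
  · rw [ecl, esub]; exact x2_iff'.2 hA₁
  · rw [ecl, esub]; exact x2_iff'.2 hA₂
  · intro h; exact hne (hinj.image_injective h)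
  · rw [ecl, esub, hc, image_union]
  · rintro z ⟨z', hz', rfl⟩; exact hmin₁ z' hz'
  · rintro z ⟨z', hz', rfl⟩; exact hmin₂ z' hz'
  · rw [ecr]; exact mem_image_of_mem _ hZ₁
  · rw [ecr]; exact mem_image_of_mem _ hZ₂
  · rw [ecr]; exact mem_image_of_mem _ hsZ
  · rw [ecl]; exact hfs
  · rw [x2_cl hcl]; exact mem_image_of_mem _ hs₁
  · rw [x2_cl hcl]; exact mem_image_of_mem _ hs₂
  · intro x hx hfx
    rw [ecr] at hx
    obtain ⟨z, hz, rfl⟩ := hx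
    rw [edl] at hfx
    rcases T_K2_six hO.hZ hpar h7' hcd hZ₁ hZ₂ hsZ hvZ hY₁ hY₂ hmne hMne f1 f2 hfs f5 f3 f4 hz hfx with h | h | h
    · left; rw [h]
    · right; left; rw [h]
    · right; right; rw [h]

end Pool.Agent.E8N.TY
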