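import Pool.Agent.E8N.CDefs
import Pool.Agent.E8N.Api1
import Pool.Agent.E8N.T_K2
import Pool.Agent.E8N.DEven

/-!
# E8N module C_Glo (section 2.8)

(2.8): `p` generic, `p ∈ Om K`, `cl K p < dl K p`: the only critical points below the level `dl K p` are the two
minima and the saddle `s` between the two components of `{F < cl}`.
-/

set_option autoImplicit false

open Metric Set Filter Topology

namespace Pool.Agent.E8N

variable {E : Type*} [NormedAddCommGroup E] [InnerProductSpace ℝ E] [FiniteDimensional ℝ E]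
variable {K : Set E} {ρ R : ℝ}

theorem glo_min_crit (hK : Body K ρ R) {p : E} (hp : p ∈ K) {t : ℝ} {A : Set E} (hA : IsComp (sub K p t) A)
    {z : E} (hz : z ∈ A) (hmin : ∀ w ∈ A, F p z ≤ F p w) : z ∈ Crit K p := by
  obtain ⟨x, hx, rfl⟩ := hA
  have hzs : z ∈ sub K p t := connectedComponentIn_subset _ _ hz
  have hF : ∀ u ∈ Icc (0 : ℝ) 1, F p (gm K u p z) ≤ F p z := by
    intro u hu
    have h := gm_dec hK (s := u) (p := p) hzs.1 hp hu.1 hu.2
    have h1 : 0 ≤ (2 * u - u ^ 2) * ‖tau K p z‖ ^ 2 := by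
      have : 0 ≤ 2 * u - u ^ 2 := by nlinarith [hu.1, hu.2]
      positivity
    have h2 : F p (gm K u p z) ^ 2 ≤ F p z ^ 2 := by linarith
    exact (sq_le_sq₀ (norm_nonneg _) (norm_nonneg _)).1 h2
  have hC : (fun u => gm K u p z) '' Icc (0 : ℝ) 1 ⊆ connectedComponentIn (sub K p t) x := by
    rw [connectedComponentIn_eq hz]
    refine IsPreconnected.subset_connectedComponentIn ?_ ?_ ?_
    · refine isPreconnected_Icc.image _ ?_
      have : Continuous fun u : ℝ => gm K u p z :=
        (gm_cont hK).comp (continuous_id.prodMk (continuous_const (y := (p, z))))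
      exact this.continuousOn
    · exact ⟨0, ⟨le_rfl, zero_le_one⟩, gm_zero hK hzs.1⟩
    · rintro _ ⟨u, hu, rfl⟩
      exact ⟨gm_mem hK hzs.1, lt_of_le_of_lt (hF u hu) hzs.2⟩
  refine ⟨hzs.1, ?_⟩
  by_contra hne
  have h := gm_dec hK (s := 1) (p := p) hzs.1 hp zero_le_one le_rfl
  have h1 := hmin _ (hC ⟨1, ⟨zero_le_one, le_rfl⟩, rfl⟩)
  simp only at h1
  have h2 : 0 < ‖tau K p z‖ := norm_pos_iff.2 hne
  have h3 : 0 ≤ F p z := norm_nonneg _
  have h4 : F p z ^ 2 ≤ F p (gm K 1 p z) ^ 2 := by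
    have h5 : 0 ≤ F p (gm K 1 p z) := norm_nonneg _
    nlinarith
  nlinarith [mul_pos h2 h2]

theorem glo_exists (hK : Body K ρ R) (h7 : AtMost7 K) (hd : 4 ≤ Module.finrank ℝ E) {p : E} (hp : p ∈ Om K)
    (hg : Generic K p) (hcd : cl K p < dl K p) :
    ∃ s m1 m2 A1 A2, F p s = cl K p ∧ Glo K p s m1 m2 A1 A2 (dl K p) := by
  have hpK : p ∈ K := interior_subset hp.1
  obtain ⟨m₁, m₂, s, A₁, A₂, h1, h2, hne, cov, k1, k2, min1, min2, cm1, cm2, cs, hFs, c1, c2, hcrit⟩ :=
    TY.six hK h7 hd hp (crit_even hK h7 hd hg) hcd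
  have hdisj : Disjoint A₁ A₂ := by
    rw [Set.disjoint_left]
    intro z hz1 hz2
    apply hne
    obtain ⟨x, hx, e1⟩ := h1
    obtain ⟨y, hy, e2⟩ := h2
    rw [e1] at hz1
    rw [e2] at hz2
    rw [e1, e2, connectedComponentIn_eq hz1, connectedComponentIn_eq hz2]
  have hsub1 : ∀ z ∈ A₁, z ∈ sub K p (cl K p) := fun z hz => cov ▸ Or.inl hz
  have hsub2 : ∀ z ∈ A₂, z ∈ sub K p (cl K p) := fun z hz => cov ▸ Or.inr hz
  have hs1 : ∀ z ∈ A₁, z ≠ m₁ → F p m₁ < F p z := by
    intro z hz hzm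
    rcases lt_or_eq_of_le (min1 z hz) with h | h
    · exact h
    · exfalso
      have hzc : z ∈ Crit K p := glo_min_crit hK hpK h1 hz (fun w hw => by rw [← h]; exact min1 w hw)
      rcases hcrit z hzc (lt_trans (hsub1 z hz).2 hcd) with e | e | e
      · exact hzm e
      · rw [e] at hz
        exact Set.disjoint_left.1 hdisj hz k2
      · have := (hsub1 z hz).2
        rw [e, hFs] at this
        exact lt_irrefl _ this
  have hs2 : ∀ z ∈ A₂, z ≠ m₂ → F p m₂ < F p z := by
    intro z hz hzm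
    rcases lt_or_eq_of_le (min2 z hz) with h | h
    · exact h
    · exfalso
      have hzc : z ∈ Crit K p := glo_min_crit hK hpK h2 hz (fun w hw => by rw [← h]; exact min2 w hw)
      rcases hcrit z hzc (lt_trans (hsub2 z hz).2 hcd) with e | e | e
      · rw [e] at hz
        exact Set.disjoint_left.1 hdisj k1 hz
      · exact hzm e
      · have := (hsub2 z hz).2
        rw [e, hFs] at this
        exact lt_irrefl _ this
  refine ⟨s, m₁, m₂, A₁, A₂, hFs, ?_⟩
  exact
    { hs := cs
      h1 := by rw [hFs]; exact h1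
      h2 := by rw [hFs]; exact h2
      hne := hne
      cov := by rw [hFs]; exact cov
      c1 := c1
      c2 := c2
      k1 := k1
      k2 := k2
      min1 := hs1
      min2 := hs2
      crit := hcrit
      lt := by rw [hFs]; exact hcd }

end Pool.Agent.E8N
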