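import Pool.Agent.E8N.CSad

/-!
# E8N module C_N (Lemma C): comparison of norms, the side property

`pn_eq`: x ∈ S K, ‖x - s‖ < δ: chi K s psi (pj K s x) = x (field surj of Chart).
`pn_le`: ‖chi w - s‖ = ‖w - psi w ν‖ ≤ ‖w‖ + psi w ≤ ‖w‖ + ‖w‖^2 ≤ 2 ‖w‖ for ‖w‖ < δ, ‖w‖ ≤ 1 (fields bd; ‖nu K s‖ = 1,
ZSurf.nu_norm; chi K s psi w = s + w - psi w • nu K s).
`pn_two`: for x ∈ S K near s: ‖x - s‖ ≤ 2 ‖pj K s x‖ (pn_eq and pn_le; ‖pj K s x‖ ≤ ‖x - s‖ is AChi.pj_norm).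
`lf_cont`: pj K s is continuous (x ↦ orthogonalProjection (x - s)). `lf_le`: Cauchy-Schwarz, ‖e‖ = 1, pj_norm.
`cn_side`: η = min δ 1: for x ∈ S K with ‖x - s‖ < η put w = pj K s x, ‖w‖ ≤ ‖x - s‖ < δ, chi w = x,
qf w = F(x)^2 - F(s)^2 < 0 because 0 ≤ F(x) < F(s); field side of Sad; ‖x - s‖ ≤ 2 ‖w‖ ≤ 2 C |inner w e|.
-/

set_option autoImplicit false

open Metric Set Filter Topology

namespace Pool.Agent.E8N

variable {E : Type*} [NormedAddCommGroup E] [InnerProductSpace ℝ E] [FiniteDimensional ℝ E]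
variable {K : Set E} {p s : E} {A1 A2 : Set E} {δ : ℝ} {psi : AChi.Tg K s → ℝ}
  {H : AChi.Tg K s →L[ℝ] AChi.Tg K s} {e : AChi.Tg K s} {lam mu C : ℝ}

open AChi AChart

theorem pn_le (h : Chart K p s δ psi H) (hs : s ∈ S K) {w : Tg K s} (hw : ‖w‖ < δ) (hw1 : ‖w‖ ≤ 1) :
    ‖chi K s psi w - s‖ ≤ 2 * ‖w‖ := by
  have hb := h.bd w (mem_ball_zero_iff.mpr hw)
  have e1 : chi K s psi w - s = (w : E) - psi w • nu K s := by
    unfold chi
    abel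
  rw [e1]
  have h1 : ‖psi w • nu K s‖ = psi w := by
    rw [norm_smul, ZSurf.nu_norm hs, mul_one, Real.norm_of_nonneg hb.1]
  have h2 : ‖(w : E)‖ = ‖w‖ := rfl
  have h3 : ‖w‖ ^ 2 ≤ ‖w‖ := by
    have := norm_nonneg w
    nlinarith
  calc ‖(w : E) - psi w • nu K s‖ ≤ ‖(w : E)‖ + ‖psi w • nu K s‖ := norm_sub_le _ _
    _ ≤ 2 * ‖w‖ := by rw [h1, h2]; linarith [hb.2]

theorem pn_two (h : Chart K p s δ psi H) (hs : s ∈ S K) {x : E} (hx : x ∈ S K) (h1 : ‖x - s‖ < δ)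
    (h2 : ‖x - s‖ ≤ 1) : ‖x - s‖ ≤ 2 * ‖pj K s x‖ := by
  have e1 := h.surj x hx h1
  have h3 := pn_le h hs (w := pj K s x) (lt_of_le_of_lt (pj_norm K s x) h1) ((pj_norm K s x).trans h2)
  rwa [e1] at h3

theorem pj_cont (K : Set E) (s : E) : Continuous (pj K s) := by
  unfold pj
  exact (ContinuousLinearMap.continuous _).comp (continuous_id.sub continuous_const)

theorem lf_cont (K : Set E) (s : E) (e : Tg K s) : Continuous (lf K s e) := by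
  unfold lf
  exact (pj_cont K s).inner continuous_const

theorem lf_le {e : Tg K s} (he : ‖e‖ = 1) (x : E) : |lf K s e x| ≤ ‖x - s‖ := by
  unfold lf
  refine (abs_real_inner_le_norm _ _).trans ?_
  rw [he, mul_one]
  exact pj_norm K s x

theorem cn_side (h : Sad K p s A1 A2 δ psi H e lam mu C) (hs : s ∈ S K) :
    ∃ η > 0, ∀ x ∈ S K, ‖x - s‖ < η → F p x < F p s →
      ‖x - s‖ ≤ 2 * C * |lf K s e x| ∧ (0 < lf K s e x → x ∈ A1) ∧ (lf K s e x < 0 → x ∈ A2) := by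
  refine ⟨min δ 1, lt_min h.chart.pos one_pos, ?_⟩
  intro x hx hxs hF
  have h1 : ‖x - s‖ < δ := hxs.trans_le (min_le_left _ _)
  have h2 : ‖x - s‖ ≤ 1 := (hxs.trans_le (min_le_right _ _)).le
  have e1 := h.chart.surj x hx h1
  have hw : ‖pj K s x‖ < δ := lt_of_le_of_lt (pj_norm K s x) h1
  have hq : qf K p s psi (pj K s x) < 0 := by
    unfold qf
    rw [e1]
    have h0 : 0 ≤ F p x := norm_nonneg _
    nlinarith
  obtain ⟨a, b, c⟩ := h.side (pj K s x) hw hq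
  rw [e1] at b c
  refine ⟨?_, b, c⟩
  have h3 := pn_two h.chart hs hx h1 h2
  have h4 : ‖pj K s x‖ ≤ C * |lf K s e x| := a
  calc ‖x - s‖ ≤ 2 * ‖pj K s x‖ := h3
    _ ≤ 2 * (C * |lf K s e x|) := by linarith
    _ = 2 * C * |lf K s e x| := by ring

end Pool.Agent.E8N
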