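import Pool.Agent.E8N.C_W
import Pool.Agent.E8N.C_N

/-!
# E8N module C_Q (Lemma C): values of F in the chart

`cq_exp`: LTouch.qloc gives QLoc δ (qf K p s psi) H, then LPath.q_exp.
`cq_V`: take η from cq_exp with ε/2, and η ≤ δ. x ∈ S K, ‖x - s‖ < η, w = pj K s x, ‖w‖ ≤ ‖x - s‖ < η, chi w = x (field surj);
w' = wc u w, ‖w'‖ ≤ ‖w‖ (wc_norm). F(Vf (u,x))^2 - F(s)^2 = qf w' ≤ inner (H w') w' / 2 + (ε/2) ‖w'‖^2
≤ inner (H w) w / 2 + (ε/2) ‖w‖^2 (wc_H) ≤ qf w + ε ‖w‖^2 = F(x)^2 - F(s)^2 + ε ‖w‖^2, ‖w‖ ≤ ‖x - s‖.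
`cq_c`: cq_exp with ε = lam / 2: qf (u • e) ≤ inner (H (u e)) (u e) / 2 + (lam/2) u^2 = - lam u^2 / 2 + lam u^2 / 2 = 0,
so F(cf u)^2 ≤ F(s)^2 and F ≥ 0 (norms).
-/

set_option autoImplicit false

open Metric Set Filter Topology

namespace Pool.Agent.E8N

variable {E : Type*} [NormedAddCommGroup E] [InnerProductSpace ℝ E] [FiniteDimensional ℝ E]
variable {K : Set E} {p s : E} {A1 A2 : Set E} {δ : ℝ} {psi : AChi.Tg K s → ℝ}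
  {H : AChi.Tg K s →L[ℝ] AChi.Tg K s} {e : AChi.Tg K s} {lam mu C : ℝ}

open AChi AChart

theorem cq_exp (h : Sad K p s A1 A2 δ psi H e lam mu C) (hs : s ∈ S K) {ε : ℝ} (hε : 0 < ε) :
    ∃ η > 0, η ≤ δ ∧ ∀ w : Tg K s, ‖w‖ < η → |qf K p s psi w - inner ℝ (H w) w / 2| ≤ ε * ‖w‖ ^ 2 := by
  exact LPath.q_exp (LTouch.qloc hs h.chart) h.chart.symm hε

theorem cq_V (h : Sad K p s A1 A2 δ psi H e lam mu C) (hs : s ∈ S K) {ε : ℝ} (hε : 0 < ε) :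
    ∃ η > 0, ∀ x ∈ S K, ‖x - s‖ < η → ∀ u ∈ Icc (0 : ℝ) 1,
      F p (Vf K s psi e (u, x)) ^ 2 ≤ F p x ^ 2 + ε * ‖x - s‖ ^ 2 := by
  obtain ⟨η, hη, hηδ, hq⟩ := cq_exp h hs (half_pos hε)
  refine ⟨η, hη, ?_⟩
  intro x hx hxs u hu
  have hw : ‖pj K s x‖ ≤ ‖x - s‖ := pj_norm K s x
  have hchi : chi K s psi (pj K s x) = x := h.chart.surj x hx (lt_of_lt_of_le hxs hηδ)
  have hwη : ‖pj K s x‖ < η := lt_of_le_of_lt hw hxs
  have hn := wc_norm (K := K) (s := s) h.he hu.1 hu.2 (pj K s x)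
  have h1 := hq _ (lt_of_le_of_lt hn hwη)
  have h2 := hq _ hwη
  have h3 := wc_H h.he h.chart.symm h.hmu h.hHe h.hH hu.1 hu.2 (pj K s x)
  have e1 : qf K p s psi (wc K s e u (pj K s x)) = F p (Vf K s psi e (u, x)) ^ 2 - F p s ^ 2 := rfl
  have e2 : qf K p s psi (pj K s x) = F p x ^ 2 - F p s ^ 2 := by
    unfold qf
    rw [hchi]
  rw [abs_le] at h1 h2
  have h4 : ‖wc K s e u (pj K s x)‖ ^ 2 ≤ ‖x - s‖ ^ 2 :=
    pow_le_pow_left₀ (norm_nonneg _) (hn.trans hw) 2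
  have h5 : ‖pj K s x‖ ^ 2 ≤ ‖x - s‖ ^ 2 := pow_le_pow_left₀ (norm_nonneg _) hw 2
  have h6 : ε / 2 * ‖wc K s e u (pj K s x)‖ ^ 2 ≤ ε / 2 * ‖x - s‖ ^ 2 :=
    mul_le_mul_of_nonneg_left h4 (half_pos hε).le
  have h7 : ε / 2 * ‖pj K s x‖ ^ 2 ≤ ε / 2 * ‖x - s‖ ^ 2 :=
    mul_le_mul_of_nonneg_left h5 (half_pos hε).le
  linarith [h1.1, h1.2, h2.1, h2.2]

theorem cq_c (h : Sad K p s A1 A2 δ psi H e lam mu C) (hs : s ∈ S K) :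
    ∃ η > 0, ∀ u, |u| < η → F p (cf K s psi e u) ≤ F p s := by
  obtain ⟨η, hη, hηδ, hq⟩ := cq_exp h hs (half_pos h.hlam)
  refine ⟨η, hη, ?_⟩
  intro u hu
  have hn : ‖u • e‖ = |u| := by rw [norm_smul, h.he, mul_one, Real.norm_eq_abs]
  have h1 := hq (u • e) (by rw [hn]; exact hu)
  have h2 : (inner ℝ (H (u • e)) (u • e) : ℝ) = - (lam * u ^ 2) := by
    rw [map_smul, h.hHe, inner_smul_left, inner_smul_right, inner_neg_left, inner_smul_left,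
      real_inner_self_eq_norm_sq, h.he]
    simp
    ring
  rw [h2, hn, sq_abs, abs_le] at h1
  have e1 : qf K p s psi (u • e) = F p (cf K s psi e u) ^ 2 - F p s ^ 2 := rfl
  have h3 : F p (cf K s psi e u) ^ 2 ≤ F p s ^ 2 := by
    rw [e1] at h1
    nlinarith [h1.2]
  exact le_of_sq_le_sq h3 (norm_nonneg _)

end Pool.Agent.E8N
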