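import Pool.Agent.E8N.CSad
import Pool.Agent.E8N.C_N

/-!
# E8N module C_St (Lemma C): one descending step near the saddle

Let w = pj K s x; for x ∈ S K with ‖x - s‖ < δ: x = chi w (field surj), ‖w‖ ≤ ‖x - s‖ (AChi.pj_norm).
`st_tau`: field tau of Chart with ε = 1 and AChi: ‖2 τ - H w‖ ≤ ‖w‖ for ‖w‖ small, so ‖τ‖ ≤ (‖H‖ + 1) ‖w‖ / 2 ≤ (‖H‖ + 1) ‖x - s‖ / 2.
Lower bound: H is injective and linear in finite dimension, so ‖H w‖ ≥ h ‖w‖ with h > 0 (LinearMap.exists_antilipschitzWith or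
compactness of the unit sphere); with ε = h/2: ‖τ‖ ≥ (h - h/2) ‖w‖ / 2 = h ‖w‖ / 4 ≥ h ‖x - s‖ / 8 (pn_two).
`st_near`: σ = 1 / (‖H‖ + 1) ∈ (0, 1]: gm K σ p x = P1 K (x - σ τ), x = P1 K x (ZRet.P1_of_le, x ∈ S K), so
‖gm K σ p x - x‖ ≤ σ ‖τ‖ (ZRet.P1_nonexp) ≤ ‖x - s‖ / 2, so ‖gm K σ p x - s‖ ≤ 2 ‖x - s‖. 
`st_dec`: ZGm.gm_dec: F(g x)^2 + (2σ - σ^2) ‖τ‖^2 ≤ F(x)^2 and 2σ - σ^2 ≥ σ; c = σ a^2 with ‖τ‖ ≥ a ‖x - s‖ (p ∈ K).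
`st_push`: AChart.step with t = σ: ‖pj (g x) - (w - (σ/2) H w)‖ ≤ ε ‖w‖; inner with e (‖e‖ = 1):
inner (w - (σ/2) H w) e = inner w e - (σ/2) inner w (H e) = (1 + σ lam / 2) inner w e.
-/

set_option autoImplicit false

open Metric Set Filter Topology

namespace Pool.Agent.E8N

variable {E : Type*} [NormedAddCommGroup E] [InnerProductSpace ℝ E] [FiniteDimensional ℝ E]
variable {K : Set E} {ρ R : ℝ} {p s : E} {A1 A2 : Set E} {δ : ℝ} {psi : AChi.Tg K s → ℝ}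
  {H : AChi.Tg K s →L[ℝ] AChi.Tg K s} {e : AChi.Tg K s} {lam mu C : ℝ}

open AChi AChart

theorem st_tau (h : Chart K p s δ psi H) (hs : s ∈ S K) : ∃ η > 0, ∃ a > 0, ∀ x ∈ S K, ‖x - s‖ < η →
    a * ‖x - s‖ ≤ ‖tau K p x‖ ∧ ‖tau K p x‖ ≤ (‖H‖ + 1) * ‖x - s‖ / 2 := by
  have hker : LinearMap.ker (H : Tg K s →ₗ[ℝ] Tg K s) = ⊥ := by
    rw [LinearMap.ker_eq_bot']
    intro v hv
    exact h.inj v hv
  obtain ⟨c0, hc0, hanti⟩ := LinearMap.exists_antilipschitzWith (H : Tg K s →ₗ[ℝ] Tg K s) hker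
  have hc0' : (0 : ℝ) < (c0 : ℝ) := by exact_mod_cast hc0
  have hlow : ∀ w : Tg K s, ‖w‖ ≤ (c0 : ℝ) * ‖H w‖ := by
    intro w
    have h1 := hanti.le_mul_dist w 0
    simp only [dist_eq_norm, sub_zero, map_zero] at h1
    exact h1
  set ε : ℝ := min 1 (1 / (2 * (c0 : ℝ))) with hεdef
  have hε : 0 < ε := lt_min one_pos (by positivity)
  have hev := h.tau.def hε
  obtain ⟨η1, hη1, hball⟩ := Metric.eventually_nhds_iff.mp hev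
  refine ⟨min η1 (min δ 1), lt_min hη1 (lt_min h.pos one_pos), 1 / (8 * (c0 : ℝ)), by positivity, ?_⟩
  intro x hx hxs
  have hx1 : ‖x - s‖ < η1 := lt_of_lt_of_le hxs (min_le_left _ _)
  have hx2 : ‖x - s‖ < δ := lt_of_lt_of_le hxs ((min_le_right _ _).trans (min_le_left _ _))
  have hx3 : ‖x - s‖ < 1 := lt_of_lt_of_le hxs ((min_le_right _ _).trans (min_le_right _ _))
  have hpj : ‖pj K s x‖ ≤ ‖x - s‖ := pj_norm K s x
  have h2 : ‖x - s‖ ≤ 2 * ‖pj K s x‖ := pn_two h hs hx hx2 hx3.le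
  have hd : dist (pj K s x) 0 < η1 := by
    rw [dist_zero_right]
    exact lt_of_le_of_lt hpj hx1
  have hb := hball hd
  rw [h.surj x hx hx2] at hb
  have hHw : ‖((H (pj K s x) : Tg K s) : E)‖ = ‖H (pj K s x)‖ := rfl
  have htwo : ‖(2 : ℝ) • tau K p x‖ = 2 * ‖tau K p x‖ := by
    rw [norm_smul]; norm_num
  have hup : ‖(2 : ℝ) • tau K p x‖ ≤
      ‖(2 : ℝ) • tau K p x - ((H (pj K s x) : Tg K s) : E)‖ + ‖((H (pj K s x) : Tg K s) : E)‖ := by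
    have := norm_add_le ((2 : ℝ) • tau K p x - ((H (pj K s x) : Tg K s) : E)) ((H (pj K s x) : Tg K s) : E)
    rwa [sub_add_cancel] at this
  have hdn : ‖((H (pj K s x) : Tg K s) : E)‖ - ‖(2 : ℝ) • tau K p x‖ ≤
      ‖(2 : ℝ) • tau K p x - ((H (pj K s x) : Tg K s) : E)‖ := by
    rw [norm_sub_rev]
    exact norm_sub_norm_le _ _
  have hHn : ‖H (pj K s x)‖ ≤ ‖H‖ * ‖pj K s x‖ := H.le_opNorm _
  have hl := hlow (pj K s x)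
  have hε1 : ε ≤ 1 := min_le_left _ _
  have hε2 : ε ≤ 1 / (2 * (c0 : ℝ)) := min_le_right _ _
  have hw0 : 0 ≤ ‖pj K s x‖ := norm_nonneg _
  have hH0 : 0 ≤ ‖H‖ := norm_nonneg H
  constructor
  · have e1 : ‖pj K s x‖ / (c0 : ℝ) ≤ ‖H (pj K s x)‖ := by
      rw [div_le_iff₀ hc0']
      linarith [mul_comm (c0 : ℝ) ‖H (pj K s x)‖]
    have e2 : ε * ‖pj K s x‖ ≤ 1 / (2 * (c0 : ℝ)) * ‖pj K s x‖ := mul_le_mul_of_nonneg_right hε2 hw0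
    have e3 : 1 / (2 * (c0 : ℝ)) * ‖pj K s x‖ = ‖pj K s x‖ / (c0 : ℝ) / 2 := by
      field_simp
    have e4 : 1 / (8 * (c0 : ℝ)) * ‖x - s‖ ≤ 1 / (8 * (c0 : ℝ)) * (2 * ‖pj K s x‖) :=
      mul_le_mul_of_nonneg_left h2 (by positivity)
    have e5 : 1 / (8 * (c0 : ℝ)) * (2 * ‖pj K s x‖) = ‖pj K s x‖ / (c0 : ℝ) / 4 := by
      field_simp
      ring
    rw [hHw] at hdn
    rw [htwo] at hdn
    linarith
  · have e1 : ε * ‖pj K s x‖ ≤ 1 * ‖pj K s x‖ := mul_le_mul_of_nonneg_right hε1 hw0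
    have e2 : (‖H‖ + 1) * ‖pj K s x‖ ≤ (‖H‖ + 1) * ‖x - s‖ := mul_le_mul_of_nonneg_left hpj (by positivity)
    rw [hHw, htwo] at hup
    nlinarith

theorem st_near (hK : Body K ρ R) (h : Chart K p s δ psi H) (hs : s ∈ S K) : ∃ σ, 0 < σ ∧ σ ≤ 1 ∧
    ∃ η > 0, ∀ x ∈ S K, ‖x - s‖ < η → ‖gm K σ p x - s‖ ≤ 2 * ‖x - s‖ := by
  obtain ⟨η, hη, a, ha, hall⟩ := st_tau h hs
  have hH1 : 0 < ‖H‖ + 1 := by positivity
  refine ⟨1 / (‖H‖ + 1), by positivity, ?_, η, hη, ?_⟩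
  · rw [div_le_one hH1]
    linarith [norm_nonneg H]
  intro x hx hxs
  obtain ⟨_, hup⟩ := hall x hx hxs
  have hP1 : P1 K x = x := ZRet.P1_of_le (le_of_eq hx)
  have h1 : ‖gm K (1 / (‖H‖ + 1)) p x - x‖ ≤ ‖x - s‖ / 2 := by
    have h2 := ZRet.P1_nonexp hK (x - (1 / (‖H‖ + 1)) • tau K p x) x
    rw [hP1] at h2
    have h3 : ‖(x - (1 / (‖H‖ + 1)) • tau K p x) - x‖ = 1 / (‖H‖ + 1) * ‖tau K p x‖ := by
      rw [show (x - (1 / (‖H‖ + 1)) • tau K p x) - x = - ((1 / (‖H‖ + 1)) • tau K p x) by abel, norm_neg,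
        norm_smul, Real.norm_of_nonneg (by positivity)]
    rw [h3] at h2
    have h4 : 1 / (‖H‖ + 1) * ‖tau K p x‖ ≤ 1 / (‖H‖ + 1) * ((‖H‖ + 1) * ‖x - s‖ / 2) :=
      mul_le_mul_of_nonneg_left hup (by positivity)
    have h5 : 1 / (‖H‖ + 1) * ((‖H‖ + 1) * ‖x - s‖ / 2) = ‖x - s‖ / 2 := by
      field_simp
    show ‖P1 K (x - (1 / (‖H‖ + 1)) • tau K p x) - x‖ ≤ ‖x - s‖ / 2
    linarith
  have h6 : ‖gm K (1 / (‖H‖ + 1)) p x - s‖ ≤ ‖gm K (1 / (‖H‖ + 1)) p x - x‖ + ‖x - s‖ := by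
    have := norm_add_le (gm K (1 / (‖H‖ + 1)) p x - x) (x - s)
    rwa [sub_add_sub_cancel] at this
  linarith [norm_nonneg (x - s)]

theorem st_dec (hK : Body K ρ R) (hp : p ∈ K) (h : Chart K p s δ psi H) (hs : s ∈ S K) {σ : ℝ} (h0 : 0 < σ)
    (h1 : σ ≤ 1) : ∃ c > 0, ∃ η > 0, ∀ x ∈ S K, ‖x - s‖ < η →
      F p (gm K σ p x) ^ 2 + c * ‖x - s‖ ^ 2 ≤ F p x ^ 2 := by
  obtain ⟨η, hη, a, ha, hall⟩ := st_tau h hs
  refine ⟨σ * a ^ 2, by positivity, η, hη, ?_⟩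
  intro x hx hxs
  obtain ⟨hlo, _⟩ := hall x hx hxs
  have h2 := ZGm.gm_dec hK hx hp h0.le h1
  have h3 : (a * ‖x - s‖) ^ 2 ≤ ‖tau K p x‖ ^ 2 := by
    apply pow_le_pow_left₀ (by positivity) hlo
  have h4 : σ ≤ 2 * σ - σ ^ 2 := by nlinarith
  have h5 : σ * (a * ‖x - s‖) ^ 2 ≤ (2 * σ - σ ^ 2) * ‖tau K p x‖ ^ 2 :=
    mul_le_mul h4 h3 (by positivity) (by linarith)
  nlinarith

theorem st_push (hK : Body K ρ R) (h : Sad K p s A1 A2 δ psi H e lam mu C) (hs : s ∈ S K) {σ : ℝ} (h0 : 0 < σ)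
    (h1 : σ ≤ 1) {ε : ℝ} (hε : 0 < ε) : ∃ η > 0, ∀ x ∈ S K, ‖x - s‖ < η →
      |lf K s e (gm K σ p x) - (1 + σ * lam / 2) * lf K s e x| ≤ ε * ‖x - s‖ := by
  obtain ⟨η, hη, hall⟩ := AChart.step hK h.chart hε
  refine ⟨η, hη, ?_⟩
  intro x hx hxs
  have h2 := hall x hx hxs σ h0.le h1
  have hpj : ‖pj K s x‖ ≤ ‖x - s‖ := pj_norm K s x
  have h3 : lf K s e (gm K σ p x) - (1 + σ * lam / 2) * lf K s e x =
      inner ℝ (pj K s (gm K σ p x) - (pj K s x - (σ / 2) • H (pj K s x))) e := by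
    have h4 : inner ℝ (H (pj K s x)) e = - (lam * inner ℝ (pj K s x) e) := by
      rw [h.chart.symm, h.hHe, inner_neg_right, real_inner_smul_right]
    unfold lf
    rw [inner_sub_left, inner_sub_left, real_inner_smul_left, h4]
    ring
  rw [h3]
  have h5 := abs_real_inner_le_norm (pj K s (gm K σ p x) - (pj K s x - (σ / 2) • H (pj K s x))) e
  rw [h.he, mul_one] at h5
  calc _ ≤ ‖pj K s (gm K σ p x) - (pj K s x - (σ / 2) • H (pj K s x))‖ := h5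
    _ ≤ ε * ‖pj K s x‖ := h2
    _ ≤ ε * ‖x - s‖ := mul_le_mul_of_nonneg_left hpj hε.le

end Pool.Agent.E8N
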