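import Pool.Agent.E8N.C_V
import Pool.Agent.E8N.C_Q
import Pool.Agent.E8N.C_St

/-!
# E8N module C_Loc (Lemma C): the local data at a lower pass

LPass.saddle gives δ, psi, H, e, lam, mu, C with Sad (structure of CSad.lean, same fields). hg.1 : p ∈ interior K, so p ∈ K;
s ∈ S K (Crit). Take σ from st_near, c from st_dec for this σ, lam' = σ lam / 2, C' = max 1 (2 C),
l = lf K s e, V = Vf K s psi e, γ = cf K s psi e. Given ε > 0 let η be the minimum of the radii of cn_side, st_near,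
st_dec, st_push (for ε), cv_main, cq_V (for ε), cq_c, and r₀ = η / 2. All fields of Loc are then immediate for r ≤ r₀
(restrict ContinuousOn with .mono; 2 C |l| ≤ C' |l|).
-/

set_option autoImplicit false

open Metric Set Filter Topology

namespace Pool.Agent.E8N

variable {E : Type*} [NormedAddCommGroup E] [InnerProductSpace ℝ E] [FiniteDimensional ℝ E]
variable {K : Set E} {ρ R : ℝ}

theorem C_Loc_sad (hK : Body K ρ R) {p s : E} (hg : Generic K p) (hs : s ∈ Crit K p) {A1 A2 : Set E}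
    (h1 : IsComp (sub K p (F p s)) A1) (h2 : IsComp (sub K p (F p s)) A2) (hne : A1 ≠ A2)
    (c1 : s ∈ closure A1) (c2 : s ∈ closure A2) :
    ∃ (δ : ℝ) (psi : AChi.Tg K s → ℝ) (H : AChi.Tg K s →L[ℝ] AChi.Tg K s) (e : AChi.Tg K s) (lam mu C : ℝ),
      Sad K p s A1 A2 δ psi H e lam mu C := by
  obtain ⟨δ, psi, H, g1, e, lam, mu, g2, g3, g4, g5, g6, C, g7, g8⟩ := LPass.saddle hK hg hs h1 h2 hne c1 c2
  exact ⟨δ, psi, H, e, lam, mu, C, ⟨g1, g2, g3, g4, g5, g6, g7, g8⟩⟩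

theorem loc_exists (hK : Body K ρ R) {p s : E} (hg : Generic K p) (hs : s ∈ Crit K p) {A1 A2 : Set E}
    (h1 : IsComp (sub K p (F p s)) A1) (h2 : IsComp (sub K p (F p s)) A2) (hne : A1 ≠ A2)
    (c1 : s ∈ closure A1) (c2 : s ∈ closure A2) :
    ∃ σ lam c C : ℝ, 0 < σ ∧ σ ≤ 1 ∧ 0 < lam ∧ 0 < c ∧ 1 ≤ C ∧ ∃ (l : E → ℝ) (V : ℝ × E → E) (γ : ℝ → E),
      ∀ ε > 0, ∃ r₀ > 0, ∀ r, 0 < r → r ≤ r₀ → Loc K p s A1 A2 σ lam c C ε r l V γ := by
  have hp : p ∈ K := interior_subset hg.1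
  have hsS : s ∈ S K := hs.1
  obtain ⟨δ, psi, H, e, lam, mu, C, hSad⟩ := C_Loc_sad hK hg hs h1 h2 hne c1 c2
  obtain ⟨σ, hσ0, hσ1, η₁, hη₁, hnear⟩ := st_near hK hSad.chart hsS
  obtain ⟨c, hc, η₂, hη₂, hdec⟩ := st_dec hK hp hSad.chart hsS hσ0 hσ1
  obtain ⟨η₃, hη₃, hside⟩ := cn_side hSad hsS
  obtain ⟨r₁, hr₁, hr₁δ, V1, V2, V3, V4, V5, V6⟩ := cv_main (e := e) hSad.chart hsS hSad.he
  obtain ⟨η₄, hη₄, hcq⟩ := cq_c hSad hsS
  have hlam := hSad.hlam
  refine ⟨σ, σ * lam / 2, c, max 1 (2 * C), hσ0, hσ1, by positivity, hc, le_max_left _ _, lf K s e, Vf K s psi e,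
    cf K s psi e, ?_⟩
  intro ε hε
  obtain ⟨η₅, hη₅, hpush⟩ := st_push hK hSad hsS hσ0 hσ1 hε
  obtain ⟨η₆, hη₆, hcV⟩ := cq_V hSad hsS hε
  obtain ⟨η, hηe⟩ : ∃ η : ℝ, η = min η₁ (min η₂ (min η₃ (min r₁ (min η₄ (min η₅ η₆))))) := ⟨_, rfl⟩
  have hη : 0 < η := by
    rw [hηe]
    exact lt_min hη₁ (lt_min hη₂ (lt_min hη₃ (lt_min hr₁ (lt_min hη₄ (lt_min hη₅ hη₆)))))
  have a1 : η ≤ η₁ := by rw [hηe]; exact min_le_left _ _
  have b1 : η ≤ min η₂ (min η₃ (min r₁ (min η₄ (min η₅ η₆)))) := by rw [hηe]; exact min_le_right _ _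
  have a2 : η ≤ η₂ := b1.trans (min_le_left _ _)
  have b2 := b1.trans (min_le_right _ _)
  have a3 : η ≤ η₃ := b2.trans (min_le_left _ _)
  have b3 := b2.trans (min_le_right _ _)
  have a4 : η ≤ r₁ := b3.trans (min_le_left _ _)
  have b4 := b3.trans (min_le_right _ _)
  have a5 : η ≤ η₄ := b4.trans (min_le_left _ _)
  have b5 := b4.trans (min_le_right _ _)
  have a6 : η ≤ η₅ := b5.trans (min_le_left _ _)
  have a7 : η ≤ η₆ := b5.trans (min_le_right _ _)
  refine ⟨η / 2, by positivity, fun r hr hr₀ => ?_⟩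
  have hrη : r < η := by linarith
  exact
    { hr := hr
      l_cont := lf_cont K s e
      l_le := lf_le hSad.he
      side := fun x hx hxr hF => by
        obtain ⟨u1, u2, u3⟩ := hside x hx (by linarith) hF
        refine ⟨u1.trans ?_, u2, u3⟩
        exact mul_le_mul_of_nonneg_right (le_max_right _ _) (abs_nonneg _)
      near := fun x hx hxr => hnear x hx (by linarith)
      push := fun x hx hxr => hpush x hx (by linarith)
      dec := fun x hx hxr => hdec x hx (by linarith)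
      V_cont := V1.mono (prod_mono subset_rfl (inter_subset_inter subset_rfl (closedBall_subset_closedBall (by linarith))))
      V_mem := fun u hu x hx hxr => by
        obtain ⟨u1, u2, u3⟩ := V2 u hu x hx (by linarith)
        exact ⟨u1, u2, u3, hcV x hx (by linarith) u hu⟩
      V_zero := fun x hx hxr => V3 x hx (by linarith)
      V_one := fun x hx hxr => V4 x
      γ_cont := V5.mono (Icc_subset_Icc (by linarith) (by linarith))
      γ_mem := fun u hu => by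
        obtain ⟨u1, u2, u3⟩ := V6 u (by linarith)
        exact ⟨u1, u2, u3, hcq u (by linarith)⟩ }

end Pool.Agent.E8N
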