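import Pool.Agent.E8N.CDef3
import Pool.Agent.E8N.C_Cm

/-!
# E8N module C_Ta (Lemma C): the function θ on XX

XX K p s r c1 c2 = {x ∈ S K, F x ≤ c2, ‖x - s‖ ≤ r/4 or F x ≤ c1}, c1 < F p s; a = r / (8 C).
`ta_ring`: x ∈ XX, r/4 < ‖x - s‖ ≤ r: then F x ≤ c1 < F p s, so by side r/4 < ‖x - s‖ ≤ C |l x|, so |l x| ≥ r / (4 C) = 2 a; and the
sign of l x tells the component (side). `ta_far`: x ∈ XX, r < ‖x - s‖: F x ≤ c1, so x ∈ sub K p (F p s) = A1 ∪ A2.
`ta_range`: immediate. `ta_in`: if -1 < thf < 1 then ‖x - s‖ ≤ r and |l x| < a and thf x = l x / a.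
`ta_one`: thf x = 1: either ‖x - s‖ ≤ r and a ≤ l x, or r < ‖x - s‖ and x ∈ A1. `ta_neg`: the same for -1 (in the second case
x ∉ A1, so x ∈ A2 by ta_far).
`ta_cont`: XX is the union of the three sets XX ∩ {‖x - s‖ ≤ r}, XX ∩ {r/2 ≤ ‖x - s‖} ∩ A1, XX ∩ {r/2 ≤ ‖x - s‖} ∩ A2 (ta_far). All three are
closed (the last two because there F x ≤ c1 and {x ∈ A_i, F x ≤ c1} is compact, cm_compact). On the first thf is
max (-1) (min 1 (l x / a)), continuous; on the second thf = 1 (if r/2 ≤ ‖x - s‖ ≤ r, x ∈ A1: |l x| ≥ 2a by ta_ring, l x < 0 would give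
x ∈ A2, against cm_disj, so l x ≥ 2 a), on the third thf = -1. A function which is continuous on finitely many closed
sets is continuous on the union: ContinuousOn.union_of_isClosed or IsClosed.continuousOn_union style lemmas (or prove it with
ContinuousWithinAt and frequently / nhdsWithin_union, using that x not in a closed set has nhdsWithin = bot).
-/

set_option autoImplicit false

open Metric Set Filter Topology

namespace Pool.Agent.E8N

variable {E : Type*} [NormedAddCommGroup E] [InnerProductSpace ℝ E] [FiniteDimensional ℝ E]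
variable {K : Set E} {ρ R : ℝ} {p s m1 m2 : E} {A1 A2 : Set E} {d σ lam c C ε r : ℝ} {l : E → ℝ} {V : ℝ × E → E}
  {γ : ℝ → E} {a c1 c2 : ℝ}

theorem ta_ring (hL : Loc K p s A1 A2 σ lam c C ε r l V γ) (hC : 1 ≤ C) (ha : a = r / (8 * C)) (hc1 : c1 < F p s)
    {x : E} (hx : x ∈ XX K p s r c1 c2) (h1 : r / 4 < ‖x - s‖) (h2 : ‖x - s‖ ≤ r) :
    F p x ≤ c1 ∧ 2 * a ≤ |l x| ∧ (0 < l x → x ∈ A1) ∧ (l x < 0 → x ∈ A2) := by
  obtain ⟨hxS, _, hx3⟩ := hx
  have hF : F p x ≤ c1 := by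
    rcases hx3 with h | h
    · exact absurd h (not_le.mpr h1)
    · exact h
  obtain ⟨e1, e2, e3⟩ := hL.side x hxS h2 (lt_of_le_of_lt hF hc1)
  refine ⟨hF, ?_, e2, e3⟩
  have hC0 : 0 < C := by linarith
  rw [ha]
  have h3 : 2 * (r / (8 * C)) = (r / 4) / C := by
    field_simp
    ring
  rw [h3, div_le_iff₀ hC0]
  nlinarith

theorem ta_far (hG : Glo K p s m1 m2 A1 A2 d) (hr : 0 < r) (hc1 : c1 < F p s) {x : E} (hx : x ∈ XX K p s r c1 c2)
    (h1 : r / 4 < ‖x - s‖) : F p x ≤ c1 ∧ (x ∈ A1 ∨ x ∈ A2) := by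
  have _ := hr
  obtain ⟨hxS, _, hx3⟩ := hx
  have hF : F p x ≤ c1 := by
    rcases hx3 with h | h
    · exact absurd h (not_le.mpr h1)
    · exact h
  refine ⟨hF, ?_⟩
  have : x ∈ A1 ∪ A2 := by
    rw [← hG.cov]
    exact ⟨hxS, lt_of_le_of_lt hF hc1⟩
  exact this

theorem ta_range (s : E) (A1 : Set E) (l : E → ℝ) (r a : ℝ) (x : E) : thf s A1 l r a x ∈ Icc (-1 : ℝ) 1 := by
  unfold thf
  split_ifs
  · exact ⟨le_max_left _ _, max_le (by norm_num) (min_le_left _ _)⟩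
  · constructor <;> norm_num
  · constructor <;> norm_num

theorem ta_in (ha : 0 < a) {x : E} (h1 : -1 < thf s A1 l r a x) (h2 : thf s A1 l r a x < 1) :
    ‖x - s‖ ≤ r ∧ |l x| < a ∧ thf s A1 l r a x = l x / a := by
  unfold thf at h1 h2 ⊢
  split_ifs at h1 h2 ⊢ with k1 k2
  · have e1 : -1 < min 1 (l x / a) := by
      rcases lt_max_iff.mp h1 with h | h
      · exact absurd h (lt_irrefl _)
      · exact h
    have e2 : min 1 (l x / a) < 1 := lt_of_le_of_lt (le_max_right _ _) h2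
    have e3 : l x / a < 1 := by
      rcases min_lt_iff.mp e2 with h | h
      · exact absurd h (lt_irrefl _)
      · exact h
    have e4 : min 1 (l x / a) = l x / a := min_eq_right e3.le
    rw [e4] at e1 ⊢
    refine ⟨k1, ?_, max_eq_right e1.le⟩
    rw [abs_lt]
    rw [lt_div_iff₀ ha] at e1
    rw [div_lt_iff₀ ha] at e3
    constructor <;> linarith
  · exact absurd h2 (lt_irrefl _)
  · exact absurd h1 (lt_irrefl _)

theorem ta_one (ha : 0 < a) {x : E} (h : thf s A1 l r a x = 1) :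
    (‖x - s‖ ≤ r ∧ a ≤ l x) ∨ (r < ‖x - s‖ ∧ x ∈ A1) := by
  unfold thf at h
  split_ifs at h with k1 k2
  · left
    refine ⟨k1, ?_⟩
    by_contra hcon
    push Not at hcon
    have e1 : l x / a < 1 := by rw [div_lt_one ha]; exact hcon
    have e2 : max (-1) (min 1 (l x / a)) < 1 := max_lt (by norm_num) (lt_of_le_of_lt (min_le_right _ _) e1)
    rw [h] at e2
    exact lt_irrefl _ e2
  · exact Or.inr ⟨not_le.mp k1, k2⟩
  · norm_num at h

theorem ta_neg (ha : 0 < a) {x : E} (h : thf s A1 l r a x = -1) :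
    (‖x - s‖ ≤ r ∧ l x ≤ -a) ∨ (r < ‖x - s‖ ∧ x ∉ A1) := by
  unfold thf at h
  split_ifs at h with k1 k2
  · left
    refine ⟨k1, ?_⟩
    by_contra hcon
    push Not at hcon
    have e1 : -1 < l x / a := by rw [lt_div_iff₀ ha]; linarith
    have e2 : -1 < max (-1) (min 1 (l x / a)) := lt_max_of_lt_right (lt_min (by norm_num) e1)
    rw [h] at e2
    exact lt_irrefl _ e2
  · norm_num at h
  · exact Or.inr ⟨not_le.mp k1, k2⟩

theorem ta_cont (hK : Body K ρ R) (hG : Glo K p s m1 m2 A1 A2 d) (hL : Loc K p s A1 A2 σ lam c C ε r l V γ)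
    (hC : 1 ≤ C) (ha : a = r / (8 * C)) (hc1 : c1 < F p s) :
    ContinuousOn (thf s A1 l r a) (XX K p s r c1 c2) := by
  have hr := hL.hr
  have hC0 : 0 < C := by linarith
  have ha0 : 0 < a := by rw [ha]; positivity
  have hFc : Continuous (F p) := (continuous_id.sub continuous_const).norm
  have hnc : Continuous (fun x : E => ‖x - s‖) := (continuous_id.sub continuous_const).norm
  have hXc : IsClosed (XX K p s r c1 c2) := by
    have e : XX K p s r c1 c2 = S K ∩ ({x | F p x ≤ c2} ∩ ({x | ‖x - s‖ ≤ r / 4} ∪ {x | F p x ≤ c1})) := rfl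
    rw [e]
    exact (S_compact hK).isClosed.inter ((isClosed_le hFc continuous_const).inter
      ((isClosed_le hnc continuous_const).union (isClosed_le hFc continuous_const)))
  have hT1c : IsClosed (XX K p s r c1 c2 ∩ {x | ‖x - s‖ ≤ r}) := hXc.inter (isClosed_le hnc continuous_const)
  have hT2c : IsClosed ((XX K p s r c1 c2 ∩ {x | r / 2 ≤ ‖x - s‖}) ∩ {x | x ∈ A1 ∧ F p x ≤ c1}) :=
    (hXc.inter (isClosed_le continuous_const hnc)).inter (cm_compact hK hG.h1 hc1).isClosed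
  have hT3c : IsClosed ((XX K p s r c1 c2 ∩ {x | r / 2 ≤ ‖x - s‖}) ∩ {x | x ∈ A2 ∧ F p x ≤ c1}) :=
    (hXc.inter (isClosed_le continuous_const hnc)).inter (cm_compact hK hG.h2 hc1).isClosed
  have k1 : ContinuousOn (thf s A1 l r a) (XX K p s r c1 c2 ∩ {x | ‖x - s‖ ≤ r}) := by
    have h1 : Continuous fun x => max (-1) (min 1 (l x / a)) :=
      continuous_const.max (continuous_const.min (hL.l_cont.div_const a))
    refine h1.continuousOn.congr (fun x hx => ?_)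
    have hx2 : ‖x - s‖ ≤ r := hx.2
    unfold thf
    rw [if_pos hx2]
  have k2 : ContinuousOn (thf s A1 l r a) ((XX K p s r c1 c2 ∩ {x | r / 2 ≤ ‖x - s‖}) ∩ {x | x ∈ A1 ∧ F p x ≤ c1}) := by
    refine (continuousOn_const (c := (1 : ℝ))).congr (fun x hx => ?_)
    obtain ⟨⟨hxX, hx1⟩, hxA, _⟩ := hx
    have hx1' : r / 2 ≤ ‖x - s‖ := hx1
    unfold thf
    by_cases h2 : ‖x - s‖ ≤ r
    · rw [if_pos h2]
      obtain ⟨_, e2, e3, e4⟩ := ta_ring hL hC ha hc1 hxX (by linarith) h2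
      have e5 : ¬ l x < 0 := fun hl => cm_disj hG.h1 hG.h2 hG.hne hxA (e4 hl)
      rw [abs_of_nonneg (not_lt.mp e5)] at e2
      have e6 : 1 ≤ l x / a := by rw [le_div_iff₀ ha0]; linarith
      rw [min_eq_left e6]
      norm_num
    · rw [if_neg h2, if_pos hxA]
  have k3 : ContinuousOn (thf s A1 l r a) ((XX K p s r c1 c2 ∩ {x | r / 2 ≤ ‖x - s‖}) ∩ {x | x ∈ A2 ∧ F p x ≤ c1}) := by
    refine (continuousOn_const (c := (-1 : ℝ))).congr (fun x hx => ?_)
    obtain ⟨⟨hxX, hx1⟩, hxA, _⟩ := hx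
    have hx1' : r / 2 ≤ ‖x - s‖ := hx1
    unfold thf
    by_cases h2 : ‖x - s‖ ≤ r
    · rw [if_pos h2]
      obtain ⟨_, e2, e3, e4⟩ := ta_ring hL hC ha hc1 hxX (by linarith) h2
      have e5 : ¬ 0 < l x := fun hl => cm_disj hG.h1 hG.h2 hG.hne (e3 hl) hxA
      rw [abs_of_nonpos (not_lt.mp e5)] at e2
      have e6 : l x / a ≤ -1 := by rw [div_le_iff₀ ha0]; linarith
      exact max_eq_left ((min_le_right _ _).trans e6)
    · rw [if_neg h2, if_neg (fun h => cm_disj hG.h1 hG.h2 hG.hne h hxA)]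
  refine ((k1.union_of_isClosed k2 hT1c hT2c).union_of_isClosed k3 (hT1c.union hT2c) hT3c).mono ?_
  intro x hx
  by_cases h2 : ‖x - s‖ ≤ r
  · exact Or.inl (Or.inl ⟨hx, h2⟩)
  · push Not at h2
    obtain ⟨e1, e2⟩ := ta_far hG hr hc1 hx (by linarith)
    rcases e2 with e2 | e2
    · exact Or.inl (Or.inr ⟨⟨hx, show r / 2 ≤ ‖x - s‖ by linarith⟩, e2, e1⟩)
    · exact Or.inr ⟨⟨hx, show r / 2 ≤ ‖x - s‖ by linarith⟩, e2, e1⟩

end Pool.Agent.E8N
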