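import Pool.Agent.E8N.C_W
import Pool.Agent.E8N.C_N

/-!
# E8N module C_V (Lemma C): the contraction in the chart, topological part

Put r₀ = min (δ/2) (1/2) (δ > 0: field pos of Chart). For x ∈ S K, ‖x - s‖ ≤ r₀: w = pj K s x, ‖w‖ ≤ ‖x - s‖ (AChi.pj_norm), w' = wc K s e u w,
‖w'‖ ≤ ‖w‖ (wc_norm) < δ, Vf (u, x) = chi w' ∈ S K (field mem), ‖chi w' - s‖ ≤ 2 ‖w'‖ (pn_le) ≤ 2 ‖x - s‖,
lf (Vf (u, x)) = inner (pj (chi w')) e = inner w' e = inner w e (AChi.pj_chi, wc_inner). Vf (0, x) = chi w = x (wc_zero, field surj).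
Vf (1, x) = chi ((inner w e) • e) = cf (lf x) (wc_one). Continuity: chi is continuous on ball 0 δ (chi w = s + w - psi w • nu,
field cont), pj_cont, wc_cont. For cf: ‖u • e‖ = |u|, inner (u • e) e = u.
-/

set_option autoImplicit false

open Metric Set Filter Topology

namespace Pool.Agent.E8N

variable {E : Type*} [NormedAddCommGroup E] [InnerProductSpace ℝ E] [FiniteDimensional ℝ E]
variable {K : Set E} {p s : E} {δ : ℝ} {psi : AChi.Tg K s → ℝ} {H : AChi.Tg K s →L[ℝ] AChi.Tg K s}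
  {e : AChi.Tg K s}

open AChi AChart

theorem C_V_chi (h : Chart K p s δ psi H) : ContinuousOn (chi K s psi) (ball 0 δ) := by
  have h1 : ContinuousOn (fun w : Tg K s => s + (w : E)) (ball 0 δ) :=
    (continuous_const.add continuous_subtype_val).continuousOn
  exact h1.sub (h.cont.smul continuousOn_const)

theorem cv_main (h : Chart K p s δ psi H) (hs : s ∈ S K) (he : ‖e‖ = 1) :
    ∃ r₀ > 0, r₀ < δ ∧ ContinuousOn (Vf K s psi e) (Icc (0 : ℝ) 1 ×ˢ (S K ∩ closedBall s r₀)) ∧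
      (∀ u ∈ Icc (0 : ℝ) 1, ∀ x ∈ S K, ‖x - s‖ ≤ r₀ → Vf K s psi e (u, x) ∈ S K ∧
        ‖Vf K s psi e (u, x) - s‖ ≤ 2 * ‖x - s‖ ∧ lf K s e (Vf K s psi e (u, x)) = lf K s e x) ∧
      (∀ x ∈ S K, ‖x - s‖ ≤ r₀ → Vf K s psi e (0, x) = x) ∧
      (∀ x, Vf K s psi e (1, x) = cf K s psi e (lf K s e x)) ∧
      ContinuousOn (cf K s psi e) (Icc (-r₀) r₀) ∧
      ∀ u, |u| ≤ r₀ → cf K s psi e u ∈ S K ∧ ‖cf K s psi e u - s‖ ≤ 2 * |u| ∧ lf K s e (cf K s psi e u) = u := by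
  have hδ := h.pos
  obtain ⟨r₀, hr₀⟩ : ∃ r₀ : ℝ, r₀ = min (δ / 2) (1 / 2) := ⟨_, rfl⟩
  have hpos : 0 < r₀ := by rw [hr₀]; exact lt_min (by linarith) (by norm_num)
  have hle1 : r₀ ≤ δ / 2 := by rw [hr₀]; exact min_le_left _ _
  have hle2 : r₀ ≤ 1 / 2 := by rw [hr₀]; exact min_le_right _ _
  have hlt : r₀ < δ := by linarith
  have hnw : ∀ u ∈ Icc (0 : ℝ) 1, ∀ x, ‖wc K s e u (pj K s x)‖ ≤ ‖x - s‖ := fun u hu x =>
    (wc_norm he hu.1 hu.2 _).trans (pj_norm K s x)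
  have hchi := C_V_chi h
  refine ⟨r₀, hpos, hlt, ?_, fun u hu x hx hxs => ?_, fun x hx hxs => ?_, fun x => ?_, ?_, fun u hu => ?_⟩
  · have hin : Continuous fun z : ℝ × E => wc K s e z.1 (pj K s z.2) :=
      (wc_cont K s e).comp (continuous_fst.prodMk ((pj_cont K s).comp continuous_snd))
    refine hchi.comp hin.continuousOn ?_
    rintro ⟨u, x⟩ ⟨hu, hx⟩
    have hxs : ‖x - s‖ ≤ r₀ := by
      have := hx.2
      rwa [mem_closedBall, dist_eq_norm] at this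
    rw [mem_ball_zero_iff]
    exact ((hnw u hu x).trans hxs).trans_lt hlt
  · have h1 := hnw u hu x
    have h2 : ‖wc K s e u (pj K s x)‖ < δ := (h1.trans hxs).trans_lt hlt
    have h3 : ‖wc K s e u (pj K s x)‖ ≤ 1 := by linarith
    refine ⟨h.mem _ (by rwa [mem_ball_zero_iff]), ?_, ?_⟩
    · refine (pn_le h hs h2 h3).trans ?_
      linarith
    · unfold lf Vf
      rw [pj_chi, wc_inner he]
  · unfold Vf
    rw [wc_zero]
    exact h.surj x hx (hxs.trans_lt hlt)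
  · unfold Vf cf lf
    rw [wc_one]
  · have hin : Continuous fun u : ℝ => u • e := by fun_prop
    refine hchi.comp hin.continuousOn ?_
    intro u hu
    rw [mem_ball_zero_iff, norm_smul, he, mul_one, Real.norm_eq_abs]
    exact (abs_le.2 hu).trans_lt hlt
  · have h1 : ‖u • e‖ = |u| := by rw [norm_smul, he, mul_one, Real.norm_eq_abs]
    refine ⟨h.mem _ (by rw [mem_ball_zero_iff, h1]; exact hu.trans_lt hlt), ?_, ?_⟩
    · have h2 := pn_le h hs (w := u • e) (by rw [h1]; exact hu.trans_lt hlt) (by rw [h1]; linarith)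
      rwa [h1] at h2
    · unfold lf cf
      rw [pj_chi, inner_smul_left, real_inner_self_eq_norm_sq, he]
      simp

end Pool.Agent.E8N
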