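import Pool.Agent.E8N.CSad

/-!
# E8N module C_W (Lemma C): algebra in the tangent space

w = l e + v, l = inner w e, v = w - l e orthogonal to the unit vector e; wc K s e u w = l e + (1-u) v.
`wc_norm`: ‖wc‖^2 = l^2 + (1-u)^2 ‖v‖^2 ≤ l^2 + ‖v‖^2 = ‖w‖^2. `wc_H`: with H e = - lam e, H symmetric,
inner (H v) e = inner v (H e) = 0 and inner (H w) w = - lam l^2 + inner (H v) v; the same for wc with
(1-u)^2 inner (H v) v, and inner (H v) v ≥ mu ‖v‖^2 ≥ 0. (All these hold in any real inner product space V; K and s are dummies.)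
`wc_le`: the parameter only needs 0 ≤ u ≤ 1. `wc_cont`: continuity in (u, w).
-/

set_option autoImplicit false

open Metric Set Filter Topology

namespace Pool.Agent.E8N

variable {E : Type*} [NormedAddCommGroup E] [InnerProductSpace ℝ E] [FiniteDimensional ℝ E]

open AChi AChart

theorem wc_zero (K : Set E) (s : E) (e : Tg K s) (w : Tg K s) : wc K s e 0 w = w := by
  unfold wc
  rw [sub_zero, one_smul, add_sub_cancel]

theorem wc_one (K : Set E) (s : E) (e : Tg K s) (w : Tg K s) : wc K s e 1 w = (inner ℝ w e : ℝ) • e := by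
  unfold wc
  rw [sub_self, zero_smul, add_zero]

theorem wc_cont (K : Set E) (s : E) (e : Tg K s) : Continuous fun z : ℝ × Tg K s => wc K s e z.1 z.2 := by
  unfold wc
  have h0 : Continuous fun z : ℝ × Tg K s => (inner ℝ z.2 e : ℝ) :=
    continuous_snd.inner continuous_const
  have h1 : Continuous fun z : ℝ × Tg K s => (inner ℝ z.2 e : ℝ) • e := h0.smul continuous_const
  have h2 : Continuous fun z : ℝ × Tg K s => (1 - z.1 : ℝ) := continuous_const.sub continuous_fst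
  exact h1.add (h2.smul (continuous_snd.sub h1))

theorem C_W_perp {V : Type*} [NormedAddCommGroup V] [InnerProductSpace ℝ V] {e : V} (he : ‖e‖ = 1)
    (w : V) : (inner ℝ (w - (inner ℝ w e : ℝ) • e) e : ℝ) = 0 := by
  rw [inner_sub_left, real_inner_smul_left, real_inner_self_eq_norm_sq, he]
  ring

theorem C_W_sq {V : Type*} [NormedAddCommGroup V] [InnerProductSpace ℝ V] {e v : V} (he : ‖e‖ = 1)
    (hv : (inner ℝ v e : ℝ) = 0) (l c : ℝ) : ‖l • e + c • v‖ ^ 2 = l ^ 2 + c ^ 2 * ‖v‖ ^ 2 := by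
  rw [norm_add_sq_real, norm_smul, norm_smul, he, real_inner_smul_left, real_inner_smul_right,
    real_inner_comm, hv, mul_pow, mul_pow, Real.norm_eq_abs, Real.norm_eq_abs, sq_abs, sq_abs]
  ring

theorem C_W_quad {V : Type*} [NormedAddCommGroup V] [InnerProductSpace ℝ V] {e v : V} (he : ‖e‖ = 1)
    (hv : (inner ℝ v e : ℝ) = 0) {H : V →L[ℝ] V} (symm : ∀ v w, (inner ℝ (H v) w : ℝ) = inner ℝ v (H w))
    {lam : ℝ} (hHe : H e = - (lam • e)) (l c : ℝ) :
    (inner ℝ (H (l • e + c • v)) (l • e + c • v) : ℝ) = - (lam * l ^ 2) + c ^ 2 * inner ℝ (H v) v := by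
  have h1 : (inner ℝ (H v) e : ℝ) = 0 := by
    rw [symm, hHe, inner_neg_right, real_inner_smul_right, hv]
    ring
  have h2 : (inner ℝ e v : ℝ) = 0 := by rw [real_inner_comm, hv]
  rw [map_add, map_smul, map_smul, hHe]
  simp only [inner_add_left, inner_add_right, real_inner_smul_left, real_inner_smul_right,
    inner_neg_left, h1, h2, real_inner_self_eq_norm_sq e, he]
  ring

theorem wc_inner {K : Set E} {s : E} {e : Tg K s} (he : ‖e‖ = 1) (u : ℝ) (w : Tg K s) :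
    (inner ℝ (wc K s e u w) e : ℝ) = inner ℝ w e := by
  unfold wc
  rw [inner_add_left, real_inner_smul_left, real_inner_smul_left, C_W_perp he,
    real_inner_self_eq_norm_sq, he]
  ring

theorem wc_norm {K : Set E} {s : E} {e : Tg K s} (he : ‖e‖ = 1) {u : ℝ} (h0 : 0 ≤ u) (h1 : u ≤ 1) (w : Tg K s) :
    ‖wc K s e u w‖ ≤ ‖w‖ := by
  have hp := C_W_perp he w
  have e1 := C_W_sq he hp (inner ℝ w e : ℝ) (1 - u)
  have e2 := C_W_sq he hp (inner ℝ w e : ℝ) 1
  rw [one_smul, add_sub_cancel] at e2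
  refine abs_le_of_sq_le_sq' ?_ (norm_nonneg _) |>.2
  unfold wc
  rw [e1, e2]
  have h3 : (1 - u) ^ 2 ≤ 1 ^ 2 := by nlinarith
  have h4 := mul_le_mul_of_nonneg_right h3 (sq_nonneg ‖w - (inner ℝ w e : ℝ) • e‖)
  linarith

theorem wc_H {K : Set E} {s : E} {e : Tg K s} (he : ‖e‖ = 1) {H : Tg K s →L[ℝ] Tg K s}
    (symm : ∀ v w, (inner ℝ (H v) w : ℝ) = inner ℝ v (H w)) {lam mu : ℝ} (hmu : 0 < mu) (hHe : H e = - (lam • e))
    (hH : ∀ w, (inner ℝ w e : ℝ) = 0 → mu * ‖w‖ ^ 2 ≤ inner ℝ (H w) w) {u : ℝ} (h0 : 0 ≤ u) (h1 : u ≤ 1)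
    (w : Tg K s) : (inner ℝ (H (wc K s e u w)) (wc K s e u w) : ℝ) ≤ inner ℝ (H w) w := by
  have hp := C_W_perp he w
  have e1 := C_W_quad he hp symm hHe (inner ℝ w e : ℝ) (1 - u)
  have e2 := C_W_quad he hp symm hHe (inner ℝ w e : ℝ) 1
  rw [one_smul, add_sub_cancel] at e2
  unfold wc
  rw [e1, e2]
  have h3 : (1 - u) ^ 2 ≤ 1 ^ 2 := by nlinarith
  have h5 : 0 ≤ (inner ℝ (H (w - (inner ℝ w e : ℝ) • e)) (w - (inner ℝ w e : ℝ) • e) : ℝ) :=
    le_trans (mul_nonneg hmu.le (sq_nonneg _)) (hH _ hp)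
  have h4 := mul_le_mul_of_nonneg_right h3 h5
  linarith

end Pool.Agent.E8N
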