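import Pool.Agent.E8N.DDefs

/-!
# E8N DAlg

Chain algebra (all by `lin_ext` and induction on the list, as in `Pool.Agent.H84.FreeInvolution`).
* `bd_bd`: induction on `L`: `bd (bdL (v :: l)) = bd (one l) + bd (pre v (bdL l)) = bdL l + (bdL l + pre v (bd (bdL l))) = 0` (`bd_pre`, `add_self'`).
* `ev_om_bd`: `ev (om (f :: fs)) (bd c) = ev (al f fs) (bd (bd c)) = 0` (`ev_al_bd` backwards).
* `ev_push`: `lin_ext`.
* `push_pr`: on a list: induction with `push_pre`; `pr_push`: on a list: `prL (f ∘ s) (g ∘ s) L = prL f g (L.map s)` by induction.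
* `om_congr`: if the functions of two lists of equal length agree pairwise on the members of `L` then `om` agrees; here in the form for `fl e N`, `fl e' N`: induction on `N`, for all lists `L` (the tail of a list has fewer members).
* `ev_congr`: two cochains which agree on all lists with property `P` agree on `Supp P` (as `ev_eq_zero`).
-/

set_option autoImplicit false

open Metric Set Filter Topology Pool.Agent.H84

namespace Pool.Agent.E8N

theorem bd_bd {V : Type*} (c : Ch V) : bd (bd c) = 0 := by
  have h : (bd (V := V)) ∘ₗ bd = 0 := by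
    apply lin_ext
    intro L
    simp only [LinearMap.comp_apply, bd_one, LinearMap.zero_apply]
    induction L with
    | nil => simp [bdL]
    | cons v l ih =>
      rw [bdL, map_add, bd_one, bd_pre, ih, map_zero, add_zero, add_self']
  simpa using LinearMap.congr_fun h c

theorem ev_om_bd {V : Type*} (f : V → ZMod 2) (fs : List (V → ZMod 2)) (c : Ch V) : ev (om (f :: fs)) (bd c) = 0 := by
  rw [← ev_al_bd, bd_bd, map_zero]

theorem ev_push {V : Type*} (g : List V → ZMod 2) (s : V → V) (c : Ch V) :
    ev g (push s c) = ev (fun L => g (L.map s)) c := by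
  have h : (ev g) ∘ₗ push s = ev (fun L => g (L.map s)) := by
    apply lin_ext
    intro L
    simp only [LinearMap.comp_apply, push_one, ev_one]
  simpa using LinearMap.congr_fun h c

theorem push_pr {V : Type*} {s f g f' g' : V → V} (hf : ∀ v, s (f v) = f' (s v)) (hg : ∀ v, s (g v) = g' (s v))
    (c : Ch V) : push s (pr f g c) = pr f' g' (push s c) := by
  have h : (push s) ∘ₗ (pr f g) = (pr f' g') ∘ₗ (push s) := by
    apply lin_ext
    intro L
    simp only [LinearMap.comp_apply, push_one, pr_one]
    induction L with
    | nil => simp [prL]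
    | cons v l ih =>
      have e : (l.map g).map s = (l.map s).map g' := by
        rw [List.map_map, List.map_map]
        exact List.map_congr_left (fun v _ => hg v)
      rw [prL, map_add, push_one, push_pre, ih, List.map_cons, List.map_cons, List.map_cons, prL, hf, hg, e]
  simpa using LinearMap.congr_fun h c

theorem pr_push {V : Type*} (f g s : V → V) (c : Ch V) :
    pr (fun v => f (s v)) (fun v => g (s v)) c = pr f g (push s c) := by
  have h : pr (fun v => f (s v)) (fun v => g (s v)) = (pr f g) ∘ₗ (push s) := by
    apply lin_ext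
    intro L
    simp only [LinearMap.comp_apply, push_one, pr_one]
    induction L with
    | nil => simp [prL]
    | cons v l ih =>
      have e : l.map (fun v => g (s v)) = (l.map s).map g := by
        rw [List.map_map]
        rfl
      rw [prL, ih, List.map_cons, prL, e]
  simpa using LinearMap.congr_fun h c

theorem ev_congr {V : Type*} {P : List V → Prop} {g g' : List V → ZMod 2} (h : ∀ L, P L → g L = g' L) {c : Ch V}
    (hc : c ∈ Supp P) : ev g c = ev g' c := by
  have h1 : ev (fun L => g L - g' L) = ev g - ev g' := by
    apply lin_ext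
    intro L
    simp only [LinearMap.sub_apply, ev_one]
  have h2 : ev (fun L => g L - g' L) c = 0 := ev_eq_zero (P := P) (fun L hL => sub_eq_zero.mpr (h L hL)) hc
  rw [h1, LinearMap.sub_apply] at h2
  exact sub_eq_zero.mp h2

theorem om_congr {e e' : ℕ → LV → ZMod 2} {N : ℕ} {L : List LV} (h : ∀ i < N, ∀ v ∈ L, e i v = e' i v) :
    om (fl e N) L = om (fl e' N) L := by
  induction N generalizing L with
  | zero => rfl
  | succ N ih =>
    match L, h with
    | [], _ => simp
    | [v], _ => rfl
    | u :: v :: l, h =>
      rw [fl, fl, om_cons_cons_cons, om_cons_cons_cons, h N (Nat.lt_succ_self N) u (by simp),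
        h N (Nat.lt_succ_self N) v (by simp),
        ih (L := v :: l) (fun i hi w hw => h i (Nat.lt_succ_of_lt hi) w (List.mem_cons_of_mem _ hw))]

theorem DAlg_mem {e : ℕ → LV → ZMod 2} {N i : ℕ} (hi : i < N) : e i ∈ fl e N := by
  induction N with
  | zero => omega
  | succ N ih =>
    rw [fl, List.mem_cons]
    rcases Nat.lt_succ_iff_lt_or_eq.mp hi with h | h
    · exact Or.inr (ih h)
    · exact Or.inl (by rw [h])

theorem om_fl_zero {e : ℕ → LV → ZMod 2} {N i : ℕ} (hi : i < N) {L : List LV} {c : ZMod 2}
    (h : ∀ v ∈ L, e i v = c) : om (fl e N) L = 0 := by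
  exact om_eq_zero_of_const (fl e N) L (e i) (DAlg_mem hi) c h

theorem om_fl_map {e : ℕ → LV → ZMod 2} {N : ℕ} {s : LV → LV} (L : List LV) :
    om (fl e N) (L.map s) = om (fl (fun i v => e i (s v)) N) L := by
  induction N generalizing L with
  | zero =>
    match L with
    | [] => rfl
    | [v] => rfl
    | u :: v :: l => rfl
  | succ N ih =>
    match L with
    | [] => simp
    | [v] => rfl
    | u :: v :: l =>
      have h1 := ih (v :: l)
      rw [List.map_cons] at h1
      rw [fl, fl, List.map_cons, List.map_cons, om_cons_cons_cons, om_cons_cons_cons, h1]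

end Pool.Agent.E8N
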