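import Pool.Agent.E8N.DAlg

/-!
# E8N DBox

Boundary of the box chain, by telescoping: for `m : ℕ` by induction
`bd (∑ t < m, pr (sh k t) (sh k (t+1)) c) + ∑ t < m, pr (sh k t) (sh k (t+1)) (bd c) = push (sh k 0) c + push (sh k m) c` (`bd_pr`, `add_self'`; same proof as `bd_coneN` in `FreeInvolution`).
`tele` is this statement, `bd_boxc` is the case `m = n k`, `c = boxc A n k` (chains mod 2: move the sum to the other side, `add_self'`).
-/

set_option autoImplicit false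

open Metric Set Filter Topology Pool.Agent.H84

namespace Pool.Agent.E8N

theorem tele (k : ℕ) (m : ℕ) (c : Ch LV) :
    bd (∑ t ∈ Finset.range m, pr (sh k (t : ℤ)) (sh k ((t : ℤ) + 1)) c) +
      ∑ t ∈ Finset.range m, pr (sh k (t : ℤ)) (sh k ((t : ℤ) + 1)) (bd c) =
      push (sh k 0) c + push (sh k (m : ℤ)) c := by
  induction m with
  | zero => simp [add_self']
  | succ m ih =>
    rw [Finset.sum_range_succ, Finset.sum_range_succ, map_add]
    have h := bd_pr (sh k (m : ℤ)) (sh k ((m : ℤ) + 1)) c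
    have hc : ((m + 1 : ℕ) : ℤ) = (m : ℤ) + 1 := by push_cast; rfl
    rw [hc]
    calc _ = (bd (∑ t ∈ Finset.range m, pr (sh k (t : ℤ)) (sh k ((t : ℤ) + 1)) c) +
            ∑ t ∈ Finset.range m, pr (sh k (t : ℤ)) (sh k ((t : ℤ) + 1)) (bd c)) +
            (bd (pr (sh k (m : ℤ)) (sh k ((m : ℤ) + 1)) c) +
            pr (sh k (m : ℤ)) (sh k ((m : ℤ) + 1)) (bd c)) := by abel
      _ = push (sh k 0) c + push (sh k (m : ℤ)) c + (push (sh k (m : ℤ)) c +
            push (sh k ((m : ℤ) + 1)) c) := by rw [ih, h]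
      _ = push (sh k 0) c + push (sh k ((m : ℤ) + 1)) c +
            (push (sh k (m : ℤ)) c + push (sh k (m : ℤ)) c) := by abel
      _ = _ := by rw [add_self', add_zero]

theorem bd_boxc (A : LV) (n : ℕ → ℕ) (k : ℕ) :
    bd (boxc A n (k + 1)) = (∑ t ∈ Finset.range (n k), pr (sh k (t : ℤ)) (sh k ((t : ℤ) + 1)) (bd (boxc A n k))) +
      push (sh k 0) (boxc A n k) + push (sh k (n k : ℤ)) (boxc A n k) := by
  have h := tele k (n k) (boxc A n k)
  have h1 : bd (boxc A n (k + 1)) =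
      bd (∑ t ∈ Finset.range (n k), pr (sh k (t : ℤ)) (sh k ((t : ℤ) + 1)) (boxc A n k)) := by rw [boxc]
  rw [h1]
  obtain ⟨X, hX⟩ : ∃ X : Ch LV, X =
    bd (∑ t ∈ Finset.range (n k), pr (sh k (t : ℤ)) (sh k ((t : ℤ) + 1)) (boxc A n k)) := ⟨_, rfl⟩
  obtain ⟨Y, hY⟩ : ∃ Y : Ch LV, Y =
    ∑ t ∈ Finset.range (n k), pr (sh k (t : ℤ)) (sh k ((t : ℤ) + 1)) (bd (boxc A n k)) := ⟨_, rfl⟩
  rw [← hX, ← hY] at h ⊢
  have h2 : X = (X + Y) + Y := by rw [add_assoc, add_self', add_zero]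
  rw [h2, h]
  abel

end Pool.Agent.E8N
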