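import Pool.Agent.E8N.DDefs

/-!
# E8N DSign

Uniform constancy of the sign of a coordinate on small parts of a compact set without zeros.
Proof. `μ = inf` of `‖G z‖` (sup norm) over the compact `Q` is attained, so `μ > 0` (if `Q` is empty take `δ = 1`). `G` is uniformly continuous on `Q` (`IsCompact.uniformContinuousOn_of_continuous`): `δ > 0` with `dist z z' ≤ δ → dist (G z) (G z') < μ` for `z, z' ∈ Q`. For `z ∈ Q` there is `i` with `|G z i| = ‖G z‖ ≥ μ`
(`pi_norm`; `N > 0`, e.g. `Pi.exists_apply_eq_norm`... or by contradiction with `pi_norm_lt_iff`); for `z' ∈ Q`, `dist z' z ≤ δ`: `|G z' i - G z i| < μ ≤ |G z i|`, so both have the same strict sign.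
-/

set_option autoImplicit false

open Metric Set Filter Topology Pool.Agent.H84

namespace Pool.Agent.E8N

theorem sign_const {M : Type*} [MetricSpace M] {N : ℕ} {G : M → Fin N → ℝ} {Q : Set M} (hQ : IsCompact Q)
    (hG : ContinuousOn G Q) (hne : ∀ z ∈ Q, G z ≠ 0) :
    ∃ δ > 0, ∀ z ∈ Q, ∃ i : Fin N, ∀ z' ∈ Q, dist z' z ≤ δ → (G z' i < 0 ↔ G z i < 0) := by
  rcases Q.eq_empty_or_nonempty with hE | hE
  · refine ⟨1, one_pos, fun z hz => ?_⟩
    rw [hE] at hz
    exact absurd hz (Set.notMem_empty z)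
  obtain ⟨z₀, hz₀, hmin⟩ := hQ.exists_isMinOn hE hG.norm
  have hμ : 0 < ‖G z₀‖ := norm_pos_iff.mpr (hne z₀ hz₀)
  have huc := hQ.uniformContinuousOn_of_continuous hG
  rw [Metric.uniformContinuousOn_iff] at huc
  obtain ⟨δ, hδ, hd⟩ := huc ‖G z₀‖ hμ
  refine ⟨δ / 2, by linarith, fun z hz => ?_⟩
  have hz1 : ‖G z₀‖ ≤ ‖G z‖ := hmin hz
  have hi : ∃ i : Fin N, ‖G z₀‖ ≤ |G z i| := by
    by_contra hcon
    push Not at hcon
    have h1 : ‖G z‖ < ‖G z₀‖ := (pi_norm_lt_iff hμ).mpr (fun i => by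
      rw [Real.norm_eq_abs]
      exact hcon i)
    linarith
  obtain ⟨i, hi⟩ := hi
  refine ⟨i, fun z' hz' hdist => ?_⟩
  have h2 : dist (G z') (G z) < ‖G z₀‖ := hd z' hz' z hz (by linarith)
  have h3 : |G z' i - G z i| < ‖G z₀‖ := by
    have h4 := norm_le_pi_norm (G z' - G z) i
    rw [dist_eq_norm] at h2
    rw [Pi.sub_apply, Real.norm_eq_abs] at h4
    linarith
  have h5 := abs_lt.mp h3
  constructor
  · intro h6
    by_contra h7
    push Not at h7
    rw [abs_of_nonneg h7] at hi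
    linarith [h5.1]
  · intro h6
    rw [abs_of_neg h6] at hi
    linarith [h5.2]

end Pool.Agent.E8N
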