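import Pool.Agent.E8N.DSupp
import Pool.Agent.E8N.DSign

/-!
# E8N DCell0

The count of a small cell without zeros is 0. Proof. `sign_const` on `Q`: `δ`; `h₀ = δ`. The points of the lists of `boxc w 1 N` are lattice points `v` with `w i ≤ v i ≤ w i + 1` for `i < N` (`boxc_supp`: the cell is `w` itself, since `A = w`, `n = 1`), their real points are in `Q` and pairwise at distance `≤ h < δ`.
So with `i` from `sign_const` for the point `pt N h w ∈ Q` the label `sg f h i` is constant on all these lists and `om_fl_zero` applies (`ev_eq_zero`, `N > 0`).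
-/

set_option autoImplicit false

open Metric Set Filter Topology Pool.Agent.H84

namespace Pool.Agent.E8N

theorem cell_zero {N : ℕ} (hN : 0 < N) {f : (Fin N → ℝ) → Fin N → ℝ} {Q : Set (Fin N → ℝ)} (hQ : IsCompact Q)
    (hf : ContinuousOn f Q) (hne : ∀ x ∈ Q, f x ≠ 0) :
    ∃ h₀ > 0, ∀ h, 0 < h → h < h₀ → ∀ w : LV,
      (∀ x : Fin N → ℝ, (∀ i : Fin N, h * (w i : ℝ) ≤ x i ∧ x i ≤ h * ((w i : ℝ) + 1)) → x ∈ Q) →
      cnt (sg f h) N w (fun _ => 1) = 0 := by
  classical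
  obtain ⟨δ, hδ, hs⟩ := sign_const hQ hf hne
  refine ⟨δ, hδ, fun h hh hhδ w hcell => ?_⟩
  have hpw : pt N h w ∈ Q := by
    refine hcell _ (fun i => ?_)
    unfold pt
    constructor
    · exact le_rfl
    · nlinarith
  obtain ⟨i, hi⟩ := hs _ hpw
  unfold cnt
  refine ev_eq_zero (P := CellL w (fun _ => 1) N) ?_ (boxc_supp w (fun _ => 1) N)
  rintro L ⟨⟨w', hw', hL⟩, -⟩
  refine om_fl_zero i.2 (c := sg f h i w) (fun v hv => ?_)
  have hvi : ∀ j : Fin N, (w j : ℝ) ≤ (v j : ℝ) ∧ (v j : ℝ) ≤ (w j : ℝ) + 1 := by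
    intro j
    have h1 := hw' j j.2
    have h2 := hL v hv j j.2
    have h3 : w' j = w j := by
      have h4 : w' j + 1 ≤ w j + ((1 : ℕ) : ℤ) := h1.2
      push_cast at h4
      omega
    rw [h3] at h2
    constructor
    · exact_mod_cast h2.1
    · exact_mod_cast h2.2
  have hpv : pt N h v ∈ Q := by
    refine hcell _ (fun j => ?_)
    unfold pt
    constructor
    · exact mul_le_mul_of_nonneg_left (hvi j).1 hh.le
    · exact mul_le_mul_of_nonneg_left (hvi j).2 hh.le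
  have hdist : dist (pt N h v) (pt N h w) ≤ δ := by
    refine (dist_pi_le_iff hδ.le).mpr (fun j => ?_)
    unfold pt
    rw [Real.dist_eq, ← mul_sub, abs_mul, abs_of_pos hh, abs_of_nonneg (by linarith [(hvi j).1])]
    have h5 : (v j : ℝ) - (w j : ℝ) ≤ 1 := by linarith [(hvi j).2]
    nlinarith
  have hiff := hi _ hpv hdist
  unfold sg
  have h6 : (∃ hi' : (i : ℕ) < N, f (pt N h v) ⟨(i : ℕ), hi'⟩ < 0) ↔
      (∃ hi' : (i : ℕ) < N, f (pt N h w) ⟨(i : ℕ), hi'⟩ < 0) := by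
    constructor
    · rintro ⟨a, ha⟩
      exact ⟨a, hiff.mp ha⟩
    · rintro ⟨a, ha⟩
      exact ⟨a, hiff.mpr ha⟩
  simp only [h6]

end Pool.Agent.E8N
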