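import Pool.Agent.E8N.DAlg

/-!
# E8N DCells

Decomposition of the box into unit cells.
* `mem_cells`: induction on `k` (`Finset.mem_image`, `Finset.mem_product`; from `w` with `A k ≤ w k < A k + n k` recover `t = w k - A k` and `w' = Function.update w k (A k)`).
* `push_boxc`: for `k ≤ j`, `push (sh j t) (boxc w n k) = boxc (sh j t w) n k`: induction on `k` with `push_pr` (`sh j t` commutes with `sh k s` for `k ≠ j`; `map_sum`).
* `boxc_cells`: induction on `k`: `boxc A n (k+1) = ∑ t < n k, pr (sh k t) (sh k (t+1)) (∑ w ∈ cells A n k, boxc w 1 k)`, and `pr (sh k t) (sh k (t+1)) c = pr (sh k 0) (sh k 1) (push (sh k t) c)` (`pr_push`: `sh k 0 (sh k t v) = sh k t v`, `sh k 1 (sh k t v) = sh k (t+1) v`),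
  `push (sh k t) (boxc w 1 k) = boxc (sh k t w) 1 k`, so the term is `boxc (sh k t w) 1 (k+1)` (its defining sum has the single term `t = 0`, as `1 = (fun _ => 1) k`). The map `(t, w) ↦ sh k t w` is injective on `range (n k) × cells A n k`, since `w k = A k` there (`mem_cells`); `Finset.sum_image`, `Finset.sum_product`.
* `cnt_cells`: apply `ev` (linear).
-/

set_option autoImplicit false

open Metric Set Filter Topology Pool.Agent.H84

namespace Pool.Agent.E8N

theorem DCells_same (k : ℕ) (t : ℤ) (v : LV) : sh k t v k = v k + t := by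
  unfold sh
  rw [Function.update_self]

theorem DCells_ne {k i : ℕ} (h : i ≠ k) (t : ℤ) (v : LV) : sh k t v i = v i := by
  unfold sh
  rw [Function.update_of_ne h]

theorem DCells_comm {j k : ℕ} (h : k ≠ j) (t s : ℤ) (v : LV) :
    sh j t (sh k s v) = sh k s (sh j t v) := by
  funext i
  by_cases hi : i = j
  · subst hi
    rw [DCells_same, DCells_ne h.symm, DCells_ne h.symm, DCells_same]
  · rw [DCells_ne hi]
    by_cases hk : i = k
    · subst hk
      rw [DCells_same, DCells_same, DCells_ne h]
    · rw [DCells_ne hk, DCells_ne hk, DCells_ne hi]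

theorem DCells_add (k : ℕ) (t s : ℤ) (v : LV) : sh k s (sh k t v) = sh k (t + s) v := by
  funext i
  by_cases hi : i = k
  · subst hi
    rw [DCells_same, DCells_same, DCells_same, add_assoc]
  · rw [DCells_ne hi, DCells_ne hi, DCells_ne hi]

theorem mem_cells (A : LV) (n : ℕ → ℕ) (k : ℕ) (w : LV) :
    w ∈ cells A n k ↔ (∀ i < k, A i ≤ w i ∧ w i < A i + n i) ∧ ∀ i, k ≤ i → w i = A i := by
  classical
  induction k generalizing w with
  | zero =>
    rw [cells, Finset.mem_singleton]
    constructor
    · rintro rfl
      exact ⟨fun i hi => absurd hi (Nat.not_lt_zero i), fun i _ => rfl⟩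
    · rintro ⟨-, h⟩
      exact funext fun i => h i (Nat.zero_le i)
  | succ k ih =>
    rw [cells, Finset.mem_image]
    constructor
    · rintro ⟨⟨t, w'⟩, hz, rfl⟩
      rw [Finset.mem_product, Finset.mem_range, ih] at hz
      obtain ⟨ht, h1, h2⟩ := hz
      refine ⟨fun i hi => ?_, fun i hi => ?_⟩
      · by_cases hik : i = k
        · subst hik
          rw [DCells_same]
          simp only at ht h2 ⊢
          rw [h2 i le_rfl]
          constructor <;> omega
        · rw [DCells_ne hik]
          exact h1 i (by omega)
      · rw [DCells_ne (by omega)]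
        exact h2 i (by omega)
    · rintro ⟨h1, h2⟩
      have hk := h1 k (Nat.lt_succ_self k)
      refine ⟨((w k - A k).toNat, Function.update w k (A k)), ?_, ?_⟩
      · rw [Finset.mem_product, Finset.mem_range, ih]
        refine ⟨by show (w k - A k).toNat < n k; omega, fun i hi => ?_, fun i hi => ?_⟩
        · show A i ≤ Function.update w k (A k) i ∧ Function.update w k (A k) i < A i + n i
          rw [Function.update_of_ne (by omega)]
          exact h1 i (by omega)
        · show Function.update w k (A k) i = A i
          by_cases hik : i = k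
          · subst hik
            rw [Function.update_self]
          · rw [Function.update_of_ne hik]
            exact h2 i (by omega)
      · show sh k (((w k - A k).toNat : ℕ) : ℤ) (Function.update w k (A k)) = w
        funext i
        by_cases hik : i = k
        · subst hik
          rw [DCells_same, Function.update_self]
          omega
        · rw [DCells_ne hik, Function.update_of_ne hik]

theorem push_boxc (n : ℕ → ℕ) (k j : ℕ) (hkj : k ≤ j) (t : ℤ) (w : LV) :
    push (sh j t) (boxc w n k) = boxc (sh j t w) n k := by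
  induction k with
  | zero =>
    rw [boxc, boxc, push_one]
    rfl
  | succ k ih =>
    rw [boxc, boxc, map_sum, ← ih (by omega)]
    refine Finset.sum_congr rfl fun s _ => ?_
    exact push_pr (fun v => DCells_comm (by omega) _ _ v) (fun v => DCells_comm (by omega) _ _ v) _

theorem boxc_cells (A : LV) (n : ℕ → ℕ) (k : ℕ) :
    boxc A n k = ∑ w ∈ cells A n k, boxc w (fun _ => 1) k := by
  classical
  induction k with
  | zero =>
    rw [cells, Finset.sum_singleton, boxc, boxc]
  | succ k ih =>
    have hinj : Set.InjOn (fun z : ℕ × LV => sh k (z.1 : ℤ) z.2)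
        ((Finset.range (n k) ×ˢ cells A n k : Finset (ℕ × LV)) : Set (ℕ × LV)) := by
      rintro ⟨t, w⟩ hz ⟨t', w'⟩ hz' h
      rw [Finset.mem_coe, Finset.mem_product, mem_cells] at hz hz'
      have h1 : w k = A k := hz.2.2 k le_rfl
      have h2 : w' k = A k := hz'.2.2 k le_rfl
      have h0 : ∀ i, sh k (t : ℤ) w i = sh k (t' : ℤ) w' i := fun i => congrFun h i
      have h3 := h0 k
      rw [DCells_same, DCells_same, h1, h2] at h3
      have h4 : t = t' := by omega
      have h5 : w = w' := by
        funext i
        by_cases hik : i = k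
        · subst hik
          rw [h1, h2]
        · have h6 := h0 i
          rwa [DCells_ne hik, DCells_ne hik] at h6
      rw [h4, h5]
    rw [cells, Finset.sum_image hinj, Finset.sum_product, boxc]
    refine Finset.sum_congr rfl fun t _ => ?_
    rw [ih, map_sum]
    refine Finset.sum_congr rfl fun w _ => ?_
    rw [boxc, Finset.sum_range_one, ← push_boxc _ k k le_rfl, ← pr_push]
    have e1 : (fun v => sh k (((0 : ℕ) : ℕ) : ℤ) (sh k (t : ℤ) v)) = sh k (t : ℤ) := by
      funext v
      rw [DCells_add, Nat.cast_zero, add_zero]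
    have e2 : (fun v => sh k ((((0 : ℕ) : ℕ) : ℤ) + 1) (sh k (t : ℤ) v)) = sh k ((t : ℤ) + 1) := by
      funext v
      rw [DCells_add, Nat.cast_zero, zero_add]
    rw [e1, e2]

theorem cnt_cells (e : ℕ → LV → ZMod 2) (N : ℕ) (A : LV) (n : ℕ → ℕ) :
    cnt e N A n = ∑ w ∈ cells A n N, cnt e N w (fun _ => 1) := by
  unfold cnt
  rw [boxc_cells, map_sum]

end Pool.Agent.E8N
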