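import Mathlib

/-!
# E8N: 8 normals through an interior point of every convex body (MP_00eb82_gt) - common definitions

Text: /team-store/notes_MP_00eb82_gt_helper8_8normals.md.
`K` convex body with `closedBall 0 ρ ⊆ K ⊆ closedBall 0 R`; `P K` metric projection; `S K` the outer parallel
hypersurface at distance 1; `ν K x = x - P K x`; `F p x = ‖x - p‖`; `τ K p x` the tangential part of `x - p`;
`Crit K p` the critical points; `gm` / `gp` descending and ascending steps; `pass` pass level; `Two`, `Three`
two (three) pairwise separated points.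
-/

set_option autoImplicit false

open Metric Set Filter Topology

namespace Pool.Agent.E8N

noncomputable section

variable {E : Type*} [NormedAddCommGroup E] [InnerProductSpace ℝ E]

/-- convex body between two balls centred at the origin -/
structure Body (K : Set E) (ρ R : ℝ) : Prop where
  cpt : IsCompact K
  conv : Convex ℝ K
  hρ : 0 < ρ
  ball : closedBall (0 : E) ρ ⊆ K
  sub : K ⊆ closedBall (0 : E) R

open Classical in
/-- metric projection onto `K` -/
def P (K : Set E) (y : E) : E :=
  if h : ∃ x ∈ K, ∀ w ∈ K, inner ℝ (y - x) (w - x) ≤ 0 then h.choose else 0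

/-- unit normal (on `S K`) -/
def nu (K : Set E) (x : E) : E := x - P K x

/-- outer parallel hypersurface at distance one -/
def S (K : Set E) : Set E := {x | ‖x - P K x‖ = 1}

/-- retraction of the complement of `K` onto `S K` -/
def ret (K : Set E) (y : E) : E := P K y + ‖y - P K y‖⁻¹ • (y - P K y)

open Classical in
/-- projection onto the outer parallel body `{dist ≤ 1}` -/
def P1 (K : Set E) (y : E) : E := if ‖y - P K y‖ ≤ 1 then y else ret K y

/-- distance from `p` -/
def F (p x : E) : ℝ := ‖x - p‖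

/-- tangential part of `x - p` at `x ∈ S K` -/
def tau (K : Set E) (p x : E) : E := (x - p) - inner ℝ (x - p) (nu K x) • nu K x

/-- critical points of `F p` on `S K` -/
def Crit (K : Set E) (p : E) : Set E := {x | x ∈ S K ∧ tau K p x = 0}

/-- descending step -/
def gm (K : Set E) (s : ℝ) (p x : E) : E := P1 K (x - s • tau K p x)

/-- ascending step -/
def gp (K : Set E) (s : ℝ) (p x : E) : E := P1 K (x + s • tau K p x)

/-- direction of `x` seen from `p` -/
def dir (p x : E) : E := ‖x - p‖⁻¹ • (x - p)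

/-- pass level of `f` on `X` between `x` and `y` -/
def pass {α : Type*} [TopologicalSpace α] (X : Set α) (f : α → ℝ) (x y : α) : ℝ :=
  sInf {t | ∃ C ⊆ X, IsPreconnected C ∧ x ∈ C ∧ y ∈ C ∧ ∀ z ∈ C, f z ≤ t}

/-- separated pair -/
def Sepd {α : Type*} [TopologicalSpace α] (X : Set α) (f : α → ℝ) (x y : α) : Prop :=
  max (f x) (f y) < pass X f x y

/-- two separated points -/
def Two {α : Type*} [TopologicalSpace α] (X : Set α) (f : α → ℝ) : Prop :=
  ∃ x ∈ X, ∃ y ∈ X, Sepd X f x y

/-- three pairwise separated points -/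
def Three {α : Type*} [TopologicalSpace α] (X : Set α) (f : α → ℝ) : Prop :=
  ∃ x ∈ X, ∃ y ∈ X, ∃ z ∈ X, Sepd X f x y ∧ Sepd X f y z ∧ Sepd X f x z

/-- `A` is a connected component of the subset `U` -/
def IsComp {α : Type*} [TopologicalSpace α] (U A : Set α) : Prop :=
  ∃ x ∈ U, A = connectedComponentIn U x

/-- sublevel set of `F p` in `S K` -/
def sub (K : Set E) (p : E) (t : ℝ) : Set E := {x | x ∈ S K ∧ F p x < t}

/-- superlevel set of `F p` in `S K` -/
def sup (K : Set E) (p : E) (t : ℝ) : Set E := {x | x ∈ S K ∧ t < F p x}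

/-- the parameters with two separated minima and two separated maxima -/
def Om (K : Set E) : Set E :=
  {p | p ∈ interior K ∧ Two (S K) (F p) ∧ Two (S K) (fun x => - F p x)}

/-- merging level of the minima: the pass level of a separated pair (`p ∈ Om K`) -/
def cl (K : Set E) (p : E) : ℝ :=
  sSup {t | ∃ x ∈ S K, ∃ y ∈ S K, Sepd (S K) (F p) x y ∧ t = pass (S K) (F p) x y}

/-- splitting level of the maxima -/
def dl (K : Set E) (p : E) : ℝ :=
  - sSup {t | ∃ x ∈ S K, ∃ y ∈ S K, Sepd (S K) (fun x => - F p x) x y ∧ t = pass (S K) (fun x => - F p x) x y}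

/-- minimum of `F p` on `S K` -/
def mn (K : Set E) (p : E) : ℝ := sInf (F p '' S K)

/-- maximum of `F p` on `S K` -/
def mx (K : Set E) (p : E) : ℝ := sSup (F p '' S K)

/-- low set -/
def Lo (K : Set E) (t : ℝ) (p : E) : Set E := {x | x ∈ S K ∧ F p x ≤ mn K p + t}

/-- high set -/
def Hi (K : Set E) (t : ℝ) (p : E) : Set E := {x | x ∈ S K ∧ mx K p - t ≤ F p x}

/-- generic parameters -/
def Generic (K : Set E) (p : E) : Prop :=
  p ∈ interior K ∧ ∀ y : E, (2 : ℝ) • P K y - y = p →
    ∃ L : E ≃L[ℝ] E, HasFDerivAt (fun z => (2 : ℝ) • P K z - z) (L : E →L[ℝ] E) y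

/-- at most seven normals through every interior point (the assumption to be refuted) -/
def AtMost7 (K : Set E) : Prop :=
  ∀ p ∈ interior K, (Crit K p).Finite ∧ (Crit K p).ncard ≤ 7

/-- exceptional set at level `t`: the critical points of level `t` -/
def X0 (K : Set E) (p : E) (t : ℝ) : Set E := {x | x ∈ Crit K p ∧ F p x = t}

/-- the leaf / middle structure at a parameter `p ∈ Om K` with `dl K p ≤ cl K p`:
`Al, Am` are the components of the sublevel set below `cl`, `Bl, Bm` the components of the superlevel set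
above `dl`; the closures of `Al` and `Bl` have no common point outside the critical points of level
`cl = dl`; the other three pairs have one; `x` is the minimum on `Am`, `y` the maximum on `Bm`. -/
structure Mid (K : Set E) (p : E) (Al Am Bl Bm : Set E) (x y : E) : Prop where
  hAl : IsComp (sub K p (cl K p)) Al
  hAm : IsComp (sub K p (cl K p)) Am
  hA : Al ≠ Am
  cA : sub K p (cl K p) = Al ∪ Am
  hBl : IsComp (sup K p (dl K p)) Bl
  hBm : IsComp (sup K p (dl K p)) Bm
  hB : Bl ≠ Bm
  cB : sup K p (dl K p) = Bl ∪ Bm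
  ll : ∀ z ∈ closure Al, z ∈ closure Bl → z ∈ Crit K p ∧ F p z = cl K p ∧ F p z = dl K p
  lm : ∃ z ∈ closure Al, z ∈ closure Bm ∧ ¬ (z ∈ Crit K p ∧ F p z = cl K p ∧ F p z = dl K p)
  mm : ∃ z ∈ closure Am, z ∈ closure Bm ∧ ¬ (z ∈ Crit K p ∧ F p z = cl K p ∧ F p z = dl K p)
  ml : ∃ z ∈ closure Am, z ∈ closure Bl ∧ ¬ (z ∈ Crit K p ∧ F p z = cl K p ∧ F p z = dl K p)
  hx : x ∈ Am
  hx' : ∀ z ∈ Am, F p x ≤ F p z
  hy : y ∈ Bm
  hy' : ∀ z ∈ Bm, F p z ≤ F p y

end

end Pool.Agent.E8N
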