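import Pool.Agent.H84.FreeInvolution
import Pool.Agent.E8N.Defs

/-!
# E8N: mod 2 degree by lattice boxes - definitions

Chains (`Ch`, `one`, `pre`, `push`, `bd`, `pr`, `om`, `al`, `ev`, `Supp`) are those of `Pool.Agent.H84.FreeInvolution`.
Lattice points are functions `ℕ → ℤ`; `boxc A n N` is the fundamental chain of the box
`∏_{i < N} [A i, A i + n i]` (an iterated prism); `e i v` is a `ZMod 2`-valued label; `cnt e N A n` is the value of the cochain
`δe_{N-1} ∪ ... ∪ δe_0` on it; `sg f h i v = 1` iff the `i`-th coordinate of `f` at the point `h v` is negative.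
-/

set_option autoImplicit false

open Pool.Agent.H84

namespace Pool.Agent.E8N

noncomputable section

/-- lattice points -/
abbrev LV : Type := ℕ → ℤ

/-- shift by `t` in the coordinate `k` -/
def sh (k : ℕ) (t : ℤ) (v : LV) : LV := Function.update v k (v k + t)

/-- fundamental chain of the box `∏_{i < k} [A i, A i + n i]` -/
def boxc (A : LV) (n : ℕ → ℕ) : ℕ → Ch LV
  | 0 => one [A]
  | k + 1 => ∑ t ∈ Finset.range (n k), pr (sh k (t : ℤ)) (sh k ((t : ℤ) + 1)) (boxc A n k)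

open Classical in
/-- lower corners of the unit cells of the box -/
def cells (A : LV) (n : ℕ → ℕ) : ℕ → Finset LV
  | 0 => {A}
  | k + 1 => (Finset.range (n k) ×ˢ cells A n k).image (fun z => sh k (z.1 : ℤ) z.2)

/-- the list `e (N-1), ..., e 0` -/
def fl (e : ℕ → LV → ZMod 2) : ℕ → List (LV → ZMod 2)
  | 0 => []
  | k + 1 => e k :: fl e k

/-- degree count mod 2 -/
def cnt (e : ℕ → LV → ZMod 2) (N : ℕ) (A : LV) (n : ℕ → ℕ) : ZMod 2 := ev (om (fl e N)) (boxc A n N)

/-- the real point of a lattice point -/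
def pt (N : ℕ) (h : ℝ) (v : LV) : Fin N → ℝ := fun i => h * (v i : ℝ)

open Classical in
/-- sign labels of a map -/
def sg {N : ℕ} (f : (Fin N → ℝ) → Fin N → ℝ) (h : ℝ) (i : ℕ) (v : LV) : ZMod 2 :=
  if ∃ hi : i < N, f (pt N h v) ⟨i, hi⟩ < 0 then 1 else 0

/-- all points of the list are in one unit cell of the box, with the coordinates `≥ k` equal to those of `A` -/
def CellL (A : LV) (n : ℕ → ℕ) (k : ℕ) (L : List LV) : Prop :=
  (∃ w : LV, (∀ i < k, A i ≤ w i ∧ w i + 1 ≤ A i + n i) ∧ ∀ v ∈ L, ∀ i < k, w i ≤ v i ∧ v i ≤ w i + 1) ∧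
    ∀ v ∈ L, ∀ i, k ≤ i → v i = A i

/-- the real box of mesh `h` is between the cubes of radius `r` and `2 r` around `y` -/
def BoxIn {N : ℕ} (y : Fin N → ℝ) (r h : ℝ) (A : LV) (n : ℕ → ℕ) : Prop :=
  ∀ i : Fin N, y i - 2 * r ≤ h * (A i : ℝ) ∧ h * (A i : ℝ) ≤ y i - r ∧
    y i + r ≤ h * ((A i : ℝ) + (n i : ℝ)) ∧ h * ((A i : ℝ) + (n i : ℝ)) ≤ y i + 2 * r

end

end Pool.Agent.E8N
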