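import Pool.Agent.E8N.DSupp

/-!
# E8N DDiag

The degree of a diagonal map is 1. Induction on `N`: `cnt e N A n = 1`.
`N = 0`: `ev (om []) (one [A]) = om [] [A] = 1`.
Step: `cnt e (N+1) A n = ev (om (e N :: fl e N)) (boxc A n (N+1)) = ev (al (e N) (fl e N)) (bd (boxc A n (N+1)))` (`ev_al_bd`), and `bd_boxc`:
(i) the terms `pr (sh N t) (sh N (t+1)) (bd (boxc A n N))`: for `N = 0` they are `pr _ _ (one []) = 0`; for `N ≥ 1` by `bdbox_supp` and `prL_mem` every list there has a coordinate `j < N` with all `v j = A j` (or all `v j = A j + n j`), so `e j v = ε j (v j)` is constant on it and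
`om (fl e N)` vanishes on it (`om_fl_zero`); `al f fs (v :: l) = f v * om fs (v :: l) = 0`, `al f fs [] = 0`; so `ev (al ..) = 0` (`ev_eq_zero`).
(ii) the terms `push (sh N s) (boxc A n N)`, `s = 0` or `n N`: by `ev_push`, `ev_congr` and `boxc_supp`: for a list `L` with `CellL A n N L`: `al (e N) (fl e N) (L.map (sh N s)) = ε N (A N + s) * om (fl e N) L` (for `L = []` both sides are `0`; the head of the mapped list has coordinate `N` equal to `A N + s`; `om (fl e N) (L.map (sh N s)) =
om (fl e N) L` by `om_fl_map` and `om_congr`, since `e i (sh N s v) = ε i (v i) = e i v` for `i < N`). So the term is `ε N (A N + s) * cnt e N A n = ε N (A N + s)`.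
Total: `ε N (A N) + ε N (A N + n N) = 1`.
-/

set_option autoImplicit false

open Metric Set Filter Topology Pool.Agent.H84

namespace Pool.Agent.E8N

theorem ddiag_sh_ne {k i : ℕ} (h : i ≠ k) (t : ℤ) (v : LV) : sh k t v i = v i := by
  unfold sh
  exact Function.update_of_ne h _ _

theorem ddiag_sh_eq (k : ℕ) (t : ℤ) (v : LV) : sh k t v k = v k + t := by
  unfold sh
  exact Function.update_self _ _ _

theorem ddiag_mul (a : ZMod 2) (g : List LV → ZMod 2) (c : Ch LV) : ev (fun L => a * g L) c = a * ev g c := by
  have : ev (fun L => a * g L) = a • ev g := by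
    apply lin_ext
    intro L
    rw [ev_one, LinearMap.smul_apply, ev_one, smul_eq_mul]
  rw [this, LinearMap.smul_apply, smul_eq_mul]

theorem diag_cnt (e : ℕ → LV → ZMod 2) (N : ℕ) (A : LV) (n : ℕ → ℕ) (ε : ℕ → ℤ → ZMod 2)
    (he : ∀ i < N, ∀ v : LV, e i v = ε i (v i)) (hε : ∀ i < N, ε i (A i) + ε i (A i + n i) = 1) :
    cnt e N A n = 1 := by
  induction N with
  | zero =>
    show ev (om []) (one [A]) = 1
    rw [ev_one]
    rfl
  | succ N ih =>
    have ih' := ih (fun i hi => he i (by omega)) (fun i hi => hε i (by omega))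
    have h0 : cnt e (N + 1) A n = ev (al (e N) (fl e N)) (bd (boxc A n (N + 1))) := (ev_al_bd _ _ _).symm
    rw [h0, bd_boxc, map_add, map_add, map_sum]
    have h1 : ∑ t ∈ Finset.range (n N), ev (al (e N) (fl e N))
        (pr (sh N (t : ℤ)) (sh N ((t : ℤ) + 1)) (bd (boxc A n N))) = 0 := by
      apply Finset.sum_eq_zero
      intro t _
      rcases Nat.eq_zero_or_pos N with hN | hN
      · subst hN
        have : bd (boxc A n 0) = one [] := by
          show bd (one [A]) = one []
          rw [bd_one]
          simp [bdL]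
        rw [this, pr_one]
        simp [prL]
      · refine ev_eq_zero (P := fun L' => al (e N) (fl e N) L' = 0) (fun L' h => h) ?_
        refine map_mem_Supp (pr (sh N (t : ℤ)) (sh N ((t : ℤ) + 1))) ?_ (bdbox_supp A n N hN)
        rintro L ⟨_, j, hj, hjb⟩
        rw [pr_one]
        obtain ⟨b, hbL⟩ : ∃ b : ℤ, ∀ v ∈ L, v j = b := by
          rcases hjb with h | h
          · exact ⟨_, h⟩
          · exact ⟨_, h⟩
        refine Finsupp.supported_mono ?_ (prL_mem (sh N (t : ℤ)) (sh N ((t : ℤ) + 1)) L)
        intro L' hL'
        have h2 : om (fl e N) L' = 0 := by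
          refine om_fl_zero hj (c := ε j b) (fun v' hv' => ?_)
          rw [he j (by omega)]
          obtain ⟨v, hv, h | h⟩ := hL' v' hv'
          · rw [h, ddiag_sh_ne (by omega), hbL v hv]
          · rw [h, ddiag_sh_ne (by omega), hbL v hv]
        cases L' with
        | nil => rfl
        | cons v l =>
          show e N v * om (fl e N) (v :: l) = 0
          rw [h2, mul_zero]
    have h2 : ∀ s : ℤ, ev (al (e N) (fl e N)) (push (sh N s) (boxc A n N)) = ε N (A N + s) := by
      intro s
      rw [ev_push]
      have h3 : ev (fun L => al (e N) (fl e N) (L.map (sh N s))) (boxc A n N) =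
          ev (fun L => ε N (A N + s) * om (fl e N) L) (boxc A n N) := by
        refine ev_congr (P := CellL A n N) ?_ (boxc_supp A n N)
        rintro L ⟨_, hL⟩
        have h4 : om (fl e N) (L.map (sh N s)) = om (fl e N) L := by
          rw [om_fl_map]
          apply om_congr
          intro i hi v hv
          rw [he i (by omega), he i (by omega), ddiag_sh_ne (by omega)]
        cases L with
        | nil =>
          show (0 : ZMod 2) = _
          rw [om_nil, mul_zero]
        | cons v l =>
          show e N (sh N s v) * om (fl e N) ((v :: l).map (sh N s)) = _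
          rw [h4, he N (by omega), ddiag_sh_eq, hL v (by simp) N le_rfl]
      rw [h3, ddiag_mul]
      show ε N (A N + s) * cnt e N A n = _
      rw [ih', mul_one]
    rw [h1, h2, h2, zero_add, add_zero]
    exact hε N (by omega)

end Pool.Agent.E8N
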