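import Pool.Agent.E8N.DSupp

/-!
# E8N DHom

Discrete homotopy invariance. Let `c = boxc A n N`, `X = ∑ t < T, pr (sh N t) (sh N (t+1)) c`. `N ≥ 1`, so `fl e N = e (N-1) :: fl e (N-1)` and `ev (om (fl e N)) (bd X) = 0` (`ev_om_bd`). By `tele`:
`0 = ev ω (bd X) = ev ω (∑ t < T, pr (sh N t) (sh N (t+1)) (bd c)) + ev ω (push (sh N 0) c) + ev ω (push (sh N T) c)`, `ω = om (fl e N)`. The first term vanishes: by `bdbox_supp` and `prL_mem` every list `L'` there consists of points `sh N t v` or `sh N (t+1) v` with `v` in a list `L` with a cell `w`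
(`A i ≤ w i`, `w i + 1 ≤ A i + n i` for `i < N`), `v i = A i` for `i ≥ N`, and a coordinate `j < N` with all `v j = b`, `b = A j` or `b = A j + n j`; so all points `v'` of `L'` satisfy the hypotheses of `hb`, some `e i` is constant on `L'` and `om_fl_zero` applies (`ev_eq_zero`).
`push (sh N 0) c = c` (`sh N 0 = id`), and `ev ω (push (sh N T) c) = cnt (fun i v => e i (sh N T v)) N A n` (`ev_push`, `om_fl_map`).
-/

set_option autoImplicit false

open Metric Set Filter Topology Pool.Agent.H84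

namespace Pool.Agent.E8N

theorem dhom_sh_ne {k i : ℕ} (h : i ≠ k) (t : ℤ) (v : LV) : sh k t v i = v i := by
  unfold sh
  exact Function.update_of_ne h _ _

theorem dhom_sh_eq (k : ℕ) (t : ℤ) (v : LV) : sh k t v k = v k + t := by
  unfold sh
  exact Function.update_self _ _ _

theorem dhom_sh_zero (k : ℕ) (v : LV) : sh k 0 v = v := by
  unfold sh
  rw [add_zero]
  exact Function.update_eq_self _ _

theorem dhom_push_zero (k : ℕ) (c : Ch LV) : push (sh k 0) c = c := by
  have : push (sh k 0) = LinearMap.id := by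
    apply lin_ext
    intro L
    have h : L.map (sh k 0) = L := by
      rw [show (sh k 0) = id from funext (dhom_sh_zero k)]
      exact List.map_id L
    rw [push_one, h]
    rfl
  rw [this]
  rfl

theorem hom_cnt (e : ℕ → LV → ZMod 2) {N : ℕ} (hN : 0 < N) (A : LV) (n : ℕ → ℕ) (T : ℕ)
    (hb : ∀ (w : LV) (t : ℕ), t < T → (∀ i < N, A i ≤ w i ∧ w i + 1 ≤ A i + n i) → ∀ j < N, ∀ b : ℤ,
      (b = A j ∨ b = A j + n j) → ∃ i < N, ∃ c : ZMod 2, ∀ v : LV, (∀ i < N, w i ≤ v i ∧ v i ≤ w i + 1) → v j = b →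
        (A N + t ≤ v N ∧ v N ≤ A N + t + 1) → (∀ i, N < i → v i = A i) → e i v = c) :
    cnt e N A n = cnt (fun i v => e i (sh N (T : ℤ) v)) N A n := by
  have h0 : ev (om (fl e N)) (bd (∑ t ∈ Finset.range T, pr (sh N (t : ℤ)) (sh N ((t : ℤ) + 1)) (boxc A n N))) = 0 := by
    obtain ⟨M, rfl⟩ : ∃ M, N = M + 1 := ⟨N - 1, by omega⟩
    exact ev_om_bd _ _ _
  have h1 := congrArg (ev (om (fl e N))) (tele N T (boxc A n N))
  rw [map_add, h0, zero_add, map_add, dhom_push_zero] at h1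
  have h2 : ev (om (fl e N)) (∑ t ∈ Finset.range T, pr (sh N (t : ℤ)) (sh N ((t : ℤ) + 1)) (bd (boxc A n N))) = 0 := by
    rw [map_sum]
    apply Finset.sum_eq_zero
    intro t ht
    have ht' : t < T := Finset.mem_range.1 ht
    refine ev_eq_zero (P := fun L' => om (fl e N) L' = 0) (fun L' h => h) ?_
    refine map_mem_Supp (pr (sh N (t : ℤ)) (sh N ((t : ℤ) + 1))) ?_ (bdbox_supp A n N hN)
    rintro L ⟨⟨⟨w, hw1, hw2⟩, hw3⟩, j, hj, hjb⟩
    rw [pr_one]
    obtain ⟨b, hbb, hbL⟩ : ∃ b : ℤ, (b = A j ∨ b = A j + n j) ∧ ∀ v ∈ L, v j = b := by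
      rcases hjb with h | h
      · exact ⟨A j, Or.inl rfl, h⟩
      · exact ⟨A j + n j, Or.inr rfl, h⟩
    obtain ⟨i, hi, c, hc⟩ := hb w t ht' hw1 j hj b hbb
    refine Finsupp.supported_mono ?_ (prL_mem (sh N (t : ℤ)) (sh N ((t : ℤ) + 1)) L)
    intro L' hL'
    refine om_fl_zero hi (c := c) (fun v' hv' => ?_)
    have key : ∀ (s : ℤ) (v : LV), v ∈ L → (s = t ∨ s = t + 1) → e i (sh N s v) = c := by
      intro s v hv hs
      apply hc
      · intro i' hi'
        rw [dhom_sh_ne (by omega)]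
        exact hw2 v hv i' hi'
      · rw [dhom_sh_ne (by omega)]
        exact hbL v hv
      · rw [dhom_sh_eq, hw3 v hv N le_rfl]
        rcases hs with rfl | rfl <;> constructor <;> omega
      · intro i' hi'
        rw [dhom_sh_ne (by omega)]
        exact hw3 v hv i' hi'.le
    obtain ⟨v, hv, h | h⟩ := hL' v' hv'
    · rw [h]; exact key _ v hv (Or.inl rfl)
    · rw [h]; exact key _ v hv (Or.inr rfl)
  rw [h2] at h1
  have h3 : ev (om (fl e N)) (push (sh N (T : ℤ)) (boxc A n N)) = cnt (fun i v => e i (sh N (T : ℤ) v)) N A n := by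
    rw [ev_push]
    unfold cnt
    congr 1
    congr 1
    funext L
    exact om_fl_map L
  rw [h3] at h1
  have h4 : cnt e N A n + cnt (fun i v => e i (sh N (T : ℤ) v)) N A n = 0 := h1.symm
  exact CharTwo.add_eq_zero.1 h4

end Pool.Agent.E8N
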