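import Pool.Agent.E8N.DHom
import Pool.Agent.E8N.DSign

/-!
# E8N DHomC

Continuous homotopy invariance of the count.
Proof. `sign_const` on `Q' = Icc 0 1 ×ˢ Q` for `fun z => G z.1 z.2`: `δ > 0`. Choose `T : ℕ`, `T > 0`, `1/T ≤ δ`, and `h₀ = δ`. Let `0 < h < h₀` and `A, n` as in the statement. Define `e i v = 1` if there is `hi : i < N` with `G ((v N - A N)/T) (pt N h v) ⟨i, hi⟩ < 0`, else `0`. By `cnt_congr`, `cnt (sg (G 0) h) N A n = cnt e N A n` (points with
`v N = A N`) and `cnt (sg (G 1) h) N A n = cnt (fun i v => e i (sh N T v)) N A n` (`sh N T` does not change the coordinates `< N`, and the time is `(A N + T - A N)/T = 1`). `hom_cnt`: let `w, t, j, b` be given. If there is no lattice point `v` with the four conditions (cell, `v j = b`, time, rest), any `i` works (`N > 0`).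
Otherwise fix one, `v₀`; its real point `(time, pt N h v₀) ∈ Q'` (it is in the real box and has a boundary coordinate; time in `[0,1]` as `t < T`). Take `i` from `sign_const` for it. For every other such `v` the point is in `Q'`, and at distance `≤ max (1/T) h ≤ δ` (sup metric on `ℝ × (Fin N → ℝ)`: time difference at most `1/T`,
coordinates differ by at most `h`), so the sign is the same and `e i v = e i v₀`.
-/

set_option autoImplicit false

open Metric Set Filter Topology Pool.Agent.H84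

namespace Pool.Agent.E8N

open Classical in
/-- the labels used for the homotopy -/
noncomputable def DHomC_e {N : ℕ} (G : ℝ → (Fin N → ℝ) → Fin N → ℝ) (h : ℝ) (T : ℕ) (A : LV) (i : ℕ) (v : LV) : ZMod 2 :=
  if ∃ hi : i < N, G (((v N - A N : ℤ) : ℝ) / T) (pt N h v) ⟨i, hi⟩ < 0 then 1 else 0

theorem homc {N : ℕ} (hN : 0 < N) {G : ℝ → (Fin N → ℝ) → Fin N → ℝ}
    {Q : Set (Fin N → ℝ)} (hQ : IsCompact Q) (hG : ContinuousOn (fun z : ℝ × (Fin N → ℝ) => G z.1 z.2) (Icc 0 1 ×ˢ Q))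
    (hne : ∀ t ∈ Icc (0 : ℝ) 1, ∀ x ∈ Q, G t x ≠ 0) :
    ∃ h₀ > 0, ∀ h, 0 < h → h < h₀ → ∀ (A : LV) (n : ℕ → ℕ),
      (∀ x : Fin N → ℝ, (∀ i : Fin N, h * (A i : ℝ) ≤ x i ∧ x i ≤ h * ((A i : ℝ) + (n i : ℝ))) →
        (∃ j : Fin N, x j = h * (A j : ℝ) ∨ x j = h * ((A j : ℝ) + (n j : ℝ))) → x ∈ Q) →
      cnt (sg (G 0) h) N A n = cnt (sg (G 1) h) N A n := by
  obtain ⟨δ, hδ, hsig⟩ := sign_const (M := ℝ × (Fin N → ℝ)) (G := fun z => G z.1 z.2)
    (Q := Icc (0 : ℝ) 1 ×ˢ Q) (isCompact_Icc.prod hQ) hG (fun z hz => hne z.1 hz.1 z.2 hz.2)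
  refine ⟨δ, hδ, ?_⟩
  intro h hh hhδ A n hbd
  obtain ⟨T, hT⟩ := exists_nat_gt (1 / δ)
  have hTpos : (0 : ℝ) < T := lt_trans (by positivity) hT
  have hT1 : 1 / (T : ℝ) ≤ δ := by
    rw [div_le_iff₀ hTpos]
    rw [div_lt_iff₀ hδ] at hT
    linarith
  have hNsh : ∀ (t : ℤ) (v : LV), (sh N t v) N = v N + t := fun t v => by simp [sh]
  have hish : ∀ (t : ℤ) (v : LV) (i : ℕ), i ≠ N → (sh N t v) i = v i := fun t v i hi => by
    simp [sh, Function.update_of_ne hi]
  have e1 : cnt (sg (G 0) h) N A n = cnt (DHomC_e G h T A) N A n := by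
    apply cnt_congr
    intro i hi v hv _
    have h0 : v N = A N := hv N le_rfl
    unfold sg DHomC_e
    have : (((v N - A N : ℤ) : ℝ) / T) = 0 := by rw [h0]; simp
    rw [this]
  have e2 : cnt (sg (G 1) h) N A n = cnt (fun i v => DHomC_e G h T A i (sh N (T : ℤ) v)) N A n := by
    apply cnt_congr
    intro i hi v hv _
    have h0 : v N = A N := hv N le_rfl
    unfold sg DHomC_e
    have h1 : ((((sh N (T : ℤ) v) N - A N : ℤ) : ℝ) / T) = 1 := by
      rw [hNsh, h0]
      have : ((A N + (T : ℤ) - A N : ℤ) : ℝ) = T := by push_cast; ring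
      rw [this, div_self (ne_of_gt hTpos)]
    have h2 : pt N h (sh N (T : ℤ) v) = pt N h v := by
      funext k
      simp only [pt]
      rw [hish _ _ _ (ne_of_lt k.2)]
    rw [h1, h2]
  rw [e1, e2]
  apply hom_cnt (DHomC_e G h T A) hN A n T
  intro w t ht hw j hj b hb
  by_cases hex : ∃ v : LV, (∀ i < N, w i ≤ v i ∧ v i ≤ w i + 1) ∧ v j = b ∧
      (A N + t ≤ v N ∧ v N ≤ A N + t + 1) ∧ (∀ i, N < i → v i = A i)
  swap
  · refine ⟨0, hN, 0, ?_⟩
    intro v h1 h2 h3 h4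
    exact absurd ⟨v, h1, h2, h3, h4⟩ hex
  obtain ⟨v₀, hv1, hv2, hv3, -⟩ := hex
  -- membership
  have hmem : ∀ v : LV, (∀ i < N, w i ≤ v i ∧ v i ≤ w i + 1) → v j = b →
      (A N + t ≤ v N ∧ v N ≤ A N + t + 1) →
      ((((v N - A N : ℤ) : ℝ) / T, pt N h v) : ℝ × (Fin N → ℝ)) ∈ Icc (0 : ℝ) 1 ×ˢ Q := by
    intro v h1 h2 h3
    refine ⟨⟨?_, ?_⟩, ?_⟩
    · apply div_nonneg _ hTpos.le
      have : (0 : ℤ) ≤ v N - A N := by
        have : (0 : ℤ) ≤ (t : ℤ) := by positivity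
        linarith [h3.1]
      exact_mod_cast this
    · change (((v N - A N : ℤ) : ℝ) / T) ≤ 1
      rw [div_le_one hTpos]
      have h5 : (v N - A N : ℤ) ≤ (T : ℤ) := by
        have : (t : ℤ) + 1 ≤ (T : ℤ) := by exact_mod_cast ht
        linarith [h3.2]
      exact_mod_cast h5
    · apply hbd
      · intro i
        have h5 := h1 i i.2
        have h6 := hw i i.2
        constructor
        · apply mul_le_mul_of_nonneg_left _ hh.le
          have : A i ≤ v i := h6.1.trans h5.1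
          exact_mod_cast this
        · apply mul_le_mul_of_nonneg_left _ hh.le
          have : v i ≤ A i + (n i : ℤ) := h5.2.trans h6.2
          exact_mod_cast this
      · refine ⟨⟨j, hj⟩, ?_⟩
        rcases hb with hb | hb
        · left
          simp only [pt]
          rw [h2, hb]
        · right
          simp only [pt]
          rw [h2, hb]
          push_cast
          ring
  obtain ⟨i, hi⟩ := hsig _ (hmem v₀ hv1 hv2 hv3)
  refine ⟨i, i.2, DHomC_e G h T A i v₀, ?_⟩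
  intro v h1 h2 h3 _
  have hd : dist ((((v N - A N : ℤ) : ℝ) / T, pt N h v) : ℝ × (Fin N → ℝ))
      ((((v₀ N - A N : ℤ) : ℝ) / T, pt N h v₀) : ℝ × (Fin N → ℝ)) ≤ δ := by
    rw [Prod.dist_eq]
    apply max_le
    · rw [Real.dist_eq, ← sub_div, abs_div, abs_of_pos hTpos]
      refine le_trans ?_ hT1
      apply div_le_div_of_nonneg_right _ hTpos.le
      rw [← Int.cast_sub, ← Int.cast_abs]
      have : |v N - A N - (v₀ N - A N)| ≤ 1 := by
        rw [abs_le]
        constructor <;> linarith [h3.1, h3.2, hv3.1, hv3.2]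
      exact_mod_cast this
    · rw [dist_pi_le_iff hδ.le]
      intro k
      simp only [pt]
      rw [Real.dist_eq, ← mul_sub, abs_mul, abs_of_pos hh]
      have h7 : |((v k : ℤ) : ℝ) - ((v₀ k : ℤ) : ℝ)| ≤ 1 := by
        rw [← Int.cast_sub, ← Int.cast_abs]
        have h5 := h1 k k.2
        have h6 := hv1 k k.2
        have : |v k - v₀ k| ≤ 1 := by
          rw [abs_le]
          constructor <;> linarith [h5.1, h5.2, h6.1, h6.2]
        exact_mod_cast this
      nlinarith [abs_nonneg (((v k : ℤ) : ℝ) - ((v₀ k : ℤ) : ℝ))]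
  have key := hi _ (hmem v h1 h2 h3) hd
  unfold DHomC_e
  have h8 : (∃ hi : (i : ℕ) < N, G (((v N - A N : ℤ) : ℝ) / T) (pt N h v) ⟨i, hi⟩ < 0) ↔
      (∃ hi : (i : ℕ) < N, G (((v₀ N - A N : ℤ) : ℝ) / T) (pt N h v₀) ⟨i, hi⟩ < 0) := by
    constructor
    · rintro ⟨q, hq⟩
      exact ⟨q, key.mp hq⟩
    · rintro ⟨q, hq⟩
      exact ⟨q, key.mpr hq⟩
  by_cases hc : (∃ hi : (i : ℕ) < N, G (((v N - A N : ℤ) : ℝ) / T) (pt N h v) ⟨i, hi⟩ < 0)
  · rw [if_pos hc, if_pos (h8.mp hc)]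
  · rw [if_neg hc, if_neg (fun q => hc (h8.mpr q))]

end Pool.Agent.E8N
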