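import Pool.Agent.E8N.DDefs

/-!
# E8N DPath

Every invertible matrix is joined to a diagonal matrix with entries `±1` through invertible matrices. Let `P M` be the conclusion. `Matrix.diagonal_transvection_induction_of_det_ne_zero`:
diagonal `D` with nonzero determinant (all `D i ≠ 0`): `γ t = diagonal (fun i => (1 - t) * D i + t * sign (D i))`, nonzero for `t ∈ [0,1]` (same sign); transvection `1 + c E_ij` (`i ≠ j`): `γ t = transvection i j ((1 - t) c)`, determinant `1` (`Matrix.det_transvection_of_ne`), end `1 = diagonal 1`;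
product: `γ_A t * γ_B t`; `diagonal s * diagonal s' = diagonal (s s')`, entries `±1`.
-/

set_option autoImplicit false

open Metric Set Filter Topology Pool.Agent.H84

namespace Pool.Agent.E8N

theorem gl_path {N : ℕ} (M : Matrix (Fin N) (Fin N) ℝ) (hM : M.det ≠ 0) :
    ∃ γ : ℝ → Matrix (Fin N) (Fin N) ℝ, Continuous γ ∧ (∀ t ∈ Icc (0 : ℝ) 1, (γ t).det ≠ 0) ∧ γ 0 = M ∧
      ∃ s : Fin N → ℝ, (∀ i, s i = 1 ∨ s i = -1) ∧ γ 1 = Matrix.diagonal s := by
  refine Matrix.diagonal_transvection_induction_of_det_ne_zero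
    (fun M => ∃ γ : ℝ → Matrix (Fin N) (Fin N) ℝ, Continuous γ ∧
      (∀ t ∈ Icc (0 : ℝ) 1, (γ t).det ≠ 0) ∧ γ 0 = M ∧
      ∃ s : Fin N → ℝ, (∀ i, s i = 1 ∨ s i = -1) ∧ γ 1 = Matrix.diagonal s) M hM ?_ ?_ ?_
  · intro D hD
    rw [Matrix.det_diagonal] at hD
    have hD' : ∀ i, D i ≠ 0 := fun i hi =>
      hD (Finset.prod_eq_zero (Finset.mem_univ i) hi)
    refine ⟨fun t => Matrix.diagonal (fun i => (1 - t) * D i + t * (if 0 < D i then 1 else -1)),
      ?_, ?_, ?_, fun i => if 0 < D i then 1 else -1, ?_, ?_⟩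
    · exact (continuous_pi fun i => by fun_prop).matrix_diagonal
    · intro t ht
      rw [Matrix.det_diagonal]
      refine Finset.prod_ne_zero_iff.mpr (fun i _ => ?_)
      obtain ⟨h0, h1⟩ := ht
      by_cases hpos : 0 < D i
      · rw [if_pos hpos]
        have h2 : 0 ≤ (1 - t) * D i := mul_nonneg (by linarith) hpos.le
        rcases eq_or_lt_of_le h0 with h3 | h3
        · rw [← h3]; simpa using hD' i
        · have : 0 < (1 - t) * D i + t * 1 := by linarith
          exact this.ne'
      · rw [if_neg hpos]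
        have hneg : D i < 0 := lt_of_le_of_ne (not_lt.mp hpos) (hD' i)
        have h2 : (1 - t) * D i ≤ 0 := mul_nonpos_of_nonneg_of_nonpos (by linarith) hneg.le
        rcases eq_or_lt_of_le h0 with h3 | h3
        · rw [← h3]; simpa using hD' i
        · have : (1 - t) * D i + t * -1 < 0 := by linarith
          exact this.ne
    · simp
    · intro i
      by_cases hpos : 0 < D i
      · left; exact if_pos hpos
      · right; exact if_neg hpos
    · simp
  · intro τ
    refine ⟨fun t => Matrix.transvection τ.i τ.j ((1 - t) * τ.c), ?_, ?_, ?_, fun _ => 1, ?_, ?_⟩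
    · unfold Matrix.transvection
      refine continuous_const.add (continuous_matrix fun a b => ?_)
      by_cases hab : τ.i = a ∧ τ.j = b
      · obtain ⟨rfl, rfl⟩ := hab
        simp only [Matrix.single_apply_same]
        fun_prop
      · simp only [Matrix.single_apply_of_ne _ _ _ _ _ hab]
        exact continuous_const
    · intro t _
      rw [Matrix.det_transvection_of_ne _ _ τ.hij]
      exact one_ne_zero
    · simp [Matrix.TransvectionStruct.toMatrix]
    · intro i; left; rfl
    · simp
  · rintro A B _ _ ⟨γA, hcA, hdA, hA0, sA, hsA, hA1⟩ ⟨γB, hcB, hdB, hB0, sB, hsB, hB1⟩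
    refine ⟨fun t => γA t * γB t, hcA.matrix_mul hcB, ?_, ?_, fun i => sA i * sB i, ?_, ?_⟩
    · intro t ht
      rw [Matrix.det_mul]
      exact mul_ne_zero (hdA t ht) (hdB t ht)
    · simp only [hA0, hB0]
    · intro i
      show sA i * sB i = 1 ∨ sA i * sB i = -1
      rcases hsA i with h1 | h1 <;> rcases hsB i with h2 | h2 <;> rw [h1, h2]
      · left; norm_num
      · right; norm_num
      · right; norm_num
      · left; norm_num
    · simp only [hA1, hB1, Matrix.diagonal_mul_diagonal]

end Pool.Agent.E8N
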