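import Pool.Agent.E8N.DHomC
import Pool.Agent.E8N.DPath
import Pool.Agent.E8N.DDiag

/-!
# E8N DLin

The count of an invertible linear map is 1.
Proof. `gl_path`: `γ, s`. `homc` with `G t x = (γ t).mulVec (x - y)`, `Q = {x | r ≤ ‖x - y‖ ∧ ‖x - y‖ ≤ 2 r}` (sup norm; compact), nonzero there because `det (γ t) ≠ 0` (`Matrix.eq_zero_of_mulVec_eq_zero`). A point of the real box with a coordinate on its boundary is in `Q` by `BoxIn` (boundary coordinate: `|x j - y j| ≥ r`; all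
coordinates: `|x i - y i| ≤ 2 r`). So the count equals that of `x ↦ s i (x i - y i)`, and `diag_cnt` applies with `ε i z = 1` iff `i < N` and `s i * (h z - y i) < 0` (`ε i (A i) + ε i (A i + n i) = 1`: if `s i = 1`, `h A i - y i ≤ -r < 0` and `h (A i + n i) - y i ≥ r > 0`: `1 + 0`; if `s i = -1`: `0 + 1`).
-/

set_option autoImplicit false

open Metric Set Filter Topology Pool.Agent.H84

namespace Pool.Agent.E8N

theorem box_bd {N : ℕ} {y : Fin N → ℝ} {r h : ℝ} (hr : 0 < r) {A : LV} {n : ℕ → ℕ} (hB : BoxIn y r h A n)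
    {x : Fin N → ℝ} (hx : ∀ i : Fin N, h * (A i : ℝ) ≤ x i ∧ x i ≤ h * ((A i : ℝ) + (n i : ℝ)))
    (hj : ∃ j : Fin N, x j = h * (A j : ℝ) ∨ x j = h * ((A j : ℝ) + (n j : ℝ))) :
    r ≤ ‖x - y‖ ∧ ‖x - y‖ ≤ 2 * r := by
  constructor
  · obtain ⟨j, hj⟩ := hj
    have h1 : ‖(x - y) j‖ ≤ ‖x - y‖ := norm_le_pi_norm (x - y) j
    have h2 : r ≤ ‖(x - y) j‖ := by
      rw [Pi.sub_apply, Real.norm_eq_abs, le_abs]
      obtain ⟨b1, b2, b3, b4⟩ := hB j
      rcases hj with hj | hj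
      · right; rw [hj]; linarith
      · left; rw [hj]; linarith
    exact h2.trans h1
  · rw [pi_norm_le_iff_of_nonneg (by linarith)]
    intro i
    obtain ⟨b1, b2, b3, b4⟩ := hB i
    obtain ⟨c1, c2⟩ := hx i
    rw [Pi.sub_apply, Real.norm_eq_abs, abs_le]
    constructor <;> linarith

theorem lin_cnt {N : ℕ} (hN : 0 < N) (M : Matrix (Fin N) (Fin N) ℝ) (hM : M.det ≠ 0) (y : Fin N → ℝ) {r : ℝ}
    (hr : 0 < r) :
    ∃ h₀ > 0, ∀ h, 0 < h → h < h₀ → ∀ (A : LV) (n : ℕ → ℕ), BoxIn y r h A n →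
      cnt (sg (fun x => M.mulVec (x - y)) h) N A n = 1 := by
  classical
  obtain ⟨γ, hγc, hγd, hγ0, s, hs, hγ1⟩ := gl_path M hM
  have hQ : IsCompact {x : Fin N → ℝ | r ≤ ‖x - y‖ ∧ ‖x - y‖ ≤ 2 * r} := by
    refine (isCompact_closedBall y (2 * r)).of_isClosed_subset ?_ ?_
    · have hc : Continuous (fun x : Fin N → ℝ => ‖x - y‖) := by fun_prop
      exact (isClosed_le continuous_const hc).inter (isClosed_le hc continuous_const)
    · intro x hx
      rw [mem_closedBall, dist_eq_norm]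
      exact hx.2
  obtain ⟨h₀, hh₀, hh⟩ := homc hN (G := fun t x => (γ t).mulVec (x - y)) hQ
    (by
      refine Continuous.continuousOn ?_
      exact (hγc.comp continuous_fst).matrix_mulVec (continuous_snd.sub continuous_const))
    (by
      intro t ht x hx h0
      have h1 : x - y = 0 := Matrix.eq_zero_of_mulVec_eq_zero (hγd t ht) h0
      have h2 : r ≤ ‖x - y‖ := hx.1
      rw [h1, norm_zero] at h2
      linarith)
  refine ⟨h₀, hh₀, ?_⟩
  intro h h0 h1 A n hB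
  have h2 := hh h h0 h1 A n (fun x hx hj => box_bd hr hB hx hj)
  simp only [hγ0] at h2
  rw [h2]
  refine diag_cnt _ N A n
    (fun i z => if ∃ hi : i < N, s ⟨i, hi⟩ * (h * (z : ℝ) - y ⟨i, hi⟩) < 0 then 1 else 0) ?_ ?_
  · intro i hi v
    unfold sg
    refine if_congr (exists_congr (fun hi' => ?_)) rfl rfl
    show (γ 1).mulVec (pt N h v - y) ⟨i, hi'⟩ < 0 ↔ _
    rw [hγ1, Matrix.mulVec_diagonal]
    rfl
  · intro i hi
    obtain ⟨b1, b2, b3, b4⟩ := hB ⟨i, hi⟩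
    simp only at b1 b2 b3 b4
    rcases hs ⟨i, hi⟩ with h3 | h3
    · have e1 : ∃ hi : i < N, s ⟨i, hi⟩ * (h * (A i : ℝ) - y ⟨i, hi⟩) < 0 :=
        ⟨hi, by rw [h3]; linarith⟩
      have e2 : ¬ ∃ hi : i < N, s ⟨i, hi⟩ * (h * ((A i + n i : ℤ) : ℝ) - y ⟨i, hi⟩) < 0 := by
        rintro ⟨hi', h4⟩
        rw [h3] at h4
        push_cast at h4
        linarith
      rw [if_pos e1, if_neg e2, add_zero]
    · have e1 : ¬ ∃ hi : i < N, s ⟨i, hi⟩ * (h * (A i : ℝ) - y ⟨i, hi⟩) < 0 := by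
        rintro ⟨hi', h4⟩
        rw [h3] at h4
        linarith
      have e2 : ∃ hi : i < N, s ⟨i, hi⟩ * (h * ((A i + n i : ℤ) : ℝ) - y ⟨i, hi⟩) < 0 := by
        refine ⟨hi, ?_⟩
        rw [h3]
        push_cast
        linarith
      rw [if_neg e1, if_pos e2, zero_add]

end Pool.Agent.E8N
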