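import Pool.Agent.E8N.DLin

/-!
# E8N DLocal

Local count at a zero with invertible derivative.
Proof. Let `M = LinearMap.toMatrix' L` (`M.mulVec x = L x`, `det ≠ 0`); `c > 0` with `c ‖x‖ ≤ ‖L x‖` (`L` is an equivalence; `c = 1/‖L.symm‖` or antilipschitz). By differentiability there is `r > 0`, `2 r ≤ r₀`, with `‖f x - L (x - y)‖ ≤ (c/2) ‖x - y‖` for `‖x - y‖ ≤ 2 r`. `homc` with `G t x = (1 - t) • f x + t • L (x - y)`, `Q = {r ≤ ‖x - y‖ ≤ 2 r}`:
`‖G t x‖ ≥ ‖L (x-y)‖ - ‖f x - L (x-y)‖ ≥ (c/2) ‖x - y‖ > 0`. `box_bd` for the condition on `Q`. Then `lin_cnt` (minimum of the two `h₀`).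
-/

set_option autoImplicit false

open Metric Set Filter Topology Pool.Agent.H84

namespace Pool.Agent.E8N

theorem local_mulVec {N : ℕ} (L : (Fin N → ℝ) →ₗ[ℝ] (Fin N → ℝ)) (x : Fin N → ℝ) :
    (LinearMap.toMatrix' L).mulVec x = L x := by
  rw [← Matrix.toLin'_apply, Matrix.toLin'_toMatrix']

theorem local_det {N : ℕ} (L : (Fin N → ℝ) ≃L[ℝ] (Fin N → ℝ)) :
    (LinearMap.toMatrix' ((L : (Fin N → ℝ) →L[ℝ] (Fin N → ℝ)) : (Fin N → ℝ) →ₗ[ℝ] (Fin N → ℝ))).det ≠ 0 := by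
  rw [LinearMap.det_toMatrix']
  have h : IsUnit (LinearMap.det (L.toLinearEquiv : (Fin N → ℝ) →ₗ[ℝ] (Fin N → ℝ))) :=
    LinearEquiv.isUnit_det' L.toLinearEquiv
  exact h.ne_zero

theorem local_lower {N : ℕ} (L : (Fin N → ℝ) ≃L[ℝ] (Fin N → ℝ)) :
    ∃ c : ℝ, 0 < c ∧ ∀ x, c * ‖x‖ ≤ ‖L x‖ := by
  refine ⟨1 / (‖(L.symm : (Fin N → ℝ) →L[ℝ] (Fin N → ℝ))‖ + 1), by positivity, fun x => ?_⟩
  have h := (L.symm : (Fin N → ℝ) →L[ℝ] (Fin N → ℝ)).le_opNorm (L x)
  simp only [ContinuousLinearEquiv.coe_coe, ContinuousLinearEquiv.symm_apply_apply] at h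
  rw [div_mul_eq_mul_div, one_mul, div_le_iff₀ (by positivity)]
  nlinarith [norm_nonneg (L x), h]

/-- the count along the straight homotopy from `f` to a linear map -/
theorem local_core {N : ℕ} (hN : 0 < N) {f : (Fin N → ℝ) → Fin N → ℝ} (hf : Continuous f) {y : Fin N → ℝ}
    (M : Matrix (Fin N) (Fin N) ℝ) (hM : M.det ≠ 0) {r : ℝ} (hr : 0 < r)
    (hne : ∀ t ∈ Icc (0 : ℝ) 1, ∀ x : Fin N → ℝ, r ≤ ‖x - y‖ → ‖x - y‖ ≤ 2 * r →
      (1 - t) • f x + t • M.mulVec (x - y) ≠ 0) :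
    ∃ h₀ > 0, ∀ h, 0 < h → h < h₀ → ∀ (A : LV) (n : ℕ → ℕ), BoxIn y r h A n →
      cnt (sg f h) N A n = 1 := by
  set Q : Set (Fin N → ℝ) := {x | r ≤ ‖x - y‖ ∧ ‖x - y‖ ≤ 2 * r} with hQdef
  have hQ : IsCompact Q := by
    have hcl : IsClosed Q := by
      have h1 : Continuous (fun x : Fin N → ℝ => ‖x - y‖) := by fun_prop
      exact (isClosed_le continuous_const h1).inter (isClosed_le h1 continuous_const)
    refine (isCompact_closedBall y (2 * r)).of_isClosed_subset hcl ?_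
    intro x hx
    rw [Metric.mem_closedBall, dist_eq_norm]
    exact hx.2
  set G : ℝ → (Fin N → ℝ) → Fin N → ℝ := fun t x => (1 - t) • f x + t • M.mulVec (x - y) with hG
  have hMc : Continuous (fun x : Fin N → ℝ => M.mulVec (x - y)) := by
    have : (fun x : Fin N → ℝ => M.mulVec (x - y)) = fun x => Matrix.toLin' M (x - y) := by
      funext x; rw [Matrix.toLin'_apply]
    rw [this]
    exact (Matrix.toLin' M).continuous_of_finiteDimensional.comp (continuous_id.sub continuous_const)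
  have hGc : Continuous (fun z : ℝ × (Fin N → ℝ) => G z.1 z.2) := by
    simp only [hG]
    have h1 : Continuous (fun z : ℝ × (Fin N → ℝ) => f z.2) := hf.comp continuous_snd
    have h2 : Continuous (fun z : ℝ × (Fin N → ℝ) => M.mulVec (z.2 - y)) := hMc.comp continuous_snd
    exact ((continuous_const.sub continuous_fst).smul h1).add (continuous_fst.smul h2)
  obtain ⟨h₁, hh₁, H₁⟩ := homc hN hQ (G := G) hGc.continuousOn (fun t ht x hx => hne t ht x hx.1 hx.2)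
  obtain ⟨h₂, hh₂, H₂⟩ := lin_cnt hN M hM y hr
  refine ⟨min h₁ h₂, lt_min hh₁ hh₂, fun h hh hlt A n hB => ?_⟩
  have e1 := H₁ h hh (hlt.trans_le (min_le_left _ _)) A n (fun x hx hj => box_bd hr hB hx hj)
  have e2 := H₂ h hh (hlt.trans_le (min_le_right _ _)) A n hB
  have g0 : G 0 = f := by
    funext x; simp [hG]
  have g1 : G 1 = fun x => M.mulVec (x - y) := by
    funext x; simp [hG]
  rw [g0, g1] at e1
  rw [e1, e2]

theorem local_cnt {N : ℕ} (hN : 0 < N) {f : (Fin N → ℝ) → Fin N → ℝ} (hf : Continuous f) {y : Fin N → ℝ}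
    {L : (Fin N → ℝ) ≃L[ℝ] (Fin N → ℝ)} (hy : f y = 0)
    (hL : HasFDerivAt f (L : (Fin N → ℝ) →L[ℝ] (Fin N → ℝ)) y) {r₀ : ℝ} (hr₀ : 0 < r₀) :
    ∃ r, 0 < r ∧ 2 * r ≤ r₀ ∧ ∃ h₀ > 0, ∀ h, 0 < h → h < h₀ → ∀ (A : LV) (n : ℕ → ℕ), BoxIn y r h A n →
      cnt (sg f h) N A n = 1 := by
  obtain ⟨c, hc, hcL⟩ := local_lower L
  have h1 := (hasFDerivAt_iff_isLittleO_nhds_zero.mp hL)
  have h2 : ∀ᶠ h in 𝓝 (0 : Fin N → ℝ), ‖f (y + h) - f y - L h‖ ≤ (c / 2) * ‖h‖ := by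
    have := h1.def (show 0 < c / 2 by positivity)
    simpa using this
  rw [Metric.eventually_nhds_iff_ball] at h2
  obtain ⟨e, he, hball⟩ := h2
  set r : ℝ := min (r₀ / 2) (e / 4) with hrdef
  have hr : 0 < r := lt_min (by positivity) (by positivity)
  have hr2 : 2 * r ≤ r₀ := by
    have := min_le_left (r₀ / 2) (e / 4)
    rw [← hrdef] at this; linarith
  have hre : 2 * r < e := by
    have := min_le_right (r₀ / 2) (e / 4)
    rw [← hrdef] at this; linarith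
  refine ⟨r, hr, hr2, ?_⟩
  refine local_core hN hf
    (LinearMap.toMatrix' ((L : (Fin N → ℝ) →L[ℝ] (Fin N → ℝ)) : (Fin N → ℝ) →ₗ[ℝ] (Fin N → ℝ))) (local_det L) hr ?_
  intro t ht x hx1 hx2 h0
  rw [local_mulVec] at h0
  simp only [ContinuousLinearMap.coe_coe, ContinuousLinearEquiv.coe_coe] at h0
  have hb := hball (x - y) (by rw [Metric.mem_ball, dist_zero_right]; linarith)
  rw [hy, sub_zero, add_sub_cancel] at hb
  have key : L (x - y) = (1 - t) • (L (x - y) - f x) := by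
    have : (1 - t) • (L (x - y) - f x) = L (x - y) - ((1 - t) • f x + t • L (x - y)) := by
      rw [smul_sub, sub_smul, sub_smul, one_smul, one_smul]; abel
    rw [this, h0, sub_zero]
  have hn1 : ‖L (x - y)‖ ≤ (c / 2) * ‖x - y‖ := by
    calc ‖L (x - y)‖ = ‖(1 - t) • (L (x - y) - f x)‖ := by rw [← key]
      _ = (1 - t) * ‖L (x - y) - f x‖ := by
          rw [norm_smul, Real.norm_of_nonneg (by linarith [ht.2])]
      _ ≤ 1 * ‖L (x - y) - f x‖ := by
          apply mul_le_mul_of_nonneg_right _ (norm_nonneg _)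
          linarith [ht.1]
      _ = ‖f x - L (x - y)‖ := by rw [one_mul, norm_sub_rev]
      _ ≤ (c / 2) * ‖x - y‖ := hb
  have hn2 := hcL (x - y)
  have hpos : 0 < ‖x - y‖ := lt_of_lt_of_le hr hx1
  nlinarith [mul_pos hc hpos]

theorem global_cnt {N : ℕ} (hN : 0 < N) {f : (Fin N → ℝ) → Fin N → ℝ} (hf : Continuous f) {C : ℝ}
    (hC : ∀ x, ‖f x + x‖ ≤ C) {M : ℝ} (hM : C < M) (hM0 : 0 < M) :
    ∃ h₀ > 0, ∀ h, 0 < h → h < h₀ → ∀ (A : LV) (n : ℕ → ℕ), BoxIn (0 : Fin N → ℝ) M h A n →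
      cnt (sg f h) N A n = 1 := by
  refine local_core hN hf (-1 : Matrix (Fin N) (Fin N) ℝ) ?_ hM0 ?_
  · rw [Matrix.det_neg, Matrix.det_one, mul_one]
    exact pow_ne_zero _ (by norm_num)
  · intro t ht x hx1 _ h0
    rw [sub_zero] at hx1
    rw [sub_zero, Matrix.neg_mulVec, Matrix.one_mulVec] at h0
    have key : x = (1 - t) • (f x + x) := by
      have : (1 - t) • (f x + x) = x + ((1 - t) • f x + t • (-x)) := by
        rw [smul_add, sub_smul, sub_smul, one_smul, one_smul, smul_neg]; abel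
      rw [this, h0, add_zero]
    have : ‖x‖ ≤ C := by
      calc ‖x‖ = ‖(1 - t) • (f x + x)‖ := by rw [← key]
        _ = (1 - t) * ‖f x + x‖ := by rw [norm_smul, Real.norm_of_nonneg (by linarith [ht.2])]
        _ ≤ 1 * ‖f x + x‖ := mul_le_mul_of_nonneg_right (by linarith [ht.1]) (norm_nonneg _)
        _ = ‖f x + x‖ := one_mul _
        _ ≤ C := hC x
    linarith

end Pool.Agent.E8N
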