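import Pool.Agent.E8N.DLocal
import Pool.Agent.E8N.DCell0
import Pool.Agent.E8N.DCells

/-!
# E8N DPar

PARITY in coordinates. Proof.
1. Choose `r₀ > 0` with `‖y - y'‖ > 4 r₀` for different `y, y' ∈ Z` (finite set) and `M > C`, `M > 0`, `M ≥ ‖y‖ + 4 r₀` for `y ∈ Z`. `local_cnt` at each `y ∈ Z`: `r_y` (`2 r_y ≤ r₀`), `h_y`. `global_cnt`: `h_g`.
2. `Q = {x | ‖x‖ ≤ 2 M + 1} ∖ ⋃ y ∈ Z, ball y (r_y)` is compact and `f ≠ 0` on it (the zeros are exactly `Z`). `cell_zero`: `h_c`. Choose `h > 0` smaller than all `h_y`, `h_g`, `h_c`, `1`, and with `2 h ≤ r_y`, `2 h ≤ M`.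
3. `exists_box` for `0, M`: `A, n`; for every `y ∈ Z`: `A_y, n_y` with `BoxIn y r_y h A_y n_y`; all with coordinates `≥ N` equal to `0`.
4. `cells A_y n_y N ⊆ cells A n N`: a cell `w` of the box of `y` has real corners within `2 r_y ≤ r₀` of `y`, `|y i| + r₀ ≤ M`, and `h A i ≤ - M`, `h (A i + n i) ≥ M`; compare integers (`h > 0`). For `y ≠ y'` the sets `cells A_y n_y N`, `cells A_y' n_y' N` are disjoint: a common cell `w` has its corner `pt N h w` within `2 r_y` of `y` and `2 r_y'` of `y'`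
(sup norm), so `‖y - y'‖ ≤ 2 r₀`.
5. For `w ∈ cells A n N` in none of the `cells A_y n_y N`: for every `y ∈ Z` there is a coordinate `i` with `w i < A_y i` or `w i ≥ A_y i + n_y i`, so every `x` in the real cell has `x i ≤ h A_y i ≤ y i - r_y` (as `w i + 1 ≤ A_y i`) or `x i ≥ y i + r_y`; so `x ∉ ball y r_y`; also `‖x‖ ≤ 2 M + 1`. So `cnt (sg f h) N w 1 = 0`.
6. `1 = cnt (sg f h) N A n = ∑ w ∈ cells A n N, cnt (sg f h) N w 1 = ∑ y ∈ Z, ∑ w ∈ cells A_y n_y N, ... = ∑ y ∈ Z, cnt (sg f h) N A_y n_y = ∑ y ∈ Z, 1 = (card Z : ZMod 2)` (`cnt_cells`, `Finset.sum_subset`, `Finset.sum_biUnion`). So `card Z` is odd (`ZMod.natCast_eq_one_iff_odd` or similar).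
* `exists_box`: `A i = ⌈(y i - 2 r)/h⌉`, `A i + n i = ⌊(y i + 2 r)/h⌋` for `i < N`, `0` otherwise (`2 h ≤ r`).
-/

set_option autoImplicit false

open Metric Set Filter Topology Pool.Agent.H84

namespace Pool.Agent.E8N

theorem exists_box {N : ℕ} (y : Fin N → ℝ) {r h : ℝ} (hr : 0 < r) (hh : 0 < h) (hhr : 2 * h ≤ r) :
    ∃ (A : LV) (n : ℕ → ℕ), BoxIn y r h A n ∧ ∀ i, N ≤ i → A i = 0 := by
  refine ⟨fun i => if hi : i < N then ⌈(y ⟨i, hi⟩ - 2 * r) / h⌉ else 0,
    fun i => if hi : i < N then (⌊(y ⟨i, hi⟩ + 2 * r) / h⌋ - ⌈(y ⟨i, hi⟩ - 2 * r) / h⌉).toNat else 0, ?_, ?_⟩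
  · intro i
    have hi : (i : ℕ) < N := i.2
    simp only [hi, dif_pos, Fin.eta]
    have c1 : (y i - 2 * r) / h ≤ (⌈(y i - 2 * r) / h⌉ : ℝ) := Int.le_ceil _
    have c2 : (⌈(y i - 2 * r) / h⌉ : ℝ) < (y i - 2 * r) / h + 1 := Int.ceil_lt_add_one _
    have f1 : (⌊(y i + 2 * r) / h⌋ : ℝ) ≤ (y i + 2 * r) / h := Int.floor_le _
    have f2 : (y i + 2 * r) / h - 1 < (⌊(y i + 2 * r) / h⌋ : ℝ) := Int.sub_one_lt_floor _
    have c1' : y i - 2 * r ≤ h * (⌈(y i - 2 * r) / h⌉ : ℝ) := by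
      rw [div_le_iff₀ hh] at c1; linarith
    have c2' : h * (⌈(y i - 2 * r) / h⌉ : ℝ) ≤ y i - 2 * r + h := by
      have : h * (⌈(y i - 2 * r) / h⌉ : ℝ) ≤ h * ((y i - 2 * r) / h + 1) := mul_le_mul_of_nonneg_left c2.le hh.le
      have h2 : h * ((y i - 2 * r) / h + 1) = y i - 2 * r + h := by field_simp
      linarith
    have f1' : h * (⌊(y i + 2 * r) / h⌋ : ℝ) ≤ y i + 2 * r := by
      rw [le_div_iff₀ hh] at f1; linarith
    have f2' : y i + 2 * r - h ≤ h * (⌊(y i + 2 * r) / h⌋ : ℝ) := by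
      have : h * ((y i + 2 * r) / h - 1) ≤ h * (⌊(y i + 2 * r) / h⌋ : ℝ) := mul_le_mul_of_nonneg_left f2.le hh.le
      have h2 : h * ((y i + 2 * r) / h - 1) = y i + 2 * r - h := by field_simp
      linarith
    have hle : ⌈(y i - 2 * r) / h⌉ ≤ ⌊(y i + 2 * r) / h⌋ := by
      have : (⌈(y i - 2 * r) / h⌉ : ℝ) ≤ (⌊(y i + 2 * r) / h⌋ : ℝ) := by
        by_contra hc
        push Not at hc
        have := mul_lt_mul_of_pos_left hc hh
        linarith
      exact_mod_cast this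
    have hcast : ((⌊(y i + 2 * r) / h⌋ - ⌈(y i - 2 * r) / h⌉).toNat : ℝ) =
        (⌊(y i + 2 * r) / h⌋ : ℝ) - (⌈(y i - 2 * r) / h⌉ : ℝ) := by
      have h1 : (((⌊(y i + 2 * r) / h⌋ - ⌈(y i - 2 * r) / h⌉).toNat : ℤ) : ℝ) =
          ((⌊(y i + 2 * r) / h⌋ - ⌈(y i - 2 * r) / h⌉ : ℤ) : ℝ) := by
        rw [Int.toNat_of_nonneg (by linarith)]
      rw [Int.cast_natCast] at h1
      rw [h1]; push_cast; ring
    rw [hcast]
    refine ⟨c1', by linarith, ?_, ?_⟩
    · have : (⌈(y i - 2 * r) / h⌉ : ℝ) + ((⌊(y i + 2 * r) / h⌋ : ℝ) - (⌈(y i - 2 * r) / h⌉ : ℝ)) =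
        (⌊(y i + 2 * r) / h⌋ : ℝ) := by ring
      rw [this]; linarith
    · have : (⌈(y i - 2 * r) / h⌉ : ℝ) + ((⌊(y i + 2 * r) / h⌋ : ℝ) - (⌈(y i - 2 * r) / h⌉ : ℝ)) =
        (⌊(y i + 2 * r) / h⌋ : ℝ) := by ring
      rw [this]; linarith
  · intro i hi
    simp only [not_lt.mpr hi, dif_neg, not_false_eq_true]

theorem DPar_fin {ι : Type*} (S : Finset ι) (g : ι → ℝ) (hg : ∀ s ∈ S, 0 < g s) :
    ∃ r > 0, ∀ s ∈ S, r < g s := by
  classical
  induction S using Finset.induction_on with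
  | empty => exact ⟨1, one_pos, fun s hs => absurd hs (Finset.notMem_empty s)⟩
  | insert a S _ ih =>
    obtain ⟨r, hr, h⟩ := ih (fun s hs => hg s (Finset.mem_insert_of_mem hs))
    have ha := hg a (Finset.mem_insert_self a S)
    refine ⟨min r (g a / 2), lt_min hr (by linarith), ?_⟩
    intro s hs
    rcases Finset.mem_insert.mp hs with rfl | hs
    · exact lt_of_le_of_lt (min_le_right _ _) (by linarith)
    · exact lt_of_le_of_lt (min_le_left _ _) (h s hs)

/-- integers from reals scaled by `h` -/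
theorem DPar_int {h : ℝ} (hh : 0 < h) {a b : ℤ} (hab : h * (a : ℝ) ≤ h * (b : ℝ)) : a ≤ b := by
  have : (a : ℝ) ≤ (b : ℝ) := le_of_mul_le_mul_left hab hh
  exact_mod_cast this

theorem DPar_int' {h : ℝ} (hh : 0 < h) {a b : ℤ} (hab : h * (a : ℝ) < h * (b : ℝ)) : a < b := by
  have : (a : ℝ) < (b : ℝ) := lt_of_mul_lt_mul_left hab hh.le
  exact_mod_cast this

theorem DPar_mul {h : ℝ} (hh : 0 < h) {a b : ℤ} (hab : a ≤ b) : h * (a : ℝ) ≤ h * (b : ℝ) := by
  apply mul_le_mul_of_nonneg_left _ hh.le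
  exact_mod_cast hab

theorem parityN {N : ℕ} (hN : 0 < N) {f : (Fin N → ℝ) → Fin N → ℝ} (hf : Continuous f) {C : ℝ}
    (hC : ∀ x, ‖f x + x‖ ≤ C) {Z : Finset (Fin N → ℝ)} (hZ : ∀ x, f x = 0 ↔ x ∈ Z)
    (hL : ∀ y ∈ Z, ∃ L : (Fin N → ℝ) ≃L[ℝ] (Fin N → ℝ), HasFDerivAt f (L : (Fin N → ℝ) →L[ℝ] (Fin N → ℝ)) y) :
    Odd Z.card := by
  classical
  -- 1. constants
  obtain ⟨r₀, hr₀, hsep⟩ : ∃ r₀ > 0, ∀ y ∈ Z, ∀ y' ∈ Z, y ≠ y' → 4 * r₀ < ‖y - y'‖ := by
    obtain ⟨r, hr, h⟩ := DPar_fin (Z ×ˢ Z) (fun p => if p.1 = p.2 then 1 else ‖p.1 - p.2‖ / 4) (by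
      intro p _
      by_cases hp : p.1 = p.2
      · simp [hp]
      · simp only [hp, if_false]
        have : 0 < ‖p.1 - p.2‖ := norm_pos_iff.mpr (sub_ne_zero.mpr hp)
        linarith)
    refine ⟨r, hr, ?_⟩
    intro y hy y' hy' hne
    have := h (y, y') (Finset.mem_product.mpr ⟨hy, hy'⟩)
    simp only [hne, if_false] at this
    linarith
  obtain ⟨M, hMC, hM0, hMy⟩ : ∃ M, C < M ∧ 0 < M ∧ ∀ y ∈ Z, ‖y‖ + 4 * r₀ ≤ M := by
    refine ⟨|C| + 1 + ∑ y ∈ Z, ‖y‖ + 4 * r₀, ?_, ?_, ?_⟩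
    · have h1 : 0 ≤ ∑ y ∈ Z, ‖y‖ := Finset.sum_nonneg fun _ _ => norm_nonneg _
      have h2 := le_abs_self C
      linarith
    · have h1 : 0 ≤ ∑ y ∈ Z, ‖y‖ := Finset.sum_nonneg fun _ _ => norm_nonneg _
      have h2 := abs_nonneg C
      linarith
    · intro y hy
      have h1 : ‖y‖ ≤ ∑ y ∈ Z, ‖y‖ := Finset.single_le_sum (f := fun y => ‖y‖) (fun _ _ => norm_nonneg _) hy
      have h2 := abs_nonneg C
      linarith
  have hloc : ∀ y ∈ Z, ∃ r, 0 < r ∧ 2 * r ≤ r₀ ∧ ∃ h₀ > 0, ∀ h, 0 < h → h < h₀ → ∀ (A : LV) (n : ℕ → ℕ),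
      BoxIn y r h A n → cnt (sg f h) N A n = 1 := by
    intro y hy
    obtain ⟨L, hLy⟩ := hL y hy
    exact local_cnt hN hf ((hZ y).mpr hy) hLy hr₀
  choose! r hr hr2 hy₀ hhy₀ hcnt using hloc
  obtain ⟨hg₀, hhg₀, hglob⟩ := global_cnt hN hf hC hMC hM0
  -- 2. the compact set
  obtain ⟨hc₀, hhc₀, hcell⟩ := cell_zero hN (f := f) (Q := closedBall (0 : Fin N → ℝ) (2 * M + 1) \ ⋃ y ∈ Z, ball y (r y))
    ((isCompact_closedBall _ _).diff (isOpen_biUnion fun _ _ => isOpen_ball)) hf.continuousOn (by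
      intro x hx h0
      apply hx.2
      have hxZ := (hZ x).mp h0
      simp only [mem_iUnion]
      exact ⟨x, hxZ, mem_ball_self (hr x hxZ)⟩)
  obtain ⟨r1, hr1, hr1'⟩ := DPar_fin Z (fun y => min (hy₀ y) (r y / 2)) (by
    intro y hy
    exact lt_min (hhy₀ y hy) (by linarith [hr y hy]))
  obtain ⟨h, hh, hhg, hhc, hhM, hhr1⟩ : ∃ h > 0, h < hg₀ ∧ h < hc₀ ∧ h < M / 2 ∧ h < r1 := by
    refine ⟨min (min hg₀ hc₀) (min (M / 2) r1) / 2, ?_, ?_, ?_, ?_, ?_⟩
    · have : 0 < min (min hg₀ hc₀) (min (M / 2) r1) :=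
        lt_min (lt_min hhg₀ hhc₀) (lt_min (by linarith) hr1)
      linarith
    · have h1 : min (min hg₀ hc₀) (min (M / 2) r1) ≤ hg₀ := (min_le_left _ _).trans (min_le_left _ _)
      linarith
    · have h1 : min (min hg₀ hc₀) (min (M / 2) r1) ≤ hc₀ := (min_le_left _ _).trans (min_le_right _ _)
      linarith
    · have h1 : min (min hg₀ hc₀) (min (M / 2) r1) ≤ M / 2 := (min_le_right _ _).trans (min_le_left _ _)
      linarith
    · have h1 : min (min hg₀ hc₀) (min (M / 2) r1) ≤ r1 := (min_le_right _ _).trans (min_le_right _ _)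
      linarith
  have hhy : ∀ y ∈ Z, h < hy₀ y ∧ 2 * h ≤ r y := by
    intro y hy
    have h1 := hr1' y hy
    have h2 := min_le_left (hy₀ y) (r y / 2)
    have h3 := min_le_right (hy₀ y) (r y / 2)
    constructor
    · linarith
    · linarith
  -- 3. boxes
  obtain ⟨A, n, hBox, hA0⟩ := exists_box (0 : Fin N → ℝ) hM0 hh (by linarith)
  have hbx : ∀ y ∈ Z, ∃ (B : LV) (m : ℕ → ℕ), BoxIn y (r y) h B m ∧ ∀ i, N ≤ i → B i = 0 :=
    fun y hy => exists_box y (hr y hy) hh (hhy y hy).2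
  choose! B m hBm hB0 using hbx
  -- 4. subset and disjointness
  have hsub : Z.biUnion (fun y => cells (B y) (m y) N) ⊆ cells A n N := by
    intro w hw
    obtain ⟨y, hy, hwy⟩ := Finset.mem_biUnion.mp hw
    rw [mem_cells] at hwy ⊢
    have hyM := hMy y hy
    refine ⟨?_, ?_⟩
    · intro i hi
      have h1 := hwy.1 i hi
      have h2 := hBm y hy ⟨i, hi⟩
      have h3 := hBox ⟨i, hi⟩
      have h4 : |y ⟨i, hi⟩| ≤ ‖y‖ := norm_le_pi_norm y ⟨i, hi⟩
      have h5 := abs_le.mp h4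
      have h6 := hr2 y hy
      have h7 := DPar_mul hh h1.1
      have h8 : w i + 1 ≤ B y i + m y i := by linarith [h1.2]
      have h9 := DPar_mul hh h8
      push_cast at h9
      simp only [Pi.zero_apply] at h3
      simp only at h2 h3
      constructor
      · apply DPar_int hh
        linarith [h2.1, h3.2.1, h5.1]
      · have h10 : w i + 1 ≤ A i + n i := by
          apply DPar_int hh
          push_cast
          linarith [h2.2.2.2, h3.2.2.1, h5.2]
        linarith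
    · intro i hi
      rw [hwy.2 i hi, hB0 y hy i hi, hA0 i hi]
  have hdisj : (Z : Set (Fin N → ℝ)).PairwiseDisjoint (fun y => cells (B y) (m y) N) := by
    intro y hy y' hy' hne
    change Disjoint (cells (B y) (m y) N) (cells (B y') (m y') N)
    rw [Finset.disjoint_left]
    intro w hw hw'
    rw [mem_cells] at hw hw'
    have hy := Finset.mem_coe.mp hy
    have hy' := Finset.mem_coe.mp hy'
    have hlt := hsep y hy y' hy' hne
    have hle : ‖y - y'‖ ≤ 2 * r₀ := by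
      rw [pi_norm_le_iff_of_nonneg (by linarith)]
      intro i
      have a1 := hw.1 i i.2
      have a2 := hw'.1 i i.2
      have b1 := hBm y hy i
      have b2 := hBm y' hy' i
      have c1 := hr2 y hy
      have c2 := hr2 y' hy'
      have d1 := DPar_mul hh a1.1
      have d2 := DPar_mul hh a2.1
      have e1 : w i + 1 ≤ B y i + m y i := by linarith [a1.2]
      have e2 : w i + 1 ≤ B y' i + m y' i := by linarith [a2.2]
      have e1' := DPar_mul hh e1
      have e2' := DPar_mul hh e2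
      push_cast at e1' e2'
      rw [Pi.sub_apply, Real.norm_eq_abs, abs_le]
      constructor
      · linarith [b1.1, b1.2.2.2, b2.1, b2.2.2.2]
      · linarith [b1.1, b1.2.2.2, b2.1, b2.2.2.2]
    linarith
  -- 5. the other cells
  have hzero : ∀ w ∈ cells A n N, w ∉ Z.biUnion (fun y => cells (B y) (m y) N) →
      cnt (sg f h) N w (fun _ => 1) = 0 := by
    intro w hw hw'
    apply hcell h hh hhc w
    intro x hx
    rw [mem_cells] at hw
    refine ⟨?_, ?_⟩
    · rw [mem_closedBall, dist_zero_right, pi_norm_le_iff_of_nonneg (by linarith)]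
      intro i
      have a1 := hw.1 i i.2
      have b1 := hBox i
      simp only [Pi.zero_apply] at b1
      have d1 := DPar_mul hh a1.1
      have e1 : w i + 1 ≤ A i + n i := by linarith [a1.2]
      have e1' := DPar_mul hh e1
      push_cast at e1'
      have hxi := hx i
      rw [Real.norm_eq_abs, abs_le]
      constructor
      · linarith [b1.1, hxi.1]
      · linarith [b1.2.2.2, hxi.2]
    · simp only [mem_iUnion, not_exists]
      intro y hy hball
      apply hw'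
      rw [Finset.mem_biUnion]
      refine ⟨y, hy, ?_⟩
      rw [mem_cells]
      rw [mem_ball, dist_eq_norm] at hball
      have hxy : ∀ i : Fin N, |x i - y i| < r y := by
        intro i
        exact lt_of_le_of_lt (norm_le_pi_norm (x - y) i) hball
      refine ⟨?_, ?_⟩
      · intro i hi
        have h1 := hxy ⟨i, hi⟩
        rw [abs_lt] at h1
        have h2 := hBm y hy ⟨i, hi⟩
        have h3 := hx ⟨i, hi⟩
        simp only at h2 h3
        constructor
        · by_contra hc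
          push Not at hc
          have hc' : w i + 1 ≤ B y i := by linarith
          have := DPar_mul hh hc'
          push_cast at this
          linarith [h1.1, h2.2.1, h3.2]
        · by_contra hc
          push Not at hc
          have := DPar_mul hh hc
          push_cast at this
          linarith [h1.2, h2.2.2.1, h3.1]
      · intro i hi
        rw [hw.2 i hi, hA0 i hi, hB0 y hy i hi]
  -- 6. the count
  have hone := hglob h hh hhg A n hBox
  rw [cnt_cells, ← Finset.sum_subset hsub hzero, Finset.sum_biUnion hdisj] at hone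
  have hcard : ∑ y ∈ Z, ∑ w ∈ cells (B y) (m y) N, cnt (sg f h) N w (fun _ => 1) = (Z.card : ZMod 2) := by
    rw [Finset.sum_congr rfl (fun y hy => by
      rw [← cnt_cells (sg f h) N (B y) (m y), hcnt y hy h hh (hhy y hy).1 (B y) (m y) (hBm y hy)])]
    simp
  rw [hcard] at hone
  exact ZMod.natCast_eq_one_iff_odd.mp hone

end Pool.Agent.E8N
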