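import Pool.Agent.E8N.DPar

/-!
# E8N DParE

PARITY in `E`. Let `N = finrank E > 0`, `φ : E ≃L[ℝ] (Fin N → ℝ)` (`ContinuousLinearEquiv.ofFinrankEq` or `LinearEquiv.toContinuousLinearEquiv`, a basis). `f' = φ ∘ f ∘ φ.symm`: continuous, `‖f' x + x‖ = ‖φ (f (φ.symm x) + φ.symm x)‖ ≤ ‖φ‖ * C`; zeros `= φ '' Z` (`Z.map`), derivative at `φ y`: `φ ∘ L ∘ φ.symm` (invertible). `parityN`;
the image under the injective `φ` has the same cardinality.
-/

set_option autoImplicit false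

open Metric Set Filter Topology Pool.Agent.H84

namespace Pool.Agent.E8N

theorem parityE {E : Type*} [NormedAddCommGroup E] [NormedSpace ℝ E] [FiniteDimensional ℝ E]
    (hE : 0 < Module.finrank ℝ E) {f : E → E} (hf : Continuous f) {C : ℝ} (hC : ∀ x, ‖f x + x‖ ≤ C)
    {Z : Finset E} (hZ : ∀ x, f x = 0 ↔ x ∈ Z)
    (hL : ∀ y ∈ Z, ∃ L : E ≃L[ℝ] E, HasFDerivAt f (L : E →L[ℝ] E) y) : Odd Z.card := by
  classical
  obtain ⟨φ⟩ : Nonempty (E ≃L[ℝ] (Fin (Module.finrank ℝ E) → ℝ)) :=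
    ⟨ContinuousLinearEquiv.ofFinrankEq (by rw [Module.finrank_fin_fun])⟩
  have hinj : Function.Injective φ := φ.injective
  have key := parityN hE (f := fun x => φ (f (φ.symm x)))
    (φ.continuous.comp (hf.comp φ.symm.continuous)) (C := ‖(φ : E →L[ℝ] (Fin (Module.finrank ℝ E) → ℝ))‖ * C)
    (fun x => by
      have h1 : φ (f (φ.symm x)) + x = (φ : E →L[ℝ] (Fin (Module.finrank ℝ E) → ℝ)) (f (φ.symm x) + φ.symm x) := by
        simp
      rw [h1]
      exact ((φ : E →L[ℝ] (Fin (Module.finrank ℝ E) → ℝ)).le_opNorm _).trans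
        (mul_le_mul_of_nonneg_left (hC _) (norm_nonneg _)))
    (Z := Z.map ⟨φ, hinj⟩)
    (fun x => by
      rw [Finset.mem_map]
      constructor
      · intro h
        refine ⟨φ.symm x, (hZ _).1 ?_, by simp⟩
        exact (map_eq_zero_iff φ hinj).1 h
      · rintro ⟨y, hy, rfl⟩
        have := (hZ y).2 hy
        simp [this])
    (fun y hy => by
      obtain ⟨z, hz, rfl⟩ := Finset.mem_map.1 hy
      obtain ⟨L, hL'⟩ := hL z hz
      refine ⟨(φ.symm.trans L).trans φ, ?_⟩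
      have h1 : HasFDerivAt (fun x => φ.symm x) (φ.symm : (Fin (Module.finrank ℝ E) → ℝ) →L[ℝ] E) (φ z) :=
        φ.symm.hasFDerivAt
      have hL2 : HasFDerivAt f (L : E →L[ℝ] E) (φ.symm (φ z)) := by
        rw [φ.symm_apply_apply]
        exact hL'
      have h2 := hL2.comp (φ z) h1
      have h3 := (φ.hasFDerivAt (x := f (φ.symm (φ z)))).comp (φ z) h2
      exact h3)
  rw [Finset.card_map] at key
  exact key

end Pool.Agent.E8N
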