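import Pool.Agent.E8N.DBox

/-!
# E8N DSupp

Supports of the box chain and of its boundary.
-/

set_option autoImplicit false

open Metric Set Filter Topology Pool.Agent.H84

namespace Pool.Agent.E8N

lemma dsupp_sh_same (k : ℕ) (t : ℤ) (v : LV) : sh k t v k = v k + t := by
  simp [sh]

lemma dsupp_sh_ne {k i : ℕ} (h : i ≠ k) (t : ℤ) (v : LV) : sh k t v i = v i := by
  simp [sh, h]

lemma dsupp_cell {A : LV} {n : ℕ → ℕ} {k : ℕ} {L L' : List LV} (hL : CellL A n k L) {u : ℤ}
    (hu0 : 0 ≤ u) (hu1 : u + 1 ≤ n k)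
    (h : ∀ w ∈ L', ∃ v ∈ L, ∃ t : ℤ, u ≤ t ∧ t ≤ u + 1 ∧ w = sh k t v) : CellL A n (k + 1) L' := by
  obtain ⟨⟨w, hw1, hw2⟩, hL2⟩ := hL
  refine ⟨⟨Function.update w k (A k + u), ?_, ?_⟩, ?_⟩
  · intro i hi
    by_cases hik : i = k
    · subst hik
      simp only [Function.update_self]
      constructor <;> omega
    · rw [Function.update_of_ne hik]
      exact hw1 i (by omega)
  · intro x hx i hi
    obtain ⟨v, hv, t, ht1, ht2, rfl⟩ := h x hx
    by_cases hik : i = k
    · subst hik
      rw [Function.update_self, dsupp_sh_same, hL2 v hv i le_rfl]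
      constructor <;> omega
    · rw [Function.update_of_ne hik, dsupp_sh_ne hik]
      exact hw2 v hv i (by omega)
  · intro x hx i hi
    obtain ⟨v, hv, t, ht1, ht2, rfl⟩ := h x hx
    rw [dsupp_sh_ne (by omega)]
    exact hL2 v hv i (by omega)

theorem boxc_supp (A : LV) (n : ℕ → ℕ) (k : ℕ) : boxc A n k ∈ Supp (CellL A n k) := by
  induction k with
  | zero =>
    refine one_mem_Supp ⟨⟨A, ?_, ?_⟩, ?_⟩
    · intro i hi
      omega
    · intro v hv i hi
      omega
    · intro v hv i hi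
      rw [List.mem_singleton.1 hv]
  | succ k ih =>
    rw [boxc]
    refine Submodule.sum_mem _ ?_
    intro t ht
    rw [Finset.mem_range] at ht
    refine map_mem_Supp (pr (sh k (t : ℤ)) (sh k ((t : ℤ) + 1))) ?_ ih
    intro L hL
    rw [pr_one]
    refine Finsupp.supported_mono ?_ (prL_mem _ _ L)
    intro L' hL'
    refine dsupp_cell hL (u := (t : ℤ)) (by omega) (by omega) ?_
    intro w hw
    obtain ⟨v, hv, rfl | rfl⟩ := hL' w hw
    · exact ⟨v, hv, t, le_rfl, by omega, rfl⟩
    · exact ⟨v, hv, (t : ℤ) + 1, by omega, le_rfl, rfl⟩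

theorem bdbox_supp (A : LV) (n : ℕ → ℕ) (k : ℕ) (hk : 1 ≤ k) :
    bd (boxc A n k) ∈ Supp (fun L => CellL A n k L ∧
      ∃ j < k, (∀ v ∈ L, v j = A j) ∨ (∀ v ∈ L, v j = A j + n j)) := by
  obtain ⟨m, rfl⟩ : ∃ m, k = m + 1 := ⟨k - 1, by omega⟩
  clear hk
  induction m with
  | zero =>
    rw [bd_boxc]
    have h0 : ∀ f g : LV → LV, pr f g (bd (boxc A n 0)) = 0 := by
      intro f g
      rw [boxc, bd_one, bdL, bdL, map_zero, add_zero, pr_one, prL]
    rcases Nat.eq_zero_or_pos (n 0) with hn | hn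
    · have h1 : bd (boxc A n (0 + 1)) = 0 := by
        rw [boxc, hn]
        simp
      rw [bd_boxc] at h1
      rw [h1]
      exact Submodule.zero_mem _
    refine Submodule.add_mem _ (Submodule.add_mem _ ?_ ?_) ?_
    · refine Submodule.sum_mem _ ?_
      intro t ht
      rw [h0]
      exact Submodule.zero_mem _
    · refine map_mem_Supp (push (sh 0 0)) ?_ (boxc_supp A n 0)
      intro L hL
      rw [push_one]
      refine one_mem_Supp ⟨dsupp_cell hL (u := 0) le_rfl (by omega) ?_, 0, by omega, Or.inl ?_⟩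
      · intro w hw
        obtain ⟨v, hv, rfl⟩ := List.mem_map.1 hw
        exact ⟨v, hv, 0, le_rfl, by omega, rfl⟩
      · intro w hw
        obtain ⟨v, hv, rfl⟩ := List.mem_map.1 hw
        rw [dsupp_sh_same, hL.2 v hv 0 le_rfl, add_zero]
    · refine map_mem_Supp (push (sh 0 (n 0 : ℤ))) ?_ (boxc_supp A n 0)
      intro L hL
      rw [push_one]
      refine one_mem_Supp ⟨dsupp_cell hL (u := (n 0 : ℤ) - 1) (by omega) (by omega) ?_, 0, by omega,
        Or.inr ?_⟩
      · intro w hw
        obtain ⟨v, hv, rfl⟩ := List.mem_map.1 hw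
        exact ⟨v, hv, n 0, by omega, by omega, rfl⟩
      · intro w hw
        obtain ⟨v, hv, rfl⟩ := List.mem_map.1 hw
        rw [dsupp_sh_same, hL.2 v hv 0 le_rfl]
  | succ m ih =>
    rw [bd_boxc]
    rcases Nat.eq_zero_or_pos (n (m + 1)) with hn | hn
    · have h1 : bd (boxc A n (m + 1 + 1)) = 0 := by
        rw [boxc, hn]
        simp
      rw [bd_boxc] at h1
      rw [h1]
      exact Submodule.zero_mem _
    refine Submodule.add_mem _ (Submodule.add_mem _ ?_ ?_) ?_
    · refine Submodule.sum_mem _ ?_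
      intro t ht
      rw [Finset.mem_range] at ht
      refine map_mem_Supp (pr (sh (m + 1) (t : ℤ)) (sh (m + 1) ((t : ℤ) + 1))) ?_ ih
      rintro L ⟨hL, j, hj, hjL⟩
      rw [pr_one]
      refine Finsupp.supported_mono ?_ (prL_mem _ _ L)
      intro L' hL'
      refine ⟨dsupp_cell hL (u := (t : ℤ)) (by omega) (by omega) ?_, j, by omega, ?_⟩
      · intro w hw
        obtain ⟨v, hv, rfl | rfl⟩ := hL' w hw
        · exact ⟨v, hv, t, le_rfl, by omega, rfl⟩
        · exact ⟨v, hv, (t : ℤ) + 1, by omega, le_rfl, rfl⟩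
      · rcases hjL with hjL | hjL
        · left
          intro w hw
          obtain ⟨v, hv, rfl | rfl⟩ := hL' w hw
          · rw [dsupp_sh_ne (by omega)]
            exact hjL v hv
          · rw [dsupp_sh_ne (by omega)]
            exact hjL v hv
        · right
          intro w hw
          obtain ⟨v, hv, rfl | rfl⟩ := hL' w hw
          · rw [dsupp_sh_ne (by omega)]
            exact hjL v hv
          · rw [dsupp_sh_ne (by omega)]
            exact hjL v hv
    · refine map_mem_Supp (push (sh (m + 1) 0)) ?_ (boxc_supp A n (m + 1))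
      intro L hL
      rw [push_one]
      refine one_mem_Supp ⟨dsupp_cell hL (u := 0) le_rfl (by omega) ?_, m + 1, by omega,
        Or.inl ?_⟩
      · intro w hw
        obtain ⟨v, hv, rfl⟩ := List.mem_map.1 hw
        exact ⟨v, hv, 0, le_rfl, by omega, rfl⟩
      · intro w hw
        obtain ⟨v, hv, rfl⟩ := List.mem_map.1 hw
        rw [dsupp_sh_same, hL.2 v hv (m + 1) le_rfl, add_zero]
    · refine map_mem_Supp (push (sh (m + 1) (n (m + 1) : ℤ))) ?_ (boxc_supp A n (m + 1))
      intro L hL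
      rw [push_one]
      refine one_mem_Supp ⟨dsupp_cell hL (u := (n (m + 1) : ℤ) - 1) (by omega) (by omega) ?_,
        m + 1, by omega, Or.inr ?_⟩
      · intro w hw
        obtain ⟨v, hv, rfl⟩ := List.mem_map.1 hw
        exact ⟨v, hv, n (m + 1), by omega, by omega, rfl⟩
      · intro w hw
        obtain ⟨v, hv, rfl⟩ := List.mem_map.1 hw
        rw [dsupp_sh_same, hL.2 v hv (m + 1) le_rfl]

theorem cnt_congr {e e' : ℕ → LV → ZMod 2} {N : ℕ} {A : LV} {n : ℕ → ℕ}
    (h : ∀ i < N, ∀ v : LV, (∀ j, N ≤ j → v j = A j) → (∀ j < N, A j ≤ v j ∧ v j ≤ A j + n j) → e i v = e' i v) :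
    cnt e N A n = cnt e' N A n := by
  unfold cnt
  refine ev_congr ?_ (boxc_supp A n N)
  rintro L ⟨⟨w, hw1, hw2⟩, hL2⟩
  refine om_congr ?_
  intro i hi v hv
  refine h i hi v (fun j hj => hL2 v hv j hj) ?_
  intro j hj
  have h1 := hw1 j hj
  have h2 := hw2 v hv j hj
  constructor <;> omega

end Pool.Agent.E8N
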