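import Pool.Agent.E8N.Api

/-!
# E8N: definitions for sections 4, 5, 6
-/

set_option autoImplicit false

open Metric Set Filter Topology

namespace Pool.Agent.E8N

noncomputable section

variable {E : Type*} [NormedAddCommGroup E] [InnerProductSpace ℝ E]

/-- the parameters where the minimum is canonical: no separated pair, or boundary of `K` -/
def Ap (K : Set E) : Set E := {p | p ∈ interior K ∧ ¬ Two (S K) (F p)} ∪ frontier K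

/-- inner parallel body -/
def DD (K : Set E) (r : ℝ) : Set E := {p | closedBall p r ⊆ K}

/-- unique maximum, away from `Ap` -/
def B1 (K : Set E) (r : ℝ) : Set E :=
  {p | p ∈ DD K (r / 2) ∧ r ≤ infDist p (Ap K) ∧ ¬ Two (S K) (fun x => - F p x)}

/-- first closed set -/
def C1 (K : Set E) (r : ℝ) : Set E := {p | p ∈ DD K (r / 2) ∧ infDist p (Ap K) ≤ r}

/-- second closed set -/
def C2 (K : Set E) (r r₂ : ℝ) : Set E :=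
  {p | p ∈ DD K (r / 2) ∧ r ≤ infDist p (Ap K) ∧ ∃ q ∈ B1 K r, ‖p - q‖ ≤ r₂}

/-- the remaining compact part of `Om K` -/
def O1 (K : Set E) (r r₂ : ℝ) : Set E :=
  {p | p ∈ DD K (r / 2) ∧ r ≤ infDist p (Ap K) ∧ ∀ q ∈ B1 K r, r₂ ≤ ‖p - q‖}

/-- `x, y` are the middle minimum and the middle maximum at `p` -/
def MidXY (K : Set E) (p x y : E) : Prop := ∃ Al Am Bl Bm, Mid K p Al Am Bl Bm x y

/-- `u` is a vector separating the reversed directions of `T` from the directions of the points of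
`S K` in the ball of radius `ε` around `y` -/
def SepU (K : Set E) (p u : E) (T : Set E) (y : E) (ε : ℝ) : Prop :=
  (∀ x ∈ T, inner ℝ u (dir p x) < 0) ∧ ∀ y' ∈ S K, ‖y' - y‖ ≤ ε → 0 < inner ℝ u (dir p y')

/-- constants for the neighbourhood of `Ap K` -/
structure NearP (K : Set E) (δ ε γ a r : ℝ) : Prop where
  hδ : 0 < δ
  hε : 0 < ε
  ha : 0 < a
  haγ : a < γ
  hγδ : 2 * γ < δ
  hr : 0 < r
  hrδ : 8 * r < δ
  hra : 8 * r < a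
  n1 : ∀ p ∈ K, infDist p (Ap K) ≤ r → ∀ y ∈ Hi K ε p, ∃ u, SepU K p u (Lo K δ p) y ε
  n2 : ∀ p ∈ Om K, infDist p (Ap K) ≤ r → ∀ lo hi, Mins K p lo hi → F p hi ≤ mn K p + γ → cl K p < mn K p + δ / 2
  n3 : ∀ p ∈ K, infDist p (Ap K) ≤ r → ∀ y ∈ Crit K p, mn K p + a ≤ F p y → ∃ u, SepU K p u (Lo K (4 * r) p) y 0
  n4 : ∀ p ∈ Om K, dl K p ≤ cl K p → infDist p (Ap K) ≤ r → ∀ x y, MidXY K p x y → mn K p + a ≤ F p x →
    F p x ≤ mn K p + 2 * γ → ∃ u, SepU K p u (Lo K δ p) y ε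
  n6 : ∀ p ∈ K, infDist p (frontier K) ≤ r → ∀ x ∈ Lo K (4 * r) p, 0 < inner ℝ (dir p x) p

/-- constants near the set of unique maxima -/
structure NearB (K : Set E) (r r₂ ε₂ κ : ℝ) : Prop where
  hr₂ : 0 < r₂
  hε₂ : 0 < ε₂
  hκ : 0 < κ
  /-- all maximum points of nearby parameters of `B1` are close to each other -/
  b1 : ∀ p, ∀ q ∈ B1 K r, ∀ q' ∈ B1 K r, ‖p - q‖ ≤ 3 * r₂ → ‖p - q'‖ ≤ 3 * r₂ → ∀ y ∈ Hi K 0 q, ∀ y' ∈ Hi K 0 q',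
    ‖y - y'‖ ≤ ε₂
  /-- the middle maximum is close to them -/
  b2 : ∀ p ∈ Om K, dl K p ≤ cl K p → ∀ q ∈ B1 K r, ‖p - q‖ ≤ 3 * r₂ → ∀ x y, MidXY K p x y → ∀ y' ∈ Hi K 0 q,
    ‖y - y'‖ ≤ ε₂
  /-- the merging level is below the maximum -/
  b3 : ∀ p ∈ Om K, ∀ q ∈ B1 K r, ‖p - q‖ ≤ 3 * r₂ → cl K p ≤ mx K p - κ
  b5 : ∀ p ∈ K, mn K p ≤ mx K p - κ / 2
  /-- separation of points which are not high from the maximum points -/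
  b4 : ∀ p ∈ K, ∀ q ∈ B1 K r, ‖p - q‖ ≤ 3 * r₂ → ∀ y ∈ Hi K 0 q, ∀ x ∈ S K, F p x ≤ mx K p - κ / 2 →
    ∃ u, SepU K p u {x} y (4 * ε₂)

/-- the part of `O1` where the middle labels are used -/
def St (K : Set E) (r r₂ ω : ℝ) : Set E := {p | p ∈ O1 K r r₂ ∧ dl K p - cl K p ≤ ω}

/-- the part of `O1` where the fill is used -/
def Cc (K : Set E) (r r₂ ω : ℝ) : Set E := {p | p ∈ O1 K r r₂ ∧ ω ≤ dl K p - cl K p}

/-- the extended labels `X, Y` and the fill `ξ` with all properties needed for the checks -/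
structure Data (K : Set E) (δ ε γ a r r₂ ε₂ κ ω : ℝ) (X Y ξ : E → E) : Prop where
  hω : 0 < ω
  cX : ContinuousOn X (St K r r₂ ω)
  cY : ContinuousOn Y (St K r r₂ ω)
  cξ : ContinuousOn ξ (Cc K r r₂ ω)
  sX : ∀ p ∈ St K r r₂ ω, X p ∈ S K
  sY : ∀ p ∈ St K r r₂ ω, Y p ∈ S K
  sξ : ∀ p ∈ Cc K r r₂ ω, ξ p ∈ S K
  l1 : ∀ p ∈ St K r r₂ ω, F p (X p) < cl K p
  l2 : ∀ p ∈ St K r r₂ ω, F p (X p) < F p (Y p)
  l3 : ∀ p ∈ Cc K r r₂ ω, p ∈ St K r r₂ ω → F p (ξ p) < F p (Y p)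
  l4 : ∀ p ∈ Cc K r r₂ ω, F p (ξ p) < cl K p + κ / 2
  e1 : ∀ p ∈ Cc K r r₂ ω, p ∈ St K r r₂ ω → F p (X p) ≤ mn K p + (a + γ) / 2 → ξ p = X p
  d1 : ∀ p ∈ Cc K r r₂ ω, infDist p (Ap K) ≤ r → ξ p ∈ Lo K δ p
  d2 : ∀ p ∈ St K r r₂ ω, infDist p (Ap K) ≤ r → mn K p + (a + γ) / 2 ≤ F p (X p) →
    ∃ u, (∀ x ∈ Lo K (4 * r) p, inner ℝ u (dir p x) < 0) ∧ 0 < inner ℝ u (dir p (Y p)) ∧
      (p ∈ Cc K r r₂ ω → inner ℝ u (dir p (ξ p)) < 0) ∧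
      (F p (X p) ≤ mn K p + (a + γ) / 2 → inner ℝ u (dir p (X p)) < 0)
  y2 : ∀ p ∈ St K r r₂ ω, ∀ q ∈ B1 K r, ‖p - q‖ ≤ 2 * r₂ → ∀ y ∈ Hi K 0 q, ‖Y p - y‖ ≤ 2 * ε₂

/-- `X, Y` are `η`-close to the middle labels of an `η`-close parameter of the set `O` -/
def Cls (K O : Set E) (η : ℝ) (p X Y : E) : Prop :=
  X ∈ S K ∧ Y ∈ S K ∧ ∃ q ∈ O, dl K q ≤ cl K q ∧ ‖p - q‖ ≤ η ∧ ∃ x y, MidXY K q x y ∧ ‖X - x‖ ≤ η ∧ ‖Y - y‖ ≤ η

end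

end Pool.Agent.E8N
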