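import Pool.Agent.E8N.LPath

/-!
# E8N (2.5): local connectivity of {q < 0}
-/

set_option autoImplicit false

open Metric Set Filter Topology Asymptotics

namespace Pool.Agent.E8N.LConn

noncomputable section

variable {V : Type*} [NormedAddCommGroup V] [InnerProductSpace ℝ V] [FiniteDimensional ℝ V]

open LSplit LPath

theorem lconn_norm {U : Submodule ℝ V} {w a : V} (ha : a ∈ U) (hw : w - a ∈ Uᗮ) {t : ℝ}
    (h0 : 0 ≤ t) (h1 : t ≤ 1) : ‖a + (1 - t) • (w - a)‖ ≤ ‖w‖ := by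
  have ho : inner ℝ a (w - a) = 0 := Submodule.inner_right_of_mem_orthogonal ha hw
  have e1 : ‖a + (1 - t) • (w - a)‖ ^ 2 = ‖a‖ ^ 2 + (1 - t) ^ 2 * ‖w - a‖ ^ 2 := by
    rw [@norm_add_sq_real, inner_smul_right, ho, norm_smul, mul_pow, Real.norm_eq_abs, sq_abs]
    ring
  have e2 : ‖w‖ ^ 2 = ‖a‖ ^ 2 + ‖w - a‖ ^ 2 := by
    have : w = a + (w - a) := by abel
    conv_lhs => rw [this]
    rw [@norm_add_sq_real, ho]
    ring
  have e3 : (1 - t) ^ 2 ≤ 1 := by nlinarith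
  have e4 : ‖a + (1 - t) • (w - a)‖ ^ 2 ≤ ‖w‖ ^ 2 := by
    rw [e1, e2]
    nlinarith [sq_nonneg ‖w - a‖]
  exact (sq_le_sq₀ (norm_nonneg _) (norm_nonneg _)).1 e4

theorem lconn_seg {q : V → ℝ} {U : Submodule ℝ V} {η : ℝ} {w a : V} (ha : a ∈ U) (hw : w - a ∈ Uᗮ)
    (hn : ‖w‖ < η) (h : ∀ t : ℝ, 0 ≤ t → t ≤ 1 → q (a + (1 - t) • (w - a)) < 0) :
    segment ℝ w a ⊆ ball (0 : V) η ∩ {z | q z < 0} := by
  rintro z hz
  rw [segment_eq_image] at hz
  obtain ⟨t, ht, rfl⟩ := hz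
  have e : (1 - t) • w + t • a = a + (1 - t) • (w - a) := by
    rw [smul_sub, sub_smul, one_smul, sub_smul, one_smul]
    abel
  simp only
  rw [e]
  refine ⟨?_, h t ht.1 ht.2⟩
  rw [mem_ball_zero_iff]
  exact lt_of_le_of_lt (lconn_norm ha hw ht.1 ht.2) hn

theorem lconn_glue {q : V → ℝ} {U : Submodule ℝ V} {η : ℝ} {w a v b : V} (ha : a ∈ U) (hw : w - a ∈ Uᗮ)
    (hn : ‖w‖ < η) (h : ∀ t : ℝ, 0 ≤ t → t ≤ 1 → q (a + (1 - t) • (w - a)) < 0)
    (hb : b ∈ U) (hv : v - b ∈ Uᗮ)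
    (hn' : ‖v‖ < η) (h' : ∀ t : ℝ, 0 ≤ t → t ≤ 1 → q (b + (1 - t) • (v - b)) < 0)
    {B : Set V} (hB : B ⊆ ball (0 : V) η ∩ {z | q z < 0}) (hBc : IsPreconnected B) (haB : a ∈ B) (hbB : b ∈ B) :
    ∃ A ⊆ ball (0 : V) η ∩ {z | q z < 0}, IsPreconnected A ∧ w ∈ A ∧ v ∈ A := by
  refine ⟨(segment ℝ w a ∪ B) ∪ segment ℝ v b, ?_, ?_, ?_, ?_⟩
  · exact union_subset (union_subset (lconn_seg ha hw hn h) hB) (lconn_seg hb hv hn' h')
  · refine IsPreconnected.union b (Or.inr hbB) (right_mem_segment ℝ v b) ?_ (convex_segment v b).isPreconnected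
    exact IsPreconnected.union a (right_mem_segment ℝ w a) haB (convex_segment w a).isPreconnected hBc
  · exact Or.inl (Or.inl (left_mem_segment ℝ w a))
  · exact Or.inr (left_mem_segment ℝ v b)

theorem lconn_sphere {U : Submodule ℝ V} (h2 : 2 ≤ Module.finrank ℝ U) {r : ℝ} :
    IsPreconnected ((Subtype.val : U → V) '' sphere (0 : U) r) := by
  refine IsPreconnected.image ?_ _ continuous_subtype_val.continuousOn
  refine isPreconnected_sphere ?_ _ _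
  rw [← Module.finrank_eq_rank]
  exact_mod_cast h2

theorem lconn_U {U : Submodule ℝ V} (h2 : 2 ≤ Module.finrank ℝ U) {η : ℝ} {a b : V} (ha : a ∈ U) (hb : b ∈ U)
    (ha0 : a ≠ 0) (hb0 : b ≠ 0) (han : ‖a‖ < η) (hbn : ‖b‖ < η) :
    ∃ B : Set V, IsPreconnected B ∧ a ∈ B ∧ b ∈ B ∧ ∀ z ∈ B, z ∈ U ∧ z ≠ 0 ∧ ‖z‖ < η := by
  have hna : 0 < ‖a‖ := norm_pos_iff.2 ha0
  have hnb : 0 < ‖b‖ := norm_pos_iff.2 hb0
  -- scale `a` to the norm of `b`
  have hseg : ∀ z ∈ segment ℝ a ((‖b‖ / ‖a‖) • a), z ∈ U ∧ z ≠ 0 ∧ ‖z‖ < η := by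
    intro z hz
    rw [segment_eq_image] at hz
    obtain ⟨t, ht, rfl⟩ := hz
    simp only
    have hc : 0 < ‖b‖ / ‖a‖ := div_pos hnb hna
    have e : (1 - t) • a + t • (‖b‖ / ‖a‖) • a = ((1 - t) + t * (‖b‖ / ‖a‖)) • a := by
      rw [add_smul, smul_smul]
    have hpos : 0 < (1 - t) + t * (‖b‖ / ‖a‖) := by
      rcases eq_or_lt_of_le ht.1 with h0 | h0
      · rw [← h0]; simp
      · have := mul_pos h0 hc
        linarith [ht.2]
    rw [e]
    refine ⟨U.smul_mem _ ha, smul_ne_zero hpos.ne' ha0, ?_⟩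
    rw [norm_smul, Real.norm_eq_abs, abs_of_pos hpos]
    have e2 : ((1 - t) + t * (‖b‖ / ‖a‖)) * ‖a‖ = (1 - t) * ‖a‖ + t * ‖b‖ := by
      field_simp
    rw [e2]
    rcases eq_or_lt_of_le ht.1 with h0 | h0
    · rw [← h0]; simpa using han
    · nlinarith [ht.2, mul_lt_mul_of_pos_left hbn h0, mul_le_mul_of_nonneg_left han.le (sub_nonneg.2 ht.2)]
  refine ⟨segment ℝ a ((‖b‖ / ‖a‖) • a) ∪ (Subtype.val : U → V) '' sphere (0 : U) ‖b‖, ?_, ?_, ?_, ?_⟩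
  · refine IsPreconnected.union ((‖b‖ / ‖a‖) • a) (right_mem_segment ℝ _ _) ?_
      (convex_segment _ _).isPreconnected (lconn_sphere h2)
    refine ⟨⟨(‖b‖ / ‖a‖) • a, U.smul_mem _ ha⟩, ?_, rfl⟩
    rw [mem_sphere_zero_iff_norm, Submodule.coe_norm, norm_smul, Real.norm_eq_abs, abs_of_pos (div_pos hnb hna)]
    field_simp
  · exact Or.inl (left_mem_segment ℝ _ _)
  · exact Or.inr ⟨⟨b, hb⟩, by rw [mem_sphere_zero_iff_norm, Submodule.coe_norm], rfl⟩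
  · rintro z (hz | ⟨y, hy, rfl⟩)
    · exact hseg z hz
    · rw [mem_sphere_zero_iff_norm, Submodule.coe_norm] at hy
      refine ⟨y.2, ?_, by rw [hy]; exact hbn⟩
      intro h0
      rw [h0, norm_zero] at hy
      exact hnb.ne hy

/-- no negative directions: no negative values -/
theorem conn0 {δ : ℝ} {q : V → ℝ} {H : V →L[ℝ] V} (h : QLoc δ q H)
    (symm : ∀ v w, inner ℝ (H v) w = inner ℝ v (H w)) {lam : ℝ} (hU : Split H (⊥ : Submodule ℝ V) lam) :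
    ∃ η > 0, ∀ w, ‖w‖ < η → 0 ≤ q w := by
  obtain ⟨η, hη, -, hq⟩ := q_exp h symm (ε := lam / 4) (by have := hU.pos; positivity)
  refine ⟨η, hη, fun w hw => ?_⟩
  have h1 := hU.psd w (by simp)
  have h2 := (abs_le.1 (hq w hw)).1
  have h3 : 0 ≤ lam * ‖w‖ ^ 2 := mul_nonneg hU.pos.le (sq_nonneg _)
  linarith

/-- one negative direction: two sides -/
theorem conn1 {δ : ℝ} {q : V → ℝ} {H : V →L[ℝ] V} (h : QLoc δ q H)
    (symm : ∀ v w, inner ℝ (H v) w = inner ℝ v (H w)) {U : Submodule ℝ V} {lam : ℝ} (hU : Split H U lam)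
    {e : V} (he : ‖e‖ = 1) (hUe : U = Submodule.span ℝ {e}) :
    ∃ η > 0, η ≤ δ ∧ ∃ C > 0, ∀ w, ‖w‖ < η → q w < 0 → ‖w‖ ≤ C * |inner ℝ w e| ∧
      ∀ v, ‖v‖ < η → q v < 0 → 0 < inner ℝ w e * inner ℝ v e →
        ∃ A ⊆ ball (0 : V) η ∩ {z | q z < 0}, IsPreconnected A ∧ w ∈ A ∧ v ∈ A := by
  obtain ⟨η, hη, hηδ, C, hC, hp, hn⟩ := path h symm hU
  have hproj : ∀ w : V, (inner ℝ w e : ℝ) • e ∈ U ∧ w - (inner ℝ w e : ℝ) • e ∈ Uᗮ := by
    intro w
    have heU : e ∈ U := by rw [hUe]; exact Submodule.mem_span_singleton_self e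
    refine ⟨U.smul_mem _ heU, ?_⟩
    rw [hUe, Submodule.mem_orthogonal_singleton_iff_inner_right, inner_sub_right, inner_smul_right,
      real_inner_self_eq_norm_sq, he, real_inner_comm]
    ring
  refine ⟨η, hη, hηδ, C, hC, fun w hw hqw => ?_⟩
  obtain ⟨ha, hwa⟩ := hproj w
  obtain ⟨hw1, hw2⟩ := hp w hw hqw _ ha hwa
  refine ⟨?_, ?_⟩
  · rw [norm_smul, he, mul_one, Real.norm_eq_abs] at hw1
    exact hw1
  · intro v hv hqv hpos
    obtain ⟨hb, hvb⟩ := hproj v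
    obtain ⟨hv1, hv2⟩ := hp v hv hqv _ hb hvb
    have hna : ‖(inner ℝ w e : ℝ) • e‖ < η := by
      have := lconn_norm ha hwa (t := 1) zero_le_one le_rfl
      rw [sub_self, zero_smul, add_zero] at this
      exact lt_of_le_of_lt this hw
    have hnb : ‖(inner ℝ v e : ℝ) • e‖ < η := by
      have := lconn_norm hb hvb (t := 1) zero_le_one le_rfl
      rw [sub_self, zero_smul, add_zero] at this
      exact lt_of_le_of_lt this hv
    refine lconn_glue ha hwa hw hw2 hb hvb hv hv2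
      (B := segment ℝ ((inner ℝ w e : ℝ) • e) ((inner ℝ v e : ℝ) • e)) ?_
      (convex_segment _ _).isPreconnected (left_mem_segment ℝ _ _) (right_mem_segment ℝ _ _)
    intro z hz
    have hzb : z ∈ ball (0 : V) η :=
      (convex_ball (0 : V) η).segment_subset (mem_ball_zero_iff.2 hna) (mem_ball_zero_iff.2 hnb) hz
    refine ⟨hzb, ?_⟩
    rw [segment_eq_image] at hz
    obtain ⟨t, ht, rfl⟩ := hz
    refine hn _ (U.add_mem (U.smul_mem _ ha) (U.smul_mem _ hb)) ?_ (mem_ball_zero_iff.1 hzb)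
    simp only
    rw [smul_smul, smul_smul, ← add_smul]
    have he0 : e ≠ 0 := by
      intro h0
      rw [h0, norm_zero] at he
      exact zero_ne_one he
    refine smul_ne_zero ?_ he0
    intro h0
    have h3 : 0 < (inner ℝ w e : ℝ) ^ 2 := by
      have : (inner ℝ w e : ℝ) ≠ 0 := by
        intro h4
        rw [h4, zero_mul] at hpos
        exact lt_irrefl _ hpos
      positivity
    rcases eq_or_lt_of_le ht.2 with h5 | h5
    · rw [h5] at h0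
      have h6 : (inner ℝ v e : ℝ) = 0 := by linarith
      rw [h6, mul_zero] at hpos
      exact lt_irrefl _ hpos
    · have h7 : ((1 - t) * inner ℝ w e + t * inner ℝ v e) * inner ℝ w e = 0 := by rw [h0, zero_mul]
      nlinarith [mul_pos (sub_pos.2 h5) h3, mul_nonneg ht.1 hpos.le]

/-- at least two negative directions: connected -/
theorem conn2 {δ : ℝ} {q : V → ℝ} {H : V →L[ℝ] V} (h : QLoc δ q H)
    (symm : ∀ v w, inner ℝ (H v) w = inner ℝ v (H w)) {U : Submodule ℝ V} {lam : ℝ} (hU : Split H U lam)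
    (h2 : 2 ≤ Module.finrank ℝ U) :
    ∃ η > 0, η ≤ δ ∧ ∀ w, ‖w‖ < η → q w < 0 → ∀ v, ‖v‖ < η → q v < 0 →
        ∃ A ⊆ ball (0 : V) η ∩ {z | q z < 0}, IsPreconnected A ∧ w ∈ A ∧ v ∈ A := by
  obtain ⟨η, hη, hηδ, C, hC, hp, hn⟩ := path h symm hU
  have key : ∀ w, ‖w‖ < η → q w < 0 → ∃ a ∈ U, w - a ∈ Uᗮ ∧ a ≠ 0 ∧ ‖a‖ < η ∧
      ∀ t : ℝ, 0 ≤ t → t ≤ 1 → q (a + (1 - t) • (w - a)) < 0 := by
    intro w hw hqw
    have ha : (U.starProjection w) ∈ U := U.starProjection_apply_mem w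
    have hwa : w - U.starProjection w ∈ Uᗮ := Submodule.sub_starProjection_mem_orthogonal w
    obtain ⟨h1, h2⟩ := hp w hw hqw _ ha hwa
    refine ⟨_, ha, hwa, ?_, ?_, h2⟩
    · intro h0
      rw [h0, norm_zero, mul_zero] at h1
      have hw0 : w = 0 := norm_eq_zero.1 (le_antisymm h1 (norm_nonneg _))
      rw [hw0, h.zero] at hqw
      exact lt_irrefl _ hqw
    · have := lconn_norm ha hwa (t := 1) zero_le_one le_rfl
      rw [sub_self, zero_smul, add_zero] at this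
      exact lt_of_le_of_lt this hw
  refine ⟨η, hη, hηδ, fun w hw hqw v hv hqv => ?_⟩
  obtain ⟨a, ha, hwa, ha0, han, hat⟩ := key w hw hqw
  obtain ⟨b, hb, hvb, hb0, hbn, hbt⟩ := key v hv hqv
  obtain ⟨B, hBc, haB, hbB, hB⟩ := lconn_U h2 ha hb ha0 hb0 han hbn
  refine lconn_glue ha hwa hw hat hb hvb hv hbt (B := B) ?_ hBc haB hbB
  intro z hz
  obtain ⟨h3, h4, h5⟩ := hB z hz
  exact ⟨mem_ball_zero_iff.2 h5, hn z h3 h4 h5⟩

end

end Pool.Agent.E8N.LConn
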