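import Pool.Agent.E8N.LSplit

/-!
# E8N (2.5): the path (a,b) -> (a,(1-t)b)
-/

set_option autoImplicit false

open Metric Set Filter Topology Asymptotics

namespace Pool.Agent.E8N.LPath

noncomputable section

variable {V : Type*} [NormedAddCommGroup V] [InnerProductSpace ℝ V] [FiniteDimensional ℝ V]

open LSplit

/-- a C^1 function with nondegenerate critical point at `0` -/
structure QLoc (δ : ℝ) (q : V → ℝ) (H : V →L[ℝ] V) : Prop where
  pos : 0 < δ
  zero : q 0 = 0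
  grad : ∃ G : V → V, (∀ w ∈ ball (0 : V) δ, HasFDerivAt q (innerSL ℝ (G w)) w) ∧
    (fun w => G w - H w) =o[𝓝 0] (fun w => w)

theorem QLoc.neg {δ : ℝ} {q : V → ℝ} {H : V →L[ℝ] V} (h : QLoc δ q H) : QLoc δ (fun w => - q w) (-H) := by
  obtain ⟨G, hG, ho⟩ := h.grad
  refine ⟨h.pos, by simp [h.zero], fun w => - G w, fun w hw => ?_, ?_⟩
  · have h1 := (hG w hw).neg
    refine h1.congr_fderiv ?_
    rw [map_neg]
  · have h1 := ho.neg_left
    refine h1.congr_left (fun w => ?_)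
    simp only [neg_apply]
    abel

theorem LPath_both {δ : ℝ} {q : V → ℝ} {H : V →L[ℝ] V} (h : QLoc δ q H) {ε : ℝ} (hε : 0 < ε) :
    ∃ η > 0, η ≤ δ ∧ ∃ G : V → V, ∀ w, ‖w‖ < η → HasFDerivAt q (innerSL ℝ (G w)) w ∧
      ‖G w - H w‖ ≤ ε * ‖w‖ ∧ |q w - inner ℝ (H w) w / 2| ≤ ε * ‖w‖ ^ 2 := by
  obtain ⟨G, hG, ho⟩ := h.grad
  have h1 : ∀ᶠ w in 𝓝 (0 : V), ‖G w - H w‖ ≤ ε * ‖w‖ := ho.def hε
  obtain ⟨η₀, h0, h2⟩ := Metric.eventually_nhds_iff.mp h1
  refine ⟨min η₀ δ, lt_min h0 h.pos, min_le_right _ _, G, fun w hw => ?_⟩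
  have hd : ∀ v : V, ‖v‖ < min η₀ δ → HasFDerivAt q (innerSL ℝ (G v)) v ∧
      ‖G v - H v‖ ≤ ε * ‖v‖ := by
    intro v hv
    refine ⟨hG v ?_, h2 ?_⟩
    · rw [mem_ball_zero_iff]
      exact lt_of_lt_of_le hv (min_le_right _ _)
    · rw [dist_zero_right]
      exact lt_of_lt_of_le hv (min_le_left _ _)
  refine ⟨(hd w hw).1, (hd w hw).2, ?_⟩
  have hseg : ∀ t ∈ Icc (0 : ℝ) 1, ‖t • w‖ < min η₀ δ := by
    intro t ht
    rw [norm_smul, Real.norm_eq_abs, abs_of_nonneg ht.1]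
    calc t * ‖w‖ ≤ 1 * ‖w‖ := mul_le_mul_of_nonneg_right ht.2 (norm_nonneg w)
      _ = ‖w‖ := one_mul _
      _ < _ := hw
  have hder : ∀ t ∈ Icc (0 : ℝ) 1, HasDerivAt
      (fun t : ℝ => q (t • w) - t ^ 2 * (inner ℝ (H w) w / 2))
      (inner ℝ (G (t • w)) w - t * inner ℝ (H w) w) t := by
    intro t ht
    have a1 : HasDerivAt (fun t : ℝ => t • w) ((1 : ℝ) • w) t := (hasDerivAt_id t).smul_const w
    have a2 := (hd (t • w) (hseg t ht)).1.comp_hasDerivAt t a1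
    have a3 : HasDerivAt (fun t : ℝ => t ^ 2 * (inner ℝ (H w) w / 2))
        (t * inner ℝ (H w) w) t := by
      have := (hasDerivAt_pow 2 t).mul_const (inner ℝ (H w) w / 2)
      refine this.congr_deriv ?_
      simp only [Nat.cast_ofNat, Nat.add_one_sub_one, pow_one]
      ring
    have a4 := a2.sub a3
    refine a4.congr_deriv ?_
    simp
  have hb : ∀ t ∈ Ico (0 : ℝ) 1, ‖inner ℝ (G (t • w)) w - t * inner ℝ (H w) w‖ ≤
      ε * ‖w‖ ^ 2 := by
    intro t ht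
    have ht' : t ∈ Icc (0 : ℝ) 1 := ⟨ht.1, ht.2.le⟩
    have b1 : inner ℝ (G (t • w)) w - t * inner ℝ (H w) w =
        inner ℝ (G (t • w) - H (t • w)) w := by
      rw [inner_sub_left, map_smul, inner_smul_left]
      simp
    rw [b1]
    calc ‖inner ℝ (G (t • w) - H (t • w)) w‖ ≤ ‖G (t • w) - H (t • w)‖ * ‖w‖ :=
          norm_inner_le_norm _ _
      _ ≤ (ε * ‖t • w‖) * ‖w‖ :=
          mul_le_mul_of_nonneg_right (hd (t • w) (hseg t ht')).2 (norm_nonneg w)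
      _ = t * (ε * ‖w‖ ^ 2) := by
          rw [norm_smul, Real.norm_eq_abs, abs_of_nonneg ht.1]
          ring
      _ ≤ 1 * (ε * ‖w‖ ^ 2) := mul_le_mul_of_nonneg_right ht.2.le (by positivity)
      _ = _ := one_mul _
  have hfin := norm_image_sub_le_of_norm_deriv_le_segment_01'
    (fun t ht => (hder t ht).hasDerivWithinAt) hb
  simp only [one_smul, one_pow, one_mul, zero_smul, h.zero] at hfin
  rw [Real.norm_eq_abs] at hfin
  have e : q w - inner ℝ (H w) w / 2 - (0 - 0 ^ 2 * (inner ℝ (H w) w / 2)) =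
      q w - inner ℝ (H w) w / 2 := by ring
  rw [e] at hfin
  exact hfin

/-- the quadratic form of a sum -/
theorem LPath_quad {H : V →L[ℝ] V} {U : Submodule ℝ V} {lam : ℝ} (hU : Split H U lam) {a b : V}
    (ha : a ∈ U) (hb : b ∈ Uᗮ) (s : ℝ) :
    inner ℝ (H (a + s • b)) (a + s • b) = inner ℝ (H a) a + s ^ 2 * inner ℝ (H b) b ∧
      inner ℝ (H (a + s • b)) b = s * inner ℝ (H b) b ∧
      ‖a + s • b‖ ^ 2 = ‖a‖ ^ 2 + s ^ 2 * ‖b‖ ^ 2 := by
  have h1 : inner ℝ (H a) b = 0 := Submodule.inner_right_of_mem_orthogonal (hU.inv a ha) hb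
  have h2 : inner ℝ (H b) a = 0 := Submodule.inner_left_of_mem_orthogonal ha (hU.inv' b hb)
  have h3 : inner ℝ a b = 0 := Submodule.inner_right_of_mem_orthogonal ha hb
  refine ⟨?_, ?_, ?_⟩
  · rw [map_add, map_smul, inner_add_left, inner_add_right, inner_add_right, inner_smul_left,
      inner_smul_left, inner_smul_right, inner_smul_right, h1, h2]
    simp only [conj_trivial]
    ring
  · rw [map_add, map_smul, inner_add_left, inner_smul_left, h1]
    simp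
  · rw [norm_add_sq_real, inner_smul_right, h3, norm_smul, mul_pow, Real.norm_eq_abs, sq_abs]
    ring

/-- second order expansion -/
theorem q_exp {δ : ℝ} {q : V → ℝ} {H : V →L[ℝ] V} (h : QLoc δ q H)
    (symm : ∀ v w, inner ℝ (H v) w = inner ℝ v (H w)) {ε : ℝ} (hε : 0 < ε) :
    ∃ η > 0, η ≤ δ ∧ ∀ w, ‖w‖ < η → |q w - inner ℝ (H w) w / 2| ≤ ε * ‖w‖ ^ 2 := by
  obtain ⟨η, h1, h2, G, h3⟩ := LPath_both h hε
  exact ⟨η, h1, h2, fun w hw => (h3 w hw).2.2⟩

/-- the path to the negative space stays in `{q < 0}` -/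
theorem path {δ : ℝ} {q : V → ℝ} {H : V →L[ℝ] V} (h : QLoc δ q H)
    (symm : ∀ v w, inner ℝ (H v) w = inner ℝ v (H w)) {U : Submodule ℝ V} {lam : ℝ} (hU : Split H U lam) :
    ∃ η > 0, η ≤ δ ∧ ∃ C > 0, (∀ w, ‖w‖ < η → q w < 0 → ∀ a ∈ U, w - a ∈ Uᗮ →
      ‖w‖ ≤ C * ‖a‖ ∧ ∀ t : ℝ, 0 ≤ t → t ≤ 1 → q (a + (1 - t) • (w - a)) < 0) ∧
      ∀ u ∈ U, u ≠ 0 → ‖u‖ < η → q u < 0 := by
  have hlam := hU.pos
  have hh : 0 ≤ ‖H‖ := norm_nonneg H
  obtain ⟨th, ht0, ht1, ht2⟩ : ∃ th : ℝ, 0 < th ∧ th ≤ 1 ∧ ‖H‖ * th ^ 2 ≤ lam / 2 := by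
    refine ⟨min 1 (lam / (2 * (‖H‖ + 1))), lt_min one_pos (by positivity), min_le_left _ _, ?_⟩
    set th := min 1 (lam / (2 * (‖H‖ + 1))) with hth
    have a0 : 0 < th := lt_min one_pos (by positivity)
    have a1 : th ≤ 1 := min_le_left _ _
    have a2 : th ≤ lam / (2 * (‖H‖ + 1)) := min_le_right _ _
    rw [le_div_iff₀ (by positivity)] at a2
    have a3 : th ^ 2 ≤ th := by nlinarith
    have a4 : ‖H‖ * th ^ 2 ≤ ‖H‖ * th := mul_le_mul_of_nonneg_left a3 hh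
    nlinarith
  have hε : 0 < lam * th / 10 := by positivity
  obtain ⟨η, hη, hηδ, G, hG⟩ := LPath_both h hε
  have hεl : lam * th / 10 ≤ lam / 10 := by nlinarith
  have hHb : ∀ b : V, inner ℝ (H b) b ≤ ‖H‖ * ‖b‖ ^ 2 := by
    intro b
    calc inner ℝ (H b) b ≤ ‖H b‖ * ‖b‖ := real_inner_le_norm _ _
      _ ≤ (‖H‖ * ‖b‖) * ‖b‖ := mul_le_mul_of_nonneg_right (H.le_opNorm b) (norm_nonneg b)
      _ = _ := by ring
  have hHa : ∀ b : V, -(‖H‖ * ‖b‖ ^ 2) ≤ inner ℝ (H b) b := by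
    intro b
    have h1 : -(‖H b‖ * ‖b‖) ≤ inner ℝ (H b) b :=
      (abs_le.mp (abs_real_inner_le_norm (H b) b)).1
    have h2 : ‖H b‖ * ‖b‖ ≤ (‖H‖ * ‖b‖) * ‖b‖ :=
      mul_le_mul_of_nonneg_right (H.le_opNorm b) (norm_nonneg b)
    have h3 : (‖H‖ * ‖b‖) * ‖b‖ = ‖H‖ * ‖b‖ ^ 2 := by ring
    linarith
  refine ⟨η, hη, hηδ, 1 + (2 * ‖H‖ + lam) / lam, by positivity, ?_, ?_⟩
  · intro w hw hq a ha hb
    obtain ⟨b, hbdef⟩ : ∃ b, b = w - a := ⟨_, rfl⟩
    rw [← hbdef] at hb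
    have hw1 : w = a + (1 : ℝ) • b := by rw [hbdef]; module
    obtain ⟨q1, q2, q3⟩ := LPath_quad hU ha hb 1
    rw [← hw1] at q1 q2 q3
    have hn : ‖w‖ ^ 2 = ‖a‖ ^ 2 + ‖b‖ ^ 2 := by rw [q3]; ring
    have hna := hU.neg a ha
    have hpb := hU.psd b hb
    have h1 := (abs_le.mp (hG w hw).2.2).1
    have h2 : ‖b‖ ^ 2 ≤ (2 * ‖H‖ + lam) / lam * ‖a‖ ^ 2 := by
      rw [div_mul_eq_mul_div, le_div_iff₀ hlam]
      have h3 := hHa a
      have h4 : lam * th / 10 * ‖w‖ ^ 2 ≤ lam / 10 * ‖w‖ ^ 2 :=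
        mul_le_mul_of_nonneg_right hεl (sq_nonneg _)
      rw [hn] at h4
      rw [q1, hn] at h1
      rw [hn] at *
      nlinarith [sq_nonneg ‖a‖, sq_nonneg ‖b‖]
    have hc0 : 0 ≤ (2 * ‖H‖ + lam) / lam := by positivity
    have h3 : ‖w‖ ≤ (1 + (2 * ‖H‖ + lam) / lam) * ‖a‖ := by
      have h4 : ‖w‖ ^ 2 ≤ ((1 + (2 * ‖H‖ + lam) / lam) * ‖a‖) ^ 2 := by
        rw [hn, mul_pow]
        nlinarith [sq_nonneg ‖a‖, mul_nonneg hc0 (sq_nonneg ‖a‖),
          mul_nonneg (mul_nonneg hc0 hc0) (sq_nonneg ‖a‖)]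
      exact le_of_sq_le_sq h4 (by positivity)
    refine ⟨h3, ?_⟩
    have ha0 : 0 < ‖a‖ := by
      by_contra hcon
      have ha1 : ‖a‖ = 0 := le_antisymm (not_lt.mp hcon) (norm_nonneg a)
      rw [ha1, mul_zero] at h3
      have hw0 : w = 0 := norm_le_zero_iff.mp h3
      rw [hw0, h.zero] at hq
      exact lt_irrefl _ hq
    -- the path in terms of the remaining factor `s`
    have key : ∀ s : ℝ, 0 ≤ s → s ≤ 1 → q (a + s • b) < 0 := by
      intro s hs0 hs1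
      have hnorm : ∀ r : ℝ, 0 ≤ r → r ≤ 1 → ‖a + r • b‖ < η := by
        intro r hr0 hr1
        obtain ⟨_, _, r3⟩ := LPath_quad hU ha hb r
        have h5 : ‖a + r • b‖ ^ 2 ≤ ‖w‖ ^ 2 := by
          rw [r3, hn]
          have : r ^ 2 * ‖b‖ ^ 2 ≤ 1 * ‖b‖ ^ 2 :=
            mul_le_mul_of_nonneg_right (by nlinarith) (sq_nonneg _)
          linarith
        exact lt_of_le_of_lt (le_of_sq_le_sq h5 (norm_nonneg w)) hw
      rcases le_or_gt (s * ‖b‖) (th * ‖a‖) with hcase | hcase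
      · obtain ⟨r1, _, r3⟩ := LPath_quad hU ha hb s
        have h5 := (abs_le.mp (hG (a + s • b) (hnorm s hs0 hs1)).2.2).2
        rw [r1, r3] at h5
        have h6 : s ^ 2 * ‖b‖ ^ 2 ≤ th ^ 2 * ‖a‖ ^ 2 := by
          rw [← mul_pow, ← mul_pow]
          exact pow_le_pow_left₀ (by positivity) hcase 2
        have h7 : s ^ 2 * inner ℝ (H b) b ≤ ‖H‖ * (s ^ 2 * ‖b‖ ^ 2) := by
          calc s ^ 2 * inner ℝ (H b) b ≤ s ^ 2 * (‖H‖ * ‖b‖ ^ 2) :=
                mul_le_mul_of_nonneg_left (hHb b) (sq_nonneg s)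
            _ = _ := by ring
        have h8 : ‖H‖ * (s ^ 2 * ‖b‖ ^ 2) ≤ ‖H‖ * (th ^ 2 * ‖a‖ ^ 2) :=
          mul_le_mul_of_nonneg_left h6 hh
        have h9 : ‖H‖ * (th ^ 2 * ‖a‖ ^ 2) ≤ lam / 2 * ‖a‖ ^ 2 := by
          calc ‖H‖ * (th ^ 2 * ‖a‖ ^ 2) = (‖H‖ * th ^ 2) * ‖a‖ ^ 2 := by ring
            _ ≤ _ := mul_le_mul_of_nonneg_right ht2 (sq_nonneg _)
        have h10 : th ^ 2 * ‖a‖ ^ 2 ≤ 1 * ‖a‖ ^ 2 :=
          mul_le_mul_of_nonneg_right (by nlinarith) (sq_nonneg _)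
        have h11 : lam * th / 10 * (‖a‖ ^ 2 + s ^ 2 * ‖b‖ ^ 2) ≤
            lam / 10 * (‖a‖ ^ 2 + s ^ 2 * ‖b‖ ^ 2) :=
          mul_le_mul_of_nonneg_right hεl (by positivity)
        have h12 : lam / 10 * (‖a‖ ^ 2 + s ^ 2 * ‖b‖ ^ 2) ≤ lam / 10 * (2 * ‖a‖ ^ 2) :=
          mul_le_mul_of_nonneg_left (by linarith) (by positivity)
        have h13 : 0 < lam * ‖a‖ ^ 2 := by positivity
        nlinarith
      · have hder : ∀ r : ℝ, 0 ≤ r → r ≤ 1 → HasDerivAt (fun r : ℝ => q (a + r • b))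
            (inner ℝ (G (a + r • b)) b) r := by
          intro r hr0 hr1
          have a1 : HasDerivAt (fun r : ℝ => a + r • b) ((1 : ℝ) • b) r :=
            ((hasDerivAt_id r).smul_const b).const_add a
          have a2 := (hG (a + r • b) (hnorm r hr0 hr1)).1.comp_hasDerivAt r a1
          refine a2.congr_deriv ?_
          simp
        have hmono : MonotoneOn (fun r : ℝ => q (a + r • b)) (Icc s 1) := by
          refine monotoneOn_of_deriv_nonneg (convex_Icc s 1) ?_ ?_ ?_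
          · intro r hr
            exact (hder r (hs0.trans hr.1) hr.2).continuousAt.continuousWithinAt
          · intro r hr
            rw [interior_Icc] at hr
            exact (hder r (hs0.trans hr.1.le) hr.2.le).differentiableAt.differentiableWithinAt
          · intro r hr
            rw [interior_Icc] at hr
            have hr0 := hs0.trans hr.1.le
            rw [(hder r hr0 hr.2.le).deriv]
            obtain ⟨_, r2, _⟩ := LPath_quad hU ha hb r
            have h5 := (hG (a + r • b) (hnorm r hr0 hr.2.le)).2.1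
            have h6 : inner ℝ (G (a + r • b)) b = r * inner ℝ (H b) b +
                inner ℝ (G (a + r • b) - H (a + r • b)) b := by
              rw [inner_sub_left, r2]
              ring
            have h7 : -(‖G (a + r • b) - H (a + r • b)‖ * ‖b‖) ≤
                inner ℝ (G (a + r • b) - H (a + r • b)) b :=
              (abs_le.mp (abs_real_inner_le_norm _ _)).1
            have h8 : ‖a + r • b‖ ≤ ‖a‖ + r * ‖b‖ := by
              refine (norm_add_le _ _).trans (le_of_eq ?_)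
              rw [norm_smul, Real.norm_eq_abs, abs_of_nonneg hr0]
            have h9 : th * ‖a‖ ≤ r * ‖b‖ :=
              hcase.le.trans (mul_le_mul_of_nonneg_right hr.1.le (norm_nonneg b))
            have h10 : lam * th / 10 * ‖a + r • b‖ ≤ lam / 5 * (r * ‖b‖) := by
              calc lam * th / 10 * ‖a + r • b‖ ≤ lam * th / 10 * (‖a‖ + r * ‖b‖) :=
                    mul_le_mul_of_nonneg_left h8 hε.le
                _ = lam / 10 * (th * ‖a‖) + lam * th / 10 * (r * ‖b‖) := by ring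
                _ ≤ lam / 10 * (r * ‖b‖) + lam / 10 * (r * ‖b‖) :=
                    add_le_add (mul_le_mul_of_nonneg_left h9 (by positivity))
                      (mul_le_mul_of_nonneg_right hεl (by positivity))
                _ = _ := by ring
            have h11 : ‖G (a + r • b) - H (a + r • b)‖ * ‖b‖ ≤ lam / 5 * (r * ‖b‖) * ‖b‖ :=
              mul_le_mul_of_nonneg_right (h5.trans h10) (norm_nonneg b)
            have h12 : r * (lam * ‖b‖ ^ 2) ≤ r * inner ℝ (H b) b :=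
              mul_le_mul_of_nonneg_left hpb hr0
            have h13 : 0 ≤ r * (lam * ‖b‖ ^ 2) := by positivity
            rw [h6]
            have h14 : lam / 5 * (r * ‖b‖) * ‖b‖ = 1 / 5 * (r * (lam * ‖b‖ ^ 2)) := by ring
            linarith
        have h5 := hmono (left_mem_Icc.mpr hs1) (right_mem_Icc.mpr hs1) hs1
        simp only at h5
        rw [← hw1] at h5
        exact lt_of_le_of_lt h5 hq
    intro t ht0' ht1'
    rw [← hbdef]
    exact key (1 - t) (by linarith) (by linarith)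
  · intro u hu hu0 hun
    have h1 := (abs_le.mp (hG u hun).2.2).2
    have h2 := hU.neg u hu
    have h3 : 0 < ‖u‖ := norm_pos_iff.mpr hu0
    have h4 : lam * th / 10 * ‖u‖ ^ 2 ≤ lam / 10 * ‖u‖ ^ 2 :=
      mul_le_mul_of_nonneg_right hεl (sq_nonneg _)
    have h5 : 0 < lam * ‖u‖ ^ 2 := by positivity
    linarith

end

end Pool.Agent.E8N.LPath
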