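import Pool.Agent.E8N.Defs

/-!
# E8N (2.5): splitting of a symmetric invertible operator

Use the eigenvector basis (`LinearMap.IsSymmetric.eigenvectorBasis`) or the spectral theorem.
-/

set_option autoImplicit false

open Metric Set Filter Topology Asymptotics

namespace Pool.Agent.E8N.LSplit

noncomputable section

variable {V : Type*} [NormedAddCommGroup V] [InnerProductSpace ℝ V] [FiniteDimensional ℝ V]

/-- `U` is the negative space of the symmetric operator `H` -/
structure Split (H : V →L[ℝ] V) (U : Submodule ℝ V) (lam : ℝ) : Prop where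
  pos : 0 < lam
  inv : ∀ u ∈ U, H u ∈ U
  inv' : ∀ w ∈ Uᗮ, H w ∈ Uᗮ
  neg : ∀ u ∈ U, inner ℝ (H u) u ≤ - (lam * ‖u‖ ^ 2)
  psd : ∀ w ∈ Uᗮ, lam * ‖w‖ ^ 2 ≤ inner ℝ (H w) w

theorem lsplit_quad (H : V →L[ℝ] V) (symm : ∀ v w, inner ℝ (H v) w = inner ℝ v (H w)) {n : ℕ}
    (b : OrthonormalBasis (Fin n) ℝ V) (ev : Fin n → ℝ) (hb : ∀ i, H (b i) = ev i • b i) (v : V) :
    inner ℝ (H v) v = ∑ i, ev i * (inner ℝ v (b i)) ^ 2 := by
  rw [← b.sum_inner_mul_inner (H v) v]
  refine Finset.sum_congr rfl (fun i _ => ?_)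
  rw [symm, hb, inner_smul_right, real_inner_comm v (b i)]
  ring

theorem lsplit_norm {n : ℕ} (b : OrthonormalBasis (Fin n) ℝ V) (v : V) :
    ‖v‖ ^ 2 = ∑ i, (inner ℝ v (b i)) ^ 2 := by
  rw [← real_inner_self_eq_norm_sq, ← b.sum_inner_mul_inner v v]
  refine Finset.sum_congr rfl (fun i _ => ?_)
  rw [real_inner_comm v (b i)]
  ring

theorem split_exists (H : V →L[ℝ] V) (symm : ∀ v w, inner ℝ (H v) w = inner ℝ v (H w))
    (inj : ∀ v, H v = 0 → v = 0) : ∃ U lam, Split H U lam := by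
  have hT : (H : V →ₗ[ℝ] V).IsSymmetric := fun v w => symm v w
  obtain ⟨n, hn⟩ : ∃ n, Module.finrank ℝ V = n := ⟨_, rfl⟩
  obtain ⟨b, ev, hb⟩ : ∃ (b : OrthonormalBasis (Fin n) ℝ V) (ev : Fin n → ℝ),
      ∀ i, H (b i) = ev i • b i :=
    ⟨hT.eigenvectorBasis hn, hT.eigenvalues hn, fun i => hT.apply_eigenvectorBasis hn i⟩
  have hev : ∀ i, ev i ≠ 0 := by
    intro i h0
    have h1 : H (b i) = 0 := by rw [hb, h0, zero_smul]
    have h2 := inj _ h1
    have h3 : ‖b i‖ = 1 := b.orthonormal.1 i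
    rw [h2, norm_zero] at h3
    exact zero_ne_one h3
  obtain ⟨lam, hlam, hle⟩ : ∃ lam : ℝ, 0 < lam ∧ ∀ i, lam ≤ |ev i| := by
    by_cases hne : Nonempty (Fin n)
    · obtain ⟨i0, hi0⟩ := Finite.exists_min (fun i => |ev i|)
      exact ⟨|ev i0|, abs_pos.mpr (hev i0), hi0⟩
    · exact ⟨1, one_pos, fun i => absurd ⟨i⟩ hne⟩
  let U : Submodule ℝ V := Submodule.span ℝ (b '' {i | ev i < 0})
  have hUinv : ∀ u ∈ U, H u ∈ U := by
    have h1 : U ≤ U.comap (H : V →ₗ[ℝ] V) := by
      rw [Submodule.span_le]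
      rintro _ ⟨i, hi, rfl⟩
      have h2 : H (b i) ∈ U := by
        rw [hb]
        exact U.smul_mem _ (Submodule.subset_span ⟨i, hi, rfl⟩)
      exact h2
    intro u hu
    exact h1 hu
  have hUz : ∀ u ∈ U, ∀ i, 0 ≤ ev i → inner ℝ u (b i) = 0 := by
    intro u hu i hi
    have h1 : U ≤ (Submodule.span ℝ {b i})ᗮ := by
      rw [Submodule.span_le]
      rintro _ ⟨j, hj, rfl⟩
      have hji : j ≠ i := by
        rintro rfl
        exact absurd hj (not_lt.mpr hi)
      have h2 : inner ℝ (b i) (b j) = 0 := b.orthonormal.2 (Ne.symm hji)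
      exact Submodule.mem_orthogonal_singleton_iff_inner_right.mpr h2
    have h3 := Submodule.mem_orthogonal_singleton_iff_inner_right.mp (h1 hu)
    rw [real_inner_comm]
    exact h3
  have hWz : ∀ w ∈ Uᗮ, ∀ i, ev i < 0 → inner ℝ w (b i) = 0 := by
    intro w hw i hi
    rw [real_inner_comm]
    exact (Submodule.mem_orthogonal U w).mp hw _ (Submodule.subset_span ⟨i, hi, rfl⟩)
  refine ⟨U, lam, ⟨hlam, hUinv, ?_, ?_, ?_⟩⟩
  · intro w hw
    rw [Submodule.mem_orthogonal] at hw ⊢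
    intro u hu
    rw [← symm]
    exact hw _ (hUinv u hu)
  · intro u hu
    rw [lsplit_quad H symm b ev hb u, lsplit_norm b u, Finset.mul_sum, ← Finset.sum_neg_distrib]
    refine Finset.sum_le_sum (fun i _ => ?_)
    by_cases hi : ev i < 0
    · have h1 := hle i
      rw [abs_of_neg hi] at h1
      nlinarith [sq_nonneg (inner ℝ u (b i))]
    · rw [hUz u hu i (not_lt.mp hi)]
      simp
  · intro w hw
    rw [lsplit_quad H symm b ev hb w, lsplit_norm b w, Finset.mul_sum]
    refine Finset.sum_le_sum (fun i _ => ?_)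
    by_cases hi : ev i < 0
    · rw [hWz w hw i hi]
      simp
    · have h1 := hle i
      rw [abs_of_nonneg (not_lt.mp hi)] at h1
      nlinarith [sq_nonneg (inner ℝ w (b i))]

/-- the negative space of `-H` is the orthogonal complement -/
theorem split_neg {H : V →L[ℝ] V} {U : Submodule ℝ V} {lam : ℝ} (h : Split H U lam) : Split (-H) Uᗮ lam := by
  have hUU : Uᗮᗮ = U := Submodule.orthogonal_orthogonal U
  refine ⟨h.pos, ?_, ?_, ?_, ?_⟩
  · intro u hu
    rw [ContinuousLinearMap.neg_apply]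
    exact Submodule.neg_mem _ (h.inv' u hu)
  · intro w hw
    rw [hUU] at hw ⊢
    rw [ContinuousLinearMap.neg_apply]
    exact Submodule.neg_mem _ (h.inv w hw)
  · intro u hu
    rw [ContinuousLinearMap.neg_apply, inner_neg_left]
    have := h.psd u hu
    linarith
  · intro w hw
    rw [hUU] at hw
    rw [ContinuousLinearMap.neg_apply, inner_neg_left]
    have := h.neg w hw
    linarith

end

end Pool.Agent.E8N.LSplit
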