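import Pool.Agent.E8N.AChart
import Pool.Agent.E8N.LConn

/-!
# E8N (2.5): a pass has index one and touches exactly two components
-/

set_option autoImplicit false

open Metric Set Filter Topology

namespace Pool.Agent.E8N.LTouch

noncomputable section

variable {E : Type*} [NormedAddCommGroup E] [InnerProductSpace ℝ E] [FiniteDimensional ℝ E]
variable {K : Set E} {ρ R : ℝ}

open ZProj ZSurf ZGm AFib ALin AExp AChi APsi AQ AChart LSplit LPath LConn Asymptotics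

theorem lt_psi0 {p s : E} {δ : ℝ} {psi : Tg K s → ℝ} {H : Tg K s →L[ℝ] Tg K s}
    (hC : Chart K p s δ psi H) : psi 0 = 0 := by
  have h := hC.bd 0 (mem_ball_self hC.pos)
  rw [norm_zero] at h
  nlinarith [h.1, h.2]

theorem lt_chi0 {p s : E} {δ : ℝ} {psi : Tg K s → ℝ} {H : Tg K s →L[ℝ] Tg K s}
    (hC : Chart K p s δ psi H) : chi K s psi 0 = s := by
  unfold chi
  rw [lt_psi0 hC]
  simp

/-- the chart gives a `QLoc` -/
theorem qloc {p s : E} {δ : ℝ} {psi : Tg K s → ℝ} {H : Tg K s →L[ℝ] Tg K s} (hs : s ∈ S K)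
    (hC : Chart K p s δ psi H) : QLoc δ (qf K p s psi) H := by
  refine ⟨hC.pos, ?_, hC.grad⟩
  unfold qf
  rw [lt_chi0 hC, sub_self]

theorem lt_cont {p s : E} {δ : ℝ} {psi : Tg K s → ℝ} {H : Tg K s →L[ℝ] Tg K s}
    (hC : Chart K p s δ psi H) : ContinuousOn (chi K s psi) (ball (0 : Tg K s) δ) := by
  have h1 : ContinuousOn (fun w : Tg K s => s + (w : E)) (ball (0 : Tg K s) δ) := by
    fun_prop
  have h2 : ContinuousOn (fun w : Tg K s => psi w • nu K s) (ball (0 : Tg K s) δ) :=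
    hC.cont.smul continuousOn_const
  exact h1.sub h2

theorem lt_comp {U A1 A2 : Set E} (h1 : IsComp U A1) (h2 : IsComp U A2) {B : Set E} (hB : IsPreconnected B)
    (hBU : B ⊆ U) {x y : E} (hx : x ∈ B) (hy : y ∈ B) (hx1 : x ∈ A1) (hy2 : y ∈ A2) : A1 = A2 := by
  obtain ⟨a, _, rfl⟩ := h1
  obtain ⟨b, _, rfl⟩ := h2
  have e1 := connectedComponentIn_eq hx1
  have e2 := connectedComponentIn_eq hy2
  have h3 : B ⊆ connectedComponentIn U x := hB.subset_connectedComponentIn hx hBU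
  have e3 := connectedComponentIn_eq (h3 hy)
  rw [e1, e2, e3]

theorem lt_sq {a b : ℝ} (hb : 0 ≤ b) (h : a ^ 2 < b ^ 2) : a < b := by
  nlinarith

/-- two points of the chart which are joined in `{q < 0}` are in the same component of `{F < F(s)}` -/
theorem same_lower (hK : Body K ρ R) {p s : E} {δ : ℝ} {psi : Tg K s → ℝ} {H : Tg K s →L[ℝ] Tg K s} (hs : s ∈ S K)
    (hC : Chart K p s δ psi H) {A : Set (Tg K s)} (hA : IsPreconnected A)
    (hA' : A ⊆ ball (0 : Tg K s) δ ∩ {z | qf K p s psi z < 0}) {A1 A2 : Set E} (h1 : IsComp (sub K p (F p s)) A1)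
    (h2 : IsComp (sub K p (F p s)) A2) {w v : Tg K s} (hw : w ∈ A) (hv : v ∈ A) (hw1 : chi K s psi w ∈ A1)
    (hv2 : chi K s psi v ∈ A2) : A1 = A2 := by
  have hB : IsPreconnected (chi K s psi '' A) :=
    hA.image _ ((lt_cont hC).mono fun z hz => (hA' hz).1)
  refine lt_comp h1 h2 hB ?_ (mem_image_of_mem _ hw) (mem_image_of_mem _ hv) hw1 hv2
  rintro _ ⟨z, hz, rfl⟩
  have h3 := hA' hz
  refine ⟨hC.mem z h3.1, ?_⟩
  have h4 : qf K p s psi z < 0 := h3.2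
  unfold qf at h4
  exact lt_sq (norm_nonneg _) (by linarith)

theorem same_upper (hK : Body K ρ R) {p s : E} {δ : ℝ} {psi : Tg K s → ℝ} {H : Tg K s →L[ℝ] Tg K s} (hs : s ∈ S K)
    (hC : Chart K p s δ psi H) {A : Set (Tg K s)} (hA : IsPreconnected A)
    (hA' : A ⊆ ball (0 : Tg K s) δ ∩ {z | - qf K p s psi z < 0}) {A1 A2 : Set E}
    (h1 : IsComp (sup K p (F p s)) A1) (h2 : IsComp (sup K p (F p s)) A2) {w v : Tg K s} (hw : w ∈ A) (hv : v ∈ A)
    (hw1 : chi K s psi w ∈ A1) (hv2 : chi K s psi v ∈ A2) : A1 = A2 := by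
  have hB : IsPreconnected (chi K s psi '' A) :=
    hA.image _ ((lt_cont hC).mono fun z hz => (hA' hz).1)
  refine lt_comp h1 h2 hB ?_ (mem_image_of_mem _ hw) (mem_image_of_mem _ hv) hw1 hv2
  rintro _ ⟨z, hz, rfl⟩
  have h3 := hA' hz
  refine ⟨hC.mem z h3.1, ?_⟩
  have h4 : - qf K p s psi z < 0 := h3.2
  unfold qf at h4
  exact lt_sq (norm_nonneg _) (by linarith)

theorem lt_close {p s : E} {δ : ℝ} {psi : Tg K s → ℝ} {H : Tg K s →L[ℝ] Tg K s}
    (hC : Chart K p s δ psi H) {A1 : Set E} (hA1 : A1 ⊆ S K) (hc : s ∈ closure A1) {η : ℝ}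
    (hη : 0 < η) : ∃ w : Tg K s, ‖w‖ < η ∧ chi K s psi w ∈ A1 := by
  obtain ⟨x, hx, hd⟩ := Metric.mem_closure_iff.mp hc (min δ η) (lt_min hC.pos hη)
  rw [dist_eq_norm, norm_sub_rev] at hd
  refine ⟨pj K s x, (pj_norm K s x).trans_lt (hd.trans_le (min_le_right _ _)), ?_⟩
  rw [hC.surj x (hA1 hx) (hd.trans_le (min_le_left _ _))]
  exact hx

/-- points of `A1` close to `s` in the chart -/
theorem close_lower {p s : E} {δ : ℝ} {psi : Tg K s → ℝ} {H : Tg K s →L[ℝ] Tg K s} (hs : s ∈ S K)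
    (hC : Chart K p s δ psi H) {A1 : Set E} (h1 : IsComp (sub K p (F p s)) A1) (hc : s ∈ closure A1) {η : ℝ}
    (hη : 0 < η) : ∃ w : Tg K s, ‖w‖ < η ∧ qf K p s psi w < 0 ∧ chi K s psi w ∈ A1 := by
  have hsub : A1 ⊆ sub K p (F p s) := by
    obtain ⟨a, _, rfl⟩ := h1
    exact connectedComponentIn_subset _ _
  obtain ⟨w, hw1, hw2⟩ := lt_close hC (fun x hx => (hsub hx).1) hc hη
  refine ⟨w, hw1, ?_, hw2⟩
  have h3 : F p (chi K s psi w) < F p s := (hsub hw2).2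
  have h4 : 0 ≤ F p (chi K s psi w) := norm_nonneg _
  unfold qf
  nlinarith

theorem close_upper {p s : E} {δ : ℝ} {psi : Tg K s → ℝ} {H : Tg K s →L[ℝ] Tg K s} (hs : s ∈ S K)
    (hC : Chart K p s δ psi H) {A1 : Set E} (h1 : IsComp (sup K p (F p s)) A1) (hc : s ∈ closure A1) {η : ℝ}
    (hη : 0 < η) : ∃ w : Tg K s, ‖w‖ < η ∧ - qf K p s psi w < 0 ∧ chi K s psi w ∈ A1 := by
  have hsub : A1 ⊆ sup K p (F p s) := by
    obtain ⟨a, _, rfl⟩ := h1
    exact connectedComponentIn_subset _ _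
  obtain ⟨w, hw1, hw2⟩ := lt_close hC (fun x hx => (hsub hx).1) hc hη
  refine ⟨w, hw1, ?_, hw2⟩
  have h3 : F p s < F p (chi K s psi w) := (hsub hw2).2
  have h4 : 0 ≤ F p s := norm_nonneg _
  unfold qf
  nlinarith

end

end Pool.Agent.E8N.LTouch
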