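import Pool.Agent.E8N.NPat

/-!
# E8N NApC

* `Ap_compact`: `Ap K = K \ {p | p ∈ interior K ∧ Two (S K) (F p)}` (`K` closed, so `K = interior K ∪ frontier K`), closed minus open
  (`notTwo_closed`), contained in the compact set `K`.
* `Ap_nonempty`: `frontier K` is nonempty: otherwise `K` is clopen and nonempty in the connected space `E`, so `K = univ`, which is not bounded
  (`E` has dimension `≥ 4`; `K ⊆ closedBall 0 R`).
* `mx_ge`: let `u` be a unit vector with `⟪u, p⟫ = -‖p‖` (`u = -‖p‖⁻¹ • p`, or any unit vector if `p = 0`). Let `x ∈ S K`, `dir p x = u` (`ray`).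
  `x = p + F • u = (F - ‖p‖) • u` (for `p = 0` also). If `F - ‖p‖ < 0`, `x` is on the segment between `0` and `p`, so in `K`, contradiction (`S_disj`).
  So `‖x‖ = F - ‖p‖`. If `‖x‖ < 1 + ρ`, there is `z ∈ closedBall 0 ρ ⊆ K` with `‖x - z‖ < 1`, contradiction with `‖x - P K x‖ = 1` being the
  distance to `K` (`P_var`). So `F p x ≥ 1 + ρ + ‖p‖`, and `F p x ≤ mx K p` (`le_mx`).
* `gap_pos`: `K` is compact, `p ↦ mx K p - mn K p` is continuous (`mx_cont`, `mn_cont`) and positive on `K`: on `interior K` by `mn_lt_mx`, on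
  `frontier K` by `mx_ge` and `pat_mn`; take the minimum (`K` nonempty).
* `Ap_near`: `IsCompact.exists_infDist_eq_dist`.
* `fr_mn`: `q ∈ frontier K` with `‖p - q‖ ≤ r`, `mn K q = 1`, `mn_cont`.
-/

set_option autoImplicit false

open Metric Set Filter Topology

namespace Pool.Agent.E8N

variable {E : Type*} [NormedAddCommGroup E] [InnerProductSpace ℝ E] [FiniteDimensional ℝ E]
variable {K : Set E} {ρ R : ℝ}

theorem Ap_compact (hK : Body K ρ R) : IsCompact (Ap K) := by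
  have hc := hK.cpt.isClosed
  have h1 : Ap K = K ∩ {p | p ∈ interior K ∧ Two (S K) (F p)}ᶜ := by
    ext p
    constructor
    · rintro (⟨h1, h2⟩ | h1)
      · exact ⟨interior_subset h1, fun h3 => h2 h3.2⟩
      · refine ⟨hc.frontier_subset h1, fun h3 => ?_⟩
        exact h1.2 h3.1
    · rintro ⟨h1, h2⟩
      by_cases h3 : p ∈ interior K
      · exact Or.inl ⟨h3, fun h4 => h2 ⟨h3, h4⟩⟩
      · exact Or.inr ⟨subset_closure h1, h3⟩
  rw [h1]
  exact hK.cpt.inter_right (notTwo_closed hK).isClosed_compl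

theorem Ap_sub (hK : Body K ρ R) : Ap K ⊆ K := by
  rintro p (⟨h1, _⟩ | h1)
  · exact interior_subset h1
  · exact hK.cpt.isClosed.frontier_subset h1

theorem fr_sub_Ap : frontier K ⊆ Ap K := fun _ h => Or.inr h

private theorem nApC_nontrivial (hd : 4 ≤ Module.finrank ℝ E) : Nontrivial E :=
  Module.nontrivial_of_finrank_pos (R := ℝ) (by omega)

theorem fr_nonempty (hK : Body K ρ R) (hd : 4 ≤ Module.finrank ℝ E) : (frontier K).Nonempty := by
  haveI := nApC_nontrivial (E := E) hd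
  rw [nonempty_frontier_iff]
  have h0 : (0 : E) ∈ K := hK.ball (mem_closedBall_self hK.hρ.le)
  refine ⟨⟨0, h0⟩, ?_⟩
  intro huniv
  obtain ⟨v, hv⟩ := exists_norm_eq E (c := |R| + 1) (by positivity)
  have h1 : v ∈ K := by rw [huniv]; exact mem_univ v
  have h2 := hK.sub h1
  rw [mem_closedBall, dist_zero_right, hv] at h2
  linarith [le_abs_self R]

theorem mx_ge (hK : Body K ρ R) (hd : 4 ≤ Module.finrank ℝ E) {p : E} (hp : p ∈ K) : 1 + ρ + ‖p‖ ≤ mx K p := by
  haveI := nApC_nontrivial (E := E) hd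
  obtain ⟨u, hu, hpu⟩ : ∃ u : E, ‖u‖ = 1 ∧ p = -(‖p‖ • u) := by
    by_cases hp0 : p = 0
    · obtain ⟨u, hu⟩ := exists_norm_eq E (c := 1) (by norm_num)
      exact ⟨u, hu, by rw [hp0]; simp⟩
    · have hn : ‖p‖ ≠ 0 := norm_ne_zero_iff.mpr hp0
      refine ⟨-(‖p‖⁻¹ • p), ?_, ?_⟩
      · rw [norm_neg, norm_smul, norm_inv, norm_norm, inv_mul_cancel₀ hn]
      · rw [smul_neg, neg_neg, smul_smul, mul_inv_cancel₀ hn, one_smul]
  obtain ⟨x, ⟨hx, hdir⟩, _⟩ := ray hK hp hu
  have hF1 := one_le_F hK hx hp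
  have hF0 : F p x ≠ 0 := by intro h0; rw [h0] at hF1; linarith
  have h3 : dir p x = (F p x)⁻¹ • (x - p) := rfl
  have h4 : x - p = F p x • u := by
    rw [← hdir, h3, smul_smul, mul_inv_cancel₀ hF0, one_smul]
  have h5 : x = (F p x - ‖p‖) • u := by
    have e1 : F p x • u + -(‖p‖ • u) = (x - p) + p := by rw [← h4, ← hpu]
    have e2 : (x - p) + p = x := sub_add_cancel x p
    rw [sub_smul, sub_eq_add_neg, e1, e2]
  have h0K : (0 : E) ∈ K := hK.ball (mem_closedBall_self hK.hρ.le)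
  have h6 : 0 ≤ F p x - ‖p‖ := by
    by_contra hneg
    push Not at hneg
    -- x = a • p with a in [0,1]
    have hp1 : 0 < ‖p‖ := by linarith
    have h7 : x = ((‖p‖ - F p x) / ‖p‖) • p := by
      have e1 : ((‖p‖ - F p x) / ‖p‖) • p = ((‖p‖ - F p x) / ‖p‖) • (-(‖p‖ • u)) :=
        congrArg (fun z => ((‖p‖ - F p x) / ‖p‖) • z) hpu
      rw [e1, smul_neg, smul_smul, div_mul_cancel₀ _ hp1.ne', ← neg_smul, neg_sub]
      exact h5
    have h8 : x ∈ K := by
      rw [h7]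
      have h9 : 0 ≤ (‖p‖ - F p x) / ‖p‖ := div_nonneg (by linarith) hp1.le
      have h10 : (‖p‖ - F p x) / ‖p‖ ≤ 1 := (div_le_one hp1).mpr (by linarith)
      have h11 := hK.conv h0K hp (show (0 : ℝ) ≤ 1 - (‖p‖ - F p x) / ‖p‖ by linarith) h9 (by ring)
      rwa [smul_zero, zero_add] at h11
    exact S_disj hK hx h8
  have h7 : ‖x‖ = F p x - ‖p‖ := by
    rw [h5, norm_smul, hu, mul_one, Real.norm_eq_abs, abs_of_nonneg h6]
    rw [← h5]
  have h8 : 1 + ρ ≤ ‖x‖ := by
    -- use the point ρ • u in K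
    have hz : ρ • u ∈ K := by
      apply hK.ball
      rw [mem_closedBall, dist_zero_right, norm_smul, hu, mul_one, Real.norm_eq_abs,
        abs_of_pos hK.hρ]
    have hv := P_var hK x hz
    have hn1 : ‖x - P K x‖ = 1 := hx
    have h9 : ‖x - ρ • u‖ = |‖x‖ - ρ| := by
      have : x - ρ • u = (‖x‖ - ρ) • u := by
        rw [sub_smul, h7, ← h5]
      rw [this, norm_smul, hu, mul_one, Real.norm_eq_abs]
    have h10 : 1 ≤ ‖x - ρ • u‖ := by
      -- ‖x - z‖^2 = ‖x - Px‖^2 - 2 <x - Px, z - Px> + ‖z - Px‖^2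
      have e1 : x - ρ • u = (x - P K x) - (ρ • u - P K x) := by abel
      have e2 : ‖x - ρ • u‖ ^ 2 = ‖x - P K x‖ ^ 2 - 2 * inner ℝ (x - P K x) (ρ • u - P K x) +
          ‖ρ • u - P K x‖ ^ 2 := by
        rw [e1]; exact norm_sub_sq_real _ _
      rw [hn1] at e2
      have e3 : 1 ≤ ‖x - ρ • u‖ ^ 2 := by
        rw [e2]
        nlinarith [sq_nonneg ‖ρ • u - P K x‖]
      nlinarith [norm_nonneg (x - ρ • u)]
    rw [h9] at h10
    rcases le_abs.mp h10 with h11 | h11
    · linarith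
    · exfalso
      have h12 : x ∈ K := by
        apply hK.ball
        rw [mem_closedBall, dist_zero_right]
        linarith
      exact S_disj hK hx h12
  have h9 := le_mx hK (p := p) hx
  linarith

theorem gap_pos (hK : Body K ρ R) (h7 : AtMost7 K) (hd : 4 ≤ Module.finrank ℝ E) :
    ∃ β > 0, ∀ p ∈ K, β ≤ mx K p - mn K p := by
  have hne : K.Nonempty := ⟨0, hK.ball (mem_closedBall_self hK.hρ.le)⟩
  have hmx : Continuous (mx K) :=
    (LipschitzWith.of_dist_le_mul (K := 1) (fun p q => by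
      rw [Real.dist_eq, dist_eq_norm, NNReal.coe_one, one_mul]; exact mx_cont hK p q)).continuous
  have hmn : Continuous (mn K) :=
    (LipschitzWith.of_dist_le_mul (K := 1) (fun p q => by
      rw [Real.dist_eq, dist_eq_norm, NNReal.coe_one, one_mul]; exact mn_cont hK p q)).continuous
  obtain ⟨p₀, hp₀, hmin⟩ := hK.cpt.exists_isMinOn hne (hmx.sub hmn).continuousOn
  refine ⟨mx K p₀ - mn K p₀, ?_, fun p hp => hmin hp⟩
  by_cases h : p₀ ∈ interior K
  · have := mn_lt_mx hK h7 hd h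
    linarith
  · have hf : p₀ ∈ frontier K := ⟨subset_closure hp₀, h⟩
    have h1 := pat_mn hK hd hf
    have h2 := mx_ge hK hd hp₀
    have h3 := norm_nonneg p₀
    have h4 := hK.hρ
    rw [h1]
    linarith

private theorem nApC_near {A : Set E} (hA : IsCompact A) (hne : A.Nonempty) {p : E} {r : ℝ}
    (h : infDist p A ≤ r) : ∃ q ∈ A, ‖p - q‖ ≤ r := by
  obtain ⟨q, hq, hq'⟩ := hA.exists_infDist_eq_dist hne p
  refine ⟨q, hq, ?_⟩
  rw [← dist_eq_norm, ← hq']
  exact h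

theorem Ap_near (hK : Body K ρ R) (hd : 4 ≤ Module.finrank ℝ E) {p : E} {r : ℝ} (h : infDist p (Ap K) ≤ r) :
    ∃ q ∈ Ap K, ‖p - q‖ ≤ r :=
  nApC_near (Ap_compact hK) ((fr_nonempty hK hd).mono fr_sub_Ap) h

theorem fr_near (hK : Body K ρ R) (hd : 4 ≤ Module.finrank ℝ E) {p : E} {r : ℝ} (h : infDist p (frontier K) ≤ r) :
    ∃ q ∈ frontier K, ‖p - q‖ ≤ r :=
  nApC_near (hK.cpt.of_isClosed_subset isClosed_frontier hK.cpt.isClosed.frontier_subset)
    (fr_nonempty hK hd) h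

theorem fr_mn (hK : Body K ρ R) (hd : 4 ≤ Module.finrank ℝ E) {p : E} {r : ℝ} (h : infDist p (frontier K) ≤ r) :
    mn K p ≤ 1 + r := by
  obtain ⟨q, hq, hqr⟩ := fr_near hK hd h
  have h1 := (abs_le.mp (mn_cont hK p q)).2
  rw [pat_mn hK hd hq] at h1
  linarith

end Pool.Agent.E8N
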