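import Pool.Agent.E8N.Defs2

/-!
# E8N NTopo

General topology of components (no geometry). `IsComp U A` means `A = connectedComponentIn U x` for some `x ∈ U`.
* `comp_sub`: `connectedComponentIn_subset`.
* `comp_preconn`: `isPreconnected_connectedComponentIn`.
* `comp_absorb`: `C` is preconnected, contained in `U` and contains a point `z` of `A = connectedComponentIn U x`; then
  `connectedComponentIn U z = connectedComponentIn U x` (`connectedComponentIn_eq`) and `C ⊆ connectedComponentIn U z`
  (`IsPreconnected.subset_connectedComponentIn`).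
* `comp_closed`: `A ∪ {z}` is preconnected (`IsPreconnected.subset_closure`, as `A ⊆ A ∪ {z} ⊆ closure A`), contained in `U`, and
  meets `A`; apply `comp_absorb`.
* `comp_disj`: different components are disjoint (`comp_absorb` twice).
-/

set_option autoImplicit false

open Metric Set Filter Topology

namespace Pool.Agent.E8N

variable {E : Type*} [NormedAddCommGroup E] [InnerProductSpace ℝ E] [FiniteDimensional ℝ E]
variable {K : Set E} {ρ R : ℝ}

theorem comp_sub {α : Type*} [TopologicalSpace α] {U A : Set α} (hA : IsComp U A) : A ⊆ U := by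
  obtain ⟨x, _, rfl⟩ := hA
  exact connectedComponentIn_subset U x

theorem comp_preconn {α : Type*} [TopologicalSpace α] {U A : Set α} (hA : IsComp U A) : IsPreconnected A := by
  obtain ⟨x, _, rfl⟩ := hA
  exact isPreconnected_connectedComponentIn

theorem comp_nonempty {α : Type*} [TopologicalSpace α] {U A : Set α} (hA : IsComp U A) : A.Nonempty := by
  obtain ⟨x, hx, rfl⟩ := hA
  exact ⟨x, mem_connectedComponentIn hx⟩

theorem comp_absorb {α : Type*} [TopologicalSpace α] {U A C : Set α} (hA : IsComp U A) (hC : IsPreconnected C)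
    (hCU : C ⊆ U) (h : (C ∩ A).Nonempty) : C ⊆ A := by
  obtain ⟨x, _, rfl⟩ := hA
  obtain ⟨z, hzC, hzA⟩ := h
  rw [connectedComponentIn_eq hzA]
  exact hC.subset_connectedComponentIn hzC hCU

theorem comp_closed {α : Type*} [TopologicalSpace α] {U A : Set α} (hA : IsComp U A) {z : α} (hz : z ∈ closure A)
    (hzU : z ∈ U) : z ∈ A := by
  have h1 : IsPreconnected (A ∪ {z}) :=
    (comp_preconn hA).subset_closure subset_union_left
      (union_subset subset_closure (singleton_subset_iff.2 hz))
  obtain ⟨x, hx⟩ := comp_nonempty hA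
  exact comp_absorb hA h1 (union_subset (comp_sub hA) (singleton_subset_iff.2 hzU))
    ⟨x, Or.inl hx, hx⟩ (Or.inr rfl)

theorem comp_disj {α : Type*} [TopologicalSpace α] {U A A' : Set α} (hA : IsComp U A) (hA' : IsComp U A')
    (hne : A ≠ A') : Disjoint A A' := by
  rw [Set.disjoint_left]
  intro x hx hx'
  exact hne (Subset.antisymm (comp_absorb hA' (comp_preconn hA) (comp_sub hA) ⟨x, hx, hx'⟩)
    (comp_absorb hA (comp_preconn hA') (comp_sub hA') ⟨x, hx', hx⟩))

end Pool.Agent.E8N
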