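import Pool.Agent.E8N.NMono
import Pool.Agent.E8N.NTopo

/-!
# E8N NArc

Main argument of (4.2). Write `c = cl K p`, `d = dl K p`, `rad ψ = F p (z ψ)`, `mn = mn K p`.
`z 0 = m` (`dir_inj`), `rad 0 = mn ≤ d` (`mid_facts`), and `c > F p x ≥ mn + t ≥ 1 + t` (`mid_facts`, `mn ≥ 1` by `one_le_F`).
For `0 ≤ φ < φ' ≤ φ₁`: `cos φ' ≥ cos φ₁ > 0`, so `(mn - 1)/cos φ' ≤ t/2`; so by `mono`: if `rad φ > 1 + t/2` then `rad φ ≤ rad φ'`.
Let `Z = {ψ ∈ [0,φ₁] | rad ψ ≤ d}`: compact (`rad` continuous on `Icc 0 φ₁`), contains `0`; let `ψ* = max Z` (`IsCompact.exists_isGreatest`). `ψ* < φ₁`, since `z φ₁ ∈ Bl` has `rad φ₁ > d`. For `ψ ∈ (ψ*, φ₁]`: `rad ψ > d`, so by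
continuity `rad ψ* = d`. The set `z '' Ioc ψ* φ₁` is preconnected, contained in `sup K p d`, and contains `z φ₁ ∈ Bl`, so it is contained in `Bl` (`comp_absorb`); hence `z ψ* ∈ closure Bl`.
For `ψ ∈ [0, ψ*]`: `rad ψ ≤ max d (1 + t/2)` (by `mono` towards `ψ*` if `ψ < ψ*`). As `1 + t/2 < c` and `d ≤ c`: `rad ψ ≤ c`, and `rad ψ < c` if `d < c`.
Case `d < c`: `z '' Icc 0 ψ*` is preconnected, in `sub K p c`, contains `m ∈ Al`: so `z ψ* ∈ Al ⊆ closure Al`. By `h.ll`: `F p (z ψ*) = c`, but it is `d < c`. Contradiction.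
Case `d = c`: `ψ* > 0` (since `rad 0 = mn < c`). The sets `Q₁ = {ψ ∈ [0,ψ*] | z ψ ∈ closure Al}`, `Q₂ = {ψ ∈ [0,ψ*] | z ψ ∈ closure Am}` are closed and cover `[0,ψ*]` (for `ψ > 0`, `z ψ ∉ Crit`, use
`mem_closure_sub` and `h.cA`, `closure_union`; `z 0 = m ∈ Al`). They are disjoint: for `ψ > 0` `closure_inter` (components `Al ≠ Am` of `sub K p c`) would give `z ψ ∈ Crit K p`; for `ψ = 0` it
would give `F p m = c > mn`. `[0,ψ*]` is preconnected and `0 ∈ Q₁`, so `Q₁ = [0,ψ*]` (`isPreconnected_closed_iff` / `IsPreconnected.subset_or_subset_of_closed`...). So `z ψ* ∈ closure Al ∩ closure Bl`; by `h.ll` `z ψ* ∈ Crit K p`,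
contradiction to `hcr`.
-/

set_option autoImplicit false

open Metric Set Filter Topology

namespace Pool.Agent.E8N

variable {E : Type*} [NormedAddCommGroup E] [InnerProductSpace ℝ E] [FiniteDimensional ℝ E]
variable {K : Set E} {ρ R : ℝ}

theorem arc (hK : Body K ρ R) (h7 : AtMost7 K) (hd : 4 ≤ Module.finrank ℝ E) {p : E} (hp : p ∈ Om K)
    (hcd : dl K p ≤ cl K p) {Al Am Bl Bm : Set E} {x y : E} (h : Mid K p Al Am Bl Bm x y) {m w : E}
    (hm : m ∈ Lo K 0 p) (hmA : m ∈ Al) {t φ₁ : ℝ} (ht0 : 0 < t) (ht : mn K p + t ≤ F p x) (hφ : 0 < φ₁)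
    (hφ' : φ₁ < Real.pi / 2) (hcos : mn K p - 1 ≤ t / 2 * Real.cos φ₁) (hw : ‖w‖ = 1)
    (hmw : inner ℝ (dir p m) w = 0) {z : ℝ → E}
    (hz : ∀ ψ ∈ Icc 0 φ₁, z ψ ∈ S K ∧ dir p (z ψ) = Real.cos ψ • dir p m + Real.sin ψ • w)
    (hzc : ContinuousOn z (Icc 0 φ₁)) (hcr : ∀ ψ ∈ Ioc 0 φ₁, z ψ ∉ Crit K p) (hB : z φ₁ ∈ Bl) : False := by
  have hpi : p ∈ interior K := hp.1
  have hpK : p ∈ K := interior_subset hpi
  obtain ⟨-, -, hxc, -, -, hmnd, -, -⟩ := mid_facts hK h7 hd hp hcd h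
  have hmS : m ∈ S K := hm.1
  have hmF : F p m = mn K p := le_antisymm (by have := hm.2; linarith) (mn_le hK hmS)
  have hmn1 : 1 ≤ mn K p := by rw [← hmF]; exact one_le_F hK hmS hpK
  have hz0 : z 0 = m := by
    have h0 := hz 0 ⟨le_refl _, hφ.le⟩
    apply dir_inj hK hpK h0.1 hmS
    rw [h0.2, Real.cos_zero, Real.sin_zero, one_smul, zero_smul, add_zero]
  have hcosφ₁ : 0 < Real.cos φ₁ := Real.cos_pos_of_mem_Ioo ⟨by linarith [Real.pi_pos], hφ'⟩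
  have hradc : ContinuousOn (fun ψ => F p (z ψ)) (Icc 0 φ₁) := by
    show ContinuousOn (fun ψ => ‖z ψ - p‖) (Icc 0 φ₁)
    exact (hzc.sub continuousOn_const).norm
  -- monotonicity
  have hmono : ∀ φ φ', 0 ≤ φ → φ < φ' → φ' ≤ φ₁ → 1 + t / 2 < F p (z φ) → F p (z φ) ≤ F p (z φ') := by
    intro φ φ' h0 h1 h2 h3
    have hsub : Icc φ φ' ⊆ Icc 0 φ₁ := Icc_subset_Icc h0 h2
    have hcc : Real.cos φ₁ ≤ Real.cos φ' :=
      Real.cos_le_cos_of_nonneg_of_le_pi (h0.trans h1.le) (by linarith [Real.pi_pos]) h2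
    have hcφ' : 0 < Real.cos φ' := lt_of_lt_of_le hcosφ₁ hcc
    have h4 : (mn K p - 1) / Real.cos φ' ≤ t / 2 := by
      rw [div_le_iff₀ hcφ']
      have : t / 2 * Real.cos φ₁ ≤ t / 2 * Real.cos φ' := mul_le_mul_of_nonneg_left hcc (by linarith)
      linarith
    exact mono hK hpK hm hw hmw h0 h1 (lt_of_le_of_lt h2 hφ') (fun ψ hψ => hz ψ (hsub hψ)) (hzc.mono hsub)
      (by linarith)
  -- the set Z and its greatest element
  have hZc : IsCompact (Icc 0 φ₁ ∩ {ψ | F p (z ψ) ≤ dl K p}) := by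
    have h1 : IsClosed (Icc 0 φ₁ ∩ {ψ | F p (z ψ) ≤ dl K p}) :=
      hradc.preimage_isClosed_of_isClosed isClosed_Icc (isClosed_Iic (a := dl K p))
    exact isCompact_Icc.of_isClosed_subset h1 inter_subset_left
  have hZn : (Icc 0 φ₁ ∩ {ψ | F p (z ψ) ≤ dl K p}).Nonempty := by
    refine ⟨0, ⟨le_refl _, hφ.le⟩, ?_⟩
    show F p (z 0) ≤ dl K p
    rw [hz0, hmF]; exact hmnd
  obtain ⟨s, ⟨hsI, hsd⟩, hsmax⟩ := hZc.exists_isGreatest hZn
  have hsd' : F p (z s) ≤ dl K p := hsd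
  have hgt : ∀ ψ, s < ψ → ψ ≤ φ₁ → dl K p < F p (z ψ) := by
    intro ψ h1 h2
    by_contra h3
    push Not at h3
    have := hsmax ⟨⟨hsI.1.trans h1.le, h2⟩, h3⟩
    linarith
  have hBlS : Bl ⊆ sup K p (dl K p) := comp_sub h.hBl
  have hsφ : s < φ₁ := by
    rcases lt_or_eq_of_le hsI.2 with h1 | h1
    · exact h1
    · exfalso
      have h2 := (hBlS hB).2
      rw [← h1] at h2
      linarith
  -- closure point
  have hcls : s ∈ closure (Ioc s φ₁) := by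
    rw [closure_Ioc hsφ.ne]; exact ⟨le_refl _, hsφ.le⟩
  have hsubI : Ioc s φ₁ ⊆ Icc 0 φ₁ := fun ψ hψ => ⟨hsI.1.trans hψ.1.le, hψ.2⟩
  have hzB : z s ∈ closure Bl := by
    have h1 : z '' Ioc s φ₁ ⊆ Bl := by
      apply comp_absorb h.hBl (isPreconnected_Ioc.image z (hzc.mono hsubI))
      · rintro _ ⟨ψ, hψ, rfl⟩
        exact ⟨(hz ψ (hsubI hψ)).1, hgt ψ hψ.1 hψ.2⟩
      · exact ⟨z φ₁, ⟨φ₁, ⟨hsφ, le_refl _⟩, rfl⟩, hB⟩
    have h2 : ContinuousWithinAt z (Ioc s φ₁) s := (hzc s hsI).mono hsubI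
    exact closure_mono h1 (h2.mem_closure_image hcls)
  have hrs : F p (z s) = dl K p := by
    apply le_antisymm hsd'
    have h2 : ContinuousWithinAt (fun ψ => F p (z ψ)) (Ioc s φ₁) s := (hradc s hsI).mono hsubI
    have h3 := h2.mem_closure_image hcls
    have h4 : (fun ψ => F p (z ψ)) '' Ioc s φ₁ ⊆ Ici (dl K p) := by
      rintro _ ⟨ψ, hψ, rfl⟩
      exact (hgt ψ hψ.1 hψ.2).le
    exact isClosed_Ici.closure_subset_iff.2 h4 h3
  have hle : ∀ ψ ∈ Icc 0 s, F p (z ψ) ≤ dl K p ∨ F p (z ψ) ≤ 1 + t / 2 := by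
    intro ψ hψ
    rcases eq_or_lt_of_le hψ.2 with h1 | h1
    · left; rw [h1]; exact hsd'
    · by_contra h2
      push Not at h2
      have := hmono ψ s hψ.1 h1 hsI.2 h2.2
      linarith [h2.1]
  have hc1 : 1 + t / 2 < cl K p := by linarith
  have hmnc : mn K p < cl K p := by linarith
  have hsubs : Icc 0 s ⊆ Icc 0 φ₁ := Icc_subset_Icc_right hsI.2
  have himg : IsPreconnected (z '' Icc 0 s) := isPreconnected_Icc.image z (hzc.mono hsubs)
  rcases lt_or_eq_of_le hcd with hlt | heq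
  · -- d < c
    have h1 : z '' Icc 0 s ⊆ Al := by
      apply comp_absorb h.hAl himg
      · rintro _ ⟨ψ, hψ, rfl⟩
        refine ⟨(hz ψ (hsubs hψ)).1, ?_⟩
        rcases hle ψ hψ with h2 | h2
        · exact lt_of_le_of_lt h2 hlt
        · exact lt_of_le_of_lt h2 hc1
      · exact ⟨m, ⟨0, ⟨le_refl _, hsI.1⟩, hz0⟩, hmA⟩
    have h2 : z s ∈ Al := h1 ⟨s, ⟨hsI.1, le_refl _⟩, rfl⟩
    have h3 := (h.ll (z s) (subset_closure h2) hzB).2.1
    linarith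
  · -- d = c
    have hs0 : 0 < s := by
      rcases eq_or_lt_of_le hsI.1 with h1 | h1
      · exfalso
        rw [← h1, hz0, hmF] at hrs
        linarith
      · exact h1
    have hcrs : z s ∉ Crit K p := hcr s ⟨hs0, hsI.2⟩
    have hmno : m ∉ closure Am := by
      intro h1
      have := (closure_inter hK hd hpK h.hAl h.hAm h.hA (subset_closure hmA) h1).2
      linarith
    have hcov : z '' Icc 0 s ⊆ closure Al ∪ closure Am := by
      rintro _ ⟨ψ, hψ, rfl⟩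
      rcases eq_or_lt_of_le hψ.1 with h1 | h1
      · left
        rw [← h1, hz0]; exact subset_closure hmA
      · have h2 : F p (z ψ) ≤ cl K p := by
          rcases hle ψ hψ with h2 | h2
          · exact h2.trans hcd
          · exact h2.trans hc1.le
        have h3 := mem_closure_sub hK hpK (hz ψ (hsubs hψ)).1 h2 (hcr ψ ⟨h1, (hsubs hψ).2⟩)
        rw [h.cA, closure_union] at h3
        exact h3
    have hdis : z '' Icc 0 s ∩ (closure Al ∩ closure Am) = ∅ := by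
      rw [eq_empty_iff_forall_notMem]
      rintro _ ⟨⟨ψ, hψ, rfl⟩, h1, h2⟩
      rcases eq_or_lt_of_le hψ.1 with h3 | h3
      · rw [← h3, hz0] at h2; exact hmno h2
      · exact hcr ψ ⟨h3, (hsubs hψ).2⟩ (closure_inter hK hd hpK h.hAl h.hAm h.hA h1 h2).1
    rcases isPreconnected_iff_subset_of_disjoint_closed.1 himg _ _ isClosed_closure isClosed_closure hcov hdis with h1 | h1
    · have h2 : z s ∈ closure Al := h1 ⟨s, ⟨hsI.1, le_refl _⟩, rfl⟩
      exact hcrs (h.ll (z s) h2 hzB).1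
    · exact hmno (h1 ⟨0, ⟨le_refl _, hsI.1⟩, hz0⟩)

end Pool.Agent.E8N
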