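import Pool.Agent.E8N.NSets

/-!
# E8N NB2

The middle maximum near `B1`. Suppose not: `p_k ∈ Om K`, `dl ≤ cl`, `q_k ∈ B1`, `‖p_k - q_k‖ ≤ 3/(k+1)`, `MidXY K p_k x_k y_k`, `y'_k ∈ Hi K 0 q_k`, `‖y_k - y'_k‖ > e`. Subsequence: `q_k → p₀ ∈ B1` (`B1_compact`), `p_k → p₀`. `p₀ ∈ interior K`, `Two (S K) (F p₀)` (`not_Ap`),
no separated pair of maxima; `Hi K 0 p₀ = {M}` (`argmax_unique`). `shr`: `y_k → M`. After a further subsequence `y'_k → y'₀ ∈ Hi K 0 p₀` (`Hi_lim`), so `y'₀ = M`. Then `‖y_k - y'_k‖ → 0`, contradiction.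
-/

set_option autoImplicit false

open Metric Set Filter Topology

namespace Pool.Agent.E8N

variable {E : Type*} [NormedAddCommGroup E] [InnerProductSpace ℝ E] [FiniteDimensional ℝ E]
variable {K : Set E} {ρ R : ℝ}

theorem nb2 (hK : Body K ρ R) (h7 : AtMost7 K) (hd : 4 ≤ Module.finrank ℝ E) {r e : ℝ} (hr : 0 < r) (he : 0 < e) :
    ∃ r₂ > 0, ∀ p ∈ Om K, dl K p ≤ cl K p → ∀ q ∈ B1 K r, ‖p - q‖ ≤ 3 * r₂ → ∀ x y, MidXY K p x y →
      ∀ y' ∈ Hi K 0 q, ‖y - y'‖ ≤ e := by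
  by_contra hcon
  push Not at hcon
  have hk : ∀ k : ℕ, ∃ p ∈ Om K, dl K p ≤ cl K p ∧ ∃ q ∈ B1 K r, ‖p - q‖ ≤ 3 * (1 / ((k : ℝ) + 1)) ∧
      ∃ x y, MidXY K p x y ∧ ∃ y' ∈ Hi K 0 q, e < ‖y - y'‖ := by
    intro k
    exact hcon _ Nat.one_div_pos_of_nat
  choose p hp hcd q hq hpq x y hxy y' hy' hlt using hk
  obtain ⟨p₀, hp₀, φ, hφ, hlim⟩ := (B1_compact hK hr).tendsto_subseq hq
  have hint : p₀ ∈ interior K := by
    rw [mem_interior]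
    exact ⟨ball p₀ (r / 2), ball_subset_closedBall.trans hp₀.1, isOpen_ball, mem_ball_self (by linarith)⟩
  have hη : Tendsto (fun k : ℕ => 3 * (1 / (((k : ℕ) : ℝ) + 1))) atTop (𝓝 0) := by
    have := (tendsto_one_div_add_atTop_nhds_zero_nat (𝕜 := ℝ)).const_mul 3
    rwa [mul_zero] at this
  have hpq0 : Tendsto (fun k => p k - q k) atTop (𝓝 0) := squeeze_zero_norm hpq hη
  have hlimp : Tendsto (p ∘ φ) atTop (𝓝 p₀) := by
    have := (hpq0.comp hφ.tendsto_atTop).add hlim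
    rw [zero_add] at this
    refine this.congr fun k => ?_
    simp
  obtain ⟨M, hM⟩ := argmax_unique hK h7 hd hint hp₀.2.2
  choose Al Am Bl Bm hmid using hxy
  have hyM : Tendsto (y ∘ φ) atTop (𝓝 M) :=
    shr hK h7 hd (p := p ∘ φ) (Al := Al ∘ φ) (Am := Am ∘ φ) (Bl := Bl ∘ φ) (Bm := Bm ∘ φ) (x := x ∘ φ) (y := y ∘ φ)
      (fun k => hp (φ k)) (fun k => hcd (φ k)) hint hlimp (fun k => hmid (φ k)) (not_Ap hK hr hint hp₀.2.1) hp₀.2.2 hM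
  have hyS : ∀ k, y' (φ k) ∈ S K := fun k => (hy' (φ k)).1
  obtain ⟨y₀, hy₀, ψ, hψ, hlimy⟩ := (S_compact hK).tendsto_subseq hyS
  have hyy : y₀ ∈ Hi K 0 p₀ := Hi_lim hK (p := fun k => q (φ (ψ k))) (x := fun k => y' (φ (ψ k))) (s := fun _ => 0)
    (hlim.comp hψ.tendsto_atTop) hlimy tendsto_const_nhds (fun k => hy' _)
  rw [hM, mem_singleton_iff] at hyy
  rw [hyy] at hlimy
  have hdiff : Tendsto (fun k => ‖y (φ (ψ k)) - y' (φ (ψ k))‖) atTop (𝓝 0) := by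
    have := ((hyM.comp hψ.tendsto_atTop).sub hlimy).norm
    rwa [sub_self, norm_zero] at this
  have hge : e ≤ 0 := ge_of_tendsto hdiff (Filter.Eventually.of_forall fun k => (hlt (φ (ψ k))).le)
  linarith

end Pool.Agent.E8N
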