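import Pool.Agent.E8N.NSets

/-!
# E8N NB3

The merging level is below the maximum near `B1`. Suppose not: `p_k ∈ Om K`, `q_k ∈ B1`, `‖p_k - q_k‖ ≤ 3/(k+1)`, `cl K p_k > mx K p_k - 1/(k+1)`. Subsequence `q_k → p₀ ∈ B1`, `p_k → p₀`. `Two (S K) (F p₀)` (`not_Ap`): `x, y ∈ S K` with
`Sepd (S K) (F p₀) x y`; let `Hi K 0 p₀ = {M}` (`argmax_unique`). `pass (S K) (F p₀) x y ≤ mx K p₀` (`pass_le` with `C = S K`, `S_preconn`, `le_mx`), so `F p₀ x, F p₀ y < mx K p₀` and `x ≠ M`, `y ≠ M` (`F p₀ M = mx K p₀`). So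
`c₀ := pass (S K) (F p₀) x y < mx K p₀` (`pass_lt_max`). By `pass_lip` `pass (S K) (F p_k) x y → c₀`, and `F p_k x → F p₀ x < c₀` etc., so for large `k` the pair is separated for `F p_k`, and `cl K p_k = pass (S K) (F p_k) x y` (`cl_eq`) `→ c₀ < mx K p₀ = lim mx K p_k`.
Contradiction to `cl K p_k > mx K p_k - 1/(k+1)`.
-/

set_option autoImplicit false

open Metric Set Filter Topology

namespace Pool.Agent.E8N

variable {E : Type*} [NormedAddCommGroup E] [InnerProductSpace ℝ E] [FiniteDimensional ℝ E]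
variable {K : Set E} {ρ R : ℝ}

theorem NB3_inv {φ : ℕ → ℕ} (hφ : StrictMono φ) (c : ℝ) :
    Tendsto (fun k => c * (1 / ((φ k : ℝ) + 1))) atTop (𝓝 0) := by
  have h := (tendsto_one_div_add_atTop_nhds_zero_nat (𝕜 := ℝ)).comp hφ.tendsto_atTop
  have h2 := h.const_mul c
  rw [mul_zero] at h2
  exact h2

theorem NB3_near {u v : ℕ → E} {u₀ : E} {d : ℕ → ℝ} (hu : Tendsto u atTop (𝓝 u₀)) (hd : Tendsto d atTop (𝓝 0))
    (h : ∀ k, ‖u k - v k‖ ≤ d k) : Tendsto v atTop (𝓝 u₀) := by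
  have h1 : Tendsto (fun k => ‖u k - v k‖) atTop (𝓝 0) := squeeze_zero (fun k => norm_nonneg _) h hd
  have h2 : Tendsto (fun k => u k - v k) atTop (𝓝 0) := tendsto_zero_iff_norm_tendsto_zero.mpr h1
  have h3 := hu.sub h2
  simp only [sub_sub_cancel, sub_zero] at h3
  exact h3

theorem nb3 (hK : Body K ρ R) (h7 : AtMost7 K) (hd : 4 ≤ Module.finrank ℝ E) {r : ℝ} (hr : 0 < r) :
    ∃ κ > 0, ∃ r₂ > 0, ∀ p ∈ Om K, ∀ q ∈ B1 K r, ‖p - q‖ ≤ 3 * r₂ → cl K p ≤ mx K p - κ := by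
  by_contra hcon
  push Not at hcon
  have h1 : ∀ k : ℕ, ∃ p q : E, p ∈ Om K ∧ q ∈ B1 K r ∧ ‖q - p‖ ≤ 3 * (1 / ((k : ℝ) + 1)) ∧
      mx K p - 1 / ((k : ℝ) + 1) < cl K p := by
    intro k
    obtain ⟨p, hp, q, hq, hpq, hlt⟩ := hcon (1 / ((k : ℝ) + 1)) (by positivity) (1 / ((k : ℝ) + 1)) (by positivity)
    refine ⟨p, q, hp, hq, ?_, hlt⟩
    rw [norm_sub_rev]
    exact hpq
  choose p q hp hq hpq hlt using h1
  obtain ⟨p₀, hp₀, φ, hφ, l1⟩ := (B1_compact hK hr).tendsto_subseq hq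
  have l2 : Tendsto (fun k => p (φ k)) atTop (𝓝 p₀) := NB3_near l1 (NB3_inv hφ 3) (fun k => hpq (φ k))
  have hint : p₀ ∈ interior K := DD_sub (half_pos hr) hp₀.1
  obtain ⟨x, hx, y, hy, hs⟩ := not_Ap hK hr hint hp₀.2.1
  obtain ⟨m, hm⟩ := argmax_unique hK h7 hd hint hp₀.2.2
  have hmH : m ∈ Hi K 0 p₀ := by rw [hm]; exact mem_singleton m
  have hmx : F p₀ m = mx K p₀ := by
    refine le_antisymm (le_mx hK hmH.1) ?_
    have := hmH.2
    linarith
  have hc : pass (S K) (F p₀) x y ≤ mx K p₀ :=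
    pass_le hK subset_rfl (S_preconn hK hd) hx hy (fun z hz => le_mx hK hz)
  have hs' : max (F p₀ x) (F p₀ y) < pass (S K) (F p₀) x y := hs
  have hxc := lt_of_le_of_lt (le_max_left _ _) hs'
  have hyc := lt_of_le_of_lt (le_max_right _ _) hs'
  have hxm : x ≠ m := by
    rintro rfl
    linarith
  have hym : y ≠ m := by
    rintro rfl
    linarith
  have hlt0 : pass (S K) (F p₀) x y < mx K p₀ := pass_lt_max hK h7 hd hint hm hx hy hxm hym
  have l3 : Tendsto (fun k => pass (S K) (F (p (φ k))) x y) atTop (𝓝 (pass (S K) (F p₀) x y)) := by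
    rw [tendsto_iff_dist_tendsto_zero]
    have h2 : Tendsto (fun k => ‖p (φ k) - p₀‖) atTop (𝓝 0) := by
      have := (l2.sub_const p₀).norm
      simpa using this
    refine squeeze_zero (fun k => dist_nonneg) (fun k => ?_) h2
    rw [Real.dist_eq]
    exact pass_lip hK hd _ _ hx hy
  have l4 := mx_lim hK l2
  have l5 : Tendsto (fun k => max (F (p (φ k)) x) (F (p (φ k)) y)) atTop (𝓝 (max (F p₀ x) (F p₀ y))) :=
    (F_lim l2 tendsto_const_nhds).max (F_lim l2 tendsto_const_nhds)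
  have h2 := l5.eventually_lt l3 hs'
  have l6 : Tendsto (fun k => mx K (p (φ k)) - 1 * (1 / ((φ k : ℝ) + 1))) atTop (𝓝 (mx K p₀ - 0)) :=
    l4.sub (NB3_inv hφ 1)
  rw [sub_zero] at l6
  have h3 : mx K p₀ ≤ pass (S K) (F p₀) x y := by
    refine le_of_tendsto_of_tendsto l6 l3 ?_
    filter_upwards [h2] with k hk
    have h4 := cl_eq hK h7 hd (hp (φ k)) hx hy hk
    have h5 := hlt (φ k)
    rw [h4, one_mul]
    exact h5.le
  linarith

end Pool.Agent.E8N
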