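import Pool.Agent.E8N.NSets

set_option autoImplicit false

open Metric Set Filter Topology

namespace Pool.Agent.E8N

variable {E : Type*} [NormedAddCommGroup E] [InnerProductSpace ℝ E] [FiniteDimensional ℝ E]
variable {K : Set E} {ρ R : ℝ}

theorem nb4 (hK : Body K ρ R) (h7 : AtMost7 K) (hd : 4 ≤ Module.finrank ℝ E) {r κ : ℝ} (hr : 0 < r) (hκ : 0 < κ) :
    ∃ e > 0, ∀ p ∈ K, ∀ q ∈ B1 K r, ‖p - q‖ ≤ 3 * e → ∀ y ∈ Hi K 0 q, ∀ x ∈ S K, F p x ≤ mx K p - κ / 2 →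
      ∃ u, SepU K p u {x} y (4 * e) := by
  by_contra hcon
  push Not at hcon
  have hk : ∀ k : ℕ, ∃ p ∈ K, ∃ q ∈ B1 K r, ‖p - q‖ ≤ 3 * (1 / ((k : ℝ) + 1)) ∧
      ∃ y ∈ Hi K 0 q, ∃ x ∈ S K, F p x ≤ mx K p - κ / 2 ∧ ∀ u, ¬ SepU K p u {x} y (4 * (1 / ((k : ℝ) + 1))) := by
    intro k
    exact hcon _ Nat.one_div_pos_of_nat
  choose p hp q hq hpq y hy x hx hF hno using hk
  obtain ⟨p₀, hp₀, y₀, hy₀, φ, hφ, hlimp, hlimy⟩ := subseq2 hK hp (fun k => (hy k).1)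
  obtain ⟨x₀, hx₀, ψ, hψ, hlimx⟩ := (S_compact hK).tendsto_subseq (fun k => hx (φ k))
  have hθ : StrictMono (φ ∘ ψ) := hφ.comp hψ
  have hlimp' : Tendsto (fun k => p (φ (ψ k))) atTop (𝓝 p₀) := hlimp.comp hψ.tendsto_atTop
  have hlimy' : Tendsto (fun k => y (φ (ψ k))) atTop (𝓝 y₀) := hlimy.comp hψ.tendsto_atTop
  have hη : Tendsto (fun k : ℕ => 1 / (((φ (ψ k) : ℕ) : ℝ) + 1)) atTop (𝓝 0) :=
    (tendsto_one_div_add_atTop_nhds_zero_nat (𝕜 := ℝ)).comp hθ.tendsto_atTop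
  have hη3 : Tendsto (fun k : ℕ => 3 * (1 / (((φ (ψ k) : ℕ) : ℝ) + 1))) atTop (𝓝 0) := by
    have := hη.const_mul 3
    rwa [mul_zero] at this
  have hη4 : Tendsto (fun k : ℕ => 4 * (1 / (((φ (ψ k) : ℕ) : ℝ) + 1))) atTop (𝓝 0) := by
    have := hη.const_mul 4
    rwa [mul_zero] at this
  have hpq0 : Tendsto (fun k => p (φ (ψ k)) - q (φ (ψ k))) atTop (𝓝 0) :=
    squeeze_zero_norm (fun k => hpq (φ (ψ k))) hη3
  have hlimq : Tendsto (fun k => q (φ (ψ k))) atTop (𝓝 p₀) := by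
    have := hlimp'.sub hpq0
    rw [sub_zero] at this
    refine this.congr fun k => ?_
    abel
  have hyH : y₀ ∈ Hi K 0 p₀ := Hi_lim hK (s := fun _ => 0) hlimq hlimy' tendsto_const_nhds (fun k => hy _)
  have hFx : F p₀ x₀ ≤ mx K p₀ - κ / 2 :=
    le_of_tendsto_of_tendsto' (F_lim hlimp' hlimx) ((mx_lim hK hlimp').sub_const _) (fun k => hF _)
  have hne : x₀ ≠ y₀ := by
    rintro rfl
    have := hyH.2
    linarith
  obtain ⟨h1, h2⟩ := two_pts hK hp₀ hx₀ hy₀ hne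
  set u := dir p₀ y₀ - dir p₀ x₀ with hu
  have hdx : Tendsto (fun k => inner ℝ u (dir (p (φ (ψ k))) (x (φ (ψ k))))) atTop (𝓝 (inner ℝ u (dir p₀ x₀))) :=
    tendsto_const_nhds.inner (dir_lim hK hlimp' hlimx hp₀ hx₀)
  have hev : ∀ᶠ k in atTop, inner ℝ u (dir (p (φ (ψ k))) (x (φ (ψ k)))) < 0 := hdx.eventually_lt_const h1
  obtain ⟨n, hn⟩ := eventually_atTop.1 hev
  have hbad : ∀ k : ℕ, ∃ y' ∈ S K, ‖y' - y (φ (ψ (k + n)))‖ ≤ 4 * (1 / (((φ (ψ (k + n)) : ℕ) : ℝ) + 1)) ∧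
      inner ℝ u (dir (p (φ (ψ (k + n)))) y') ≤ 0 := by
    intro k
    by_contra hcon2
    push Not at hcon2
    refine hno (φ (ψ (k + n))) u ⟨?_, hcon2⟩
    intro z hz
    rw [mem_singleton_iff] at hz
    rw [hz]
    exact hn _ (Nat.le_add_left _ _)
  choose y' hy'S hy'n hy'u using hbad
  have hsh : Tendsto (fun k : ℕ => k + n) atTop atTop := tendsto_add_atTop_nat n
  have hy'0 : Tendsto (fun k => y' k - y (φ (ψ (k + n)))) atTop (𝓝 0) :=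
    squeeze_zero_norm hy'n (hη4.comp hsh)
  have hlimy'' : Tendsto y' atTop (𝓝 y₀) := by
    have := hy'0.add (hlimy'.comp hsh)
    rw [zero_add] at this
    refine this.congr fun k => ?_
    simp
  have hfin : Tendsto (fun k => inner ℝ u (dir (p (φ (ψ (k + n)))) (y' k))) atTop (𝓝 (inner ℝ u (dir p₀ y₀))) :=
    tendsto_const_nhds.inner (dir_lim hK (hlimp'.comp hsh) hlimy'' hp₀ hy₀)
  have hle : inner ℝ u (dir p₀ y₀) ≤ 0 := le_of_tendsto' hfin hy'u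
  linarith

end Pool.Agent.E8N
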