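import Pool.Agent.E8N.NLim

/-!
# E8N NCmpU

Compactness transfer of a separating vector from `(p₀, y₀)` to nearby `(p, y)`.
Proof. Two halves, then take the minimum of the two `η`.
(i) There is `η₁ > 0` with `⟪u, dir p x⟫ < 0` for all `p ∈ K`, `‖p - p₀‖ ≤ η₁`, `x ∈ Lo K (s + η₁) p`. Otherwise for `k : ℕ` there are `p_k ∈ K`, `x_k ∈ S K` with
`‖p_k - p₀‖ ≤ 1/(k+1)`, `x_k ∈ Lo K (s + 1/(k+1)) p_k` and `0 ≤ ⟪u, dir p_k x_k⟫`; pass to a subsequence (`subseq2`; the limit of `p_k` is `p₀`), `x_k → x₀ ∈ Lo K s p₀`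
(`Lo_lim`), `0 ≤ ⟪u, dir p₀ x₀⟫` (`dir_lim`), contradiction with `h1`.
(ii) There is `η₂ > 0` with `0 < ⟪u, dir p y'⟫` for all `p ∈ K`, `‖p - p₀‖ ≤ η₂`, `y' ∈ S K`, `‖y' - y₀‖ ≤ ε + 2 η₂`: same proof (limit `y'₀ ∈ S K`, `‖y'₀ - y₀‖ ≤ ε`).
With `η = min η₁ η₂`: if `‖y - y₀‖ ≤ η` and `‖y' - y‖ ≤ ε + η` then `‖y' - y₀‖ ≤ ε + 2 η`.
`SepU_mono`: trivial.
-/

set_option autoImplicit false

open Metric Set Filter Topology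

namespace Pool.Agent.E8N

variable {E : Type*} [NormedAddCommGroup E] [InnerProductSpace ℝ E] [FiniteDimensional ℝ E]
variable {K : Set E} {ρ R : ℝ}

private theorem nCmpU_tend {p : ℕ → E} {p₀ : E} (h : ∀ k : ℕ, ‖p k - p₀‖ ≤ 1 / ((k : ℝ) + 1)) :
    Tendsto p atTop (𝓝 p₀) := by
  rw [tendsto_iff_norm_sub_tendsto_zero]
  exact squeeze_zero (fun k => norm_nonneg _) h tendsto_one_div_add_atTop_nhds_zero_nat

private theorem nCmpU_one (hK : Body K ρ R) {s : ℝ} {p₀ u : E} (hp₀ : p₀ ∈ K)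
    (h1 : ∀ x ∈ Lo K s p₀, inner ℝ u (dir p₀ x) < 0) :
    ∃ η > 0, ∀ p ∈ K, ‖p - p₀‖ ≤ η → ∀ x ∈ Lo K (s + η) p, inner ℝ u (dir p x) < 0 := by
  by_contra hcon
  push Not at hcon
  choose p hpK hpn x hx hin using fun k : ℕ => hcon (1 / ((k : ℝ) + 1)) (by positivity)
  have hp := nCmpU_tend hpn
  obtain ⟨p₁, _, x₁, hx₁, φ, hφ, hpφ, hxφ⟩ := subseq2 hK hpK (fun k => (hx k).1)
  have hpφ' : Tendsto (fun k => p (φ k)) atTop (𝓝 p₀) := hp.comp hφ.tendsto_atTop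
  have hs : Tendsto (fun k : ℕ => s + 1 / (((φ k : ℕ) : ℝ) + 1)) atTop (𝓝 (s + 0)) :=
    tendsto_const_nhds.add
      ((tendsto_one_div_add_atTop_nhds_zero_nat (𝕜 := ℝ)).comp hφ.tendsto_atTop)
  have hlo := Lo_lim hK hpφ' hxφ hs (fun k => hx (φ k))
  rw [add_zero] at hlo
  have hd := dir_lim hK hpφ' hxφ hp₀ hx₁
  have hi : Tendsto (fun k => inner ℝ u (dir (p (φ k)) (x (φ k)))) atTop
      (𝓝 (inner ℝ u (dir p₀ x₁))) := Filter.Tendsto.inner tendsto_const_nhds hd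
  have h0 : 0 ≤ inner ℝ u (dir p₀ x₁) := ge_of_tendsto' hi (fun k => hin (φ k))
  exact absurd (h1 x₁ hlo) (not_lt.mpr h0)

private theorem nCmpU_two (hK : Body K ρ R) {ε : ℝ} {p₀ y₀ u : E} (hp₀ : p₀ ∈ K)
    (h2 : ∀ y ∈ S K, ‖y - y₀‖ ≤ ε → 0 < inner ℝ u (dir p₀ y)) :
    ∃ η > 0, ∀ p ∈ K, ‖p - p₀‖ ≤ η → ∀ y ∈ S K, ‖y - y₀‖ ≤ ε + 2 * η → 0 < inner ℝ u (dir p y) := by
  by_contra hcon
  push Not at hcon
  choose p hpK hpn x hx hxn hin using fun k : ℕ => hcon (1 / ((k : ℝ) + 1)) (by positivity)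
  have hp := nCmpU_tend hpn
  obtain ⟨p₁, _, x₁, hx₁, φ, hφ, hpφ, hxφ⟩ := subseq2 hK hpK hx
  have hpφ' : Tendsto (fun k => p (φ k)) atTop (𝓝 p₀) := hp.comp hφ.tendsto_atTop
  have hs : Tendsto (fun k : ℕ => ε + 2 * (1 / (((φ k : ℕ) : ℝ) + 1))) atTop (𝓝 (ε + 2 * 0)) :=
    tendsto_const_nhds.add (tendsto_const_nhds.mul
      ((tendsto_one_div_add_atTop_nhds_zero_nat (𝕜 := ℝ)).comp hφ.tendsto_atTop))
  have hn : Tendsto (fun k => ‖x (φ k) - y₀‖) atTop (𝓝 ‖x₁ - y₀‖) :=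
    (hxφ.sub tendsto_const_nhds).norm
  have hle := le_of_tendsto_of_tendsto' hn hs (fun k => hxn (φ k))
  rw [mul_zero, add_zero] at hle
  have hd := dir_lim hK hpφ' hxφ hp₀ hx₁
  have hi : Tendsto (fun k => inner ℝ u (dir (p (φ k)) (x (φ k)))) atTop
      (𝓝 (inner ℝ u (dir p₀ x₁))) := Filter.Tendsto.inner tendsto_const_nhds hd
  have h0 : inner ℝ u (dir p₀ x₁) ≤ 0 := le_of_tendsto' hi (fun k => hin (φ k))
  exact absurd (h2 x₁ hx₁ hle) (not_lt.mpr h0)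

private theorem nCmpU_mono {p : E} {s t : ℝ} (h : s ≤ t) : Lo K s p ⊆ Lo K t p :=
  fun _ hx => ⟨hx.1, hx.2.trans (by linarith)⟩

theorem cmpU (hK : Body K ρ R) {s ε : ℝ} {p₀ y₀ u : E} (hp₀ : p₀ ∈ K) (h1 : ∀ x ∈ Lo K s p₀, inner ℝ u (dir p₀ x) < 0)
    (h2 : ∀ y ∈ S K, ‖y - y₀‖ ≤ ε → 0 < inner ℝ u (dir p₀ y)) :
    ∃ η > 0, ∀ p ∈ K, ‖p - p₀‖ ≤ η → ∀ y ∈ S K, ‖y - y₀‖ ≤ η → SepU K p u (Lo K (s + η) p) y (ε + η) := by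
  obtain ⟨η₁, hη₁, k1⟩ := nCmpU_one hK hp₀ h1
  obtain ⟨η₂, hη₂, k2⟩ := nCmpU_two hK hp₀ h2
  refine ⟨min η₁ η₂, lt_min hη₁ hη₂, ?_⟩
  intro p hp hpn y hy hyn
  refine ⟨fun x hx => k1 p hp (hpn.trans (min_le_left _ _)) x
    (nCmpU_mono (by linarith [min_le_left η₁ η₂]) hx), fun y' hy' hyy => ?_⟩
  refine k2 p hp (hpn.trans (min_le_right _ _)) y' hy' ?_
  have h3 : ‖y' - y₀‖ ≤ ‖y' - y‖ + ‖y - y₀‖ := norm_sub_le_norm_sub_add_norm_sub y' y y₀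
  have h4 := min_le_right η₁ η₂
  linarith

theorem SepU_mono {p u y : E} {T T' : Set E} {ε ε' : ℝ} (h : SepU K p u T y ε) (hT : T' ⊆ T) (hε : ε' ≤ ε) :
    SepU K p u T' y ε' :=
  ⟨fun x hx => h.1 x (hT hx), fun y' hy' hyy => h.2 y' hy' (hyy.trans hε)⟩

theorem Lo_mono {p : E} {s t : ℝ} (h : s ≤ t) : Lo K s p ⊆ Lo K t p := nCmpU_mono h

end Pool.Agent.E8N
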