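import Pool.Agent.E8N.NB1
import Pool.Agent.E8N.NB2
import Pool.Agent.E8N.NB3
import Pool.Agent.E8N.NB4
import Pool.Agent.E8N.NCmpU

/-!
# E8N NB

Choice of the constants near `B1`. `κ', r'` from `nb3`; `β` from `gap_pos`; `κ := min κ' β`; `e` from `nb4` with this `κ`; `ε₂ := min e (ε/4)`; `r₃` from `nb1` with `ε₂`, `r₄` from `nb2` with `ε₂`;
`r₂ := min` of `r', e, r₃, r₄, ε/4`. Fields: `b3`: `cl ≤ mx - κ' ≤ mx - κ`; `b4`: `nb4` and `SepU_mono`; `b5`: `mn ≤ mx - β ≤ mx - κ/2`.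
-/

set_option autoImplicit false

open Metric Set Filter Topology

namespace Pool.Agent.E8N

variable {E : Type*} [NormedAddCommGroup E] [InnerProductSpace ℝ E] [FiniteDimensional ℝ E]
variable {K : Set E} {ρ R : ℝ}

theorem nearB (hK : Body K ρ R) (h7 : AtMost7 K) (hd : 4 ≤ Module.finrank ℝ E) {r ε : ℝ} (hr : 0 < r) (hε : 0 < ε) :
    ∃ r₂ ε₂ κ, NearB K r r₂ ε₂ κ ∧ 4 * ε₂ ≤ ε ∧ 4 * r₂ ≤ ε := by
  obtain ⟨κ', hκ', r', hr', h3⟩ := nb3 hK h7 hd hr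
  obtain ⟨β, hβ, hgap⟩ := gap_pos hK h7 hd
  obtain ⟨κ, hκe⟩ : ∃ κ : ℝ, κ = min κ' β := ⟨_, rfl⟩
  have hκ : 0 < κ := by rw [hκe]; exact lt_min hκ' hβ
  have hκ1 : κ ≤ κ' := by rw [hκe]; exact min_le_left _ _
  have hκ2 : κ ≤ β := by rw [hκe]; exact min_le_right _ _
  obtain ⟨e, he, h4⟩ := nb4 hK h7 hd hr hκ
  obtain ⟨ε₂, hεe⟩ : ∃ ε₂ : ℝ, ε₂ = min e (ε / 4) := ⟨_, rfl⟩
  have hε₂ : 0 < ε₂ := by rw [hεe]; exact lt_min he (by positivity)
  have hε1 : ε₂ ≤ e := by rw [hεe]; exact min_le_left _ _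
  have hε2 : ε₂ ≤ ε / 4 := by rw [hεe]; exact min_le_right _ _
  obtain ⟨r₃, hr₃, h1⟩ := nb1 hK h7 hd hr hε₂
  obtain ⟨r₄, hr₄, h2⟩ := nb2 hK h7 hd hr hε₂
  obtain ⟨r₂, hre⟩ : ∃ r₂ : ℝ, r₂ = min r' (min e (min r₃ (min r₄ (ε / 4)))) := ⟨_, rfl⟩
  have hr₂ : 0 < r₂ := by
    rw [hre]
    exact lt_min hr' (lt_min he (lt_min hr₃ (lt_min hr₄ (by positivity))))
  have a1 : r₂ ≤ r' := by rw [hre]; exact min_le_left _ _
  have a2 : r₂ ≤ e := by rw [hre]; exact (min_le_right _ _).trans (min_le_left _ _)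
  have a3 : r₂ ≤ r₃ := by
    rw [hre]; exact (min_le_right _ _).trans ((min_le_right _ _).trans (min_le_left _ _))
  have a4 : r₂ ≤ r₄ := by
    rw [hre]
    exact (min_le_right _ _).trans ((min_le_right _ _).trans ((min_le_right _ _).trans (min_le_left _ _)))
  have a5 : r₂ ≤ ε / 4 := by
    rw [hre]
    exact (min_le_right _ _).trans ((min_le_right _ _).trans ((min_le_right _ _).trans (min_le_right _ _)))
  refine ⟨r₂, ε₂, κ, ?_, by linarith, by linarith⟩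
  exact
    { hr₂ := hr₂
      hε₂ := hε₂
      hκ := hκ
      b1 := fun p q hq q' hq' hp hp' y hy y' hy' =>
        h1 p q hq q' hq' (hp.trans (by linarith)) (hp'.trans (by linarith)) y hy y' hy'
      b2 := fun p hp hcd q hq hpq x y hxy y' hy' => h2 p hp hcd q hq (hpq.trans (by linarith)) x y hxy y' hy'
      b3 := fun p hp q hq hpq => (h3 p hp q hq (hpq.trans (by linarith))).trans (by linarith)
      b5 := fun p hp => by
        have := hgap p hp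
        linarith
      b4 := fun p hp q hq hpq y hy x hx hF => by
        obtain ⟨u, hu⟩ := h4 p hp q hq (hpq.trans (by linarith)) y hy x hx hF
        exact ⟨u, SepU_mono hu subset_rfl (by linarith)⟩ }

end Pool.Agent.E8N
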