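import Pool.Agent.E8N.NSets

/-!
# E8N NB1

Maximum points of nearby parameters in `B1` are close. Suppose not: `p_k, q_k, q'_k ∈ B1`, `‖p_k - q_k‖, ‖p_k - q'_k‖ ≤ 3/(k+1)`, `y_k ∈ Hi K 0 q_k`, `y'_k ∈ Hi K 0 q'_k`, `‖y_k - y'_k‖ > e`. Subsequence: `q_k → q₀ ∈ B1` (`B1_compact`), then `q'_k → q₀`,
`y_k → y₀`, `y'_k → y'₀` both in `Hi K 0 q₀` (`Hi_lim`), which is one point (`argmax_unique`: `q₀ ∈ interior K`, no separated pair of maxima). But `‖y₀ - y'₀‖ ≥ e`. (`B1 K r ⊆ DD K (r/2) ⊆ interior K ⊆ K`.)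
-/

set_option autoImplicit false

open Metric Set Filter Topology

namespace Pool.Agent.E8N

variable {E : Type*} [NormedAddCommGroup E] [InnerProductSpace ℝ E] [FiniteDimensional ℝ E]
variable {K : Set E} {ρ R : ℝ}

theorem NB1_inv {φ : ℕ → ℕ} (hφ : StrictMono φ) (c : ℝ) :
    Tendsto (fun k => c * (1 / ((φ k : ℝ) + 1))) atTop (𝓝 0) := by
  have h := (tendsto_one_div_add_atTop_nhds_zero_nat (𝕜 := ℝ)).comp hφ.tendsto_atTop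
  have h2 := h.const_mul c
  rw [mul_zero] at h2
  exact h2

theorem NB1_near {u v : ℕ → E} {u₀ : E} {d : ℕ → ℝ} (hu : Tendsto u atTop (𝓝 u₀)) (hd : Tendsto d atTop (𝓝 0))
    (h : ∀ k, ‖u k - v k‖ ≤ d k) : Tendsto v atTop (𝓝 u₀) := by
  have h1 : Tendsto (fun k => ‖u k - v k‖) atTop (𝓝 0) := squeeze_zero (fun k => norm_nonneg _) h hd
  have h2 : Tendsto (fun k => u k - v k) atTop (𝓝 0) := tendsto_zero_iff_norm_tendsto_zero.mpr h1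
  have h3 := hu.sub h2
  simp only [sub_sub_cancel, sub_zero] at h3
  exact h3

theorem nb1 (hK : Body K ρ R) (h7 : AtMost7 K) (hd : 4 ≤ Module.finrank ℝ E) {r e : ℝ} (hr : 0 < r) (he : 0 < e) :
    ∃ r₂ > 0, ∀ p, ∀ q ∈ B1 K r, ∀ q' ∈ B1 K r, ‖p - q‖ ≤ 3 * r₂ → ‖p - q'‖ ≤ 3 * r₂ → ∀ y ∈ Hi K 0 q,
      ∀ y' ∈ Hi K 0 q', ‖y - y'‖ ≤ e := by
  by_contra hcon
  push Not at hcon
  have h1 : ∀ k : ℕ, ∃ q q' y y' : E, q ∈ B1 K r ∧ q' ∈ B1 K r ∧ ‖q - q'‖ ≤ 6 * (1 / ((k : ℝ) + 1)) ∧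
      y ∈ Hi K 0 q ∧ y' ∈ Hi K 0 q' ∧ e < ‖y - y'‖ := by
    intro k
    obtain ⟨p, q, hq, q', hq', hpq, hpq', y, hy, y', hy', hlt⟩ := hcon (1 / ((k : ℝ) + 1)) (by positivity)
    refine ⟨q, q', y, y', hq, hq', ?_, hy, hy', hlt⟩
    have e1 : q - q' = (p - q') - (p - q) := by abel
    rw [e1]
    refine (norm_sub_le _ _).trans ?_
    linarith
  choose q q' y y' hq hq' hqq hy hy' hlt using h1
  have hc : IsCompact (B1 K r ×ˢ (S K ×ˢ S K)) := (B1_compact hK hr).prod ((S_compact hK).prod (S_compact hK))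
  obtain ⟨⟨q₀, y₀, y₁⟩, ⟨hq₀, hy₀, hy₁⟩, φ, hφ, hlim⟩ := hc.tendsto_subseq (x := fun k => (q k, y k, y' k))
    (fun k => ⟨hq k, (hy k).1, (hy' k).1⟩)
  have l1 : Tendsto (fun k => q (φ k)) atTop (𝓝 q₀) := (continuous_fst.tendsto _).comp hlim
  have l2 : Tendsto (fun k => y (φ k)) atTop (𝓝 y₀) :=
    ((continuous_fst.comp continuous_snd).tendsto _).comp hlim
  have l3 : Tendsto (fun k => y' (φ k)) atTop (𝓝 y₁) :=
    ((continuous_snd.comp continuous_snd).tendsto _).comp hlim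
  have l4 : Tendsto (fun k => q' (φ k)) atTop (𝓝 q₀) := NB1_near l1 (NB1_inv hφ 6) (fun k => hqq (φ k))
  have h2 : y₀ ∈ Hi K 0 q₀ := Hi_lim hK l1 l2 tendsto_const_nhds (fun k => hy (φ k))
  have h3 : y₁ ∈ Hi K 0 q₀ := Hi_lim hK l4 l3 tendsto_const_nhds (fun k => hy' (φ k))
  obtain ⟨m, hm⟩ := argmax_unique hK h7 hd (DD_sub (half_pos hr) hq₀.1) hq₀.2.2
  rw [hm, mem_singleton_iff] at h2 h3
  have h4 : Tendsto (fun k => ‖y (φ k) - y' (φ k)‖) atTop (𝓝 ‖y₀ - y₁‖) := (l2.sub l3).norm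
  have h5 : e ≤ ‖y₀ - y₁‖ := ge_of_tendsto h4 (Eventually.of_forall fun k => (hlt (φ k)).le)
  rw [h2, h3, sub_self, norm_zero] at h5
  linarith

end Pool.Agent.E8N
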