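import Pool.Agent.E8N.NDFacts

/-!
# E8N NSets

The sets of the cover. `D = DD K (r/2)` is compact, `⊆ interior K` (`DD_compact`, `DD_sub`).
* `B1_compact`: `B1 K r = D ∩ {infDist · (Ap K) ≥ r} \ {p | p ∈ interior K ∧ Two (S K) (-F p)}` (for `p ∈ D`, `p ∈ interior K`), open set by `notTwo_closed'`.
* `not_Ap`: `infDist p (Ap K) ≥ r > 0` implies `p ∉ Ap K`, so for `p ∈ interior K`: `Two (S K) (F p)`.
* `C2_closed`: `p ↦ infDist p (B1 K r)` is continuous and `(∃ q ∈ B1, ‖p - q‖ ≤ r₂)` iff `B1` nonempty and `infDist p B1 ≤ r₂` (`IsCompact.exists_infDist_eq_dist`).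
* `O1_compact`: closed subset of `D` (`{p | ∀ q ∈ B1, r₂ ≤ ‖p - q‖}` is an intersection of closed sets).
* `O1_sub`: `p ∈ O1`: `Two (S K) (F p)` by `not_Ap`; `p ∉ B1` (else `r₂ ≤ ‖p - p‖ = 0`), so `Two (S K) (-F p)`.
* `St_compact`, `Cc_compact`: `cl`, `dl` are continuous on `Om K ⊇ O1` (`cl_cont`, `dl_cont`); closed subsets of the compact `O1` (`ContinuousOn.preimage_isClosed_of_isClosed`).
* `cover`: by cases `infDist p (Ap K) ≤ r`; `∃ q ∈ B1, ‖p - q‖ ≤ r₂`; otherwise `p ∈ O1`; `dl - cl ≤ ω` or `≥ ω`.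
-/

set_option autoImplicit false

open Metric Set Filter Topology

namespace Pool.Agent.E8N

variable {E : Type*} [NormedAddCommGroup E] [InnerProductSpace ℝ E] [FiniteDimensional ℝ E]
variable {K : Set E} {ρ R : ℝ}

theorem B1_compact (hK : Body K ρ R) {r : ℝ} (hr : 0 < r) : IsCompact (B1 K r) := by
  have hr2 : 0 < r / 2 := by positivity
  have h1 := DD_compact hK hr2
  have h2 : IsClosed {p : E | r ≤ infDist p (Ap K)} :=
    isClosed_le continuous_const (continuous_infDist_pt _)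
  have h3 : IsClosed {p : E | p ∈ interior K ∧ Two (S K) (fun x => - F p x)}ᶜ :=
    (notTwo_closed' hK).isClosed_compl
  have h4 : B1 K r = DD K (r / 2) ∩ ({p : E | r ≤ infDist p (Ap K)} ∩
      {p : E | p ∈ interior K ∧ Two (S K) (fun x => - F p x)}ᶜ) := by
    ext p
    constructor
    · rintro ⟨a, b, c⟩
      exact ⟨a, b, fun hc => c hc.2⟩
    · rintro ⟨a, b, c⟩
      exact ⟨a, b, fun hc => c ⟨DD_sub hr2 a, hc⟩⟩
  rw [h4]
  exact h1.inter_right (h2.inter h3)

theorem not_Ap (hK : Body K ρ R) {p : E} {r : ℝ} (hr : 0 < r) (hp : p ∈ interior K) (h : r ≤ infDist p (Ap K)) :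
    Two (S K) (F p) := by
  by_contra hcon
  have h1 : p ∈ Ap K := Or.inl ⟨hp, hcon⟩
  have h2 := infDist_zero_of_mem h1
  linarith

theorem C1_closed (hK : Body K ρ R) {r : ℝ} (hr : 0 < r) : IsClosed (C1 K r) := by
  have hr2 : 0 < r / 2 := by positivity
  have h1 := (DD_compact hK hr2).isClosed
  have h2 : IsClosed {p : E | infDist p (Ap K) ≤ r} :=
    isClosed_le (continuous_infDist_pt _) continuous_const
  exact h1.inter h2

theorem C2_closed (hK : Body K ρ R) {r r₂ : ℝ} (hr : 0 < r) : IsClosed (C2 K r r₂) := by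
  have hr2 : 0 < r / 2 := by positivity
  have h1 := (DD_compact hK hr2).isClosed
  have h2 : IsClosed {p : E | r ≤ infDist p (Ap K)} :=
    isClosed_le continuous_const (continuous_infDist_pt _)
  have h3 : IsClosed ((fun z : E × E => z.1 + z.2) '' (B1 K r ×ˢ closedBall (0 : E) r₂)) :=
    (((B1_compact hK hr).prod (isCompact_closedBall (0 : E) r₂)).image
      (continuous_fst.add continuous_snd)).isClosed
  have h4 : C2 K r r₂ = DD K (r / 2) ∩ ({p : E | r ≤ infDist p (Ap K)} ∩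
      ((fun z : E × E => z.1 + z.2) '' (B1 K r ×ˢ closedBall (0 : E) r₂))) := by
    ext p
    constructor
    · rintro ⟨a, b, q, hq, hpq⟩
      refine ⟨a, b, (q, p - q), ⟨hq, ?_⟩, ?_⟩
      · rw [mem_closedBall, dist_zero_right]
        exact hpq
      · show q + (p - q) = p
        abel
    · rintro ⟨a, b, ⟨q, v⟩, ⟨hq, hv⟩, hz⟩
      refine ⟨a, b, q, hq, ?_⟩
      have hz' : q + v = p := hz
      rw [← hz', add_sub_cancel_left]
      rw [mem_closedBall, dist_zero_right] at hv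
      exact hv
  rw [h4]
  exact h1.inter (h2.inter h3)

theorem O1_compact (hK : Body K ρ R) {r r₂ : ℝ} (hr : 0 < r) : IsCompact (O1 K r r₂) := by
  have hr2 : 0 < r / 2 := by positivity
  have h1 := DD_compact hK hr2
  have h2 : IsClosed {p : E | r ≤ infDist p (Ap K)} :=
    isClosed_le continuous_const (continuous_infDist_pt _)
  have h3 : IsClosed (⋂ q ∈ B1 K r, {p : E | r₂ ≤ ‖p - q‖}) := by
    refine isClosed_biInter fun q _ => ?_
    exact isClosed_le continuous_const (continuous_id.sub continuous_const).norm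
  have h4 : O1 K r r₂ = DD K (r / 2) ∩ ({p : E | r ≤ infDist p (Ap K)} ∩
      (⋂ q ∈ B1 K r, {p : E | r₂ ≤ ‖p - q‖})) := by
    ext p
    constructor
    · rintro ⟨a, b, c⟩
      refine ⟨a, b, ?_⟩
      simp only [mem_iInter]
      intro q hq
      exact c q hq
    · rintro ⟨a, b, c⟩
      refine ⟨a, b, ?_⟩
      simp only [mem_iInter] at c
      intro q hq
      exact c q hq
  rw [h4]
  exact h1.inter_right (h2.inter h3)

theorem O1_sub (hK : Body K ρ R) {r r₂ : ℝ} (hr : 0 < r) (hr₂ : 0 < r₂) : O1 K r r₂ ⊆ Om K := by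
  rintro p ⟨a, b, c⟩
  have hr2 : 0 < r / 2 := by positivity
  have hp := DD_sub hr2 a
  refine ⟨hp, not_Ap hK hr hp b, ?_⟩
  by_contra hcon
  have h1 : p ∈ B1 K r := ⟨a, b, hcon⟩
  have h2 := c p h1
  rw [sub_self, norm_zero] at h2
  linarith

theorem St_compact (hK : Body K ρ R) (h7 : AtMost7 K) (hd : 4 ≤ Module.finrank ℝ E) {r r₂ ω : ℝ} (hr : 0 < r)
    (hr₂ : 0 < r₂) : IsCompact (St K r r₂ ω) := by
  have h1 := O1_compact (r₂ := r₂) hK hr
  have h2 : ContinuousOn (fun p => dl K p - cl K p) (O1 K r r₂) :=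
    ((dl_cont hK h7 hd).sub (cl_cont hK h7 hd)).mono (O1_sub hK hr hr₂)
  have h3 := h2.preimage_isClosed_of_isClosed h1.isClosed (isClosed_Iic (a := ω))
  exact h1.of_isClosed_subset h3 (fun p hp => hp.1)

theorem Cc_compact (hK : Body K ρ R) (h7 : AtMost7 K) (hd : 4 ≤ Module.finrank ℝ E) {r r₂ ω : ℝ} (hr : 0 < r)
    (hr₂ : 0 < r₂) : IsCompact (Cc K r r₂ ω) := by
  have h1 := O1_compact (r₂ := r₂) hK hr
  have h2 : ContinuousOn (fun p => dl K p - cl K p) (O1 K r r₂) :=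
    ((dl_cont hK h7 hd).sub (cl_cont hK h7 hd)).mono (O1_sub hK hr hr₂)
  have h3 := h2.preimage_isClosed_of_isClosed h1.isClosed (isClosed_Ici (a := ω))
  exact h1.of_isClosed_subset h3 (fun p hp => hp.1)

theorem cover (hK : Body K ρ R) {r r₂ ω : ℝ} {p : E} (hp : p ∈ DD K (r / 2)) :
    p ∈ C1 K r ∨ p ∈ C2 K r r₂ ∨ p ∈ St K r r₂ ω ∨ p ∈ Cc K r r₂ ω := by
  by_cases h1 : infDist p (Ap K) ≤ r
  · exact Or.inl ⟨hp, h1⟩
  · have h1' : r ≤ infDist p (Ap K) := (not_le.1 h1).le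
    by_cases h2 : ∃ q ∈ B1 K r, ‖p - q‖ ≤ r₂
    · exact Or.inr (Or.inl ⟨hp, h1', h2⟩)
    · push Not at h2
      have h3 : p ∈ O1 K r r₂ := ⟨hp, h1', fun q hq => (h2 q hq).le⟩
      rcases le_total (dl K p - cl K p) ω with h4 | h4
      · exact Or.inr (Or.inr (Or.inl ⟨h3, h4⟩))
      · exact Or.inr (Or.inr (Or.inr ⟨h3, h4⟩))

end Pool.Agent.E8N
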