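import Pool.Agent.E8N.NCmpU
import Pool.Agent.E8N.NSets

/-!
# E8N NChkA

Checks at `p ∈ C1`. Let `θ = (a+γ)/2`.
Case `p ∈ C2`: `q ∈ B1`, `‖p - q‖ ≤ r₂`, `y ∈ Hi K 0 q` (`Hi_nonempty`). `F p y ≥ F q y - r₂ = mx K q - r₂ ≥ mx K p - 2 r₂ ≥ mx K p - ε`, so `y ∈ Hi K ε p`; `hN.n1` gives `u` with `SepU K p u (Lo K δ p) y ε`. (1) `Lo K (4r) p ⊆ Lo K δ p`. (2) for `q' ∈ B1`, `‖p - q'‖ ≤ 2 r₂`, `y' ∈ Hi K 0 q'`: `‖y' - y‖ ≤ ε₂ ≤ ε` (`hB.b1`), so `⟪u, dir p y'⟫ > 0`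
(`y' ∈ S K`). (3) `X p ∈ Lo K δ p` (`θ ≤ γ ≤ δ`). (4) `‖Y p - y‖ ≤ 2ε₂ ≤ ε` (`hD.y2`). (5) `hD.d1`.
Case `p ∉ C2`, `p ∈ St` and `mn + θ ≤ F p (X p)`: `u` from `hD.d2`: (1), (4), (5) and (3) from its four properties; (2) is void.
Case `p ∉ C2` and not (`p ∈ St` and `mn + θ ≤ F p (X p)`): take `y ∈ Hi K 0 p ⊆ Hi K ε p` and `u` from `hN.n1`: (1), (3), (5) as in the first case; (2), (4) void.
(`p ∈ DD K (r/2) ⊆ interior K ⊆ K`.)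
-/

set_option autoImplicit false

open Metric Set Filter Topology

namespace Pool.Agent.E8N

variable {E : Type*} [NormedAddCommGroup E] [InnerProductSpace ℝ E] [FiniteDimensional ℝ E]
variable {K : Set E} {ρ R : ℝ}

theorem chkA (hK : Body K ρ R) (h7 : AtMost7 K) (hd : 4 ≤ Module.finrank ℝ E) {δ ε γ a r r₂ ε₂ κ ω : ℝ}
    {X Y ξ : E → E} (hN : NearP K δ ε γ a r) (hB : NearB K r r₂ ε₂ κ) (hε : 4 * ε₂ ≤ ε) (hr₂ : 4 * r₂ ≤ ε)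
    (hD : Data K δ ε γ a r r₂ ε₂ κ ω X Y ξ) {p : E} (hp : p ∈ C1 K r) :
    ∃ u : E, (∀ x ∈ Lo K (4 * r) p, inner ℝ u (dir p x) < 0) ∧
      (p ∈ C2 K r r₂ → ∀ q ∈ B1 K r, ‖p - q‖ ≤ 2 * r₂ → ∀ y ∈ Hi K 0 q, 0 < inner ℝ u (dir p y)) ∧
      (p ∈ St K r r₂ ω → F p (X p) ≤ mn K p + (a + γ) / 2 → inner ℝ u (dir p (X p)) < 0) ∧
      (p ∈ St K r r₂ ω → mn K p + (a + γ) / 2 ≤ F p (X p) → 0 < inner ℝ u (dir p (Y p))) ∧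
      (p ∈ Cc K r r₂ ω → inner ℝ u (dir p (ξ p)) < 0) := by
  have _ := h7
  have _ := hd
  have hr := hN.hr
  have hε0 := hN.hε
  have hrδ := hN.hrδ
  have ha := hN.ha
  have haγ := hN.haγ
  have hγδ := hN.hγδ
  have hr₂0 := hB.hr₂
  have hε₂0 := hB.hε₂
  have hpK : p ∈ K := hp.1 (Metric.mem_closedBall_self (by linarith))
  have hpd : infDist p (Ap K) ≤ r := hp.2
  have hsub : Lo K (4 * r) p ⊆ Lo K δ p := Lo_mono (by linarith)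
  have hX3 : p ∈ St K r r₂ ω → F p (X p) ≤ mn K p + (a + γ) / 2 → X p ∈ Lo K δ p := fun h1 h2 =>
    ⟨hD.sX p h1, by linarith⟩
  by_cases h2 : p ∈ C2 K r r₂
  · obtain ⟨q, hq, hpq⟩ := h2.2.2
    obtain ⟨y, hyS, hyF⟩ := Hi_nonempty hK hd q
    have hyq : y ∈ Hi K 0 q := ⟨hyS, by rw [hyF]; linarith⟩
    have hyp : y ∈ Hi K ε p := by
      refine ⟨hyS, ?_⟩
      have e1 := abs_le.1 (F_lip p q y)
      have e2 := abs_le.1 (mx_cont hK p q)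
      linarith [e1.1, e2.2]
    obtain ⟨u, hu1, hu2⟩ := hN.n1 p hpK hpd y hyp
    refine ⟨u, fun x hx => hu1 x (hsub hx), ?_, fun h3 h4 => hu1 _ (hX3 h3 h4), ?_, fun h3 => hu1 _ (hD.d1 p h3 hpd)⟩
    · intro _ q' hq' hpq' y' hy'
      apply hu2 y' hy'.1
      have := hB.b1 p q hq q' hq' (by linarith) (by linarith) y hyq y' hy'
      rw [norm_sub_rev] at this
      linarith
    · intro h3 _
      apply hu2 _ (hD.sY p h3)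
      have := hD.y2 p h3 q hq (by linarith) y hyq
      linarith
  · by_cases h3 : p ∈ St K r r₂ ω ∧ mn K p + (a + γ) / 2 ≤ F p (X p)
    · obtain ⟨u, hu1, hu2, hu3, hu4⟩ := hD.d2 p h3.1 hpd h3.2
      exact ⟨u, hu1, fun h => absurd h h2, fun _ h => hu4 h, fun _ _ => hu2, hu3⟩
    · obtain ⟨y, hyS, hyF⟩ := Hi_nonempty hK hd p
      have hyp : y ∈ Hi K ε p := ⟨hyS, by rw [hyF]; linarith⟩
      obtain ⟨u, hu1, hu2⟩ := hN.n1 p hpK hpd y hyp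
      exact ⟨u, fun x hx => hu1 x (hsub hx), fun h => absurd h h2, fun h4 h5 => hu1 _ (hX3 h4 h5),
        fun h4 h5 => absurd ⟨h4, h5⟩ h3, fun h4 => hu1 _ (hD.d1 p h4 hpd)⟩

end Pool.Agent.E8N
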