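import Pool.Agent.E8N.NCmpU
import Pool.Agent.E8N.NSets

/-!
# E8N NChkB

Checks at `p ∈ D \ C1`. Let `θ = (a+γ)/2`. `p ∈ K`.
Case `p ∈ C2`: `q ∈ B1`, `‖p - q‖ ≤ r₂`, `y ∈ Hi K 0 q`. Choose `x`: if `p ∈ Cc`, `x = ξ p`; else if `p ∈ St`, `x = X p`; else a point of `Lo K 0 p`. Then `x ∈ S K` and `F p x ≤ mx K p - κ/2`: by `hB.b3` (`p ∈ O1 ⊆ Om K`, `O1_sub`) `cl K p ≤ mx K p - κ`, and `F p (ξ p) < cl + κ/2` (`l4`), `F p (X p) < cl` (`l1`), resp. `hB.b5`. `hB.b4` gives `u` with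
`SepU K p u {x} y (4ε₂)`. (2) `‖y' - y‖ ≤ ε₂` by `hB.b1`. (4) `‖Y p - y‖ ≤ 2ε₂` (`hD.y2`). (5) `x = ξ p`. (3) if `p ∈ Cc` then `ξ p = X p` by `hD.e1`; otherwise `x = X p`.
Case `p ∉ C2`, `p ∈ Cc`: if `p ∈ St` and `mn + θ ≤ F p (X p)`: `u = dir p (Y p) - dir p (ξ p)` (`two_pts`; `ξ p ≠ Y p` by `l3`), (3): if also `F p (X p) ≤ mn + θ`, `X p = ξ p` (`e1`). Otherwise `u = - dir p (ξ p)` (unit vector, `dir_norm`), (3) by `e1`, (4) void.
Case `p ∉ C2`, `p ∉ Cc`: if `p ∈ St` and `mn + θ ≤ F p (X p)`: `u = dir p (Y p) - dir p (X p)` (`two_pts`, `l2`). If `p ∈ St` otherwise: `u = - dir p (X p)`. If `p ∉ St`: any `u`, e.g. `0` (all statements void).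
-/

set_option autoImplicit false

open Metric Set Filter Topology

namespace Pool.Agent.E8N

variable {E : Type*} [NormedAddCommGroup E] [InnerProductSpace ℝ E] [FiniteDimensional ℝ E]
variable {K : Set E} {ρ R : ℝ}

theorem chkB (hK : Body K ρ R) (h7 : AtMost7 K) (hd : 4 ≤ Module.finrank ℝ E) {δ ε γ a r r₂ ε₂ κ ω : ℝ}
    {X Y ξ : E → E} (hN : NearP K δ ε γ a r) (hB : NearB K r r₂ ε₂ κ) (hε : 4 * ε₂ ≤ ε) (hr₂ : 4 * r₂ ≤ ε)
    (hD : Data K δ ε γ a r r₂ ε₂ κ ω X Y ξ) {p : E} (hp : p ∈ DD K (r / 2)) (hp1 : p ∉ C1 K r) :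
    ∃ u : E,
      (p ∈ C2 K r r₂ → ∀ q ∈ B1 K r, ‖p - q‖ ≤ 2 * r₂ → ∀ y ∈ Hi K 0 q, 0 < inner ℝ u (dir p y)) ∧
      (p ∈ St K r r₂ ω → F p (X p) ≤ mn K p + (a + γ) / 2 → inner ℝ u (dir p (X p)) < 0) ∧
      (p ∈ St K r r₂ ω → mn K p + (a + γ) / 2 ≤ F p (X p) → 0 < inner ℝ u (dir p (Y p))) ∧
      (p ∈ Cc K r r₂ ω → inner ℝ u (dir p (ξ p)) < 0) := by
  have hr2 : 0 < r / 2 := by linarith [hN.hr]
  have hpK : p ∈ K := interior_subset (DD_sub hr2 hp)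
  have hself : ∀ x ∈ S K, inner ℝ (- dir p x) (dir p x) < 0 := by
    intro x hx
    rw [inner_neg_left, real_inner_self_eq_norm_sq, dir_norm hK hpK hx]
    norm_num
  by_cases h2 : p ∈ C2 K r r₂
  · obtain ⟨_, _, q, hq, hpq⟩ := h2
    obtain ⟨y, hy, hyF⟩ := Hi_nonempty hK hd q
    have hyH : y ∈ Hi K 0 q := ⟨hy, by linarith⟩
    have hr₂' := hB.hr₂
    have hκ := hB.hκ
    have hε₂ := hB.hε₂
    have hpq3 : ‖p - q‖ ≤ 3 * r₂ := by linarith
    have key : ∃ x ∈ S K, F p x ≤ mx K p - κ / 2 ∧ (p ∈ Cc K r r₂ ω → x = ξ p) ∧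
        (p ∈ St K r r₂ ω → F p (X p) ≤ mn K p + (a + γ) / 2 → x = X p) := by
      by_cases hc : p ∈ Cc K r r₂ ω
      · refine ⟨ξ p, hD.sξ p hc, ?_, fun _ => rfl, fun hs hF => hD.e1 p hc hs hF⟩
        have hOm : p ∈ Om K := O1_sub hK hN.hr hB.hr₂ hc.1
        have h1 := hB.b3 p hOm q hq hpq3
        have h4 := hD.l4 p hc
        linarith
      · by_cases hs : p ∈ St K r r₂ ω
        · refine ⟨X p, hD.sX p hs, ?_, fun h => absurd h hc, fun _ _ => rfl⟩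
          have hOm : p ∈ Om K := O1_sub hK hN.hr hB.hr₂ hs.1
          have h1 := hB.b3 p hOm q hq hpq3
          have h4 := hD.l1 p hs
          linarith
        · obtain ⟨x, hx, hxF⟩ := Lo_nonempty hK hd p
          refine ⟨x, hx, ?_, fun h => absurd h hc, fun h _ => absurd h hs⟩
          rw [hxF]
          exact hB.b5 p hpK
    obtain ⟨x, hx, hxF, hx1, hx2⟩ := key
    obtain ⟨u, hu1, hu2⟩ := hB.b4 p hpK q hq hpq3 y hyH x hx hxF
    refine ⟨u, ?_, ?_, ?_, ?_⟩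
    · intro _ q' hq' hpq' y' hy'
      refine hu2 y' hy'.1 ?_
      have h1 := hB.b1 p q hq q' hq' hpq3 (by linarith) y hyH y' hy'
      rw [norm_sub_rev]
      linarith
    · intro hs hF
      have := hu1 x rfl
      rw [hx2 hs hF] at this
      exact this
    · intro hs _
      refine hu2 (Y p) (hD.sY p hs) ?_
      have h1 := hD.y2 p hs q hq (by linarith) y hyH
      linarith
    · intro hc
      have := hu1 x rfl
      rw [hx1 hc] at this
      exact this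
  · by_cases hc : p ∈ Cc K r r₂ ω
    · by_cases hs : p ∈ St K r r₂ ω ∧ mn K p + (a + γ) / 2 ≤ F p (X p)
      · obtain ⟨hs, hF⟩ := hs
        have hne : ξ p ≠ Y p := by
          intro h
          have h3 := hD.l3 p hc hs
          rw [h] at h3
          exact lt_irrefl _ h3
        obtain ⟨t1, t2⟩ := two_pts hK hpK (hD.sξ p hc) (hD.sY p hs) hne
        refine ⟨dir p (Y p) - dir p (ξ p), fun h => absurd h h2, ?_, fun _ _ => t2, fun _ => t1⟩
        intro hs' hF'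
        rw [← hD.e1 p hc hs' hF']
        exact t1
      · refine ⟨- dir p (ξ p), fun h => absurd h h2, ?_, fun h h' => absurd ⟨h, h'⟩ hs, fun _ => hself _ (hD.sξ p hc)⟩
        intro hs' hF'
        rw [← hD.e1 p hc hs' hF']
        exact hself _ (hD.sξ p hc)
    · by_cases hs : p ∈ St K r r₂ ω ∧ mn K p + (a + γ) / 2 ≤ F p (X p)
      · obtain ⟨hs, hF⟩ := hs
        have hne : X p ≠ Y p := by
          intro h
          have h3 := hD.l2 p hs
          rw [h] at h3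
          exact lt_irrefl _ h3
        obtain ⟨t1, t2⟩ := two_pts hK hpK (hD.sX p hs) (hD.sY p hs) hne
        exact ⟨dir p (Y p) - dir p (X p), fun h => absurd h h2, fun _ _ => t1, fun _ _ => t2, fun h => absurd h hc⟩
      · by_cases hs' : p ∈ St K r r₂ ω
        · exact ⟨- dir p (X p), fun h => absurd h h2, fun _ _ => hself _ (hD.sX p hs'), fun h h' => absurd ⟨h, h'⟩ hs,
            fun h => absurd h hc⟩
        · exact ⟨0, fun h => absurd h h2, fun h => absurd h hs', fun h => absurd h hs', fun h => absurd h hc⟩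

end Pool.Agent.E8N
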