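import Pool.Agent.E8N.NLim

/-!
# E8N NCls

* `cls_lim`: by definition of `Cls` there are `q_k ∈ O`, `dl K q_k ≤ cl K q_k`, `‖p_k - q_k‖ ≤ η_k`, `MidXY K q_k x_k y_k`, `‖X_k - x_k‖, ‖Y_k - y_k‖ ≤ η_k`. `q_k → p₀ ∈ O` (closed), `O ⊆ Om K`, so by `cl_cont`, `dl_cont` `dl K p₀ ≤ cl K p₀` (limits of `dl K q_k ≤ cl K q_k`).
  `mid_exists` at `p₀`, `mid_lim` for `q_k → p₀`: `x_k → x₀`, `y_k → y₀`, so `X_k → x₀`, `Y_k → y₀`.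
* `cls_mono`: trivial.
* `mid_lim'`: the same for `MidXY` (choice of the components along the sequence).
-/

set_option autoImplicit false

open Metric Set Filter Topology

namespace Pool.Agent.E8N

variable {E : Type*} [NormedAddCommGroup E] [InnerProductSpace ℝ E] [FiniteDimensional ℝ E]
variable {K : Set E} {ρ R : ℝ}

theorem ncls_mid_lim (hK : Body K ρ R) (h7 : AtMost7 K) (hd : 4 ≤ Module.finrank ℝ E) {p x y : ℕ → E} {p₀ x₀ y₀ : E}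
    (hp : ∀ k, p k ∈ Om K) (hcd : ∀ k, dl K (p k) ≤ cl K (p k)) (hp₀ : p₀ ∈ Om K) (hlim : Tendsto p atTop (𝓝 p₀))
    (h : ∀ k, MidXY K (p k) (x k) (y k)) (h₀ : MidXY K p₀ x₀ y₀) :
    Tendsto x atTop (𝓝 x₀) ∧ Tendsto y atTop (𝓝 y₀) := by
  choose Al Am Bl Bm hM using h
  obtain ⟨Al₀, Am₀, Bl₀, Bm₀, hM₀⟩ := h₀
  exact mid_lim hK h7 hd hp hcd hp₀ hlim hM hM₀

omit [InnerProductSpace ℝ E] [FiniteDimensional ℝ E] in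
theorem ncls_tendsto {X x : ℕ → E} {η : ℕ → ℝ} {x₀ : E} (hη : Tendsto η atTop (𝓝 0))
    (hx : Tendsto x atTop (𝓝 x₀)) (h : ∀ k, ‖X k - x k‖ ≤ η k) : Tendsto X atTop (𝓝 x₀) := by
  have h1 : Tendsto (fun k => X k - x k) atTop (𝓝 0) := squeeze_zero_norm h hη
  have h2 := h1.add hx
  simpa using h2

theorem cls_lim (hK : Body K ρ R) (h7 : AtMost7 K) (hd : 4 ≤ Module.finrank ℝ E) {O : Set E} (hO : IsCompact O)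
    (hOm : O ⊆ Om K) {p X Y : ℕ → E} {η : ℕ → ℝ} {p₀ : E} (hη : Tendsto η atTop (𝓝 0)) (hp : ∀ k, p k ∈ O)
    (hlim : Tendsto p atTop (𝓝 p₀)) (h : ∀ k, Cls K O (η k) (p k) (X k) (Y k)) :
    p₀ ∈ O ∧ dl K p₀ ≤ cl K p₀ ∧ ∃ x₀ y₀, MidXY K p₀ x₀ y₀ ∧ Tendsto X atTop (𝓝 x₀) ∧ Tendsto Y atTop (𝓝 y₀) := by
  choose hXS hYS q hqO hqd hpq x y hM hXx hYy using h
  have hp₀ : p₀ ∈ O := hO.isClosed.mem_of_tendsto hlim (Eventually.of_forall hp)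
  have hp₀' : p₀ ∈ Om K := hOm hp₀
  have hq : Tendsto q atTop (𝓝 p₀) :=
    ncls_tendsto hη hlim (fun k => by rw [norm_sub_rev]; exact hpq k)
  have hqw : Tendsto q atTop (𝓝[Om K] p₀) :=
    tendsto_nhdsWithin_iff.2 ⟨hq, Eventually.of_forall fun k => hOm (hqO k)⟩
  have hcl : Tendsto (fun k => cl K (q k)) atTop (𝓝 (cl K p₀)) :=
    (cl_cont hK h7 hd p₀ hp₀').tendsto.comp hqw
  have hdl : Tendsto (fun k => dl K (q k)) atTop (𝓝 (dl K p₀)) :=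
    (dl_cont hK h7 hd p₀ hp₀').tendsto.comp hqw
  have hcd : dl K p₀ ≤ cl K p₀ := le_of_tendsto_of_tendsto' hdl hcl hqd
  obtain ⟨Al₀, Am₀, Bl₀, Bm₀, x₀, y₀, hM₀⟩ := mid_exists hK h7 hd hp₀' hcd
  have hM₀' : MidXY K p₀ x₀ y₀ := ⟨Al₀, Am₀, Bl₀, Bm₀, hM₀⟩
  obtain ⟨hx, hy⟩ := ncls_mid_lim hK h7 hd (fun k => hOm (hqO k)) hqd hp₀' hq hM hM₀'
  exact ⟨hp₀, hcd, x₀, y₀, hM₀', ncls_tendsto hη hx hXx, ncls_tendsto hη hy hYy⟩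

theorem cls_mono {O : Set E} {η η' : ℝ} {p X Y : E} (h : Cls K O η p X Y) (hη : η ≤ η') : Cls K O η' p X Y := by
  obtain ⟨hX, hY, q, hqO, hqd, hpq, x, y, hM, hXx, hYy⟩ := h
  exact ⟨hX, hY, q, hqO, hqd, hpq.trans hη, x, y, hM, hXx.trans hη, hYy.trans hη⟩

theorem mid_lim' (hK : Body K ρ R) (h7 : AtMost7 K) (hd : 4 ≤ Module.finrank ℝ E) {p x y : ℕ → E} {p₀ x₀ y₀ : E}
    (hp : ∀ k, p k ∈ Om K) (hcd : ∀ k, dl K (p k) ≤ cl K (p k)) (hp₀ : p₀ ∈ Om K) (hlim : Tendsto p atTop (𝓝 p₀))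
    (h : ∀ k, MidXY K (p k) (x k) (y k)) (h₀ : MidXY K p₀ x₀ y₀) :
    Tendsto x atTop (𝓝 x₀) ∧ Tendsto y atTop (𝓝 y₀) :=
  ncls_mid_lim hK h7 hd hp hcd hp₀ hlim h h₀

end Pool.Agent.E8N
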