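import Pool.Agent.E8N.Defs2

/-!
# E8N NCol

(6.2) COLOURS: a compact set is covered by `d + 1` families (`d = finrank`) of pairwise disjoint small compact sets.
Proof. Let `b` be an orthonormal basis of `E` (`stdOrthonormalBasis`), `x_i = ⟪b i, x⟫`, `i : Fin d`. Choose `N : ℕ`, `N > 0` with `√d / N ≤ e` and `θ = 1/(4(d+1))`. For `j : Fin (d+1)` and `k : Fin d → ℤ` let
`Q j k = {x ∈ C | ∀ i, k i + θ ≤ N x_i - j/(d+1) ≤ k i + 1 - θ}`: compact, contained in `C`; for `k ≠ k'` disjoint (a coordinate with `k i < k' i`: `N x_i - j/(d+1) ≤ k i + 1 - θ < k' i + θ`); two points differ by at most `1/N` in each coordinate, so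
`‖x - y‖ ≤ √d/N ≤ e` (`OrthonormalBasis.sum_sq_norm_inner`...). Cover: for `x ∈ C` and a fixed `i` call `j` bad if `N x_i - j/(d+1)` is within `θ` (strictly) of an integer; two different bad `j, j'` would give `|j - j'|/(d+1)` within `2θ = 1/(2(d+1))` of an integer, impossible for
`0 < |j - j'| < d + 1`. So at most one bad `j` for each `i`, at most `d` bad `j` in total, so some `j : Fin (d+1)` is good for all `i`; then `x ∈ Q j k` with `k i = ⌊N x_i - j/(d+1)⌋`. Only finitely many `k` matter, since `C` is bounded (`|N x_i| ≤ N M`): `k` ranges over a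
finite set; enumerate it by `Fin m` (`Finset.equivFin`; e.g. `k ∈ Fintype.piFinset (fun _ => Finset.Icc (-L) L)`).
-/

set_option autoImplicit false

open Metric Set Filter Topology

namespace Pool.Agent.E8N

variable {E : Type*} [NormedAddCommGroup E] [InnerProductSpace ℝ E] [FiniteDimensional ℝ E]
variable {K : Set E} {ρ R : ℝ}

theorem col {C : Set E} (hC : IsCompact C) {e : ℝ} (he : 0 < e) :
    ∃ (m : ℕ) (Q : Fin (Module.finrank ℝ E + 1) → Fin m → Set E),
      (∀ j i, IsCompact (Q j i) ∧ Q j i ⊆ C) ∧ (∀ j i i', i ≠ i' → Disjoint (Q j i) (Q j i')) ∧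
      (∀ j i, ∀ x ∈ Q j i, ∀ y ∈ Q j i, ‖x - y‖ ≤ e) ∧ ∀ x ∈ C, ∃ j i, x ∈ Q j i := by
  classical
  obtain ⟨d, hd⟩ : ∃ d : ℕ, d = Module.finrank ℝ E := ⟨_, rfl⟩
  have b := stdOrthonormalBasis ℝ E
  rw [← hd] at b ⊢
  obtain ⟨N, hN⟩ := exists_nat_gt (√(d : ℝ) / e)
  have hN0 : (0 : ℝ) < N := lt_of_le_of_lt (by positivity) hN
  have hNe : √(d : ℝ) / N ≤ e := by
    rw [div_le_iff₀ hN0]
    rw [div_lt_iff₀ he] at hN
    linarith
  obtain ⟨M, hM⟩ := hC.isBounded.exists_norm_le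
  have hD : (0 : ℝ) < (d : ℝ) + 1 := by positivity
  obtain ⟨th, hth⟩ : ∃ th : ℝ, th = 1 / (4 * ((d : ℝ) + 1)) := ⟨_, rfl⟩
  have hth0 : 0 < th := by rw [hth]; positivity
  have hth1 : th * (4 * ((d : ℝ) + 1)) = 1 := by
    rw [hth]
    field_simp
  obtain ⟨L, hL⟩ : ∃ L : ℤ, L = ⌈(N : ℝ) * M⌉ + 1 := ⟨_, rfl⟩
  have hL' : (N : ℝ) * M + 1 ≤ L := by
    rw [hL]
    push_cast
    have := Int.le_ceil ((N : ℝ) * M)
    linarith
  obtain ⟨T, hT⟩ : ∃ T : Finset (Fin d → ℤ), T = Fintype.piFinset (fun _ : Fin d => Finset.Icc (-L) L) :=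
    ⟨_, rfl⟩
  refine ⟨T.card, fun j i => C ∩ {x | ∀ r : Fin d,
    (((T.equivFin.symm i : Fin d → ℤ) r : ℤ) : ℝ) + th ≤ N * inner ℝ (b r) x - ((j : ℕ) : ℝ) / (d + 1) ∧
    N * inner ℝ (b r) x - ((j : ℕ) : ℝ) / (d + 1) ≤
      (((T.equivFin.symm i : Fin d → ℤ) r : ℤ) : ℝ) + 1 - th}, ?_, ?_, ?_, ?_⟩
  · intro j i
    refine ⟨hC.inter_right ?_, Set.inter_subset_left⟩
    rw [Set.ofPred_forall]
    refine isClosed_iInter fun r => ?_
    have hcont : Continuous fun x : E => (N : ℝ) * inner ℝ (b r) x - ((j : ℕ) : ℝ) / (d + 1) := by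
      fun_prop
    exact (isClosed_le continuous_const hcont).inter (isClosed_le hcont continuous_const)
  · intro j i i' hii
    have hk : (T.equivFin.symm i : Fin d → ℤ) ≠ (T.equivFin.symm i' : Fin d → ℤ) := by
      intro h
      exact hii (T.equivFin.symm.injective (Subtype.ext h))
    obtain ⟨r, hr⟩ := Function.ne_iff.mp hk
    rw [Set.disjoint_left]
    rintro x ⟨-, hx⟩ ⟨-, hx'⟩
    have h1 := hx r
    have h2 := hx' r
    rcases lt_or_gt_of_ne hr with h | h
    · have h3 : (((T.equivFin.symm i : Fin d → ℤ) r : ℤ) : ℝ) + 1 ≤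
          (((T.equivFin.symm i' : Fin d → ℤ) r : ℤ) : ℝ) := by exact_mod_cast h
      linarith [h1.2, h2.1]
    · have h3 : (((T.equivFin.symm i' : Fin d → ℤ) r : ℤ) : ℝ) + 1 ≤
          (((T.equivFin.symm i : Fin d → ℤ) r : ℤ) : ℝ) := by exact_mod_cast h
      linarith [h1.1, h2.2]
  · rintro j i x ⟨-, hx⟩ y ⟨-, hy⟩
    have h1 : ∀ r : Fin d, ‖inner ℝ (b r) (x - y)‖ ^ 2 ≤ (1 / (N : ℝ)) ^ 2 := by
      intro r
      refine pow_le_pow_left₀ (norm_nonneg _) ?_ 2
      rw [Real.norm_eq_abs, inner_sub_right, abs_le]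
      have h1 := hx r
      have h2 := hy r
      constructor
      · rw [neg_le_iff_add_nonneg, ← mul_nonneg_iff_of_pos_left hN0]
        have : (N : ℝ) * (inner ℝ (b r) x - inner ℝ (b r) y + 1 / N) =
            N * inner ℝ (b r) x - N * inner ℝ (b r) y + 1 := by
          field_simp
        rw [this]
        linarith [h1.1, h2.2]
      · rw [le_div_iff₀ hN0]
        linarith [h1.2, h2.1]
    have h2 := Finset.sum_le_sum (s := (Finset.univ : Finset (Fin d))) fun r _ => h1 r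
    rw [b.sum_sq_norm_inner_right, Finset.sum_const, Finset.card_univ, Fintype.card_fin,
      nsmul_eq_mul] at h2
    refine le_trans ?_ hNe
    rw [le_div_iff₀ hN0]
    refine Real.le_sqrt_of_sq_le ?_
    have h3 : (d : ℝ) * (1 / (N : ℝ)) ^ 2 * N ^ 2 = d := by
      field_simp
    rw [← h3, mul_pow]
    exact mul_le_mul_of_nonneg_right h2 (by positivity)
  · intro x hx
    have hgood : ∃ j : Fin (d + 1), ∀ r : Fin d, ∀ z : ℤ,
        th ≤ |(N : ℝ) * inner ℝ (b r) x - ((j : ℕ) : ℝ) / (d + 1) - z| := by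
      by_contra hcon
      push Not at hcon
      choose f g hfg using hcon
      obtain ⟨j, j', hjj, hff⟩ := Fintype.exists_ne_map_eq_of_card_lt f (by simp)
      have h1 := hfg j
      have h2 := hfg j'
      rw [← hff] at h2
      have h3 : |(((j' : ℕ) : ℝ) - ((j : ℕ) : ℝ)) / (d + 1) - (((g j : ℤ) : ℝ) - ((g j' : ℤ) : ℝ))| <
          2 * th := by
        rw [abs_lt] at h1 h2 ⊢
        rw [sub_div]
        constructor <;> linarith [h1.1, h1.2, h2.1, h2.2]
      have h4 : |(((((j' : ℕ) : ℤ) - ((j : ℕ) : ℤ)) - ((d : ℤ) + 1) * (g j - g j') : ℤ) : ℝ)| < 1 := by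
        push_cast
        have h5 : (((j' : ℕ) : ℝ) - ((j : ℕ) : ℝ)) - ((d : ℝ) + 1) * (((g j : ℤ) : ℝ) - ((g j' : ℤ) : ℝ)) =
            ((((j' : ℕ) : ℝ) - ((j : ℕ) : ℝ)) / (d + 1) - (((g j : ℤ) : ℝ) - ((g j' : ℤ) : ℝ))) *
              ((d : ℝ) + 1) := by
          field_simp
        rw [h5, abs_mul, abs_of_pos hD]
        have h6 := mul_lt_mul_of_pos_right h3 hD
        linarith
      have h5 : (((j' : ℕ) : ℤ) - ((j : ℕ) : ℤ)) - ((d : ℤ) + 1) * (g j - g j') = 0 := by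
        rw [← Int.abs_lt_one_iff]
        exact_mod_cast h4
      have hj := j.2
      have hj' := j'.2
      have h6 : g j - g j' = 0 := by
        by_contra hne
        have h7 : 1 ≤ |g j - g j'| := Int.one_le_abs hne
        have h8 : |((d : ℤ) + 1) * (g j - g j')| = |((j' : ℕ) : ℤ) - ((j : ℕ) : ℤ)| := by
          congr 1
          linarith
        rw [abs_mul, abs_of_nonneg (by positivity)] at h8
        have h9 : |((j' : ℕ) : ℤ) - ((j : ℕ) : ℤ)| ≤ d := by
          rw [abs_le]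
          constructor <;> omega
        nlinarith
      rw [h6, mul_zero, sub_zero] at h5
      exact hjj (Fin.ext (by omega))
    obtain ⟨j, hj⟩ := hgood
    obtain ⟨k, hk⟩ : ∃ k : Fin d → ℤ, k = fun r => ⌊(N : ℝ) * inner ℝ (b r) x - ((j : ℕ) : ℝ) / (d + 1)⌋ :=
      ⟨_, rfl⟩
    have hjd : ((j : ℕ) : ℝ) / (d + 1) ≤ 1 := by
      rw [div_le_one hD]
      have := j.2
      have h : ((j : ℕ) : ℝ) < (d : ℝ) + 1 := by exact_mod_cast this
      exact h.le
    have hjd0 : 0 ≤ ((j : ℕ) : ℝ) / ((d : ℝ) + 1) := by positivity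
    have hkT : k ∈ T := by
      rw [hT, Fintype.mem_piFinset]
      intro r
      have h1 : |inner ℝ (b r) x| ≤ M := by
        have h2 := abs_real_inner_le_norm (b r) x
        rw [b.norm_eq_one, one_mul] at h2
        exact h2.trans (hM x hx)
      rw [abs_le] at h1
      have h2 := mul_le_mul_of_nonneg_left h1.1 hN0.le
      have h3 := mul_le_mul_of_nonneg_left h1.2 hN0.le
      rw [Finset.mem_Icc, hk]
      constructor
      · rw [Int.le_floor]
        push_cast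
        linarith
      · have h4 := Int.floor_le ((N : ℝ) * inner ℝ (b r) x - ((j : ℕ) : ℝ) / (d + 1))
        have h5 : ((⌊(N : ℝ) * inner ℝ (b r) x - ((j : ℕ) : ℝ) / (d + 1)⌋ : ℤ) : ℝ) ≤ (L : ℝ) := by
          linarith
        exact_mod_cast h5
    refine ⟨j, T.equivFin ⟨k, hkT⟩, hx, fun r => ?_⟩
    rw [Equiv.symm_apply_apply]
    have h1 := hj r ⌊(N : ℝ) * inner ℝ (b r) x - ((j : ℕ) : ℝ) / (d + 1)⌋
    have h2 := hj r (⌊(N : ℝ) * inner ℝ (b r) x - ((j : ℕ) : ℝ) / (d + 1)⌋ + 1)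
    have h3 := Int.floor_le ((N : ℝ) * inner ℝ (b r) x - ((j : ℕ) : ℝ) / (d + 1))
    have h4 := Int.lt_floor_add_one ((N : ℝ) * inner ℝ (b r) x - ((j : ℕ) : ℝ) / (d + 1))
    push_cast at h2
    rw [abs_of_nonneg (by linarith)] at h1
    rw [abs_of_nonpos (by linarith)] at h2
    show ((k r : ℤ) : ℝ) + th ≤ _ ∧ _ ≤ ((k r : ℤ) : ℝ) + 1 - th
    rw [hk]
    constructor <;> linarith

end Pool.Agent.E8N
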