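import Pool.Agent.E8N.NApC

/-!
# E8N NDFacts

The inner parallel body `DD K s = {p | closedBall p s ⊆ K}`.
* `DD_compact`: closed (if `p_k → p`, `z ∈ closedBall p s`, then `z + (p_k - p) ∈ closedBall p_k s ⊆ K` and `K` is closed) and contained in `K` (compact).
* `DD_convex`: `z ∈ closedBall (αp + βq) s`, `v = z - (αp + βq)`, `z = α(p + v) + β(q + v)`.
* `DD_sub`: `ball p s ⊆ K` is an open neighbourhood of `p`.
* `DD_zero`: for `‖p‖ ≤ ρ - s` the ball `closedBall p s ⊆ closedBall 0 ρ ⊆ K`.
* `DD_fr`: `p ∈ frontier (DD K s) ⊆ DD K s` (closed). If `infDist p (frontier K) > s`, then `closedBall p s` misses `frontier K`, so is contained in `interior K`; by compactness (`IsCompact.exists_cthickening_subset_open` or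
  `exists_thickening_subset_open`) `closedBall p (s + η) ⊆ K` for some `η > 0` (`cthickening`/`thickening` of a closed ball in a normed space, or argue directly by contradiction with sequences), so `ball p η ⊆ DD K s` and `p ∈ interior (DD K s)`: contradiction.
-/

set_option autoImplicit false

open Metric Set Filter Topology

namespace Pool.Agent.E8N

variable {E : Type*} [NormedAddCommGroup E] [InnerProductSpace ℝ E] [FiniteDimensional ℝ E]
variable {K : Set E} {ρ R : ℝ}

theorem DD_compact (hK : Body K ρ R) {s : ℝ} (hs : 0 < s) : IsCompact (DD K s) := by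
  have hsub : DD K s ⊆ K := fun p hp => hp (mem_closedBall_self hs.le)
  refine hK.cpt.of_isClosed_subset ?_ hsub
  have h1 : DD K s = ⋂ v ∈ closedBall (0 : E) s, {p : E | p + v ∈ K} := by
    ext p
    rw [mem_iInter₂]
    constructor
    · intro hp v hv
      apply hp
      rw [mem_closedBall_zero_iff] at hv
      rw [mem_closedBall, dist_eq_norm, add_sub_cancel_left]
      exact hv
    · intro h z hz
      rw [mem_closedBall, dist_eq_norm] at hz
      have h2 := h (z - p) (by rw [mem_closedBall_zero_iff]; exact hz)
      rw [mem_ofPred_eq, add_sub_cancel] at h2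
      exact h2
  rw [h1]
  refine isClosed_biInter (fun v _ => ?_)
  exact hK.cpt.isClosed.preimage (continuous_id.add continuous_const)

theorem DD_convex (hK : Body K ρ R) {s : ℝ} : Convex ℝ (DD K s) := by
  intro p hp q hq a b ha hb hab z hz
  rw [mem_closedBall, dist_eq_norm] at hz
  have h1 : p + (z - (a • p + b • q)) ∈ K := by
    apply hp
    rw [mem_closedBall, dist_eq_norm, add_sub_cancel_left]
    exact hz
  have h2 : q + (z - (a • p + b • q)) ∈ K := by
    apply hq
    rw [mem_closedBall, dist_eq_norm, add_sub_cancel_left]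
    exact hz
  have h3 := hK.conv h1 h2 ha hb hab
  have h4 : a • (p + (z - (a • p + b • q))) + b • (q + (z - (a • p + b • q))) = z := by
    have h5 : a • (p + (z - (a • p + b • q))) + b • (q + (z - (a • p + b • q))) =
        (a + b) • z + (1 - (a + b)) • (a • p + b • q) := by module
    rw [h5, hab]
    simp
  rw [h4] at h3
  exact h3

theorem DD_sub {s : ℝ} (hs : 0 < s) : DD K s ⊆ interior K := by
  intro p hp
  rw [mem_interior]
  exact ⟨ball p s, ball_subset_closedBall.trans hp, isOpen_ball, mem_ball_self hs⟩

theorem DD_zero (hK : Body K ρ R) {s : ℝ} (hs : 0 < s) (h : s < ρ) : (0 : E) ∈ interior (DD K s) := by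
  rw [mem_interior]
  refine ⟨ball 0 (ρ - s), ?_, isOpen_ball, mem_ball_self (by linarith)⟩
  intro p hp z hz
  rw [mem_ball_zero_iff] at hp
  rw [mem_closedBall, dist_eq_norm] at hz
  apply hK.ball
  rw [mem_closedBall_zero_iff]
  have h1 : ‖z‖ ≤ ‖z - p‖ + ‖p‖ := by
    have h2 := norm_add_le (z - p) p
    rw [sub_add_cancel] at h2
    exact h2
  linarith

theorem DD_fr (hK : Body K ρ R) (hd : 4 ≤ Module.finrank ℝ E) {s : ℝ} (hs : 0 < s) {p : E}
    (hp : p ∈ frontier (DD K s)) : infDist p (frontier K) ≤ s := by
  by_contra hlt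
  push Not at hlt
  have hcl : IsClosed (DD K s) := (DD_compact hK hs).isClosed
  have hpD : p ∈ DD K s := hcl.frontier_subset hp
  have hint : closedBall p s ⊆ interior K := by
    intro z hz
    by_contra hzi
    have hzf : z ∈ frontier K := by
      rw [frontier, Set.mem_sdiff]
      exact ⟨subset_closure (hpD hz), hzi⟩
    have h1 := infDist_le_dist_of_mem (x := p) hzf
    rw [mem_closedBall, dist_comm] at hz
    linarith
  obtain ⟨η, hη, hsub⟩ := (isCompact_closedBall p s).exists_thickening_subset_open
    isOpen_interior hint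
  have hpi : p ∈ interior (DD K s) := by
    rw [mem_interior]
    refine ⟨ball p η, ?_, isOpen_ball, mem_ball_self hη⟩
    intro q hq z hz
    apply interior_subset
    apply hsub
    rw [mem_thickening_iff]
    refine ⟨p + (z - q), ?_, ?_⟩
    · rw [mem_closedBall, dist_eq_norm, add_sub_cancel_left]
      rw [mem_closedBall, dist_eq_norm] at hz
      exact hz
    · rw [mem_ball, dist_eq_norm] at hq
      rw [dist_eq_norm]
      have h2 : z - (p + (z - q)) = q - p := by abel
      rw [h2]
      exact hq
  rw [frontier, Set.mem_sdiff] at hp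
  exact hp.2 hpi

end Pool.Agent.E8N
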