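import Pool.Agent.E8N.NCls
import Pool.Agent.E8N.NCmpU

/-!
# E8N NS12

Transfer of `NearP.n3` and `NearP.n4` to nearly middle labels.
* `s1`. Suppose not: `p_k ∈ O`, `infDist p_k (Ap K) ≤ r`, `Cls K O (1/(k+1)) p_k X_k Y_k`, `mn K p_k + a ≤ F p_k X_k`, no `u`. Subsequence `p_k → p₀`; `cls_lim`: `p₀ ∈ O`, `MidXY K p₀ x₀ y₀`, `X_k → x₀`, `Y_k → y₀`, `dl K p₀ ≤ cl K p₀`. In the limit `infDist p₀ (Ap K) ≤ r`,
  `mn K p₀ + a ≤ F p₀ x₀ < cl K p₀ ≤ F p₀ y₀`, `y₀ ∈ Crit K p₀` (`mid_facts`). `NearP.n3` at `p₀, y₀` gives `u` (`SepU K p₀ u (Lo K (4r) p₀) y₀ 0`); `cmpU` (with `s = 4r`, `ε = 0`) gives `η > 0`; for large `k` (`‖p_k - p₀‖, ‖Y_k - y₀‖ ≤ η`) this `u` works for `p_k, Y_k`: contradiction.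
* `s2`. Same with `mn K p₀ + a ≤ F p₀ x₀ ≤ mn K p₀ + 2γ` and `NearP.n4` at `p₀` (`SepU K p₀ u (Lo K δ p₀) y₀ ε`, `ε > 0`), `cmpU` with `s = δ`, `ε = 0` (using only `y = y₀`).
-/

set_option autoImplicit false

open Metric Set Filter Topology

namespace Pool.Agent.E8N

variable {E : Type*} [NormedAddCommGroup E] [InnerProductSpace ℝ E] [FiniteDimensional ℝ E]
variable {K : Set E} {ρ R : ℝ}

theorem s12_sub {O : Set E} (hOm : O ⊆ Om K) {p : E} (hp : p ∈ O) : p ∈ K := interior_subset (hOm hp).1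

theorem s12_gen (hK : Body K ρ R) (h7 : AtMost7 K) (hd : 4 ≤ Module.finrank ℝ E) {s a b r : ℝ}
    {O : Set E} (hO : IsCompact O) (hOm : O ⊆ Om K)
    (H : ∀ p ∈ O, infDist p (Ap K) ≤ r → dl K p ≤ cl K p → ∀ x y, MidXY K p x y → mn K p + a ≤ F p x →
      F p x ≤ mn K p + b → ∃ u, SepU K p u (Lo K s p) y 0) :
    ∃ η₀ > 0, ∀ p ∈ O, infDist p (Ap K) ≤ r → ∀ X Y, Cls K O η₀ p X Y → mn K p + a ≤ F p X →
      F p X ≤ mn K p + b →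
      ∃ u : E, (∀ x ∈ Lo K s p, inner ℝ u (dir p x) < 0) ∧ 0 < inner ℝ u (dir p Y) := by
  by_contra hcon
  push Not at hcon
  have hseq : ∀ k : ℕ, ∃ p ∈ O, infDist p (Ap K) ≤ r ∧ ∃ X Y, Cls K O (1 / ((k : ℝ) + 1)) p X Y ∧
      mn K p + a ≤ F p X ∧ F p X ≤ mn K p + b ∧
      ∀ u : E, (∀ x ∈ Lo K s p, inner ℝ u (dir p x) < 0) → inner ℝ u (dir p Y) ≤ 0 := by
    intro k
    obtain ⟨p, hp, hpr, X, Y, hXY, h1, h2, h3⟩ := hcon (1 / ((k : ℝ) + 1)) (by positivity)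
    exact ⟨p, hp, hpr, X, Y, hXY, h1, h2, h3⟩
  choose p hpO hpr X Y hcls ha hb hu using hseq
  obtain ⟨p₀, hp₀, φ, hφ, hlim⟩ := hO.tendsto_subseq hpO
  have hη : Tendsto (fun k : ℕ => 1 / ((k : ℝ) + 1)) atTop (𝓝 0) := tendsto_one_div_add_atTop_nhds_zero_nat
  have hηφ : Tendsto (fun k : ℕ => 1 / (((φ k : ℕ) : ℝ) + 1)) atTop (𝓝 0) :=
    hη.comp hφ.tendsto_atTop
  have hlim' : Tendsto (fun k => p (φ k)) atTop (𝓝 p₀) := hlim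
  obtain ⟨_, hcd, x₀, y₀, hMid, hX, hY⟩ := cls_lim hK h7 hd hO hOm (p := fun k => p (φ k))
    (X := fun k => X (φ k)) (Y := fun k => Y (φ k)) hηφ (fun k => hpO _) hlim' (fun k => hcls _)
  have hr0 : infDist p₀ (Ap K) ≤ r := by
    have h1 : Tendsto (fun k => infDist (p (φ k)) (Ap K)) atTop (𝓝 (infDist p₀ (Ap K))) :=
      ((continuous_infDist_pt (Ap K)).tendsto p₀).comp hlim'
    exact le_of_tendsto' h1 (fun k => hpr _)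
  have hFl := F_lim hlim' hX
  have hml := mn_lim hK hlim'
  have ha0 : mn K p₀ + a ≤ F p₀ x₀ :=
    le_of_tendsto_of_tendsto' (hml.add_const a) hFl (fun k => ha _)
  have hb0 : F p₀ x₀ ≤ mn K p₀ + b :=
    le_of_tendsto_of_tendsto' hFl (hml.add_const b) (fun k => hb _)
  obtain ⟨u, hu1, hu2⟩ := H p₀ hp₀ hr0 hcd x₀ y₀ hMid ha0 hb0
  obtain ⟨η, hη0, hη1⟩ := cmpU hK (s12_sub hOm hp₀) hu1 hu2
  have e1 : ∀ᶠ k in atTop, ‖p (φ k) - p₀‖ ≤ η := by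
    have := hlim'.eventually (closedBall_mem_nhds p₀ hη0)
    filter_upwards [this] with k hk
    rwa [dist_eq_norm] at hk
  have e2 : ∀ᶠ k in atTop, ‖Y (φ k) - y₀‖ ≤ η := by
    have := hY.eventually (closedBall_mem_nhds y₀ hη0)
    filter_upwards [this] with k hk
    rwa [dist_eq_norm] at hk
  obtain ⟨k, hk1, hk2⟩ := (e1.and e2).exists
  have hYS : Y (φ k) ∈ S K := (hcls (φ k)).2.1
  have hsep := hη1 (p (φ k)) (s12_sub hOm (hpO _)) hk1 (Y (φ k)) hYS hk2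
  have h1 := hsep.2 (Y (φ k)) hYS (by rw [sub_self, norm_zero]; linarith)
  have h2 := hu (φ k) u (fun x hx => hsep.1 x (Lo_mono (by linarith) hx))
  linarith

theorem s1 (hK : Body K ρ R) (h7 : AtMost7 K) (hd : 4 ≤ Module.finrank ℝ E) {δ ε γ a r : ℝ}
    (hN : NearP K δ ε γ a r) {O : Set E} (hO : IsCompact O) (hOm : O ⊆ Om K) :
    ∃ η₀ > 0, ∀ p ∈ O, infDist p (Ap K) ≤ r → ∀ X Y, Cls K O η₀ p X Y → mn K p + a ≤ F p X →
      ∃ u : E, (∀ x ∈ Lo K (4 * r) p, inner ℝ u (dir p x) < 0) ∧ 0 < inner ℝ u (dir p Y) := by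
  obtain ⟨η₀, hη₀, h⟩ := s12_gen hK h7 hd (s := 4 * r) (a := a) (b := 2 * R + 1) (r := r) hO hOm
    (fun p hp hpr hcd x y hM hx _ => by
      obtain ⟨Al, Am, Bl, Bm, hMid⟩ := hM
      obtain ⟨_, hy, h1, h2, _⟩ := mid_facts hK h7 hd (hOm hp) hcd hMid
      exact hN.n3 p (s12_sub hOm hp) hpr y hy (by linarith))
  refine ⟨η₀, hη₀, fun p hp hpr X Y hXY hX => h p hp hpr X Y hXY hX ?_⟩
  have hpK : p ∈ K := s12_sub hOm hp
  have h1 := S_bound hK hXY.1 hpK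
  obtain ⟨z, hz, hz1⟩ := Lo_nonempty hK hd p
  have h2 := one_le_F hK hz hpK
  linarith

theorem s2 (hK : Body K ρ R) (h7 : AtMost7 K) (hd : 4 ≤ Module.finrank ℝ E) {δ ε γ a r : ℝ}
    (hN : NearP K δ ε γ a r) {O : Set E} (hO : IsCompact O) (hOm : O ⊆ Om K) :
    ∃ η₀ > 0, ∀ p ∈ O, infDist p (Ap K) ≤ r → ∀ X Y, Cls K O η₀ p X Y → mn K p + a ≤ F p X →
      F p X ≤ mn K p + 2 * γ →
      ∃ u : E, (∀ x ∈ Lo K δ p, inner ℝ u (dir p x) < 0) ∧ 0 < inner ℝ u (dir p Y) := by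
  refine s12_gen hK h7 hd (s := δ) (a := a) (b := 2 * γ) (r := r) hO hOm ?_
  intro p hp hpr hcd x y hM hx hx2
  obtain ⟨u, hu⟩ := hN.n4 p (hOm hp) hcd hpr x y hM hx hx2
  exact ⟨u, SepU_mono hu Subset.rfl hN.hε.le⟩

end Pool.Agent.E8N
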