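import Pool.Agent.E8N.NCls

set_option autoImplicit false

open Metric Set Filter Topology

namespace Pool.Agent.E8N

variable {E : Type*} [NormedAddCommGroup E] [InnerProductSpace ℝ E] [FiniteDimensional ℝ E]
variable {K : Set E} {ρ R : ℝ}

theorem stripA (hK : Body K ρ R) (h7 : AtMost7 K) (hd : 4 ≤ Module.finrank ℝ E) {O : Set E} (hO : IsCompact O)
    (hOm : O ⊆ Om K) {η : ℝ} (hη : 0 < η) :
    ∃ ω₀ > 0, ∃ X Y : E → E, ContinuousOn X {p | p ∈ O ∧ dl K p - cl K p ≤ ω₀} ∧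
      ContinuousOn Y {p | p ∈ O ∧ dl K p - cl K p ≤ ω₀} ∧
      ∀ p ∈ O, dl K p - cl K p ≤ ω₀ → Cls K O η p (X p) (Y p) := by
  classical
  have hcl : ContinuousOn (cl K) O := (cl_cont hK h7 hd).mono hOm
  have hdl : ContinuousOn (dl K) O := (dl_cont hK h7 hd).mono hOm
  set T₀ : Set E := {p | p ∈ O ∧ dl K p ≤ cl K p} with hT₀
  have hT₀c : IsClosed T₀ := by
    have h1 : ContinuousOn (fun p => dl K p - cl K p) O := hdl.sub hcl
    have h2 := h1.preimage_isClosed_of_isClosed hO.isClosed (isClosed_Iic (a := (0 : ℝ)))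
    have h3 : T₀ = O ∩ (fun p => dl K p - cl K p) ⁻¹' Iic 0 := by
      ext p
      simp only [hT₀, mem_setOf_eq, mem_inter_iff, mem_preimage, mem_Iic, sub_nonpos]
    rw [h3]
    exact h2
  have hex : ∀ p : E, ∃ x y : E, p ∈ T₀ → MidXY K p x y := by
    intro p
    by_cases hp : p ∈ T₀
    · obtain ⟨Al, Am, Bl, Bm, x, y, h⟩ := mid_exists hK h7 hd (hOm hp.1) hp.2
      exact ⟨x, y, fun _ => ⟨Al, Am, Bl, Bm, h⟩⟩
    · exact ⟨0, 0, fun h => absurd h hp⟩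
  choose x₀ y₀ hxy using hex
  have hseq : ∀ p₀ ∈ T₀, ∀ p : ℕ → E, (∀ k, p k ∈ T₀) → Tendsto p atTop (𝓝 p₀) →
      Tendsto (fun k => x₀ (p k)) atTop (𝓝 (x₀ p₀)) ∧ Tendsto (fun k => y₀ (p k)) atTop (𝓝 (y₀ p₀)) := by
    intro p₀ hp₀ p hp hlim
    exact mid_lim' hK h7 hd (fun k => hOm (hp k).1) (fun k => (hp k).2) (hOm hp₀.1) hlim
      (fun k => hxy (p k) (hp k)) (hxy p₀ hp₀)
  have hcx : ContinuousOn x₀ T₀ ∧ ContinuousOn y₀ T₀ := by
    have key : ∀ f : E → E, (∀ p₀ ∈ T₀, ∀ p : ℕ → E, (∀ k, p k ∈ T₀) → Tendsto p atTop (𝓝 p₀) →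
        Tendsto (fun k => f (p k)) atTop (𝓝 (f p₀))) → ContinuousOn f T₀ := by
      intro f hf
      rw [continuousOn_iff_continuous_restrict]
      rw [continuous_iff_seqContinuous]
      intro u a hu
      exact hf a a.2 (fun k => (u k : E)) (fun k => (u k).2) ((continuous_subtype_val.tendsto a).comp hu)
    exact ⟨key x₀ (fun p₀ hp₀ p hp hlim => (hseq p₀ hp₀ p hp hlim).1),
      key y₀ (fun p₀ hp₀ p hp hlim => (hseq p₀ hp₀ p hp hlim).2)⟩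
  obtain ⟨G, hG, hGx⟩ := tietze hT₀c hcx.1
  obtain ⟨G', hG', hGy⟩ := tietze hT₀c hcx.2
  have hS : ∀ p ∈ T₀, x₀ p ∈ S K ∧ y₀ p ∈ S K := by
    intro p hp
    obtain ⟨Al, Am, Bl, Bm, h⟩ := hxy p hp
    obtain ⟨h1, h2, _⟩ := mid_facts hK h7 hd (hOm hp.1) hp.2 h
    exact ⟨h1.1, h2.1⟩
  have hKo : IsOpen Kᶜ := hK.cpt.isClosed.isOpen_compl
  have hclaim : ∃ ω₀ > 0, ∀ p ∈ O, dl K p - cl K p ≤ ω₀ → ∃ q ∈ T₀, ‖p - q‖ ≤ η ∧ G p ∉ K ∧ G' p ∉ K ∧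
      ‖ret K (G p) - x₀ q‖ ≤ η ∧ ‖ret K (G' p) - y₀ q‖ ≤ η := by
    by_contra hcon
    push Not at hcon
    have hk : ∀ k : ℕ, ∃ p ∈ O, dl K p - cl K p ≤ 1 / ((k : ℝ) + 1) ∧ ∀ q ∈ T₀, ‖p - q‖ ≤ η → G p ∉ K → G' p ∉ K →
        ‖ret K (G p) - x₀ q‖ ≤ η → η < ‖ret K (G' p) - y₀ q‖ := by
      intro k
      exact hcon _ Nat.one_div_pos_of_nat
    choose p hp hpd hno using hk
    obtain ⟨p₀, hp₀, φ, hφ, hlim⟩ := hO.tendsto_subseq hp
    have hη0 : Tendsto (fun k : ℕ => 1 / (((φ k : ℕ) : ℝ) + 1)) atTop (𝓝 0) :=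
      (tendsto_one_div_add_atTop_nhds_zero_nat (𝕜 := ℝ)).comp hφ.tendsto_atTop
    have hwi : Tendsto (p ∘ φ) atTop (𝓝[O] p₀) :=
      tendsto_nhdsWithin_iff.2 ⟨hlim, Filter.Eventually.of_forall fun k => hp (φ k)⟩
    have hd0 : dl K p₀ - cl K p₀ ≤ 0 :=
      le_of_tendsto_of_tendsto' ((((hdl.sub hcl) p₀ hp₀).tendsto).comp hwi) hη0 (fun k => hpd (φ k))
    have hp₀T : p₀ ∈ T₀ := ⟨hp₀, by linarith⟩
    obtain ⟨hxS, hyS⟩ := hS p₀ hp₀T
    have hGl : Tendsto (fun k => G (p (φ k))) atTop (𝓝 (x₀ p₀)) := by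
      rw [← hGx p₀ hp₀T]
      exact (hG.tendsto p₀).comp hlim
    have hG'l : Tendsto (fun k => G' (p (φ k))) atTop (𝓝 (y₀ p₀)) := by
      rw [← hGy p₀ hp₀T]
      exact (hG'.tendsto p₀).comp hlim
    have hr : ∀ z ∈ S K, ContinuousAt (ret K) z := fun z hz =>
      (ret_cont hK).continuousAt (hKo.mem_nhds (S_disj hK hz))
    have hrl : Tendsto (fun k => ret K (G (p (φ k)))) atTop (𝓝 (x₀ p₀)) := by
      have := (hr _ hxS).tendsto.comp hGl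
      rwa [ret_of_mem hK hxS] at this
    have hrl' : Tendsto (fun k => ret K (G' (p (φ k)))) atTop (𝓝 (y₀ p₀)) := by
      have := (hr _ hyS).tendsto.comp hG'l
      rwa [ret_of_mem hK hyS] at this
    have e1 : ∀ᶠ k in atTop, ‖p (φ k) - p₀‖ ≤ η := by
      have := (hlim.sub_const p₀).norm
      rw [sub_self, norm_zero] at this
      exact (this.eventually_lt_const hη).mono fun k hk => le_of_lt hk
    have e2 : ∀ᶠ k in atTop, G (p (φ k)) ∉ K := hGl.eventually (hKo.mem_nhds (S_disj hK hxS))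
    have e3 : ∀ᶠ k in atTop, G' (p (φ k)) ∉ K := hG'l.eventually (hKo.mem_nhds (S_disj hK hyS))
    have e4 : ∀ᶠ k in atTop, ‖ret K (G (p (φ k))) - x₀ p₀‖ ≤ η := by
      have := (hrl.sub_const (x₀ p₀)).norm
      rw [sub_self, norm_zero] at this
      exact (this.eventually_lt_const hη).mono fun k hk => le_of_lt hk
    have e5 : ∀ᶠ k in atTop, ‖ret K (G' (p (φ k))) - y₀ p₀‖ ≤ η := by
      have := (hrl'.sub_const (y₀ p₀)).norm
      rw [sub_self, norm_zero] at this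
      exact (this.eventually_lt_const hη).mono fun k hk => le_of_lt hk
    obtain ⟨k, h1, h2, h3, h4, h5⟩ := (e1.and (e2.and (e3.and (e4.and e5)))).exists
    exact absurd h5 (not_le.2 (hno (φ k) p₀ hp₀T h1 h2 h3 h4))
  obtain ⟨ω₀, hω₀, hcl'⟩ := hclaim
  refine ⟨ω₀, hω₀, fun p => ret K (G p), fun p => ret K (G' p), ?_, ?_, ?_⟩
  · refine (ret_cont hK).comp hG.continuousOn ?_
    intro p hp
    obtain ⟨q, _, _, h, _⟩ := hcl' p hp.1 hp.2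
    exact h
  · refine (ret_cont hK).comp hG'.continuousOn ?_
    intro p hp
    obtain ⟨q, _, _, _, h, _⟩ := hcl' p hp.1 hp.2
    exact h
  · intro p hp hpd
    obtain ⟨q, hq, h1, h2, h3, h4, h5⟩ := hcl' p hp hpd
    exact ⟨ret_mem hK h2, ret_mem hK h3, q, hq.1, hq.2, h1, x₀ q, y₀ q, hxy q hq, h4, h5⟩

end Pool.Agent.E8N
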