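import Pool.Agent.E8N.NXi
import Pool.Agent.E8N.NStripA
import Pool.Agent.E8N.NS12
import Pool.Agent.E8N.NSets

/-!
# E8N NData

Assembly of `Data`. `O = O1 K r r₂` (`O1_compact`, `O1_sub`), `θ = (a + γ)/2`, `A = {p | infDist p (Ap K) ≤ r}` (closed), `η₃ = 4 r`. Take `η` = minimum of: the `η₀` of `s0` (with its `κ'`), `s1`, `s2`, `s4` (with `η' = min ((γ - θ)/2) ...`, precisely `η' < min (γ - θ) θ`, `η' ≤ γ`), `xi`, and `r₂`, `ε₂`. `stripA` with this `η`: `ω₀, X, Y`. `ω := min (min ω₀ κ) δ`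
(positive). On `St` and on `{p ∈ O | dl - cl ≤ ω}` (the same set) `X, Y` are continuous (`ContinuousOn.mono`), `Cls K O η p (X p) (Y p)`. `xi` gives `ξ`. Fields (`cls_mono` everywhere):
`l1, l2`: `s0`. `l3`: `F p (ξ p) < cl + ω/2 ≤ cl + ω ≤ dl < F p (Y p)` (`s0`). `l4`: `ω ≤ κ`. `e1`: `p ∈ Cc ∩ St` means `dl - cl = ω`. `d1`: `p ∈ Cc`, `infDist p (Ap K) ≤ r`; take `Mins K p lo hi` (`mins_exists`). If `mn + γ ≤ F p hi`: `‖ξ p - lo‖ ≤ 4r`, so `F p (ξ p) ≤ mn + 4r ≤ mn + δ`. Otherwise `F p hi ≤ mn + γ`, by `n2`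
`cl < mn + δ/2`, so `F p (ξ p) < mn + δ/2 + ω/2 ≤ mn + δ`. `d2`: `p ∈ St`, `infDist ≤ r`, `mn + θ ≤ F p (X p)`; take `Mins K p lo hi`. By `s4`: `‖X p - lo‖ ≤ η'` would give `F p (X p) ≤ mn + η' < mn + θ`; so `|F p (X p) - F p hi| ≤ η'`. Case `F p hi < mn + γ`: `F p (X p) ≤ mn + γ + η' ≤ mn + 2γ`, `θ ≥ a`; `s2` gives `u` (negative on `Lo K δ p`);
`Lo K (4r) p ⊆ Lo K δ p`; `ξ p ∈ Lo K δ p` by `d1`; `X p ∈ Lo K δ p` if `F p (X p) ≤ mn + θ` (`θ ≤ γ ≤ δ`). Case `mn + γ ≤ F p hi`: `s1` gives `u` (negative on `Lo K (4r) p`); if `p ∈ Cc`: `‖ξ p - lo‖ ≤ 4r` so `ξ p ∈ Lo K (4r) p`; `F p (X p) ≤ mn + θ` is impossible (`F p (X p) ≥ F p hi - η' ≥ mn + γ - η' > mn + θ`).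
`y2`: `Cls` gives `q₀ ∈ O`, `dl ≤ cl`, `‖p - q₀‖ ≤ η ≤ r₂`, `MidXY K q₀ x y₀`, `‖Y p - y₀‖ ≤ η ≤ ε₂`; for `q ∈ B1`, `‖p - q‖ ≤ 2 r₂`: `‖q₀ - q‖ ≤ 3 r₂`, `b2` gives `‖y₀ - y‖ ≤ ε₂`.
-/

set_option autoImplicit false

open Metric Set Filter Topology

namespace Pool.Agent.E8N

variable {E : Type*} [NormedAddCommGroup E] [InnerProductSpace ℝ E] [FiniteDimensional ℝ E]
variable {K : Set E} {ρ R : ℝ}

theorem data (hK : Body K ρ R) (h7 : AtMost7 K) (hd : 4 ≤ Module.finrank ℝ E) {δ ε γ a r r₂ ε₂ κ : ℝ}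
    (hN : NearP K δ ε γ a r) (hB : NearB K r r₂ ε₂ κ) :
    ∃ ω X Y ξ, Data K δ ε γ a r r₂ ε₂ κ ω X Y ξ := by
  have hO : IsCompact (O1 K r r₂) := O1_compact hK hN.hr
  have hOm : O1 K r r₂ ⊆ Om K := O1_sub hK hN.hr hB.hr₂
  have ha := hN.ha
  have haγ := hN.haγ
  have hγδ := hN.hγδ
  have hr := hN.hr
  have hrδ := hN.hrδ
  have hδ := hN.hδ
  have hκ := hB.hκ
  obtain ⟨θ, hθ⟩ : ∃ θ : ℝ, θ = (a + γ) / 2 := ⟨_, rfl⟩
  have hθγ : θ < γ := by rw [hθ]; linarith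
  have haθ : a < θ := by rw [hθ]; linarith
  have hγ : 0 < γ := by linarith
  obtain ⟨η', hη'⟩ : ∃ η' : ℝ, η' = min ((γ - θ) / 2) (θ / 2) := ⟨_, rfl⟩
  have hη'0 : 0 < η' := by rw [hη']; exact lt_min (by linarith) (by linarith)
  have hη'1 : η' ≤ (γ - θ) / 2 := by rw [hη']; exact min_le_left _ _
  have hη'2 : η' ≤ θ / 2 := by rw [hη']; exact min_le_right _ _
  obtain ⟨κ', hκ', e0, he0, h0⟩ := s0 hK h7 hd hO hOm
  obtain ⟨e1, he1, h1⟩ := s1 hK h7 hd hN hO hOm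
  obtain ⟨e2, he2, h2⟩ := s2 hK h7 hd hN hO hOm
  obtain ⟨e4, he4, h4⟩ := s4 hK h7 hd hO hOm hη'0
  have hAcl : IsClosed {p : E | infDist p (Ap K) ≤ r} :=
    isClosed_le (continuous_infDist_pt _) continuous_const
  obtain ⟨e5, he5, h5⟩ := xi hK h7 hd hO hOm hAcl hθγ hγ (η₃ := 4 * r) (by linarith)
  obtain ⟨η, hη⟩ : ∃ η : ℝ, η = min (min (min e0 e1) (min e2 e4)) (min e5 (min r₂ ε₂)) := ⟨_, rfl⟩
  have hη0 : 0 < η := by
    rw [hη]
    exact lt_min (lt_min (lt_min he0 he1) (lt_min he2 he4)) (lt_min he5 (lt_min hB.hr₂ hB.hε₂))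
  have hηe0 : η ≤ e0 := by
    rw [hη]; exact (min_le_left _ _).trans ((min_le_left _ _).trans (min_le_left _ _))
  have hηe1 : η ≤ e1 := by
    rw [hη]; exact (min_le_left _ _).trans ((min_le_left _ _).trans (min_le_right _ _))
  have hηe2 : η ≤ e2 := by
    rw [hη]; exact (min_le_left _ _).trans ((min_le_right _ _).trans (min_le_left _ _))
  have hηe4 : η ≤ e4 := by
    rw [hη]; exact (min_le_left _ _).trans ((min_le_right _ _).trans (min_le_right _ _))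
  have hηe5 : η ≤ e5 := by
    rw [hη]; exact (min_le_right _ _).trans (min_le_left _ _)
  have hηr : η ≤ r₂ := by
    rw [hη]; exact (min_le_right _ _).trans ((min_le_right _ _).trans (min_le_left _ _))
  have hηε : η ≤ ε₂ := by
    rw [hη]; exact (min_le_right _ _).trans ((min_le_right _ _).trans (min_le_right _ _))
  obtain ⟨ω₀, hω₀, X, Y, hX, hY, hcls⟩ := stripA hK h7 hd hO hOm hη0
  obtain ⟨ω, hω⟩ : ∃ ω : ℝ, ω = min (min ω₀ κ) δ := ⟨_, rfl⟩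
  have hω0 : 0 < ω := by rw [hω]; exact lt_min (lt_min hω₀ hκ) hδ
  have hωω₀ : ω ≤ ω₀ := by rw [hω]; exact (min_le_left _ _).trans (min_le_left _ _)
  have hωκ : ω ≤ κ := by rw [hω]; exact (min_le_left _ _).trans (min_le_right _ _)
  have hωδ : ω ≤ δ := by rw [hω]; exact min_le_right _ _
  have hX' : ContinuousOn X {p | p ∈ O1 K r r₂ ∧ dl K p - cl K p ≤ ω} :=
    hX.mono (fun p hp => ⟨hp.1, hp.2.trans hωω₀⟩)
  have hY' : ContinuousOn Y {p | p ∈ O1 K r r₂ ∧ dl K p - cl K p ≤ ω} :=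
    hY.mono (fun p hp => ⟨hp.1, hp.2.trans hωω₀⟩)
  have hC : ∀ p ∈ St K r r₂ ω, Cls K (O1 K r r₂) η p (X p) (Y p) :=
    fun p hp => hcls p hp.1 (hp.2.trans hωω₀)
  obtain ⟨ξ, hξc, hξ1, hξ2, hξ3⟩ := h5 ω hω0 X hX'
    (fun p hp hle => ⟨Y p, cls_mono (hC p ⟨hp, hle⟩) hηe5⟩)
  -- near `Ap`
  have hd1 : ∀ p ∈ Cc K r r₂ ω, infDist p (Ap K) ≤ r → ξ p ∈ Lo K δ p := by
    intro p hp hnear
    obtain ⟨lo, hi, hM⟩ := mins_exists hK h7 hd (hOm hp.1)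
    obtain ⟨hS, hlt⟩ := hξ1 p hp.1 hp.2
    refine ⟨hS, ?_⟩
    by_cases hcase : mn K p + γ ≤ F p hi
    · have ha := hξ3 p hp.1 hnear hp.2 lo hi hM hcase
      have hb := abs_le.mp (F_lip' p (ξ p) lo)
      have hc := hM.lo_min
      linarith [hb.2]
    · have ha := hN.n2 p (hOm hp.1) hnear lo hi hM (by linarith)
      linarith
  refine ⟨ω, X, Y, ξ, ?_⟩
  refine
    { hω := hω0
      cX := hX'
      cY := hY'
      cξ := hξc
      sX := fun p hp => (hC p hp).1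
      sY := fun p hp => (hC p hp).2.1
      sξ := fun p hp => (hξ1 p hp.1 hp.2).1
      l1 := ?_
      l2 := ?_
      l3 := ?_
      l4 := ?_
      e1 := ?_
      d1 := hd1
      d2 := ?_
      y2 := ?_ }
  · intro p hp
    have := (h0 p hp.1 (X p) (Y p) (cls_mono (hC p hp) hηe0)).1
    linarith
  · intro p hp
    have := (h0 p hp.1 (X p) (Y p) (cls_mono (hC p hp) hηe0)).2.1
    linarith
  · intro p hp hp'
    have h1 := (h0 p hp'.1 (X p) (Y p) (cls_mono (hC p hp') hηe0)).2.2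
    have h2 := (hξ1 p hp.1 hp.2).2
    have h3 := hp.2
    linarith
  · intro p hp
    have h2 := (hξ1 p hp.1 hp.2).2
    linarith
  · intro p hp hp' hF
    refine hξ2 p hp.1 (le_antisymm hp'.2 hp.2) ?_
    rw [hθ]
    exact hF
  · intro p hp hnear hge
    rw [← hθ] at hge
    rw [← hθ]
    obtain ⟨lo, hi, hM⟩ := mins_exists hK h7 hd (hOm hp.1)
    have hCp := hC p hp
    have habs : |F p (X p) - F p hi| ≤ η' := by
      rcases h4 p hp.1 (X p) (Y p) (cls_mono hCp hηe4) lo hi hM with h | h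
      · exfalso
        have hb := abs_le.mp (F_lip' p (X p) lo)
        have hc := hM.lo_min
        linarith [hb.2]
      · exact h
    have habs' := abs_le.mp habs
    by_cases hcase : mn K p + γ ≤ F p hi
    · obtain ⟨u, hu1, hu2⟩ := h1 p hp.1 hnear (X p) (Y p) (cls_mono hCp hηe1) (by linarith)
      refine ⟨u, hu1, hu2, ?_, ?_⟩
      · intro hpc
        refine hu1 _ ⟨(hξ1 p hpc.1 hpc.2).1, ?_⟩
        have ha := hξ3 p hpc.1 hnear hpc.2 lo hi hM hcase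
        have hb := abs_le.mp (F_lip' p (ξ p) lo)
        have hc := hM.lo_min
        linarith [hb.2]
      · intro hle
        exfalso
        linarith [habs'.1, habs'.2]
    · obtain ⟨u, hu1, hu2⟩ := h2 p hp.1 hnear (X p) (Y p) (cls_mono hCp hηe2) (by linarith)
        (by linarith [habs'.2])
      refine ⟨u, fun x hx => hu1 x ⟨hx.1, by linarith [hx.2]⟩, hu2, fun hpc => hu1 _ (hd1 p hpc hnear), ?_⟩
      intro hle
      exact hu1 _ ⟨hCp.1, by linarith⟩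
  · intro p hp q hq hpq y hy
    obtain ⟨_, _, q₀, hq₀, hcd, hpq₀, x, y₀, hmid, _, hyy⟩ := hC p hp
    have h1 : ‖q₀ - q‖ ≤ 3 * r₂ := by
      have : q₀ - q = (p - q) - (p - q₀) := by abel
      rw [this]
      refine (norm_sub_le _ _).trans ?_
      linarith
    have h2 := hB.b2 q₀ (hOm hq₀) hcd q hq h1 x y₀ hmid y hy
    have h3 : Y p - y = (Y p - y₀) + (y₀ - y) := by abel
    rw [h3]
    refine (norm_add_le _ _).trans ?_
    linarith

end Pool.Agent.E8N
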