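import Pool.Agent.E8N.NLim

/-!
# E8N NExt

(6.1) EXT. Extension of a map into the sublevel set `{F q < t}` of `S K`, using a null homotopy inside `{F q < t'}`.
Proof. `tietze`: continuous `G : E → E` with `G = g` on `A`. `U = {p | G p ∉ K ∧ F q (ret K (G p)) < t}` is open (`K` closed, `ret K` continuous on the open set `Kᶜ`) and contains `A` (`g p ∈ S K`, `ret_of_mem`, `S_disj`). Choose a continuous `u : E → [0,1]` with
`u = 1` on `A` and `u = 0` outside an open `U'` with `A ⊆ U' ⊆ closure U' ⊆ U` (normality: `normal_exists_closure_subset`, `exists_continuous_zero_one_of_isClosed`). Define `g' p = H (1 - u p, ret K (G p))` for `p ∈ U`, `g' p = c₀` otherwise. On the closed set `closure U'` the first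
formula is continuous (`hH`, `Icc 0 1 ×ˢ {F q ≤ t}`), on the closed set `U'ᶜ` the function is constant `c₀`: for `p ∈ U \ U'`, `u p = 0` and `H (1, ·) = c₀`; the two closed sets cover `E`, so `g'` is continuous (`ContinuousOn.union_of_isClosed`/`continuous_if...`).
Values: `H` maps into `S K ∩ {F q < t'}`, `hc₀`. On `A`: `u = 1`, `g' p = H (0, g p) = g p`.
-/

set_option autoImplicit false

open Metric Set Filter Topology

namespace Pool.Agent.E8N

variable {E : Type*} [NormedAddCommGroup E] [InnerProductSpace ℝ E] [FiniteDimensional ℝ E]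
variable {K : Set E} {ρ R : ℝ}

theorem ext (hK : Body K ρ R) {A : Set E} (hA : IsClosed A) {g : E → E} (hg : ContinuousOn g A) {q c₀ : E}
    {t t' : ℝ} (hgS : ∀ p ∈ A, g p ∈ S K) (hgt : ∀ p ∈ A, F q (g p) < t) {H : ℝ × E → E}
    (hH : ContinuousOn H (Icc (0 : ℝ) 1 ×ˢ {x | x ∈ S K ∧ F q x ≤ t}))
    (h01 : ∀ x, x ∈ S K → F q x ≤ t → H (0, x) = x ∧ H (1, x) = c₀)
    (hin : ∀ s ∈ Icc (0 : ℝ) 1, ∀ x, x ∈ S K → F q x ≤ t → H (s, x) ∈ S K ∧ F q (H (s, x)) < t')
    (hc₀ : c₀ ∈ S K ∧ F q c₀ < t') :
    ∃ g' : E → E, Continuous g' ∧ (∀ p, g' p ∈ S K ∧ F q (g' p) < t') ∧ ∀ p ∈ A, g' p = g p := by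
  classical
  obtain ⟨G, hG, hGA⟩ := tietze hA hg
  have hKo : IsOpen (Kᶜ : Set E) := hK.cpt.isClosed.isOpen_compl
  have hV : IsOpen (G ⁻¹' Kᶜ) := hKo.preimage hG
  have hr : ContinuousOn (fun p => ret K (G p)) (G ⁻¹' Kᶜ) :=
    (ret_cont hK).comp hG.continuousOn (fun p hp => hp)
  have hFc : Continuous (fun x : E => F q x) := by
    unfold F
    fun_prop
  have hφ : ContinuousOn (fun p => F q (ret K (G p))) (G ⁻¹' Kᶜ) := hFc.comp_continuousOn hr
  have hU : IsOpen ((G ⁻¹' Kᶜ) ∩ (fun p => F q (ret K (G p))) ⁻¹' Iio t) :=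
    hφ.isOpen_inter_preimage hV isOpen_Iio
  have hAU : A ⊆ (G ⁻¹' Kᶜ) ∩ (fun p => F q (ret K (G p))) ⁻¹' Iio t := by
    intro p hp
    have h1 : G p = g p := hGA p hp
    refine ⟨?_, ?_⟩
    · show G p ∉ K
      rw [h1]
      exact S_disj hK (hgS p hp)
    · show F q (ret K (G p)) < t
      rw [h1, ret_of_mem hK (hgS p hp)]
      exact hgt p hp
  obtain ⟨U', hU'o, hAU', hU'U⟩ := normal_exists_closure_subset hA hU hAU
  have hdj : Disjoint U'ᶜ A := by
    rw [Set.disjoint_left]
    intro p hp hpA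
    exact hp (hAU' hpA)
  obtain ⟨u, hu0, hu1, hu⟩ := exists_continuous_zero_one_of_isClosed hU'o.isClosed_compl hA hdj
  have key : ∀ p ∈ closure U', ret K (G p) ∈ S K ∧ F q (ret K (G p)) ≤ t := by
    intro p hp
    have h1 := hU'U hp
    exact ⟨ret_mem hK h1.1, le_of_lt h1.2⟩
  have hus : ∀ p, (1 - u p) ∈ Icc (0 : ℝ) 1 := by
    intro p
    have h1 := hu p
    constructor
    · linarith [h1.2]
    · linarith [h1.1]
  refine ⟨fun p => if p ∈ closure U' then H (1 - u p, ret K (G p)) else c₀, ?_, ?_, ?_⟩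
  · have hcov : (univ : Set E) = closure U' ∪ U'ᶜ := by
      ext p
      simp only [mem_univ, true_iff, mem_union]
      by_cases hp : p ∈ U'
      · left
        exact subset_closure hp
      · right
        exact hp
    rw [← continuousOn_univ, hcov]
    refine ContinuousOn.union_of_isClosed ?_ ?_ isClosed_closure hU'o.isClosed_compl
    · have h1 : ContinuousOn (fun p => H (1 - u p, ret K (G p))) (closure U') := by
        refine hH.comp (t := Icc (0 : ℝ) 1 ×ˢ {x | x ∈ S K ∧ F q x ≤ t}) (f := fun p => (1 - u p, ret K (G p))) ?_ ?_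
        · refine ContinuousOn.prodMk ?_ ?_
          · exact (continuous_const.sub u.continuous).continuousOn
          · exact hr.mono (fun p hp => (hU'U hp).1)
        · intro p hp
          exact ⟨hus p, key p hp⟩
      refine h1.congr ?_
      intro p hp
      simp only [hp, if_true]
    · refine (continuousOn_const (c := c₀)).congr ?_
      intro p hp
      by_cases h : p ∈ closure U'
      · have h2 : u p = 0 := hu0 hp
        have h3 := key p h
        simp only [h, if_true]
        rw [h2, sub_zero]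
        exact (h01 _ h3.1 h3.2).2
      · simp only [h, if_false]
  · intro p
    by_cases h : p ∈ closure U'
    · have h3 := key p h
      simp only [h, if_true]
      exact hin _ (hus p) _ h3.1 h3.2
    · simp only [h, if_false]
      exact hc₀
  · intro p hp
    have h : p ∈ closure U' := subset_closure (hAU' hp)
    have h3 := key p h
    have h2 : u p = 1 := hu1 hp
    simp only [h, if_true]
    rw [h2, sub_self, (h01 _ h3.1 h3.2).1, hGA p hp, ret_of_mem hK (hgS p hp)]

end Pool.Agent.E8N
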