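import Pool.Agent.E8N.NFoot

/-!
# E8N NFeet

* `feet_inj`: for `x ∈ Crit K p`: `P K x = p + (F p x - 1) • dir p x` (`foot`). `p ∈ interior K` and `P K x ∉ interior K` (`feet_fr`), so `P K x ≠ p`, `F p x - 1 > 0` and `dir p x = ‖P K x - p‖⁻¹ • (P K x - p)`; the same for `y`; so `dir p x = dir p y` and `x = y` (`dir_inj`).
* `feet_fr`: `P K x ∈ K`; if `P K x ∈ interior K`, then `P K x + e • nu K x ∈ K` for small `e > 0`, contradiction to `P_var`: `⟪nu K x, e • nu K x⟫ = e > 0`.
* `feet_normal`: `P_var`: `⟪nu K x, w - P K x⟫ ≤ 0`, and `p = P K x - (F p x - 1) • nu K x`.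
-/

set_option autoImplicit false

open Metric Set Filter Topology

namespace Pool.Agent.E8N

variable {E : Type*} [NormedAddCommGroup E] [InnerProductSpace ℝ E] [FiniteDimensional ℝ E]
variable {K : Set E} {ρ R : ℝ}

theorem feet_fr (hK : Body K ρ R) {x : E} (hx : x ∈ S K) : P K x ∈ frontier K := by
  refine ⟨subset_closure (P_mem hK x), ?_⟩
  intro hint
  have hnu : ‖nu K x‖ = 1 := nu_norm hx
  obtain ⟨e, he, hball⟩ := Metric.isOpen_iff.1 isOpen_interior _ hint
  have hw : P K x + (e / 2) • nu K x ∈ K := by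
    apply interior_subset
    apply hball
    rw [Metric.mem_ball, dist_eq_norm, add_sub_cancel_left, norm_smul, hnu, mul_one, Real.norm_eq_abs,
      abs_of_pos (by linarith)]
    linarith
  have h := P_var hK x hw
  rw [add_sub_cancel_left] at h
  have h2 : inner ℝ (nu K x) ((e / 2) • nu K x) = e / 2 := by
    rw [inner_smul_right, real_inner_self_eq_norm_sq, hnu]
    ring
  have h3 : inner ℝ (x - P K x) ((e / 2) • nu K x) = e / 2 := h2
  linarith

theorem feet_aux (hK : Body K ρ R) {p x : E} (hp : p ∈ interior K) (hx : x ∈ Crit K p) :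
    dir p x = ‖P K x - p‖⁻¹ • (P K x - p) := by
  have hpK : p ∈ K := interior_subset hp
  obtain ⟨h1, h2⟩ := foot hK hpK hx
  have hne : P K x ≠ p := by
    intro h
    have := feet_fr hK hx.1
    rw [h] at this
    exact this.2 hp
  have hF : 1 ≤ F p x := one_le_F hK hx.1 hpK
  have hdir : ‖dir p x‖ = 1 := by
    rw [h2]; exact nu_norm hx.1
  have h3 : P K x - p = (F p x - 1) • dir p x := by
    rw [h1]; exact add_sub_cancel_left _ _
  have hpos : 0 < F p x - 1 := by
    rcases eq_or_lt_of_le hF with h | h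
    · exfalso
      apply hne
      rw [h1, ← h]
      simp
    · linarith
  rw [h3, norm_smul, hdir, mul_one, Real.norm_eq_abs, abs_of_pos hpos, smul_smul, inv_mul_cancel₀ hpos.ne',
    one_smul]

theorem feet_inj (hK : Body K ρ R) {p x y : E} (hp : p ∈ interior K) (hx : x ∈ Crit K p) (hy : y ∈ Crit K p)
    (h : P K x = P K y) : x = y := by
  apply dir_inj hK (interior_subset hp) hx.1 hy.1
  rw [feet_aux hK hp hx, feet_aux hK hp hy, h]

theorem feet_normal (hK : Body K ρ R) {p x : E} (hp : p ∈ K) (hx : x ∈ Crit K p) :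
    ∃ v : E, v ≠ 0 ∧ (∀ z ∈ K, inner ℝ v z ≤ inner ℝ v (P K x)) ∧ ∃ t : ℝ, p = P K x + t • v := by
  obtain ⟨h1, h2⟩ := foot hK hp hx
  refine ⟨nu K x, ?_, ?_, -(F p x - 1), ?_⟩
  · intro h
    have := nu_norm hx.1
    rw [h, norm_zero] at this
    exact zero_ne_one this
  · intro z hz
    have h := P_var hK x hz
    rw [inner_sub_right] at h
    have h' : inner ℝ (nu K x) z - inner ℝ (nu K x) (P K x) ≤ 0 := h
    linarith
  · rw [h1, h2]
    module

end Pool.Agent.E8N
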