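import Pool.Agent.E8N.NLim

/-!
# E8N NUnif

Uniform continuity of `cl`, `dl` around a compact set. Suppose not: for `k : ℕ` there are `p_k ∈ C`, `c_k` with `‖p_k - c_k‖ ≤ 1/(k+1)` and (`c_k ∉ Om K` or `‖p_k - c_k‖ > s` or `|cl K p_k - cl K c_k| > s` or `|dl K p_k - dl K c_k| > s`). Subsequence `p_k → p₀ ∈ C ⊆ Om K`, `c_k → p₀`. `Om K` is open
(`Om_open`), so `c_k ∈ Om K` for large `k`; `cl`, `dl` are continuous at `p₀` (`ContinuousOn.continuousAt` on the open set), so all differences tend to `0`: contradiction.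
-/

set_option autoImplicit false

open Metric Set Filter Topology

namespace Pool.Agent.E8N

variable {E : Type*} [NormedAddCommGroup E] [InnerProductSpace ℝ E] [FiniteDimensional ℝ E]
variable {K : Set E} {ρ R : ℝ}

theorem unif (hK : Body K ρ R) (h7 : AtMost7 K) (hd : 4 ≤ Module.finrank ℝ E) {C : Set E} (hC : IsCompact C)
    (hCO : C ⊆ Om K) {s : ℝ} (hs : 0 < s) :
    ∃ e > 0, ∀ p ∈ C, ∀ c, ‖p - c‖ ≤ e → c ∈ Om K ∧ ‖p - c‖ ≤ s ∧ |cl K p - cl K c| ≤ s ∧ |dl K p - dl K c| ≤ s := by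
  by_contra hcon
  have h1 : ∀ k : ℕ, ∃ p ∈ C, ∃ c, ‖p - c‖ ≤ 1 / ((k : ℝ) + 1) ∧
      ¬ (c ∈ Om K ∧ ‖p - c‖ ≤ s ∧ |cl K p - cl K c| ≤ s ∧ |dl K p - dl K c| ≤ s) := by
    intro k
    by_contra hk
    apply hcon
    refine ⟨1 / ((k : ℝ) + 1), by positivity, ?_⟩
    intro p hp c hpc
    by_contra hh
    exact hk ⟨p, hp, c, hpc, hh⟩
  choose p hp c hpc hn using h1
  obtain ⟨p₀, hp₀, φ, hφ, hlim⟩ := hC.tendsto_subseq hp
  have hz : Tendsto (fun k => p k - c k) atTop (𝓝 0) :=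
    squeeze_zero_norm hpc tendsto_one_div_add_atTop_nhds_zero_nat
  have hz' : Tendsto (fun k => p (φ k) - c (φ k)) atTop (𝓝 0) := hz.comp hφ.tendsto_atTop
  have hc' : Tendsto (fun k => c (φ k)) atTop (𝓝 p₀) := by
    have := hlim.sub hz'
    simpa using this
  have hO : ∀ᶠ k in atTop, c (φ k) ∈ Om K := hc'.eventually ((Om_open hK).mem_nhds (hCO hp₀))
  have hcl : ContinuousAt (cl K) p₀ := (cl_cont hK h7 hd).continuousAt ((Om_open hK).mem_nhds (hCO hp₀))
  have hdl : ContinuousAt (dl K) p₀ := (dl_cont hK h7 hd).continuousAt ((Om_open hK).mem_nhds (hCO hp₀))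
  have e1 : Tendsto (fun k => |cl K (p (φ k)) - cl K (c (φ k))|) atTop (𝓝 0) := by
    have := ((hcl.tendsto.comp hlim).sub (hcl.tendsto.comp hc')).abs
    simpa using this
  have e2 : Tendsto (fun k => |dl K (p (φ k)) - dl K (c (φ k))|) atTop (𝓝 0) := by
    have := ((hdl.tendsto.comp hlim).sub (hdl.tendsto.comp hc')).abs
    simpa using this
  have e3 : Tendsto (fun k => ‖p (φ k) - c (φ k)‖) atTop (𝓝 0) := by
    have := hz'.norm
    simpa using this
  have f1 := e1.eventually (gt_mem_nhds hs)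
  have f2 := e2.eventually (gt_mem_nhds hs)
  have f3 := e3.eventually (gt_mem_nhds hs)
  obtain ⟨k, hk1, hk2, hk3, hk4⟩ := (hO.and (f1.and (f2.and f3))).exists
  exact hn (φ k) ⟨hk1, hk4.le, hk2.le, hk3.le⟩

end Pool.Agent.E8N
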