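import Pool.Agent.E8N.NFillStep
import Pool.Agent.E8N.NCol
import Pool.Agent.E8N.NUnif

/-!
# E8N NFill

(6.3) FILL. `n = finrank + 1`, `s = ω/(2n)`. `unif` with `s/8`: `e > 0`. `col` with `e/2`: `Q j i`, `j : Fin n`. For `Q j i` nonempty, pick `p' ∈ Q j i ⊆ C ⊆ interior K` and by `generic_dense` a generic `c` with `‖c - p'‖ < e/2`; for `p ∈ Q j i`, `‖p - c‖ ≤ e`, so by `unif` `c ∈ Om K` and the three estimates of `fill_step`
hold. Induction on `m ≤ n`: there is `ξ_m`, continuous on `F_m = F1 ∪ ⋃_{j < m} ⋃ i, Q j i` (closed, in `C`), with values in `S K`, `F p (ξ_m p) < cl K p + m s` on `F_m`, `ξ_m = ξ₀` on `F1`. Step: `fill_step` with `t = m s`, `t + s ≤ n s = ω/2`. At `m = n`, `F_n = C` (`col` covers `C`; `F_n ⊆ C`).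
-/

set_option autoImplicit false

open Metric Set Filter Topology

namespace Pool.Agent.E8N

variable {E : Type*} [NormedAddCommGroup E] [InnerProductSpace ℝ E] [FiniteDimensional ℝ E]
variable {K : Set E} {ρ R : ℝ}

theorem fill (hK : Body K ρ R) (h7 : AtMost7 K) (hd : 4 ≤ Module.finrank ℝ E) {C F1 : Set E} (hC : IsCompact C)
    (hCO : C ⊆ Om K) {ω : ℝ} (hω : 0 < ω) (hgap : ∀ p ∈ C, cl K p + ω ≤ dl K p) (hF1 : IsClosed F1) (hF1C : F1 ⊆ C)
    {ξ₀ : E → E} (hξ₀ : ContinuousOn ξ₀ F1) (hS : ∀ p ∈ F1, ξ₀ p ∈ S K) (hlt : ∀ p ∈ F1, F p (ξ₀ p) < cl K p) :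
    ∃ ξ : E → E, ContinuousOn ξ C ∧ (∀ p ∈ C, ξ p ∈ S K ∧ F p (ξ p) < cl K p + ω / 2) ∧ ∀ p ∈ F1, ξ p = ξ₀ p := by
  classical
  obtain ⟨n, hn⟩ : ∃ n : ℕ, n = Module.finrank ℝ E + 1 := ⟨_, rfl⟩
  have hn0 : (0 : ℝ) < n := by
    have : 0 < n := by omega
    exact_mod_cast this
  obtain ⟨s, hsd⟩ : ∃ s : ℝ, s = ω / (2 * n) := ⟨_, rfl⟩
  have hs : 0 < s := by
    rw [hsd]
    positivity
  have hns : n * s = ω / 2 := by
    rw [hsd]
    field_simp
  obtain ⟨e, he, hun⟩ := unif hK h7 hd hC hCO (s := s / 8) (by positivity)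
  obtain ⟨m₀, Q, hQ1, hQ2, hQ3, hQ4⟩ := col hC (e := e / 2) (by positivity)
  have hQc : ∀ j i, IsCompact (Q j i) := fun j i => (hQ1 j i).1
  have hQC : ∀ j i, Q j i ⊆ C := fun j i => (hQ1 j i).2
  have hc : ∀ j i, (Q j i).Nonempty → ∃ c, Generic K c ∧ c ∈ Om K ∧
      ∀ p ∈ Q j i, ‖p - c‖ ≤ s / 8 ∧ |cl K p - cl K c| ≤ s / 8 ∧ |dl K p - dl K c| ≤ s / 8 := by
    rintro j i ⟨p', hp'⟩
    have hint : p' ∈ interior K := (hCO (hQC j i hp')).1
    obtain ⟨c, hcg, hcn⟩ := generic_dense hK hint (ε := e / 2) (by positivity)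
    have hnear : ∀ p ∈ Q j i, ‖p - c‖ ≤ e := by
      intro p hp
      have h1 := hQ3 j i p hp p' hp'
      have h2 : ‖p' - c‖ < e / 2 := by
        rw [norm_sub_rev]
        exact hcn
      have h3 : ‖p - c‖ ≤ ‖p - p'‖ + ‖p' - c‖ := norm_sub_le_norm_sub_add_norm_sub p p' c
      linarith
    refine ⟨c, hcg, (hun p' (hQC j i hp') c (hnear p' hp')).1, ?_⟩
    intro p hp
    exact (hun p (hQC j i hp) c (hnear p hp)).2
  have main : ∀ m : ℕ, m ≤ Module.finrank ℝ E + 1 →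
      ∃ ξ : E → E, ContinuousOn ξ (F1 ∪ ⋃ (j : Fin (Module.finrank ℝ E + 1)) (_ : (j : ℕ) < m), ⋃ i, Q j i) ∧
      (∀ p ∈ F1 ∪ ⋃ (j : Fin (Module.finrank ℝ E + 1)) (_ : (j : ℕ) < m), ⋃ i, Q j i,
        ξ p ∈ S K ∧ F p (ξ p) < cl K p + m * s) ∧
      ∀ p ∈ F1, ξ p = ξ₀ p := by
    intro m
    induction m with
    | zero =>
      intro _
      refine ⟨ξ₀, ?_, ?_, fun p _ => rfl⟩
      · refine hξ₀.mono ?_
        intro p hp
        rcases hp with hp | hp
        · exact hp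
        · simp at hp
      · intro p hp
        have hp1 : p ∈ F1 := by
          rcases hp with hp | hp
          · exact hp
          · simp at hp
        refine ⟨hS p hp1, ?_⟩
        have := hlt p hp1
        simpa using this
    | succ m ih =>
      intro hm
      obtain ⟨ξ, h1, h2, h3⟩ := ih (by omega)
      have hmj : m < Module.finrank ℝ E + 1 := by omega
      have hcl : IsClosed (F1 ∪ ⋃ (j : Fin (Module.finrank ℝ E + 1)) (_ : (j : ℕ) < m), ⋃ i, Q j i) := by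
        refine hF1.union ?_
        refine isClosed_iUnion_of_finite ?_
        intro j
        refine isClosed_iUnion_of_finite ?_
        intro _
        exact isClosed_iUnion_of_finite fun i => (hQc j i).isClosed
      have hsub : (F1 ∪ ⋃ (j : Fin (Module.finrank ℝ E + 1)) (_ : (j : ℕ) < m), ⋃ i, Q j i) ⊆ C := by
        refine union_subset hF1C ?_
        refine iUnion_subset fun j => iUnion_subset fun _ => iUnion_subset fun i => hQC j i
      have hts : m * s + s ≤ ω / 2 := by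
        rw [← hns]
        have h5 : ((m : ℝ) + 1) ≤ n := by
          rw [hn]
          exact_mod_cast hm
        nlinarith
      obtain ⟨ξ', g1, g2, g3⟩ := fill_step hK h7 hd (C := C) hCO (Q := Q ⟨m, hmj⟩) hcl hsub
        (hQc _) (hQC _) (fun i i' h => hQ2 _ i i' h) (t := m * s) (s := s) (by positivity) hs hts hgap
        (hc ⟨m, hmj⟩) h1 h2
      have hset : (F1 ∪ ⋃ (j : Fin (Module.finrank ℝ E + 1)) (_ : (j : ℕ) < m + 1), ⋃ i, Q j i) ⊆
          (F1 ∪ ⋃ (j : Fin (Module.finrank ℝ E + 1)) (_ : (j : ℕ) < m), ⋃ i, Q j i) ∪ ⋃ i, Q ⟨m, hmj⟩ i := by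
        intro p hp
        rcases hp with hp | hp
        · left
          left
          exact hp
        · simp only [mem_iUnion] at hp
          obtain ⟨j, hj, i, hi⟩ := hp
          by_cases hjm : (j : ℕ) < m
          · left
            right
            simp only [mem_iUnion]
            exact ⟨j, hjm, i, hi⟩
          · right
            have hjm' : (j : ℕ) = m := by omega
            have hje : j = ⟨m, hmj⟩ := Fin.ext hjm'
            simp only [mem_iUnion]
            refine ⟨i, ?_⟩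
            rw [← hje]
            exact hi
      refine ⟨ξ', g1.mono hset, ?_, ?_⟩
      · intro p hp
        have h6 := g2 p (hset hp)
        refine ⟨h6.1, ?_⟩
        have h7 : ((m + 1 : ℕ) : ℝ) * s = m * s + s := by
          push_cast
          ring
        rw [h7]
        linarith [h6.2]
      · intro p hp
        rw [g3 p (Or.inl hp), h3 p hp]
  obtain ⟨ξ, h1, h2, h3⟩ := main (Module.finrank ℝ E + 1) le_rfl
  have hsub : C ⊆ F1 ∪ ⋃ (j : Fin (Module.finrank ℝ E + 1)) (_ : (j : ℕ) < Module.finrank ℝ E + 1), ⋃ i, Q j i := by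
    intro p hp
    obtain ⟨j, i, hi⟩ := hQ4 p hp
    right
    simp only [mem_iUnion]
    exact ⟨j, j.2, i, hi⟩
  refine ⟨ξ, h1.mono hsub, ?_, h3⟩
  intro p hp
  have h6 := h2 p (hsub hp)
  refine ⟨h6.1, ?_⟩
  have h8 : ((Module.finrank ℝ E + 1 : ℕ) : ℝ) * s = ω / 2 := by
    rw [← hns, hn]
  rw [h8] at h6
  exact h6.2

end Pool.Agent.E8N
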