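import Pool.Agent.E8N.NExt

/-!
# E8N NFillStep

(6.3), one colour class. For `i` with `Q i` nonempty take `c` from `hc` and put `t₁ = cl K c + t + s/4`, `t₁' = cl K c + t + s/2`. For any `p ∈ Q i`: `dl K c ≥ dl K p - s/8 ≥ cl K p + ω - s/8 ≥ cl K c + ω - s/4`, and `ω ≥ 2(t + s)`, so `t₁' < dl K c`; `cl K c < t₁ < t₁'`.
`null_homotopy` (at `c`) gives `H, c₀`. `c₀ ∈ S K`, `F c c₀ < t₁'`: apply the range statement to a minimum point `x` of `F c` (`mins_exists` at `c`: `F c lo = mn K c`, and `F c lo < cl K c` by `Mins.sepd` and `cl_eq`), `c₀ = H (1, x)`. Let `A = F1 ∩ Q i` (closed): for `p ∈ A`,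
`F c (ξ p) ≤ F p (ξ p) + s/8 < cl K p + t + s/8 ≤ t₁`. `ext` gives continuous `g_i` with `g_i = ξ` on `A`, values in `S K ∩ {F c < t₁'}`. For `p ∈ Q i`: `F p (g_i p) ≤ F c (g_i p) + s/8 < cl K c + t + s/2 + s/8 ≤ cl K p + t + 3s/4 < cl K p + t + s`.
Define `ξ' p = ξ p` if `p ∈ F1`, else `g_i p` for the `i` with `p ∈ Q i` (unique by `hdisj`), else `0`. On the closed set `F1` it equals `ξ`, on the closed set `Q i` it equals `g_i` (agreement on `F1 ∩ Q i`). Finitely many closed sets: `ξ'` is continuous on the union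
(`ContinuousOn.union_of_isClosed` by induction, or `LocallyFinite.continuousOn_iUnion`/`LocallyFinite.continuousOn_iUnion'` with `Option ι`). Levels: on `F1` `F p (ξ p) < cl K p + t < cl K p + t + s`.
-/

set_option autoImplicit false

open Metric Set Filter Topology

namespace Pool.Agent.E8N

variable {E : Type*} [NormedAddCommGroup E] [InnerProductSpace ℝ E] [FiniteDimensional ℝ E]
variable {K : Set E} {ρ R : ℝ}

theorem nfs_one (hK : Body K ρ R) (h7 : AtMost7 K) (hd : 4 ≤ Module.finrank ℝ E) {F1 Q : Set E}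
    (hF1 : IsClosed F1) (hQ : IsCompact Q) {ω t s : ℝ}
    (ht : 0 ≤ t) (hs : 0 < s) (hts : t + s ≤ ω / 2) (hgap : ∀ p ∈ Q, cl K p + ω ≤ dl K p)
    (hc : Q.Nonempty → ∃ c, Generic K c ∧ c ∈ Om K ∧
      ∀ p ∈ Q, ‖p - c‖ ≤ s / 8 ∧ |cl K p - cl K c| ≤ s / 8 ∧ |dl K p - dl K c| ≤ s / 8)
    {ξ : E → E} (hξ : ContinuousOn ξ F1) (hξS : ∀ p ∈ F1, ξ p ∈ S K ∧ F p (ξ p) < cl K p + t) :
    ∃ g : E → E, ContinuousOn g Q ∧ (∀ p ∈ Q, g p ∈ S K ∧ F p (g p) < cl K p + t + s) ∧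
      ∀ p ∈ F1, p ∈ Q → g p = ξ p := by
  by_cases hne : Q.Nonempty
  · obtain ⟨c, hg, hcO, hcl⟩ := hc hne
    obtain ⟨p0, hp0⟩ := hne
    obtain ⟨t1, ht1⟩ : ∃ t1 : ℝ, t1 = cl K c + t + s / 4 := ⟨_, rfl⟩
    obtain ⟨t2, ht2⟩ : ∃ t2 : ℝ, t2 = cl K c + t + s / 2 := ⟨_, rfl⟩
    have h1 : cl K c < t1 := by rw [ht1]; linarith
    have h2 : t1 < t2 := by rw [ht1, ht2]; linarith
    have h3 : t2 < dl K c := by
      obtain ⟨_, ha, hb⟩ := hcl p0 hp0
      have ha' := (abs_le.mp ha)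
      have hb' := (abs_le.mp hb)
      have := hgap p0 hp0
      rw [ht2]
      linarith [ha'.1, hb'.2]
    obtain ⟨H, c0, hH, h01, hin⟩ := null_homotopy hK h7 hd hcO hg h1 h2 h3
    have hc0 : c0 ∈ S K ∧ F c c0 < t2 := by
      obtain ⟨lo, hi, hm⟩ := mins_exists hK h7 hd hcO
      have hle : F c lo ≤ t1 := by
        have e1 := hm.sepd
        have e2 := cl_eq hK h7 hd hcO hm.lo_mem hm.hi_mem e1
        have e3 : max (F c lo) (F c hi) < cl K c := by rw [← e2]; exact e1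
        exact ((le_max_left _ _).trans_lt (e3.trans h1)).le
      have e4 := (h01 lo hm.lo_mem hle).2
      have e5 := hin 1 ⟨zero_le_one, le_refl 1⟩ lo hm.lo_mem hle
      rw [e4] at e5
      exact e5
    have hdist : ∀ p ∈ Q, ∀ x : E, F c x ≤ F p x + s / 8 ∧ F p x ≤ F c x + s / 8 := by
      intro p hp x
      have e1 := abs_le.mp (F_lip p c x)
      have e2 := (hcl p hp).1
      constructor <;> linarith [e1.1, e1.2]
    obtain ⟨g, hgc, hgS, hgA⟩ := ext hK (hF1.inter hQ.isClosed) (hξ.mono inter_subset_left)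
      (q := c) (c₀ := c0) (t := t1) (t' := t2)
      (fun p hp => (hξS p hp.1).1) (fun p hp => by
        have e1 := (hdist p hp.2 (ξ p)).1
        have e2 := (hξS p hp.1).2
        have e3 := (abs_le.mp (hcl p hp.2).2.1).2
        rw [ht1]
        linarith) hH h01 hin hc0
    refine ⟨g, hgc.continuousOn, fun p hp => ⟨(hgS p).1, ?_⟩, fun p hp hpQ => hgA p ⟨hp, hpQ⟩⟩
    have e1 := (hdist p hp (g p)).2
    have e2 := (hgS p).2
    have e3 := (abs_le.mp (hcl p hp).2.1).1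
    rw [ht2] at e2
    linarith
  · rw [Set.not_nonempty_iff_eq_empty] at hne
    refine ⟨ξ, ?_, ?_, ?_⟩
    · rw [hne]; exact continuousOn_empty _
    · intro p hp; rw [hne] at hp; exact absurd hp (Set.notMem_empty p)
    · intro p _ _; rfl

theorem fill_step (hK : Body K ρ R) (h7 : AtMost7 K) (hd : 4 ≤ Module.finrank ℝ E) {C F1 : Set E}
    (hC : C ⊆ Om K) {ι : Type} [Finite ι] {Q : ι → Set E} (hF1 : IsClosed F1) (hF1C : F1 ⊆ C)
    (hQ : ∀ i, IsCompact (Q i)) (hQC : ∀ i, Q i ⊆ C) (hdisj : ∀ i j, i ≠ j → Disjoint (Q i) (Q j)) {ω t s : ℝ}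
    (ht : 0 ≤ t) (hs : 0 < s) (hts : t + s ≤ ω / 2) (hgap : ∀ p ∈ C, cl K p + ω ≤ dl K p)
    (hc : ∀ i, (Q i).Nonempty → ∃ c, Generic K c ∧ c ∈ Om K ∧
      ∀ p ∈ Q i, ‖p - c‖ ≤ s / 8 ∧ |cl K p - cl K c| ≤ s / 8 ∧ |dl K p - dl K c| ≤ s / 8)
    {ξ : E → E} (hξ : ContinuousOn ξ F1) (hξS : ∀ p ∈ F1, ξ p ∈ S K ∧ F p (ξ p) < cl K p + t) :
    ∃ ξ' : E → E, ContinuousOn ξ' (F1 ∪ ⋃ i, Q i) ∧
      (∀ p ∈ F1 ∪ ⋃ i, Q i, ξ' p ∈ S K ∧ F p (ξ' p) < cl K p + t + s) ∧ ∀ p ∈ F1, ξ' p = ξ p := by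
  classical
  choose g hgc hgS hgξ using fun i => nfs_one hK h7 hd hF1 (hQ i) ht hs hts (fun p hp => hgap p (hQC i hp)) (hc i)
    hξ hξS
  obtain ⟨ξ', hξ'⟩ : ∃ ξ' : E → E, ξ' = fun p => if p ∈ F1 then ξ p else
    if h : ∃ i, p ∈ Q i then g h.choose p else 0 := ⟨_, rfl⟩
  have e1 : ∀ p ∈ F1, ξ' p = ξ p := by
    intro p hp
    rw [hξ']
    simp only [if_pos hp]
  have e2 : ∀ i, ∀ p ∈ Q i, ξ' p = g i p := by
    intro i p hp
    by_cases hpF : p ∈ F1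
    · rw [e1 p hpF, hgξ i p hpF hp]
    · have hex : ∃ i, p ∈ Q i := ⟨i, hp⟩
      rw [hξ']
      simp only [if_neg hpF, dif_pos hex]
      have hi : hex.choose = i := by
        by_contra hcon
        exact (Set.disjoint_left.mp (hdisj _ _ hcon)) hex.choose_spec hp
      rw [hi]
  have c1 : ContinuousOn ξ' F1 := hξ.congr e1
  have c2 : ContinuousOn ξ' (⋃ i, Q i) := by
    refine (locallyFinite_of_finite Q).continuousOn_iUnion (fun i => (hQ i).isClosed) (fun i => ?_)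
    exact (hgc i).congr (e2 i)
  refine ⟨ξ', ?_, ?_, e1⟩
  · exact c1.union_of_isClosed c2 hF1 (isClosed_iUnion_of_finite (fun i => (hQ i).isClosed))
  · rintro p (hp | hp)
    · rw [e1 p hp]
      exact ⟨(hξS p hp).1, by linarith [(hξS p hp).2]⟩
    · simp only [Set.mem_iUnion] at hp
      obtain ⟨i, hi⟩ := hp
      rw [e2 i p hi]
      exact hgS i p hi

end Pool.Agent.E8N
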