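import Pool.Agent.E8N.NApC

/-!
# E8N NLow

* `lowP`. Let `x ∈ S K`, `ν = nu K x`, `p ∈ K`. `P K x = x - ν`; `K` is in the half space `⟪ν, w - P K x⟫ ≤ 0` (`P_var`); with `w = ρ • ν ∈ K`: `⟪ν, P K x⟫ ≥ ρ`, so `⟪ν, x⟫ ≥ 1 + ρ`;
  with `w = p`: `⟪ν, x - p⟫ = 1 + ⟪ν, P K x - p⟫ ≥ 1`. Also `⟪ν, p⟫ = ⟪ν, x⟫ - ⟪ν, x - p⟫ ≥ 1 + ρ - F p x`. And
  `‖x - p - ν‖² = F² - 2⟪ν, x - p⟫ + 1 ≤ F² - 1`. If `F p x ≤ 1 + Y`, `0 < Y ≤ ρ/2`, `Y ≤ 1`: `⟪ν, p⟫ ≥ ρ/2`, `‖x - p - ν‖² ≤ 3Y`, so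
  `⟪x - p, p⟫ ≥ ρ/2 - R √(3Y) ≥ ρ/4` if `R √(3Y) ≤ ρ/4`; then `⟪dir p x, p⟫ = ⟪x - p, p⟫/F ≥ ρ/(4(1+Y)) ≥ ρ/8 =: κ`. (`‖p‖ ≤ R`.)
* `inw`: with `Y, κ` of `lowP`, `r₀ = Y/5`: `F p x ≤ mn K p + 4 r₀ ≤ 1 + 5 r₀` (`fr_mn`).
-/

set_option autoImplicit false

open Metric Set Filter Topology

namespace Pool.Agent.E8N

variable {E : Type*} [NormedAddCommGroup E] [InnerProductSpace ℝ E] [FiniteDimensional ℝ E]
variable {K : Set E} {ρ R : ℝ}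

theorem lowP (hK : Body K ρ R) : ∃ Y > 0, ∃ κ > 0, ∀ p ∈ K, ∀ x ∈ S K, F p x ≤ 1 + Y → κ ≤ inner ℝ (dir p x) p := by
  have hρ := hK.hρ
  have h0K : (0 : E) ∈ K := hK.ball (Metric.mem_closedBall_self hρ.le)
  have hR : 0 ≤ R := by
    have := hK.sub h0K
    rw [Metric.mem_closedBall, dist_self] at this
    exact this
  have hR1 : 0 < R + 1 := by linarith
  refine ⟨min (ρ / 2) (min 1 (ρ ^ 2 / (48 * (R + 1) ^ 2))), by positivity, ρ / 8, by positivity, ?_⟩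
  set Y := min (ρ / 2) (min 1 (ρ ^ 2 / (48 * (R + 1) ^ 2))) with hYdef
  have hY0 : 0 < Y := by rw [hYdef]; positivity
  have hY1 : Y ≤ ρ / 2 := min_le_left _ _
  have hY2 : Y ≤ 1 := (min_le_right _ _).trans (min_le_left _ _)
  have hY3 : Y ≤ ρ ^ 2 / (48 * (R + 1) ^ 2) := (min_le_right _ _).trans (min_le_right _ _)
  have hY4 : 3 * Y * (R + 1) ^ 2 ≤ (ρ / 4) ^ 2 := by
    have h := (le_div_iff₀ (by positivity)).1 hY3
    nlinarith
  intro p hp x hx hF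
  have hν : ‖nu K x‖ = 1 := nu_norm hx
  have hνν : inner ℝ (nu K x) (nu K x) = 1 := by rw [real_inner_self_eq_norm_sq, hν]; norm_num
  have hw : ρ • nu K x ∈ K := by
    apply hK.ball
    rw [Metric.mem_closedBall, dist_zero_right, norm_smul, hν, mul_one, Real.norm_eq_abs, abs_of_pos hρ]
  have ha : inner ℝ (nu K x) (ρ • nu K x - P K x) ≤ 0 := P_var hK x hw
  have hb : inner ℝ (nu K x) (p - P K x) ≤ 0 := P_var hK x hp
  rw [inner_sub_right, inner_smul_right, hνν] at ha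
  rw [inner_sub_right] at hb
  have hxe : x = P K x + nu K x := by simp [nu]
  have hνx : inner ℝ (nu K x) x = inner ℝ (nu K x) (P K x) + 1 := by
    conv_lhs => rw [hxe]
    rw [inner_add_right, ← hxe, hνν]
  have hνxp : inner ℝ (nu K x) (x - p) = inner ℝ (nu K x) x - inner ℝ (nu K x) p := inner_sub_right _ _ _
  have hcs : inner ℝ (nu K x) (x - p) ≤ F p x := by
    have := real_inner_le_norm (nu K x) (x - p)
    rw [hν, one_mul] at this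
    exact this
  have hνp : ρ / 2 ≤ inner ℝ (nu K x) p := by linarith
  have hge1 : 1 ≤ inner ℝ (nu K x) (x - p) := by linarith
  have hF1 : 1 ≤ F p x := hge1.trans hcs
  have hFn : ‖x - p‖ = F p x := rfl
  have hsq : ‖x - p - nu K x‖ ^ 2 ≤ 3 * Y := by
    rw [norm_sub_sq_real, hFn, hν, real_inner_comm]
    nlinarith
  have hpR : ‖p‖ ≤ R + 1 := by
    have := hK.sub hp
    rw [Metric.mem_closedBall, dist_zero_right] at this
    linarith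
  have hprod : ‖x - p - nu K x‖ * ‖p‖ ≤ ρ / 4 := by
    have h1 : (‖x - p - nu K x‖ * ‖p‖) ^ 2 ≤ (ρ / 4) ^ 2 := by
      rw [mul_pow]
      have h2 : ‖p‖ ^ 2 ≤ (R + 1) ^ 2 := by gcongr
      calc ‖x - p - nu K x‖ ^ 2 * ‖p‖ ^ 2 ≤ 3 * Y * (R + 1) ^ 2 := by gcongr
        _ ≤ _ := hY4
    exact (le_abs_self _).trans (abs_le_of_sq_le_sq h1 (by positivity))
  have hin : ρ / 4 ≤ inner ℝ (x - p) p := by
    have h1 : inner ℝ (x - p) p = inner ℝ (nu K x) p + inner ℝ (x - p - nu K x) p := by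
      rw [← inner_add_left]; congr 1; abel
    have h2 : -(‖x - p - nu K x‖ * ‖p‖) ≤ inner ℝ (x - p - nu K x) p := by
      have := abs_real_inner_le_norm (x - p - nu K x) p
      exact (abs_le.1 this).1
    linarith
  have hFpos : 0 < F p x := by linarith
  have hd : inner ℝ (dir p x) p = (F p x)⁻¹ * inner ℝ (x - p) p := by
    show inner ℝ (‖x - p‖⁻¹ • (x - p)) p = _
    rw [inner_smul_left]
    rfl
  rw [hd]
  have hF2 : F p x ≤ 2 := by linarith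
  rw [inv_mul_eq_div, le_div_iff₀ hFpos]
  nlinarith

theorem inw (hK : Body K ρ R) (hd : 4 ≤ Module.finrank ℝ E) : ∃ r₀ > 0, ∀ p ∈ K, infDist p (frontier K) ≤ r₀ →
    ∀ x ∈ Lo K (4 * r₀) p, 0 < inner ℝ (dir p x) p := by
  obtain ⟨Y, hY, κ, hκ, h⟩ := lowP hK
  refine ⟨Y / 5, by positivity, ?_⟩
  intro p hp hpd x hx
  have h1 := fr_mn hK hd hpd
  have h2 : F p x ≤ mn K p + 4 * (Y / 5) := hx.2
  exact hκ.trans_le (h p hp x hx.1 (by linarith))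

end Pool.Agent.E8N
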