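import Pool.Agent.E8N.NPat
import Pool.Agent.E8N.NApC

/-!
# E8N NTie

(4.4) If the two minima have almost the same level near `Ap K`, then the merging level is low.
Proof. Suppose not: for `k : ℕ` there are `p_k ∈ Om K`, `infDist p_k (Ap K) ≤ 1/(k+1)`, `Mins K p_k lo_k hi_k`, `F p_k hi_k ≤ mn K p_k + 1/(k+1)`, `cl K p_k ≥ mn K p_k + δ`. Pass to a
subsequence: `p_k → p₀`, `lo_k → lo₀`, `hi_k → hi₀` (use `subseq2` twice, or compactness of `K ×ˢ S K ×ˢ S K`); `p₀ ∈ Ap K` (`Ap_compact` closed) and `lo₀, hi₀ ∈ Lo K 0 p₀` (`Lo_lim`). `Lo K 0 p₀` is preconnected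
(`pat_conn` on the frontier, a single point by `argmin_unique` in the interior). Let `e = δ/4`. By `S_loc` there are preconnected `V ∋ lo₀`, `V' ∋ hi₀` in `S K`, in the balls of radius `e`,
containing `S K ∩ ball lo₀ η`, `S K ∩ ball hi₀ η'`. `C = V ∪ Lo K 0 p₀ ∪ V'` is preconnected (`IsPreconnected.union`), in `S K`, and `F p₀ ≤ mn K p₀ + e` on `C`
(`F_lip'`). For large `k`: `lo_k ∈ V`, `hi_k ∈ V'`, `‖p_k - p₀‖ ≤ δ/16`, so by `pass_le`, `F_lip`, `mn_cont`: `cl K p_k = pass (S K) (F p_k) lo_k hi_k ≤ mn K p₀ + e + δ/16 ≤ mn K p_k + e + δ/8 < mn K p_k + δ`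
(`cl_eq` with `Mins.sepd`): contradiction.
-/

set_option autoImplicit false

open Metric Set Filter Topology

namespace Pool.Agent.E8N

variable {E : Type*} [NormedAddCommGroup E] [InnerProductSpace ℝ E] [FiniteDimensional ℝ E]
variable {K : Set E} {ρ R : ℝ}

theorem tie (hK : Body K ρ R) (h7 : AtMost7 K) (hd : 4 ≤ Module.finrank ℝ E) {δ : ℝ} (hδ : 0 < δ) :
    ∃ b > 0, ∀ p ∈ Om K, infDist p (Ap K) ≤ b → ∀ lo hi, Mins K p lo hi → F p hi ≤ mn K p + b →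
      cl K p < mn K p + δ := by
  by_contra hcon
  push Not at hcon
  have hb : ∀ k : ℕ, (0 : ℝ) < 1 / ((k : ℝ) + 1) := fun k => by positivity
  choose p hpO hpA lo hi hm hF hcl using fun k : ℕ => hcon (1 / ((k : ℝ) + 1)) (hb k)
  have hpK : ∀ k, p k ∈ K := fun k => interior_subset (hpO k).1
  obtain ⟨p₀, hp₀, lo₀, hlo₀, φ, hφ, hpφ, hloφ⟩ := subseq2 hK hpK (fun k => (hm k).lo_mem)
  obtain ⟨hi₀, hhi₀, ψ, hψ, hhiψ⟩ := (S_compact hK).tendsto_subseq (x := fun k => hi (φ k)) (fun k => (hm (φ k)).hi_mem)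
  obtain ⟨θ, hθdef⟩ : ∃ θ : ℕ → ℕ, θ = fun k => φ (ψ k) := ⟨_, rfl⟩
  have hθ : StrictMono θ := by rw [hθdef]; exact hφ.comp hψ
  have hpθ : Tendsto (fun k => p (θ k)) atTop (𝓝 p₀) := by
    rw [hθdef]; exact hpφ.comp hψ.tendsto_atTop
  have hloθ : Tendsto (fun k => lo (θ k)) atTop (𝓝 lo₀) := by
    rw [hθdef]; exact hloφ.comp hψ.tendsto_atTop
  have hhiθ : Tendsto (fun k => hi (θ k)) atTop (𝓝 hi₀) := by
    rw [hθdef]; exact hhiψ
  have hz0 : Tendsto (fun k : ℕ => 1 / ((k : ℝ) + 1)) atTop (𝓝 0) := tendsto_one_div_add_atTop_nhds_zero_nat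
  have hz : Tendsto (fun k => 1 / (((θ k : ℕ) : ℝ) + 1)) atTop (𝓝 0) := hz0.comp hθ.tendsto_atTop
  have hAne : (Ap K).Nonempty := (fr_nonempty hK hd).mono fr_sub_Ap
  have hAp : p₀ ∈ Ap K := by
    rw [(Ap_compact hK).isClosed.mem_iff_infDist_zero hAne]
    have h1 : Tendsto (fun k => infDist (p (θ k)) (Ap K)) atTop (𝓝 (infDist p₀ (Ap K))) :=
      ((continuous_infDist_pt (Ap K)).tendsto p₀).comp hpθ
    have h2 : infDist p₀ (Ap K) ≤ 0 := le_of_tendsto_of_tendsto' h1 hz (fun k => hpA (θ k))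
    exact le_antisymm h2 infDist_nonneg
  have hLo : lo₀ ∈ Lo K 0 p₀ :=
    Lo_lim hK (s := fun _ => 0) hpθ hloθ tendsto_const_nhds
      (fun k => ⟨(hm (θ k)).lo_mem, by rw [(hm (θ k)).lo_min, add_zero]⟩)
  have hHi : hi₀ ∈ Lo K 0 p₀ :=
    Lo_lim hK hpθ hhiθ hz (fun k => ⟨(hm (θ k)).hi_mem, hF (θ k)⟩)
  have hconn : IsPreconnected (Lo K 0 p₀) := by
    rcases hAp with h | h
    · obtain ⟨m, hmm⟩ := argmin_unique hK h7 hd h.1 h.2
      rw [hmm]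
      exact isPreconnected_singleton
    · exact pat_conn hK hd h
  have he : 0 < δ / 4 := by linarith
  obtain ⟨V, hVs, hVc, hV0, η, hη, hVη⟩ := S_loc hK hd hlo₀ he
  obtain ⟨V', hVs', hVc', hV0', η', hη', hVη'⟩ := S_loc hK hd hhi₀ he
  have hC1 : IsPreconnected (V ∪ Lo K 0 p₀) := IsPreconnected.union lo₀ hV0 hLo hVc hconn
  have hC : IsPreconnected ((V ∪ Lo K 0 p₀) ∪ V') := IsPreconnected.union hi₀ (Or.inr hHi) hV0' hC1 hVc'
  have hCS : (V ∪ Lo K 0 p₀) ∪ V' ⊆ S K := by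
    rintro z ((hz | hz) | hz)
    · exact (hVs hz).1
    · exact hz.1
    · exact (hVs' hz).1
  have hCF : ∀ z ∈ (V ∪ Lo K 0 p₀) ∪ V', F p₀ z ≤ mn K p₀ + δ / 4 := by
    rintro z ((hz | hz) | hz)
    · have h1 := (abs_le.mp (F_lip' p₀ z lo₀)).2
      have h2 := (hVs hz).2
      rw [mem_ball, dist_eq_norm] at h2
      have h3 := hLo.2
      linarith
    · have h3 := hz.2
      linarith
    · have h1 := (abs_le.mp (F_lip' p₀ z hi₀)).2
      have h2 := (hVs' hz).2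
      rw [mem_ball, dist_eq_norm] at h2
      have h3 := hHi.2
      linarith
  have ev1 : ∀ᶠ k in atTop, lo (θ k) ∈ ball lo₀ η := hloθ (ball_mem_nhds _ hη)
  have ev2 : ∀ᶠ k in atTop, hi (θ k) ∈ ball hi₀ η' := hhiθ (ball_mem_nhds _ hη')
  have ev3 : ∀ᶠ k in atTop, p (θ k) ∈ ball p₀ (δ / 16) := hpθ (ball_mem_nhds _ (by linarith))
  obtain ⟨k, hk1, hk2, hk3⟩ := (ev1.and (ev2.and ev3)).exists
  rw [mem_ball, dist_eq_norm] at hk3
  have hpass : pass (S K) (F (p (θ k))) (lo (θ k)) (hi (θ k)) ≤ mn K p₀ + δ / 4 + δ / 16 := by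
    refine pass_le hK hCS hC (Or.inl (Or.inl (hVη ⟨(hm (θ k)).lo_mem, hk1⟩))) (Or.inr (hVη' ⟨(hm (θ k)).hi_mem, hk2⟩)) ?_
    intro z hz
    have h1 := hCF z hz
    have h2 := (abs_le.mp (F_lip (p (θ k)) p₀ z)).2
    linarith
  rw [cl_eq hK h7 hd (hpO (θ k)) (hm (θ k)).lo_mem (hm (θ k)).hi_mem (hm (θ k)).sepd] at hpass
  have h1 := hcl (θ k)
  have h2 := (abs_le.mp (mn_cont hK (p (θ k)) p₀)).1
  linarith

end Pool.Agent.E8N
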