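import Pool.Agent.E8N.NMid
import Pool.Agent.E8N.NTie
import Pool.Agent.E8N.NLow

/-!
# E8N NNear

Choice of all constants near `Ap K`. `η₁` from `nsep1`, `η₂` from `nmid`; `δ := min η₁ η₂`, `ε := δ`; `b` from `tie` with `δ/2`; `γ := min (min (δ/4) b) (η₂/4)` (so `2γ < δ`, `2γ ≤ η₂`); `a := γ/2`; `η₃` from `nsep3` with
this `a`; `r₁` from `nmid` with this `a`; `r₀` from `inw`; `r :=` minimum of `η₁, b, η₃/4, r₁, r₀, a/16, δ/16, ρ/2`. Then check the fields: `n1` from `nsep1` (`SepU_mono`, `Lo_mono`, `Hi K ε p ⊆ Hi K η₁ p`), `n2` from `tie` (`γ ≤ b`), `n3` from `nsep3`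
(`Lo K (4r) p ⊆ Lo K η₃ p`, radius `0 ≤ η₃`), `n4` from `nmid` (`2γ ≤ η₂`, `δ, ε ≤ η₂`), `n6` from `inw` (`Lo K (4r) p ⊆ Lo K (4 r₀) p`).
-/

set_option autoImplicit false

open Metric Set Filter Topology

namespace Pool.Agent.E8N

variable {E : Type*} [NormedAddCommGroup E] [InnerProductSpace ℝ E] [FiniteDimensional ℝ E]
variable {K : Set E} {ρ R : ℝ}

theorem near (hK : Body K ρ R) (h7 : AtMost7 K) (hd : 4 ≤ Module.finrank ℝ E) :
    ∃ δ ε γ a r, NearP K δ ε γ a r ∧ r < ρ := by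
  obtain ⟨η₁, hη₁, s1⟩ := nsep1 hK h7 hd
  obtain ⟨η₂, hη₂, md⟩ := nmid hK h7 hd
  obtain ⟨δ, hδdef⟩ : ∃ δ, δ = min η₁ η₂ := ⟨_, rfl⟩
  have hδ : 0 < δ := hδdef ▸ lt_min hη₁ hη₂
  have hδ1 : δ ≤ η₁ := hδdef ▸ min_le_left _ _
  have hδ2 : δ ≤ η₂ := hδdef ▸ min_le_right _ _
  obtain ⟨b, hb, tb⟩ := tie hK h7 hd (half_pos hδ)
  obtain ⟨γ, hγdef⟩ : ∃ γ, γ = min (min (δ / 4) b) (η₂ / 4) := ⟨_, rfl⟩
  have hγ : 0 < γ := hγdef ▸ lt_min (lt_min (by linarith) hb) (by linarith)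
  have hγ1 : γ ≤ δ / 4 := hγdef ▸ (min_le_left _ _).trans (min_le_left _ _)
  have hγ2 : γ ≤ b := hγdef ▸ (min_le_left _ _).trans (min_le_right _ _)
  have hγ3 : γ ≤ η₂ / 4 := hγdef ▸ (min_le_right _ _)
  have ha : 0 < γ / 2 := by linarith
  obtain ⟨η₃, hη₃, s3⟩ := nsep3 hK h7 hd ha
  obtain ⟨r₁, hr₁, m1⟩ := md (γ / 2) ha
  obtain ⟨r₀, hr₀, iw⟩ := inw hK hd
  have hρ := hK.hρ
  obtain ⟨r, hrdef⟩ : ∃ r, r = min (min (min η₁ b) (min (η₃ / 4) r₁)) (min (min r₀ (γ / 2 / 16)) (min (δ / 16) (ρ / 2))) :=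
    ⟨_, rfl⟩
  have hr : 0 < r := by
    rw [hrdef]
    refine lt_min (lt_min (lt_min hη₁ hb) (lt_min (by linarith) hr₁)) (lt_min (lt_min hr₀ (by linarith)) (lt_min (by linarith) (by linarith)))
  have e1 : r ≤ η₁ := hrdef ▸ ((min_le_left _ _).trans (min_le_left _ _)).trans (min_le_left _ _)
  have e2 : r ≤ b := hrdef ▸ ((min_le_left _ _).trans (min_le_left _ _)).trans (min_le_right _ _)
  have e3 : r ≤ η₃ / 4 := hrdef ▸ ((min_le_left _ _).trans (min_le_right _ _)).trans (min_le_left _ _)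
  have e4 : r ≤ r₁ := hrdef ▸ ((min_le_left _ _).trans (min_le_right _ _)).trans (min_le_right _ _)
  have e5 : r ≤ r₀ := hrdef ▸ ((min_le_right _ _).trans (min_le_left _ _)).trans (min_le_left _ _)
  have e6 : r ≤ γ / 2 / 16 := hrdef ▸ ((min_le_right _ _).trans (min_le_left _ _)).trans (min_le_right _ _)
  have e7 : r ≤ δ / 16 := hrdef ▸ ((min_le_right _ _).trans (min_le_right _ _)).trans (min_le_left _ _)
  have e8 : r ≤ ρ / 2 := hrdef ▸ ((min_le_right _ _).trans (min_le_right _ _)).trans (min_le_right _ _)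
  clear hrdef hγdef hδdef
  refine ⟨δ, δ, γ, γ / 2, r, ?_, by linarith⟩
  refine ⟨hδ, hδ, ha, by linarith, by linarith, hr, by linarith, by linarith, ?_, ?_, ?_, ?_, ?_⟩
  · intro p hp hd1 y hy
    have hy' : y ∈ Hi K η₁ p := ⟨hy.1, by have := hy.2; linarith⟩
    obtain ⟨u, hu⟩ := s1 p hp (hd1.trans e1) y hy'
    exact ⟨u, SepU_mono hu (Lo_mono hδ1) hδ1⟩
  · intro p hp hd1 lo hi hm hF
    exact tb p hp (hd1.trans e2) lo hi hm (by linarith)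
  · intro p hp hd1 y hy hF
    obtain ⟨u, hu⟩ := s3 p hp (by linarith) y hy hF
    exact ⟨u, SepU_mono hu (Lo_mono (by linarith)) hη₃.le⟩
  · intro p hp hcd hd1 x y hxy h1 h2
    obtain ⟨u, hu⟩ := m1 p hp hcd (hd1.trans e4) x y hxy h1 (by linarith)
    exact ⟨u, SepU_mono hu (Lo_mono hδ2) hδ2⟩
  · intro p hp hd1 x hx
    exact iw p hp (hd1.trans e5) x (Lo_mono (by linarith) hx)

end Pool.Agent.E8N
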