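import Pool.Agent.E8N.NLim

/-!
# E8N NSel

Lemma SEL (no cancellation in a finite closed cover).
Proof. By `tietze` choose continuous `W i : E → E` with `W i = V i` on `C i`.
Claim A: there is `η > 0` such that for every `q ∈ D` there is `u` with: for all `i` with `C i` nonempty and `infDist q (C i) < η`, `0 < ⟪u, W i q⟫`. Otherwise take `q_k ∈ D` violating it for `η = 1/(k+1)`; subsequence
`q_k → q₀ ∈ D`; take `u` of `hu q₀`. For `i` with `q₀ ∈ C i`: `⟪u, W i q_k⟫ → ⟪u, V i q₀⟫ > 0`; for `i` with `q₀ ∉ C i`, `C i` nonempty: `infDist q_k (C i) → infDist q₀ (C i) > 0`, so eventually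
`infDist q_k (C i) ≥ 1/(k+1)`. Finitely many `i`: for large `k` (along the subsequence) `u` works for `q_k`, contradiction.
Claim B: there is `η' > 0` such that for `q ∈ Fr` and all `i` with `C i` nonempty, `infDist q (C i) < η'`: `0 < ⟪w q, W i q⟫` (same proof with `w q` instead of `u`; `Fr` is compact: closed subset of `D`).
Let `η₀ = min η η'`, `λ i q = if C i nonempty then max 0 (η₀ - infDist q (C i)) else 0` (continuous), `Z q = ∑ i, λ i q • W i q`. For `q ∈ D` and `u` of Claim A, `⟪u, Z q⟫ = ∑ λ_i ⟪u, W i q⟫`, every term is `≥ 0` and a term with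
`q ∈ C i` (`hcov`; `λ i q = η₀ > 0`) is positive, so `Z q ≠ 0`. Same for `Fr` with `u = w q`.
-/

set_option autoImplicit false

open Metric Set Filter Topology

namespace Pool.Agent.E8N

variable {E : Type*} [NormedAddCommGroup E] [InnerProductSpace ℝ E] [FiniteDimensional ℝ E]
variable {K : Set E} {ρ R : ℝ}

theorem NSel_claim {ι : Type*} [Fintype ι] {G : Set E} (hG : IsCompact G) {C : ι → Set E}
    (hC : ∀ i, IsClosed (C i)) {W : ι → E → E} (hW : ∀ i, Continuous (W i)) {U : E → E → E}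
    (hU : ∀ q₀, Continuous (U q₀)) (h : ∀ q₀ ∈ G, ∀ i, q₀ ∈ C i → 0 < inner ℝ (U q₀ q₀) (W i q₀)) :
    ∃ η > 0, ∀ q ∈ G, ∃ q₀ ∈ G, ∀ i, (C i).Nonempty → infDist q (C i) < η → 0 < inner ℝ (U q₀ q) (W i q) := by
  refine hG.induction_on (p := fun s => ∃ η > 0, ∀ q ∈ s, ∃ q₀ ∈ G, ∀ i, (C i).Nonempty →
    infDist q (C i) < η → 0 < inner ℝ (U q₀ q) (W i q)) ?_ ?_ ?_ ?_
  · exact ⟨1, one_pos, fun q hq => hq.elim⟩
  · rintro s t hst ⟨η, hη, h1⟩
    exact ⟨η, hη, fun q hq => h1 q (hst hq)⟩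
  · rintro s t ⟨η, hη, h1⟩ ⟨η', hη', h2⟩
    refine ⟨min η η', lt_min hη hη', fun q hq => ?_⟩
    rcases hq with hq | hq
    · obtain ⟨q₀, hq₀, h3⟩ := h1 q hq
      exact ⟨q₀, hq₀, fun i hi hd => h3 i hi (hd.trans_le (min_le_left _ _))⟩
    · obtain ⟨q₀, hq₀, h3⟩ := h2 q hq
      exact ⟨q₀, hq₀, fun i hi hd => h3 i hi (hd.trans_le (min_le_right _ _))⟩
  · intro x hx
    have key : ∀ i, ∃ η > 0, ∀ᶠ q in 𝓝 x, (C i).Nonempty → infDist q (C i) < η → 0 < inner ℝ (U x q) (W i q) := by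
      intro i
      by_cases hxi : x ∈ C i
      · refine ⟨1, one_pos, ?_⟩
        have hc : Continuous fun q => inner ℝ (U x q) (W i q) := (hU x).inner (hW i)
        have he : ∀ᶠ q in 𝓝 x, 0 < inner ℝ (U x q) (W i q) :=
          continuousAt_const.eventually_lt hc.continuousAt (h x hx i hxi)
        exact he.mono fun q hq _ _ => hq
      · by_cases hne : (C i).Nonempty
        · have h0 : 0 < infDist x (C i) := ((hC i).notMem_iff_infDist_pos hne).1 hxi
          refine ⟨infDist x (C i) / 2, by positivity, ?_⟩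
          have hc : Continuous fun q => infDist q (C i) := continuous_infDist_pt _
          have he : ∀ᶠ q in 𝓝 x, infDist x (C i) / 2 < infDist q (C i) :=
            continuousAt_const.eventually_lt hc.continuousAt (by linarith)
          exact he.mono fun q hq _ h2 => absurd h2 (not_lt.2 hq.le)
        · exact ⟨1, one_pos, Eventually.of_forall fun q h1 => absurd h1 hne⟩
    choose η hη hev using key
    have h1 : ∀ᶠ e in 𝓝[>] (0 : ℝ), ∀ i, e < η i :=
      eventually_all.2 fun i => (eventually_lt_nhds (hη i)).filter_mono nhdsWithin_le_nhds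
    obtain ⟨e, he, he0⟩ := (h1.and self_mem_nhdsWithin).exists
    have h2 : ∀ᶠ q in 𝓝 x, ∀ i, (C i).Nonempty → infDist q (C i) < η i → 0 < inner ℝ (U x q) (W i q) :=
      eventually_all.2 hev
    refine ⟨{q | ∀ i, (C i).Nonempty → infDist q (C i) < η i → 0 < inner ℝ (U x q) (W i q)},
      mem_nhdsWithin_of_mem_nhds h2, e, he0, fun q hq => ⟨x, hx, fun i hi hd => hq i hi (hd.trans (he i))⟩⟩

open Classical in
/-- the weights -/
noncomputable def NSel_w (C : Set E) (η : ℝ) (q : E) : ℝ := if C.Nonempty then max 0 (η - infDist q C) else 0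

theorem NSel_w_cont (C : Set E) (η : ℝ) : Continuous (NSel_w C η) := by
  unfold NSel_w
  by_cases h : C.Nonempty
  · simp only [h, if_true]
    exact continuous_const.max (continuous_const.sub (continuous_infDist_pt _))
  · simp only [h, if_false]
    exact continuous_const

theorem NSel_w_nonneg (C : Set E) (η : ℝ) (q : E) : 0 ≤ NSel_w C η q := by
  unfold NSel_w
  split_ifs
  · exact le_max_left _ _
  · exact le_rfl

theorem NSel_w_pos {C : Set E} {η : ℝ} {q : E} (h : 0 < NSel_w C η q) : C.Nonempty ∧ infDist q C < η := by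
  unfold NSel_w at h
  split_ifs at h with hC
  · refine ⟨hC, ?_⟩
    rcases lt_max_iff.1 h with h | h
    · exact absurd h (lt_irrefl _)
    · linarith
  · exact absurd h (lt_irrefl _)

theorem NSel_w_mem {C : Set E} {η : ℝ} (hη : 0 < η) {q : E} (h : q ∈ C) : 0 < NSel_w C η q := by
  unfold NSel_w
  rw [if_pos ⟨q, h⟩, infDist_zero_of_mem h, sub_zero]
  exact lt_max_of_lt_right hη

theorem NSel_pos {ι : Type*} [Fintype ι] {C : ι → Set E} {W : ι → E → E} {η : ℝ} (hη : 0 < η) {q u : E}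
    (h : ∀ i, (C i).Nonempty → infDist q (C i) < η → 0 < inner ℝ u (W i q)) (hq : ∃ i, q ∈ C i) :
    0 < inner ℝ u (∑ i, NSel_w (C i) η q • W i q) := by
  rw [inner_sum]
  refine Finset.sum_pos' (fun i _ => ?_) ?_
  · rw [inner_smul_right]
    rcases (NSel_w_nonneg (C i) η q).eq_or_lt with h0 | h0
    · rw [← h0, zero_mul]
    · obtain ⟨h1, h2⟩ := NSel_w_pos h0
      exact (mul_pos h0 (h i h1 h2)).le
  · obtain ⟨i, hi⟩ := hq
    refine ⟨i, Finset.mem_univ i, ?_⟩
    rw [inner_smul_right]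
    have h0 := NSel_w_mem hη hi
    obtain ⟨h1, h2⟩ := NSel_w_pos h0
    exact mul_pos h0 (h i h1 h2)

theorem sel {ι : Type*} [Fintype ι] {D Fr : Set E} (hD : IsCompact D) (hFr : IsClosed Fr) (hFrD : Fr ⊆ D)
    {C : ι → Set E} (hC : ∀ i, IsClosed (C i)) (hcov : ∀ p ∈ D, ∃ i, p ∈ C i) {V : ι → E → E}
    (hV : ∀ i, ContinuousOn (V i) (C i)) (hu : ∀ p ∈ D, ∃ u : E, ∀ i, p ∈ C i → 0 < inner ℝ u (V i p))
    {w : E → E} (hw : Continuous w) (hwp : ∀ p ∈ Fr, ∀ i, p ∈ C i → 0 < inner ℝ (w p) (V i p)) :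
    ∃ Z : E → E, ContinuousOn Z D ∧ (∀ p ∈ D, Z p ≠ 0) ∧ ∀ p ∈ Fr, 0 < inner ℝ (w p) (Z p) := by
  have ht : ∀ i, ∃ G : E → E, Continuous G ∧ ∀ x ∈ C i, G x = V i x := fun i => tietze (hC i) (hV i)
  choose W hW hWV using ht
  choose! u hu' using hu
  obtain ⟨η, hη, h1⟩ := NSel_claim hD hC hW (U := fun q₀ _ => u q₀) (fun _ => continuous_const)
    (fun q₀ hq₀ i hi => by rw [hWV i q₀ hi]; exact hu' q₀ hq₀ i hi)
  obtain ⟨η', hη', h2⟩ := NSel_claim (hD.of_isClosed_subset hFr hFrD) hC hW (U := fun _ q => w q) (fun _ => hw)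
    (fun q₀ hq₀ i hi => by rw [hWV i q₀ hi]; exact hwp q₀ hq₀ i hi)
  have hη₀ : 0 < min η η' := lt_min hη hη'
  refine ⟨fun q => ∑ i, NSel_w (C i) (min η η') q • W i q, ?_, fun q hq => ?_, fun q hq => ?_⟩
  · exact (continuous_finsetSum _ fun i _ => (NSel_w_cont (C i) _).smul (hW i)).continuousOn
  · obtain ⟨q₀, -, h3⟩ := h1 q hq
    have h4 := NSel_pos (W := W) hη₀ (q := q) (u := u q₀)
      (fun i hi hd => h3 i hi (hd.trans_le (min_le_left _ _))) (hcov q hq)
    intro h0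
    simp only [h0, inner_zero_right] at h4
    exact lt_irrefl _ h4
  · obtain ⟨q₀, -, h3⟩ := h2 q hq
    exact NSel_pos (W := W) hη₀ (q := q) (u := w q)
      (fun i hi hd => h3 i hi (hd.trans_le (min_le_right _ _))) (hcov q (hFrD hq))

end Pool.Agent.E8N
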