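import Pool.Agent.E8N.NPartV
import Pool.Agent.E8N.NApC

/-!
# E8N NV

* `v1_exists`: apply `partV` with `Q = Ap K` (compact), `φ q` = some point of `Lo K 0 q` (`Lo_nonempty`; choice), and `V := -V'`. For `p ∈ K`, `infDist p (Ap K) ≤ r` there is `q ∈ Ap K` with `‖p - q‖ ≤ r` (`Ap_near`). If `‖p - q‖ ≤ 2r`, `q ∈ Ap K`, then
  `φ q ∈ Lo K (4 r) p`: `F p (φ q) ≤ F q (φ q) + 2r = mn K q + 2r ≤ mn K p + 4r` (`F_lip`, `mn_cont`). Use the vector `-u`: `⟪-u, dir p (φ q)⟫ > 0` for these `q`, so `⟪-u, V' p⟫ > 0`, i.e. `⟪u, -V' p⟫ > 0`.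
* `v2_exists`: `Q = B1 K r` (compact: hypothesis `hB`), `φ q` = some point of `Hi K 0 q` (`Hi_nonempty`).
-/

set_option autoImplicit false

open Metric Set Filter Topology

namespace Pool.Agent.E8N

variable {E : Type*} [NormedAddCommGroup E] [InnerProductSpace ℝ E] [FiniteDimensional ℝ E]
variable {K : Set E} {ρ R : ℝ}

theorem v1_exists (hK : Body K ρ R) (hd : 4 ≤ Module.finrank ℝ E) {r : ℝ} (hr : 0 < r) :
    ∃ V : E → E, ContinuousOn V K ∧ ∀ p ∈ K, infDist p (Ap K) ≤ r → ∀ u : E,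
      (∀ x ∈ Lo K (4 * r) p, inner ℝ u (dir p x) < 0) → 0 < inner ℝ u (V p) := by
  classical
  have hex : ∀ q : E, ∃ x ∈ S K, F q x = mn K q := fun q => Lo_nonempty hK hd q
  choose φ hφ1 hφ2 using hex
  obtain ⟨V', hV', hV2⟩ := partV hK (Ap_compact hK) hr φ (fun q _ => hφ1 q)
  refine ⟨fun p => - V' p, hV'.neg, ?_⟩
  intro p hp hpA u hu
  have h1 := hV2 p hp (Ap_near hK hd hpA) (-u) (by
    intro q hq hpq
    rw [inner_neg_left]
    have h2 : φ q ∈ Lo K (4 * r) p := by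
      refine ⟨hφ1 q, ?_⟩
      have h3 := abs_le.mp (F_lip p q (φ q))
      have h4 := abs_le.mp (mn_cont hK p q)
      have h5 := hφ2 q
      linarith [h3.2, h4.1]
    have h6 := hu (φ q) h2
    linarith)
  rw [inner_neg_left] at h1
  rw [inner_neg_right]
  exact h1

theorem v2_exists (hK : Body K ρ R) (hd : 4 ≤ Module.finrank ℝ E) {r r₂ : ℝ} (hr₂ : 0 < r₂) (hB : IsCompact (B1 K r)) :
    ∃ V : E → E, ContinuousOn V K ∧ ∀ p ∈ K, (∃ q ∈ B1 K r, ‖p - q‖ ≤ r₂) → ∀ u : E,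
      (∀ q ∈ B1 K r, ‖p - q‖ ≤ 2 * r₂ → ∀ y ∈ Hi K 0 q, 0 < inner ℝ u (dir p y)) → 0 < inner ℝ u (V p) := by
  classical
  have hex : ∀ q : E, ∃ x ∈ S K, F q x = mx K q := fun q => Hi_nonempty hK hd q
  choose φ hφ1 hφ2 using hex
  obtain ⟨V', hV', hV2⟩ := partV hK hB hr₂ φ (fun q _ => hφ1 q)
  refine ⟨V', hV', ?_⟩
  intro p hp hpB u hu
  refine hV2 p hp hpB u (fun q hq hpq => hu q hq hpq (φ q) ⟨hφ1 q, ?_⟩)
  rw [hφ2 q, sub_zero]

end Pool.Agent.E8N
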