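import Pool.Agent.E8N.NChkA
import Pool.Agent.E8N.NChkB
import Pool.Agent.E8N.NData
import Pool.Agent.E8N.NNear
import Pool.Agent.E8N.NB
import Pool.Agent.E8N.NSel
import Pool.Agent.E8N.NV
import Pool.Agent.E8N.NDFacts

/-!
# E8N NFin

Final contradiction. Suppose `h7 : AtMost7 K`. `near`: `δ ε γ a r`; `nearB` with this `r, ε`: `r₂ ε₂ κ`; `data`: `ω X Y ξ`. `V₁` from `v1_exists`, `V₂` from `v2_exists` (`B1_compact`). `D = DD K (r/2)` (compact, convex, `0 ∈ interior D` as `r/2 < ρ`). Apply `sel` with `ι = Fin 5` (or a custom inductive type), `Fr = frontier D` (`⊆ D`, closed),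
`C = ![C1 K r, C2 K r r₂, St ∩ {F p (X p) ≤ mn + θ}, St ∩ {mn + θ ≤ F p (X p)}, Cc]`, `θ = (a+γ)/2` (the third and fourth are closed: `X` is continuous on the compact set `St`, `F`, `mn` continuous), `V = ![V₁, V₂, fun p => - dir p (X p), fun p => dir p (Y p), fun p => - dir p (ξ p)]` (continuous on the corresponding sets, `dir` is continuous where `x ≠ p`),
`w p = -p`. `hcov`: `cover`. `hu`: by cases `p ∈ C1` (`chkA`) or not (`chkB`), with `v1_exists`, `v2_exists` for `V₁, V₂`. `hwp`: `p ∈ frontier D`: `infDist p (frontier K) ≤ r/2` (`DD_fr`), hence `infDist p (Ap K) ≤ r/2 < r` (`infDist_le_infDist_of_subset`, `fr_sub_Ap`), so `p` is only in the first set; there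
`⟪-p, V₁ p⟫ > 0` by `v1_exists` with `u = -p` and `hN.n6`. `sel` gives `Z`; `brouwer_field` with `Z`: on the frontier `0 < ⟪-p, Z p⟫`, so `⟪Z p, p⟫ < 0`. Contradiction.
-/

set_option autoImplicit false

open Metric Set Filter Topology

namespace Pool.Agent.E8N

variable {E : Type*} [NormedAddCommGroup E] [InnerProductSpace ℝ E] [FiniteDimensional ℝ E]
variable {K : Set E} {ρ R : ℝ}

theorem NFin_dir_cont (hK : Body K ρ R) {A : Set E} (hA : A ⊆ K) {X : E → E} (hX : ContinuousOn X A)
    (hs : ∀ p ∈ A, X p ∈ S K) : ContinuousOn (fun p => dir p (X p)) A := by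
  unfold dir
  have h1 : ContinuousOn (fun p => X p - p) A := hX.sub continuousOn_id
  refine ContinuousOn.smul (ContinuousOn.inv₀ h1.norm ?_) h1
  intro p hp h0
  have h2 : X p - p = 0 := norm_eq_zero.mp h0
  have h3 : X p = p := sub_eq_zero.mp h2
  refine S_disj hK (hs p hp) ?_
  rw [h3]; exact hA hp

theorem NFin_mn_cont (hK : Body K ρ R) : Continuous (mn K) := by
  have h : LipschitzWith 1 (mn K) := by
    refine LipschitzWith.of_dist_le_mul ?_
    intro p q
    rw [Real.dist_eq, dist_eq_norm]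
    simpa using mn_cont hK p q
  exact h.continuous

omit [InnerProductSpace ℝ E] [FiniteDimensional ℝ E] in
theorem NFin_F_cont {A : Set E} {X : E → E} (hX : ContinuousOn X A) :
    ContinuousOn (fun p => F p (X p)) A := by
  unfold F
  exact (hX.sub continuousOn_id).norm

theorem not_atMost7 (hK : Body K ρ R) (hd : 4 ≤ Module.finrank ℝ E) : ¬ AtMost7 K := by
  intro h7
  obtain ⟨δ, ε, γ, a, r, hN, hrρ⟩ := near hK h7 hd
  obtain ⟨r₂, ε₂, κ, hB, hε₂, hr₂⟩ := nearB hK h7 hd hN.hr hN.hε
  obtain ⟨ω, X, Y, ξ, hD⟩ := data hK h7 hd hN hB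
  obtain ⟨V₁, cV₁, hV₁⟩ := v1_exists hK hd hN.hr
  obtain ⟨V₂, cV₂, hV₂⟩ := v2_exists hK hd hB.hr₂ (B1_compact hK hN.hr)
  have hr := hN.hr
  have hr2 : 0 < r / 2 := by linarith
  have DK : DD K (r / 2) ⊆ K := (DD_sub hr2).trans interior_subset
  have Dcpt : IsCompact (DD K (r / 2)) := DD_compact hK hr2
  have StK : St K r r₂ ω ⊆ K := fun p hp => DK hp.1.1
  have CcK : Cc K r r₂ ω ⊆ K := fun p hp => DK hp.1.1
  have StC : IsClosed (St K r r₂ ω) := (St_compact hK h7 hd hr hB.hr₂).isClosed
  have CcC : IsClosed (Cc K r r₂ ω) := (Cc_compact hK h7 hd hr hB.hr₂).isClosed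
  have cFX : ContinuousOn (fun p => F p (X p)) (St K r r₂ ω) := NFin_F_cont hD.cX
  have cmn : ContinuousOn (fun p => mn K p + (a + γ) / 2) (St K r r₂ ω) :=
    ((NFin_mn_cont hK).add continuous_const).continuousOn
  have frD : frontier (DD K (r / 2)) ⊆ DD K (r / 2) := Dcpt.isClosed.frontier_subset
  have hAp : ∀ p ∈ frontier (DD K (r / 2)), infDist p (Ap K) ≤ r / 2 := by
    intro p hp
    exact (infDist_le_infDist_of_subset fr_sub_Ap (fr_nonempty hK hd)).trans (DD_fr hK hd hr2 hp)
  have key := sel (E := E) (ι := Fin 5) (D := DD K (r / 2)) (Fr := frontier (DD K (r / 2))) Dcpt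
    isClosed_frontier frD
    (C := ![C1 K r, C2 K r r₂, {p | p ∈ St K r r₂ ω ∧ F p (X p) ≤ mn K p + (a + γ) / 2},
      {p | p ∈ St K r r₂ ω ∧ mn K p + (a + γ) / 2 ≤ F p (X p)}, Cc K r r₂ ω])
    ?_ ?_
    (V := ![V₁, V₂, fun p => - dir p (X p), fun p => dir p (Y p), fun p => - dir p (ξ p)])
    ?_ ?_ (w := fun p => - p) continuous_neg ?_
  · obtain ⟨Z, cZ, hZ0, hZf⟩ := key
    refine brouwer_field Dcpt (DD_convex hK) (DD_zero hK hr2 (by linarith)) cZ hZ0 ?_
    intro p hp
    have h1 := hZf p hp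
    rw [inner_neg_left, real_inner_comm] at h1
    linarith
  · -- closedness
    intro i
    fin_cases i
    · exact C1_closed hK hr
    · exact C2_closed hK hr
    · exact StC.isClosed_le cFX cmn
    · exact StC.isClosed_le cmn cFX
    · exact CcC
  · -- cover
    intro p hp
    rcases cover (r₂ := r₂) (ω := ω) hK hp with h | h | h | h
    · exact ⟨0, h⟩
    · exact ⟨1, h⟩
    · rcases le_total (F p (X p)) (mn K p + (a + γ) / 2) with h' | h'
      · exact ⟨2, h, h'⟩
      · exact ⟨3, h, h'⟩
    · exact ⟨4, h⟩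
  · -- continuity
    intro i
    fin_cases i
    · exact cV₁.mono fun p hp => DK hp.1
    · exact cV₂.mono fun p hp => DK hp.1
    · exact (NFin_dir_cont hK StK hD.cX hD.sX).neg.mono fun p hp => hp.1
    · exact (NFin_dir_cont hK StK hD.cY hD.sY).mono fun p hp => hp.1
    · exact (NFin_dir_cont hK CcK hD.cξ hD.sξ).neg
  · -- no cancellation
    intro p hp
    by_cases hp1 : p ∈ C1 K r
    · obtain ⟨u, u1, u2, u3, u4, u5⟩ := chkA hK h7 hd hN hB hε₂ hr₂ hD hp1
      refine ⟨u, ?_⟩
      intro i
      fin_cases i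
      · intro h
        exact hV₁ p (DK hp) hp1.2 u u1
      · intro h
        exact hV₂ p (DK hp) h.2.2 u (u2 h)
      · intro h
        have := u3 h.1 h.2
        change 0 < inner ℝ u (- dir p (X p))
        rw [inner_neg_right]; linarith
      · intro h
        exact u4 h.1 h.2
      · intro h
        have := u5 h
        change 0 < inner ℝ u (- dir p (ξ p))
        rw [inner_neg_right]; linarith
    · obtain ⟨u, u2, u3, u4, u5⟩ := chkB hK h7 hd hN hB hε₂ hr₂ hD hp hp1
      refine ⟨u, ?_⟩
      intro i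
      fin_cases i
      · intro h
        exact absurd h hp1
      · intro h
        exact hV₂ p (DK hp) h.2.2 u (u2 h)
      · intro h
        have := u3 h.1 h.2
        change 0 < inner ℝ u (- dir p (X p))
        rw [inner_neg_right]; linarith
      · intro h
        exact u4 h.1 h.2
      · intro h
        have := u5 h
        change 0 < inner ℝ u (- dir p (ξ p))
        rw [inner_neg_right]; linarith
  · -- the frontier
    intro p hp
    have h1 := hAp p hp
    intro i
    fin_cases i
    · intro h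
      refine hV₁ p (DK (frD hp)) (by linarith) (-p) ?_
      intro x hx
      have := hN.n6 p (DK (frD hp)) (by linarith [DD_fr hK hd hr2 hp]) x hx
      rw [inner_neg_left, real_inner_comm]
      linarith
    · intro h
      have := h.2.1
      exfalso; linarith
    · intro h
      have := h.1.1.2.1
      exfalso; linarith
    · intro h
      have := h.1.1.2.1
      exfalso; linarith
    · intro h
      have := h.1.2.1
      exfalso; linarith

end Pool.Agent.E8N
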