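import Pool.Agent.E8N.NPat

/-!
# E8N NFoot

* `foot`: `y ∈ Crit K p`: `y - p = F p y • nu K y` (`crit_eq`), `‖nu K y‖ = 1`, `F p y ≥ 1 > 0`, so `dir p y = nu K y` and
  `P K y = y - nu K y = p + (F p y - 1) • nu K y`.
* `foot_bd`: let `w = P K y = p + (F p y - 1) • dir p y ∈ K`; for small `t ∈ (0,1)` the point `q = (1 - t) • w` is in `interior K`
  (`0 ∈ interior K`; `Convex.combo_interior_self_mem_interior` or `Convex.combo_self_interior_mem_interior`). `u = q - p`. For `x ∈ Lo K 0 p`: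
  `pat_inner`. And `⟪u, dir p y⟫ = (F p y - 1) - t ⟪w, dir p y⟫ > 0` for small `t` (`|⟪w, dir p y⟫| ≤ ‖w‖`).
* `ptU`: for `p ∈ Ap K`: if `p ∈ frontier K`, then `mn K p = 1` (`pat_mn`), use `foot_bd`; if `p ∈ interior K` has no separated pair of minima, then
  `Lo K 0 p = {m}` (`argmin_unique`), `m ≠ y` because `F p m = mn K p < F p y`; use `two_pts` with `u = dir p y - dir p m`.
-/

set_option autoImplicit false

open Metric Set Filter Topology

namespace Pool.Agent.E8N

variable {E : Type*} [NormedAddCommGroup E] [InnerProductSpace ℝ E] [FiniteDimensional ℝ E]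
variable {K : Set E} {ρ R : ℝ}

theorem foot (hK : Body K ρ R) {p y : E} (hp : p ∈ K) (hy : y ∈ Crit K p) :
    P K y = p + (F p y - 1) • dir p y ∧ dir p y = nu K y := by
  have h1 := crit_eq hy hK hp
  have hF := one_le_F hK hy.1 hp
  have hF0 : F p y ≠ 0 := by
    intro h0
    rw [h0] at hF
    linarith
  have h2 : dir p y = nu K y := by
    have h3 : dir p y = (F p y)⁻¹ • (y - p) := rfl
    rw [h3, h1, smul_smul, inv_mul_cancel₀ hF0, one_smul]
  refine ⟨?_, h2⟩
  rw [h2, sub_smul, one_smul, ← h1]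
  have h4 : nu K y = y - P K y := rfl
  rw [h4]
  abel

theorem foot_bd (hK : Body K ρ R) (hd : 4 ≤ Module.finrank ℝ E) {p y : E} (hp : p ∈ frontier K) (hy : y ∈ Crit K p)
    (h : 1 < F p y) : ∃ u : E, (∀ x ∈ Lo K 0 p, inner ℝ u (dir p x) < 0) ∧ 0 < inner ℝ u (dir p y) := by
  have hpK : p ∈ K := hK.cpt.isClosed.frontier_subset hp
  obtain ⟨hf1, hf2⟩ := foot hK hpK hy
  have hwK : P K y ∈ K := P_mem hK y
  set w := P K y with hw
  have hdn : ‖dir p y‖ = 1 := dir_norm hK hpK hy.1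
  -- choose t
  obtain ⟨t, ht0, ht1, ht2⟩ : ∃ t : ℝ, 0 < t ∧ t < 1 ∧ t * (‖w‖ + 1) < F p y - 1 := by
    have hw0 : 0 < ‖w‖ + 1 := by positivity
    have h3 : 0 < (F p y - 1) / (‖w‖ + 1) := div_pos (by linarith) hw0
    refine ⟨min (1 / 2) ((F p y - 1) / (‖w‖ + 1) / 2), lt_min (by norm_num) (by linarith),
      lt_of_le_of_lt (min_le_left _ _) (by norm_num), ?_⟩
    have h4 : min (1 / 2) ((F p y - 1) / (‖w‖ + 1) / 2) ≤ (F p y - 1) / (‖w‖ + 1) / 2 := min_le_right _ _
    have h5 := mul_le_mul_of_nonneg_right h4 hw0.le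
    have h6 : (F p y - 1) / (‖w‖ + 1) / 2 * (‖w‖ + 1) = (F p y - 1) / 2 := by field_simp
    rw [h6] at h5
    linarith
  have h0int : (0 : E) ∈ interior K := by
    rw [mem_interior]
    exact ⟨ball 0 ρ, ball_subset_closedBall.trans hK.ball, isOpen_ball, mem_ball_self hK.hρ⟩
  have hq : (1 - t) • w ∈ interior K := by
    have h3 := hK.conv.combo_interior_self_mem_interior h0int hwK ht0
      (show (0 : ℝ) ≤ 1 - t by linarith) (by ring)
    rwa [smul_zero, zero_add] at h3
  refine ⟨(1 - t) • w - p, fun x hx => pat_inner hK hd hp hx hq, ?_⟩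
  have h3 : (1 - t) • w - p = (F p y - 1) • dir p y - t • w := by
    rw [sub_smul, one_smul]
    nth_rewrite 1 [hf1]
    abel
  rw [h3, inner_sub_left, real_inner_smul_left, real_inner_smul_left, real_inner_self_eq_norm_sq,
    hdn]
  have h4 : inner ℝ w (dir p y) ≤ ‖w‖ := by
    have := real_inner_le_norm w (dir p y)
    rwa [hdn, mul_one] at this
  have h5 := mul_le_mul_of_nonneg_left h4 ht0.le
  nlinarith

theorem ptU (hK : Body K ρ R) (h7 : AtMost7 K) (hd : 4 ≤ Module.finrank ℝ E) {p y : E} (hp : p ∈ Ap K)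
    (hy : y ∈ Crit K p) (h : mn K p < F p y) :
    ∃ u : E, (∀ x ∈ Lo K 0 p, inner ℝ u (dir p x) < 0) ∧ 0 < inner ℝ u (dir p y) := by
  rcases hp with ⟨hp1, hp2⟩ | hp
  · obtain ⟨m, hm⟩ := argmin_unique hK h7 hd hp1 hp2
    have hmL : m ∈ Lo K 0 p := by rw [hm]; exact mem_singleton m
    have hne : m ≠ y := by
      rintro rfl
      have := hmL.2
      rw [add_zero] at this
      exact absurd h (not_lt.mpr this)
    have h3 := two_pts hK (interior_subset hp1) hmL.1 hy.1 hne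
    refine ⟨dir p y - dir p m, ?_, h3.2⟩
    intro x hx
    rw [hm] at hx
    rw [mem_singleton_iff.mp hx]
    exact h3.1
  · rw [pat_mn hK hd hp] at h
    exact foot_bd hK hd hp hy h

end Pool.Agent.E8N
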