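import Pool.Agent.E8N.Defs2

/-!
# E8N NLim

Limits along sequences and compactness (used everywhere below).
* `F_lim`: `F p x = ‖x - p‖`; `Tendsto.sub`, `Tendsto.norm`.
* `mn_lim`, `mx_lim`: from `mn_cont`, `mx_cont` (1-Lipschitz).
* `crit_lim`: `S K` is closed (`S_compact`), `tau K p x` is jointly continuous (`tau_cont`), so `tau K p₀ x₀ = 0`.
* `dir_lim`: `x₀ ≠ p₀` since `p₀ ∈ K`, `x₀ ∉ K` (`S_disj`); `dir p x = ‖x - p‖⁻¹ • (x - p)`.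
* `Lo_lim`, `Hi_lim`: limits of `F (p k) (x k) ≤ mn K (p k) + s k` (closedness of `≤`), `S K` closed.
* `subseq2`: `K ×ˢ S K` is compact (`IsCompact.prod`, `IsCompact.tendsto_subseq`).
* `dir_norm`: `‖dir p x‖ = 1`.
* `two_pts`: for unit vectors `a ≠ b`: `⟪a,b⟫ < 1`, so `u = dir p y - dir p x` has `⟪u, dir p x⟫ = ⟪a,b⟫ - 1 < 0` and
  `⟪u, dir p y⟫ = 1 - ⟪a,b⟫ > 0` (`a = dir p y ≠ b = dir p x` by `dir_inj`).
* `F_mem_Icc`: trivial from `mn_le`, `le_mx`.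
-/

set_option autoImplicit false

open Metric Set Filter Topology

namespace Pool.Agent.E8N

variable {E : Type*} [NormedAddCommGroup E] [InnerProductSpace ℝ E] [FiniteDimensional ℝ E]
variable {K : Set E} {ρ R : ℝ}

theorem F_lim {p x : ℕ → E} {p₀ x₀ : E} (hp : Tendsto p atTop (𝓝 p₀)) (hx : Tendsto x atTop (𝓝 x₀)) :
    Tendsto (fun k => F (p k) (x k)) atTop (𝓝 (F p₀ x₀)) := (hx.sub hp).norm

theorem nlim_lip {f : E → ℝ} (h : ∀ p q, |f p - f q| ≤ ‖p - q‖) {p : ℕ → E} {p₀ : E}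
    (hp : Tendsto p atTop (𝓝 p₀)) : Tendsto (fun k => f (p k)) atTop (𝓝 (f p₀)) := by
  rw [tendsto_iff_dist_tendsto_zero] at hp ⊢
  refine squeeze_zero (fun _ => dist_nonneg) (fun k => ?_) hp
  rw [Real.dist_eq, dist_eq_norm]
  exact h _ _

theorem mn_lim (hK : Body K ρ R) {p : ℕ → E} {p₀ : E} (hp : Tendsto p atTop (𝓝 p₀)) :
    Tendsto (fun k => mn K (p k)) atTop (𝓝 (mn K p₀)) := nlim_lip (mn_cont hK) hp

theorem mx_lim (hK : Body K ρ R) {p : ℕ → E} {p₀ : E} (hp : Tendsto p atTop (𝓝 p₀)) :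
    Tendsto (fun k => mx K (p k)) atTop (𝓝 (mx K p₀)) := nlim_lip (mx_cont hK) hp

theorem nlim_S (hK : Body K ρ R) {x : ℕ → E} {x₀ : E} (hx : Tendsto x atTop (𝓝 x₀))
    (h : ∀ k, x k ∈ S K) : x₀ ∈ S K :=
  (S_compact hK).isClosed.mem_of_tendsto hx (Eventually.of_forall h)

theorem crit_lim (hK : Body K ρ R) {p x : ℕ → E} {p₀ x₀ : E} (hp : Tendsto p atTop (𝓝 p₀))
    (hx : Tendsto x atTop (𝓝 x₀)) (h : ∀ k, x k ∈ Crit K (p k)) : x₀ ∈ Crit K p₀ := by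
  refine ⟨nlim_S hK hx fun k => (h k).1, ?_⟩
  have h1 : Tendsto (fun k => tau K (p k) (x k)) atTop (𝓝 (tau K p₀ x₀)) :=
    ((tau_cont hK).tendsto (p₀, x₀)).comp (hp.prodMk_nhds hx)
  have h2 : (fun k => tau K (p k) (x k)) = fun _ => 0 := funext fun k => (h k).2
  rw [h2] at h1
  exact (tendsto_nhds_unique h1 tendsto_const_nhds)

theorem nlim_ne (hK : Body K ρ R) {p x : E} (hp : p ∈ K) (hx : x ∈ S K) : x - p ≠ 0 := by
  intro h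
  rw [sub_eq_zero] at h
  exact S_disj hK hx (h ▸ hp)

theorem dir_lim (hK : Body K ρ R) {p x : ℕ → E} {p₀ x₀ : E} (hp : Tendsto p atTop (𝓝 p₀))
    (hx : Tendsto x atTop (𝓝 x₀)) (hp₀ : p₀ ∈ K) (hx₀ : x₀ ∈ S K) :
    Tendsto (fun k => dir (p k) (x k)) atTop (𝓝 (dir p₀ x₀)) := by
  have h1 := hx.sub hp
  exact (h1.norm.inv₀ (norm_ne_zero_iff.2 (nlim_ne hK hp₀ hx₀))).smul h1

theorem Lo_lim (hK : Body K ρ R) {p x : ℕ → E} {p₀ x₀ : E} {s : ℕ → ℝ} {s₀ : ℝ} (hp : Tendsto p atTop (𝓝 p₀))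
    (hx : Tendsto x atTop (𝓝 x₀)) (hs : Tendsto s atTop (𝓝 s₀)) (h : ∀ k, x k ∈ Lo K (s k) (p k)) :
    x₀ ∈ Lo K s₀ p₀ :=
  ⟨nlim_S hK hx fun k => (h k).1,
    le_of_tendsto_of_tendsto' (F_lim hp hx) ((mn_lim hK hp).add hs) fun k => (h k).2⟩

theorem Hi_lim (hK : Body K ρ R) {p x : ℕ → E} {p₀ x₀ : E} {s : ℕ → ℝ} {s₀ : ℝ} (hp : Tendsto p atTop (𝓝 p₀))
    (hx : Tendsto x atTop (𝓝 x₀)) (hs : Tendsto s atTop (𝓝 s₀)) (h : ∀ k, x k ∈ Hi K (s k) (p k)) :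
    x₀ ∈ Hi K s₀ p₀ :=
  ⟨nlim_S hK hx fun k => (h k).1,
    le_of_tendsto_of_tendsto' ((mx_lim hK hp).sub hs) (F_lim hp hx) fun k => (h k).2⟩

theorem subseq2 (hK : Body K ρ R) {p x : ℕ → E} (hp : ∀ k, p k ∈ K) (hx : ∀ k, x k ∈ S K) :
    ∃ p₀ ∈ K, ∃ x₀ ∈ S K, ∃ φ : ℕ → ℕ, StrictMono φ ∧ Tendsto (fun k => p (φ k)) atTop (𝓝 p₀) ∧
      Tendsto (fun k => x (φ k)) atTop (𝓝 x₀) := by
  obtain ⟨⟨p₀, x₀⟩, ⟨h1, h2⟩, φ, hφ, hlim⟩ :=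
    (hK.cpt.prod (S_compact hK)).tendsto_subseq (x := fun k => (p k, x k)) fun k => ⟨hp k, hx k⟩
  rw [Prod.tendsto_iff] at hlim
  exact ⟨p₀, h1, x₀, h2, φ, hφ, hlim.1, hlim.2⟩

theorem dir_norm (hK : Body K ρ R) {p x : E} (hp : p ∈ K) (hx : x ∈ S K) : ‖dir p x‖ = 1 := by
  unfold dir
  rw [norm_smul, norm_inv, norm_norm]
  exact inv_mul_cancel₀ (norm_ne_zero_iff.2 (nlim_ne hK hp hx))

theorem two_pts (hK : Body K ρ R) {p x y : E} (hp : p ∈ K) (hx : x ∈ S K) (hy : y ∈ S K) (hxy : x ≠ y) :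
    inner ℝ (dir p y - dir p x) (dir p x) < 0 ∧ 0 < inner ℝ (dir p y - dir p x) (dir p y) := by
  have hnx := dir_norm hK hp hx
  have hny := dir_norm hK hp hy
  have hne : dir p y ≠ dir p x := fun h => hxy (dir_inj hK hp hx hy h.symm)
  have hlt : inner ℝ (dir p y) (dir p x) < (1 : ℝ) :=
    inner_lt_one_iff_real_of_norm_eq_one hny hnx |>.2 hne
  rw [inner_sub_left, inner_sub_left, real_inner_self_eq_norm_sq, real_inner_self_eq_norm_sq, hnx, hny,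
    real_inner_comm (dir p y) (dir p x)]
  constructor <;> linarith

end Pool.Agent.E8N
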