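import Pool.Agent.E8N.NLim

/-!
# E8N NLo

* `lo_cont`: by choice (`mins_exists`) let `lo, hi : E → E` with `Mins K p (lo p) (hi p)` for `p ∈ A`. Sequential continuity: `p_k ∈ A`, `p_k → p₀ ∈ A`: `F p₀ (lo p₀) = mn K p₀ < mn K p₀ + γ ≤ F p₀ (hi p₀)`, so `mins_cont` gives `lo p_k → lo p₀`.
* `gap_closed`: let `p_k` be in the set, `p_k → p₀`; `p₀ ∈ O` (`O` is closed). Let `Mins K p₀ lo₀ hi₀`. Choose `Mins K p_k lo_k hi_k`; by `mins_cont` `F p_k hi_k → F p₀ hi₀`; `mn K p_k → mn K p₀`; so `mn K p₀ + γ ≤ F p₀ hi₀`.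
-/

set_option autoImplicit false

open Metric Set Filter Topology

namespace Pool.Agent.E8N

variable {E : Type*} [NormedAddCommGroup E] [InnerProductSpace ℝ E] [FiniteDimensional ℝ E]
variable {K : Set E} {ρ R : ℝ}

theorem lo_cont (hK : Body K ρ R) (h7 : AtMost7 K) (hd : 4 ≤ Module.finrank ℝ E) {A : Set E} (hA : A ⊆ Om K)
    {γ : ℝ} (hγ : 0 < γ) (h : ∀ p ∈ A, ∀ lo hi, Mins K p lo hi → mn K p + γ ≤ F p hi) :
    ∃ lo : E → E, ContinuousOn lo A ∧ ∀ p ∈ A, ∃ hi, Mins K p (lo p) hi := by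
  have hex : ∀ p : E, ∃ z : E × E, p ∈ A → Mins K p z.1 z.2 := by
    intro p
    by_cases hp : p ∈ A
    · obtain ⟨lo, hi, hm⟩ := mins_exists hK h7 hd (hA hp)
      exact ⟨(lo, hi), fun _ => hm⟩
    · exact ⟨(0, 0), fun hp' => absurd hp' hp⟩
  choose z hz using hex
  refine ⟨fun p => (z p).1, ?_, fun p hp => ⟨(z p).2, hz p hp⟩⟩
  intro p₀ hp₀
  show Tendsto (fun p => (z p).1) (𝓝[A] p₀) (𝓝 (z p₀).1)
  rw [tendsto_iff_seq_tendsto]
  intro x hx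
  obtain ⟨hx1, hx2⟩ := tendsto_nhdsWithin_iff.1 hx
  obtain ⟨N, hN⟩ := eventually_atTop.1 hx2
  rw [← tendsto_add_atTop_iff_nat N]
  have hx3 : Tendsto (fun k => x (k + N)) atTop (𝓝 p₀) := (tendsto_add_atTop_iff_nat N).2 hx1
  have hxA : ∀ k, x (k + N) ∈ A := fun k => hN _ (Nat.le_add_left N k)
  have hm := mins_cont hK h7 hd (p := fun k => x (k + N)) (lo := fun k => (z (x (k + N))).1)
    (hi := fun k => (z (x (k + N))).2) (fun k => hA (hxA k)) (hA hp₀) hx3 (fun k => hz _ (hxA k)) (hz p₀ hp₀)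
  have h1 := h p₀ hp₀ _ _ (hz p₀ hp₀)
  have h2 : F p₀ (z p₀).1 = mn K p₀ := (hz p₀ hp₀).lo_min
  exact (hm.2 (by rw [h2]; linarith)).1

theorem gap_closed (hK : Body K ρ R) (h7 : AtMost7 K) (hd : 4 ≤ Module.finrank ℝ E) {O : Set E} (hO : IsCompact O)
    (hOm : O ⊆ Om K) {γ : ℝ} :
    IsClosed {p | p ∈ O ∧ ∀ lo hi, Mins K p lo hi → mn K p + γ ≤ F p hi} := by
  apply IsSeqClosed.isClosed
  intro x p₀ hx hlim
  have hp₀ : p₀ ∈ O := hO.isClosed.mem_of_tendsto hlim (Eventually.of_forall fun k => (hx k).1)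
  refine ⟨hp₀, ?_⟩
  intro lo₀ hi₀ hm₀
  have hex : ∀ k, ∃ z : E × E, Mins K (x k) z.1 z.2 := by
    intro k
    obtain ⟨lo, hi, hm⟩ := mins_exists hK h7 hd (hOm (hx k).1)
    exact ⟨(lo, hi), hm⟩
  choose z hz using hex
  have hm := mins_cont hK h7 hd (p := x) (lo := fun k => (z k).1) (hi := fun k => (z k).2)
    (fun k => hOm (hx k).1) (hOm hp₀) hlim hz hm₀
  exact le_of_tendsto_of_tendsto' ((mn_lim hK hlim).add_const γ) hm.1 (fun k => (hx k).2 _ _ (hz k))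

end Pool.Agent.E8N
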