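import Pool.Agent.E8N.NFin
import Pool.Agent.E8N.NFeet

/-!
# E8N NMain

The theorem in plain terms. Let `c ∈ interior K`; translate: `K' = (fun z => z - c) '' K` (or `{z | z + c ∈ K}`), `closedBall 0 ρ ⊆ K' ⊆ closedBall 0 R` for suitable `ρ > 0`, `R`; so `Body K' ρ R`. `not_atMost7` gives `p' ∈ interior K'` with `Crit K' p'` infinite or of cardinality `≥ 8`; so there is a finset `T ⊆ Crit K' p'` of cardinality `8`
(`Set.Infinite.exists_subset_card_eq`, `Set.Finite.toFinset`, `Finset.exists_subset_card_eq`). The feet `P K' x`, `x ∈ T`, are distinct (`feet_inj`) points of `frontier K'` (`feet_fr`) with normals through `p'` (`feet_normal`). Translate back by `c` (`frontier`, `interior` under the homeomorphism `z ↦ z + c`).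
-/

set_option autoImplicit false

open Metric Set Filter Topology

namespace Pool.Agent.E8N

variable {E : Type*} [NormedAddCommGroup E] [InnerProductSpace ℝ E] [FiniteDimensional ℝ E]
variable {K : Set E} {ρ R : ℝ}

theorem main8 {K : Set E} (hd : 4 ≤ Module.finrank ℝ E) (hc : IsCompact K) (hconv : Convex ℝ K)
    (hne : (interior K).Nonempty) :
    ∃ p ∈ interior K, ∃ T : Finset E, T.card = 8 ∧ ∀ x ∈ T, x ∈ frontier K ∧
      ∃ v : E, v ≠ 0 ∧ (∀ z ∈ K, inner ℝ v z ≤ inner ℝ v x) ∧ ∃ t : ℝ, p = x + t • v := by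
  classical
  obtain ⟨c, hcK⟩ := hne
  let h : E ≃ₜ E := Homeomorph.addRight c
  have hh : ∀ z, h z = z + c := fun z => rfl
  set K' : Set E := h ⁻¹' K with hK'
  have hint : interior K' = h ⁻¹' interior K := (h.preimage_interior K).symm
  have hfr : frontier K' = h ⁻¹' frontier K := (h.preimage_frontier K).symm
  have h0 : (0 : E) ∈ interior K' := by
    rw [hint, Set.mem_preimage, hh, zero_add]; exact hcK
  have hcpt : IsCompact K' := h.isCompact_preimage.2 hc
  have hcv : Convex ℝ K' := hconv.translate_preimage_left c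
  obtain ⟨e, he, hball⟩ := Metric.isOpen_iff.1 isOpen_interior _ h0
  obtain ⟨R, hR⟩ := hcpt.isBounded.subset_closedBall (0 : E)
  have hB : Body K' (e / 2) R :=
    ⟨hcpt, hcv, by positivity,
      (Metric.closedBall_subset_ball (by linarith)).trans (hball.trans interior_subset), hR⟩
  have hn := not_atMost7 hB hd
  have hn' : ∃ p' ∈ interior K', ¬ ((Crit K' p').Finite ∧ (Crit K' p').ncard ≤ 7) := by
    by_contra hcon
    apply hn
    intro p hp
    by_contra h2
    exact hcon ⟨p, hp, h2⟩
  obtain ⟨p', hp', hcr⟩ := hn'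
  have hT0 : ∃ T0 : Finset E, (T0 : Set E) ⊆ Crit K' p' ∧ T0.card = 8 := by
    by_cases hfin : (Crit K' p').Finite
    · have h8 : 8 ≤ hfin.toFinset.card := by
        rw [← Set.ncard_eq_toFinset_card _ hfin]
        by_contra hlt
        exact hcr ⟨hfin, by omega⟩
      obtain ⟨t, ht, htc⟩ := Finset.exists_subset_card_eq h8
      refine ⟨t, ?_, htc⟩
      intro x hx
      exact (Set.Finite.mem_toFinset hfin).1 (ht hx)
    · exact Set.Infinite.exists_subset_card_eq hfin 8
  obtain ⟨T0, hT0, hcard⟩ := hT0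
  refine ⟨p' + c, ?_, T0.image (fun x => P K' x + c), ?_, ?_⟩
  · rw [hint, Set.mem_preimage, hh] at hp'
    exact hp'
  · rw [Finset.card_image_of_injOn, hcard]
    intro x hx y hy hxy
    have hxy' : P K' x + c = P K' y + c := hxy
    exact feet_inj hB hp' (hT0 hx) (hT0 hy) (add_right_cancel hxy')
  · intro x hx
    obtain ⟨x0, hx0, rfl⟩ := Finset.mem_image.1 hx
    have hx0' : x0 ∈ Crit K' p' := hT0 hx0
    refine ⟨?_, ?_⟩
    · have := feet_fr hB hx0'.1
      rw [hfr, Set.mem_preimage, hh] at this
      exact this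
    · obtain ⟨v, hv, hz, t, ht⟩ := feet_normal hB (interior_subset hp') hx0'
      refine ⟨v, hv, ?_, t, ?_⟩
      · intro z hzK
        have hz' : z - c ∈ K' := by
          rw [hK', Set.mem_preimage, hh, sub_add_cancel]; exact hzK
        have := hz _ hz'
        rw [inner_sub_right] at this
        rw [inner_add_right]
        linarith
      · rw [ht]; abel

end Pool.Agent.E8N
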