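import Pool.Agent.E8N.NSepG
import Pool.Agent.E8N.NFoot
import Pool.Agent.E8N.NApC

/-!
# E8N NSep

Three applications of `nsepG` with `ptU`.
* `nsep1`: `A = Ap K`, `W η p y := mx K p - η ≤ F p y`. In the limit `y₀ ∈ Hi K 0 p₀` (`Hi_lim`), so `y₀ ∈ Crit K p₀` (`argmax_crit`) and `F p₀ y₀ = mx K p₀ > mn K p₀` (`gap_pos`); `ptU`.
* `nsep2`: `A = frontier K` (compact: closed subset of `K`), `W η p y := y ∈ Crit K p ∧ 1 + Y ≤ F p y`. In the limit `y₀ ∈ Crit K p₀` (`crit_lim`), `1 + Y ≤ F p₀ y₀`; `foot_bd`.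
* `nsep3`: `A = Ap K`, `W η p y := y ∈ Crit K p ∧ mn K p + a ≤ F p y`; in the limit `mn K p₀ + a ≤ F p₀ y₀`; `ptU`.
-/

set_option autoImplicit false

open Metric Set Filter Topology

namespace Pool.Agent.E8N

variable {E : Type*} [NormedAddCommGroup E] [InnerProductSpace ℝ E] [FiniteDimensional ℝ E]
variable {K : Set E} {ρ R : ℝ}

theorem nsep1 (hK : Body K ρ R) (h7 : AtMost7 K) (hd : 4 ≤ Module.finrank ℝ E) :
    ∃ η > 0, ∀ p ∈ K, infDist p (Ap K) ≤ η → ∀ y ∈ Hi K η p, ∃ u, SepU K p u (Lo K η p) y η := by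
  obtain ⟨η, hη, h⟩ := nsepG hK (Ap_compact hK) (Ap_sub hK) ((fr_nonempty hK hd).mono fr_sub_Ap)
    (fun η p y => mx K p - η ≤ F p y) (by
      intro η η' p y hle hw
      show mx K p - η' ≤ F p y
      have : mx K p - η ≤ F p y := hw
      linarith) (by
      intro p y p₀ y₀ hp hy hW hpl hyl hp₀ hy₀
      have hHi : y₀ ∈ Hi K 0 p₀ := Hi_lim hK hpl hyl tendsto_one_div_add_atTop_nhds_zero_nat
        (fun k => ⟨hy k, hW k⟩)
      have hpK : p₀ ∈ K := Ap_sub hK hp₀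
      obtain ⟨β, hβ, hgap⟩ := gap_pos hK h7 hd
      have h1 := hgap p₀ hpK
      have h2 : mx K p₀ - 0 ≤ F p₀ y₀ := hHi.2
      exact ptU hK h7 hd hp₀ (argmax_crit hK hpK hHi) (by linarith))
  exact ⟨η, hη, fun p hp hpd y hy => h p hp hpd y hy.1 hy.2⟩

theorem nsep2 (hK : Body K ρ R) (h7 : AtMost7 K) (hd : 4 ≤ Module.finrank ℝ E) {Y : ℝ} (hY : 0 < Y) :
    ∃ η > 0, ∀ p ∈ K, infDist p (frontier K) ≤ η → ∀ y ∈ Crit K p, 1 + Y ≤ F p y →
      ∃ u, SepU K p u (Lo K η p) y η := by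
  have hfrK : frontier K ⊆ K := by
    have := hK.cpt.isClosed.frontier_subset
    exact this
  obtain ⟨η, hη, h⟩ := nsepG hK (hK.cpt.of_isClosed_subset isClosed_frontier hfrK) hfrK (fr_nonempty hK hd)
    (fun _ p y => y ∈ Crit K p ∧ 1 + Y ≤ F p y) (by
      intro η η' p y hle hw
      exact hw) (by
      intro p y p₀ y₀ hp hy hW hpl hyl hp₀ hy₀
      have hc : y₀ ∈ Crit K p₀ := crit_lim hK hpl hyl (fun k => (hW k).1)
      have hF : 1 + Y ≤ F p₀ y₀ := ge_of_tendsto' (F_lim hpl hyl) (fun k => (hW k).2)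
      exact foot_bd hK hd hp₀ hc (by linarith))
  exact ⟨η, hη, fun p hp hpd y hy hF => h p hp hpd y hy.1 ⟨hy, hF⟩⟩

theorem nsep3 (hK : Body K ρ R) (h7 : AtMost7 K) (hd : 4 ≤ Module.finrank ℝ E) {a : ℝ} (ha : 0 < a) :
    ∃ η > 0, ∀ p ∈ K, infDist p (Ap K) ≤ η → ∀ y ∈ Crit K p, mn K p + a ≤ F p y →
      ∃ u, SepU K p u (Lo K η p) y η := by
  obtain ⟨η, hη, h⟩ := nsepG hK (Ap_compact hK) (Ap_sub hK) ((fr_nonempty hK hd).mono fr_sub_Ap)
    (fun _ p y => y ∈ Crit K p ∧ mn K p + a ≤ F p y) (by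
      intro η η' p y hle hw
      exact hw) (by
      intro p y p₀ y₀ hp hy hW hpl hyl hp₀ hy₀
      have hc : y₀ ∈ Crit K p₀ := crit_lim hK hpl hyl (fun k => (hW k).1)
      have hF : mn K p₀ + a ≤ F p₀ y₀ :=
        le_of_tendsto_of_tendsto' ((mn_lim hK hpl).add_const a) (F_lim hpl hyl) (fun k => (hW k).2)
      exact ptU hK h7 hd hp₀ hc (by linarith))
  exact ⟨η, hη, fun p hp hpd y hy hF => h p hp hpd y hy.1 ⟨hy, hF⟩⟩

end Pool.Agent.E8N
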