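import Pool.Agent.E8N.NRing
import Pool.Agent.E8N.NSep

/-!
# E8N NMid

(4.5) MID. Let `Y` be from `ring42`, `η₁` from `nsep1`, `η₂` from `nsep2` (with this `Y`), `β` from `gap_pos`; `η := min (min η₁ η₂) (β/2)` (and positive).
Given `a > 0` suppose that no `r` works: for `k : ℕ` there are `p_k ∈ Om K`, `dl ≤ cl`, `infDist p_k (Ap K) ≤ 1/(k+1)`, `MidXY K p_k x_k y_k`, `mn + a ≤ F p_k x_k ≤ mn + η`, and no `u` with `SepU K p_k u (Lo K η p_k) y_k η`.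
Subsequence: `p_k → p₀` (`K` compact; `Om K ⊆ interior K ⊆ K`), `F p_k x_k - mn K p_k → α ∈ [a, η]` (`IsCompact.tendsto_subseq` in `Icc a η`). `p₀ ∈ Ap K` (closed, `infDist → 0`).
Case `p₀ ∈ frontier K`: `infDist p_k (frontier K) ≤ ‖p_k - p₀‖ → 0`; by `ring42` (with `t = a`) `1 + Y ≤ F p_k y_k` for large `k`; `y_k ∈ Crit K p_k` (`mid_facts`); `nsep2` gives `u` (`SepU_mono`, `Lo_mono`), contradiction.
Case `p₀ ∈ interior K`, `¬ Two (S K) (F p₀)`: `shr'` (with `α > 0`, `α ≤ β/2 < mx K p₀ - mn K p₀`): `F p_k y_k = mx K p_k` for large `k`, so `y_k ∈ Hi K η₁ p_k`; `nsep1` gives `u`, contradiction.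
-/

set_option autoImplicit false

open Metric Set Filter Topology

namespace Pool.Agent.E8N

variable {E : Type*} [NormedAddCommGroup E] [InnerProductSpace ℝ E] [FiniteDimensional ℝ E]
variable {K : Set E} {ρ R : ℝ}

theorem nmid (hK : Body K ρ R) (h7 : AtMost7 K) (hd : 4 ≤ Module.finrank ℝ E) :
    ∃ η > 0, ∀ a > 0, ∃ r > 0, ∀ p ∈ Om K, dl K p ≤ cl K p → infDist p (Ap K) ≤ r → ∀ x y, MidXY K p x y →
      mn K p + a ≤ F p x → F p x ≤ mn K p + η → ∃ u, SepU K p u (Lo K η p) y η := by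
  obtain ⟨Y, hY, hring⟩ := ring42 hK h7 hd
  obtain ⟨η₁, hη₁, h1⟩ := nsep1 hK h7 hd
  obtain ⟨η₂, hη₂, h2⟩ := nsep2 hK h7 hd hY
  obtain ⟨β, hβ, hgap⟩ := gap_pos hK h7 hd
  have hb2 : (0 : ℝ) < β / 2 := by positivity
  refine ⟨min (min η₁ η₂) (β / 2), lt_min (lt_min hη₁ hη₂) hb2, fun a ha => ?_⟩
  have le1 : min (min η₁ η₂) (β / 2) ≤ η₁ := (min_le_left _ _).trans (min_le_left _ _)
  have le2 : min (min η₁ η₂) (β / 2) ≤ η₂ := (min_le_left _ _).trans (min_le_right _ _)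
  have le3 : min (min η₁ η₂) (β / 2) ≤ β / 2 := min_le_right _ _
  revert le1 le2 le3
  generalize min (min η₁ η₂) (β / 2) = η
  intro le1 le2 le3
  by_contra hcon
  push Not at hcon
  have H : ∀ k : ℕ, ∃ p x y, p ∈ Om K ∧ dl K p ≤ cl K p ∧ infDist p (Ap K) ≤ 1 / ((k : ℝ) + 1) ∧
      MidXY K p x y ∧ mn K p + a ≤ F p x ∧ F p x ≤ mn K p + η ∧ ∀ u, ¬ SepU K p u (Lo K η p) y η := by
    intro k
    obtain ⟨p, hp, hcd, hpA, x, y, hm, hax, hxη, hno⟩ := hcon (1 / ((k : ℝ) + 1)) (by positivity)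
    exact ⟨p, x, y, hp, hcd, hpA, hm, hax, hxη, hno⟩
  choose p x y hpO hcd hpA hm hax hxη hno using H
  choose Al Am Bl Bm hM using hm
  have hpI : ∀ k, p k ∈ interior K := fun k => (hpO k).1
  have hpK : ∀ k, p k ∈ K := fun k => interior_subset (hpI k)
  have hyC : ∀ k, y k ∈ Crit K (p k) := fun k => (mid_facts hK h7 hd (hpO k) (hcd k) (hM k)).2.1
  obtain ⟨q, hq, φ, hφ, hlim⟩ := (hK.cpt.prod (isCompact_Icc (a := a) (b := η))).tendsto_subseq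
    (x := fun k => (p k, F (p k) (x k) - mn K (p k)))
    (fun k => ⟨hpK k, by
      constructor
      · show a ≤ F (p k) (x k) - mn K (p k)
        linarith [hax k]
      · show F (p k) (x k) - mn K (p k) ≤ η
        linarith [hxη k]⟩)
  obtain ⟨p₀, α⟩ := q
  obtain ⟨hp₀K, hα⟩ := hq
  have hα1 : a ≤ α := hα.1
  have hα2 : α ≤ η := hα.2
  have hlp : Tendsto (fun k => p (φ k)) atTop (𝓝 p₀) := (Filter.Tendsto.fst_nhds hlim)
  have hlα : Tendsto (fun k => F (p (φ k)) (x (φ k)) - mn K (p (φ k))) atTop (𝓝 α) :=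
    (Filter.Tendsto.snd_nhds hlim)
  have hone : Tendsto (fun k : ℕ => 1 / ((φ k : ℝ) + 1)) atTop (𝓝 0) :=
    (tendsto_one_div_add_atTop_nhds_zero_nat (𝕜 := ℝ)).comp hφ.tendsto_atTop
  have hinf : Tendsto (fun k => infDist (p (φ k)) (Ap K)) atTop (𝓝 (infDist p₀ (Ap K))) :=
    ((continuous_infDist_pt (Ap K)).tendsto p₀).comp hlp
  have hne : (Ap K).Nonempty := (fr_nonempty hK hd).mono fr_sub_Ap
  have h0 : infDist p₀ (Ap K) = 0 := by
    refine le_antisymm ?_ infDist_nonneg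
    exact le_of_tendsto_of_tendsto' hinf hone fun k => hpA (φ k)
  have hp₀A : p₀ ∈ Ap K := ((Ap_compact hK).isClosed.mem_iff_infDist_zero hne).mpr h0
  rcases hp₀A with ⟨hpI₀, hnt⟩ | hfr
  · have hg := hgap p₀ hp₀K
    have hα0 : 0 < α := lt_of_lt_of_le ha hα1
    have hαm : α < mx K p₀ - mn K p₀ := by linarith
    have ev := shr' hK h7 hd (p := fun k => p (φ k)) (fun k => hpO (φ k)) (fun k => hcd (φ k)) hpI₀ hlp
      (fun k => hM (φ k)) hnt hlα hα0 hαm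
    have ev2 : ∀ᶠ k in atTop, 1 / ((φ k : ℝ) + 1) < η₁ := hone.eventually (gt_mem_nhds hη₁)
    obtain ⟨k, hk1, hk2⟩ := (ev.and ev2).exists
    have hyH : y (φ k) ∈ Hi K η₁ (p (φ k)) := by
      refine ⟨(hyC (φ k)).1, ?_⟩
      have hk1' : F (p (φ k)) (y (φ k)) = mx K (p (φ k)) := hk1
      rw [hk1']
      linarith
    obtain ⟨u, hu⟩ := h1 (p (φ k)) (hpK (φ k)) ((hpA (φ k)).trans hk2.le) (y (φ k)) hyH
    exact hno (φ k) u (SepU_mono hu (Lo_mono le1) le1)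
  · obtain ⟨r, hr, hring'⟩ := hring a ha
    have hd0 : Tendsto (fun k => dist (p (φ k)) p₀) atTop (𝓝 0) := tendsto_iff_dist_tendsto_zero.mp hlp
    have ev : ∀ᶠ k in atTop, dist (p (φ k)) p₀ < min r η₂ := hd0.eventually (gt_mem_nhds (lt_min hr hη₂))
    obtain ⟨k, hk⟩ := ev.exists
    have hi : infDist (p (φ k)) (frontier K) ≤ min r η₂ := (infDist_le_dist_of_mem hfr).trans hk.le
    have hY' := hring' (p (φ k)) (hpO (φ k)) (hcd (φ k)) (hi.trans (min_le_left _ _)) (x (φ k)) (y (φ k))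
      ⟨_, _, _, _, hM (φ k)⟩ (hax (φ k))
    obtain ⟨u, hu⟩ := h2 (p (φ k)) (hpK (φ k)) (hi.trans (min_le_right _ _)) (y (φ k)) (hyC (φ k)) hY'
    exact hno (φ k) u (SepU_mono hu (Lo_mono le2) le2)

end Pool.Agent.E8N
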