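import Pool.Agent.E8N.NFoot

/-!
# E8N NMono

(4.1) MONO. Let `ν₀ = dir p m`; by `argmin_crit` and `foot`, `ν₀ = nu K m` and `P K m = p + h • ν₀`, `h = mn K p - 1 ≥ 0` (`F p m = mn K p ≥ 1`), so by `P_var`:
(*) `⟪ν₀, w' - p⟫ ≤ h` for all `w' ∈ K`. Let `rad ψ = F p (z ψ)`.
Claim: if `φ ≤ ψ < φ'` and `rad ψ > 1 + h / cos φ'` then `rad (ψ + Δ) ≥ rad ψ` for all small `Δ > 0` (with `ψ + Δ ≤ φ'`). Let `Z = z ψ`, `ν = nu K Z`, `P K Z = Z - ν ∈ K`. By (*):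
`rad ψ * cos ψ - ⟪ν, ν₀⟫ ≤ h`, so `a := ⟪ν, ν₀⟫ ≥ rad ψ cos ψ - h > cos ψ` because `rad ψ > 1 + h/cos φ' ≥ 1 + h/cos ψ` (cos decreasing and positive). Hence `ψ ≠ 0` (`a ≤ 1`), `sin ψ > 0`,
and for `b := ⟪ν, w⟫`: `a² + b² ≤ 1` (Bessel for the orthonormal pair `ν₀, w`), so `|b| < sin ψ`, and with `e = -sin ψ • ν₀ + cos ψ • w`:
`⟪ν, e⟫ = -a sin ψ + b cos ψ < 0`. The point `Y_Δ = p + rad ψ • (cos (ψ+Δ) • ν₀ + sin (ψ+Δ) • w)` satisfies `Y_Δ - Z = rad ψ (Δ e + O(Δ²))`, so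
`‖Y_Δ - P K Z‖² = 1 + 2 rad ψ Δ ⟪ν, e⟫ + O(Δ²) < 1` for small `Δ > 0`; so `Y_Δ` is within distance `1` of `K` (`ball_K1`). If `rad (ψ + Δ) < rad ψ`, then `z (ψ+Δ)` is in the open segment
between `p` and `Y_Δ`; by `side` at `x = z (ψ+Δ)` (`⟪nu K x, y - x⟫ ≤ 0` for `y = Y_Δ` and for `y = p + small vector`; e.g. `y = p`: `⟪nu K x, p - x⟫ ≤ -1 < 0` since `p + nu K x` is also in the
`1`-neighbourhood), while `x - p` and `Y_Δ - x` are positive multiples of the same vector: `⟪nu K x, Y_Δ - x⟫ = c ⟪nu K x, x - p⟫ > 0`, contradiction.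
Conclusion: `s = {ψ ∈ [φ, φ'] | rad φ ≤ rad ψ}` is closed (`hzc`), contains `φ`, and by the claim (`rad ψ ≥ rad φ > 1 + h/cos φ'`) `IsClosed.Icc_subset_of_forall_exists_gt` gives `φ' ∈ s`.
-/

set_option autoImplicit false

open Metric Set Filter Topology

namespace Pool.Agent.E8N

variable {E : Type*} [NormedAddCommGroup E] [InnerProductSpace ℝ E] [FiniteDimensional ℝ E]
variable {K : Set E} {ρ R : ℝ}

theorem nMono_side (hK : Body K ρ R) {p x : E} (hp : p ∈ K) (hx : x ∈ S K) :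
    1 ≤ inner ℝ (nu K x) (x - p) := by
  have h1 := P_var hK x hp
  have h2 : x - P K x = nu K x := rfl
  have h3 : p - P K x = nu K x - (x - p) := by
    have : P K x = x - nu K x := by rw [← h2]; abel
    rw [this]; abel
  rw [h2, h3, inner_sub_right, real_inner_self_eq_norm_sq, nu_norm hx] at h1
  linarith

theorem nMono_step (hK : Body K ρ R) {p x ν₀ w : E} {r r' ψ ψ' : ℝ} (hp : p ∈ K) (hn0 : ‖ν₀‖ = 1)
    (hw : ‖w‖ = 1) (hnw : inner ℝ ν₀ w = 0) {Z Z' : E} (hZ : Z ∈ S K) (hZ' : Z' ∈ S K)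
    (hr : 0 < r) (hr' : 0 < r') (hψ : ψ ≤ ψ') (hψ' : ψ' - ψ ≤ Real.pi)
    (e : Z - p = r • (Real.cos ψ • ν₀ + Real.sin ψ • w))
    (e' : Z' - p = r' • (Real.cos ψ' • ν₀ + Real.sin ψ' • w))
    (hG : - inner ℝ (nu K Z) ν₀ * Real.sin ((ψ + ψ') / 2) + inner ℝ (nu K Z) w * Real.cos ((ψ + ψ') / 2)
      + r * Real.sin ((ψ' - ψ) / 2) ≤ 0) : r ≤ r' := by
  by_contra hlt
  push Not at hlt
  set u : E := Real.cos ψ • ν₀ + Real.sin ψ • w with hu
  set u' : E := Real.cos ψ' • ν₀ + Real.sin ψ' • w with hu'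
  set Y : E := p + r • u' with hY
  have hPZ : P K Z = Z - nu K Z := by
    show P K Z = Z - (Z - P K Z); abel
  -- distance of Y to P K Z
  have hd : Y - P K Z = nu K Z + r • (u' - u) := by
    have hZe : Z = p + r • u := by rw [← e]; abel
    rw [hPZ]
    rw [hY]
    have : Z - nu K Z = p + r • u - nu K Z := by rw [← hZe]
    rw [this, smul_sub]; abel
  have hwn : inner ℝ w ν₀ = 0 := by rw [real_inner_comm]; exact hnw
  have hn0' : inner ℝ ν₀ ν₀ = (1 : ℝ) := by rw [real_inner_self_eq_norm_sq, hn0]; norm_num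
  have hw' : inner ℝ w w = (1 : ℝ) := by rw [real_inner_self_eq_norm_sq, hw]; norm_num
  have hnn : inner ℝ (nu K Z) (nu K Z) = (1 : ℝ) := by
    rw [real_inner_self_eq_norm_sq, nu_norm hZ]; norm_num
  have hdiff : u' - u = (Real.cos ψ' - Real.cos ψ) • ν₀ + (Real.sin ψ' - Real.sin ψ) • w := by
    rw [hu, hu', sub_smul, sub_smul]; abel
  have hin : inner ℝ (nu K Z) (u' - u) = (Real.cos ψ' - Real.cos ψ) * inner ℝ (nu K Z) ν₀
      + (Real.sin ψ' - Real.sin ψ) * inner ℝ (nu K Z) w := by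
    rw [hdiff, inner_add_right, inner_smul_right, inner_smul_right]
  have hsq : inner ℝ (u' - u) (u' - u) = (Real.cos ψ' - Real.cos ψ) ^ 2 + (Real.sin ψ' - Real.sin ψ) ^ 2 := by
    rw [hdiff]
    simp only [inner_add_right, inner_add_left, inner_smul_right, inner_smul_left, hn0', hw', hnw, hwn]
    simp
    ring
  have hcos : Real.cos ψ' - Real.cos ψ = -2 * Real.sin ((ψ + ψ') / 2) * Real.sin ((ψ' - ψ) / 2) := by
    rw [Real.cos_sub_cos]
    rw [add_comm ψ' ψ]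
  have hsin : Real.sin ψ' - Real.sin ψ = 2 * Real.sin ((ψ' - ψ) / 2) * Real.cos ((ψ + ψ') / 2) := by
    rw [Real.sin_sub_sin]
    rw [add_comm ψ' ψ]
  have hs0 : 0 ≤ Real.sin ((ψ' - ψ) / 2) := by
    apply Real.sin_nonneg_of_nonneg_of_le_pi
    · linarith
    · linarith [Real.pi_pos]
  have hYn : ‖Y - P K Z‖ ^ 2 = 1 + 4 * r * Real.sin ((ψ' - ψ) / 2) *
      (- inner ℝ (nu K Z) ν₀ * Real.sin ((ψ + ψ') / 2) + inner ℝ (nu K Z) w * Real.cos ((ψ + ψ') / 2)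
      + r * Real.sin ((ψ' - ψ) / 2)) := by
    rw [hd, ← real_inner_self_eq_norm_sq]
    have hsc := Real.sin_sq_add_cos_sq ((ψ + ψ') / 2)
    simp only [inner_add_right, inner_add_left, inner_smul_right, inner_smul_left, hnn]
    rw [real_inner_comm (nu K Z) (u' - u), hin, hsq, hcos, hsin]
    simp
    linear_combination (4 * r ^ 2 * Real.sin ((ψ' - ψ) / 2) ^ 2) * hsc
  have hY1 : ‖Y - P K Z‖ ≤ 1 := by
    have h1 : ‖Y - P K Z‖ ^ 2 ≤ 1 := by
      rw [hYn]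
      have : 0 ≤ 4 * r * Real.sin ((ψ' - ψ) / 2) := by positivity
      nlinarith [mul_nonneg this (neg_nonneg.2 hG)]
    nlinarith [norm_nonneg (Y - P K Z)]
  have hYK : ‖Y - P K Y‖ ≤ 1 := ball_K1 hK (P_mem hK Z) hY1
  have hs1 := side hK hZ' hYK
  have hYZ : Y - Z' = (r - r') • u' := by
    have hZe : Z' = p + r' • u' := by rw [← e']; abel
    rw [hZe, hY, sub_smul]; abel
  rw [hYZ, inner_smul_right] at hs1
  have hs2 := nMono_side hK hp hZ'
  rw [e', inner_smul_right] at hs2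
  have h3 : inner ℝ (nu K Z') u' ≤ 0 := by
    by_contra h
    push Not at h
    have := mul_pos (sub_pos.2 hlt) h
    linarith
  nlinarith [mul_nonneg hr'.le (neg_nonneg.2 h3)]

theorem nMono_neg {ν ν₀ w : E} (hν : ‖ν‖ = 1) (hn0 : ‖ν₀‖ = 1)
    (hw : ‖w‖ = 1) (hnw : inner ℝ ν₀ w = 0) {ψ : ℝ} (h0 : 0 ≤ ψ) (h1 : ψ < Real.pi / 2)
    (ha : Real.cos ψ < inner ℝ ν ν₀) :
    - inner ℝ ν ν₀ * Real.sin ψ + inner ℝ ν w * Real.cos ψ < 0 := by
  have hwn : inner ℝ w ν₀ = 0 := by rw [real_inner_comm]; exact hnw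
  have hn0' : inner ℝ ν₀ ν₀ = (1 : ℝ) := by rw [real_inner_self_eq_norm_sq, hn0]; norm_num
  have hw' : inner ℝ w w = (1 : ℝ) := by rw [real_inner_self_eq_norm_sq, hw]; norm_num
  have hnn : inner ℝ ν ν = (1 : ℝ) := by
    rw [real_inner_self_eq_norm_sq, hν]; norm_num
  set a : ℝ := inner ℝ ν ν₀ with hadef
  set b : ℝ := inner ℝ ν w with hbdef
  have hbes : a ^ 2 + b ^ 2 ≤ 1 := by
    have h : 0 ≤ inner ℝ (ν - a • ν₀ - b • w) (ν - a • ν₀ - b • w) := real_inner_self_nonneg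
    have e1 : inner ℝ ν₀ ν = a := real_inner_comm _ _
    have e2 : inner ℝ w ν = b := real_inner_comm _ _
    simp only [inner_sub_right, inner_sub_left, inner_smul_right, inner_smul_left, hn0', hw', hnw, hwn, hnn,
      e1, e2, ← hadef, ← hbdef] at h
    simp at h
    nlinarith
  have hc : 0 < Real.cos ψ := Real.cos_pos_of_mem_Ioo ⟨by linarith [Real.pi_pos], h1⟩
  have hs : 0 ≤ Real.sin ψ := Real.sin_nonneg_of_nonneg_of_le_pi h0 (by linarith [Real.pi_pos])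
  have hsc := Real.sin_sq_add_cos_sq ψ
  have hb2 : b ^ 2 < Real.sin ψ ^ 2 := by nlinarith
  have hb : |b| < Real.sin ψ := abs_lt_of_sq_lt_sq hb2 hs
  have hb' : b < Real.sin ψ := lt_of_le_of_lt (le_abs_self b) hb
  have hspos : 0 < Real.sin ψ := lt_of_le_of_lt (abs_nonneg b) hb
  have h3 : b * Real.cos ψ < Real.sin ψ * Real.cos ψ := mul_lt_mul_of_pos_right hb' hc
  have h4 : Real.sin ψ * Real.cos ψ < Real.sin ψ * a := mul_lt_mul_of_pos_left ha hspos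
  nlinarith

theorem mono (hK : Body K ρ R) {p m w : E} {z : ℝ → E} {φ φ' : ℝ} (hp : p ∈ K) (hm : m ∈ Lo K 0 p)
    (hw : ‖w‖ = 1) (hmw : inner ℝ (dir p m) w = 0) (h0 : 0 ≤ φ) (h1 : φ < φ') (h2 : φ' < Real.pi / 2)
    (hz : ∀ ψ ∈ Icc φ φ', z ψ ∈ S K ∧ dir p (z ψ) = Real.cos ψ • dir p m + Real.sin ψ • w)
    (hzc : ContinuousOn z (Icc φ φ')) (h : 1 + (mn K p - 1) / Real.cos φ' < F p (z φ)) :
    F p (z φ) ≤ F p (z φ') := by
  have hmS : m ∈ S K := hm.1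
  have hmF : F p m = mn K p := le_antisymm (by have := hm.2; linarith) (mn_le hK hmS)
  have hmc := argmin_crit hK hp hm
  obtain ⟨hf1, hf2⟩ := foot hK hp hmc
  have hn0 : ‖dir p m‖ = 1 := by rw [hf2]; exact nu_norm hmS
  have hh : 0 ≤ mn K p - 1 := by
    have := one_le_F hK hmS hp
    rw [hmF] at this; linarith
  have hstar : ∀ w' ∈ K, inner ℝ (dir p m) (w' - p) ≤ mn K p - 1 := by
    intro w' hw'
    have h3 := P_var hK m hw'
    have h4 : m - P K m = dir p m := by rw [hf2]; rfl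
    rw [h4, hf1, hmF] at h3
    have h5 : w' - (p + (mn K p - 1) • dir p m) = (w' - p) - (mn K p - 1) • dir p m := by abel
    rw [h5, inner_sub_right, inner_smul_right, real_inner_self_eq_norm_sq, hn0] at h3
    linarith
  have hrad : ∀ ψ ∈ Icc φ φ', 0 < F p (z ψ) ∧
      z ψ - p = F p (z ψ) • (Real.cos ψ • dir p m + Real.sin ψ • w) := by
    intro ψ hψ
    have h3 : 0 < F p (z ψ) := by linarith [one_le_F hK (hz ψ hψ).1 hp]
    refine ⟨h3, ?_⟩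
    rw [← (hz ψ hψ).2]
    show z ψ - p = ‖z ψ - p‖ • (‖z ψ - p‖⁻¹ • (z ψ - p))
    rw [smul_smul, mul_inv_cancel₀ (by exact h3.ne'), one_smul]
  have hcos' : 0 < Real.cos φ' := Real.cos_pos_of_mem_Ioo ⟨by linarith [Real.pi_pos], h2⟩
  have hclosed : IsClosed ({ψ | F p (z φ) ≤ F p (z ψ)} ∩ Icc φ φ') := by
    have hc : ContinuousOn (fun ψ => F p (z ψ)) (Icc φ φ') := by
      show ContinuousOn (fun ψ => ‖z ψ - p‖) (Icc φ φ')
      exact (hzc.sub continuousOn_const).norm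
    have := hc.preimage_isClosed_of_isClosed isClosed_Icc (isClosed_Ici (a := F p (z φ)))
    rw [inter_comm] at this
    exact this
  have hsub : Icc φ φ' ⊆ {ψ | F p (z φ) ≤ F p (z ψ)} := by
    apply hclosed.Icc_subset_of_forall_exists_gt (le_refl (F p (z φ)))
    rintro ψ ⟨hψs, hψ⟩ y hy
    have hψI : ψ ∈ Icc φ φ' := ⟨hψ.1, hψ.2.le⟩
    obtain ⟨hrpos, hre⟩ := hrad ψ hψI
    have hψ0 : 0 ≤ ψ := le_trans h0 hψ.1
    have hψ2 : ψ < Real.pi / 2 := lt_trans hψ.2 h2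
    have hcosψ : 0 < Real.cos ψ := Real.cos_pos_of_mem_Ioo ⟨by linarith [Real.pi_pos], hψ2⟩
    have hcc : Real.cos φ' ≤ Real.cos ψ :=
      Real.cos_le_cos_of_nonneg_of_le_pi hψ0 (by linarith [Real.pi_pos]) hψ.2.le
    have hZ := (hz ψ hψI).1
    -- a > cos ψ
    have ha : Real.cos ψ < inner ℝ (nu K (z ψ)) (dir p m) := by
      have h3 := hstar (P K (z ψ)) (P_mem hK _)
      have h4 : P K (z ψ) - p = (z ψ - p) - nu K (z ψ) := by
        show P K (z ψ) - p = (z ψ - p) - (z ψ - P K (z ψ)); abel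
      have hn0' : inner ℝ (dir p m) (dir p m) = (1 : ℝ) := by rw [real_inner_self_eq_norm_sq, hn0]; norm_num
      rw [h4, inner_sub_right, hre, inner_smul_right, inner_add_right, inner_smul_right, inner_smul_right, hn0', hmw,
        real_inner_comm (nu K (z ψ)) (dir p m)] at h3
      have h5 : 1 + (mn K p - 1) / Real.cos φ' < F p (z ψ) := lt_of_lt_of_le h hψs
      have h6 : (mn K p - 1) / Real.cos ψ ≤ (mn K p - 1) / Real.cos φ' :=
        div_le_div_of_nonneg_left hh hcos' hcc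
      have h7 : 1 + (mn K p - 1) / Real.cos ψ < F p (z ψ) := by linarith
      have h8 : (1 + (mn K p - 1) / Real.cos ψ) * Real.cos ψ < F p (z ψ) * Real.cos ψ :=
        mul_lt_mul_of_pos_right h7 hcosψ
      have h9 : (1 + (mn K p - 1) / Real.cos ψ) * Real.cos ψ = Real.cos ψ + (mn K p - 1) := by
        field_simp
      linarith
    have hneg := nMono_neg (nu_norm hZ) hn0 hw hmw hψ0 hψ2 ha
    have hGc : Continuous fun ψ' : ℝ => - inner ℝ (nu K (z ψ)) (dir p m) * Real.sin ((ψ + ψ') / 2)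
        + inner ℝ (nu K (z ψ)) w * Real.cos ((ψ + ψ') / 2) + F p (z ψ) * Real.sin ((ψ' - ψ) / 2) := by
      fun_prop
    have hG0 : - inner ℝ (nu K (z ψ)) (dir p m) * Real.sin ((ψ + ψ) / 2)
        + inner ℝ (nu K (z ψ)) w * Real.cos ((ψ + ψ) / 2) + F p (z ψ) * Real.sin ((ψ - ψ) / 2) < 0 := by
      have e1 : (ψ + ψ) / 2 = ψ := by ring
      have e2 : (ψ - ψ) / 2 = 0 := by ring
      rw [e1, e2, Real.sin_zero]
      linarith
    have hev : ∀ᶠ ψ' in 𝓝[>] ψ, - inner ℝ (nu K (z ψ)) (dir p m) * Real.sin ((ψ + ψ') / 2)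
        + inner ℝ (nu K (z ψ)) w * Real.cos ((ψ + ψ') / 2) + F p (z ψ) * Real.sin ((ψ' - ψ) / 2) < 0 :=
      (hGc.continuousAt.eventually_lt continuousAt_const hG0).filter_mono nhdsWithin_le_nhds
    have hev2 : ∀ᶠ ψ' in 𝓝[>] ψ, ψ' ∈ Ioo ψ (min y φ') :=
      Ioo_mem_nhdsGT (lt_min hy hψ.2)
    obtain ⟨ψ', hG', hψ'⟩ := (hev.and hev2).exists
    have hψ'I : ψ' ∈ Icc φ φ' := ⟨hψ.1.trans hψ'.1.le, (hψ'.2.trans_le (min_le_right _ _)).le⟩
    obtain ⟨hrpos', hre'⟩ := hrad ψ' hψ'I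
    have hle := nMono_step hK (x := p) hp hn0 hw hmw hZ (hz ψ' hψ'I).1 hrpos hrpos' hψ'.1.le
      (by linarith [hψ'I.2, Real.pi_pos]) hre hre' hG'.le
    exact ⟨ψ', le_trans hψs hle, hψ'.1, (hψ'.2.trans_le (min_le_left _ _)).le⟩
  exact hsub ⟨h1.le, le_refl _⟩

end Pool.Agent.E8N
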