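import Pool.Agent.E8N.NLim

/-!
# E8N NPartV

A continuous average of the directions `dir p (φ q)` over the `q ∈ Q` near `p`.
Proof. If `Q` is empty take `V = 0`. Otherwise by compactness choose a finite set `T ⊆ Q` with `Q ⊆ ⋃ t ∈ T, ball t r` (`IsCompact.finite_cover_balls`). `V p = ∑ t ∈ T, max 0 (2 r - ‖p - t‖) • dir p (φ t)`. It is continuous on `K`: for `t ∈ T`, `φ t ∈ S K`,
and `φ t ≠ p` for `p ∈ K` (`S_disj`), so `p ↦ dir p (φ t)` is continuous on `K`. Let `p ∈ K`, `q ∈ Q`, `‖p - q‖ ≤ r`, and `t ∈ T` with `‖q - t‖ < r`: then `‖p - t‖ < 2r`, so the weight of `t` is positive. `⟪u, V p⟫ = ∑ weights * ⟪u, dir p (φ t)⟫`; all terms are `≥ 0`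
(positive weight implies `‖p - t‖ ≤ 2r`, then the inner product is positive), one is positive.
* `v1_exists`: apply it with `Q = Ap K` (compact), `φ q` = some point of `Lo K 0 q` (`Lo_nonempty`), and `V := -V'`. For `p ∈ K`, `infDist p (Ap K) ≤ r` there is `q ∈ Ap K` with `‖p - q‖ ≤ r` (`Ap_near`). If `‖p - q‖ ≤ 2r`, `q ∈ Ap K`, then
  `φ q ∈ Lo K (4 r) p`: `F p (φ q) ≤ F q (φ q) + 2r = mn K q + 2r ≤ mn K p + 4r`. Use the vector `-u`: `⟪-u, dir p (φ q)⟫ > 0`, so `⟪-u, V' p⟫ > 0`, i.e. `⟪u, -V' p⟫ > 0`.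
* `v2_exists`: `Q = B1 K r` (compact: hypothesis `hB`), `φ q` = some point of `Hi K 0 q`.
-/

set_option autoImplicit false

open Metric Set Filter Topology

namespace Pool.Agent.E8N

variable {E : Type*} [NormedAddCommGroup E] [InnerProductSpace ℝ E] [FiniteDimensional ℝ E]
variable {K : Set E} {ρ R : ℝ}

theorem partV (hK : Body K ρ R) {Q : Set E} (hQ : IsCompact Q) {r : ℝ} (hr : 0 < r) (φ : E → E)
    (hφ : ∀ q ∈ Q, φ q ∈ S K) :
    ∃ V : E → E, ContinuousOn V K ∧ ∀ p ∈ K, (∃ q ∈ Q, ‖p - q‖ ≤ r) → ∀ u : E,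
      (∀ q ∈ Q, ‖p - q‖ ≤ 2 * r → 0 < inner ℝ u (dir p (φ q))) → 0 < inner ℝ u (V p) := by
  obtain ⟨T, hTQ, hTf, hTc⟩ := hQ.finite_cover_balls hr
  refine ⟨fun p => ∑ t ∈ hTf.toFinset, max 0 (2 * r - ‖p - t‖) • dir p (φ t), ?_, ?_⟩
  · refine continuousOn_finsetSum _ (fun t ht => ?_)
    have htT : t ∈ T := hTf.mem_toFinset.1 ht
    have hS : φ t ∈ S K := hφ t (hTQ htT)
    have h1 : ContinuousOn (fun p : E => max 0 (2 * r - ‖p - t‖)) K := by fun_prop
    have h2 : ContinuousOn (fun p : E => dir p (φ t)) K := by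
      unfold dir
      refine ContinuousOn.smul (ContinuousOn.inv₀ (by fun_prop) ?_) (by fun_prop)
      intro p hp h0
      have h3 : φ t = p := sub_eq_zero.1 (norm_eq_zero.1 h0)
      exact S_disj hK hS (h3 ▸ hp)
    exact h1.smul h2
  · intro p hp hq u hu
    obtain ⟨q, hqQ, hpq⟩ := hq
    obtain ⟨t, htT, hqt⟩ := mem_iUnion₂.1 (hTc hqQ)
    have hqt' : ‖q - t‖ < r := by
      rw [← dist_eq_norm]; exact mem_ball.1 hqt
    have hpt : ‖p - t‖ < 2 * r := by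
      have h1 : p - t = (p - q) + (q - t) := by abel
      have h2 : ‖p - t‖ ≤ ‖p - q‖ + ‖q - t‖ := by rw [h1]; exact norm_add_le _ _
      linarith
    have hsum : inner ℝ u (∑ t ∈ hTf.toFinset, max 0 (2 * r - ‖p - t‖) • dir p (φ t)) =
        ∑ t ∈ hTf.toFinset, max 0 (2 * r - ‖p - t‖) * inner ℝ u (dir p (φ t)) := by
      rw [inner_sum]
      refine Finset.sum_congr rfl (fun t _ => ?_)
      rw [inner_smul_right]
    show 0 < inner ℝ u (∑ t ∈ hTf.toFinset, max 0 (2 * r - ‖p - t‖) • dir p (φ t))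
    rw [hsum]
    refine Finset.sum_pos' ?_ ⟨t, hTf.mem_toFinset.2 htT, ?_⟩
    · intro s hs
      have hsT : s ∈ T := hTf.mem_toFinset.1 hs
      rcases le_or_gt (2 * r - ‖p - s‖) 0 with h | h
      · rw [max_eq_left h, zero_mul]
      · exact mul_nonneg (le_max_left _ _) (hu s (hTQ hsT) (by linarith)).le
    · refine mul_pos (lt_max_of_lt_right (by linarith)) (hu t (hTQ htT) hpt.le)

end Pool.Agent.E8N
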