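import Pool.Agent.E8N.NLim

/-!
# E8N NPat

Boundary points (`frontier K`): the minimum of `F p` on `S K` is `1`, attained exactly on the patch `p + ν`, `ν` unit outer normals.
* Supporting vector: `interior K` is nonempty (`ball`), open, convex; `p ∉ interior K`; `geometric_hahn_banach_open_point` gives a
  continuous functional `f` with `f a < f p` for `a ∈ interior K`; by density (`Convex.closure_interior_eq_closure_of_nonempty_interior` or similar:
  `K = closure (interior K)`) `f a ≤ f p` on `K`; by Riesz (`InnerProductSpace.toDual`) `f = ⟪ν', ·⟫`, `ν' ≠ 0`; `ν = ν'/‖ν'‖`.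
  Then `x = p + ν` has `P K x = p` (`P_unique`), so `x ∈ S K`, `F p x = 1`. Together with `one_le_F`: `mn K p = 1` (`pat_mn`; `p ∈ K` as `K` is closed).
* `pat_P`: `x ∈ Lo K 0 p`: `‖x - p‖ ≤ 1 = ‖x - P K x‖`, `‖x-p‖² = ‖x - Px‖² + 2⟪x - Px, Px - p⟫ + ‖Px - p‖² ≥ 1 + ‖Px - p‖²` (`P_var` with `w = p`).
* `pat_inner`: `P K x = p`, `dir p x = x - p`; for `q ∈ interior K` and small `ε > 0`, `q + ε • (x - p) ∈ K`, so by `P_var`
  `⟪x - p, q - p⟫ + ε ‖x - p‖² ≤ 0`.
* `pat_conn`: for `x₁, x₂ ∈ Lo K 0 p` and `t ∈ [0,1]`, `ν_t = (1-t)(x₁-p) + t(x₂-p)` satisfies `⟪ν_t, w - p⟫ ≤ 0` for `w ∈ K` and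
  `⟪ν_t, 0 - p⟫ < 0` by `pat_inner` with `q = 0`, so `ν_t ≠ 0` and `p + ν_t/‖ν_t‖ ∈ Lo K 0 p` (`P_unique`). Continuous path, so `Lo K 0 p` is
  preconnected (`isPreconnected_of_forall_pair`, image of `Icc 0 1`).
-/

set_option autoImplicit false

open Metric Set Filter Topology

namespace Pool.Agent.E8N

variable {E : Type*} [NormedAddCommGroup E] [InnerProductSpace ℝ E] [FiniteDimensional ℝ E]
variable {K : Set E} {ρ R : ℝ}

theorem NPat_mem (hK : Body K ρ R) {p v : E} (hp : p ∈ K) (hv : ‖v‖ = 1)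
    (h : ∀ w ∈ K, inner ℝ v (w - p) ≤ 0) : p + v ∈ S K ∧ F p (p + v) = 1 := by
  have hP : P K (p + v) = p := by
    refine P_unique hK hp (fun w hw => ?_)
    rw [add_sub_cancel_left]
    exact h w hw
  constructor
  · change ‖p + v - P K (p + v)‖ = 1
    rw [hP, add_sub_cancel_left, hv]
  · change ‖p + v - p‖ = 1
    rw [add_sub_cancel_left, hv]

theorem NPat_front (hK : Body K ρ R) {p : E} (hp : p ∈ frontier K) : p ∈ K :=
  hK.cpt.isClosed.frontier_subset hp

theorem NPat_zero (hK : Body K ρ R) : (0 : E) ∈ interior K :=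
  mem_interior_iff_mem_nhds.mpr (Filter.mem_of_superset (closedBall_mem_nhds 0 hK.hρ) hK.ball)

theorem NPat_supp (hK : Body K ρ R) {p : E} (hp : p ∈ frontier K) :
    ∃ v : E, ‖v‖ = 1 ∧ ∀ w ∈ K, inner ℝ v (w - p) ≤ 0 := by
  have := FiniteDimensional.complete ℝ E
  have hint : p ∉ interior K := hp.2
  obtain ⟨f, hf⟩ := geometric_hahn_banach_open_point hK.conv.interior isOpen_interior hint
  have h0 : f 0 < f p := hf 0 (NPat_zero hK)
  have hle : ∀ w ∈ K, f w ≤ f p := by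
    intro w hw
    have h1 : closure (interior K) = closure K :=
      hK.conv.closure_interior_eq_closure_of_nonempty_interior ⟨0, NPat_zero hK⟩
    have h2 : w ∈ closure (interior K) := by
      rw [h1]
      exact subset_closure hw
    have h3 : closure (interior K) ⊆ {a | f a ≤ f p} :=
      closure_minimal (fun a ha => (hf a ha).le) (isClosed_le f.continuous continuous_const)
    exact h3 h2
  set v' : E := (InnerProductSpace.toDual ℝ E).symm f with hv'
  have hin : ∀ z, inner ℝ v' z = f z := fun z => InnerProductSpace.toDual_symm_apply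
  have hne : v' ≠ 0 := by
    intro h
    have h1 := hin p
    rw [h, inner_zero_left] at h1
    rw [map_zero, ← h1] at h0
    exact lt_irrefl _ h0
  have hpos : 0 < ‖v'‖ := norm_pos_iff.mpr hne
  refine ⟨‖v'‖⁻¹ • v', ?_, ?_⟩
  · rw [norm_smul, norm_inv, norm_norm, inv_mul_cancel₀ hpos.ne']
  · intro w hw
    rw [real_inner_smul_left, inner_sub_right, hin, hin]
    have h1 := hle w hw
    have h2 : 0 < ‖v'‖⁻¹ := inv_pos.mpr hpos
    nlinarith

theorem pat_mn (hK : Body K ρ R) (hd : 4 ≤ Module.finrank ℝ E) {p : E} (hp : p ∈ frontier K) : mn K p = 1 := by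
  obtain ⟨v, hv, hw⟩ := NPat_supp hK hp
  obtain ⟨h1, h2⟩ := NPat_mem hK (NPat_front hK hp) hv hw
  refine le_antisymm ?_ ?_
  · rw [← h2]
    exact mn_le hK h1
  · obtain ⟨z, hz, hz1⟩ := Lo_nonempty hK hd p
    rw [← hz1]
    exact one_le_F hK hz (NPat_front hK hp)

theorem pat_P (hK : Body K ρ R) (hd : 4 ≤ Module.finrank ℝ E) {p x : E} (hp : p ∈ frontier K) (hx : x ∈ Lo K 0 p) :
    P K x = p := by
  have h1 : ‖x - P K x‖ = 1 := hx.1
  have h2 : ‖x - p‖ ≤ 1 := by
    have := hx.2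
    rw [pat_mn hK hd hp, add_zero] at this
    exact this
  have h3 := P_var hK x (NPat_front hK hp)
  have h4 : ‖x - p‖ ^ 2 = ‖x - P K x‖ ^ 2 - 2 * inner ℝ (x - P K x) (p - P K x) + ‖p - P K x‖ ^ 2 := by
    have e : x - p = (x - P K x) - (p - P K x) := by abel
    rw [e, norm_sub_sq_real]
  have h5 : ‖x - p‖ ^ 2 ≤ 1 := by
    have := norm_nonneg (x - p)
    nlinarith
  rw [h1] at h4
  have h6 : ‖p - P K x‖ ^ 2 ≤ 0 := by nlinarith
  have h7 : ‖p - P K x‖ = 0 := by
    have := sq_nonneg ‖p - P K x‖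
    exact pow_eq_zero_iff (two_ne_zero) |>.mp (le_antisymm h6 this)
  exact (sub_eq_zero.mp (norm_eq_zero.mp h7)).symm

theorem NPat_dir (hK : Body K ρ R) (hd : 4 ≤ Module.finrank ℝ E) {p x : E} (hp : p ∈ frontier K)
    (hx : x ∈ Lo K 0 p) : ‖x - p‖ = 1 ∧ dir p x = x - p := by
  have h1 : ‖x - P K x‖ = 1 := hx.1
  rw [pat_P hK hd hp hx] at h1
  refine ⟨h1, ?_⟩
  unfold dir
  rw [h1, inv_one, one_smul]

theorem pat_inner (hK : Body K ρ R) (hd : 4 ≤ Module.finrank ℝ E) {p x q : E} (hp : p ∈ frontier K)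
    (hx : x ∈ Lo K 0 p) (hq : q ∈ interior K) : inner ℝ (q - p) (dir p x) < 0 := by
  obtain ⟨h1, h2⟩ := NPat_dir hK hd hp hx
  have hP := pat_P hK hd hp hx
  obtain ⟨ε, hε, hεK⟩ := Metric.isOpen_iff.mp isOpen_interior q hq
  have hw : q + (ε / 2) • (x - p) ∈ K := by
    apply interior_subset
    apply hεK
    rw [mem_ball, dist_eq_norm, add_sub_cancel_left, norm_smul, h1, Real.norm_eq_abs, abs_of_pos (by positivity)]
    linarith
  have h3 := P_var hK x hw
  rw [hP] at h3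
  have e : q + (ε / 2) • (x - p) - p = (q - p) + (ε / 2) • (x - p) := by abel
  rw [e, inner_add_right, real_inner_smul_right, real_inner_self_eq_norm_sq, h1] at h3
  rw [h2, real_inner_comm]
  linarith

theorem pat_conn (hK : Body K ρ R) (hd : 4 ≤ Module.finrank ℝ E) {p : E} (hp : p ∈ frontier K) :
    IsPreconnected (Lo K 0 p) := by
  refine isPreconnected_of_forall_pair (fun x₁ h₁ x₂ h₂ => ?_)
  obtain ⟨n1, d1⟩ := NPat_dir hK hd hp h₁
  obtain ⟨n2, d2⟩ := NPat_dir hK hd hp h₂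
  have i1 := pat_inner hK hd hp h₁ (NPat_zero hK)
  have i2 := pat_inner hK hd hp h₂ (NPat_zero hK)
  rw [d1] at i1
  rw [d2] at i2
  set v : ℝ → E := fun t => (1 - t) • (x₁ - p) + t • (x₂ - p) with hv
  have hvne : ∀ t ∈ Icc (0 : ℝ) 1, v t ≠ 0 := by
    intro t ht h0
    have h1 : inner ℝ (0 - p) (v t) < 0 := by
      rw [hv]
      simp only [inner_add_right, real_inner_smul_right]
      rcases eq_or_lt_of_le ht.1 with h | h
      · rw [← h]
        simpa using i1
      · have : 0 ≤ 1 - t := by linarith [ht.2]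
        nlinarith
    rw [h0, inner_zero_right] at h1
    exact lt_irrefl _ h1
  have hvK : ∀ t ∈ Icc (0 : ℝ) 1, ∀ w ∈ K, inner ℝ (v t) (w - p) ≤ 0 := by
    intro t ht w hw
    have a1 := P_var hK x₁ hw
    have a2 := P_var hK x₂ hw
    rw [pat_P hK hd hp h₁] at a1
    rw [pat_P hK hd hp h₂] at a2
    rw [hv]
    simp only [inner_add_left, real_inner_smul_left]
    have : 0 ≤ 1 - t := by linarith [ht.2]
    have : 0 ≤ t := ht.1
    nlinarith
  refine ⟨(fun t => p + ‖v t‖⁻¹ • v t) '' Icc (0 : ℝ) 1, ?_, ?_, ?_, ?_⟩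
  · rintro y ⟨t, ht, rfl⟩
    have hpos : 0 < ‖v t‖ := norm_pos_iff.mpr (hvne t ht)
    have h := NPat_mem hK (NPat_front hK hp) (v := ‖v t‖⁻¹ • v t)
      (by rw [norm_smul, norm_inv, norm_norm, inv_mul_cancel₀ hpos.ne'])
      (fun w hw => by
        rw [real_inner_smul_left]
        have := hvK t ht w hw
        have h2 : 0 < ‖v t‖⁻¹ := inv_pos.mpr hpos
        nlinarith)
    refine ⟨h.1, ?_⟩
    rw [pat_mn hK hd hp, add_zero]
    exact h.2.le
  · refine ⟨0, ⟨le_rfl, zero_le_one⟩, ?_⟩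
    simp [hv, n1]
  · refine ⟨1, ⟨zero_le_one, le_rfl⟩, ?_⟩
    simp [hv, n2]
  · refine isPreconnected_Icc.image _ ?_
    have hvc : Continuous v := by
      rw [hv]
      fun_prop
    refine continuousOn_const.add ?_
    refine ContinuousOn.smul ?_ hvc.continuousOn
    exact hvc.norm.continuousOn.inv₀ (fun t ht => (norm_pos_iff.mpr (hvne t ht)).ne')

end Pool.Agent.E8N
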