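import Pool.Agent.E8N.NLim

/-!
# E8N NPres

Gluing of the prescribed values. `μ = X - lo` is continuous on the closed set `A₁ ∩ A₂`; `tietze`: continuous `G : E → E`, `G = μ` there; `μ' p = (η / max η ‖G p‖) • G p` is continuous, `‖μ' p‖ ≤ η`, and `μ' = μ` on `A₁ ∩ A₂` (where `‖μ‖ ≤ η`). Define `ξ p = X p` for `p ∈ A₁`, `ξ p = ret K (lo p + μ' p)` for `p ∈ A₂ \ A₁`, `0` otherwise.
For `p ∈ A₂`: `z = lo p + μ' p` has `‖z - lo p‖ ≤ η < 1`, so `z ∉ K` (a point `z ∈ K` has `‖lo p - z‖ ≥ ‖lo p - P K (lo p)‖ = 1`, by `P_var`). `‖ret K z - z‖ = |1 - ‖z - P K z‖|` and `|‖z - P K z‖ - ‖lo p - P K (lo p)‖| ≤ ‖z - lo p‖` (distance to `K` is 1-Lipschitz: `‖y - P K y‖ ≤ ‖y - w‖` for all `w ∈ K`), so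
`‖ret K z - lo p‖ ≤ 2η`. On `A₁ ∩ A₂`: `ret K (lo + X - lo) = ret K X = X` (`ret_of_mem`). So `ξ` agrees with `X` on `A₁` and with `ret K (lo + μ')` on `A₂`, both continuous on closed sets, so continuous on the union; on `A₁ ∩ A₂` `‖X - lo‖ ≤ η`.
-/

set_option autoImplicit false

open Metric Set Filter Topology

namespace Pool.Agent.E8N

variable {E : Type*} [NormedAddCommGroup E] [InnerProductSpace ℝ E] [FiniteDimensional ℝ E]
variable {K : Set E} {ρ R : ℝ}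

/-- a point at distance less than one from a point of `S K` is outside `K`, and its retraction is close -/
theorem pres_near (hK : Body K ρ R) {x z : E} (hx : x ∈ S K) {η : ℝ} (hη1 : η < 1) (h : ‖z - x‖ ≤ η) :
    z ∉ K ∧ ‖ret K z - x‖ ≤ 2 * η := by
  have hx1 : ‖x - P K x‖ = 1 := hx
  have hdist : ∀ y w : E, w ∈ K → ‖y - P K y‖ ≤ ‖y - w‖ := by
    intro y w hw
    have h1 := P_var hK y hw
    have h2 : y - w = (y - P K y) - (w - P K y) := by abel
    have h3 : ‖y - w‖ ^ 2 = ‖y - P K y‖ ^ 2 - 2 * inner ℝ (y - P K y) (w - P K y) + ‖w - P K y‖ ^ 2 := by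
      rw [h2, norm_sub_sq_real]
    have h4 : ‖y - P K y‖ ^ 2 ≤ ‖y - w‖ ^ 2 := by nlinarith [sq_nonneg ‖w - P K y‖]
    exact le_of_sq_le_sq h4 (norm_nonneg _)
  have hzK : z ∉ K := by
    intro hz
    have h1 := hdist x z hz
    rw [hx1, norm_sub_rev] at h1
    linarith
  refine ⟨hzK, ?_⟩
  have hP := P_mem hK z
  have hPx := P_mem hK x
  have hn : ‖z - P K z‖ ≠ 0 := by
    intro h0
    have : z = P K z := by simpa [sub_eq_zero] using h0
    exact hzK (this ▸ hP)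
  have hlow : 1 - η ≤ ‖z - P K z‖ := by
    have h1 := hdist x (P K z) hP
    have h2 : ‖x - P K z‖ ≤ ‖x - z‖ + ‖z - P K z‖ := norm_sub_le_norm_sub_add_norm_sub _ _ _
    rw [hx1] at h1
    rw [norm_sub_rev x z] at h2
    linarith
  have hup : ‖z - P K z‖ ≤ 1 + η := by
    have h1 := hdist z (P K x) hPx
    have h2 : ‖z - P K x‖ ≤ ‖z - x‖ + ‖x - P K x‖ := norm_sub_le_norm_sub_add_norm_sub _ _ _
    rw [hx1] at h2
    linarith
  have hr : ‖ret K z - z‖ ≤ η := by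
    have e : ret K z - z = (‖z - P K z‖⁻¹ - 1) • (z - P K z) := by
      unfold ret
      rw [sub_smul, one_smul]
      abel
    rw [e, norm_smul, Real.norm_eq_abs]
    have e2 : |‖z - P K z‖⁻¹ - 1| * ‖z - P K z‖ = |1 - ‖z - P K z‖| := by
      rw [← abs_of_nonneg (norm_nonneg (z - P K z)), ← abs_mul, abs_of_nonneg (norm_nonneg (z - P K z)), sub_mul,
        inv_mul_cancel₀ hn, one_mul]
    rw [e2, abs_le]
    constructor <;> linarith
  calc ‖ret K z - x‖ ≤ ‖ret K z - z‖ + ‖z - x‖ := norm_sub_le_norm_sub_add_norm_sub _ _ _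
    _ ≤ 2 * η := by linarith

theorem pres (hK : Body K ρ R) {A₁ A₂ : Set E} (h1 : IsClosed A₁) (h2 : IsClosed A₂) {X lo : E → E}
    (hX : ContinuousOn X A₁) (hlo : ContinuousOn lo A₂) (hXS : ∀ p ∈ A₁, X p ∈ S K) (hloS : ∀ p ∈ A₂, lo p ∈ S K)
    {η : ℝ} (hη : 0 < η) (hη1 : η < 1) (h : ∀ p ∈ A₁, p ∈ A₂ → ‖X p - lo p‖ ≤ η) :
    ∃ ξ : E → E, ContinuousOn ξ (A₁ ∪ A₂) ∧ (∀ p ∈ A₁ ∪ A₂, ξ p ∈ S K) ∧ (∀ p ∈ A₁, ξ p = X p) ∧
      ∀ p ∈ A₂, ‖ξ p - lo p‖ ≤ 2 * η := by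
  classical
  obtain ⟨G, hG, hGe⟩ := tietze (h1.inter h2) (g := fun p => X p - lo p)
    ((hX.mono inter_subset_left).sub (hlo.mono inter_subset_right))
  have hmax : ∀ p, 0 < max η ‖G p‖ := fun p => lt_of_lt_of_le hη (le_max_left _ _)
  have hmc : Continuous fun p => (η / max η ‖G p‖) • G p :=
    ((continuous_const.div (continuous_const.max hG.norm) fun p => (hmax p).ne').smul hG)
  have hmn : ∀ p, ‖(η / max η ‖G p‖) • G p‖ ≤ η := by
    intro p
    rw [norm_smul, Real.norm_eq_abs, abs_of_pos (div_pos hη (hmax p)), div_mul_eq_mul_div,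
      div_le_iff₀ (hmax p)]
    exact mul_le_mul_of_nonneg_left (le_max_right _ _) hη.le
  have hme : ∀ p ∈ A₁, p ∈ A₂ → (η / max η ‖G p‖) • G p = X p - lo p := by
    intro p hp1 hp2
    have e := hGe p ⟨hp1, hp2⟩
    have hle : ‖G p‖ ≤ η := by
      rw [e]
      exact h p hp1 hp2
    rw [max_eq_left hle, div_self hη.ne', one_smul]
    exact e
  have hnear : ∀ p ∈ A₂, (lo p + (η / max η ‖G p‖) • G p) ∉ K ∧
      ‖ret K (lo p + (η / max η ‖G p‖) • G p) - lo p‖ ≤ 2 * η := by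
    intro p hp
    refine pres_near hK (hloS p hp) hη1 ?_
    rw [add_sub_cancel_left]
    exact hmn p
  have hξ2 : ∀ p ∈ A₂, (if p ∈ A₁ then X p else ret K (lo p + (η / max η ‖G p‖) • G p)) =
      ret K (lo p + (η / max η ‖G p‖) • G p) := by
    intro p hp
    by_cases hp1 : p ∈ A₁
    · rw [if_pos hp1, hme p hp1 hp, add_sub_cancel, ret_of_mem hK (hXS p hp1)]
    · rw [if_neg hp1]
  refine ⟨fun p => if p ∈ A₁ then X p else ret K (lo p + (η / max η ‖G p‖) • G p), ?_, ?_, ?_, ?_⟩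
  · refine ContinuousOn.union_of_isClosed ?_ ?_ h1 h2
    · refine hX.congr ?_
      intro p hp
      exact if_pos hp
    · refine ContinuousOn.congr ?_ hξ2
      exact (ret_cont hK).comp (hlo.add hmc.continuousOn) fun p hp => (hnear p hp).1
  · rintro p (hp | hp)
    · show (if p ∈ A₁ then X p else _) ∈ S K
      rw [if_pos hp]
      exact hXS p hp
    · show (if p ∈ A₁ then X p else _) ∈ S K
      rw [hξ2 p hp]
      exact ret_mem hK (hnear p hp).1
  · intro p hp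
    exact if_pos hp
  · intro p hp
    show ‖(if p ∈ A₁ then X p else _) - lo p‖ ≤ 2 * η
    rw [hξ2 p hp]
    exact (hnear p hp).2

end Pool.Agent.E8N
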