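import Pool.Agent.E8N.Defs2

/-!
# E8N NW

There is a unit vector `w ⊥ ν` with `⟪w, p⟫ ≤ 0` whose half great circle from `ν` avoids a given finite set.
Proof. `G = {w | ‖w‖ = 1, ⟪ν, w⟫ = 0, ⟪w, p⟫ ≤ 0}` is infinite: choose orthonormal `e₁, e₂ ⊥ ν` (dimension `≥ 4`; e.g. from an orthonormal basis of `(ℝ ∙ ν)ᗮ`, finrank `≥ 3`), `w_θ = cos θ • e₁ + sin θ • e₂`;
for each `θ ∈ [0, π)` one of `w_θ, -w_θ` is in `G`; if `G` were finite, `G ∪ -G` would be finite, but it contains the infinitely many `w_θ` (injective on `[0, π)`).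
For `v ∈ T` which is of the form `cos φ • ν + sin φ • w` with `φ ∈ (0, π)`, `w` unit, `⟪ν, w⟫ = 0`: `w = ‖v - ⟪ν,v⟫ν‖⁻¹ • (v - ⟪ν,v⟫ν)` (as `sin φ > 0`). So only finitely many `w` are bad;
`Set.Infinite.exists_notMem_finite` (or `Infinite.diff`) gives a good `w ∈ G`.
-/

set_option autoImplicit false

open Metric Set Filter Topology

namespace Pool.Agent.E8N

variable {E : Type*} [NormedAddCommGroup E] [InnerProductSpace ℝ E] [FiniteDimensional ℝ E]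
variable {K : Set E} {ρ R : ℝ}

omit [FiniteDimensional ℝ E] in
theorem NW_wfam {e₁ e₂ p : E} (h1 : ‖e₁‖ = 1) (h2 : ‖e₂‖ = 1) (h12 : inner ℝ e₁ e₂ = 0) {ν : E}
    (hν1 : inner ℝ ν e₁ = 0) (hν2 : inner ℝ ν e₂ = 0) (s : ℝ) :
    ∃ w : E, ‖w‖ = 1 ∧ inner ℝ ν w = 0 ∧ inner ℝ w p ≤ 0 ∧
      ∃ σ : ℝ, (σ = 1 ∨ σ = -1) ∧ w = (σ * (Real.sqrt (1 + s ^ 2))⁻¹) • (e₁ + s • e₂) := by
  have hq : 0 < Real.sqrt (1 + s ^ 2) := Real.sqrt_pos.mpr (by positivity)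
  have hn : ‖e₁ + s • e₂‖ = Real.sqrt (1 + s ^ 2) := by
    have h3 : ‖e₁ + s • e₂‖ ^ 2 = 1 + s ^ 2 := by
      rw [norm_add_sq_real, inner_smul_right, h12, norm_smul, h1, h2, Real.norm_eq_abs, mul_one, sq_abs]
      ring
    rw [← h3, Real.sqrt_sq (norm_nonneg _)]
  have hin : inner ℝ ν (e₁ + s • e₂) = 0 := by
    rw [inner_add_right, inner_smul_right, hν1, hν2]
    ring
  have key : ∀ σ : ℝ, (σ = 1 ∨ σ = -1) → inner ℝ ((σ * (Real.sqrt (1 + s ^ 2))⁻¹) • (e₁ + s • e₂)) p ≤ 0 →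
      ∃ w : E, ‖w‖ = 1 ∧ inner ℝ ν w = 0 ∧ inner ℝ w p ≤ 0 ∧
      ∃ σ : ℝ, (σ = 1 ∨ σ = -1) ∧ w = (σ * (Real.sqrt (1 + s ^ 2))⁻¹) • (e₁ + s • e₂) := by
    intro σ hσ hle
    refine ⟨_, ?_, ?_, hle, σ, hσ, rfl⟩
    · rw [norm_smul, hn, norm_mul, norm_inv, Real.norm_eq_abs (Real.sqrt _), abs_of_pos hq]
      have h5 : ‖σ‖ = 1 := by
        rcases hσ with rfl | rfl <;> simp
      rw [h5, one_mul, inv_mul_cancel₀ hq.ne']
    · rw [inner_smul_right, hin, mul_zero]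
  rcases le_total (inner ℝ ((1 * (Real.sqrt (1 + s ^ 2))⁻¹) • (e₁ + s • e₂)) p) 0 with h5 | h5
  · exact key 1 (Or.inl rfl) h5
  · refine key (-1) (Or.inr rfl) ?_
    rw [neg_mul, neg_smul, inner_neg_left]
    linarith

omit [FiniteDimensional ℝ E] in
theorem NW_inj {e₁ e₂ : E} (h1 : ‖e₁‖ = 1) (h2 : ‖e₂‖ = 1) (h12 : inner ℝ e₁ e₂ = 0) {s t σ τ : ℝ}
    (hσ : σ = 1 ∨ σ = -1) (hτ : τ = 1 ∨ τ = -1)
    (h : (σ * (Real.sqrt (1 + s ^ 2))⁻¹) • (e₁ + s • e₂) = (τ * (Real.sqrt (1 + t ^ 2))⁻¹) • (e₁ + t • e₂)) :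
    s = t := by
  have hqs : 0 < (Real.sqrt (1 + s ^ 2))⁻¹ := inv_pos.mpr (Real.sqrt_pos.mpr (by positivity))
  have hqt : 0 < (Real.sqrt (1 + t ^ 2))⁻¹ := inv_pos.mpr (Real.sqrt_pos.mpr (by positivity))
  have e1 : inner ℝ e₁ e₁ = (1 : ℝ) := by rw [real_inner_self_eq_norm_sq, h1]; norm_num
  have e2 : inner ℝ e₂ e₂ = (1 : ℝ) := by rw [real_inner_self_eq_norm_sq, h2]; norm_num
  have h21 : inner ℝ e₂ e₁ = 0 := by rw [real_inner_comm]; exact h12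
  have k1 := congrArg (fun v => inner ℝ e₁ v) h
  have k2 := congrArg (fun v => inner ℝ e₂ v) h
  simp only [inner_smul_right, inner_add_right, e1, e2, h12, h21, mul_zero, add_zero, mul_one, zero_add] at k1 k2
  have h3 : (σ * (Real.sqrt (1 + s ^ 2))⁻¹) ≠ 0 := by
    apply mul_ne_zero _ hqs.ne'
    rcases hσ with rfl | rfl <;> norm_num
  rw [← k1] at k2
  exact mul_left_cancel₀ h3 k2

theorem exists_w (hd : 4 ≤ Module.finrank ℝ E) {ν p : E} (hν : ‖ν‖ = 1) {T : Set E} (hT : T.Finite) :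
    ∃ w : E, ‖w‖ = 1 ∧ inner ℝ ν w = 0 ∧ inner ℝ w p ≤ 0 ∧
      ∀ φ ∈ Ioo (0 : ℝ) Real.pi, Real.cos φ • ν + Real.sin φ • w ∉ T := by
  have hν0 : ν ≠ 0 := by
    rintro rfl
    rw [norm_zero] at hν
    exact zero_ne_one hν
  have hfr : Module.finrank ℝ (ℝ ∙ ν)ᗮ + 1 = Module.finrank ℝ E := by
    have h1 := Submodule.finrank_add_finrank_orthogonal (ℝ ∙ ν)
    rw [finrank_span_singleton hν0] at h1
    omega
  have h3 : 3 ≤ Module.finrank ℝ (ℝ ∙ ν)ᗮ := by omega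
  let b := stdOrthonormalBasis ℝ (ℝ ∙ ν)ᗮ
  have hb := b.orthonormal
  let i0 : Fin (Module.finrank ℝ (ℝ ∙ ν)ᗮ) := ⟨0, by omega⟩
  let i1 : Fin (Module.finrank ℝ (ℝ ∙ ν)ᗮ) := ⟨1, by omega⟩
  have hne : i0 ≠ i1 := by
    intro h
    have := congrArg Fin.val h
    simp [i0, i1] at this
  have h1 : ‖((b i0 : (ℝ ∙ ν)ᗮ) : E)‖ = 1 := hb.1 i0
  have h2 : ‖((b i1 : (ℝ ∙ ν)ᗮ) : E)‖ = 1 := hb.1 i1
  have h12 : inner ℝ ((b i0 : (ℝ ∙ ν)ᗮ) : E) ((b i1 : (ℝ ∙ ν)ᗮ) : E) = 0 := hb.2 hne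
  have hν1 : inner ℝ ν ((b i0 : (ℝ ∙ ν)ᗮ) : E) = 0 :=
    Submodule.mem_orthogonal_singleton_iff_inner_right.mp (b i0).2
  have hν2 : inner ℝ ν ((b i1 : (ℝ ∙ ν)ᗮ) : E) = 0 :=
    Submodule.mem_orthogonal_singleton_iff_inner_right.mp (b i1).2
  choose w hw using fun s : ℝ => NW_wfam (p := p) h1 h2 h12 hν1 hν2 s
  have hinj : Function.Injective w := by
    intro s t hst
    obtain ⟨σ, hσ, e1⟩ := (hw s).2.2.2
    obtain ⟨τ, hτ, e2⟩ := (hw t).2.2.2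
    rw [e1, e2] at hst
    exact NW_inj h1 h2 h12 hσ hτ hst
  have hinf : (Set.range w).Infinite := Set.infinite_range_of_injective hinj
  have hfin : ((fun v : E => ‖v - inner ℝ ν v • ν‖⁻¹ • (v - inner ℝ ν v • ν)) '' T).Finite := hT.image _
  obtain ⟨w0, ⟨s, rfl⟩, hnot⟩ := hinf.exists_notMem_finite hfin
  refine ⟨w s, (hw s).1, (hw s).2.1, (hw s).2.2.1, ?_⟩
  intro φ hφ hmem
  apply hnot
  refine ⟨_, hmem, ?_⟩
  have hsin : 0 < Real.sin φ := Real.sin_pos_of_mem_Ioo hφ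
  have hinn : inner ℝ ν (Real.cos φ • ν + Real.sin φ • w s) = Real.cos φ := by
    rw [inner_add_right, inner_smul_right, inner_smul_right, (hw s).2.1, real_inner_self_eq_norm_sq, hν]
    ring
  simp only [hinn, add_sub_cancel_left]
  rw [norm_smul, (hw s).1, mul_one, Real.norm_eq_abs, abs_of_pos hsin, smul_smul,
    inv_mul_cancel₀ hsin.ne', one_smul]

end Pool.Agent.E8N
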