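import Pool.Agent.E8N.NArc
import Pool.Agent.E8N.NLow
import Pool.Agent.E8N.NW

/-!
# E8N NRing

(4.2) RING. Let `Y, κ` be from `lowP` (this `Y` is the one in the statement). Given `t > 0`, choose `r > 0` with `2 r / t < 1` and `(2 r / t) * R < κ`.
Let `p ∈ Om K`, `dl ≤ cl`, `infDist p (frontier K) ≤ r`, `MidXY K p x y` (components `Al, Am, Bl, Bm`), `mn K p + t ≤ F p x`; suppose `F p y < 1 + Y`.
`mn K p ≤ 1 + r` (`fr_mn`). Take `m ∈ Lo K 0 p` (`Lo_nonempty`); since `F p x ≠ mn K p`, `m ∈ Al` (`mid_facts`). `φ₁ = arccos (2 r / t) ∈ (0, π/2)`, `cos φ₁ = 2r/t`, so `mn K p - 1 ≤ r = (t/2) cos φ₁`.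
`exists_w` with `ν = dir p m`, `T = dir p '' Crit K p` (finite by `h7`, `p ∈ interior K`) gives `w`. For `ψ ∈ [0, φ₁]` the vector `cos ψ • ν + sin ψ • w` is a unit vector; `ray_cont` gives `z ψ ∈ S K` on that ray, continuous in `ψ`. For
`ψ ∈ (0, φ₁]`, `z ψ ∉ Crit K p` by the choice of `w`. At `φ₁`: `⟪dir p (z φ₁), p⟫ = (2r/t) ⟪ν, p⟫ + sin φ₁ ⟪w, p⟫ ≤ (2r/t) R < κ` (`‖p‖ ≤ R`), so by `lowP` `F p (z φ₁) > 1 + Y > F p y`. As `F p y > dl K p` (`mid_facts`),
`z φ₁ ∈ sup K p (dl K p) = Bl ∪ Bm`; it is not in `Bm` by `h.hy'`; so in `Bl`. `arc` gives `False`.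
-/

set_option autoImplicit false

open Metric Set Filter Topology

namespace Pool.Agent.E8N

variable {E : Type*} [NormedAddCommGroup E] [InnerProductSpace ℝ E] [FiniteDimensional ℝ E]
variable {K : Set E} {ρ R : ℝ}

theorem ring42 (hK : Body K ρ R) (h7 : AtMost7 K) (hd : 4 ≤ Module.finrank ℝ E) :
    ∃ Y > 0, ∀ t > 0, ∃ r > 0, ∀ p ∈ Om K, dl K p ≤ cl K p → infDist p (frontier K) ≤ r → ∀ x y, MidXY K p x y →
      mn K p + t ≤ F p x → 1 + Y ≤ F p y := by
  obtain ⟨Y, hY, κ, hκ, hlow⟩ := lowP hK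
  refine ⟨Y, hY, ?_⟩
  intro t ht
  have hR : 0 < R := by
    have h0 : (0 : E) ∈ closedBall (0 : E) ρ := mem_closedBall_self hK.hρ.le
    have hfin : 0 < Module.finrank ℝ E := by omega
    haveI : Nontrivial E := Module.finrank_pos_iff.1 hfin
    obtain ⟨v, hv⟩ := exists_norm_eq (E := E) hK.hρ.le
    have h1 : v ∈ closedBall (0 : E) R := hK.sub (hK.ball (by rw [mem_closedBall_zero_iff, hv]))
    rw [mem_closedBall_zero_iff, hv] at h1
    exact lt_of_lt_of_le hK.hρ h1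
  -- choice of r
  obtain ⟨r, hr, hr1, hr2⟩ : ∃ r > 0, 2 * r / t < 1 ∧ 2 * r / t * R < κ := by
    have hq : 0 < min (1 / 2) (κ / (2 * R)) := by positivity
    refine ⟨t * min (1 / 2) (κ / (2 * R)) / 2, by positivity, ?_, ?_⟩
    · have e : 2 * (t * min (1 / 2) (κ / (2 * R)) / 2) / t = min (1 / 2) (κ / (2 * R)) := by
        field_simp
      rw [e]
      exact lt_of_le_of_lt (min_le_left _ _) (by norm_num)
    · have e : 2 * (t * min (1 / 2) (κ / (2 * R)) / 2) / t = min (1 / 2) (κ / (2 * R)) := by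
        field_simp
      rw [e]
      have h1 : min (1 / 2) (κ / (2 * R)) * R ≤ κ / (2 * R) * R :=
        mul_le_mul_of_nonneg_right (min_le_right _ _) hR.le
      have h2 : κ / (2 * R) * R = κ / 2 := by field_simp
      linarith
  refine ⟨r, hr, ?_⟩
  intro p hp hcd hpr x y hxy hx
  obtain ⟨Al, Am, Bl, Bm, h⟩ := hxy
  by_contra hyY
  push Not at hyY
  have hpi : p ∈ interior K := hp.1
  have hpK : p ∈ K := interior_subset hpi
  obtain ⟨-, -, hxc, -, hdy, hmnd, -, hAl⟩ := mid_facts hK h7 hd hp hcd h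
  have hmn : mn K p ≤ 1 + r := fr_mn hK hd hpr
  obtain ⟨m, hmS, hmF⟩ := Lo_nonempty hK hd p
  have hm : m ∈ Lo K 0 p := ⟨hmS, by rw [hmF, add_zero]⟩
  have hmA : m ∈ Al := hAl m hm (by linarith)
  have hF1 : 1 ≤ F p m := one_le_F hK hmS hpK
  have hνn : ‖dir p m‖ = 1 := by
    have h1 : ‖m - p‖ ≠ 0 := by
      have : (1 : ℝ) ≤ ‖m - p‖ := hF1
      linarith
    show ‖‖m - p‖⁻¹ • (m - p)‖ = 1
    rw [norm_smul, norm_inv, norm_norm, inv_mul_cancel₀ h1]
  have hq0 : 0 < 2 * r / t := by positivity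
  have hφ1 : 0 < Real.arccos (2 * r / t) := Real.arccos_pos.2 hr1
  have hφ2 : Real.arccos (2 * r / t) < Real.pi / 2 := Real.arccos_lt_pi_div_two.2 hq0
  have hcos : Real.cos (Real.arccos (2 * r / t)) = 2 * r / t := Real.cos_arccos (by linarith) hr1.le
  set φ₁ : ℝ := Real.arccos (2 * r / t) with hφdef
  obtain ⟨w, hw, hνw, hwp, hwT⟩ := exists_w (p := p) hd hνn (T := dir p '' Crit K p) ((h7 p hpi).1.image _)
  obtain ⟨Z, hZc, hZ⟩ := ray_cont hK
  have hunit : ∀ ψ : ℝ, Real.cos ψ • dir p m + Real.sin ψ • w ∈ sphere (0 : E) 1 := by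
    intro ψ
    rw [mem_sphere_zero_iff_norm]
    have h1 : ‖Real.cos ψ • dir p m + Real.sin ψ • w‖ ^ 2 = 1 := by
      rw [norm_add_sq_real, norm_smul, norm_smul, hνn, hw, inner_smul_left, inner_smul_right, hνw]
      simp
    have h2 := norm_nonneg (Real.cos ψ • dir p m + Real.sin ψ • w)
    nlinarith
  set z : ℝ → E := fun ψ => Z (p, Real.cos ψ • dir p m + Real.sin ψ • w) with hzdef
  have hz : ∀ ψ, z ψ ∈ S K ∧ dir p (z ψ) = Real.cos ψ • dir p m + Real.sin ψ • w := fun ψ => hZ p hpK _ (hunit ψ)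
  have hzc : Continuous z := by
    have hg : Continuous fun ψ : ℝ => (p, Real.cos ψ • dir p m + Real.sin ψ • w) := by fun_prop
    exact hZc.comp_continuous hg (fun ψ => ⟨hpK, hunit ψ⟩)
  have hcr : ∀ ψ ∈ Ioc 0 φ₁, z ψ ∉ Crit K p := by
    intro ψ hψ hc
    apply hwT ψ ⟨hψ.1, by linarith [hψ.2, Real.pi_pos]⟩
    exact ⟨z ψ, hc, (hz ψ).2⟩
  have hBl : z φ₁ ∈ Bl := by
    have h1 : inner ℝ (dir p (z φ₁)) p < κ := by
      rw [(hz φ₁).2, inner_add_left, inner_smul_left, inner_smul_left, hcos]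
      have hpR : ‖p‖ ≤ R := by
        have := hK.sub hpK
        rwa [mem_closedBall_zero_iff] at this
      have h2 : inner ℝ (dir p m) p ≤ R := by
        calc inner ℝ (dir p m) p ≤ ‖dir p m‖ * ‖p‖ := real_inner_le_norm _ _
          _ ≤ R := by rw [hνn, one_mul]; exact hpR
      have h3 : 0 ≤ Real.sin φ₁ := Real.sin_nonneg_of_nonneg_of_le_pi hφ1.le (by linarith [Real.pi_pos])
      have h4 : 2 * r / t * inner ℝ (dir p m) p ≤ 2 * r / t * R := mul_le_mul_of_nonneg_left h2 hq0.le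
      have h5 : Real.sin φ₁ * inner ℝ w p ≤ 0 := mul_nonpos_of_nonneg_of_nonpos h3 hwp
      simp only [conj_trivial]
      linarith
    have h2 : 1 + Y < F p (z φ₁) := by
      by_contra h3
      push Not at h3
      have := hlow p hpK (z φ₁) (hz φ₁).1 h3
      linarith
    have h3 : z φ₁ ∈ sup K p (dl K p) := ⟨(hz φ₁).1, by linarith⟩
    rw [h.cB] at h3
    rcases h3 with h3 | h3
    · exact h3
    · exfalso
      have := h.hy' (z φ₁) h3
      linarith
  refine arc hK h7 hd hp hcd h hm hmA ht hx hφ1 hφ2 ?_ hw hνw (z := z) (fun ψ _ => hz ψ) hzc.continuousOn hcr hBl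
  rw [hcos]
  have e : t / 2 * (2 * r / t) = r := by field_simp
  rw [e]; linarith

end Pool.Agent.E8N
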