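import Pool.Agent.E8N.NCls

/-!
# E8N NS0

Suppose not: for `k : ℕ` (with `κ' = η₀ = 1/(k+1)`) there are `p_k ∈ O` and `Cls K O (1/(k+1)) p_k X_k Y_k` with one of the three inequalities violated; subsequence `p_k → p₀` (and the same inequality violated for all `k`, or treat the disjunction in the limit: use that one of
three eventually-true statements fails frequently). `cls_lim`: `X_k → x₀`, `Y_k → y₀`, `MidXY K p₀ x₀ y₀`, `dl K p₀ ≤ cl K p₀`. `mid_facts`: `F p₀ x₀ < cl K p₀ ≤ F p₀ y₀`, `dl K p₀ < F p₀ y₀`. All sides converge (`F_lim`, `cl_cont`, `dl_cont` along `p_k ∈ O ⊆ Om K`), so all three strict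
inequalities hold for large `k` with the extra `1/(k+1)`: contradiction.
-/

set_option autoImplicit false

open Metric Set Filter Topology

namespace Pool.Agent.E8N

variable {E : Type*} [NormedAddCommGroup E] [InnerProductSpace ℝ E] [FiniteDimensional ℝ E]
variable {K : Set E} {ρ R : ℝ}

theorem s0 (hK : Body K ρ R) (h7 : AtMost7 K) (hd : 4 ≤ Module.finrank ℝ E) {O : Set E} (hO : IsCompact O)
    (hOm : O ⊆ Om K) :
    ∃ κ' > 0, ∃ η₀ > 0, ∀ p ∈ O, ∀ X Y, Cls K O η₀ p X Y →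
      F p X + κ' < cl K p ∧ F p X + κ' < F p Y ∧ dl K p + κ' < F p Y := by
  by_contra hcon
  have hex : ∀ k : ℕ, ∃ p ∈ O, ∃ X Y, Cls K O (1 / ((k : ℝ) + 1)) p X Y ∧
      ¬ (F p X + 1 / ((k : ℝ) + 1) < cl K p ∧ F p X + 1 / ((k : ℝ) + 1) < F p Y ∧
        dl K p + 1 / ((k : ℝ) + 1) < F p Y) := by
    intro k
    by_contra hk
    push Not at hk
    exact hcon ⟨1 / ((k : ℝ) + 1), by positivity, 1 / ((k : ℝ) + 1), by positivity,
      fun p hp X Y h => hk p hp X Y h⟩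
  choose p hp X Y hC hV using hex
  obtain ⟨p₀, hp₀, φ, hφ, hlim⟩ := hO.tendsto_subseq hp
  have he : Tendsto (fun k : ℕ => 1 / ((φ k : ℝ) + 1)) atTop (𝓝 0) :=
    tendsto_one_div_add_atTop_nhds_zero_nat.comp hφ.tendsto_atTop
  obtain ⟨-, hcd, x₀, y₀, hm, hX, hY⟩ := cls_lim hK h7 hd hO hOm (p := fun k => p (φ k))
    (X := fun k => X (φ k)) (Y := fun k => Y (φ k)) he (fun k => hp (φ k)) hlim (fun k => hC (φ k))
  obtain ⟨Al, Am, Bl, Bm, hmid⟩ := hm
  obtain ⟨-, -, h1, h2, h3, -⟩ := mid_facts hK h7 hd (hOm hp₀) hcd hmid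
  have hw : Tendsto (fun k => p (φ k)) atTop (𝓝[Om K] p₀) :=
    tendsto_nhdsWithin_iff.2 ⟨hlim, Eventually.of_forall fun k => hOm (hp (φ k))⟩
  have tc : Tendsto (fun k => cl K (p (φ k))) atTop (𝓝 (cl K p₀)) :=
    (cl_cont hK h7 hd p₀ (hOm hp₀)).tendsto.comp hw
  have td : Tendsto (fun k => dl K (p (φ k))) atTop (𝓝 (dl K p₀)) :=
    (dl_cont hK h7 hd p₀ (hOm hp₀)).tendsto.comp hw
  have tX : Tendsto (fun k => F (p (φ k)) (X (φ k)) + 1 / ((φ k : ℝ) + 1)) atTop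
      (𝓝 (F p₀ x₀ + 0)) := (F_lim hlim hX).add he
  have tY : Tendsto (fun k => F (p (φ k)) (Y (φ k))) atTop (𝓝 (F p₀ y₀)) := F_lim hlim hY
  have tD : Tendsto (fun k => dl K (p (φ k)) + 1 / ((φ k : ℝ) + 1)) atTop
      (𝓝 (dl K p₀ + 0)) := td.add he
  rw [add_zero] at tX tD
  have e1 := tX.eventually_lt tc h1
  have e2 := tX.eventually_lt tY (h1.trans_le h2)
  have e3 := tD.eventually_lt tY h3
  obtain ⟨k, hk1, hk2, hk3⟩ := (e1.and (e2.and e3)).exists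
  exact hV (φ k) ⟨hk1, hk2, hk3⟩

end Pool.Agent.E8N
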