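import Pool.Agent.E8N.NCls

/-!
# E8N NS4

The extended middle minimum is near one of the two minima. Suppose not: `p_k ∈ O`, `Cls K O (1/(k+1)) p_k X_k Y_k` (with `q_k`, `MidXY K q_k x_k y_k`), `Mins K p_k lo_k hi_k`, `‖X_k - lo_k‖ > η'` and `|F p_k X_k - F p_k hi_k| > η'`. Subsequence `p_k → p₀ ∈ O`; `cls_lim`: `X_k → x₀`,
`MidXY K p₀ x₀ y₀`. `mid_facts` at `p₀`: there is `Mins K p₀ lo' hi'` with `x₀ = lo'` or `x₀ = hi'`. `mins_cont'` (for `p_k → p₀`, `Mins K p_k lo_k hi_k`, `Mins K p₀ lo' hi'`, `e = η'/4`): for large `k` the pair `(lo_k, hi_k)` is `e`-close to `(lo', hi')` or to `(hi', lo')`. In all four cases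
`x₀` is `e`-close to `lo_k` or to `hi_k`; with `‖X_k - x₀‖ < e`: `‖X_k - lo_k‖ < 2e < η'`, or `‖X_k - hi_k‖ < 2e`, so `|F p_k X_k - F p_k hi_k| < η'` (`F_lip'`). Contradiction.
-/

set_option autoImplicit false

open Metric Set Filter Topology

namespace Pool.Agent.E8N

variable {E : Type*} [NormedAddCommGroup E] [InnerProductSpace ℝ E] [FiniteDimensional ℝ E]
variable {K : Set E} {ρ R : ℝ}

theorem s4 (hK : Body K ρ R) (h7 : AtMost7 K) (hd : 4 ≤ Module.finrank ℝ E) {O : Set E} (hO : IsCompact O)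
    (hOm : O ⊆ Om K) {η' : ℝ} (hη' : 0 < η') :
    ∃ η₀ > 0, ∀ p ∈ O, ∀ X Y, Cls K O η₀ p X Y → ∀ lo hi, Mins K p lo hi →
      ‖X - lo‖ ≤ η' ∨ |F p X - F p hi| ≤ η' := by
  by_contra hcon
  push Not at hcon
  have hk : ∀ k : ℕ, ∃ p ∈ O, ∃ X Y, Cls K O (1 / ((k : ℝ) + 1)) p X Y ∧ ∃ lo hi, Mins K p lo hi ∧
      η' < ‖X - lo‖ ∧ η' < |F p X - F p hi| := by
    intro k
    exact hcon _ Nat.one_div_pos_of_nat
  choose p hp X Y hcls lo hi hmins h1 h2 using hk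
  obtain ⟨p₀, hp₀, φ, hφ, hlim⟩ := hO.tendsto_subseq hp
  have hη : Tendsto (fun k : ℕ => 1 / (((φ k : ℕ) : ℝ) + 1)) atTop (𝓝 0) :=
    (tendsto_one_div_add_atTop_nhds_zero_nat (𝕜 := ℝ)).comp hφ.tendsto_atTop
  obtain ⟨-, hdc, x₀, y₀, hxy, hX, -⟩ := cls_lim hK h7 hd hO hOm (p := p ∘ φ) (X := X ∘ φ) (Y := Y ∘ φ) hη
    (fun k => hp (φ k)) hlim (fun k => hcls (φ k))
  obtain ⟨Al, Am, Bl, Bm, hmid⟩ := hxy
  obtain ⟨-, -, -, -, -, -, ⟨lo', hi', hm', hx⟩, -⟩ := mid_facts hK h7 hd (hOm hp₀) hdc hmid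
  have he : 0 < η' / 4 := by positivity
  have hev := mins_cont' hK h7 hd (p := p ∘ φ) (lo := lo ∘ φ) (hi := hi ∘ φ) (fun k => hOm (hp (φ k))) (hOm hp₀) hlim
    (fun k => hmins (φ k)) hm' he
  have hev2 : ∀ᶠ k in atTop, ‖X (φ k) - x₀‖ < η' / 4 := by
    have := (tendsto_iff_norm_sub_tendsto_zero.1 hX)
    exact this.eventually (gt_mem_nhds he)
  obtain ⟨k, hk1, hk2⟩ := (hev.and hev2).exists
  have hn1 := h1 (φ k)
  have hn2 := h2 (φ k)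
  simp only [Function.comp_apply] at hk1
  have key : ‖x₀ - lo (φ k)‖ < η' / 4 ∨ ‖x₀ - hi (φ k)‖ < η' / 4 := by
    rcases hk1 with ⟨ha, hb⟩ | ⟨ha, hb⟩ <;> rcases hx with rfl | rfl
    · left; rwa [norm_sub_rev]
    · right; rwa [norm_sub_rev]
    · right; rwa [norm_sub_rev]
    · left; rwa [norm_sub_rev]
  rcases key with hkk | hkk
  · have : ‖X (φ k) - lo (φ k)‖ ≤ ‖X (φ k) - x₀‖ + ‖x₀ - lo (φ k)‖ := norm_sub_le_norm_sub_add_norm_sub _ _ _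
    linarith
  · have h3 : ‖X (φ k) - hi (φ k)‖ ≤ ‖X (φ k) - x₀‖ + ‖x₀ - hi (φ k)‖ := norm_sub_le_norm_sub_add_norm_sub _ _ _
    have h4 := F_lip' (p (φ k)) (X (φ k)) (hi (φ k))
    linarith

end Pool.Agent.E8N
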