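import Pool.Agent.E8N.NCmpU

/-!
# E8N NSepG

General separation statement near a compact set `A ⊆ K`.
Proof. Suppose not. For every `k : ℕ` (with `η = 1/(k+1)`) there are `p_k ∈ K`, `infDist p_k A ≤ 1/(k+1)`, `y_k ∈ S K`, `W (1/(k+1)) p_k y_k` and no `u` with
`SepU K p_k u (Lo K (1/(k+1)) p_k) y_k (1/(k+1))`. Subsequence `φ` (`subseq2`): `p_{φ k} → p₀`, `y_{φ k} → y₀ ∈ S K`. `infDist p₀ A = 0` (`continuous_infDist_pt`), so
`p₀ ∈ A` (`IsClosed.mem_iff_infDist_zero`). By `hmono` and `φ k ≥ k`, `W (1/(k+1)) (p_{φ k}) (y_{φ k})`. `hW` gives `u`; `cmpU` (with `s = 0`, `ε = 0`; `‖y - y₀‖ ≤ 0` means `y = y₀`)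
gives `η > 0`, and for large `k` (`1/(φ k + 1) ≤ η`, `‖p_{φ k} - p₀‖ ≤ η`, `‖y_{φ k} - y₀‖ ≤ η`) `SepU_mono` gives a contradiction.
-/

set_option autoImplicit false

open Metric Set Filter Topology

namespace Pool.Agent.E8N

variable {E : Type*} [NormedAddCommGroup E] [InnerProductSpace ℝ E] [FiniteDimensional ℝ E]
variable {K : Set E} {ρ R : ℝ}

theorem nsepG (hK : Body K ρ R) {A : Set E} (hA : IsCompact A) (hAK : A ⊆ K) (hne : A.Nonempty)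
    (W : ℝ → E → E → Prop) (hmono : ∀ η η' p y, η ≤ η' → W η p y → W η' p y)
    (hW : ∀ (p y : ℕ → E) (p₀ y₀ : E), (∀ k, p k ∈ K) → (∀ k, y k ∈ S K) → (∀ k : ℕ, W (1 / ((k : ℝ) + 1)) (p k) (y k)) →
      Tendsto p atTop (𝓝 p₀) → Tendsto y atTop (𝓝 y₀) → p₀ ∈ A → y₀ ∈ S K →
      ∃ u : E, (∀ x ∈ Lo K 0 p₀, inner ℝ u (dir p₀ x) < 0) ∧ 0 < inner ℝ u (dir p₀ y₀)) :
    ∃ η > 0, ∀ p ∈ K, infDist p A ≤ η → ∀ y ∈ S K, W η p y → ∃ u, SepU K p u (Lo K η p) y η := by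
  have _ := hAK
  by_contra hcon
  have hpos : ∀ k : ℕ, (0 : ℝ) < 1 / ((k : ℝ) + 1) := fun k => Nat.one_div_pos_of_nat
  have hex : ∀ k : ℕ, ∃ p ∈ K, infDist p A ≤ 1 / ((k : ℝ) + 1) ∧ ∃ y ∈ S K, W (1 / ((k : ℝ) + 1)) p y ∧
      ¬ ∃ u, SepU K p u (Lo K (1 / ((k : ℝ) + 1)) p) y (1 / ((k : ℝ) + 1)) := by
    intro k
    by_contra h1
    apply hcon
    refine ⟨1 / ((k : ℝ) + 1), hpos k, fun p hp hpd y hy hW => ?_⟩
    by_contra h2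
    exact h1 ⟨p, hp, hpd, y, hy, hW, h2⟩
  choose p hpK hpd y hyS hyW hyU using hex
  obtain ⟨a, ha, φ, hφ, hlim⟩ := (hK.cpt.prod (S_compact hK)).tendsto_subseq (x := fun k => (p k, y k))
    (fun k => ⟨hpK k, hyS k⟩)
  obtain ⟨p₀, y₀⟩ := a
  have hlp : Tendsto (fun k => p (φ k)) atTop (𝓝 p₀) := (continuous_fst.tendsto _).comp hlim
  have hly : Tendsto (fun k => y (φ k)) atTop (𝓝 y₀) := (continuous_snd.tendsto _).comp hlim
  have hto0 : Tendsto (fun k : ℕ => 1 / (((φ k : ℕ) : ℝ) + 1)) atTop (𝓝 0) :=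
    (tendsto_one_div_add_atTop_nhds_zero_nat (𝕜 := ℝ)).comp hφ.tendsto_atTop
  have hp₀A : p₀ ∈ A := by
    rw [hA.isClosed.mem_iff_infDist_zero hne]
    have t1 : Tendsto (fun k => infDist (p (φ k)) A) atTop (𝓝 (infDist p₀ A)) :=
      ((continuous_infDist_pt A).tendsto p₀).comp hlp
    have h1 : infDist p₀ A ≤ 0 := le_of_tendsto_of_tendsto' t1 hto0 (fun k => hpd (φ k))
    exact le_antisymm h1 infDist_nonneg
  obtain ⟨u, hu1, hu2⟩ := hW (fun k => p (φ k)) (fun k => y (φ k)) p₀ y₀ (fun k => hpK _) (fun k => hyS _)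
    (fun k => by
      refine hmono (1 / (((φ k : ℕ) : ℝ) + 1)) (1 / ((k : ℝ) + 1)) _ _ ?_ (hyW (φ k))
      have : (k : ℝ) ≤ ((φ k : ℕ) : ℝ) := by exact_mod_cast hφ.le_apply
      exact one_div_le_one_div_of_le (by positivity) (by linarith)) hlp hly hp₀A ha.2
  obtain ⟨η, hη, hall⟩ := cmpU hK (s := 0) (ε := 0) (y₀ := y₀) (u := u) ha.1 hu1 (fun z hz hzy => by
    have : z - y₀ = 0 := norm_le_zero_iff.mp hzy
    rw [sub_eq_zero.mp this]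
    exact hu2)
  have e1 : ∀ᶠ k in atTop, 1 / (((φ k : ℕ) : ℝ) + 1) < η := hto0.eventually (gt_mem_nhds hη)
  have e2 : ∀ᶠ k in atTop, dist (p (φ k)) p₀ < η := hlp.eventually (Metric.ball_mem_nhds p₀ hη)
  have e3 : ∀ᶠ k in atTop, dist (y (φ k)) y₀ < η := hly.eventually (Metric.ball_mem_nhds y₀ hη)
  obtain ⟨k, hk1, hk2, hk3⟩ := (e1.and (e2.and e3)).exists
  rw [dist_eq_norm] at hk2 hk3
  refine hyU (φ k) ⟨u, SepU_mono (hall _ (hpK _) hk2.le _ (hyS _) hk3.le) (Lo_mono ?_) ?_⟩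
  · rw [zero_add]; exact hk1.le
  · rw [zero_add]; exact hk1.le

end Pool.Agent.E8N
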