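import Pool.Agent.E8N.NPres
import Pool.Agent.E8N.NFill
import Pool.Agent.E8N.NLo
import Pool.Agent.E8N.NS4
import Pool.Agent.E8N.NS0

/-!
# E8N NXi

The fill with all its boundary conditions. Let `η₁ = min (min (η₃/2) ((γ - θ)/2)) (min (γ/4) (1/2))` (note `γ > 0`). `η₀ :=` minimum of the constants of `s0` and of `s4` with `η' = η₁`.
Given `ω > 0` and `X`: `C = {p ∈ O | ω ≤ dl - cl}` is compact; `A₁ = {p ∈ O | dl - cl = ω ∧ F p (X p) ≤ mn K p + θ}` is closed (`cl`, `dl` continuous on `O`, `X` continuous on the closed set `{p ∈ O | dl - cl ≤ ω}`); `A₂ = {p ∈ O ∩ A | ω ≤ dl - cl ∧ ∀ lo hi, Mins K p lo hi → mn K p + γ ≤ F p hi}` is closed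
(`gap_closed`). `lo_cont` on `A₂`: continuous `lo` with `Mins K p (lo p) _`. On `A₁ ∩ A₂`: `s4` with `η₁`: `‖X p - lo p‖ ≤ η₁`, or `|F p (X p) - F p hi| ≤ η₁`, which is impossible because `F p hi ≥ mn + γ`, `F p (X p) ≤ mn + θ`, `γ - θ > η₁`. `pres` (with `η₁`): `ξ₀` on `A₁ ∪ A₂ ⊆ C`, `= X` on `A₁`, `‖ξ₀ - lo‖ ≤ 2η₁ ≤ η₃` on `A₂`.
`F p (ξ₀ p) < cl K p`: on `A₁` by `s0`; on `A₂`: `F p (ξ₀ p) ≤ F p (lo p) + 2η₁ = mn K p + 2η₁ < mn K p + γ ≤ F p hi < cl K p` (`Mins.sepd`, `cl_eq`). `fill` (`hgap`: `cl + ω ≤ dl` on `C`) gives `ξ`. For the last statement with arbitrary `Mins K p lo' hi'`, `mn + γ ≤ F p hi'`: by `mins_unique` all `Mins` at `p`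
have the same `lo` (the swap would give `F p lo = F p hi`), so `p ∈ A₂` and `lo' = lo p`.
-/

set_option autoImplicit false

open Metric Set Filter Topology

namespace Pool.Agent.E8N

variable {E : Type*} [NormedAddCommGroup E] [InnerProductSpace ℝ E] [FiniteDimensional ℝ E]
variable {K : Set E} {ρ R : ℝ}

theorem xi (hK : Body K ρ R) (h7 : AtMost7 K) (hd : 4 ≤ Module.finrank ℝ E) {O A : Set E} (hO : IsCompact O)
    (hOm : O ⊆ Om K) (hA : IsClosed A) {θ γ η₃ : ℝ} (hθ : θ < γ) (hγ : 0 < γ) (hη₃ : 0 < η₃) :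
    ∃ η₀ > 0, ∀ ω > 0, ∀ X : E → E, ContinuousOn X {p | p ∈ O ∧ dl K p - cl K p ≤ ω} →
      (∀ p ∈ O, dl K p - cl K p ≤ ω → ∃ Y, Cls K O η₀ p (X p) Y) →
      ∃ ξ : E → E, ContinuousOn ξ {p | p ∈ O ∧ ω ≤ dl K p - cl K p} ∧
        (∀ p ∈ O, ω ≤ dl K p - cl K p → ξ p ∈ S K ∧ F p (ξ p) < cl K p + ω / 2) ∧
        (∀ p ∈ O, dl K p - cl K p = ω → F p (X p) ≤ mn K p + θ → ξ p = X p) ∧
        ∀ p ∈ O, p ∈ A → ω ≤ dl K p - cl K p → ∀ lo hi, Mins K p lo hi → mn K p + γ ≤ F p hi →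
          ‖ξ p - lo‖ ≤ η₃ := by
  set η₁ : ℝ := min (min (η₃ / 2) ((γ - θ) / 2)) (min (γ / 4) (1 / 2)) with hη₁def
  have hη₁ : 0 < η₁ := by
    rw [hη₁def]
    refine lt_min (lt_min ?_ ?_) (lt_min ?_ ?_) <;> linarith
  have hη₁a : η₁ ≤ η₃ / 2 := (min_le_left _ _).trans (min_le_left _ _)
  have hη₁b : η₁ ≤ (γ - θ) / 2 := (min_le_left _ _).trans (min_le_right _ _)
  have hη₁c : η₁ ≤ γ / 4 := (min_le_right _ _).trans (min_le_left _ _)
  have hη₁d : η₁ ≤ 1 / 2 := (min_le_right _ _).trans (min_le_right _ _)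
  obtain ⟨κ', hκ', e0, he0, h0⟩ := s0 hK h7 hd hO hOm
  obtain ⟨e4, he4, h4⟩ := s4 hK h7 hd hO hOm hη₁
  refine ⟨min e0 e4, lt_min he0 he4, ?_⟩
  intro ω hω X hX hC
  have hg : ContinuousOn (fun p => dl K p - cl K p) O :=
    ((dl_cont hK h7 hd).mono hOm).sub ((cl_cont hK h7 hd).mono hOm)
  have hmnc : Continuous (mn K) := by
    refine (LipschitzWith.of_dist_le_mul (K := 1) ?_).continuous
    intro x y
    rw [Real.dist_eq, dist_eq_norm]
    simpa using mn_cont hK x y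
  -- the closed sets
  have hCcl : IsClosed {p | p ∈ O ∧ ω ≤ dl K p - cl K p} :=
    ContinuousOn.preimage_isClosed_of_isClosed hg hO.isClosed isClosed_Ici
  have hCc : IsCompact {p | p ∈ O ∧ ω ≤ dl K p - cl K p} :=
    hO.of_isClosed_subset hCcl (fun p hp => hp.1)
  have hTcl : IsClosed {p | p ∈ O ∧ dl K p - cl K p ≤ ω} :=
    ContinuousOn.preimage_isClosed_of_isClosed hg hO.isClosed isClosed_Iic
  have hFX : ContinuousOn (fun p => F p (X p) - mn K p) {p | p ∈ O ∧ dl K p - cl K p ≤ ω} := by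
    refine ContinuousOn.sub ?_ hmnc.continuousOn
    exact (hX.sub continuousOn_id).norm
  have hA₁cl : IsClosed {p | p ∈ O ∧ dl K p - cl K p = ω ∧ F p (X p) ≤ mn K p + θ} := by
    have h1 : IsClosed ({p | p ∈ O ∧ dl K p - cl K p ≤ ω} ∩ (fun p => F p (X p) - mn K p) ⁻¹' Iic θ) :=
      ContinuousOn.preimage_isClosed_of_isClosed hFX hTcl isClosed_Iic
    have h2 := h1.inter hCcl
    convert h2 using 1
    ext p
    constructor
    · rintro ⟨h1, h2, h3⟩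
      refine ⟨⟨⟨h1, h2.le⟩, ?_⟩, ⟨h1, h2.ge⟩⟩
      simp only [mem_preimage, mem_Iic]
      linarith
    · rintro ⟨⟨⟨h1, h2⟩, h3⟩, ⟨_, h4⟩⟩
      simp only [mem_preimage, mem_Iic] at h3
      exact ⟨h1, le_antisymm h2 h4, by linarith⟩
  have hA₂cl : IsClosed {p | (p ∈ O ∧ ω ≤ dl K p - cl K p) ∧ p ∈ A ∧
      ∀ lo hi, Mins K p lo hi → mn K p + γ ≤ F p hi} := by
    have h1 := (hCcl.inter hA).inter (gap_closed hK h7 hd hO hOm (γ := γ))
    convert h1 using 1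
    ext p
    constructor
    · rintro ⟨h1, h2, h3⟩
      exact ⟨⟨h1, h2⟩, ⟨h1.1, h3⟩⟩
    · rintro ⟨⟨h1, h2⟩, ⟨_, h3⟩⟩
      exact ⟨h1, h2, h3⟩
  obtain ⟨lo, hloC, hlo⟩ := lo_cont hK h7 hd
    (A := {p | (p ∈ O ∧ ω ≤ dl K p - cl K p) ∧ p ∈ A ∧ ∀ lo hi, Mins K p lo hi → mn K p + γ ≤ F p hi})
    (fun p hp => hOm hp.1.1) hγ (fun p hp => hp.2.2)
  have hX1 : ∀ p ∈ O, dl K p - cl K p = ω → X p ∈ S K := by
    intro p hp he
    obtain ⟨Y, hY⟩ := hC p hp he.le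
    exact hY.1
  obtain ⟨ξ₀, hξc, hξS, hξ1, hξ2⟩ := pres hK hA₁cl hA₂cl (X := X) (lo := lo)
    (hX.mono (fun p hp => ⟨hp.1, hp.2.1.le⟩)) hloC (fun p hp => hX1 p hp.1 hp.2.1)
    (fun p hp => by
      obtain ⟨hi, hM⟩ := hlo p hp
      exact hM.lo_mem) hη₁ (by linarith)
    (by
      intro p hp1 hp2
      obtain ⟨hi, hM⟩ := hlo p hp2
      obtain ⟨Y, hY⟩ := hC p hp1.1 hp1.2.1.le
      rcases h4 p hp1.1 (X p) Y (cls_mono hY (min_le_right _ _)) (lo p) hi hM with h | h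
      · exact h
      · exfalso
        have ha := hp2.2.2 _ _ hM
        have hb := hp1.2.2
        have hc := abs_le.mp h
        have := hc.1
        linarith)
  have hlt : ∀ p ∈ {p | p ∈ O ∧ dl K p - cl K p = ω ∧ F p (X p) ≤ mn K p + θ} ∪
      {p | (p ∈ O ∧ ω ≤ dl K p - cl K p) ∧ p ∈ A ∧ ∀ lo hi, Mins K p lo hi → mn K p + γ ≤ F p hi},
      F p (ξ₀ p) < cl K p := by
    intro p hp
    rcases hp with hp | hp
    · rw [hξ1 p hp]
      obtain ⟨Y, hY⟩ := hC p hp.1 hp.2.1.le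
      have := (h0 p hp.1 (X p) Y (cls_mono hY (min_le_left _ _))).1
      linarith
    · obtain ⟨hi, hM⟩ := hlo p hp
      have h1 := hξ2 p hp
      have h2 := abs_le.mp (F_lip' p (ξ₀ p) (lo p))
      have h3 := hM.lo_min
      have h4 := hp.2.2 _ _ hM
      have h5 := cl_eq hK h7 hd (hOm hp.1.1) hM.lo_mem hM.hi_mem hM.sepd
      have h6 := hM.sepd
      unfold Sepd at h6
      rw [h5] at h6
      have h7 := (le_max_right (F p (lo p)) (F p hi)).trans_lt h6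
      linarith [h2.2]
  obtain ⟨ξ, hξC, hξv, hξe⟩ := fill hK h7 hd hCc (fun p hp => hOm hp.1) hω
    (fun p hp => by
      have := hp.2
      linarith) (hA₁cl.union hA₂cl)
    (by
      rintro p (hp | hp)
      · exact ⟨hp.1, hp.2.1.ge⟩
      · exact hp.1) hξc hξS hlt
  refine ⟨ξ, hξC, fun p hp hge => hξv p ⟨hp, hge⟩, ?_, ?_⟩
  · intro p hp he hF
    rw [hξe p (Or.inl ⟨hp, he, hF⟩), hξ1 p ⟨hp, he, hF⟩]
  · intro p hp hpA hge lo' hi' hM' hgap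
    have hcase : ∀ lo'' hi'', Mins K p lo'' hi'' → lo'' = lo' ∧ hi'' = hi' := by
      intro lo'' hi'' hM''
      rcases mins_unique hK h7 hd (hOm hp) hM' hM'' with h | h
      · exact ⟨h.1.symm, h.2.symm⟩
      · exfalso
        have h1 := hM'.lo_min
        have h2 := h.2.2
        linarith
    have hp2 : p ∈ {p | (p ∈ O ∧ ω ≤ dl K p - cl K p) ∧ p ∈ A ∧
        ∀ lo hi, Mins K p lo hi → mn K p + γ ≤ F p hi} := by
      refine ⟨⟨hp, hge⟩, hpA, ?_⟩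
      intro lo'' hi'' hM''
      rw [(hcase _ _ hM'').2]
      exact hgap
    obtain ⟨hi, hM⟩ := hlo p hp2
    have h1 := hξ2 p hp2
    rw [(hcase _ _ hM).1] at h1
    rw [hξe p (Or.inr hp2)]
    linarith

end Pool.Agent.E8N
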