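import Pool.Agent.E8N.Top

/-!
# E8N module S_D

Definition: continuous circle valued maps on U have continuous logarithms.
-/

set_option autoImplicit false

open Metric Set Filter Topology

namespace Pool.Agent.E8N.SN

/-- every continuous circle valued function on `U` has a continuous logarithm on `U` -/
def HasLogOn {α : Type*} [TopologicalSpace α] (U : Set α) : Prop :=
  ∀ h : α → Circle, ContinuousOn h U → ∃ θ : α → ℝ, ContinuousOn θ U ∧ ∀ y ∈ U, h y = Circle.exp (θ y)

end Pool.Agent.E8N.SN
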