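import Pool.Agent.E8N.S_D

/-!
# E8N module S_L6

UNICOHERENCE FROM LOGARITHMS. X finite, so closed. U' := U ∩ P ∩ Q, V' := V ∩ P ∩ Q closed nonempty (hypotheses), U' ∩ V' ⊆ X. φ(z) := infDist z U' / (infDist z U' + infDist z V'): on Xᶜ the denominator is positive (z ∉ U' or z ∉ V', IsClosed.mem_iff_infDist_zero), φ continuous on Xᶜ, φ = 0 on U' \ X, φ = 1 on V' \ X. Define h z := Circle.exp (π φ z) if z ∈ P, else
Circle.exp (-(π φ z)). On P ∩ Q \ X ⊆ U' ∪ V' both formulas agree (exp 0 = 1; exp π = exp (-π)). P ∪ Q ∪ X = univ, P, Q closed: h is continuous on Xᶜ (ContinuousOn.if or: locally finite closed cover {P, Q}: on P \ X it is the first, on Q \ X the second formula). Take θ from the hypothesis. On P \ X: exp (θ - π φ) = 1, so θ - π φ ∈ 2πℤ, continuous,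
preconnected: constant 2πk. On Q \ X: θ + π φ = 2πl constant. At a point of U' \ X: θ = 2πk = 2πl; at a point of V' \ X: θ = 2πk + π = 2πl - π. Contradiction.
-/

set_option autoImplicit false

open Metric Set Filter Topology

namespace Pool.Agent.E8N.SN

theorem l6_const {α : Type*} [TopologicalSpace α] {S : Set α} (hS : IsPreconnected S) {f : α → ℝ}
    (hf : ContinuousOn f S) (h : ∀ z ∈ S, ∃ m : ℤ, f z = m * (2 * Real.pi)) {a b : α} (ha : a ∈ S) (hb : b ∈ S) :
    f a = f b := by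
  have key : ∀ a ∈ S, ∀ b ∈ S, ¬ f a < f b := by
    intro a ha b hb hlt
    obtain ⟨m, hm⟩ := h a ha
    obtain ⟨n, hn⟩ := h b hb
    have hpi := Real.pi_pos
    have hmn : m < n := by
      by_contra hcon
      push Not at hcon
      have : (n : ℝ) ≤ m := by exact_mod_cast hcon
      rw [hm, hn] at hlt
      nlinarith
    have hmn' : (m : ℝ) + 1 ≤ n := by exact_mod_cast hmn
    have hord := (hS.image f hf).ordConnected
    have hmem : (m : ℝ) * (2 * Real.pi) + Real.pi ∈ f '' S := by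
      apply hord.out ⟨a, ha, rfl⟩ ⟨b, hb, rfl⟩
      rw [hm, hn]
      constructor
      · linarith
      · nlinarith
    obtain ⟨z, hz, hfz⟩ := hmem
    obtain ⟨k, hk⟩ := h z hz
    rw [hk] at hfz
    have h2 : ((k : ℝ) - m) * 2 = 1 := by
      have h3 : ((k : ℝ) - m) * 2 * Real.pi = 1 * Real.pi := by linarith
      exact mul_right_cancel₀ hpi.ne' h3
    have h4 : (k - m) * 2 = 1 := by exact_mod_cast h2
    omega
  exact le_antisymm (not_lt.mp (key b hb a ha)) (not_lt.mp (key a ha b hb))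

theorem l6_uni {α : Type*} [MetricSpace α] {X : Set α} (hX : X.Finite) (hL : HasLogOn Xᶜ) {P Q U V : Set α}
    (hP : IsClosed P) (hQ : IsClosed Q) (hU : IsClosed U) (hV : IsClosed V) (hcov : P ∪ Q ∪ X = univ)
    (hPc : IsPreconnected (P \ X)) (hQc : IsPreconnected (Q \ X)) (hPQ : P ∩ Q ⊆ U ∪ V ∪ X) (hUV : U ∩ V ⊆ X)
    (hu : ∃ z ∈ U, z ∈ P ∧ z ∈ Q ∧ z ∉ X) (hv : ∃ z ∈ V, z ∈ P ∧ z ∈ Q ∧ z ∉ X) : False := by
  classical
  have _ := hX
  obtain ⟨u0, hu0U, hu0P, hu0Q, hu0X⟩ := hu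
  obtain ⟨v0, hv0V, hv0P, hv0Q, hv0X⟩ := hv
  obtain ⟨U', hU'⟩ : ∃ U' : Set α, U' = U ∩ P ∩ Q := ⟨_, rfl⟩
  obtain ⟨V', hV'⟩ : ∃ V' : Set α, V' = V ∩ P ∩ Q := ⟨_, rfl⟩
  have hU'c : IsClosed U' := by rw [hU']; exact (hU.inter hP).inter hQ
  have hV'c : IsClosed V' := by rw [hV']; exact (hV.inter hP).inter hQ
  have hu0 : u0 ∈ U' := by rw [hU']; exact ⟨⟨hu0U, hu0P⟩, hu0Q⟩
  have hv0 : v0 ∈ V' := by rw [hV']; exact ⟨⟨hv0V, hv0P⟩, hv0Q⟩
  have hpos : ∀ z, z ∉ X → 0 < infDist z U' + infDist z V' := by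
    intro z hz
    by_cases h1 : z ∈ U'
    · have h2 : z ∉ V' := by
        intro h2
        rw [hU'] at h1
        rw [hV'] at h2
        exact hz (hUV ⟨h1.1.1, h2.1.1⟩)
      have := (hV'c.notMem_iff_infDist_pos ⟨v0, hv0⟩).1 h2
      have h3 : 0 ≤ infDist z U' := infDist_nonneg
      linarith
    · have := (hU'c.notMem_iff_infDist_pos ⟨u0, hu0⟩).1 h1
      have h3 : 0 ≤ infDist z V' := infDist_nonneg
      linarith
  obtain ⟨φ, hφ⟩ : ∃ φ : α → ℝ, φ = fun z => infDist z U' / (infDist z U' + infDist z V') := ⟨_, rfl⟩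
  have hφc : ContinuousOn φ Xᶜ := by
    rw [hφ]
    exact (continuous_infDist_pt U').continuousOn.div
      ((continuous_infDist_pt U').add (continuous_infDist_pt V')).continuousOn (fun z hz => (hpos z hz).ne')
  have hφ0 : ∀ z ∈ U', φ z = 0 := by
    intro z hz
    rw [hφ]
    simp only [infDist_zero_of_mem hz, zero_div]
  have hφ1 : ∀ z ∈ V', z ∉ X → φ z = 1 := by
    intro z hz hzX
    have h1 := hpos z hzX
    rw [hφ]
    simp only [infDist_zero_of_mem hz, add_zero] at h1 ⊢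
    exact div_self h1.ne'
  obtain ⟨h, hh⟩ : ∃ h : α → Circle, h = fun z => if z ∈ P then Circle.exp (Real.pi * φ z) else
    Circle.exp (-(Real.pi * φ z)) := ⟨_, rfl⟩
  have hhP : ∀ z ∈ P, h z = Circle.exp (Real.pi * φ z) := by
    intro z hz
    rw [hh]
    simp only [if_pos hz]
  have hhQ : ∀ z ∈ Q, z ∉ X → h z = Circle.exp (-(Real.pi * φ z)) := by
    intro z hz hzX
    by_cases hzP : z ∈ P
    · rw [hhP z hzP]
      rcases hPQ ⟨hzP, hz⟩ with (h1 | h1) | h1
      · have : z ∈ U' := by rw [hU']; exact ⟨⟨h1, hzP⟩, hz⟩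
        rw [hφ0 z this]
        simp
      · have : z ∈ V' := by rw [hV']; exact ⟨⟨h1, hzP⟩, hz⟩
        rw [hφ1 z this hzX, Circle.exp_eq_exp]
        refine ⟨1, ?_⟩
        push_cast
        ring
      · exact absurd h1 hzX
    · rw [hh]
      simp only [if_neg hzP]
  have hcP : ContinuousOn h (P ∩ Xᶜ) := by
    have h1 : ContinuousOn (fun z => Circle.exp (Real.pi * φ z)) (P ∩ Xᶜ) :=
      Circle.exp.continuous.comp_continuousOn (continuousOn_const.mul (hφc.mono inter_subset_right))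
    exact h1.congr (fun z hz => hhP z hz.1)
  have hcQ : ContinuousOn h (Q ∩ Xᶜ) := by
    have h1 : ContinuousOn (fun z => Circle.exp (-(Real.pi * φ z))) (Q ∩ Xᶜ) :=
      Circle.exp.continuous.comp_continuousOn ((continuousOn_const.mul (hφc.mono inter_subset_right)).neg)
    exact h1.congr (fun z hz => hhQ z hz.1 hz.2)
  have hXc : (P ∩ Xᶜ) ∪ (Q ∩ Xᶜ) = Xᶜ := by
    rw [← union_inter_distrib_right]
    apply inter_eq_right.mpr
    intro z hz
    have : z ∈ P ∪ Q ∪ X := by rw [hcov]; exact mem_univ z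
    rcases this with h1 | h1
    · exact h1
    · exact absurd h1 hz
  have hhc : ContinuousOn h Xᶜ := by
    intro z hz
    rw [← hXc]
    refine ContinuousWithinAt.union ?_ ?_
    · by_cases hzP : z ∈ P
      · exact hcP z ⟨hzP, hz⟩
      · apply continuousWithinAt_of_notMem_closure
        intro hcl
        exact hzP (hP.closure_subset (closure_mono inter_subset_left hcl))
    · by_cases hzQ : z ∈ Q
      · exact hcQ z ⟨hzQ, hz⟩
      · apply continuousWithinAt_of_notMem_closure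
        intro hcl
        exact hzQ (hQ.closure_subset (closure_mono inter_subset_left hcl))
  obtain ⟨θ, hθ, hθe⟩ := hL h hhc
  have hsubP : P \ X ⊆ Xᶜ := fun z hz => hz.2
  have hsubQ : Q \ X ⊆ Xᶜ := fun z hz => hz.2
  have k1 := l6_const hPc (f := fun z => θ z - Real.pi * φ z)
    ((hθ.mono hsubP).sub (continuousOn_const.mul (hφc.mono hsubP))) (fun z hz => by
      have e1 := hθe z hz.2
      rw [hhP z hz.1, Circle.exp_eq_exp] at e1
      obtain ⟨m, hm⟩ := e1
      refine ⟨-m, ?_⟩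
      push_cast
      linarith) (show u0 ∈ P \ X from ⟨hu0P, hu0X⟩) (show v0 ∈ P \ X from ⟨hv0P, hv0X⟩)
  have k2 := l6_const hQc (f := fun z => θ z + Real.pi * φ z)
    ((hθ.mono hsubQ).add (continuousOn_const.mul (hφc.mono hsubQ))) (fun z hz => by
      have e1 := hθe z hz.2
      rw [hhQ z hz.1 hz.2, Circle.exp_eq_exp] at e1
      obtain ⟨m, hm⟩ := e1
      refine ⟨-m, ?_⟩
      push_cast
      linarith) (show u0 ∈ Q \ X from ⟨hu0Q, hu0X⟩) (show v0 ∈ Q \ X from ⟨hv0Q, hv0X⟩)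
  simp only [hφ0 u0 hu0, hφ1 v0 hv0 hv0X] at k1 k2
  have hpi := Real.pi_pos
  linarith

end Pool.Agent.E8N.SN
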