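import Pool.Agent.E8N.S_L4

/-!
# E8N module S_L7

PUNCTURED NEIGHBOURHOODS AND CAPS OF THE SPHERE. Let σ = stereographic from v (source {v}ᶜ, target univ). `l7_punc`: take v = -a (so a is in the source), σ a =: b; σ(N ∩ source) is a neighbourhood of b, contains ball b r; D := σ.symm '' (ball b r): a neighbourhood of a, in N; D \ {a} = image of ball b r \ {b}, preconnected (l4_ball translated).
`l7_cap`: v = e. The compact set sphere \ ball e ε is in {e}ᶜ, its image under σ is compact, so in ball 0 r, r > 0. O := complement of σ.symm '' (ball 0 r) = complement of (source ∩ σ ⁻¹' ball 0 r): closed; O ⊆ ball e ε (points at distance ≥ ε from e are mapped into ball 0 r); O ∈ 𝓝 e: σ.symm '' (closedBall 0 r) is compact, does not contain e, and its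
complement is inside O. (O ∪ X)ᶜ = σ.symm '' (ball 0 r) \ X = image of ball 0 r minus a finite set: l4_ball.
-/

set_option autoImplicit false

open Metric Set Filter Topology

namespace Pool.Agent.E8N.SN

theorem l7_punc {E : Type*} [NormedAddCommGroup E] [InnerProductSpace ℝ E] [FiniteDimensional ℝ E]
    (hd : 4 ≤ Module.finrank ℝ E) (a : ↥(sphere (0 : E) 1)) {N : Set ↥(sphere (0 : E) 1)} (hN : N ∈ 𝓝 a) :
    ∃ D ⊆ N, D ∈ 𝓝 a ∧ IsPreconnected (D \ {a}) := by
  have ha : ‖(a : E)‖ = 1 := norm_eq_of_mem_sphere a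
  have hv : ‖-(a : E)‖ = 1 := by rw [norm_neg]; exact ha
  have hv' : -(a : E) ∈ sphere (0 : E) 1 := by rw [mem_sphere_zero_iff_norm]; exact hv
  obtain ⟨g, hg, hr⟩ : ∃ g : ↥(Submodule.span ℝ {-(a : E)})ᗮ → ↥(sphere (0 : E) 1),
      Topology.IsOpenEmbedding g ∧ range g = {⟨-(a : E), hv'⟩}ᶜ :=
    ⟨_, isOpenEmbedding_stereographic_symm hv, range_stereographic_symm hv hv'⟩
  have har : a ∈ range g := by
    rw [hr]
    intro h
    have h1 : (a : E) = -(a : E) := congrArg Subtype.val (mem_singleton_iff.mp h)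
    have h2 : (a : E) = 0 := by
      have h3 : (2 : ℝ) • (a : E) = 0 := by
        rw [two_smul]
        nth_rewrite 1 [h1]
        exact neg_add_cancel _
      exact (smul_eq_zero.mp h3).resolve_left (by norm_num)
    rw [h2, norm_zero] at ha
    exact zero_ne_one ha
  obtain ⟨b, hb⟩ := har
  have h1 : g ⁻¹' N ∈ 𝓝 b := hg.continuous.continuousAt.preimage_mem_nhds (by rw [hb]; exact hN)
  obtain ⟨r, hr0, hrN⟩ := Metric.mem_nhds_iff.mp h1
  refine ⟨g '' ball b r, ?_, ?_, ?_⟩
  · rintro _ ⟨z, hz, rfl⟩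
    exact hrN hz
  · have h5 : g '' ball b r ∈ 𝓝 (g b) := hg.isOpenMap.image_mem_nhds (ball_mem_nhds b hr0)
    exact (congrArg (fun w => g '' ball b r ∈ 𝓝 w) hb).mp h5
  · have h2 : g '' ball b r \ {a} = g '' (ball b r \ {b}) := by
      rw [Set.image_sdiff hg.injective, Set.image_singleton, hb]
    rw [h2]
    have h3 : ball b r \ {b} = (fun z => b + z) '' (ball 0 r \ {0}) := by
      ext z
      constructor
      · rintro ⟨h3, h4⟩
        refine ⟨z - b, ⟨?_, ?_⟩, ?_⟩
        · rw [mem_ball_zero_iff, ← dist_eq_norm]; exact h3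
        · intro h5
          exact h4 (sub_eq_zero.mp (mem_singleton_iff.mp h5))
        · exact add_sub_cancel b z
      · rintro ⟨w, ⟨h3, h4⟩, rfl⟩
        refine ⟨?_, ?_⟩
        · rw [mem_ball, dist_eq_norm, add_sub_cancel_left]
          exact mem_ball_zero_iff.mp h3
        · intro h5
          exact h4 (add_eq_left.mp (mem_singleton_iff.mp h5))
    rw [h3]
    have h4 := l4_ball (l4_dim hd hv) hr0 (X := {0}) (Set.finite_singleton _)
    exact (h4.image _ (continuous_const.add continuous_id).continuousOn).image _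
      hg.continuous.continuousOn

theorem l7_cap {E : Type*} [NormedAddCommGroup E] [InnerProductSpace ℝ E] [FiniteDimensional ℝ E]
    (hd : 4 ≤ Module.finrank ℝ E) (e : ↥(sphere (0 : E) 1)) {ε : ℝ} (hε : 0 < ε) :
    ∃ O : Set ↥(sphere (0 : E) 1), IsClosed O ∧ O ∈ 𝓝 e ∧ O ⊆ ball e ε ∧
      ∀ X : Set ↥(sphere (0 : E) 1), X.Finite → IsPreconnected (O ∪ X)ᶜ := by
  have hv : ‖(e : E)‖ = 1 := norm_eq_of_mem_sphere e
  obtain ⟨g, hg, hr⟩ : ∃ g : ↥(Submodule.span ℝ {(e : E)})ᗮ → ↥(sphere (0 : E) 1),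
      Topology.IsOpenEmbedding g ∧ range g = {⟨(e : E), e.2⟩}ᶜ :=
    ⟨_, isOpenEmbedding_stereographic_symm hv, range_stereographic_symm hv e.2⟩
  have her : e ∉ range g := by
    rw [hr]
    intro h
    exact h (mem_singleton_iff.mpr rfl)
  have hC : IsCompact ((ball e ε)ᶜ : Set ↥(sphere (0 : E) 1)) := isOpen_ball.isClosed_compl.isCompact
  have hCr : ((ball e ε)ᶜ : Set ↥(sphere (0 : E) 1)) ⊆ range g := by
    intro x hx
    rw [hr]
    intro h
    have hxe : x = e := Subtype.ext (congrArg Subtype.val (mem_singleton_iff.mp h))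
    rw [hxe] at hx
    exact hx (mem_ball_self hε)
  have hpre : IsCompact (g ⁻¹' (ball e ε)ᶜ) := (hg.isInducing.isCompact_preimage_iff hCr).mpr hC
  obtain ⟨r, hr0, hrb⟩ := hpre.isBounded.subset_ball_lt 0 0
  refine ⟨(g '' ball 0 r)ᶜ, ?_, ?_, ?_, ?_⟩
  · exact (hg.isOpenMap _ isOpen_ball).isClosed_compl
  · have h1 : IsCompact (g '' closedBall 0 r) := (isCompact_closedBall _ _).image hg.continuous
    have h2 : (g '' closedBall 0 r)ᶜ ∈ 𝓝 e := h1.isClosed.isOpen_compl.mem_nhds (by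
      rintro ⟨z, _, hz⟩
      exact her ⟨z, hz⟩)
    exact mem_of_superset h2 (compl_subset_compl.mpr (image_mono ball_subset_closedBall))
  · intro x hx
    by_contra hx2
    obtain ⟨z, rfl⟩ := hCr hx2
    exact hx ⟨z, hrb hx2, rfl⟩
  · intro X hX
    have h1 : ((g '' ball 0 r)ᶜ ∪ X)ᶜ = g '' (ball 0 r \ g ⁻¹' X) := by
      ext x
      constructor
      · intro hx
        rw [mem_compl_iff, mem_union, not_or, mem_compl_iff, not_not] at hx
        obtain ⟨⟨z, hz, rfl⟩, hx2⟩ := hx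
        exact ⟨z, ⟨hz, hx2⟩, rfl⟩
      · rintro ⟨z, ⟨hz, hz2⟩, rfl⟩
        rw [mem_compl_iff, mem_union, not_or, mem_compl_iff, not_not]
        exact ⟨⟨z, hz, rfl⟩, hz2⟩
    rw [h1]
    exact (l4_ball (l4_dim hd hv) hr0 (hX.preimage hg.injective.injOn)).image _
      hg.continuous.continuousOn

end Pool.Agent.E8N.SN
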