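import Pool.Agent.E8N.Top

/-!
# E8N module S_L8

NICE IS A TOPOLOGICAL PROPERTY. φ : α ≃ₜ β. punc: preimage of N, image of D. cap: ball e ε in β has an open preimage containing φ.symm e, so a ball of radius ε'; take the cap O of α at φ.symm e with radius ε' and its image φ '' O (closed, neighbourhood, in ball e ε); (φ '' O ∪ X)ᶜ = φ '' (O ∪ φ ⁻¹' X)ᶜ. uni: preimages of all sets.
-/

set_option autoImplicit false

open Metric Set Filter Topology

namespace Pool.Agent.E8N.SN

theorem l8_nice {α β : Type*} [MetricSpace α] [MetricSpace β] (φ : α ≃ₜ β) (h : Nice α) : Nice β := by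
  refine ⟨?_, ?_, ?_⟩
  · intro b N hN
    have h1 : φ ⁻¹' N ∈ 𝓝 (φ.symm b) := by
      apply φ.continuous.continuousAt.preimage_mem_nhds
      rw [φ.apply_symm_apply]
      exact hN
    obtain ⟨D, hD1, hD2, hD3⟩ := h.punc (φ.symm b) _ h1
    refine ⟨φ '' D, image_subset_iff.mpr hD1, ?_, ?_⟩
    · have h2 := φ.isOpenMap.image_mem_nhds hD2
      rw [φ.apply_symm_apply] at h2
      exact h2
    · have h2 : φ '' D \ {b} = φ '' (D \ {φ.symm b}) := by
        rw [Set.image_sdiff φ.injective, image_singleton, φ.apply_symm_apply]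
      rw [h2]
      exact hD3.image _ φ.continuous.continuousOn
  · intro e ε hε
    have h1 : φ ⁻¹' ball e ε ∈ 𝓝 (φ.symm e) := by
      apply φ.continuous.continuousAt.preimage_mem_nhds
      rw [φ.apply_symm_apply]
      exact ball_mem_nhds e hε
    obtain ⟨ε', hε', hb⟩ := Metric.mem_nhds_iff.mp h1
    obtain ⟨O, hO1, hO2, hO3, hO4⟩ := h.cap (φ.symm e) ε' hε'
    refine ⟨φ '' O, φ.isClosedMap O hO1, ?_, image_subset_iff.mpr (hO3.trans hb), ?_⟩
    · have h2 := φ.isOpenMap.image_mem_nhds hO2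
      rw [φ.apply_symm_apply] at h2
      exact h2
    · intro X hX
      have h3 := hO4 (φ ⁻¹' X) (hX.preimage φ.injective.injOn)
      have h4 : (φ '' O ∪ X)ᶜ = φ '' (O ∪ φ ⁻¹' X)ᶜ := by
        rw [image_compl_eq φ.bijective, image_union, image_preimage_eq X φ.surjective]
      rw [h4]
      exact h3.image _ φ.continuous.continuousOn
  · intro X hX P Q U V hP hQ hU hV hun hPc hQc hsub hUV hz1 hz2
    refine h.uni (φ ⁻¹' X) (hX.preimage φ.injective.injOn) (φ ⁻¹' P) (φ ⁻¹' Q) (φ ⁻¹' U) (φ ⁻¹' V)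
      (hP.preimage φ.continuous) (hQ.preimage φ.continuous) (hU.preimage φ.continuous)
      (hV.preimage φ.continuous) ?_ ?_ ?_ ?_ ?_ ?_ ?_
    · rw [← preimage_union, ← preimage_union, hun, preimage_univ]
    · rw [← Set.preimage_sdiff]
      exact φ.isPreconnected_preimage.mpr hPc
    · rw [← Set.preimage_sdiff]
      exact φ.isPreconnected_preimage.mpr hQc
    · intro z hz
      exact hsub hz
    · intro z hz
      exact hUV hz
    · obtain ⟨z, h1, h2, h3, h4⟩ := hz1
      refine ⟨φ.symm z, ?_, ?_, ?_, ?_⟩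
      · show φ (φ.symm z) ∈ U
        rw [φ.apply_symm_apply]; exact h1
      · show φ (φ.symm z) ∈ P
        rw [φ.apply_symm_apply]; exact h2
      · show φ (φ.symm z) ∈ Q
        rw [φ.apply_symm_apply]; exact h3
      · show ¬ (φ (φ.symm z) ∈ X)
        rw [φ.apply_symm_apply]; exact h4
    · obtain ⟨z, h1, h2, h3, h4⟩ := hz2
      refine ⟨φ.symm z, ?_, ?_, ?_, ?_⟩
      · show φ (φ.symm z) ∈ V
        rw [φ.apply_symm_apply]; exact h1
      · show φ (φ.symm z) ∈ P
        rw [φ.apply_symm_apply]; exact h2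
      · show φ (φ.symm z) ∈ Q
        rw [φ.apply_symm_apply]; exact h3
      · show ¬ (φ (φ.symm z) ∈ X)
        rw [φ.apply_symm_apply]; exact h4

end Pool.Agent.E8N.SN
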