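import Pool.Agent.E8N.ZRay

/-!
# E8N section 0: continuity of the point of S K on a ray
-/

set_option autoImplicit false

open Metric Set Filter Topology

namespace Pool.Agent.E8N.ZRayC

noncomputable section

variable {E : Type*} [NormedAddCommGroup E] [InnerProductSpace ℝ E] [FiniteDimensional ℝ E]
variable {K : Set E} {ρ R : ℝ}

open ZProj ZSurf ZRet ZRay

omit [FiniteDimensional ℝ E] in
theorem ZRayC_dir_cont {p x : E} (h : x ≠ p) : ContinuousAt (fun q : E × E => dir q.1 q.2) (p, x) := by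
  have h1 : ContinuousAt (fun q : E × E => q.2 - q.1) (p, x) := by fun_prop
  have h2 : ContinuousAt (fun q : E × E => ‖q.2 - q.1‖⁻¹) (p, x) :=
    h1.norm.inv₀ (by simpa [sub_eq_zero] using h)
  exact h2.smul h1

/-- the point of `S K` on a ray depends continuously on everything -/
theorem ray_cont (hK : Body K ρ R) : ∃ z : E × E → E,
    ContinuousOn z (K ×ˢ sphere (0 : E) 1) ∧ ∀ p ∈ K, ∀ u ∈ sphere (0 : E) 1, z (p, u) ∈ S K ∧ dir p (z (p, u)) = u := by
  classical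
  have hex : ∀ q : E × E, ∃ x : E, q ∈ K ×ˢ sphere (0 : E) 1 → x ∈ S K ∧ dir q.1 x = q.2 := by
    intro q
    by_cases hq : q ∈ K ×ˢ sphere (0 : E) 1
    · obtain ⟨x, hx, -⟩ := ray hK hq.1 (by simpa using hq.2)
      exact ⟨x, fun _ => hx⟩
    · exact ⟨0, fun h => absurd h hq⟩
  choose z hz using hex
  refine ⟨z, ?_, fun p hp u hu => hz (p, u) ⟨hp, hu⟩⟩
  intro q hq
  show Tendsto z (𝓝[K ×ˢ sphere (0 : E) 1] q) (𝓝 (z q))
  have hev : ∀ᶠ q' in 𝓝[K ×ˢ sphere (0 : E) 1] q, q' ∈ K ×ˢ sphere (0 : E) 1 := self_mem_nhdsWithin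
  refine (S_compact hK).tendsto_nhds_of_unique_mapClusterPt (hev.mono fun q' h => (hz q' h).1) ?_
  intro x hx hcl
  obtain ⟨U, hU, hUx⟩ := mapClusterPt_iff_ultrafilter.mp hcl
  have hne : x ≠ q.1 := by
    rintro rfl
    exact S_disj hK hx hq.1
  have h1 : Tendsto (fun q' : E × E => (q'.1, z q')) U (𝓝 (q.1, x)) := by
    have h2 : Tendsto (fun q' : E × E => q'.1) U (𝓝 q.1) :=
      (continuous_fst.tendsto q).mono_left (hU.trans nhdsWithin_le_nhds)
    rw [nhds_prod_eq]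
    exact h2.prodMk hUx
  have h3 : Tendsto (fun q' : E × E => dir q'.1 (z q')) U (𝓝 (dir q.1 x)) :=
    (ZRayC_dir_cont hne).tendsto.comp h1
  have h4 : Tendsto (fun q' : E × E => q'.2) U (𝓝 q.2) :=
    (continuous_snd.tendsto q).mono_left (hU.trans nhdsWithin_le_nhds)
  have h5 : (fun q' : E × E => dir q'.1 (z q')) =ᶠ[(U : Filter (E × E))] fun q' => q'.2 := by
    have : ∀ᶠ q' in (U : Filter (E × E)), q' ∈ K ×ˢ sphere (0 : E) 1 := hU hev
    filter_upwards [this] with q' hq'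
    exact (hz q' hq').2
  have h6 : dir q.1 x = q.2 := tendsto_nhds_unique h3 (h4.congr' h5.symm)
  exact dir_inj hK hq.1 hx (hz q hq).1 (h6.trans (hz q hq).2.symm)

end

end Pool.Agent.E8N.ZRayC
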