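import Pool.Agent.E8N.Top
import Pool.Agent.E8N.ZRayC

/-!
# E8N module S_L9

HOMEOMORPHISM. z from ZRayC.ray_cont; p = 0 ∈ K (hK.ball). toFun u = ⟨z (0,u), _⟩, invFun x = ⟨dir 0 x, norm one⟩: dir 0 x = ‖x‖⁻¹ • x is continuous at points x ≠ 0 (x ∈ S K is not in K: ZSurf.S_disj). Inverse to each other: dir 0 (z (0,u)) = u; z (0, dir 0 x) = x by ZRay.dir_inj.
-/

set_option autoImplicit false

open Metric Set Filter Topology

namespace Pool.Agent.E8N.SN

variable {E : Type*} [NormedAddCommGroup E] [InnerProductSpace ℝ E] [FiniteDimensional ℝ E]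
variable {K : Set E} {ρ R : ℝ}

theorem l9_homeo (hK : Body K ρ R) : Nonempty (↥(sphere (0 : E) 1) ≃ₜ ↥(S K)) := by
  obtain ⟨z, hzc, hz⟩ := ZRayC.ray_cont hK
  have h0 : (0 : E) ∈ K := hK.ball (mem_closedBall_self hK.hρ.le)
  have hne : ∀ x ∈ S K, x ≠ 0 := by
    intro x hx h
    rw [h] at hx
    exact ZSurf.S_disj hK hx h0
  have hnorm : ∀ x ∈ S K, dir 0 x ∈ sphere (0 : E) 1 := by
    intro x hx
    have h1 : ‖x‖ ≠ 0 := norm_ne_zero_iff.2 (hne x hx)
    rw [mem_sphere_zero_iff_norm]
    unfold dir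
    rw [sub_zero, norm_smul, norm_inv, norm_norm, inv_mul_cancel₀ h1]
  refine ⟨{ toFun := fun u => ⟨z (0, (u : E)), (hz 0 h0 u u.2).1⟩
            invFun := fun x => ⟨dir 0 (x : E), hnorm x x.2⟩
            left_inv := ?_
            right_inv := ?_
            continuous_toFun := ?_
            continuous_invFun := ?_ }⟩
  · intro u
    exact Subtype.ext (hz 0 h0 u u.2).2
  · intro x
    refine Subtype.ext ?_
    have h1 := hz 0 h0 (dir 0 (x : E)) (hnorm x x.2)
    exact ZRay.dir_inj hK h0 h1.1 x.2 h1.2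
  · refine Continuous.subtype_mk ?_ _
    exact hzc.comp_continuous (continuous_const.prodMk continuous_subtype_val)
      (fun u => ⟨h0, u.2⟩)
  · refine Continuous.subtype_mk ?_ _
    unfold dir
    refine Continuous.smul ?_ (continuous_subtype_val.sub continuous_const)
    refine Continuous.inv₀ ((continuous_subtype_val.sub continuous_const).norm) ?_
    intro x
    rw [sub_zero]
    exact norm_ne_zero_iff.2 (hne x x.2)

end Pool.Agent.E8N.SN
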