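import Pool.Agent.E8N.S_L5
import Pool.Agent.E8N.S_L6
import Pool.Agent.E8N.S_L7
import Pool.Agent.E8N.S_L8
import Pool.Agent.E8N.S_L9

/-!
# E8N module S_FIN

FINAL. Everything is transported from the unit sphere by l9_homeo: Nice (sphere 0 1) from l7_punc, l7_cap, l6_uni with l5_compl; l8_nice. S_cs: ZSurf.S_compact (isCompact_iff_compactSpace). S_conn: l4_compl with X = ∅ and nonempty, or isConnected_sphere; Homeomorph. S_lpc: LocallyPathConnectedSpace of the sphere: ChartedSpace.locallyPathConnectedSpace with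
EuclideanSpace.instChartedSpaceSphere (Fact (finrank ℝ E = n + 1)), transported by the homeomorphism (Topology.IsOpenEmbedding.locallyPathConnectedSpace for the inverse homeomorphism). S_two: two different points: images of v and -v.
-/

set_option autoImplicit false

open Metric Set Filter Topology

namespace Pool.Agent.E8N.SN

variable {E : Type*} [NormedAddCommGroup E] [InnerProductSpace ℝ E] [FiniteDimensional ℝ E]
variable {K : Set E} {ρ R : ℝ}

theorem S_cs (hK : Body K ρ R) : CompactSpace ↥(S K) := by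
  obtain ⟨φ⟩ := l9_homeo hK
  exact φ.compactSpace

omit [FiniteDimensional ℝ E] in
theorem S_FIN_sphere (hd : 4 ≤ Module.finrank ℝ E) : IsConnected (sphere (0 : E) 1) := by
  refine isConnected_sphere ?_ 0 zero_le_one
  have h := Module.lt_rank_of_lt_finrank (show 1 < Module.finrank ℝ E by omega)
  simpa using h

theorem S_conn (hK : Body K ρ R) (hd : 4 ≤ Module.finrank ℝ E) : ConnectedSpace ↥(S K) := by
  obtain ⟨φ⟩ := l9_homeo hK
  have : ConnectedSpace ↥(sphere (0 : E) 1) := isConnected_iff_connectedSpace.mp (S_FIN_sphere hd)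
  exact φ.surjective.connectedSpace φ.continuous

theorem S_lpc (hK : Body K ρ R) (hd : 4 ≤ Module.finrank ℝ E) : LocallyPathConnectedSpace ↥(S K) := by
  obtain ⟨φ⟩ := l9_homeo hK
  have : Fact (Module.finrank ℝ E = (Module.finrank ℝ E - 1) + 1) := ⟨by omega⟩
  have : LocallyPathConnectedSpace ↥(sphere (0 : E) 1) :=
    ChartedSpace.locallyPathConnectedSpace (EuclideanSpace ℝ (Fin (Module.finrank ℝ E - 1))) _
  exact φ.symm.isOpenEmbedding.locallyPathConnectedSpace

theorem S_two (hK : Body K ρ R) (hd : 4 ≤ Module.finrank ℝ E) : ∃ x y : ↥(S K), x ≠ y := by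
  obtain ⟨φ⟩ := l9_homeo hK
  obtain ⟨v, hv⟩ := (S_FIN_sphere hd).nonempty
  have hv' : ‖v‖ = 1 := by simpa using hv
  refine ⟨φ ⟨v, hv⟩, φ ⟨-v, by simpa using hv'⟩, fun h => ?_⟩
  have h1 : v = -v := congrArg Subtype.val (φ.injective h)
  have h2 : (2 : ℝ) • v = 0 := by
    rw [two_smul]
    nth_rewrite 1 [h1]
    exact neg_add_cancel v
  rw [(smul_eq_zero.mp h2).resolve_left two_ne_zero, norm_zero] at hv'
  exact zero_ne_one hv'

theorem S_nice (hK : Body K ρ R) (hd : 4 ≤ Module.finrank ℝ E) : Nice ↥(S K) := by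
  obtain ⟨φ⟩ := l9_homeo hK
  refine l8_nice φ ⟨fun a N hN => l7_punc hd a hN, fun e ε hε => l7_cap hd e hε, ?_⟩
  intro X hX P Q U V hP hQ hU hV hcov hPc hQc hPQ hUV hu hv
  exact l6_uni hX (l5_compl hd hX) hP hQ hU hV hcov hPc hQc hPQ hUV hu hv

end Pool.Agent.E8N.SN
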