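import Pool.Agent.E8N.S_D

/-!
# E8N module S_L1

LOGARITHM ON A CONTRACTIBLE OPEN SET. If U = ∅ trivial. ↥U is contractible, so simply connected (SimplyConnectedSpace.ofContractible), and locally path connected (IsOpen.locallyPathConnectedSpace). h restricted to ↥U is continuous (continuousOn_iff_continuous_restrict). Circle.isCoveringMap_exp and
IsCoveringMap.existsUnique_continuousMap_lifts (a₀ any point of U, e₀ with Circle.exp e₀ = h a₀: Circle.exp is surjective) give θ on ↥U; extend by 0 outside U. `l1_union`: θ₁, θ₂ logarithms on U₁, U₂; on U₁ ∩ U₂ (preconnected) exp (θ₁ - θ₂) = 1, so (θ₁ - θ₂)/(2π) is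
integer valued (Circle.exp_eq_one or Circle.exp_two_pi / Circle.exp_eq_exp) and continuous, so constant k on U₁ ∩ U₂ (IsPreconnected.image / intermediate values: an interval containing only integers is a point). θ := θ₁ on U₁, θ₂ + 2πk off U₁. On the open sets U₁, U₂ it coincides with θ₁, θ₂ + 2πk: continuous.
`l1_chart`: h on e.source ∩ e ⁻¹' W, h ∘ e.symm is continuous on W, θ := θ' ∘ e.
-/

set_option autoImplicit false

open Metric Set Filter Topology

namespace Pool.Agent.E8N.SN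

theorem l1_contr {α : Type*} [TopologicalSpace α] [LocallyPathConnectedSpace α] {U : Set α} (hU : IsOpen U)
    (hc : ContractibleSpace ↥U) : HasLogOn U := by
  intro h hh
  haveI := hc
  haveI : SimplyConnectedSpace ↥U := SimplyConnectedSpace.ofContractible ↥U
  haveI : LocallyPathConnectedSpace ↥U := hU.locallyPathConnectedSpace
  obtain ⟨a₀⟩ : Nonempty ↥U := inferInstance
  obtain ⟨F, ⟨-, hF⟩, -⟩ := Circle.isCoveringMap_exp.existsUnique_continuousMap_lifts
    (⟨U.restrict h, continuousOn_iff_continuous_restrict.1 hh⟩ : C(↥U, Circle)) a₀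
    (Complex.arg (h a₀)) (Circle.exp_arg _)
  classical
  refine ⟨fun x => if hx : x ∈ U then F ⟨x, hx⟩ else 0, ?_, ?_⟩
  · rw [continuousOn_iff_continuous_restrict]
    have e : U.domRestrict (fun x => if hx : x ∈ U then F ⟨x, hx⟩ else 0) = F := by
      funext x
      have hx := x.2
      show (if hx : (x : α) ∈ U then F ⟨x, hx⟩ else 0) = F x
      rw [dif_pos hx]
    rw [e]
    exact F.continuous
  · intro y hy
    have h1 := congr_fun hF ⟨y, hy⟩
    simp only [hy, dite_true]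
    exact h1.symm

theorem l1_union {α : Type*} [TopologicalSpace α] {U₁ U₂ : Set α} (h1 : IsOpen U₁) (h2 : IsOpen U₂)
    (l1 : HasLogOn U₁) (l2 : HasLogOn U₂) (hc : IsPreconnected (U₁ ∩ U₂)) : HasLogOn (U₁ ∪ U₂) := by
  intro h hh
  obtain ⟨θ₁, hθ₁, e₁⟩ := l1 h (hh.mono subset_union_left)
  obtain ⟨θ₂, hθ₂, e₂⟩ := l2 h (hh.mono subset_union_right)
  have hpi : (2 * Real.pi) ≠ 0 := by positivity
  have key : ∀ y ∈ U₁ ∩ U₂, ∃ n : ℤ, θ₁ y = θ₂ y + n * (2 * Real.pi) := by
    intro y hy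
    have h3 : Circle.exp (θ₁ y) = Circle.exp (θ₂ y) := (e₁ y hy.1).symm.trans (e₂ y hy.2)
    exact Circle.exp_eq_exp.1 h3
  obtain ⟨k, hk⟩ : ∃ k : ℤ, ∀ y ∈ U₁ ∩ U₂, θ₁ y = θ₂ y + k * (2 * Real.pi) := by
    rcases (U₁ ∩ U₂).eq_empty_or_nonempty with h0 | ⟨y₀, hy₀⟩
    · exact ⟨0, fun y hy => by rw [h0] at hy; exact hy.elim⟩
    · obtain ⟨n, hn⟩ := key y₀ hy₀
      refine ⟨n, fun y hy => ?_⟩
      haveI : DiscreteTopology (Set.range ((↑) : ℤ → ℝ)) :=
        (Int.isClosedEmbedding_coe_real.isEmbedding.toHomeomorph.symm).isEmbedding.discreteTopology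
      have hg : ContinuousOn (fun y => (θ₁ y - θ₂ y) / (2 * Real.pi)) (U₁ ∩ U₂) :=
        ((hθ₁.mono inter_subset_left).sub (hθ₂.mono inter_subset_right)).div_const _
      have hm : MapsTo (fun y => (θ₁ y - θ₂ y) / (2 * Real.pi)) (U₁ ∩ U₂) (Set.range ((↑) : ℤ → ℝ)) := by
        intro z hz
        obtain ⟨m, hm⟩ := key z hz
        refine ⟨m, ?_⟩
        show (m : ℝ) = (θ₁ z - θ₂ z) / (2 * Real.pi)
        rw [hm]
        field_simp
        ring
      have h4 := hc.constant_of_mapsTo ⟨inferInstance⟩ hg hm hy hy₀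
      have h5 : (θ₁ y - θ₂ y) / (2 * Real.pi) = (θ₁ y₀ - θ₂ y₀) / (2 * Real.pi) := h4
      have h6 : θ₁ y - θ₂ y = θ₁ y₀ - θ₂ y₀ := by
        have h7 := congr_arg (fun t => t * (2 * Real.pi)) h5
        simp only [div_mul_cancel₀ _ hpi] at h7
        exact h7
      linarith
  classical
  have c1 : ContinuousOn (fun y => if y ∈ U₁ then θ₁ y else θ₂ y + k * (2 * Real.pi)) U₁ :=
    hθ₁.congr (fun y hy => if_pos hy)
  have c2 : ContinuousOn (fun y => if y ∈ U₁ then θ₁ y else θ₂ y + k * (2 * Real.pi)) U₂ := by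
    refine (hθ₂.add_const (k * (2 * Real.pi))).congr (fun y hy => ?_)
    by_cases hy1 : y ∈ U₁
    · show (if y ∈ U₁ then θ₁ y else θ₂ y + k * (2 * Real.pi)) = _
      rw [if_pos hy1]
      exact hk y ⟨hy1, hy⟩
    · exact if_neg hy1
  refine ⟨fun y => if y ∈ U₁ then θ₁ y else θ₂ y + k * (2 * Real.pi), ?_, ?_⟩
  · rintro y (hy | hy)
    · exact (c1.continuousAt (h1.mem_nhds hy)).continuousWithinAt
    · exact (c2.continuousAt (h2.mem_nhds hy)).continuousWithinAt
  · intro y hy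
    by_cases hy1 : y ∈ U₁
    · simp only [hy1, if_true]
      exact e₁ y hy1
    · have hy2 : y ∈ U₂ := hy.resolve_left hy1
      simp only [hy1, if_false]
      rw [e₂ y hy2]
      exact (Circle.exp_eq_exp.2 ⟨k, rfl⟩).symm

theorem l1_chart {α β : Type*} [TopologicalSpace α] [TopologicalSpace β] (e : OpenPartialHomeomorph α β) {W : Set β}
    (hW : W ⊆ e.target) (hWo : IsOpen W) (l : HasLogOn W) : HasLogOn (e.source ∩ e ⁻¹' W) := by
  intro h hh
  have m1 : ∀ z ∈ W, e.symm z ∈ e.source ∩ e ⁻¹' W := by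
    intro z hz
    refine ⟨e.map_target (hW hz), ?_⟩
    show e (e.symm z) ∈ W
    rw [e.right_inv (hW hz)]
    exact hz
  obtain ⟨θ, hθ, e₁⟩ := l (fun z => h (e.symm z)) (hh.comp (e.continuousOn_symm.mono hW) m1)
  refine ⟨fun y => θ (e y), hθ.comp (e.continuousOn.mono inter_subset_left) (fun y hy => hy.2), ?_⟩
  intro y hy
  have h1 := e₁ (e y) hy.2
  rw [← h1, e.left_inv hy.1]

end Pool.Agent.E8N.SN
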