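import Pool.Agent.E8N.S_D

/-!
# E8N module S_L2

RAYS AND LINES. V real inner product space, e a unit vector, X finite. `l2_dir`: there is a unit vector e with x - y ∉ ℝ e for x ≠ y in X: the unit sphere is infinite (dimension ≥ 2), the forbidden unit vectors ± (x - y)/|x - y| are finitely many. `l2_open`: a ray {x + t e | t ≥ 0} is closed (image of the closed set Ici 0 under an isometric
embedding, or inequalities with inner products), the set is the complement of a finite union of rays. `l2_contr`: Y := {z | ∀ x ∈ X, ∀ t ≥ 0, z ≠ x + t e}. m with m ≤ inner x e for all x ∈ X. H := {z | inner z e ≤ m - 1} is convex, H ⊆ Y (inner (x + t e) e = inner x e + t ≥ m). First homotopy z ↦ z - s u(z) e, s ∈ [0,1], u(z) = max 0 (inner z e - m + 1):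
moving down stays in Y (z - a e = x + t e, a ≥ 0, gives z = x + (t+a) e), it ends in H; second: straight line in H to b := (m-1) e. So id of ↥Y is homotopic to a constant: contractible_iff_id_nullhomotopic. `l2_lines`: {z | ∀ x ∈ X, ∀ t : ℝ, z ≠ x + t e} is the image of (W \ π X) × ℝ under (w,t) ↦ w + t e, where W = (ℝ ∙ e)ᗮ, π x = x - (inner x e) e;
W has dimension ≥ 2, so the complement of a finite set in W is connected (Set.Countable.isConnected_compl_of_one_lt_rank).
-/

set_option autoImplicit false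

open Metric Set Filter Topology

namespace Pool.Agent.E8N.SN

theorem S_L2_seg {V : Type*} [NormedAddCommGroup V] [InnerProductSpace ℝ V] {Y : Set V} (f g : C(↥Y, ↥Y))
    (h : ∀ z : ↥Y, ∀ s : ℝ, 0 ≤ s → s ≤ 1 → (f z : V) + s • ((g z : V) - (f z : V)) ∈ Y) : f.Homotopic g := by
  refine ⟨⟨⟨fun p => ⟨(f p.2 : V) + (p.1 : ℝ) • ((g p.2 : V) - (f p.2 : V)), h p.2 p.1 p.1.2.1 p.1.2.2⟩, ?_⟩, ?_, ?_⟩⟩
  · refine Continuous.subtype_mk ?_ _
    have h1 : Continuous fun p : unitInterval × ↥Y => (f p.2 : V) :=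
      continuous_subtype_val.comp (f.continuous.comp continuous_snd)
    have h2 : Continuous fun p : unitInterval × ↥Y => (g p.2 : V) :=
      continuous_subtype_val.comp (g.continuous.comp continuous_snd)
    have h3 : Continuous fun p : unitInterval × ↥Y => (p.1 : ℝ) := continuous_subtype_val.comp continuous_fst
    exact h1.add (h3.smul (h2.sub h1))
  · intro z
    apply Subtype.ext
    show (f z : V) + ((0 : unitInterval) : ℝ) • ((g z : V) - (f z : V)) = f z
    simp
  · intro z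
    apply Subtype.ext
    show (f z : V) + ((1 : unitInterval) : ℝ) • ((g z : V) - (f z : V)) = g z
    simp

theorem S_L2_ee {V : Type*} [NormedAddCommGroup V] [InnerProductSpace ℝ V] {e : V} (he : ‖e‖ = 1) :
    inner ℝ e e = (1 : ℝ) := by
  rw [real_inner_self_eq_norm_sq, he, one_pow]

theorem l2_dir {V : Type*} [NormedAddCommGroup V] [InnerProductSpace ℝ V] [FiniteDimensional ℝ V]
    (h3 : 3 ≤ Module.finrank ℝ V) {X : Set V} (hX : X.Finite) :
    ∃ e : V, ‖e‖ = 1 ∧ ∀ x ∈ X, ∀ y ∈ X, x ≠ y → ∀ t : ℝ, x - y ≠ t • e := by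
  classical
  obtain ⟨s, hs⟩ : ∃ s : Finset (Subspace ℝ V), s = insert ⊥
      ((hX.toFinset ×ˢ hX.toFinset).image (fun z : V × V => Submodule.span ℝ {z.1 - z.2})) := ⟨_, rfl⟩
  have htop : (⊤ : Subspace ℝ V) ∉ s := by
    rw [hs, Finset.mem_insert, Finset.mem_image]
    rintro (h | ⟨z, -, h⟩)
    · have h4 : Module.finrank ℝ (⊤ : Subspace ℝ V) = Module.finrank ℝ (⊥ : Subspace ℝ V) := by rw [h]
      rw [finrank_top, finrank_bot] at h4
      omega
    · have h4 : Module.finrank ℝ (⊤ : Subspace ℝ V) = Module.finrank ℝ (Submodule.span ℝ {z.1 - z.2}) := by rw [h]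
      have h5 := finrank_span_le_card (R := ℝ) ({z.1 - z.2} : Set V)
      rw [finrank_top] at h4
      simp only [Set.toFinset_singleton, Finset.card_singleton] at h5
      omega
  have hne := Subspace.biUnion_ne_univ_of_top_notMem htop
  obtain ⟨v, hv⟩ : ∃ v : V, v ∉ ⋃ p ∈ s, (p : Set V) := by
    by_contra hcon
    push Not at hcon
    exact hne (Set.eq_univ_of_forall hcon)
  simp only [Set.mem_iUnion, not_exists] at hv
  have hv0 : v ≠ 0 := by
    rintro rfl
    exact hv ⊥ (by rw [hs]; exact Finset.mem_insert_self _ _) (Submodule.zero_mem _)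
  have hvn : ‖v‖ ≠ 0 := norm_ne_zero_iff.mpr hv0
  refine ⟨‖v‖⁻¹ • v, by rw [norm_smul, norm_inv, norm_norm, inv_mul_cancel₀ hvn], ?_⟩
  intro x hx y hy hxy t ht
  have ht0 : t ≠ 0 := by
    rintro rfl
    rw [zero_smul] at ht
    exact hxy (sub_eq_zero.mp ht)
  refine hv (Submodule.span ℝ {x - y}) ?_ ?_
  · rw [hs, Finset.mem_insert, Finset.mem_image]
    exact Or.inr ⟨(x, y), Finset.mem_product.mpr ⟨hX.mem_toFinset.mpr hx, hX.mem_toFinset.mpr hy⟩, rfl⟩
  · have h6 : v = (‖v‖ * t⁻¹) • (x - y) := by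
      rw [ht, smul_smul, smul_smul]
      have : ‖v‖ * t⁻¹ * t * ‖v‖⁻¹ = 1 := by field_simp
      rw [this, one_smul]
    show v ∈ Submodule.span ℝ {x - y}
    rw [h6]
    exact Submodule.smul_mem _ _ (Submodule.mem_span_singleton_self _)

theorem l2_open {V : Type*} [NormedAddCommGroup V] [InnerProductSpace ℝ V] {X : Set V} (hX : X.Finite) {e : V}
    (he : ‖e‖ = 1) : IsOpen {z : V | ∀ x ∈ X, ∀ t : ℝ, 0 ≤ t → z ≠ x + t • e} := by
  have h1 : {z : V | ∀ x ∈ X, ∀ t : ℝ, 0 ≤ t → z ≠ x + t • e} =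
      ⋂ x ∈ X, {z : V | z - x = (inner ℝ e (z - x)) • e ∧ 0 ≤ inner ℝ e (z - x)}ᶜ := by
    ext z
    simp only [Set.mem_setOf_eq, Set.mem_iInter, Set.mem_compl_iff, not_and]
    constructor
    · intro h x hx h2 h3
      refine h x hx _ h3 ?_
      rw [← h2]
      abel
    · intro h x hx t ht hz
      have h2 : z - x = t • e := by rw [hz]; abel
      have h3 : inner ℝ e (z - x) = t := by
        rw [h2, real_inner_smul_right, S_L2_ee he, mul_one]
      refine h x hx ?_ ?_
      · rw [h3, h2]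
      · rw [h3]
        exact ht
  rw [h1]
  refine hX.isOpen_biInter (fun x _ => ?_)
  rw [isOpen_compl_iff]
  have c1 : Continuous fun z : V => z - x := by fun_prop
  have c2 : Continuous fun z : V => (inner ℝ e (z - x) : ℝ) := by fun_prop
  exact (isClosed_eq c1 (c2.smul continuous_const)).inter (isClosed_le continuous_const c2)

theorem l2_contr {V : Type*} [NormedAddCommGroup V] [InnerProductSpace ℝ V] {X : Set V} (hX : X.Finite) {e : V}
    (he : ‖e‖ = 1) : ContractibleSpace ↥{z : V | ∀ x ∈ X, ∀ t : ℝ, 0 ≤ t → z ≠ x + t • e} := by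
  obtain ⟨m, hm⟩ : ∃ m : ℝ, ∀ x ∈ X, m ≤ inner ℝ x e := by
    obtain ⟨m, hm⟩ := (hX.image (fun x => (inner ℝ x e : ℝ))).bddBelow
    exact ⟨m, fun x hx => hm ⟨x, hx, rfl⟩⟩
  obtain ⟨Y, hY⟩ : ∃ Y : Set V, Y = {z : V | ∀ x ∈ X, ∀ t : ℝ, 0 ≤ t → z ≠ x + t • e} := ⟨_, rfl⟩
  rw [← hY]
  have hH : ∀ z : V, inner ℝ z e ≤ m - 1 → z ∈ Y := by
    intro z hz
    rw [hY]
    intro x hx t ht hzx
    rw [hzx, inner_add_left, real_inner_smul_left, S_L2_ee he] at hz
    have := hm x hx
    linarith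
  have hdown : ∀ z ∈ Y, ∀ a : ℝ, 0 ≤ a → z - a • e ∈ Y := by
    intro z hz a ha
    rw [hY] at hz ⊢
    intro x hx t ht hzx
    refine hz x hx (t + a) (by linarith) ?_
    rw [add_smul, ← add_assoc, ← hzx]
    abel
  have cu : Continuous fun z : V => max 0 ((inner ℝ z e : ℝ) - m + 1) := by fun_prop
  have hu0 : ∀ z : V, 0 ≤ max 0 ((inner ℝ z e : ℝ) - m + 1) := fun z => le_max_left _ _
  obtain ⟨r, hr⟩ : ∃ r : C(↥Y, ↥Y), ∀ z : ↥Y, (r z : V) = (z : V) - (max 0 ((inner ℝ (z : V) e : ℝ) - m + 1)) • e :=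
    ⟨⟨fun z => ⟨(z : V) - (max 0 ((inner ℝ (z : V) e : ℝ) - m + 1)) • e, hdown z z.2 _ (hu0 z)⟩,
      Continuous.subtype_mk (continuous_subtype_val.sub ((cu.comp continuous_subtype_val).smul continuous_const)) _⟩,
      fun z => rfl⟩
  have hb : (m - 1) • e ∈ Y := hH _ (by rw [real_inner_smul_left, S_L2_ee he, mul_one])
  have hrH : ∀ z : ↥Y, inner ℝ (r z : V) e ≤ m - 1 := by
    intro z
    rw [hr, inner_sub_left, real_inner_smul_left, S_L2_ee he, mul_one]
    have := le_max_right 0 ((inner ℝ (z : V) e : ℝ) - m + 1)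
    linarith
  have h1 : (ContinuousMap.id ↥Y).Homotopic r := by
    refine S_L2_seg _ _ (fun z s hs0 hs1 => ?_)
    have e1 : ((ContinuousMap.id ↥Y) z : V) + s • ((r z : V) - ((ContinuousMap.id ↥Y) z : V)) =
        (z : V) - (s * max 0 ((inner ℝ (z : V) e : ℝ) - m + 1)) • e := by
      rw [hr, ContinuousMap.id_apply, sub_sub_cancel_left, smul_neg, smul_smul]
      abel
    rw [e1]
    exact hdown z z.2 _ (mul_nonneg hs0 (hu0 z))
  have h2 : r.Homotopic (ContinuousMap.const ↥Y ⟨(m - 1) • e, hb⟩) := by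
    refine S_L2_seg _ _ (fun z s hs0 hs1 => hH _ ?_)
    have e1 : (((ContinuousMap.const ↥Y (⟨(m - 1) • e, hb⟩ : ↥Y)) z : ↥Y) : V) = (m - 1) • e := rfl
    have e2 : (inner ℝ ((m - 1) • e) e : ℝ) = m - 1 := by
      rw [real_inner_smul_left, S_L2_ee he, mul_one]
    rw [e1, inner_add_left, real_inner_smul_left, inner_sub_left, e2]
    have h3 := hrH z
    nlinarith
  rw [contractible_iff_id_nullhomotopic]
  exact ⟨_, h1.trans h2⟩

theorem l2_lines {V : Type*} [NormedAddCommGroup V] [InnerProductSpace ℝ V] [FiniteDimensional ℝ V]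
    (h3 : 3 ≤ Module.finrank ℝ V) {X : Set V} (hX : X.Finite) {e : V} (he : ‖e‖ = 1) :
    IsPreconnected {z : V | ∀ x ∈ X, ∀ t : ℝ, z ≠ x + t • e} := by
  have he0 : e ≠ 0 := by
    rintro rfl
    rw [norm_zero] at he
    exact zero_ne_one he
  obtain ⟨W, hW⟩ : ∃ W : Submodule ℝ V, W = (Submodule.span ℝ {e})ᗮ := ⟨_, rfl⟩
  have hmem : ∀ w : V, w ∈ W ↔ inner ℝ e w = (0 : ℝ) := by
    intro w
    rw [hW]
    exact Submodule.mem_orthogonal_singleton_iff_inner_right
  have hfin : 1 < Module.finrank ℝ W := by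
    have h1 := Submodule.finrank_add_finrank_orthogonal (Submodule.span ℝ {e})
    rw [finrank_span_singleton he0, ← hW] at h1
    omega
  have hrank : 1 < Module.rank ℝ W := by
    rw [← Module.finrank_eq_rank]
    exact_mod_cast hfin
  have hpm : ∀ z : V, z - (inner ℝ e z : ℝ) • e ∈ W := by
    intro z
    rw [hmem, inner_sub_right, real_inner_smul_right, S_L2_ee he, mul_one, sub_self]
  have hc : (((fun z : V => (⟨z - (inner ℝ e z : ℝ) • e, hpm z⟩ : W)) '' X) : Set W).Countable :=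
    (hX.image _).countable
  have h1 := (hc.isConnected_compl_of_one_lt_rank hrank).isPreconnected
  have h2 := h1.prod (isPreconnected_univ (α := ℝ))
  have cg : Continuous fun q : W × ℝ => (q.1 : V) + q.2 • e := by fun_prop
  have h3 := h2.image _ cg.continuousOn
  convert h3 using 1
  ext z
  constructor
  · intro hz
    refine ⟨(⟨z - (inner ℝ e z : ℝ) • e, hpm z⟩, inner ℝ e z), ⟨?_, trivial⟩, ?_⟩
    · rintro ⟨x, hx, hxz⟩
      have h4 : x - (inner ℝ e x : ℝ) • e = z - (inner ℝ e z : ℝ) • e := congr_arg Subtype.val hxz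
      refine hz x hx ((inner ℝ e z : ℝ) - inner ℝ e x) ?_
      rw [sub_smul]
      have h5 : z = x - (inner ℝ e x : ℝ) • e + (inner ℝ e z : ℝ) • e := by
        rw [h4]
        abel
      conv_lhs => rw [h5]
      abel
    · show z - (inner ℝ e z : ℝ) • e + (inner ℝ e z : ℝ) • e = z
      abel
  · rintro ⟨⟨w, t⟩, ⟨hw, -⟩, rfl⟩ x hx s hs
    have hs' : (w : V) + t • e = x + s • e := hs
    apply hw
    refine ⟨x, hx, Subtype.ext ?_⟩
    show x - (inner ℝ e x : ℝ) • e = w
    have h4 : x = (w : V) + (t - s) • e := by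
      rw [sub_smul]
      have : x = (w : V) + t • e - s • e := by rw [hs']; abel
      rw [this]
      abel
    have h5 : (inner ℝ e x : ℝ) = t - s := by
      rw [h4, inner_add_right, real_inner_smul_right, S_L2_ee he, (hmem w).1 w.2]
      ring
    rw [h5, h4]
    abel

end Pool.Agent.E8N.SN
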