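import Pool.Agent.E8N.S_L1
import Pool.Agent.E8N.S_L2

/-!
# E8N module S_L3

LOGARITHM ON V MINUS A FINITE SET. e from l2_dir. Y₁ = {z | ∀ x ∈ X, ∀ t ≥ 0, z ≠ x + t e}, Y₂ the same with -e (‖-e‖ = 1): open, contractible, HasLogOn by l1_contr. Y₁ ∪ Y₂ = Xᶜ: if z is on an up ray of x and on a down ray of y, z = x + t e = y - s e, then x - y = -(s+t) e, so x = y, s + t = 0, z = x ∈ X; points of X are in neither. Y₁ ∩ Y₂ = complement
of the lines: l2_lines. l1_union.
-/

set_option autoImplicit false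

open Metric Set Filter Topology

namespace Pool.Agent.E8N.SN

theorem l3_compl {V : Type*} [NormedAddCommGroup V] [InnerProductSpace ℝ V] [FiniteDimensional ℝ V]
    (h3 : 3 ≤ Module.finrank ℝ V) {X : Set V} (hX : X.Finite) : HasLogOn Xᶜ := by
  obtain ⟨e, he, hdir⟩ := l2_dir h3 hX
  have he' : ‖-e‖ = 1 := by rw [norm_neg]; exact he
  have o1 := l2_open hX he
  have o2 := l2_open hX he'
  have g1 := l1_contr o1 (l2_contr hX he)
  have g2 := l1_contr o2 (l2_contr hX he')
  have hpc := l2_lines h3 hX he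
  have hint : {z : V | ∀ x ∈ X, ∀ t : ℝ, 0 ≤ t → z ≠ x + t • e} ∩
      {z : V | ∀ x ∈ X, ∀ t : ℝ, 0 ≤ t → z ≠ x + t • (-e)} =
      {z : V | ∀ x ∈ X, ∀ t : ℝ, z ≠ x + t • e} := by
    ext z
    constructor
    · rintro ⟨ha, hb⟩ x hx t hz
      rcases le_total 0 t with ht | ht
      · exact ha x hx t ht hz
      · refine hb x hx (-t) (by linarith) ?_
        rw [hz]
        simp
    · intro h
      refine ⟨fun x hx t _ => h x hx t, fun x hx t _ hz => h x hx (-t) ?_⟩
      rw [hz]
      simp
  have hun : {z : V | ∀ x ∈ X, ∀ t : ℝ, 0 ≤ t → z ≠ x + t • e} ∪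
      {z : V | ∀ x ∈ X, ∀ t : ℝ, 0 ≤ t → z ≠ x + t • (-e)} = Xᶜ := by
    ext z
    constructor
    · rintro (h | h) hz
      · exact h z hz 0 le_rfl (by simp)
      · exact h z hz 0 le_rfl (by simp)
    · intro hz
      by_contra hcon
      rw [mem_union, not_or] at hcon
      obtain ⟨h4, h5⟩ := hcon
      have h4' : ∃ x ∈ X, ∃ t : ℝ, 0 ≤ t ∧ z = x + t • e := by
        by_contra hc
        push Not at hc
        exact h4 (fun x hx t ht => hc x hx t ht)
      have h5' : ∃ x ∈ X, ∃ t : ℝ, 0 ≤ t ∧ z = x + t • (-e) := by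
        by_contra hc
        push Not at hc
        exact h5 (fun x hx t ht => hc x hx t ht)
      obtain ⟨x, hx, t, ht, hxz⟩ := h4'
      obtain ⟨y, hy, s, hs, hyz⟩ := h5'
      have h6 : x - y = (-(s + t)) • e := by
        have h7 : x + t • e = y + s • (-e) := by rw [← hxz, ← hyz]
        have h8 : x - y = s • (-e) - t • e := by
          rw [sub_eq_sub_iff_add_eq_add, h7, add_comm]
        rw [h8]
        module
      by_cases hxy : x = y
      · rw [hxy, sub_self] at h6
        have h9 : -(s + t) = 0 := by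
          rcases smul_eq_zero.mp h6.symm with h | h
          · exact h
          · rw [h, norm_zero] at he
            norm_num at he
        have h10 : t = 0 := by linarith
        rw [h10, zero_smul, add_zero] at hxz
        rw [hxz] at hz
        exact hz hx
      · exact hdir x hx y hy hxy _ h6
  rw [← hun]
  refine l1_union o1 o2 g1 g2 ?_
  rw [hint]
  exact hpc

end Pool.Agent.E8N.SN
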