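import Pool.Agent.E8N.S_D

/-!
# E8N module S_L4

SPHERE MINUS FINITE SET, CONNECTED; BALLS. `l4_ball`: (ball 0 r) \ X is preconnected: OpenPartialHomeomorph.univBall 0 r (source univ, target ball 0 r): it is the image of the complement of the countable (finite) set (preimage of X), connected by Set.Countable.isConnected_compl_of_one_lt_rank. `l4_compl`: X finite in the unit sphere of E: if X = ∅:
isConnected_sphere (rank > 1); if x₀ ∈ X: stereographic (norm of x₀ = 1): OpenPartialHomeomorph with source {x₀}ᶜ and target univ (stereographic_source, stereographic_target) onto (ℝ ∙ v)ᗮ, which has dimension ≥ 3; Xᶜ is the image under the inverse of the complement of a finite set. `l4_dim`: finrank of (ℝ ∙ v)ᗮ is finrank E - 1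
(Submodule.finrank_add_finrank_orthogonal, finrank_span_singleton).
-/

set_option autoImplicit false

open Metric Set Filter Topology

namespace Pool.Agent.E8N.SN

theorem S_L4_rank {V : Type*} [NormedAddCommGroup V] [InnerProductSpace ℝ V] [FiniteDimensional ℝ V]
    (h3 : 3 ≤ Module.finrank ℝ V) : 1 < Module.rank ℝ V := by
  rw [← Module.finrank_eq_rank]
  exact_mod_cast (by omega : 1 < Module.finrank ℝ V)

theorem S_L4_fin {V : Type*} [NormedAddCommGroup V] [InnerProductSpace ℝ V] [FiniteDimensional ℝ V]
    (h3 : 3 ≤ Module.finrank ℝ V) {X : Set V} (hX : X.Finite) : IsPreconnected Xᶜ :=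
  (hX.countable.isConnected_compl_of_one_lt_rank (S_L4_rank h3)).isPreconnected

theorem l4_ball {V : Type*} [NormedAddCommGroup V] [InnerProductSpace ℝ V] [FiniteDimensional ℝ V]
    (h3 : 3 ≤ Module.finrank ℝ V) {r : ℝ} (hr : 0 < r) {X : Set V} (hX : X.Finite) :
    IsPreconnected (ball (0 : V) r \ X) := by
  set e := OpenPartialHomeomorph.univBall (0 : V) r with he
  have hs : e.source = univ := OpenPartialHomeomorph.univBall_source _ _
  have ht : e.target = ball 0 r := OpenPartialHomeomorph.univBall_target _ hr
  have hinj : InjOn e univ := hs ▸ e.injOn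
  have hfin : (e ⁻¹' X).Finite := hX.preimage (hinj.mono (subset_univ _))
  have himg : ball (0 : V) r \ X = e '' (e ⁻¹' X)ᶜ := by
    ext y
    constructor
    · rintro ⟨hy, hyX⟩
      have hy' : y ∈ e.target := ht ▸ hy
      refine ⟨e.symm y, ?_, e.right_inv hy'⟩
      rw [mem_compl_iff, mem_preimage, e.right_inv hy']
      exact hyX
    · rintro ⟨x, hx, rfl⟩
      refine ⟨?_, hx⟩
      rw [← ht]
      exact e.map_source (hs ▸ mem_univ x)
  rw [himg]
  exact (S_L4_fin h3 hfin).image _ (e.continuousOn.mono (hs ▸ subset_univ _))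

theorem l4_dim {E : Type*} [NormedAddCommGroup E] [InnerProductSpace ℝ E] [FiniteDimensional ℝ E]
    (hd : 4 ≤ Module.finrank ℝ E) {v : E} (hv : ‖v‖ = 1) : 3 ≤ Module.finrank ℝ ↥(Submodule.span ℝ {v})ᗮ := by
  have h1 := Submodule.finrank_add_finrank_orthogonal (Submodule.span ℝ {v})
  have hv0 : v ≠ 0 := by
    rintro rfl
    simp at hv
  rw [finrank_span_singleton hv0] at h1
  omega

theorem l4_compl {E : Type*} [NormedAddCommGroup E] [InnerProductSpace ℝ E] [FiniteDimensional ℝ E]
    (hd : 4 ≤ Module.finrank ℝ E) {X : Set ↥(sphere (0 : E) 1)} (hX : X.Finite) : IsPreconnected Xᶜ := by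
  rcases X.eq_empty_or_nonempty with rfl | ⟨x₀, hx₀⟩
  · rw [compl_empty]
    have : PreconnectedSpace ↥(sphere (0 : E) 1) :=
      Subtype.preconnectedSpace (isConnected_sphere (S_L4_rank (by omega)) (0 : E) zero_le_one).isPreconnected
    exact isPreconnected_univ
  · have hv : ‖(x₀ : E)‖ = 1 := by
      have := x₀.2
      rwa [mem_sphere_zero_iff_norm] at this
    set e := stereographic hv with he
    have hs : e.source = {x₀}ᶜ := stereographic_source hv
    have ht : e.target = univ := stereographic_target hv
    have hinj : InjOn e.symm univ := by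
      have := e.symm.injOn
      rwa [e.symm_source, ht] at this
    have hfin : (e.symm ⁻¹' X).Finite := hX.preimage (hinj.mono (subset_univ _))
    have himg : Xᶜ = e.symm '' (e.symm ⁻¹' X)ᶜ := by
      ext y
      constructor
      · intro hy
        have hy' : y ∈ e.source := by
          rw [hs, mem_compl_iff, mem_singleton_iff]
          rintro rfl
          exact hy hx₀
        refine ⟨e y, ?_, e.left_inv hy'⟩
        rw [mem_compl_iff, mem_preimage, e.left_inv hy']
        exact hy
      · rintro ⟨x, hx, rfl⟩
        exact hx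
    rw [himg]
    refine (S_L4_fin (l4_dim hd hv) hfin).image _ (e.symm.continuousOn.mono ?_)
    rw [e.symm_source, ht]
    exact subset_univ _

end Pool.Agent.E8N.SN
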