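import Pool.Agent.E8N.S_L3
import Pool.Agent.E8N.S_L4

/-!
# E8N module S_L5

LOGARITHM ON THE SPHERE MINUS A FINITE SET. If x₀ ∈ X: stereographic from x₀ (source {x₀}ᶜ, target univ), W := complement of the image of X \ {x₀} (finite), l3_compl with l4_dim, l1_chart: e.source ∩ e ⁻¹' W = Xᶜ. If X = ∅: univ = {a}ᶜ ∪ {b}ᶜ for two different points a, b = -a; HasLogOn of both by the first case; the intersection {a, b}ᶜ is
preconnected (l4_compl): l1_union.
-/

set_option autoImplicit false

open Metric Set Filter Topology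

namespace Pool.Agent.E8N.SN

theorem l5_mem {E : Type*} [NormedAddCommGroup E] [InnerProductSpace ℝ E] [FiniteDimensional ℝ E]
    (hd : 4 ≤ Module.finrank ℝ E) {X : Set ↥(sphere (0 : E) 1)} (hX : X.Finite)
    {x₀ : ↥(sphere (0 : E) 1)} (hx₀ : x₀ ∈ X) : HasLogOn Xᶜ := by
  have hv : ‖(x₀ : E)‖ = 1 := by
    have := x₀.2
    rwa [mem_sphere_zero_iff_norm] at this
  obtain ⟨e, he⟩ : ∃ e, e = stereographic hv := ⟨_, rfl⟩
  have hsrc : e.source = {x₀}ᶜ := by
    rw [he, stereographic_source]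
  have htgt : e.target = Set.univ := by
    rw [he, stereographic_target]
  have hfin : (e '' (X \ {x₀})).Finite := (hX.subset (fun x hx => hx.1)).image e
  have hWo : IsOpen (e '' (X \ {x₀}))ᶜ := hfin.isClosed.isOpen_compl
  have hl : HasLogOn (e '' (X \ {x₀}))ᶜ := l3_compl (l4_dim hd hv) hfin
  have hW : (e '' (X \ {x₀}))ᶜ ⊆ e.target := by
    rw [htgt]
    exact Set.subset_univ _
  have h1 := l1_chart e hW hWo hl
  have h2 : e.source ∩ e ⁻¹' (e '' (X \ {x₀}))ᶜ = Xᶜ := by
    ext x
    constructor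
    · rintro ⟨hs, hx⟩ hxX
      apply hx
      refine ⟨x, ⟨hxX, ?_⟩, rfl⟩
      rw [hsrc] at hs
      exact hs
    · intro hx
      have hxx : x ∈ e.source := by
        rw [hsrc]
        intro h
        apply hx
        rw [Set.mem_singleton_iff] at h
        rw [h]
        exact hx₀
      refine ⟨hxx, ?_⟩
      rintro ⟨y, hy, hxy⟩
      have hys : y ∈ e.source := by
        rw [hsrc]
        exact hy.2
      have h3 : y = x := e.injOn hys hxx hxy
      apply hx
      rw [← h3]
      exact hy.1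
  rw [h2] at h1
  exact h1

theorem l5_compl {E : Type*} [NormedAddCommGroup E] [InnerProductSpace ℝ E] [FiniteDimensional ℝ E]
    (hd : 4 ≤ Module.finrank ℝ E) {X : Set ↥(sphere (0 : E) 1)} (hX : X.Finite) : HasLogOn Xᶜ := by
  rcases Set.eq_empty_or_nonempty X with he | ⟨x₀, hx₀⟩
  · have hnt : Nontrivial E := Module.nontrivial_of_finrank_pos (R := ℝ) (by omega)
    obtain ⟨a0, ha0⟩ := (NormedSpace.sphere_nonempty (E := E) (x := 0) (r := 1)).2 zero_le_one
    obtain ⟨a, ha⟩ : ∃ a : ↥(sphere (0 : E) 1), a = ⟨a0, ha0⟩ := ⟨_, rfl⟩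
    have hne : a ≠ -a := ne_neg_of_mem_unit_sphere ℝ a
    have h1 : HasLogOn ({a} : Set ↥(sphere (0 : E) 1))ᶜ :=
      l5_mem hd (Set.finite_singleton a) (Set.mem_singleton a)
    have h2 : HasLogOn ({-a} : Set ↥(sphere (0 : E) 1))ᶜ :=
      l5_mem hd (Set.finite_singleton (-a)) (Set.mem_singleton (-a))
    have h3 : IsPreconnected (({a} : Set ↥(sphere (0 : E) 1))ᶜ ∩ ({-a} : Set ↥(sphere (0 : E) 1))ᶜ) := by
      rw [← Set.compl_union]
      exact l4_compl hd ((Set.finite_singleton a).union (Set.finite_singleton (-a)))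
    have h4 := l1_union isClosed_singleton.isOpen_compl isClosed_singleton.isOpen_compl h1 h2 h3
    have h5 : ({a} : Set ↥(sphere (0 : E) 1))ᶜ ∪ ({-a} : Set ↥(sphere (0 : E) 1))ᶜ = Xᶜ := by
      rw [he, Set.compl_empty, ← Set.compl_inter, Set.compl_univ_iff]
      ext x
      constructor
      · rintro ⟨hx, hx'⟩
        rw [Set.mem_singleton_iff] at hx hx'
        exact absurd (hx.symm.trans hx') hne
      · intro hx
        exact absurd hx (Set.notMem_empty x)
    rw [h5] at h4
    exact h4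
  · exact l5_mem hd hX hx₀

end Pool.Agent.E8N.SN
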