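import Pool.Agent.E8N.T_PB

/-!
# E8N module T_CA

COMPONENTS OF {f < c}. `ca_open`: IsOpen.connectedComponentIn (locally connected). `ca_lt`: connectedComponentIn_subset.
`ca_conn`: isConnected_connectedComponentIn_iff / isPreconnected_connectedComponentIn, nonempty.
`ca_disj`: two components with a common point are equal (`pb_comp_eq`). `ca_cl_le`: closure of {f < c} is in the closed set {f ≤ c}.
`ca_cl_mem`: z ∈ closure A, f z < c: the component V of z is an open neighbourhood of z, meets A, so V = A.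
`ca_disj_cl`: a point of A is in the open set A, which is disjoint from A'. `ca_sub`: a preconnected C ⊆ {f < c} meeting A is in A.
-/

set_option autoImplicit false

open Metric Set Filter Topology

namespace Pool.Agent.E8N

variable {α : Type*} [MetricSpace α] [CompactSpace α] [ConnectedSpace α] [LocallyPathConnectedSpace α]


theorem ca_open {f : α → ℝ} (hf : Continuous f) {A : Set α} {c : ℝ} (hA : IsComp {z | f z < c} A) : IsOpen A := by
  obtain ⟨x, _, rfl⟩ := hA
  exact (isOpen_lt hf continuous_const).connectedComponentIn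

theorem ca_lt {f : α → ℝ} {A : Set α} {c : ℝ} (hA : IsComp {z | f z < c} A) {x : α} (hx : x ∈ A) : f x < c := by
  obtain ⟨x0, _, rfl⟩ := hA
  have h3 : x ∈ {z : α | f z < c} := connectedComponentIn_subset _ _ hx
  exact h3

theorem ca_conn {U A : Set α} (hA : IsComp U A) : IsPreconnected A ∧ A.Nonempty := by
  obtain ⟨x, hx, rfl⟩ := hA
  exact ⟨isPreconnected_connectedComponentIn, ⟨x, mem_connectedComponentIn hx⟩⟩

theorem ca_disj {U A A' : Set α} (hA : IsComp U A) (hA' : IsComp U A') (h : A ≠ A') : Disjoint A A' := by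
  rw [Set.disjoint_left]
  intro x hx hx'
  exact h ((pb_comp_eq hA hx).trans (pb_comp_eq hA' hx').symm)

theorem ca_cl_le {f : α → ℝ} (hf : Continuous f) {A : Set α} {c : ℝ} (hA : IsComp {z | f z < c} A) {z : α}
    (hz : z ∈ closure A) : f z ≤ c :=
  closure_minimal (fun _ hw => (ca_lt hA hw).le) (isClosed_le hf continuous_const) hz

theorem ca_cl_mem {f : α → ℝ} (hf : Continuous f) {A : Set α} {c : ℝ} (hA : IsComp {z | f z < c} A) {z : α}
    (hz : z ∈ closure A) (hlt : f z < c) : z ∈ A := by
  have hV := pb_comp hlt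
  obtain ⟨w, hwV, hwA⟩ := mem_closure_iff.mp hz _ (ca_open hf hV.1) hV.2
  rw [pb_comp_eq hA hwA, ← pb_comp_eq hV.1 hwV]
  exact hV.2

theorem ca_disj_cl {f : α → ℝ} (hf : Continuous f) {A A' : Set α} {c : ℝ} (hA : IsComp {z | f z < c} A)
    (hA' : IsComp {z | f z < c} A') (h : A ≠ A') : Disjoint A (closure A') :=
  (ca_disj hA hA' h).closure_right (ca_open hf hA)

theorem ca_sub {U A C : Set α} (hA : IsComp U A) (hC : IsPreconnected C) (hCU : C ⊆ U) (hm : (C ∩ A).Nonempty) :
    C ⊆ A := by
  obtain ⟨w, hwC, hwA⟩ := hm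
  rw [pb_comp_eq hA hwA]
  exact hC.subset_connectedComponentIn hwC hCU

end Pool.Agent.E8N
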