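import Pool.Agent.E8N.T_CB

/-!
# E8N module T_CC

MINIMA ON COMPONENTS. `cc_crit`: if m ∉ Z then g 1 m ∈ A (cb_mem) has a smaller value. `cc_min`: closure A is compact and nonempty, f
attains its minimum on it at m, f m < c (there are points of A), so m ∈ A (ca_cl_mem); local minimum because A is open;
m ∈ Z by cc_crit. `cc_finite`: the map component ↦ chosen minimum is injective into the finite set Z (components with a
common point are equal). `cc_loc`: a local minimum which is a limit of points with smaller value does not exist, so a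
pass is not a local minimum.
-/

set_option autoImplicit false

open Metric Set Filter Topology

namespace Pool.Agent.E8N

variable {α : Type*} [MetricSpace α] [CompactSpace α] [ConnectedSpace α] [LocallyPathConnectedSpace α]


theorem cc_crit {f : α → ℝ} {Z : Set α} {g : ℝ → α → α} (hd : Desc f Z g) {A : Set α} {c : ℝ}
    (hA : IsComp {z | f z < c} A) {m : α} (hm : m ∈ A) (hmin : ∀ z ∈ A, f m ≤ f z) : m ∈ Z ∧ IsLocalMin f m := by
  refine ⟨by_contra fun hZ => ?_, ?_⟩
  · have h1 := cb_mem hd hA hm zero_le_one le_rfl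
    have h2 := hd.lt m 1 one_pos le_rfl hZ
    exact absurd (hmin _ h1) (not_le.mpr h2)
  · filter_upwards [(ca_open hd.fc hA).mem_nhds hm] with z hz
    exact hmin z hz

theorem cc_min {f : α → ℝ} {Z : Set α} {g : ℝ → α → α} (hd : Desc f Z g) {A : Set α} {c : ℝ}
    (hA : IsComp {z | f z < c} A) : ∃ m ∈ A, m ∈ Z ∧ IsLocalMin f m ∧ ∀ z ∈ A, f m ≤ f z := by
  obtain ⟨a, ha⟩ := (ca_conn hA).2
  obtain ⟨m, hm, hmin⟩ := (isClosed_closure (s := A)).isCompact.exists_isMinOn ⟨a, subset_closure ha⟩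
    hd.fc.continuousOn
  have h1 : f m < c := lt_of_le_of_lt (hmin (subset_closure ha)) (ca_lt hA ha)
  have h2 : m ∈ A := ca_cl_mem hd.fc hA hm h1
  have h3 : ∀ z ∈ A, f m ≤ f z := fun z hz => hmin (subset_closure hz)
  obtain ⟨h4, h5⟩ := cc_crit hd hA h2 h3
  exact ⟨m, h2, h4, h5, h3⟩

theorem cc_finite {f : α → ℝ} {Z : Set α} {g : ℝ → α → α} (hd : Desc f Z g) (hZ : Z.Finite) (c : ℝ) :
    {A : Set α | IsComp {z | f z < c} A}.Finite := by
  have h1 : ∀ A ∈ {A : Set α | IsComp {z | f z < c} A}, ∃ m : α, m ∈ A ∧ m ∈ Z := by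
    intro A hA
    obtain ⟨m, h1, h2, -⟩ := cc_min hd hA
    exact ⟨m, h1, h2⟩
  choose! m hm hmZ using h1
  refine Set.Finite.of_injOn (f := m) (t := Z) (fun A hA => hmZ A hA) ?_ hZ
  intro A hA A' hA' he
  by_contra hne
  have h2 := ca_disj hA hA' hne
  have h3 := hm A' hA'
  rw [← he] at h3
  exact Set.disjoint_left.mp h2 (hm A hA) h3

theorem cc_loc {f : α → ℝ} {s : α} (h : LPass f s) : ¬ IsLocalMin f s := by
  intro hmin
  obtain ⟨A, -, hA, -, -, hs, -⟩ := h
  obtain ⟨z, hz1, hz2⟩ := mem_closure_iff_nhds.mp hs _ hmin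
  exact absurd (ca_lt hA hz2) (not_lt.mpr hz1)

end Pool.Agent.E8N
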