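import Pool.Agent.E8N.T_CC

/-!
# E8N module T_CD

PASS GRAPH. Let W1 := ⋃ closure A (A in the family FA), closed (finite union, cc_finite), W2 := the union of the closures of the other components of
{f < c} together with the finite set {z ∈ Z | f z = c, z ∉ W1}; closed. (1) {f ≤ c} ⊆ W1 ∪ W2: if f z < c, z is in its component;
if f z = c and z ∉ Z: cb_exists; if z ∈ Z: clear. (2) W1 ∩ W2 = ∅: hypothesis hcl. (3) By normality there are disjoint open U1 ⊇ W1,
U2 ⊇ W2 (SeparatedNhds, NormalSpace). The compact set (U1 ∪ U2)ᶜ has f > c on it, so f ≥ c + κ on it for some κ > 0 (also if it is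
empty). (4) If pass f x y < c + κ take C from `pa_lt`: C ⊆ U1 ∪ U2 preconnected, x ∈ U1, y ∈ U2: contradiction. So c < c + κ ≤ pass.
-/

set_option autoImplicit false

open Metric Set Filter Topology

namespace Pool.Agent.E8N

variable {α : Type*} [MetricSpace α] [CompactSpace α] [ConnectedSpace α] [LocallyPathConnectedSpace α]


theorem cd_graph {f : α → ℝ} {Z : Set α} {g : ℝ → α → α} (hd : Desc f Z g) (hZ : Z.Finite) {c : ℝ}
    {FA : Set (Set α)} (hFA : ∀ A ∈ FA, IsComp {z | f z < c} A)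
    (hcl : ∀ A ∈ FA, ∀ A', IsComp {z | f z < c} A' → A' ∉ FA → Disjoint (closure A) (closure A'))
    {A A' : Set α} (hA : A ∈ FA) (hA' : IsComp {z | f z < c} A') (hn : A' ∉ FA) {x y : α} (hx : x ∈ A) (hy : y ∈ A') :
    c < pass (univ : Set α) f x y := by
  have hfinA : FA.Finite := (cc_finite hd hZ c).subset (fun B hB => hFA B hB)
  obtain ⟨FB, hFB⟩ : ∃ FB : Set (Set α), FB = {B | IsComp {z | f z < c} B ∧ B ∉ FA} := ⟨_, rfl⟩
  have hfinB : FB.Finite := (cc_finite hd hZ c).subset (fun B hB => by rw [hFB] at hB; exact hB.1)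
  obtain ⟨W1, hW1⟩ : ∃ W : Set α, W = ⋃ B ∈ FA, closure B := ⟨_, rfl⟩
  obtain ⟨V2, hV2⟩ : ∃ W : Set α, W = ⋃ B ∈ FB, closure B := ⟨_, rfl⟩
  obtain ⟨Z2, hZ2⟩ : ∃ W : Set α, W = {z | z ∈ Z ∧ f z = c ∧ z ∉ W1} := ⟨_, rfl⟩
  have hW1c : IsClosed W1 := by
    rw [hW1]
    exact hfinA.isClosed_biUnion (fun _ _ => isClosed_closure)
  have hV2c : IsClosed V2 := by
    rw [hV2]
    exact hfinB.isClosed_biUnion (fun _ _ => isClosed_closure)
  have hZ2c : IsClosed Z2 := by
    have : Z2.Finite := hZ.subset (fun z hz => by rw [hZ2] at hz; exact hz.1)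
    exact this.isClosed
  have hW2c : IsClosed (V2 ∪ Z2) := hV2c.union hZ2c
  have hdisj : Disjoint W1 (V2 ∪ Z2) := by
    rw [Set.disjoint_left]
    rintro z hz (hz2 | hz2)
    · rw [hW1] at hz
      rw [hV2] at hz2
      simp only [Set.mem_iUnion] at hz hz2
      obtain ⟨B, hB, hzB⟩ := hz
      obtain ⟨B', hB', hzB'⟩ := hz2
      rw [hFB] at hB'
      exact (Set.disjoint_left.mp (hcl B hB B' hB'.1 hB'.2)) hzB hzB'
    · rw [hZ2] at hz2
      exact hz2.2.2 hz
  have hcomp : ∀ B, IsComp {z | f z < c} B → ∀ z ∈ closure B, z ∈ W1 ∪ (V2 ∪ Z2) := by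
    intro B hB z hz
    by_cases h : B ∈ FA
    · left
      rw [hW1]
      simp only [Set.mem_iUnion]
      exact ⟨B, h, hz⟩
    · right; left
      rw [hV2]
      simp only [Set.mem_iUnion]
      exact ⟨B, by rw [hFB]; exact ⟨hB, h⟩, hz⟩
  have hcov : ∀ z, f z ≤ c → z ∈ W1 ∪ (V2 ∪ Z2) := by
    intro z hz
    rcases lt_or_eq_of_le hz with h | h
    · exact hcomp (connectedComponentIn {z | f z < c} z) ⟨z, h, rfl⟩ z
        (subset_closure (mem_connectedComponentIn h))
    · by_cases hzZ : z ∈ Z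
      · by_cases h1 : z ∈ W1
        · exact Or.inl h1
        · right; right
          rw [hZ2]
          exact ⟨hzZ, h, h1⟩
      · obtain ⟨B, hB, hzB⟩ := cb_exists hd hzZ h
        exact hcomp B hB z hzB
  obtain ⟨U1, U2, hU1, hU2, hs1, hs2, hU⟩ := normal_separation hW1c hW2c hdisj
  have hgap : ∃ κ > 0, ∀ z, z ∉ U1 ∪ U2 → c + κ ≤ f z := by
    by_cases hne : ((U1 ∪ U2)ᶜ).Nonempty
    · obtain ⟨z0, hz0, hmin⟩ := ((hU1.union hU2).isClosed_compl.isCompact).exists_isMinOn hne hd.fc.continuousOn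
      refine ⟨f z0 - c, ?_, fun z hz => ?_⟩
      · by_contra hcon
        have : f z0 ≤ c := by linarith
        rcases hcov z0 this with h | h
        · exact hz0 (Or.inl (hs1 h))
        · exact hz0 (Or.inr (hs2 h))
      · have := hmin (show z ∈ (U1 ∪ U2)ᶜ from hz)
        have h2 : f z0 ≤ f z := this
        linarith
    · refine ⟨1, one_pos, fun z hz => ?_⟩
      exact absurd ⟨z, hz⟩ hne
  obtain ⟨κ, hκ, hgap⟩ := hgap
  by_contra hcon
  have hlt : pass (univ : Set α) f x y < c + κ := by linarith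
  obtain ⟨C, hC, hxC, hyC, t', ht', hCt⟩ := pa_lt hd.fc hlt
  have hCsub : C ⊆ U1 ∪ U2 := by
    intro z hz
    by_contra hzz
    have h1 := hgap z hzz
    have h2 := hCt z hz
    linarith
  have hxU : x ∈ U1 := by
    apply hs1
    rw [hW1]
    simp only [Set.mem_iUnion]
    exact ⟨A, hA, subset_closure hx⟩
  have hyU : y ∈ U2 := by
    apply hs2
    left
    rw [hV2]
    simp only [Set.mem_iUnion]
    exact ⟨A', by rw [hFB]; exact ⟨hA', hn⟩, subset_closure hy⟩
  obtain ⟨z, _, hz1, hz2⟩ := hC U1 U2 hU1 hU2 hCsub ⟨x, hxC, hxU⟩ ⟨y, hyC, hyU⟩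
  exact (Set.disjoint_left.mp hU) hz1 hz2

end Pool.Agent.E8N
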