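import Pool.Agent.E8N.T_CC

/-!
# E8N module T_CE

UNIQUE MINIMUM. `ce_sepd`: μ := f x = f y < c (both are minima on A). Z finite: choose r with 0 < r < dist y x and dist z x ≠ r for all z ∈ Z
(Ioo 0 (dist y x) is infinite). Kr := {z ∈ closure A | dist z x = r}, compact. On Kr f > μ: if f z < c then z ∈ A (ca_cl_mem), f z ≥ μ,
and f z = μ would give z ∈ Z by cc_crit, excluded by the choice of r; if f z ≥ c clear. So f ≥ μ + κ on Kr, κ > 0. If pass f x y < min c (μ+κ)
take C from pa_lt: C ⊆ {f < c} preconnected, x ∈ C, so C ⊆ A (ca_sub); dist · x takes the values 0 and dist y x on C, so the value r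
(IsPreconnected.intermediate_value), at a point of Kr where f < μ + κ: contradiction. So μ < min c (μ+κ) ≤ pass.
`ce_unique`: existence from cc_min, uniqueness from ce_sepd. `ce_unique'`: c := (max f) + 1, {f < c} = univ is its own component
(α connected).
-/

set_option autoImplicit false

open Metric Set Filter Topology

namespace Pool.Agent.E8N

variable {α : Type*} [MetricSpace α] [CompactSpace α] [ConnectedSpace α] [LocallyPathConnectedSpace α]


theorem ce_sepd {f : α → ℝ} {Z : Set α} {g : ℝ → α → α} (hd : Desc f Z g) (hZ : Z.Finite) {A : Set α} {c : ℝ}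
    (hA : IsComp {z | f z < c} A) {x y : α} (hx : x ∈ A) (hy : y ∈ A) (hxm : ∀ z ∈ A, f x ≤ f z)
    (hym : ∀ z ∈ A, f y ≤ f z) (hne : x ≠ y) : Sepd (univ : Set α) f x y := by
  have hxy : f x = f y := le_antisymm (hxm y hy) (hym x hx)
  have hxc : f x < c := ca_lt hA hx
  have hpos : 0 < dist y x := dist_pos.2 (Ne.symm hne)
  obtain ⟨r, hr, hrZ⟩ : ((Set.Ioo 0 (dist y x)) \ ((fun z => dist z x) '' Z)).Nonempty :=
    ((Set.Ioo_infinite hpos).diff (hZ.image fun z => dist z x)).nonempty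
  set Kr : Set α := closure A ∩ {z | dist z x = r} with hKr
  have hKc : IsCompact Kr :=
    (isClosed_closure.inter (isClosed_eq (continuous_id.dist continuous_const) continuous_const)).isCompact
  have hgt : ∀ z ∈ Kr, f x < f z := by
    intro z hz
    by_cases hzc : f z < c
    · have hzA : z ∈ A := ca_cl_mem hd.fc hA hz.1 hzc
      rcases (hxm z hzA).lt_or_eq with h | h
      · exact h
      · exfalso
        have h1 := (cc_crit hd hA hzA (fun w hw => by rw [← h]; exact hxm w hw)).1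
        exact hrZ ⟨z, h1, hz.2⟩
    · exact lt_of_lt_of_le hxc (not_lt.1 hzc)
  obtain ⟨κ, hκ, hκK⟩ : ∃ κ : ℝ, 0 < κ ∧ ∀ z ∈ Kr, f x + κ ≤ f z := by
    rcases Kr.eq_empty_or_nonempty with h | h
    · exact ⟨1, one_pos, fun z hz => by rw [h] at hz; exact absurd hz (Set.notMem_empty z)⟩
    · obtain ⟨z0, hz0, hz0m⟩ := hKc.exists_isMinOn h hd.fc.continuousOn
      refine ⟨f z0 - f x, sub_pos.2 (hgt z0 hz0), fun z hz => ?_⟩
      have := hz0m hz
      simp only [Set.mem_setOf_eq] at this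
      linarith
  have hle : min c (f x + κ) ≤ pass (univ : Set α) f x y := by
    by_contra hlt
    rw [not_le] at hlt
    obtain ⟨C, hC, hxC, hyC, t', ht', hCt⟩ := pa_lt hd.fc hlt
    have hCU : C ⊆ {z | f z < c} := fun z hz =>
      lt_of_le_of_lt (hCt z hz) (lt_of_lt_of_le ht' (min_le_left _ _))
    have hCA : C ⊆ A := ca_sub hA hC hCU ⟨x, hxC, hx⟩
    have hiv := hC.intermediate_value hxC hyC
      (continuous_id.dist continuous_const : Continuous fun z : α => dist (id z) x).continuousOn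
    obtain ⟨z, hz, hzr⟩ := hiv (show r ∈ Set.Icc (dist (id x) x) (dist (id y) x) by
      rw [id, id, dist_self]; exact ⟨hr.1.le, hr.2.le⟩)
    have h1 := hκK z ⟨subset_closure (hCA hz), hzr⟩
    have h2 := hCt z hz
    have h3 := lt_of_lt_of_le ht' (min_le_right c (f x + κ))
    linarith
  unfold Sepd
  rw [← hxy, max_self]
  exact lt_of_lt_of_le (lt_min hxc (by linarith)) hle

theorem ce_unique {f : α → ℝ} {Z : Set α} {g : ℝ → α → α} (hd : Desc f Z g) (hZ : Z.Finite) {A : Set α} {c : ℝ}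
    (hA : IsComp {z | f z < c} A) (hno : ∀ x ∈ A, ∀ y ∈ A, ¬ Sepd (univ : Set α) f x y) :
    ∃ m ∈ A, m ∈ Z ∧ IsLocalMin f m ∧ ∀ z ∈ A, z ≠ m → f m < f z := by
  obtain ⟨m, hm, hmZ, hml, hmin⟩ := cc_min hd hA
  refine ⟨m, hm, hmZ, hml, fun z hz hne => ?_⟩
  rcases (hmin z hz).lt_or_eq with h | h
  · exact h
  · exact absurd (ce_sepd hd hZ hA hm hz hmin (fun w hw => by rw [← h]; exact hmin w hw) (Ne.symm hne))
      (hno m hm z hz)

theorem ce_unique' {f : α → ℝ} {Z : Set α} {g : ℝ → α → α} (hd : Desc f Z g) (hZ : Z.Finite)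
    (hno : ¬ Two (univ : Set α) f) : ∃ m ∈ Z, ∀ z, z ≠ m → f m < f z := by
  obtain ⟨C, hC⟩ := (isCompact_univ.image hd.fc).bddAbove
  have hlt : {z | f z < C + 1} = (univ : Set α) := by
    ext z
    simp only [Set.mem_setOf_eq, Set.mem_univ, iff_true]
    have := hC (Set.mem_image_of_mem f (Set.mem_univ z))
    linarith
  have x0 : α := Classical.arbitrary α
  have hA : IsComp {z | f z < C + 1} (univ : Set α) := by
    refine ⟨x0, by rw [hlt]; exact Set.mem_univ _, ?_⟩
    rw [hlt, connectedComponentIn_univ, PreconnectedSpace.connectedComponent_eq_univ]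
  obtain ⟨m, _, hmZ, _, hmin⟩ := ce_unique hd hZ hA (fun x hx y hy h => hno ⟨x, hx, y, hy, h⟩)
  exact ⟨m, hmZ, fun z hz => hmin z (Set.mem_univ z) hz⟩

end Pool.Agent.E8N
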