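import Pool.Agent.E8N.T_MB

/-!
# E8N module T_FR

FRONTIER, (3.5). X := {z ∈ Z | f z = c ∧ f z = d}, finite, c = lev f, d = dev f ≤ c. O closed, (O ∪ X)ᶜ preconnected. `fr_front`: a point z of closure Bl which is not in Bl is in closure Am ∪ X: f z ≥ d (closure), f z = d (else z ∈ Bl by ca_cl_mem for -f). If d < c: f z < c, z ∈ Al ∪ Am; z ∈ Al
contradicts ll. If d = c and z ∉ X: z ∉ Z, cb_exists: z ∈ closure Al or closure Am; the first contradicts ll (z ∉ X). `fr_front'`: a point of closure Al not in Al is in closure Bm ∪ X (same, with f and -f exchanged).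
`fr_A`: Am ⊆ O, so closure Am ⊆ O and by fr_front the frontier of the open set Bl does not meet W := (O ∪ X)ᶜ: W ⊆ Bl or W ∩ Bl = ∅ (W preconnected: W ⊆ Bl ∪ (closure Bl)ᶜ, both open). If W ⊆ Bl: Al is disjoint from Bl (ll), so Al ⊆ O ∪ X; Al \ O is open and in X finite, so empty (na_iso; α has two points: x ≠ y): Al ⊆ O.
If W ∩ Bl = ∅: Bl ⊆ O ∪ X, so Bl ⊆ O the same way. `fr_B`: the same with fr_front'.
-/

set_option autoImplicit false

open Metric Set Filter Topology

namespace Pool.Agent.E8N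

variable {α : Type*} [MetricSpace α] [CompactSpace α] [ConnectedSpace α] [LocallyPathConnectedSpace α]
variable {f : α → ℝ} {Z : Set α} {g g' : ℝ → α → α}


/-- a component of the set `U = A ∪ B` which is the union of two components is one of them -/
theorem fr_comp {U A B C : Set α} (hA : IsComp U A) (hB : IsComp U B) (hU : U = A ∪ B) (hC : IsComp U C) :
    C = A ∨ C = B := by
  obtain ⟨p, hp⟩ := (ca_conn hC).2
  have hpU : p ∈ U := by
    obtain ⟨q, _, rfl⟩ := hC
    exact connectedComponentIn_subset _ _ hp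
  rw [hU] at hpU
  rcases hpU with h | h
  · left
    by_contra hne
    exact Set.disjoint_left.mp (ca_disj hC hA hne) hp h
  · right
    by_contra hne
    exact Set.disjoint_left.mp (ca_disj hC hB hne) hp h

theorem fr_neg {Bl : Set α} (hBl : IsComp {z | dev f < f z} Bl) : IsComp {z | (fun z => - f z) z < - dev f} Bl := by
  rw [← sup_eq]; exact hBl

theorem fr_front (hO : Om2 f Z g g') (hcd : dev f ≤ lev f) {Al Am Bl Bm : Set α} {x y : α}
    (h : MidT f Z (lev f) (dev f) Al Am Bl Bm x y) {z : α} (hz : z ∈ closure Bl) (hz' : z ∉ Bl) :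
    z ∈ closure Am ∨ (z ∈ Z ∧ f z = lev f ∧ f z = dev f) := by
  have hBl := fr_neg h.hBl
  have h1 : - f z ≤ - dev f := ca_cl_le hO.hd'.fc hBl hz
  have h2 : ¬ (- f z < - dev f) := fun hlt => hz' (ca_cl_mem hO.hd'.fc hBl hz hlt)
  have h3 : f z = dev f := by linarith
  by_cases hX : z ∈ Z ∧ f z = lev f ∧ f z = dev f
  · exact Or.inr hX
  left
  have key : ∀ A, IsComp {z | f z < lev f} A → z ∈ closure A → z ∈ closure Am := by
    intro A hA hzA
    rcases fr_comp h.hAl h.hAm h.cA hA with rfl | rfl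
    · exact absurd (h.ll z hzA hz) hX
    · exact hzA
  rcases lt_or_eq_of_le hcd with hlt | heq
  · have hzc : z ∈ {z | f z < lev f} := by
      show f z < lev f
      rw [h3]; exact hlt
    rw [h.cA] at hzc
    rcases hzc with hz1 | hz1
    · exact key Al h.hAl (subset_closure hz1)
    · exact subset_closure hz1
  · have hzZ : z ∉ Z := fun hzZ => hX ⟨hzZ, by rw [h3, heq], h3⟩
    obtain ⟨A, hA, hzA⟩ := cb_exists hO.hd hzZ (c := lev f) (by rw [h3, heq])
    exact key A hA hzA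

theorem fr_front' (hO : Om2 f Z g g') (hcd : dev f ≤ lev f) {Al Am Bl Bm : Set α} {x y : α}
    (h : MidT f Z (lev f) (dev f) Al Am Bl Bm x y) {z : α} (hz : z ∈ closure Al) (hz' : z ∉ Al) :
    z ∈ closure Bm ∨ (z ∈ Z ∧ f z = lev f ∧ f z = dev f) := by
  have h1 : f z ≤ lev f := ca_cl_le hO.hd.fc h.hAl hz
  have h2 : ¬ (f z < lev f) := fun hlt => hz' (ca_cl_mem hO.hd.fc h.hAl hz hlt)
  have h3 : f z = lev f := by linarith
  by_cases hX : z ∈ Z ∧ f z = lev f ∧ f z = dev f
  · exact Or.inr hX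
  left
  have key : ∀ B, IsComp {z | dev f < f z} B → z ∈ closure B → z ∈ closure Bm := by
    intro B hB hzB
    rcases fr_comp h.hBl h.hBm h.cB hB with rfl | rfl
    · exact absurd (h.ll z hz hzB) hX
    · exact hzB
  rcases lt_or_eq_of_le hcd with hlt | heq
  · have hzc : z ∈ {z | dev f < f z} := by
      show dev f < f z
      rw [h3]; exact hlt
    rw [h.cB] at hzc
    rcases hzc with hz1 | hz1
    · exact key Bl h.hBl (subset_closure hz1)
    · exact subset_closure hz1
  · have hzZ : z ∉ Z := fun hzZ => hX ⟨hzZ, h3, by rw [h3, heq]⟩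
    obtain ⟨B, hB, hzB⟩ := cb_exists hO.hd' hzZ (c := - dev f) (by show - f z = - dev f; rw [h3, heq])
    rw [← sup_eq] at hB
    exact key B hB hzB

theorem fr_two {U A B : Set α} (hA : IsComp U A) (hB : IsComp U B) (hne : A ≠ B) : ∃ x y : α, x ≠ y := by
  obtain ⟨p, hp⟩ := (ca_conn hA).2
  obtain ⟨q, hq⟩ := (ca_conn hB).2
  refine ⟨p, q, ?_⟩
  rintro rfl
  exact Set.disjoint_left.mp (ca_disj hA hB hne) hp hq

theorem fr_iso {C O X : Set α} (h2 : ∃ x y : α, x ≠ y) (hC : IsOpen C) (hO : IsClosed O) (hX : X.Finite)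
    (h : C ⊆ O ∪ X) : C ⊆ O := by
  have h1 : IsOpen (C \ O) := hC.sdiff hO
  have h3 : C \ O ⊆ X := fun z hz => (h hz.1).resolve_left hz.2
  have h4 := na_iso h2 h1 hX h3
  exact Set.diff_eq_empty.mp h4

/-- the common argument -/
theorem fr_gen {C D M O X : Set α} (h2 : ∃ x y : α, x ≠ y) (hC : IsOpen C) (hD : IsOpen D) (hO : IsClosed O)
    (hX : X.Finite) (hW : IsPreconnected (O ∪ X)ᶜ) (hM : M ⊆ O)
    (hfr : ∀ z ∈ closure C, z ∉ C → z ∈ closure M ∨ z ∈ X) (hdis : ∀ z ∈ C, z ∉ D) : C ⊆ O ∨ D ⊆ O := by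
  by_cases hm : ((O ∪ X)ᶜ ∩ C).Nonempty
  · right
    have hsub : (O ∪ X)ᶜ ⊆ C := by
      refine hW.subset_left_of_subset_union hC (isClosed_closure (s := C)).isOpen_compl ?_ ?_ hm
      · exact Set.disjoint_left.mpr fun z hz hz' => hz' (subset_closure hz)
      · intro z hz
        by_cases hzC : z ∈ C
        · exact Or.inl hzC
        · right
          intro hzc
          rcases hfr z hzc hzC with h | h
          · exact hz (Or.inl (closure_minimal hM hO h))
          · exact hz (Or.inr h)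
    refine fr_iso h2 hD hO hX ?_
    intro z hz
    by_contra hzc
    exact hdis z (hsub hzc) hz
  · left
    refine fr_iso h2 hC hO hX ?_
    intro z hz
    by_contra hzc
    exact hm ⟨z, hzc, hz⟩

theorem fr_A (hN : Nice α) (hO : Om2 f Z g g') (hcd : dev f ≤ lev f) {Al Am Bl Bm : Set α} {x y : α}
    (h : MidT f Z (lev f) (dev f) Al Am Bl Bm x y) {O : Set α} (hOc : IsClosed O)
    (hOX : ∀ X : Set α, X.Finite → IsPreconnected (O ∪ X)ᶜ) (hAm : Am ⊆ O) : Bl ⊆ O ∨ Al ⊆ O := by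
  have hXf : {z | z ∈ Z ∧ f z = lev f ∧ f z = dev f}.Finite := hO.hZ.subset fun z hz => hz.1
  refine fr_gen (fr_two h.hAl h.hAm h.hA) (ca_open hO.hd'.fc (fr_neg h.hBl)) (ca_open hO.hd.fc h.hAl) hOc hXf
    (hOX _ hXf) hAm ?_ ?_
  · intro z hz hz'
    exact fr_front hO hcd h hz hz'
  · intro z hz hz'
    have h1 := h.ll z (subset_closure hz') (subset_closure hz)
    have h2 := ca_lt h.hAl hz'
    linarith [h1.2.1]

theorem fr_B (hN : Nice α) (hO : Om2 f Z g g') (hcd : dev f ≤ lev f) {Al Am Bl Bm : Set α} {x y : α}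
    (h : MidT f Z (lev f) (dev f) Al Am Bl Bm x y) {O : Set α} (hOc : IsClosed O)
    (hOX : ∀ X : Set α, X.Finite → IsPreconnected (O ∪ X)ᶜ) (hBm : Bm ⊆ O) : Al ⊆ O ∨ Bl ⊆ O := by
  have hXf : {z | z ∈ Z ∧ f z = lev f ∧ f z = dev f}.Finite := hO.hZ.subset fun z hz => hz.1
  refine fr_gen (fr_two h.hAl h.hAm h.hA) (ca_open hO.hd.fc h.hAl) (ca_open hO.hd'.fc (fr_neg h.hBl)) hOc hXf
    (hOX _ hXf) hBm ?_ ?_
  · intro z hz hz'
    exact fr_front' hO hcd h hz hz'
  · intro z hz hz'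
    have h1 := h.ll z (subset_closure hz) (subset_closure hz')
    have h2 := ca_lt h.hAl hz
    linarith [h1.2.1]

end Pool.Agent.E8N
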