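import Pool.Agent.E8N.T_NA

/-!
# E8N module T_G4

FOUR SETS, (3.3). G i j means: some z ∉ X is in closure (A i) and in closure (B j). All closures minus X are preconnected (A i ⊆ closure (A i) \ X ⊆ closure (A i): IsPreconnected.subset_closure; X is disjoint from A i), closed relative to Xᶜ,
nonempty off X (A i). Xᶜ is preconnected (na_compl) and covered by the four closures.
SPLIT: if {1,2,3,4} = I ∪ J, I, J nonempty, the union over I and the union over J of the closures have a common point outside X (isPreconnected_closed_iff for Xᶜ).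
(a) I = {A i}: the common point is in closure (B j): G i j; or in closure (A i'), i' ≠ i: then by hAA it is in B j for some j, so G i j. So for every i: G i true or G i false. The same for every j.
(b) I = {A i, B j}, J = {A i', B j'} (i' ≠ i, j' ≠ j): common point z in closure (A i) ∩ closure (A i'): it is in some B l: if l = j then G i' j, if l = j' then G i j'; in closure (A i) ∩ closure (B j'): G i j'; in
closure (B j) ∩ closure (A i'): G i' j; in closure (B j) ∩ closure (B j'): it is in some A l: l = i: G i j', l = i': G i' j. So G i j' or G i' j. Hence G t t or G f f, and G t f or G f t.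
(c) Not all four: P := closure (A true) ∪ closure (B true), Q := closure (A false) ∪ closure (B false), U := closure (A true) ∩ closure (B false), V := closure (A false) ∩ closure (B true) in
hN.uni: P \ X preconnected because of G true true; P ∩ Q ⊆ U ∪ V ∪ X: z ∉ X in closure (A true) ∩ closure (A false) is in some B l by hAA, l = false: z ∈ U, l = true: z ∈ V; similarly hBB.
U ∩ V ⊆ X: z ∉ X in all four closures is in some B l by hAA, but B l is disjoint from the closure of the other B (hBd).
From (a), (b), (c): exactly one pair (i,j) fails.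
-/

set_option autoImplicit false

open Metric Set Filter Topology

namespace Pool.Agent.E8N

variable {α : Type*} [MetricSpace α] [ConnectedSpace α]

theorem g4_split (hN : Nice α) {X : Set α} (hX : X.Finite) {C D : Set α} (hC : IsClosed C)
    (hD : IsClosed D) (hcov : ∀ z ∉ X, z ∈ C ∨ z ∈ D) (h1 : ∃ z ∉ X, z ∈ C) (h2 : ∃ z ∉ X, z ∈ D) :
    ∃ z ∉ X, z ∈ C ∧ z ∈ D := by
  have hc := na_compl hN hX
  rw [isPreconnected_closed_iff] at hc
  obtain ⟨z1, hz1, hz1'⟩ := h1
  obtain ⟨z2, hz2, hz2'⟩ := h2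
  obtain ⟨z, hz, hz'⟩ := hc C D hC hD (fun z hz => hcov z hz) ⟨z1, hz1, hz1'⟩ ⟨z2, hz2, hz2'⟩
  exact ⟨z, hz, hz'.1, hz'.2⟩

theorem g4_pre {X A : Set α} (hAc : IsPreconnected A) (hAX : Disjoint A X) :
    IsPreconnected (closure A \ X) := by
  refine hAc.subset_closure ?_ Set.diff_subset
  intro z hz
  exact ⟨subset_closure hz, fun h => Set.disjoint_left.1 hAX hz h⟩

theorem g4_a (hN : Nice α) {X : Set α} (hX : X.Finite) {A B : Bool → Set α}
    (hAn : ∀ i, (A i).Nonempty)
    (hAX : ∀ i, Disjoint (A i) X)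
    (hcov : ∀ z ∉ X, (∃ i, z ∈ closure (A i)) ∨ (∃ j, z ∈ closure (B j)))
    (hAA : ∀ z ∉ X, z ∈ closure (A true) → z ∈ closure (A false) → ∃ j, z ∈ B j) (i : Bool) :
    ∃ j, ∃ z ∉ X, z ∈ closure (A i) ∧ z ∈ closure (B j) := by
  have hne : ∀ i, ∃ z ∉ X, z ∈ closure (A i) := by
    intro i
    obtain ⟨z, hz⟩ := hAn i
    exact ⟨z, fun h => Set.disjoint_left.1 (hAX i) hz h, subset_closure hz⟩
  obtain ⟨z, hz, h1, h2⟩ := g4_split hN hX (C := closure (A i))
    (D := closure (A (!i)) ∪ (closure (B true) ∪ closure (B false))) isClosed_closure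
    (isClosed_closure.union (isClosed_closure.union isClosed_closure))
    (by
      intro z hz
      rcases hcov z hz with ⟨k, hk⟩ | ⟨k, hk⟩
      · by_cases hki : k = i
        · left
          rw [← hki]
          exact hk
        · right
          left
          have h3 : k = !i := by
            cases k <;> cases i <;> simp at hki ⊢
          rw [← h3]
          exact hk
      · right
        right
        cases k
        · right
          exact hk
        · left
          exact hk) (hne i) (by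
      obtain ⟨z, hz, hz'⟩ := hne (!i)
      exact ⟨z, hz, Or.inl hz'⟩)
  rcases h2 with h2 | h2 | h2
  · have h3 : z ∈ closure (A true) ∧ z ∈ closure (A false) := by
      cases i
      · exact ⟨h2, h1⟩
      · exact ⟨h1, h2⟩
    obtain ⟨j, hj⟩ := hAA z hz h3.1 h3.2
    exact ⟨j, z, hz, h1, subset_closure hj⟩
  · exact ⟨true, z, hz, h1, h2⟩
  · exact ⟨false, z, hz, h1, h2⟩

theorem g4_b (hN : Nice α) {X : Set α} (hX : X.Finite) {A B : Bool → Set α}
    (hAn : ∀ i, (A i).Nonempty)
    (hAX : ∀ i, Disjoint (A i) X)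
    (hcov : ∀ z ∉ X, (∃ i, z ∈ closure (A i)) ∨ (∃ j, z ∈ closure (B j)))
    (hAA : ∀ z ∉ X, z ∈ closure (A true) → z ∈ closure (A false) → ∃ j, z ∈ B j)
    (hBB : ∀ z ∉ X, z ∈ closure (B true) → z ∈ closure (B false) → ∃ i, z ∈ A i) (i j : Bool) :
    (∃ z ∉ X, z ∈ closure (A i) ∧ z ∈ closure (B (!j))) ∨
      ∃ z ∉ X, z ∈ closure (A (!i)) ∧ z ∈ closure (B j) := by
  have hne : ∀ i, ∃ z ∉ X, z ∈ closure (A i) := by
    intro i
    obtain ⟨z, hz⟩ := hAn i
    exact ⟨z, fun h => Set.disjoint_left.1 (hAX i) hz h, subset_closure hz⟩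
  obtain ⟨z, hz, h1, h2⟩ := g4_split hN hX (C := closure (A i) ∪ closure (B j))
    (D := closure (A (!i)) ∪ closure (B (!j))) (isClosed_closure.union isClosed_closure)
    (isClosed_closure.union isClosed_closure)
    (by
      intro z hz
      rcases hcov z hz with ⟨k, hk⟩ | ⟨k, hk⟩
      · by_cases hki : k = i
        · left
          left
          rw [← hki]
          exact hk
        · right
          left
          have h3 : k = !i := by
            cases k <;> cases i <;> simp at hki ⊢
          rw [← h3]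
          exact hk
      · by_cases hki : k = j
        · left
          right
          rw [← hki]
          exact hk
        · right
          right
          have h3 : k = !j := by
            cases k <;> cases j <;> simp at hki ⊢
          rw [← h3]
          exact hk) (by
      obtain ⟨z, hz, hz'⟩ := hne i
      exact ⟨z, hz, Or.inl hz'⟩) (by
      obtain ⟨z, hz, hz'⟩ := hne (!i)
      exact ⟨z, hz, Or.inl hz'⟩)
  rcases h1 with h1 | h1 <;> rcases h2 with h2 | h2
  · have h3 : z ∈ closure (A true) ∧ z ∈ closure (A false) := by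
      cases i
      · exact ⟨h2, h1⟩
      · exact ⟨h1, h2⟩
    obtain ⟨l, hl⟩ := hAA z hz h3.1 h3.2
    by_cases hlj : l = j
    · right
      rw [← hlj]
      exact ⟨z, hz, h2, subset_closure hl⟩
    · left
      have h3 : l = !j := by
        cases l <;> cases j <;> simp at hlj ⊢
      rw [← h3]
      exact ⟨z, hz, h1, subset_closure hl⟩
  · left
    exact ⟨z, hz, h1, h2⟩
  · right
    exact ⟨z, hz, h2, h1⟩
  · have h3 : z ∈ closure (B true) ∧ z ∈ closure (B false) := by
      cases j
      · exact ⟨h2, h1⟩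
      · exact ⟨h1, h2⟩
    obtain ⟨l, hl⟩ := hBB z hz h3.1 h3.2
    by_cases hli : l = i
    · left
      rw [← hli]
      exact ⟨z, hz, subset_closure hl, h2⟩
    · right
      have h3 : l = !i := by
        cases l <;> cases i <;> simp at hli ⊢
      rw [← h3]
      exact ⟨z, hz, subset_closure hl, h1⟩

theorem g4_c (hN : Nice α) {X : Set α} (hX : X.Finite) {A B : Bool → Set α}
    (hAc : ∀ i, IsPreconnected (A i)) (hBc : ∀ i, IsPreconnected (B i))
    (hAX : ∀ i, Disjoint (A i) X) (hBX : ∀ i, Disjoint (B i) X)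
    (hBd : ∀ i j, i ≠ j → Disjoint (B i) (closure (B j)))
    (hcov : ∀ z ∉ X, (∃ i, z ∈ closure (A i)) ∨ (∃ j, z ∈ closure (B j)))
    (hAA : ∀ z ∉ X, z ∈ closure (A true) → z ∈ closure (A false) → ∃ j, z ∈ B j)
    (hBB : ∀ z ∉ X, z ∈ closure (B true) → z ∈ closure (B false) → ∃ i, z ∈ A i)
    (hall : ∀ i j, ∃ z ∉ X, z ∈ closure (A i) ∧ z ∈ closure (B j)) : False := by
  have hpre : ∀ i, IsPreconnected ((closure (A i) ∪ closure (B i)) \ X) := by
    intro i
    obtain ⟨z, hz, h1, h2⟩ := hall i i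
    rw [Set.union_diff_distrib]
    exact IsPreconnected.union z ⟨h1, hz⟩ ⟨h2, hz⟩ (g4_pre (hAc i) (hAX i))
      (g4_pre (hBc i) (hBX i))
  refine hN.uni X hX (closure (A true) ∪ closure (B true)) (closure (A false) ∪ closure (B false))
    (closure (A true) ∩ closure (B false)) (closure (A false) ∩ closure (B true))
    (isClosed_closure.union isClosed_closure) (isClosed_closure.union isClosed_closure)
    (isClosed_closure.inter isClosed_closure) (isClosed_closure.inter isClosed_closure)
    ?_ (hpre true) (hpre false) ?_ ?_ ?_ ?_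
  · ext z
    simp only [Set.mem_union, Set.mem_univ, iff_true]
    by_cases hz : z ∈ X
    · exact Or.inr hz
    · left
      rcases hcov z hz with ⟨k, hk⟩ | ⟨k, hk⟩
      · cases k
        · exact Or.inr (Or.inl hk)
        · exact Or.inl (Or.inl hk)
      · cases k
        · exact Or.inr (Or.inr hk)
        · exact Or.inl (Or.inr hk)
  · rintro z ⟨h1, h2⟩
    by_cases hz : z ∈ X
    · exact Or.inr hz
    · left
      rcases h1 with h1 | h1 <;> rcases h2 with h2 | h2
      · obtain ⟨l, hl⟩ := hAA z hz h1 h2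
        cases l
        · exact Or.inl ⟨h1, subset_closure hl⟩
        · exact Or.inr ⟨h2, subset_closure hl⟩
      · exact Or.inl ⟨h1, h2⟩
      · exact Or.inr ⟨h2, h1⟩
      · obtain ⟨l, hl⟩ := hBB z hz h1 h2
        cases l
        · exact Or.inr ⟨subset_closure hl, h1⟩
        · exact Or.inl ⟨subset_closure hl, h2⟩
  · rintro z ⟨⟨h1, h2⟩, h3, h4⟩
    by_contra hz
    obtain ⟨l, hl⟩ := hAA z hz h1 h3
    cases l
    · exact Set.disjoint_left.1 (hBd false true (by decide)) hl h4
    · exact Set.disjoint_left.1 (hBd true false (by decide)) hl h2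
  · obtain ⟨z, hz, h1, h2⟩ := hall true false
    exact ⟨z, ⟨h1, h2⟩, Or.inl h1, Or.inr h2, hz⟩
  · obtain ⟨z, hz, h1, h2⟩ := hall false true
    exact ⟨z, ⟨h1, h2⟩, Or.inr h2, Or.inl h1, hz⟩

theorem g4_logic (G : Bool → Bool → Prop) (ha : ∀ i, ∃ j, G i j) (ha' : ∀ j, ∃ i, G i j)
    (hb : ∀ i j, G i (!j) ∨ G (!i) j) (hc : ¬ ∀ i j, G i j) :
    ∃ i j, ¬ G i j ∧ ∀ i' j', (i', j') ≠ (i, j) → G i' j' := by
  push Not at hc
  obtain ⟨i, j, hij⟩ := hc
  refine ⟨i, j, hij, ?_⟩
  have h1 : G i (!j) := by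
    obtain ⟨k, hk⟩ := ha i
    by_cases hkj : k = j
    · rw [hkj] at hk
      exact absurd hk hij
    · have h3 : k = !j := by
        cases k <;> cases j <;> simp at hkj ⊢
      rw [← h3]
      exact hk
  have h2 : G (!i) j := by
    obtain ⟨k, hk⟩ := ha' j
    by_cases hki : k = i
    · rw [hki] at hk
      exact absurd hk hij
    · have h3 : k = !i := by
        cases k <;> cases i <;> simp at hki ⊢
      rw [← h3]
      exact hk
  have h3 : G (!i) (!j) := by
    rcases hb i (!j) with h | h
    · rw [Bool.not_not] at h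
      exact absurd h hij
    · exact h
  intro i' j' hne
  cases i <;> cases j <;> cases i' <;> cases j' <;> simp_all

theorem g4 (hN : Nice α) {X : Set α} (hX : X.Finite) {A B : Bool → Set α}
    (hAc : ∀ i, IsPreconnected (A i)) (hBc : ∀ i, IsPreconnected (B i))
    (hAn : ∀ i, (A i).Nonempty) (hBn : ∀ i, (B i).Nonempty)
    (hAX : ∀ i, Disjoint (A i) X) (hBX : ∀ i, Disjoint (B i) X)
    (hAd : ∀ i j, i ≠ j → Disjoint (A i) (closure (A j))) (hBd : ∀ i j, i ≠ j → Disjoint (B i) (closure (B j)))
    (hcov : ∀ z ∉ X, (∃ i, z ∈ closure (A i)) ∨ (∃ j, z ∈ closure (B j)))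
    (hAA : ∀ z ∉ X, z ∈ closure (A true) → z ∈ closure (A false) → ∃ j, z ∈ B j)
    (hBB : ∀ z ∉ X, z ∈ closure (B true) → z ∈ closure (B false) → ∃ i, z ∈ A i) :
    ∃ i j, (∀ z ∉ X, z ∈ closure (A i) → z ∉ closure (B j)) ∧
      ∀ i' j', (i', j') ≠ (i, j) → ∃ z ∉ X, z ∈ closure (A i') ∧ z ∈ closure (B j') := by
  obtain ⟨G, hG⟩ : ∃ G : Bool → Bool → Prop,
      G = fun i j => ∃ z ∉ X, z ∈ closure (A i) ∧ z ∈ closure (B j) := ⟨_, rfl⟩
  have ha : ∀ i, ∃ j, G i j := by
    intro i
    rw [hG]
    exact g4_a hN hX hAn hAX hcov hAA i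
  have ha' : ∀ j, ∃ i, G i j := by
    intro j
    rw [hG]
    obtain ⟨i, z, hz, h1, h2⟩ := g4_a hN hX hBn hBX (fun z hz => (hcov z hz).symm) hBB j
    exact ⟨i, z, hz, h2, h1⟩
  have hb : ∀ i j, G i (!j) ∨ G (!i) j := by
    intro i j
    rw [hG]
    exact g4_b hN hX hAn hAX hcov hAA hBB i j
  have hc : ¬ ∀ i j, G i j := by
    intro hall
    rw [hG] at hall
    exact g4_c hN hX hAc hBc hAX hBX hBd hcov hAA hBB hall
  obtain ⟨i, j, h1, h2⟩ := g4_logic G ha ha' hb hc
  refine ⟨i, j, ?_, ?_⟩
  · intro z hz hz1 hz2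
    apply h1
    rw [hG]
    exact ⟨z, hz, hz1, hz2⟩
  · intro i' j' hne
    have h3 := h2 i' j' hne
    rw [hG] at h3
    exact h3

end Pool.Agent.E8N
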