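import Pool.Agent.E8N.Tr

/-!
# E8N module T_X3

THE FAMILY. `x3_fam`: FS is continuous (norm), 1-Lipschitz in p (ZSurf.F_lip); gS s p x = ⟨gm K s p x, ZGm.gm_mem⟩ (dif_pos), continuous by ZGm.gm_cont (Continuous.subtype_mk), gm_zero; dec, lt: ZGm.gm_dec (interior K ⊆ K): F(gm)^2 ≤ F^2 - (2s - s^2)|τ|^2, F ≥ 0, strict if s > 0 and τ ≠ 0
(2s - s^2 ≥ s > 0). Zc: ZGm.tau_cont. `x3_fam'`: s₀, κ from ZGp.gp_inc, gS' with this s₀: s₀ * s ∈ [0, s₀]. `x3_crit`: Crit K p = val '' ZS.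
-/

set_option autoImplicit false

open Metric Set Filter Topology

namespace Pool.Agent.E8N.TY

variable {E : Type*} [NormedAddCommGroup E] [InnerProductSpace ℝ E] [FiniteDimensional ℝ E]
variable {K : Set E} {ρ R : ℝ}


theorem x3_gS (hK : Body K ρ R) (s : ℝ) (p : ↥(interior K)) (x : ↥(S K)) :
    gS K s p x = ⟨gm K s (p : E) (x : E), ZGm.gm_mem hK x.2⟩ := by
  unfold gS
  exact dif_pos _

theorem x3_gS' (hK : Body K ρ R) (s₀ s : ℝ) (p : ↥(interior K)) (x : ↥(S K)) :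
    gS' K s₀ s p x = ⟨gp K (s₀ * s) (p : E) (x : E), ZGp.gp_mem hK x.2⟩ := by
  unfold gS'
  exact dif_pos _

theorem x3_Fc : Continuous fun z : ↥(interior K) × ↥(S K) => FS K z.1 z.2 := by
  unfold FS F
  fun_prop

theorem x3_Fl (p q : ↥(interior K)) (x : ↥(S K)) : |FS K p x - FS K q x| ≤ dist p q := by
  rw [Subtype.dist_eq, dist_eq_norm]
  exact ZSurf.F_lip (p : E) (q : E) (x : E)

theorem x3_Zc (hK : Body K ρ R) : IsClosed {z : ↥(interior K) × ↥(S K) | z.2 ∈ ZS K z.1} := by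
  have h1 : Continuous fun z : ↥(interior K) × ↥(S K) => tau K (z.1 : E) (z.2 : E) :=
    (ZGm.tau_cont hK).comp (f := fun z : ↥(interior K) × ↥(S K) => ((z.1 : E), (z.2 : E))) (by fun_prop)
  exact isClosed_eq h1 continuous_const

theorem x3_fam (hK : Body K ρ R) : Fam (FS K) (ZS K) (gS K) where
  Fc := x3_Fc
  Fl := x3_Fl
  gc := by
    have he : (fun z : ℝ × ↥(interior K) × ↥(S K) => gS K z.1 z.2.1 z.2.2) =
        fun z => ⟨gm K z.1 (z.2.1 : E) (z.2.2 : E), ZGm.gm_mem hK z.2.2.2⟩ := by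
      funext z
      exact x3_gS hK _ _ _
    rw [he]
    exact ((ZGm.gm_cont hK).comp (f := fun z : ℝ × ↥(interior K) × ↥(S K) => (z.1, (z.2.1 : E), (z.2.2 : E)))
      (by fun_prop)).subtype_mk _
  g0 := fun p x => by
    rw [x3_gS hK]
    exact Subtype.ext (ZGm.gm_zero hK x.2)
  dec := fun p x s h0 h1 => by
    rw [x3_gS hK]
    show F (p : E) (gm K s (p : E) (x : E)) ≤ F (p : E) (x : E)
    have h := ZGm.gm_dec hK x.2 (interior_subset p.2) h0 h1
    have h2 : 0 ≤ (2 * s - s ^ 2) * ‖tau K (p : E) (x : E)‖ ^ 2 :=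
      mul_nonneg (by nlinarith) (sq_nonneg _)
    refine (pow_le_pow_iff_left₀ (norm_nonneg _) (norm_nonneg _) two_ne_zero).1 ?_
    show F (p : E) (gm K s (p : E) (x : E)) ^ 2 ≤ F (p : E) (x : E) ^ 2
    linarith
  lt := fun p x s h0 h1 hx => by
    rw [x3_gS hK]
    show F (p : E) (gm K s (p : E) (x : E)) < F (p : E) (x : E)
    have h := ZGm.gm_dec hK x.2 (interior_subset p.2) h0.le h1
    have ht : 0 < ‖tau K (p : E) (x : E)‖ := norm_pos_iff.2 hx
    have h2 : 0 < (2 * s - s ^ 2) * ‖tau K (p : E) (x : E)‖ ^ 2 :=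
      mul_pos (by nlinarith) (by positivity)
    refine (pow_lt_pow_iff_left₀ (norm_nonneg _) (norm_nonneg _) two_ne_zero).1 ?_
    show F (p : E) (gm K s (p : E) (x : E)) ^ 2 < F (p : E) (x : E) ^ 2
    linarith
  Zc := x3_Zc hK

theorem x3_fam' (hK : Body K ρ R) : ∃ s₀ : ℝ, Fam (fun p z => - FS K p z) (ZS K) (gS' K s₀) := by
  obtain ⟨s₀, hs₀, κ, hκ, hinc⟩ := ZGp.gp_inc hK
  refine ⟨s₀, ?_, ?_, ?_, ?_, ?_, ?_, x3_Zc hK⟩
  · exact x3_Fc.neg
  · intro p q x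
    have h := x3_Fl p q x
    rw [abs_sub_comm] at h
    have he : - FS K p x - - FS K q x = FS K q x - FS K p x := by ring
    show |- FS K p x - - FS K q x| ≤ dist p q
    rw [he]
    exact h
  · have he : (fun z : ℝ × ↥(interior K) × ↥(S K) => gS' K s₀ z.1 z.2.1 z.2.2) =
        fun z => ⟨gp K (s₀ * z.1) (z.2.1 : E) (z.2.2 : E), ZGp.gp_mem hK z.2.2.2⟩ := by
      funext z
      exact x3_gS' hK _ _ _ _
    rw [he]
    exact ((ZGp.gp_cont hK).comp (f := fun z : ℝ × ↥(interior K) × ↥(S K) => (s₀ * z.1, (z.2.1 : E), (z.2.2 : E)))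
      (by fun_prop)).subtype_mk _
  · intro p x
    rw [x3_gS' hK]
    apply Subtype.ext
    show gp K (s₀ * 0) (p : E) (x : E) = (x : E)
    rw [mul_zero]
    exact ZGp.gp_zero hK x.2
  · intro p x s h0 h1
    rw [x3_gS' hK]
    show - F (p : E) (gp K (s₀ * s) (p : E) (x : E)) ≤ - F (p : E) (x : E)
    have h := hinc (s₀ * s) (by positivity) (by nlinarith) (p : E) (interior_subset p.2) (x : E) x.2
    have h2 : 0 ≤ κ * (s₀ * s) * ‖tau K (p : E) (x : E)‖ ^ 2 := by positivity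
    linarith
  · intro p x s h0 h1 hx
    rw [x3_gS' hK]
    show - F (p : E) (gp K (s₀ * s) (p : E) (x : E)) < - F (p : E) (x : E)
    have h := hinc (s₀ * s) (by positivity) (by nlinarith) (p : E) (interior_subset p.2) (x : E) x.2
    have ht : 0 < ‖tau K (p : E) (x : E)‖ := norm_pos_iff.2 hx
    have h2 : 0 < κ * (s₀ * s) * ‖tau K (p : E) (x : E)‖ ^ 2 := by positivity
    linarith

theorem x3_crit (p : ↥(interior K)) : Crit K (p : E) = Subtype.val '' ZS K p := by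
  ext x
  constructor
  · rintro ⟨h1, h2⟩
    exact ⟨⟨x, h1⟩, h2, rfl⟩
  · rintro ⟨y, hy, rfl⟩
    exact ⟨y.2, hy⟩

theorem x3_fin (h7 : AtMost7 K) (p : ↥(interior K)) : (ZS K p).Finite ∧ (ZS K p).ncard ≤ 7 := by
  have h := h7 (p : E) p.2
  rw [x3_crit p, Set.ncard_image_of_injective _ Subtype.val_injective] at h
  exact ⟨h.1.of_finite_image Subtype.val_injective.injOn, h.2⟩

end Pool.Agent.E8N.TY
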