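import Pool.Agent.E8N.Top2
import Pool.Agent.E8N.ZGp

/-!
# E8N: the family on the subtype `↥(S K)` with parameters in `↥(interior K)`, definitions
-/

set_option autoImplicit false

open Metric Set Filter Topology

namespace Pool.Agent.E8N

noncomputable section

variable {E : Type*} [NormedAddCommGroup E] [InnerProductSpace ℝ E]

/-- `F` on the subtypes -/
def FS (K : Set E) (p : ↥(interior K)) (z : ↥(S K)) : ℝ := F (p : E) (z : E)

/-- critical points as points of the subtype -/
def ZS (K : Set E) (p : ↥(interior K)) : Set ↥(S K) := {z | tau K (p : E) (z : E) = 0}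

open Classical in
/-- descending step on the subtype -/
def gS (K : Set E) (s : ℝ) (p : ↥(interior K)) (x : ↥(S K)) : ↥(S K) :=
  if h : gm K s (p : E) (x : E) ∈ S K then ⟨gm K s (p : E) (x : E), h⟩ else x

open Classical in
/-- ascending step on the subtype -/
def gS' (K : Set E) (s₀ : ℝ) (s : ℝ) (p : ↥(interior K)) (x : ↥(S K)) : ↥(S K) :=
  if h : gp K (s₀ * s) (p : E) (x : E) ∈ S K then ⟨gp K (s₀ * s) (p : E) (x : E), h⟩ else x

/-- the two minima at `p ∈ Om K`: `lo` the global one (same as `Mins` of the interface file) -/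
structure MinsE (K : Set E) (p lo hi : E) : Prop where
  lo_mem : lo ∈ S K
  hi_mem : hi ∈ S K
  lo_min : F p lo = mn K p
  sepd : Sepd (S K) (F p) lo hi
  hi_min : ∀ z ∈ S K, pass (S K) (F p) hi z < cl K p → F p hi ≤ F p z
  hi_crit : hi ∈ Crit K p
  lo_crit : lo ∈ Crit K p

end

end Pool.Agent.E8N
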