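import Pool.Agent.E8N.T_X1
import Pool.Agent.E8N.Tr

/-!
# E8N module T_X4

LEVELS. `x4_cl`: the two sets of which the sSup is taken are equal by T_X1 (x1_sepd, x1_pass with X = S K, f = F p). `x4_dl`: the same for -F p. `x4_two` etc: x1_two with X = S K. `x4_sub`, `x4_sup`: sets.
-/

set_option autoImplicit false

open Metric Set Filter Topology

namespace Pool.Agent.E8N.TY

variable {E : Type*} [NormedAddCommGroup E] [InnerProductSpace ℝ E] [FiniteDimensional ℝ E]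
variable {K : Set E} {ρ R : ℝ}


theorem x4_set (f : E → ℝ) :
    {t : ℝ | ∃ x ∈ S K, ∃ y ∈ S K, Sepd (S K) f x y ∧ t = pass (S K) f x y} =
      {t : ℝ | ∃ x y : ↥(S K), Sepd (univ : Set ↥(S K)) (fun z : ↥(S K) => f z) x y ∧
        t = pass (univ : Set ↥(S K)) (fun z : ↥(S K) => f z) x y} := by
  ext t
  constructor
  · rintro ⟨x, hx, y, hy, h1, h2⟩
    exact ⟨⟨x, hx⟩, ⟨y, hy⟩, (x1_sepd (S K) f ⟨x, hx⟩ ⟨y, hy⟩).1 h1,
      h2.trans (x1_pass (S K) f ⟨x, hx⟩ ⟨y, hy⟩)⟩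
  · rintro ⟨x, y, h1, h2⟩
    exact ⟨x, x.2, y, y.2, (x1_sepd (S K) f x y).2 h1, h2.trans (x1_pass (S K) f x y).symm⟩

theorem x4_cl (p : ↥(interior K)) : cl K (p : E) = lev (FS K p) := by
  unfold cl lev
  rw [x4_set (K := K) (F (p : E))]
  rfl

theorem x4_dl (p : ↥(interior K)) : dl K (p : E) = dev (FS K p) := by
  unfold dl dev lev
  rw [x4_set (K := K) (fun x => - F (p : E) x)]
  rfl

theorem x4_two (p : ↥(interior K)) : Two (S K) (F (p : E)) ↔ Two (univ : Set ↥(S K)) (FS K p) :=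
  x1_two (S K) (F (p : E))

theorem x4_two' (p : ↥(interior K)) :
    Two (S K) (fun x => - F (p : E) x) ↔ Two (univ : Set ↥(S K)) (fun z => - FS K p z) :=
  x1_two (S K) (fun x => - F (p : E) x)

theorem x4_three (p : ↥(interior K)) : Three (S K) (F (p : E)) ↔ Three (univ : Set ↥(S K)) (FS K p) :=
  x1_three (S K) (F (p : E))

theorem x4_three' (p : ↥(interior K)) :
    Three (S K) (fun x => - F (p : E) x) ↔ Three (univ : Set ↥(S K)) (fun z => - FS K p z) :=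
  x1_three (S K) (fun x => - F (p : E) x)

theorem x4_sub (p : ↥(interior K)) (t : ℝ) : sub K (p : E) t = Subtype.val '' {z : ↥(S K) | FS K p z < t} := by
  ext x
  constructor
  · rintro ⟨h1, h2⟩
    exact ⟨⟨x, h1⟩, h2, rfl⟩
  · rintro ⟨z, hz, rfl⟩
    exact ⟨z.2, hz⟩

theorem x4_sup (p : ↥(interior K)) (t : ℝ) : sup K (p : E) t = Subtype.val '' {z : ↥(S K) | t < FS K p z} := by
  ext x
  constructor
  · rintro ⟨h1, h2⟩
    exact ⟨⟨x, h1⟩, h2, rfl⟩
  · rintro ⟨z, hz, rfl⟩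
    exact ⟨z.2, hz⟩

end Pool.Agent.E8N.TY
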