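import Pool.Agent.E8N.T_X2
import Pool.Agent.E8N.T_X3
import Pool.Agent.E8N.T_X4
import Pool.Agent.E8N.LPass
import Pool.Agent.E8N.SN

/-!
# E8N module T_K0

GENERIC POINTS ON THE SUBTYPE. A pass s of FS (LPass): components A', A'' of {z | FS p z < FS p s} with s in the closures; val '' A', val '' A'' are different components of sub K p (F p s) (x2_iff', x4_sub), s is in their closures (x2_cl; S K is compact, so closed). For - FS: {z | -FS z < - FS s} = {z | FS s < FS z},
x4_sup. Then LPass.not_both, LPass.lower_two, LPass.upper_two.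
-/

set_option autoImplicit false

open Metric Set Filter Topology

namespace Pool.Agent.E8N.TY

variable {E : Type*} [NormedAddCommGroup E] [InnerProductSpace ℝ E] [FiniteDimensional ℝ E]
variable {K : Set E} {ρ R : ℝ}


theorem k0_lo {p : ↥(interior K)} {s : ↥(S K)} {A : Set ↥(S K)}
    (h : IsComp {z | FS K p z < FS K p s} A) :
    IsComp (sub K (p : E) (F (p : E) (s : E))) (Subtype.val '' A) := by
  have h1 := x4_sub p (FS K p s)
  have h2 : FS K p s = F (p : E) (s : E) := rfl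
  rw [← h2, h1]
  exact x2_iff'.2 h

theorem k0_hi {p : ↥(interior K)} {s : ↥(S K)} {A : Set ↥(S K)}
    (h : IsComp {z | - FS K p z < - FS K p s} A) :
    IsComp (sup K (p : E) (F (p : E) (s : E))) (Subtype.val '' A) := by
  have h1 := x4_sup p (FS K p s)
  have h2 : FS K p s = F (p : E) (s : E) := rfl
  have h3 : {z : ↥(S K) | - FS K p z < - FS K p s} = {z : ↥(S K) | FS K p s < FS K p z} := by
    ext z
    simp only [mem_setOf_eq, neg_lt_neg_iff]
  rw [h3] at h
  rw [← h2, h1]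
  exact x2_iff'.2 h

theorem k0_cl {s : ↥(S K)} {A : Set ↥(S K)} (h : s ∈ closure A) :
    (s : E) ∈ closure (Subtype.val '' A) :=
  image_closure_subset_closure_image continuous_subtype_val (Set.mem_image_of_mem _ h)

theorem k0_ne {A B : Set ↥(S K)} (h : A ≠ B) : (Subtype.val '' A : Set E) ≠ Subtype.val '' B :=
  fun hh => h (Set.image_injective.2 Subtype.val_injective hh)

theorem k0_crit {p : ↥(interior K)} {s : ↥(S K)} (hs : s ∈ ZS K p) : (s : E) ∈ Crit K (p : E) :=
  ⟨s.2, hs⟩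

theorem k0_not_both (hK : Body K ρ R) (hd : 4 ≤ Module.finrank ℝ E) {p : ↥(interior K)} (hg : Generic K (p : E))
    {s : ↥(S K)} (hs : s ∈ ZS K p) (h1 : LPass (FS K p) s) (h2 : LPass (fun z => - FS K p z) s) : False := by
  obtain ⟨A, A', hA, hA', hne, hc, hc'⟩ := h1
  obtain ⟨B, B', hB, hB', kne, kc, kc'⟩ := h2
  exact LPass.not_both hK hd hg (k0_crit hs) (k0_lo hA) (k0_lo hA') (k0_ne hne) (k0_cl hc) (k0_cl hc')
    (k0_hi hB) (k0_hi hB') (k0_ne kne) (k0_cl kc) (k0_cl kc')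

theorem k0_touch (hK : Body K ρ R) {p : ↥(interior K)} (hg : Generic K (p : E)) {s : ↥(S K)} (hs : s ∈ ZS K p)
    (A₁ A₂ A₃ : Set ↥(S K)) (h1 : IsComp {z | FS K p z < FS K p s} A₁) (h2 : IsComp {z | FS K p z < FS K p s} A₂)
    (h3 : IsComp {z | FS K p z < FS K p s} A₃) (c1 : s ∈ closure A₁) (c2 : s ∈ closure A₂) (c3 : s ∈ closure A₃)
    (hne : A₁ ≠ A₂) : A₃ = A₁ ∨ A₃ = A₂ := by
  rcases LPass.lower_two hK hg (k0_crit hs) (k0_lo h1) (k0_lo h2) (k0_lo h3) (k0_ne hne) (k0_cl c1) (k0_cl c2)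
    (k0_cl c3) with h | h
  · exact Or.inl (Set.image_injective.2 Subtype.val_injective h)
  · exact Or.inr (Set.image_injective.2 Subtype.val_injective h)

theorem k0_touch' (hK : Body K ρ R) {p : ↥(interior K)} (hg : Generic K (p : E)) {s : ↥(S K)} (hs : s ∈ ZS K p)
    (A₁ A₂ A₃ : Set ↥(S K)) (h1 : IsComp {z | - FS K p z < - FS K p s} A₁)
    (h2 : IsComp {z | - FS K p z < - FS K p s} A₂) (h3 : IsComp {z | - FS K p z < - FS K p s} A₃)
    (c1 : s ∈ closure A₁) (c2 : s ∈ closure A₂) (c3 : s ∈ closure A₃) (hne : A₁ ≠ A₂) : A₃ = A₁ ∨ A₃ = A₂ := by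
  rcases LPass.upper_two hK hg (k0_crit hs) (k0_hi h1) (k0_hi h2) (k0_hi h3) (k0_ne hne) (k0_cl c1) (k0_cl c2)
    (k0_cl c3) with h | h
  · exact Or.inl (Set.image_injective.2 Subtype.val_injective h)
  · exact Or.inr (Set.image_injective.2 Subtype.val_injective h)

end Pool.Agent.E8N.TY
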