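import Pool.Agent.E8N.T_G4
import Pool.Agent.E8N.T_OB

/-!
# E8N module T_MA

EXISTENCE OF THE LEAF / MIDDLE STRUCTURE. c = lev f, d = dev f ≤ c. A1, A2 from oa_two for f; B1, B2 from oa_two for -f (sup_eq'). X := {z ∈ Z | f z = c ∧ f z = d}. Apply g4 with A := fun b => cond b A1 A2 etc.
hAX: f < c on A, f > d on B. hAd: ca_disj_cl. hcov: z ∉ X: if f z < c then z ∈ A1 ∪ A2; if f z > d then z ∈ B1 ∪ B2; else c ≤ f z ≤ d ≤ c, so f z = c = d and z ∉ Z, cb_exists. hAA: cb_inter: z ∈ Z, f z = c; z ∉ X, so f z ≠ d, so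
d < c = f z (d ≤ c) and z ∈ {d < f}. hBB: cb_inter for -f: z ∈ Z and f z = d, z ∉ X, so f z < c. Output (i,j): Al = A i, Am = the other, Bl = B j, Bm = the other. ll: the first property of g4 gives z ∈ X. lm, mm, ml: the second.
x := the minimum on Am (cc_min), y := the minimum of -f on Bm.
-/

set_option autoImplicit false

open Metric Set Filter Topology

namespace Pool.Agent.E8N

variable {α : Type*} [MetricSpace α] [CompactSpace α] [ConnectedSpace α] [LocallyPathConnectedSpace α]
variable {f : α → ℝ} {Z : Set α} {g g' : ℝ → α → α}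


theorem ma_exists (hN : Nice α) (hO : Om2 f Z g g') (hcd : dev f ≤ lev f) :
    ∃ Al Am Bl Bm x y, MidT f Z (lev f) (dev f) Al Am Bl Bm x y := by
  obtain ⟨A1, A2, hA1, hA2, hAne, hAcov⟩ := oa_two hO.hd.fc hO.h2 hO.h3
  obtain ⟨B1, B2, hB1, hB2, hBne, hBcov⟩ := oa_two hO.hd'.fc hO.h2' hO.h3'
  set A : Bool → Set α := fun b => cond b A1 A2 with hAdef
  set B : Bool → Set α := fun b => cond b B1 B2 with hBdef
  have hA : ∀ i, IsComp {z | f z < lev f} (A i) := by
    intro i; cases i
    · exact hA2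
    · exact hA1
  have hB : ∀ i, IsComp {z | (fun z => - f z) z < lev (fun z => - f z)} (B i) := by
    intro i; cases i
    · exact hB2
    · exact hB1
  have hBs : ∀ i, IsComp {z | dev f < f z} (B i) := by
    intro i; rw [sup_eq']; exact hB i
  have hAn2 : ∀ i, A i ≠ A (!i) := by
    intro i; cases i
    · exact hAne.symm
    · exact hAne
  have hBn2 : ∀ i, B i ≠ B (!i) := by
    intro i; cases i
    · exact hBne.symm
    · exact hBne
  have hAcov2 : ∀ i, {z | f z < lev f} = A i ∪ A (!i) := by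
    intro i; cases i
    · rw [hAcov]; exact Set.union_comm A1 A2
    · exact hAcov
  have hBcov2 : ∀ i, {z | dev f < f z} = B i ∪ B (!i) := by
    intro i; rw [sup_eq', hBcov]; cases i
    · exact Set.union_comm B1 B2
    · rfl
  have hX : {z | z ∈ Z ∧ f z = lev f ∧ f z = dev f}.Finite := hO.hZ.subset (fun z hz => hz.1)
  have hAlt : ∀ i, ∀ z ∈ A i, f z < lev f := fun i z hz => ca_lt (hA i) hz
  have hBgt : ∀ i, ∀ z ∈ B i, dev f < f z := by
    intro i z hz
    have h1 := ca_lt (hB i) hz
    unfold dev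
    linarith
  have hmemA : ∀ z, f z < lev f → ∃ i, z ∈ A i := by
    intro z hz
    have h1 : z ∈ A true ∪ A (!true) := by rw [← hAcov2 true]; exact hz
    rcases h1 with h1 | h1
    · exact ⟨_, h1⟩
    · exact ⟨_, h1⟩
  have hmemB : ∀ z, dev f < f z → ∃ i, z ∈ B i := by
    intro z hz
    have h1 : z ∈ B true ∪ B (!true) := by rw [← hBcov2 true]; exact hz
    rcases h1 with h1 | h1
    · exact ⟨_, h1⟩
    · exact ⟨_, h1⟩
  have hne : ∀ (i j : Bool), i ≠ j → A i ≠ A j := by
    intro i j hij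
    cases i <;> cases j
    · exact absurd rfl hij
    · exact hAne.symm
    · exact hAne
    · exact absurd rfl hij
  have hneB : ∀ (i j : Bool), i ≠ j → B i ≠ B j := by
    intro i j hij
    cases i <;> cases j
    · exact absurd rfl hij
    · exact hBne.symm
    · exact hBne
    · exact absurd rfl hij
  obtain ⟨i, j, hno, hall⟩ := g4 hN hX (A := A) (B := B) (fun i => (ca_conn (hA i)).1)
    (fun i => (ca_conn (hB i)).1) (fun i => (ca_conn (hA i)).2) (fun i => (ca_conn (hB i)).2)
    (fun i => Set.disjoint_left.2 fun z hz hz' => absurd hz'.2.1 (hAlt i z hz).ne)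
    (fun i => Set.disjoint_left.2 fun z hz hz' => absurd hz'.2.2 (hBgt i z hz).ne')
    (fun i j hij => ca_disj_cl hO.hd.fc (hA i) (hA j) (hne i j hij))
    (fun i j hij => ca_disj_cl hO.hd'.fc (hB i) (hB j) (hneB i j hij))
    (by
      intro z hz
      by_cases h1 : f z < lev f
      · obtain ⟨i, hi⟩ := hmemA z h1
        exact Or.inl ⟨i, subset_closure hi⟩
      by_cases h2 : dev f < f z
      · obtain ⟨i, hi⟩ := hmemB z h2
        exact Or.inr ⟨i, subset_closure hi⟩
      rw [not_lt] at h1 h2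
      have h3 : f z = lev f := le_antisymm (h2.trans hcd) h1
      have h4 : f z = dev f := le_antisymm h2 (hcd.trans h1)
      have h5 : z ∉ Z := fun h => hz ⟨h, h3, h4⟩
      obtain ⟨A', hA', hz'⟩ := cb_exists hO.hd h5 h3
      obtain ⟨w, hw⟩ := (ca_conn hA').2
      obtain ⟨i, hi⟩ := hmemA w (ca_lt hA' hw)
      have h6 : A' = A i := by
        by_contra h7
        exact Set.disjoint_left.1 (ca_disj hA' (hA i) h7) hw hi
      exact Or.inl ⟨i, by rw [← h6]; exact hz'⟩)
    (by
      intro z hz h1 h2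
      obtain ⟨h3, h4⟩ := cb_inter hO.hd (hA true) (hA false) (hne true false (by decide)) h1 h2
      have h5 : f z ≠ dev f := fun h => hz ⟨h3, h4, h⟩
      exact hmemB z (lt_of_le_of_ne (by rw [h4]; exact hcd) (Ne.symm h5)))
    (by
      intro z hz h1 h2
      obtain ⟨h3, h4⟩ := cb_inter hO.hd' (hB true) (hB false) (hneB true false (by decide)) h1 h2
      have h4' : f z = dev f := by
        unfold dev
        rw [← h4, neg_neg]
      have h5 : f z ≠ lev f := fun h => hz ⟨h3, h, h4'⟩
      exact hmemA z (lt_of_le_of_ne (by rw [h4']; exact hcd) h5))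
  obtain ⟨x, hx, _, _, hxm⟩ := cc_min hO.hd (hA (!i))
  obtain ⟨y, hy, _, _, hym⟩ := cc_min hO.hd' (hB (!j))
  refine ⟨A i, A (!i), B j, B (!j), x, y, ?_⟩
  refine { hAl := hA i, hAm := hA (!i), hA := hAn2 i, cA := hAcov2 i, hBl := hBs j, hBm := hBs (!j),
           hB := hBn2 j, cB := hBcov2 j, ll := ?_, lm := ?_, mm := ?_, ml := ?_, hx := hx, hx' := hxm,
           hy := hy, hy' := ?_ }
  · intro z hz1 hz2
    by_contra h
    exact hno z h hz1 hz2
  · obtain ⟨z, h1, h2, h3⟩ := hall i (!j) (by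
      intro h
      have := congrArg Prod.snd h
      cases j <;> simp at this)
    exact ⟨z, h2, h3, h1⟩
  · obtain ⟨z, h1, h2, h3⟩ := hall (!i) (!j) (by
      intro h
      have := congrArg Prod.snd h
      cases j <;> simp at this)
    exact ⟨z, h2, h3, h1⟩
  · obtain ⟨z, h1, h2, h3⟩ := hall (!i) j (by
      intro h
      have := congrArg Prod.fst h
      cases i <;> simp at this)
    exact ⟨z, h2, h3, h1⟩
  · intro z hz
    have := hym z hz
    linarith

end Pool.Agent.E8N
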