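import Pool.Agent.E8N.T_MA

/-!
# E8N module T_MB

FACTS. c = lev f, d = dev f ≤ c. `mb_x`: x is a minimum on the component Am: cc_crit; unique by ce_sepd + oa_no. `mb_y`: the same for -f (sup_eq').
`mb_min`: m := the unique minimum on Al (cc_min), and x on Am; if f m ≤ f x then (lo,hi) = (m,x) else (x,m): MinsT (global minimum: all points with f < c are in Al ∪ Am; Sepd: pb_sepd; hi_min: pass hi z < c means z in the component of hi).
`mb_max`: the same for -f. `mb_meet`: if d < c then Al ∩ Bm and Am ∩ Bm and Am ∩ Bl are nonempty: z ∈ closure Al ∩ closure Bm; if f z < c then z ∈ Al (ca_cl_mem), open, meets Bm; otherwise f z ≥ c > d so z ∈ Bm (ca_cl_mem for -f), open,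
meets Al. `mb_disj`: Al ∩ Bl = ∅ (ll: f z = c but f z < c on Al).
`mb_lt`: suppose f y ≤ c. As d < f y, d < c. f ≤ c on Bm. X' := {z ∈ Bm | f z = c}: f has its maximum over Bm there, so X' ⊆ Z (cc_crit for -f), finite. Bm \ X' is preconnected (na_diff), in {f < c}, meets Al and Am (mb_meet; points of Al have f < c): by
ca_sub it is inside Al and inside Am, but they are disjoint. `mb_low`: suppose d ≤ f everywhere; the set X' = {f = d} consists of global minima, so it is in Z (cc_crit with the component of {f < c'} , c' large, which is univ; or Desc directly: z ∉ Z gives f (g 1 z) < f z = d);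
so {d < f} = X'ᶜ is preconnected (na_compl), so Bl = Bm (ca_sub), contradiction.
-/

set_option autoImplicit false

open Metric Set Filter Topology

namespace Pool.Agent.E8N

variable {α : Type*} [MetricSpace α] [CompactSpace α] [ConnectedSpace α] [LocallyPathConnectedSpace α]
variable {f : α → ℝ} {Z : Set α} {g g' : ℝ → α → α}


theorem T_MB_one {f : α → ℝ} {Z : Set α} {g : ℝ → α → α} (hd : Desc f Z g) (hZ : Z.Finite)
    (h3 : ¬ Three (univ : Set α) f) {A : Set α} (hA : IsComp {z | f z < lev f} A) {x : α} (hx : x ∈ A)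
    (hx' : ∀ z ∈ A, f x ≤ f z) : x ∈ Z ∧ f x < lev f ∧ ∀ z ∈ A, z ≠ x → f x < f z := by
  refine ⟨(cc_crit hd hA hx hx').1, ca_lt hA hx, ?_⟩
  intro z hz hne
  rcases lt_or_eq_of_le (hx' z hz) with h | h
  · exact h
  · exact absurd (ce_sepd hd hZ hA hx hz hx' (fun w hw => h ▸ hx' w hw) (Ne.symm hne))
      (oa_no hd.fc h3 hA x hx z hz)

theorem T_MB_mins {f : α → ℝ} {Z : Set α} {g : ℝ → α → α} (hd : Desc f Z g) {A A' : Set α}
    (hA : IsComp {z | f z < lev f} A) (hA' : IsComp {z | f z < lev f} A') (hne : A ≠ A')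
    (hcov : {z | f z < lev f} = A ∪ A') {m x : α} (hm : m ∈ A) (hm' : ∀ z ∈ A, f m ≤ f z) (hx : x ∈ A')
    (hx' : ∀ z ∈ A', f x ≤ f z) (hle : f m ≤ f x) : MinsT f Z m x where
  lo_min := by
    intro z
    by_cases hz : f z < lev f
    · have hz' : z ∈ A ∪ A' := by rw [← hcov]; exact hz
      rcases hz' with hz' | hz'
      · exact hm' z hz'
      · exact hle.trans (hx' z hz')
    · have := ca_lt hA hm
      linarith
  sepd := pb_sepd hd.fc hA hm (fun hc => Set.disjoint_left.1 (ca_disj hA hA' hne) hc hx) (ca_lt hA' hx)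
  hi_min := by
    intro z hz
    by_cases hz' : z ∈ A'
    · exact hx' z hz'
    · have := pb_le hd.fc hA' hx hz'
      linarith
  hi_crit := (cc_crit hd hA' hx hx').1
  lo_crit := (cc_crit hd hA hm hm').1

theorem T_MB_pair {f : α → ℝ} {Z : Set α} {g : ℝ → α → α} (hd : Desc f Z g) {Al Am : Set α}
    (hAl : IsComp {z | f z < lev f} Al) (hAm : IsComp {z | f z < lev f} Am) (hne : Al ≠ Am)
    (hcov : {z | f z < lev f} = Al ∪ Am) {x : α} (hx : x ∈ Am) (hx' : ∀ z ∈ Am, f x ≤ f z) :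
    ∃ lo hi, MinsT f Z lo hi ∧ ((x = lo ∧ lo ∈ Am ∧ hi ∈ Al) ∨ (x = hi ∧ hi ∈ Am ∧ lo ∈ Al)) := by
  obtain ⟨m, hm, _, _, hm'⟩ := cc_min hd hAl
  rcases le_total (f m) (f x) with h | h
  · exact ⟨m, x, T_MB_mins hd hAl hAm hne hcov hm hm' hx hx' h, Or.inr ⟨rfl, hx, hm⟩⟩
  · exact ⟨x, m, T_MB_mins hd hAm hAl (Ne.symm hne) (by rw [hcov, union_comm]) hx hx' hm hm' h,
      Or.inl ⟨rfl, hx, hm⟩⟩

theorem T_MB_neg {f : α → ℝ} {B : Set α} (h : IsComp {z | dev f < f z} B) :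
    IsComp {z | (fun z => - f z) z < lev (fun z => - f z)} B := by
  rw [← sup_eq']; exact h

theorem T_MB_meet {f : α → ℝ} (hf : Continuous f) {A B : Set α} {c d : ℝ} (hdc : d < c)
    (hA : IsComp {z | f z < c} A) (hB : IsComp {z | d < f z} B) {z : α} (hzA : z ∈ closure A)
    (hzB : z ∈ closure B) : (A ∩ B).Nonempty := by
  have hB' : IsComp {z | (fun z => - f z) z < - d} B := by rw [← sup_eq]; exact hB
  by_cases hz : f z < c
  · exact mem_closure_iff.1 hzB A (ca_open hf hA) (ca_cl_mem hf hA hzA hz)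
  · have hzd : (fun z => - f z) z < - d := by
      show - f z < - d
      linarith
    have h1 := mem_closure_iff.1 hzA B (ca_open hf.neg hB') (ca_cl_mem hf.neg hB' hzB hzd)
    rwa [inter_comm] at h1

theorem mb_x (hO : Om2 f Z g g') {Al Am Bl Bm : Set α} {x y : α} (h : MidT f Z (lev f) (dev f) Al Am Bl Bm x y) :
    x ∈ Z ∧ f x < lev f ∧ ∀ z ∈ Am, z ≠ x → f x < f z := by
  exact T_MB_one hO.hd hO.hZ hO.h3 h.hAm h.hx h.hx'

theorem mb_y (hO : Om2 f Z g g') {Al Am Bl Bm : Set α} {x y : α} (h : MidT f Z (lev f) (dev f) Al Am Bl Bm x y) :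
    y ∈ Z ∧ dev f < f y ∧ ∀ z ∈ Bm, z ≠ y → f z < f y := by
  have h1 := T_MB_one hO.hd' hO.hZ hO.h3' (T_MB_neg h.hBm) h.hy (fun z hz => neg_le_neg (h.hy' z hz))
  refine ⟨h1.1, ?_, fun z hz hne => ?_⟩
  · have h2 : - f y < lev (fun z => - f z) := h1.2.1
    unfold dev
    linarith
  · have h2 : - f y < - f z := h1.2.2 z hz hne
    linarith

theorem mb_min (hO : Om2 f Z g g') {Al Am Bl Bm : Set α} {x y : α} (h : MidT f Z (lev f) (dev f) Al Am Bl Bm x y) :
    ∃ lo hi, MinsT f Z lo hi ∧ ((x = lo ∧ lo ∈ Am ∧ hi ∈ Al) ∨ (x = hi ∧ hi ∈ Am ∧ lo ∈ Al)) := by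
  exact T_MB_pair hO.hd h.hAl h.hAm h.hA h.cA h.hx h.hx'

theorem mb_max (hO : Om2 f Z g g') {Al Am Bl Bm : Set α} {x y : α} (h : MidT f Z (lev f) (dev f) Al Am Bl Bm x y) :
    ∃ lo hi, MinsT (fun z => - f z) Z lo hi ∧ ((y = lo ∧ lo ∈ Bm ∧ hi ∈ Bl) ∨ (y = hi ∧ hi ∈ Bm ∧ lo ∈ Bl)) := by
  exact T_MB_pair hO.hd' (T_MB_neg h.hBl) (T_MB_neg h.hBm) h.hB (by rw [← sup_eq']; exact h.cB) h.hy
    (fun z hz => neg_le_neg (h.hy' z hz))

theorem mb_lt (hN : Nice α) (hO : Om2 f Z g g') (hcd : dev f ≤ lev f) {Al Am Bl Bm : Set α} {x y : α}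
    (h : MidT f Z (lev f) (dev f) Al Am Bl Bm x y) : lev f < f y := by
  by_contra hcon
  push Not at hcon
  have hdy := (mb_y hO h).2.1
  have hdc : dev f < lev f := by linarith
  have hBm' := T_MB_neg h.hBm
  obtain ⟨z1, hz1, hz1', _⟩ := h.lm
  obtain ⟨z2, hz2, hz2', _⟩ := h.mm
  obtain ⟨w1, hw1, hw1'⟩ := T_MB_meet hO.hd.fc hdc h.hAl h.hBm hz1 hz1'
  obtain ⟨w2, hw2, hw2'⟩ := T_MB_meet hO.hd.fc hdc h.hAm h.hBm hz2 hz2'
  have hX : ({z | z ∈ Bm ∧ f z = lev f} : Set α).Finite := by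
    refine hO.hZ.subset ?_
    rintro z ⟨hz, hzc⟩
    refine (cc_crit hO.hd' hBm' hz (fun w hw => ?_)).1
    have h1 := h.hy' w hw
    show - f z ≤ - f w
    linarith
  have hpre : IsPreconnected (Bm \ {z | z ∈ Bm ∧ f z = lev f}) :=
    na_diff hN (ca_open hO.hd'.fc hBm') (ca_conn hBm').1 hX
  have hsub : Bm \ {z | z ∈ Bm ∧ f z = lev f} ⊆ {z | f z < lev f} := by
    rintro z ⟨hz, hz'⟩
    have h1 := h.hy' z hz
    have h2 : f z ≠ lev f := fun hc => hz' ⟨hz, hc⟩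
    exact lt_of_le_of_ne (h1.trans hcon) h2
  have hm1 : w1 ∈ Bm \ {z | z ∈ Bm ∧ f z = lev f} := ⟨hw1', fun hc => (ca_lt h.hAl hw1).ne hc.2⟩
  have hm2 : w2 ∈ Bm \ {z | z ∈ Bm ∧ f z = lev f} := ⟨hw2', fun hc => (ca_lt h.hAm hw2).ne hc.2⟩
  have hs1 := ca_sub h.hAl hpre hsub ⟨w1, hm1, hw1⟩
  exact Set.disjoint_left.1 (ca_disj h.hAl h.hAm h.hA) (hs1 hm2) hw2

theorem mb_low (hN : Nice α) (hO : Om2 f Z g g') {Al Am Bl Bm : Set α} {x y : α}
    (h : MidT f Z (lev f) (dev f) Al Am Bl Bm x y) : ∃ z, f z < dev f := by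
  by_contra hcon
  push Not at hcon
  have hX : ({z | f z = dev f} : Set α).Finite := by
    refine hO.hZ.subset ?_
    intro z hz
    by_contra hzZ
    have h1 := hO.hd.lt z 1 one_pos le_rfl hzZ
    have h2 := hcon (g 1 z)
    have h3 : f z = dev f := hz
    linarith
  have heq : {z | dev f < f z} = ({z | f z = dev f} : Set α)ᶜ := by
    ext z
    simp only [mem_setOf_eq, mem_compl_iff]
    exact ⟨fun hz => hz.ne', fun hz => lt_of_le_of_ne (hcon z) (Ne.symm hz)⟩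
  have hpre : IsPreconnected ({z | dev f < f z} : Set α) := by
    rw [heq]; exact na_compl hN hX
  obtain ⟨w1, hw1⟩ := (ca_conn h.hBl).2
  obtain ⟨w2, hw2⟩ := (ca_conn h.hBm).2
  have hU1 : w1 ∈ {z | dev f < f z} := by rw [h.cB]; exact Or.inl hw1
  have hU2 : w2 ∈ {z | dev f < f z} := by rw [h.cB]; exact Or.inr hw2
  have hs := ca_sub h.hBl hpre (Subset.refl _) ⟨w1, hU1, hw1⟩
  exact Set.disjoint_left.1 (ca_disj h.hBl h.hBm h.hB) (hs hU2) hw2

end Pool.Agent.E8N
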