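import Pool.Agent.E8N.T_FB

/-!
# E8N module T_MD

PERSISTENCE OF A COMMON CLOSURE POINT, (3.4). d k ≤ c k gives d0 ≤ c0. Write Ak := connectedComponentIn {F (p k) < c k} a, Bk := connectedComponentIn {d k < F (p k)} b.
CASE d0 < c0: A0 ∩ B0 ∋ w (as in mb_meet: if F p0 z < c0 then z ∈ A0 open, meets B0; else F p0 z ≥ c0 > d0 so z ∈ B0 open, meets A0). fb_eventually (for F and for -F) : w ∈ Ak ∩ Bk eventually, F (p k) w < c k. Take z = w.
CASE d0 = c0: F p0 z ≤ c0 (ca_cl_le) and ≥ d0, so F p0 z = c0 = d0 and z ∉ Z p0. a1 := g 1 p0 z ∈ A0, b1 := g' 1 p0 z ∈ B0 (cb_cl). By continuity (fa_pass: pass F(p) (g 1 p x) a → pass F(p0) a1 a < c0 as (p,x) → (p0,z)) there are a neighbourhood N of z and k0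
such that for k ≥ k0, x ∈ N: pass F(p k) (g 1 (p k) x) a < c k, pass (-F(p k)) (g' 1 (p k) x) b < - d k, and x ∉ Z (p k) (Zc). Then for x ∈ N: F(p k) x < c k implies x ∈ Ak (path s ↦ g s (p k) x in {F < c k} from x to g 1 (p k) x, which is in Ak by pb_lt_iff),
and d k < F(p k) x implies x ∈ Bk. N' ⊆ N a connected open neighbourhood of z. By cb_approx (F and -F) there are x1, x2 ∈ N' with F p0 x1 < c0 < F p0 x2; so for k large F(p k) x1 < d k and F (p k) x1 < c k, and F(p k) x2 > c k, d k. By connectedness of N' there is w ∈ N' with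
F(p k) w = (c k + d k)/2. If d k < c k: w ∈ Ak ∩ Bk. If d k = c k: w ∉ Z (p k); the points g s (p k) w, s → 0+, are in N' with F < c k, so in Ak: w ∈ closure Ak; similarly w ∈ closure Bk; w ∉ Z (p k).
-/

set_option autoImplicit false

open Metric Set Filter Topology

namespace Pool.Agent.E8N

variable {α : Type*} [MetricSpace α] [CompactSpace α] [ConnectedSpace α] [LocallyPathConnectedSpace α]
variable {Q : Type*} [MetricSpace Q] {F : Q → α → ℝ} {Z : Q → Set α} {g g' : ℝ → Q → α → α}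


theorem T_MD_in {f : α → ℝ} {Z : Set α} {g : ℝ → α → α} (hd : Desc f Z g) {c : ℝ} {x a : α} (hx : f x < c)
    (h : pass (univ : Set α) f (g 1 x) a < c) : x ∈ connectedComponentIn {z | f z < c} a := by
  obtain ⟨h1, h2⟩ := pb_comp (f := f) hx
  have h3 := cb_mem hd h1 h2 zero_le_one le_rfl
  have h4 := pb_comp_eq h1 h3
  have h5 := ((pb_lt_iff hd.fc).1 h).2
  rw [← h4] at h5
  have h6 := pb_comp_eq h1 h5
  rw [← h6]
  exact h2

theorem T_MD_meet {f : α → ℝ} (hf : Continuous f) {A B : Set α} {c d : ℝ} (hdc : d < c)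
    (hA : IsComp {z | f z < c} A) (hB : IsComp {z | d < f z} B) {z : α} (hzA : z ∈ closure A)
    (hzB : z ∈ closure B) : (A ∩ B).Nonempty := by
  have hB' : IsComp {z | (fun z => - f z) z < - d} B := by rw [← sup_eq]; exact hB
  by_cases hz : f z < c
  · exact mem_closure_iff.1 hzB A (ca_open hf hA) (ca_cl_mem hf hA hzA hz)
  · have hzd : (fun z => - f z) z < - d := by
      show - f z < - d
      linarith
    have h1 := mem_closure_iff.1 hzA B (ca_open hf.neg hB') (ca_cl_mem hf.neg hB' hzB hzd)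
    rwa [inter_comm] at h1

theorem md_open (hF : Fam F Z g) (hF' : Fam (fun p z => - F p z) Z g') {p : ℕ → Q} {p₀ : Q}
    (hp : Tendsto p atTop (𝓝 p₀)) {c d : ℕ → ℝ} {c₀ d₀ : ℝ} (hc : Tendsto c atTop (𝓝 c₀))
    (hd : Tendsto d atTop (𝓝 d₀)) (hcd : ∀ k, d k ≤ c k) {A₀ B₀ : Set α} (hA₀ : IsComp {z | F p₀ z < c₀} A₀)
    (hB₀ : IsComp {z | d₀ < F p₀ z} B₀) {a b : α} (ha : a ∈ A₀) (hb : b ∈ B₀)
    (hz : ∃ z ∈ closure A₀, z ∈ closure B₀ ∧ ¬ (z ∈ Z p₀ ∧ F p₀ z = c₀ ∧ F p₀ z = d₀)) :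
    ∀ᶠ k in atTop, ∃ z ∈ closure (connectedComponentIn {z | F (p k) z < c k} a),
      z ∈ closure (connectedComponentIn {z | d k < F (p k) z} b) ∧
      ¬ (z ∈ Z (p k) ∧ F (p k) z = c k ∧ F (p k) z = d k) := by
  have hD : ∀ q, Desc (F q) (Z q) (fun s x => g s q x) := fun q => fa_desc hF q
  have hD' : ∀ q, Desc (fun z => - F q z) (Z q) (fun s x => g' s q x) := fun q => fa_desc hF' q
  have hle : d₀ ≤ c₀ := le_of_tendsto_of_tendsto' hd hc hcd
  have hB₀' : IsComp {z | (fun z => - F p₀ z) z < - d₀} B₀ := by rw [← sup_eq]; exact hB₀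
  have hset : ∀ k, {z | d k < F (p k) z} = {z | (fun z => - F (p k) z) z < - d k} := fun k => sup_eq _ _
  obtain ⟨z, hzA, hzB, hz⟩ := hz
  rcases lt_or_eq_of_le hle with hlt | heq
  · obtain ⟨w, hwA, hwB⟩ := T_MD_meet (hD p₀).fc hlt hA₀ hB₀ hzA hzB
    filter_upwards [fb_eventually hF hp hc hA₀ ha hwA, fb_eventually hF' hp hd.neg hB₀' hb hwB] with k h1 h2
    refine ⟨w, subset_closure h1.2, ?_, ?_⟩
    · rw [hset]; exact subset_closure h2.2
    · intro hc'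
      have h3' : w ∈ {z | F (p k) z < c k} := connectedComponentIn_subset _ _ h1.2
      have h3 : F (p k) w < c k := h3'
      exact h3.ne hc'.2.1
  · have hz1 : F p₀ z ≤ c₀ := ca_cl_le (hD p₀).fc hA₀ hzA
    have hz2 : - F p₀ z ≤ - d₀ := ca_cl_le (hD' p₀).fc hB₀' hzB
    have hzc : F p₀ z = c₀ := by linarith
    have hzd : F p₀ z = d₀ := by linarith
    have hzZ : z ∉ Z p₀ := fun hc' => hz ⟨hc', hzc, hzd⟩
    have ha1 : g 1 p₀ z ∈ A₀ := cb_cl (hD p₀) hA₀ hzA hzZ one_pos le_rfl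
    have hb1 : g' 1 p₀ z ∈ B₀ := cb_cl (hD' p₀) hB₀' hzB hzZ one_pos le_rfl
    have hpa : pass (univ : Set α) (F p₀) (g 1 p₀ z) a < c₀ := pb_lt (hD p₀).fc hA₀ ha1 ha
    have hpb : pass (univ : Set α) (fun x => - F p₀ x) (g' 1 p₀ z) b < - d₀ := pb_lt (hD' p₀).fc hB₀' hb1 hb
    have tp : Tendsto (fun q : ℕ × α => p q.1) (atTop ×ˢ 𝓝 z) (𝓝 p₀) := hp.comp tendsto_fst
    have tx : Tendsto (fun q : ℕ × α => q.2) (atTop ×ˢ 𝓝 z) (𝓝 z) := tendsto_snd
    have tg : Tendsto (fun q : ℕ × α => g 1 (p q.1) q.2) (atTop ×ˢ 𝓝 z) (𝓝 (g 1 p₀ z)) := by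
      have h1 : Tendsto (fun q : ℕ × α => ((1 : ℝ), p q.1, q.2)) (atTop ×ˢ 𝓝 z) (𝓝 ((1 : ℝ), p₀, z)) :=
        tendsto_const_nhds.prodMk_nhds (tp.prodMk_nhds tx)
      exact (hF.gc.tendsto _).comp h1
    have tg' : Tendsto (fun q : ℕ × α => g' 1 (p q.1) q.2) (atTop ×ˢ 𝓝 z) (𝓝 (g' 1 p₀ z)) := by
      have h1 : Tendsto (fun q : ℕ × α => ((1 : ℝ), p q.1, q.2)) (atTop ×ˢ 𝓝 z) (𝓝 ((1 : ℝ), p₀, z)) :=
        tendsto_const_nhds.prodMk_nhds (tp.prodMk_nhds tx)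
      exact (hF'.gc.tendsto _).comp h1
    have e1 := (fa_pass hF tp tg (tendsto_const_nhds (x := a))).eventually_lt (hc.comp tendsto_fst) hpa
    have e2 := (fa_pass hF' tp tg' (tendsto_const_nhds (x := b))).eventually_lt (hd.neg.comp tendsto_fst) hpb
    have e3 : ∀ᶠ q : ℕ × α in atTop ×ˢ 𝓝 z, q.2 ∉ Z (p q.1) := by
      have h1 : {w : Q × α | w.2 ∈ Z w.1}ᶜ ∈ 𝓝 (p₀, z) := hF.Zc.isOpen_compl.mem_nhds hzZ
      exact (tp.prodMk_nhds tx).eventually h1
    obtain ⟨pa, hpa', pb, hpb', hall⟩ := eventually_prod_iff.1 ((e1.and e2).and e3)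
    obtain ⟨V, hVN, hVo, hzV, hVc⟩ := locallyConnectedSpace_iff_subsets_isOpen_isConnected.1 inferInstance z _ hpb'
    have hVn : V ∈ 𝓝 z := hVo.mem_nhds hzV
    obtain ⟨x1, hx1, hx1'⟩ := cb_approx (hD p₀) hzZ hVn
    obtain ⟨x2, hx2, hx2'⟩ := cb_approx (hD' p₀) hzZ hVn
    have tF : ∀ x : α, Tendsto (fun k => F (p k) x) atTop (𝓝 (F p₀ x)) := by
      intro x
      have h1 : Tendsto (fun k => (p k, x)) atTop (𝓝 (p₀, x)) := hp.prodMk_nhds tendsto_const_nhds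
      exact (hF.Fc.tendsto _).comp h1
    have e4 : ∀ᶠ k in atTop, F (p k) x1 < d k := (tF x1).eventually_lt hd (by linarith)
    have e5 : ∀ᶠ k in atTop, c k < F (p k) x2 := hc.eventually_lt (tF x2) (by
      have h1 : - F p₀ x2 < - F p₀ z := hx2'
      linarith)
    filter_upwards [hpa', e4, e5] with k hk h4 h5
    have hck := hcd k
    have hinA : ∀ x ∈ V, F (p k) x < c k → x ∈ connectedComponentIn {z | F (p k) z < c k} a := by
      intro x hx hlt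
      exact T_MD_in (hD (p k)) hlt (hall hk (hVN hx)).1.1
    have hinB : ∀ x ∈ V, d k < F (p k) x → x ∈ connectedComponentIn {z | d k < F (p k) z} b := by
      intro x hx hlt
      rw [hset]
      exact T_MD_in (hD' (p k)) (neg_lt_neg hlt) (hall hk (hVN hx)).1.2
    have hmid : (c k + d k) / 2 ∈ Icc (F (p k) x1) (F (p k) x2) := ⟨by linarith, by linarith⟩
    obtain ⟨w, hwV, hw⟩ := hVc.isPreconnected.intermediate_value hx1 hx2 (hD (p k)).fc.continuousOn hmid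
    have hwZ : w ∉ Z (p k) := (hall hk (hVN hwV)).2
    have hwn : V ∈ 𝓝 w := hVo.mem_nhds hwV
    refine ⟨w, ?_, ?_, fun hc' => hwZ hc'.1⟩
    · rw [mem_closure_iff_nhds]
      intro T hT
      obtain ⟨x, hx, hxlt⟩ := cb_approx (hD (p k)) hwZ (inter_mem hT hwn)
      exact ⟨x, hx.1, hinA x hx.2 (by linarith)⟩
    · rw [mem_closure_iff_nhds]
      intro T hT
      obtain ⟨x, hx, hxlt⟩ := cb_approx (hD' (p k)) hwZ (inter_mem hT hwn)
      have hxlt' : - F (p k) x < - F (p k) w := hxlt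
      exact ⟨x, hx.1, hinB x hx.2 (by linarith)⟩

end Pool.Agent.E8N
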