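import Pool.Agent.E8N.Top2

/-!
# E8N module T_NA

OPEN CONNECTED MINUS FINITE. `na_one`: U open preconnected, a point: U \ {a} is preconnected. If a ∉ U clear. Else by hN.punc there is D ⊆ U, D ∈ 𝓝 a, D \ {a} preconnected. Suppose V, W
open, U \ {a} ⊆ V ∪ W, both meet U \ {a}; show that (U \ {a}) ∩ V ∩ W is nonempty. Otherwise D \ {a} is inside V or inside W off the other (preconnected), say it does not meet W inside U:
then V' := (V ∩ U \ {a}) ∪ interior D, W' := W ∩ U \ {a} are open, cover U, both meet U, so V' ∩ W' ∩ U ≠ ∅ by preconnectedness of U, and the point is in V ∩ W or in (D \ {a}) ∩ W: contradiction.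
`na_diff`: induction on the finite set (Set.Finite.induction_on), U \ insert a X = (U \ X) \ {a}, U \ X open (finite sets are closed). `na_compl`: U = univ.
`na_iso`: in a connected space with more than one point no finite set contains a nonempty open set (ConnectedSpace, T1: points are not isolated; a nonempty open finite set would be
a finite union of closed points: pick a point a of it: {a} = O minus the finite closed rest is open and closed, so univ = {a}).
-/

set_option autoImplicit false

open Metric Set Filter Topology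

namespace Pool.Agent.E8N

variable {α : Type*} [MetricSpace α]

theorem na_aux {U D : Set α} (hU : IsOpen U) (hc : IsPreconnected U) {a : α} (haU : a ∈ U)
    (hD : D ∈ 𝓝 a) {u v : Set α} (hu : IsOpen u) (hv : IsOpen v) (huv : U \ {a} ⊆ u ∪ v)
    (hv1 : ((U \ {a}) ∩ v).Nonempty) (hDv : ¬ ((D \ {a}) ∩ v).Nonempty) :
    ((U \ {a}) ∩ (u ∩ v)).Nonempty := by
  have hUa : IsOpen (U \ {a}) := hU.sdiff isClosed_singleton
  have h := hc ((u ∩ (U \ {a})) ∪ interior D) (v ∩ (U \ {a})) ((hu.inter hUa).union isOpen_interior)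
    (hv.inter hUa) ?_ ?_ ?_
  · obtain ⟨z, hzU, hz1, hz2⟩ := h
    rcases hz1 with hz1 | hz1
    · exact ⟨z, hz2.2, hz1.1, hz2.1⟩
    · exact absurd ⟨z, ⟨interior_subset hz1, hz2.2.2⟩, hz2.1⟩ hDv
  · intro z hz
    by_cases hza : z = a
    · left; right
      rw [hza]
      exact mem_interior_iff_mem_nhds.mpr hD
    · have hz' : z ∈ U \ {a} := ⟨hz, hza⟩
      rcases huv hz' with h | h
      · left; left; exact ⟨h, hz'⟩
      · right; exact ⟨h, hz'⟩
  · exact ⟨a, haU, Or.inr (mem_interior_iff_mem_nhds.mpr hD)⟩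
  · obtain ⟨z, hz, hzv⟩ := hv1
    exact ⟨z, hz.1, hzv, hz⟩

theorem na_one (hN : Nice α) {U : Set α} (hU : IsOpen U) (hc : IsPreconnected U) (a : α) :
    IsPreconnected (U \ {a}) := by
  by_cases haU : a ∈ U
  · obtain ⟨D, hDU, hD, hDc⟩ := hN.punc a U (hU.mem_nhds haU)
    intro u v hu hv huv hu1 hv1
    by_cases h1 : ((D \ {a}) ∩ u).Nonempty
    · by_cases h2 : ((D \ {a}) ∩ v).Nonempty
      · have hsub : D \ {a} ⊆ U \ {a} := sdiff_subset_sdiff_left hDU
        obtain ⟨z, hz, hzz⟩ := hDc u v hu hv (hsub.trans huv) h1 h2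
        exact ⟨z, hsub hz, hzz⟩
      · exact na_aux hU hc haU hD hu hv huv hv1 h2
    · have h := na_aux hU hc haU hD hv hu (by rwa [union_comm]) hu1 h1
      rwa [inter_comm v u] at h
  · have h : U \ {a} = U := sdiff_singleton_eq_self haU
    rwa [h]

theorem na_diff (hN : Nice α) {U : Set α} (hU : IsOpen U) (hc : IsPreconnected U) {X : Set α} (hX : X.Finite) :
    IsPreconnected (U \ X) := by
  induction X, hX using Set.Finite.induction_on with
  | empty => simpa using hc
  | @insert a X _ hXf ih =>
    have h : U \ insert a X = (U \ X) \ {a} := by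
      ext z
      simp only [Set.mem_sdiff, mem_insert_iff, mem_singleton_iff, not_or]
      tauto
    rw [h]
    exact na_one hN (hU.sdiff hXf.isClosed) ih a

theorem na_compl (hN : Nice α) [ConnectedSpace α] {X : Set α} (hX : X.Finite) : IsPreconnected Xᶜ := by
  have h := na_diff hN (isOpen_univ : IsOpen (univ : Set α)) isPreconnected_univ hX
  rwa [← compl_eq_univ_sdiff] at h

theorem na_iso [ConnectedSpace α] (hne : ∃ x y : α, x ≠ y) {O X : Set α} (hO : IsOpen O) (hX : X.Finite) (h : O ⊆ X) :
    O = ∅ := by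
  by_contra hO0
  obtain ⟨a, ha⟩ := nonempty_iff_ne_empty.mpr hO0
  have : Nontrivial α := ⟨hne⟩
  have h2 := infinite_of_mem_nhds a (hO.mem_nhds ha)
  exact h2 (hX.subset h)

end Pool.Agent.E8N
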