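import Pool.Agent.E8N.Top2

/-!
# E8N module T_X2

TRANSFER OF COMPONENTS. X a subset, V' ⊆ ↥X, U = val '' V'. `x2_cc`: val '' (connectedComponentIn V' x) = connectedComponentIn (val '' V') x for x ∈ V': the left side is a preconnected subset of U containing x (IsPreconnected.subset_connectedComponentIn); the preimage of the
right side is preconnected (Topology.IsInducing.isPreconnected_image), in V' (val injective), contains x. `x2_iff`: from x2_cc. `x2_cl`: X closed: closure (val '' A') = val '' closure A' (IsClosed.isClosedEmbedding_subtypeVal, IsClosedEmbedding.closure_image_eq).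
-/

set_option autoImplicit false

open Metric Set Filter Topology

namespace Pool.Agent.E8N.TY

theorem x2_cc {α : Type*} [TopologicalSpace α] {X : Set α} {V' : Set ↥X} {x : ↥X} (hx : x ∈ V') :
    Subtype.val '' (connectedComponentIn V' x) = connectedComponentIn (Subtype.val '' V') (x : α) := by
  apply Set.Subset.antisymm
  · exact IsPreconnected.subset_connectedComponentIn
      (isPreconnected_connectedComponentIn.image _ continuous_subtype_val.continuousOn)
      ⟨x, mem_connectedComponentIn hx, rfl⟩ (Set.image_mono (connectedComponentIn_subset _ _))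
  · intro y hy
    obtain ⟨y', hy', rfl⟩ := connectedComponentIn_subset _ _ hy
    refine ⟨y', ?_, rfl⟩
    have himg : Subtype.val '' ((Subtype.val : ↥X → α) ⁻¹' (connectedComponentIn (Subtype.val '' V') (x : α))) =
        connectedComponentIn (Subtype.val '' V') (x : α) := by
      apply Set.image_preimage_eq_of_subset
      intro z hz
      obtain ⟨w, hw, rfl⟩ := connectedComponentIn_subset _ _ hz
      exact ⟨w, rfl⟩
    have hpre : IsPreconnected ((Subtype.val : ↥X → α) ⁻¹' (connectedComponentIn (Subtype.val '' V') (x : α))) := by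
      rw [← (Topology.IsInducing.subtypeVal).isPreconnected_image, himg]
      exact isPreconnected_connectedComponentIn
    have hsub : ((Subtype.val : ↥X → α) ⁻¹' (connectedComponentIn (Subtype.val '' V') (x : α))) ⊆ V' := by
      intro z hz
      obtain ⟨w, hw, hwz⟩ := connectedComponentIn_subset _ _ hz
      rwa [← Subtype.ext hwz]
    exact hpre.subset_connectedComponentIn (mem_connectedComponentIn (Set.mem_image_of_mem _ hx)) hsub hy

theorem x2_iff {α : Type*} [TopologicalSpace α] {X : Set α} {V' : Set ↥X} {A : Set α} :
    IsComp (Subtype.val '' V') A ↔ ∃ A' : Set ↥X, IsComp V' A' ∧ A = Subtype.val '' A' := by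
  constructor
  · rintro ⟨x, ⟨x', hx', rfl⟩, rfl⟩
    exact ⟨connectedComponentIn V' x', ⟨x', hx', rfl⟩, (x2_cc hx').symm⟩
  · rintro ⟨A', ⟨x', hx', rfl⟩, rfl⟩
    exact ⟨x', ⟨x', hx', rfl⟩, x2_cc hx'⟩

theorem x2_iff' {α : Type*} [TopologicalSpace α] {X : Set α} {V' A' : Set ↥X} :
    IsComp (Subtype.val '' V') (Subtype.val '' A') ↔ IsComp V' A' := by
  rw [x2_iff]
  constructor
  · rintro ⟨A'', h, he⟩
    rwa [Subtype.val_injective.image_injective he]
  · intro h
    exact ⟨A', h, rfl⟩

theorem x2_cl {α : Type*} [TopologicalSpace α] {X : Set α} (hX : IsClosed X) (A' : Set ↥X) :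
    closure (Subtype.val '' A') = Subtype.val '' closure A' :=
  hX.isClosedEmbedding_subtypeVal.closure_image_eq A' 

end Pool.Agent.E8N.TY
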