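import Pool.Agent.E8N.T_K1

/-!
# E8N module T_X5

`x5_om2`: p ∈ Om K: Om2 for FS K p: Desc from fa_desc, finite by x3_fin, Two, Two' from Om (x4_two, x4_two'), not Three by count3' and count3 (x4_three, x4_three').
-/

set_option autoImplicit false

open Metric Set Filter Topology

namespace Pool.Agent.E8N.TY

variable {E : Type*} [NormedAddCommGroup E] [InnerProductSpace ℝ E] [FiniteDimensional ℝ E]
variable {K : Set E} {ρ R : ℝ}


theorem x5_om2 (hK : Body K ρ R) (h7 : AtMost7 K) (hd : 4 ≤ Module.finrank ℝ E) {s₀ : ℝ}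
    (hF' : Fam (fun p z => - FS K p z) (ZS K) (gS' K s₀)) {p : ↥(interior K)} (hp : (p : E) ∈ Om K) :
    Om2 (FS K p) (ZS K p) (fun s x => gS K s p x) (fun s x => gS' K s₀ s p x) := by
  haveI := SN.S_cs hK
  haveI := SN.S_conn hK hd
  haveI := SN.S_lpc hK hd
  exact
    { hd := fa_desc (x3_fam hK) p
      hd' := fa_desc hF' p
      hZ := (x3_fin h7 p).1
      h2 := (x4_two p).1 hp.2.1
      h3 := fun h => count3' hK h7 hd hp.1 ((x4_three p).2 h) hp.2.2
      h2' := (x4_two' p).1 hp.2.2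
      h3' := fun h => count3 hK h7 hd hp.1 hp.2.1 ((x4_three' p).2 h) }

end Pool.Agent.E8N.TY
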