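import Pool.Agent.E8N.T_X5
import Pool.Agent.E8N.T_X2

/-!
# E8N module T_X6

TRANSFER OF THE STRUCTURES. `x6_mins`, `x6_mins'`: MinsE K p lo hi corresponds to MinsT (FS K p) (ZS K p): fields one by one: lo_min: F p lo = mn K p = sInf (F p '' S K) iff F p lo ≤ F p z for all z ∈ S K (S K compact nonempty: IsLeast; the image is bounded below by 0: csInf_le, le_csInf);
sepd: x1_sepd; hi_min: x1_pass, x4_cl; crit: definition of ZS. `x6_mid`, `x6_mid'`: Mid K p .. corresponds to MidT (FS K p) (ZS K p) (lev ..) (dev ..) with images / preimages: IsComp by x2_iff, x2_iff' (x4_sub, x4_sup), closures by x2_cl (S K closed), unions and inequalities by injectivity of val, cl = lev, dl = dev by x4_cl,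
x4_dl; z ∈ Crit K p iff z ∈ S K and tau = 0.
-/

set_option autoImplicit false

open Metric Set Filter Topology

namespace Pool.Agent.E8N.TY

variable {E : Type*} [NormedAddCommGroup E] [InnerProductSpace ℝ E] [FiniteDimensional ℝ E]
variable {K : Set E} {ρ R : ℝ}


theorem x6_mins {p : ↥(interior K)} {lo hi : E} (h : MinsE K (p : E) lo hi) :
    MinsT (FS K p) (ZS K p) ⟨lo, h.lo_mem⟩ ⟨hi, h.hi_mem⟩ := by
  refine ⟨?_, ?_, ?_, h.hi_crit.2, h.lo_crit.2⟩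
  · intro z
    change F (p : E) lo ≤ F (p : E) (z : E)
    rw [h.lo_min]
    refine csInf_le ⟨0, ?_⟩ ⟨(z : E), z.2, rfl⟩
    rintro _ ⟨w, _, rfl⟩
    exact norm_nonneg _
  · exact (x1_sepd (S K) (F (p : E)) ⟨lo, h.lo_mem⟩ ⟨hi, h.hi_mem⟩).1 h.sepd
  · intro z hz
    refine h.hi_min (z : E) z.2 ?_
    have e1 := x1_pass (S K) (F (p : E)) ⟨hi, h.hi_mem⟩ z
    have e2 := x4_cl (K := K) p
    rw [e2]
    refine lt_of_eq_of_lt e1 hz

theorem x6_mins' (hK : Body K ρ R) {p : ↥(interior K)} {lo hi : ↥(S K)} (h : MinsT (FS K p) (ZS K p) lo hi) :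
    MinsE K (p : E) (lo : E) (hi : E) := by
  have _ := hK
  refine ⟨lo.2, hi.2, ?_, ?_, ?_, ⟨hi.2, h.hi_crit⟩, ⟨lo.2, h.lo_crit⟩⟩
  · refine le_antisymm ?_ ?_
    · refine le_csInf ⟨_, (lo : E), lo.2, rfl⟩ ?_
      rintro _ ⟨w, hw, rfl⟩
      exact h.lo_min ⟨w, hw⟩
    · refine csInf_le ⟨0, ?_⟩ ⟨(lo : E), lo.2, rfl⟩
      rintro _ ⟨w, _, rfl⟩
      exact norm_nonneg _
  · exact (x1_sepd (S K) (F (p : E)) lo hi).2 h.sepd
  · intro z hz hlt
    refine h.hi_min ⟨z, hz⟩ ?_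
    have e1 := x1_pass (S K) (F (p : E)) hi ⟨z, hz⟩
    have e2 := x4_cl (K := K) p
    rw [e2] at hlt
    exact lt_of_eq_of_lt e1.symm hlt

theorem x6_clm (hK : Body K ρ R) (A : Set ↥(S K)) (z : ↥(S K)) :
    (z : E) ∈ closure (Subtype.val '' A) ↔ z ∈ closure A := by
  rw [x2_cl (ZSurf.S_compact hK).isClosed, Subtype.val_injective.mem_set_image]

theorem x6_clS (hK : Body K ρ R) (A : Set ↥(S K)) {z : E} (h : z ∈ closure (Subtype.val '' A)) : z ∈ S K := by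
  rw [x2_cl (ZSurf.S_compact hK).isClosed] at h
  obtain ⟨w, _, rfl⟩ := h
  exact w.2

theorem x6_iff (hK : Body K ρ R) {p : ↥(interior K)} {Al Am Bl Bm : Set ↥(S K)} {x y : ↥(S K)} :
    Mid K (p : E) (Subtype.val '' Al) (Subtype.val '' Am) (Subtype.val '' Bl) (Subtype.val '' Bm) (x : E) (y : E) ↔
    MidT (FS K p) (ZS K p) (lev (FS K p)) (dev (FS K p)) Al Am Bl Bm x y := by
  have e1 : sub K (p : E) (cl K (p : E)) = Subtype.val '' {z : ↥(S K) | FS K p z < lev (FS K p)} := by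
    rw [x4_sub, x4_cl]
  have e2 : sup K (p : E) (dl K (p : E)) = Subtype.val '' {z : ↥(S K) | dev (FS K p) < FS K p z} := by
    rw [x4_sup, x4_dl]
  have hinj : Function.Injective (fun A : Set ↥(S K) => (Subtype.val '' A : Set E)) :=
    Subtype.val_injective.image_injective
  have hcr : ∀ z : ↥(S K), ((z : E) ∈ Crit K (p : E) ∧ F (p : E) (z : E) = cl K (p : E) ∧
      F (p : E) (z : E) = dl K (p : E)) ↔ (z ∈ ZS K p ∧ FS K p z = lev (FS K p) ∧ FS K p z = dev (FS K p)) := by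
    intro z
    rw [x4_cl, x4_dl]
    constructor
    · rintro ⟨h1, h2, h3⟩
      exact ⟨h1.2, h2, h3⟩
    · rintro ⟨h1, h2, h3⟩
      exact ⟨⟨z.2, h1⟩, h2, h3⟩
  have hex : ∀ A B : Set ↥(S K), (∃ z ∈ closure (Subtype.val '' A : Set E), z ∈ closure (Subtype.val '' B) ∧
      ¬ (z ∈ Crit K (p : E) ∧ F (p : E) z = cl K (p : E) ∧ F (p : E) z = dl K (p : E))) ↔
      ∃ z ∈ closure A, z ∈ closure B ∧ ¬ (z ∈ ZS K p ∧ FS K p z = lev (FS K p) ∧ FS K p z = dev (FS K p)) := by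
    intro A B
    constructor
    · rintro ⟨z, h1, h2, h3⟩
      have hzS := x6_clS hK A h1
      refine ⟨⟨z, hzS⟩, (x6_clm hK A ⟨z, hzS⟩).1 h1, (x6_clm hK B ⟨z, hzS⟩).1 h2, ?_⟩
      rw [← hcr]
      exact h3
    · rintro ⟨z, h1, h2, h3⟩
      refine ⟨(z : E), (x6_clm hK A z).2 h1, (x6_clm hK B z).2 h2, ?_⟩
      rw [hcr]
      exact h3
  constructor
  · intro h
    refine ⟨?_, ?_, ?_, ?_, ?_, ?_, ?_, ?_, ?_, ?_, ?_, ?_, ?_, ?_, ?_, ?_⟩
    · have := h.hAl; rw [e1] at this; exact x2_iff'.1 this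
    · have := h.hAm; rw [e1] at this; exact x2_iff'.1 this
    · intro he; exact h.hA (by rw [he])
    · have := h.cA; rw [e1, ← Set.image_union] at this; exact hinj this
    · have := h.hBl; rw [e2] at this; exact x2_iff'.1 this
    · have := h.hBm; rw [e2] at this; exact x2_iff'.1 this
    · intro he; exact h.hB (by rw [he])
    · have := h.cB; rw [e2, ← Set.image_union] at this; exact hinj this
    · intro z h1 h2
      exact (hcr z).1 (h.ll (z : E) ((x6_clm hK Al z).2 h1) ((x6_clm hK Bl z).2 h2))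
    · exact (hex Al Bm).1 h.lm
    · exact (hex Am Bm).1 h.mm
    · exact (hex Am Bl).1 h.ml
    · exact Subtype.val_injective.mem_set_image.1 h.hx
    · intro z hz; exact h.hx' (z : E) ⟨z, hz, rfl⟩
    · exact Subtype.val_injective.mem_set_image.1 h.hy
    · intro z hz; exact h.hy' (z : E) ⟨z, hz, rfl⟩
  · intro h
    refine ⟨?_, ?_, ?_, ?_, ?_, ?_, ?_, ?_, ?_, ?_, ?_, ?_, ?_, ?_, ?_, ?_⟩
    · rw [e1]; exact x2_iff'.2 h.hAl
    · rw [e1]; exact x2_iff'.2 h.hAm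
    · intro he; exact h.hA (hinj he)
    · rw [e1, ← Set.image_union, h.cA]
    · rw [e2]; exact x2_iff'.2 h.hBl
    · rw [e2]; exact x2_iff'.2 h.hBm
    · intro he; exact h.hB (hinj he)
    · rw [e2, ← Set.image_union, h.cB]
    · intro z h1 h2
      have hzS := x6_clS hK Al h1
      exact (hcr ⟨z, hzS⟩).2 (h.ll ⟨z, hzS⟩ ((x6_clm hK Al ⟨z, hzS⟩).1 h1) ((x6_clm hK Bl ⟨z, hzS⟩).1 h2))
    · exact (hex Al Bm).2 h.lm
    · exact (hex Am Bm).2 h.mm
    · exact (hex Am Bl).2 h.ml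
    · exact ⟨x, h.hx, rfl⟩
    · rintro _ ⟨z, hz, rfl⟩; exact h.hx' z hz
    · exact ⟨y, h.hy, rfl⟩
    · rintro _ ⟨z, hz, rfl⟩; exact h.hy' z hz

theorem x6_mid (hK : Body K ρ R) {p : ↥(interior K)} {Al Am Bl Bm : Set E} {x y : E}
    (h : Mid K (p : E) Al Am Bl Bm x y) : ∃ (Al' Am' Bl' Bm' : Set ↥(S K)) (x' y' : ↥(S K)),
      MidT (FS K p) (ZS K p) (lev (FS K p)) (dev (FS K p)) Al' Am' Bl' Bm' x' y' ∧ Al = Subtype.val '' Al' ∧
      Am = Subtype.val '' Am' ∧ Bl = Subtype.val '' Bl' ∧ Bm = Subtype.val '' Bm' ∧ x = (x' : E) ∧ y = (y' : E) := by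
  have e1 : sub K (p : E) (cl K (p : E)) = Subtype.val '' {z : ↥(S K) | FS K p z < lev (FS K p)} := by
    rw [x4_sub, x4_cl]
  have e2 : sup K (p : E) (dl K (p : E)) = Subtype.val '' {z : ↥(S K) | dev (FS K p) < FS K p z} := by
    rw [x4_sup, x4_dl]
  have h1 := h.hAl
  have h2 := h.hAm
  have h3 := h.hBl
  have h4 := h.hBm
  rw [e1] at h1 h2
  rw [e2] at h3 h4
  obtain ⟨Al', _, hAl⟩ := x2_iff.1 h1
  obtain ⟨Am', _, hAm⟩ := x2_iff.1 h2
  obtain ⟨Bl', _, hBl⟩ := x2_iff.1 h3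
  obtain ⟨Bm', _, hBm⟩ := x2_iff.1 h4
  subst hAl hAm hBl hBm
  obtain ⟨x', _, hx'⟩ := h.hx
  obtain ⟨y', _, hy'⟩ := h.hy
  subst hx' hy'
  exact ⟨Al', Am', Bl', Bm', x', y', (x6_iff hK).1 h, rfl, rfl, rfl, rfl, rfl, rfl⟩

theorem x6_mid' (hK : Body K ρ R) {p : ↥(interior K)} {Al Am Bl Bm : Set ↥(S K)} {x y : ↥(S K)}
    (h : MidT (FS K p) (ZS K p) (lev (FS K p)) (dev (FS K p)) Al Am Bl Bm x y) :
    Mid K (p : E) (Subtype.val '' Al) (Subtype.val '' Am) (Subtype.val '' Bl) (Subtype.val '' Bm) (x : E) (y : E) :=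
  (x6_iff hK).2 h

end Pool.Agent.E8N.TY
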