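import Pool.Agent.E8N.Defs

/-!
# E8N: abstract layer (sections 1, 3), definitions

`α` is a compact connected locally path connected metric space, `f` a continuous function, `g` a step which
moves points along paths on which `f` never exceeds its value at the start and is smaller at every
positive time outside the finite set `Z`.
-/

set_option autoImplicit false

open Metric Set Filter Topology

namespace Pool.Agent.E8N

noncomputable section

/-- `g` is a descending step for `f` with rest points `Z` -/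
structure Desc {α : Type*} [MetricSpace α] (f : α → ℝ) (Z : Set α) (g : ℝ → α → α) : Prop where
  fc : Continuous f
  gc : Continuous fun z : ℝ × α => g z.1 z.2
  g0 : ∀ x, g 0 x = x
  dec : ∀ x s, 0 ≤ s → s ≤ 1 → f (g s x) ≤ f x
  lt : ∀ x s, 0 < s → s ≤ 1 → x ∉ Z → f (g s x) < f x

/-- a family of functions with descending steps -/
structure Fam {Q α : Type*} [MetricSpace Q] [MetricSpace α] (F : Q → α → ℝ) (Z : Q → Set α)
    (g : ℝ → Q → α → α) : Prop where
  Fc : Continuous fun z : Q × α => F z.1 z.2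
  Fl : ∀ p q x, |F p x - F q x| ≤ dist p q
  gc : Continuous fun z : ℝ × Q × α => g z.1 z.2.1 z.2.2
  g0 : ∀ p x, g 0 p x = x
  dec : ∀ p x s, 0 ≤ s → s ≤ 1 → F p (g s p x) ≤ F p x
  lt : ∀ p x s, 0 < s → s ≤ 1 → x ∉ Z p → F p (g s p x) < F p x
  Zc : IsClosed {z : Q × α | z.2 ∈ Z z.1}

/-- `s` is a pass of `f`: it is in the closures of two different components of `{f < f s}` -/
def LPass {α : Type*} [TopologicalSpace α] (f : α → ℝ) (s : α) : Prop :=
  ∃ A A' : Set α, IsComp {z | f z < f s} A ∧ IsComp {z | f z < f s} A' ∧ A ≠ A' ∧ s ∈ closure A ∧ s ∈ closure A'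

/-- level of the separated pairs -/
def lev {α : Type*} [TopologicalSpace α] (f : α → ℝ) : ℝ :=
  sSup {t | ∃ x y, Sepd (univ : Set α) f x y ∧ t = pass (univ : Set α) f x y}

/-- the two minima -/
structure MinsT {α : Type*} [TopologicalSpace α] (f : α → ℝ) (Z : Set α) (lo hi : α) : Prop where
  lo_min : ∀ z, f lo ≤ f z
  sepd : Sepd (univ : Set α) f lo hi
  hi_min : ∀ z, pass (univ : Set α) f hi z < lev f → f hi ≤ f z
  hi_crit : hi ∈ Z
  lo_crit : lo ∈ Z

/-- leaf / middle structure -/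
structure MidT {α : Type*} [TopologicalSpace α] (f : α → ℝ) (Z : Set α) (c d : ℝ) (Al Am Bl Bm : Set α)
    (x y : α) : Prop where
  hAl : IsComp {z | f z < c} Al
  hAm : IsComp {z | f z < c} Am
  hA : Al ≠ Am
  cA : {z | f z < c} = Al ∪ Am
  hBl : IsComp {z | d < f z} Bl
  hBm : IsComp {z | d < f z} Bm
  hB : Bl ≠ Bm
  cB : {z | d < f z} = Bl ∪ Bm
  ll : ∀ z ∈ closure Al, z ∈ closure Bl → z ∈ Z ∧ f z = c ∧ f z = d
  lm : ∃ z ∈ closure Al, z ∈ closure Bm ∧ ¬ (z ∈ Z ∧ f z = c ∧ f z = d)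
  mm : ∃ z ∈ closure Am, z ∈ closure Bm ∧ ¬ (z ∈ Z ∧ f z = c ∧ f z = d)
  ml : ∃ z ∈ closure Am, z ∈ closure Bl ∧ ¬ (z ∈ Z ∧ f z = c ∧ f z = d)
  hx : x ∈ Am
  hx' : ∀ z ∈ Am, f x ≤ f z
  hy : y ∈ Bm
  hy' : ∀ z ∈ Bm, f z ≤ f y

/-- connectedness properties of the sphere of dimension at least three -/
structure Nice (α : Type*) [MetricSpace α] : Prop where
  /-- punctured neighbourhoods -/
  punc : ∀ a : α, ∀ N ∈ 𝓝 a, ∃ D ⊆ N, D ∈ 𝓝 a ∧ IsPreconnected (D \ {a})
  /-- caps -/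
  cap : ∀ (e : α) (ε : ℝ), 0 < ε → ∃ O : Set α, IsClosed O ∧ O ∈ 𝓝 e ∧ O ⊆ ball e ε ∧
    ∀ X : Set α, X.Finite → IsPreconnected (O ∪ X)ᶜ
  /-- unicoherence of the complement of a finite set -/
  uni : ∀ X : Set α, X.Finite → ∀ P Q U V : Set α, IsClosed P → IsClosed Q → IsClosed U → IsClosed V →
    P ∪ Q ∪ X = univ → IsPreconnected (P \ X) → IsPreconnected (Q \ X) → P ∩ Q ⊆ U ∪ V ∪ X → U ∩ V ⊆ X →
    (∃ z ∈ U, z ∈ P ∧ z ∈ Q ∧ z ∉ X) → (∃ z ∈ V, z ∈ P ∧ z ∈ Q ∧ z ∉ X) → False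

end

end Pool.Agent.E8N
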