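import Pool.Agent.E8N.Top

/-!
# E8N: abstract layer, more definitions
-/

set_option autoImplicit false

open Metric Set Filter Topology

namespace Pool.Agent.E8N

noncomputable section

/-- splitting level of the maxima -/
def dev {α : Type*} [TopologicalSpace α] (f : α → ℝ) : ℝ := - lev (fun z => - f z)

/-- two minima and two maxima, not more -/
structure Om2 {α : Type*} [MetricSpace α] (f : α → ℝ) (Z : Set α) (g g' : ℝ → α → α) : Prop where
  hd : Desc f Z g
  hd' : Desc (fun z => - f z) Z g'
  hZ : Z.Finite
  h2 : Two (univ : Set α) f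
  h3 : ¬ Three (univ : Set α) f
  h2' : Two (univ : Set α) (fun z => - f z)
  h3' : ¬ Three (univ : Set α) (fun z => - f z)

end

/-- superlevel sets of `f` are sublevel sets of `-f` -/
theorem sup_eq {α : Type*} (f : α → ℝ) (d : ℝ) : {z | d < f z} = {z | (fun z => - f z) z < - d} := by
  ext z
  simp

theorem sup_eq' {α : Type*} [TopologicalSpace α] (f : α → ℝ) :
    {z | dev f < f z} = {z | (fun z => - f z) z < lev (fun z => - f z)} := by
  ext z
  simp only [dev, mem_setOf_eq]
  constructor <;> intro h <;> linarith

end Pool.Agent.E8N
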