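import Pool.Agent.E8N.Defs

/-!
# E8N section 0: the metric projection
-/

set_option autoImplicit false

open Metric Set Filter Topology

namespace Pool.Agent.E8N.ZProj

noncomputable section

variable {E : Type*} [NormedAddCommGroup E] [InnerProductSpace ℝ E] [FiniteDimensional ℝ E]
variable {K : Set E} {ρ R : ℝ}

theorem P_spec (hK : Body K ρ R) (y : E) :
    P K y ∈ K ∧ ∀ w ∈ K, inner ℝ (y - P K y) (w - P K y) ≤ 0 := by
  have h : ∃ x ∈ K, ∀ w ∈ K, inner ℝ (y - x) (w - x) ≤ 0 := by
    have hne : K.Nonempty := ⟨0, hK.ball (mem_closedBall_self hK.hρ.le)⟩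
    obtain ⟨v, hv, hv2⟩ := exists_norm_eq_iInf_of_complete_convex hne hK.cpt.isComplete hK.conv y
    exact ⟨v, hv, (norm_eq_iInf_iff_real_inner_le_zero hK.conv hv).mp hv2⟩
  have e : P K y = h.choose := by
    unfold P
    rw [dif_pos h]
  rw [e]
  exact h.choose_spec

theorem P_mem (hK : Body K ρ R) (y : E) : P K y ∈ K := (P_spec hK y).1

theorem P_var (hK : Body K ρ R) (y : E) {w : E} (hw : w ∈ K) : inner ℝ (y - P K y) (w - P K y) ≤ 0 :=
  (P_spec hK y).2 w hw

theorem P_unique (hK : Body K ρ R) {y x : E} (hx : x ∈ K) (h : ∀ w ∈ K, inner ℝ (y - x) (w - x) ≤ 0) :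
    P K y = x := by
  have h1 := h (P K y) (P_mem hK y)
  have h2 := P_var hK y hx
  have h3 : inner ℝ (y - x) (P K y - x) + inner ℝ (y - P K y) (x - P K y) = ‖P K y - x‖ ^ 2 := by
    rw [← real_inner_self_eq_norm_sq]
    have e : x - P K y = -(P K y - x) := by abel
    rw [e, inner_neg_right, ← sub_eq_add_neg, ← inner_sub_left]
    congr 1
    abel
  have h4 : ‖P K y - x‖ ^ 2 ≤ 0 := by linarith
  have h5 : ‖P K y - x‖ = 0 := by
    have := sq_nonneg ‖P K y - x‖
    exact pow_eq_zero_iff two_ne_zero |>.mp (le_antisymm h4 this)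
  exact sub_eq_zero.mp (norm_eq_zero.mp h5)

theorem P_firm (hK : Body K ρ R) (y z : E) : ‖P K y - P K z‖ ^ 2 ≤ inner ℝ (y - z) (P K y - P K z) := by
  have h1 := P_var hK y (P_mem hK z)
  have h2 := P_var hK z (P_mem hK y)
  have h3 : inner ℝ (y - z) (P K y - P K z) - ‖P K y - P K z‖ ^ 2 =
      - inner ℝ (y - P K y) (P K z - P K y) - inner ℝ (z - P K z) (P K y - P K z) := by
    rw [← real_inner_self_eq_norm_sq]
    have e : P K z - P K y = -(P K y - P K z) := by abel
    rw [e, inner_neg_right, neg_neg, ← inner_sub_left, ← inner_sub_left]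
    congr 1
    abel
  linarith

theorem P_nonexp (hK : Body K ρ R) (y z : E) : ‖P K y - P K z‖ ≤ ‖y - z‖ := by
  have h1 := (P_firm hK y z).trans (real_inner_le_norm _ _)
  rcases eq_or_lt_of_le (norm_nonneg (P K y - P K z)) with h | h
  · rw [← h]
    exact norm_nonneg _
  · rw [sq] at h1
    exact le_of_mul_le_mul_right h1 h

theorem P_cont (hK : Body K ρ R) : Continuous (P K) := by
  refine (LipschitzWith.of_dist_le_mul (K := 1) fun y z => ?_).continuous
  rw [dist_eq_norm, dist_eq_norm, NNReal.coe_one, one_mul]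
  exact P_nonexp hK y z

theorem P_of_mem (hK : Body K ρ R) {y : E} (hy : y ∈ K) : P K y = y :=
  P_unique hK hy (fun w _ => by rw [sub_self, inner_zero_left])

/-- `P K y` is a nearest point -/
theorem P_near (hK : Body K ρ R) (y : E) {w : E} (hw : w ∈ K) : ‖y - P K y‖ ≤ ‖y - w‖ := by
  have h1 := P_var hK y hw
  have h2 : ‖y - w‖ ^ 2 = ‖y - P K y‖ ^ 2 - 2 * inner ℝ (y - P K y) (w - P K y) + ‖w - P K y‖ ^ 2 := by
    rw [← norm_sub_sq_real]
    congr 2
    abel
  refine (pow_le_pow_iff_left₀ (norm_nonneg _) (norm_nonneg _) two_ne_zero).mp ?_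
  have h3 := sq_nonneg ‖w - P K y‖
  linarith

/-- moving along the normal direction does not change the projection -/
theorem P_ray (hK : Body K ρ R) (y : E) {t : ℝ} (ht : 0 ≤ t) : P K (P K y + t • (y - P K y)) = P K y := by
  refine P_unique hK (P_mem hK y) fun w hw => ?_
  rw [add_sub_cancel_left, real_inner_smul_left]
  exact mul_nonpos_of_nonneg_of_nonpos ht (P_var hK y hw)

end

end Pool.Agent.E8N.ZProj
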