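import Pool.Agent.E8N.ZRet

/-!
# E8N section 0: rays from points of K
-/

set_option autoImplicit false

open Metric Set Filter Topology

namespace Pool.Agent.E8N.ZRay

noncomputable section

variable {E : Type*} [NormedAddCommGroup E] [InnerProductSpace ℝ E] [FiniteDimensional ℝ E]
variable {K : Set E} {ρ R : ℝ}

open ZProj ZSurf ZRet

theorem zray_lt (hK : Body K ρ R) {p x y : E} (hp : p ∈ K) (hx : x ∈ S K) (hy : y ∈ S K) (h : dir p x = dir p y) :
    ‖y - p‖ ≤ ‖x - p‖ := by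
  by_contra hlt
  rw [not_le] at hlt
  have h1 := inner_ge_one hK hx hp
  have hxp : 0 < ‖x - p‖ := by
    rw [norm_pos_iff]
    intro h0
    rw [h0, inner_zero_right] at h1
    linarith
  have hyp : 0 < ‖y - p‖ := lt_trans hxp hlt
  have hs : inner ℝ (nu K x) (y - x) ≤ 0 := side hK hx (le_of_eq hy)
  have hyx : y - p = (‖y - p‖ * ‖x - p‖⁻¹) • (x - p) := by
    unfold dir at h
    have h2 : ‖y - p‖ • (‖x - p‖⁻¹ • (x - p)) = ‖y - p‖ • (‖y - p‖⁻¹ • (y - p)) := by rw [h]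
    rw [smul_smul, smul_smul, mul_inv_cancel₀ hyp.ne', one_smul] at h2
    exact h2.symm
  have h3 : y - x = (‖y - p‖ * ‖x - p‖⁻¹ - 1) • (x - p) := by
    rw [sub_smul, one_smul, ← hyx]
    abel
  rw [h3, inner_smul_right] at hs
  have h4 : 0 < ‖y - p‖ * ‖x - p‖⁻¹ - 1 := by
    have : 1 < ‖y - p‖ * ‖x - p‖⁻¹ := by
      rw [← div_eq_mul_inv, one_lt_div hxp]
      exact hlt
    linarith
  have h5 : 0 < (‖y - p‖ * ‖x - p‖⁻¹ - 1) * inner ℝ (nu K x) (x - p) := mul_pos h4 (by linarith)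
  linarith

theorem dir_inj (hK : Body K ρ R) {p x y : E} (hp : p ∈ K) (hx : x ∈ S K) (hy : y ∈ S K) (h : dir p x = dir p y) :
    x = y := by
  have h1 := zray_lt hK hp hx hy h
  have h2 := zray_lt hK hp hy hx h.symm
  have h3 : ‖x - p‖ = ‖y - p‖ := le_antisymm h2 h1
  have h4 := inner_ge_one hK hx hp
  have hxp : 0 < ‖x - p‖ := by
    rw [norm_pos_iff]
    intro h0
    rw [h0, inner_zero_right] at h4
    linarith
  unfold dir at h
  rw [← h3] at h
  have h5 : ‖x - p‖ • (‖x - p‖⁻¹ • (x - p)) = ‖x - p‖ • (‖x - p‖⁻¹ • (y - p)) := by rw [h]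
  rw [smul_smul, smul_smul, mul_inv_cancel₀ hxp.ne', one_smul, one_smul] at h5
  exact sub_left_injective h5

/-- rays from points of `K` meet `S K` exactly once -/
theorem ray (hK : Body K ρ R) {p u : E} (hp : p ∈ K) (hu : ‖u‖ = 1) :
    ∃! x : E, x ∈ S K ∧ dir p x = u := by
  have hR : 0 ≤ R := by
    have h0 : (0 : E) ∈ K := hK.ball (mem_closedBall_self hK.hρ.le)
    have := hK.sub h0
    rw [mem_closedBall, dist_self] at this
    exact this
  have hc : Continuous (fun t : ℝ => ‖(p + t • u) - P K (p + t • u)‖) := by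
    have h1 : Continuous (fun t : ℝ => p + t • u) := by fun_prop
    exact (h1.sub ((P_cont hK).comp h1)).norm
  have h0 : ‖(p + (0 : ℝ) • u) - P K (p + (0 : ℝ) • u)‖ = 0 := by
    rw [zero_smul, add_zero, P_of_mem hK hp, sub_self, norm_zero]
  have h1 : 1 ≤ ‖(p + (2 * R + 1) • u) - P K (p + (2 * R + 1) • u)‖ := by
    set w := P K (p + (2 * R + 1) • u) with hw
    have hwK : w ∈ K := P_mem hK _
    have hpn : ‖p‖ ≤ R := mem_closedBall_zero_iff.1 (hK.sub hp)
    have hwn : ‖w‖ ≤ R := mem_closedBall_zero_iff.1 (hK.sub hwK)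
    have h2 : ‖(2 * R + 1) • u‖ = 2 * R + 1 := by
      rw [norm_smul, hu, mul_one, Real.norm_of_nonneg (by linarith)]
    have h3 : (2 * R + 1) • u = (p + (2 * R + 1) • u - w) - (p - w) := by abel
    have h4 : ‖(2 * R + 1) • u‖ ≤ ‖p + (2 * R + 1) • u - w‖ + ‖p - w‖ := by
      calc ‖(2 * R + 1) • u‖ = ‖(p + (2 * R + 1) • u - w) - (p - w)‖ := by rw [← h3]
        _ ≤ _ := norm_sub_le _ _
    have h5 : ‖p - w‖ ≤ ‖p‖ + ‖w‖ := norm_sub_le _ _
    linarith
  have hle : (0 : ℝ) ≤ 2 * R + 1 := by linarith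
  obtain ⟨t, ht, hte⟩ := intermediate_value_Icc hle hc.continuousOn
    (show (1 : ℝ) ∈ Icc (‖(p + (0 : ℝ) • u) - P K (p + (0 : ℝ) • u)‖)
      (‖(p + (2 * R + 1) • u) - P K (p + (2 * R + 1) • u)‖) from ⟨by rw [h0]; norm_num, h1⟩)
  have ht0 : 0 < t := by
    rcases lt_or_eq_of_le ht.1 with h | h
    · exact h
    · exfalso
      rw [← h] at hte
      simp only at hte
      rw [h0] at hte
      norm_num at hte
  have hxS : p + t • u ∈ S K := hte
  have hdir : dir p (p + t • u) = u := by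
    unfold dir
    rw [add_sub_cancel_left, norm_smul, hu, mul_one, Real.norm_of_nonneg ht0.le, smul_smul,
      inv_mul_cancel₀ ht0.ne', one_smul]
  exact ⟨p + t • u, ⟨hxS, hdir⟩, fun y hy => dir_inj hK hp hy.1 hxS (hy.2.trans hdir.symm)⟩

end

end Pool.Agent.E8N.ZRay
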