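import Pool.Agent.E8N.ZSurf

/-!
# E8N section 0: retraction and projection onto the parallel body
-/

set_option autoImplicit false

open Metric Set Filter Topology

namespace Pool.Agent.E8N.ZRet

noncomputable section

variable {E : Type*} [NormedAddCommGroup E] [InnerProductSpace ℝ E] [FiniteDimensional ℝ E]
variable {K : Set E} {ρ R : ℝ}

open ZProj ZSurf

theorem ZRet_pos (hK : Body K ρ R) {y : E} (hy : y ∉ K) : 0 < ‖y - P K y‖ := by
  rw [norm_pos_iff, sub_ne_zero]
  intro h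
  exact hy (h ▸ P_mem hK y)

theorem ZRet_P (hK : Body K ρ R) (y : E) : P K (ret K y) = P K y :=
  P_ray hK y (inv_nonneg.mpr (norm_nonneg _))

theorem ret_mem (hK : Body K ρ R) {y : E} (hy : y ∉ K) : ret K y ∈ S K := by
  have h := ZRet_pos hK hy
  show ‖ret K y - P K (ret K y)‖ = 1
  rw [ZRet_P hK, ret, add_sub_cancel_left, norm_smul, norm_inv, norm_norm, inv_mul_cancel₀ h.ne']

theorem ret_of_mem (hK : Body K ρ R) {x : E} (hx : x ∈ S K) : ret K x = x := by
  have h : ‖x - P K x‖ = 1 := hx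
  rw [ret, h, inv_one, one_smul, add_sub_cancel]

theorem ret_cont (hK : Body K ρ R) : ContinuousOn (ret K) Kᶜ := by
  have hP := P_cont hK
  unfold ret
  refine hP.continuousOn.add (ContinuousOn.smul (ContinuousOn.inv₀ (by fun_prop) ?_) (by fun_prop))
  intro y hy
  exact (ZRet_pos hK hy).ne'

theorem P1_eq (hK : Body K ρ R) (y : E) : P1 K y = P K y + (max 1 ‖y - P K y‖)⁻¹ • (y - P K y) := by
  unfold P1
  split_ifs with h
  · rw [max_eq_left h, inv_one, one_smul, add_sub_cancel]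
  · rw [max_eq_right (not_le.mp h).le, ret]

theorem P1_cont (hK : Body K ρ R) : Continuous (P1 K) := by
  have hP := P_cont hK
  have h : P1 K = fun y => P K y + (max 1 ‖y - P K y‖)⁻¹ • (y - P K y) := funext (P1_eq hK)
  rw [h]
  refine hP.add (Continuous.smul (Continuous.inv₀ (by fun_prop) ?_) (by fun_prop))
  intro y
  have : (1:ℝ) ≤ max 1 ‖y - P K y‖ := le_max_left _ _
  linarith

theorem P1_of_le {y : E} (hy : ‖y - P K y‖ ≤ 1) : P1 K y = y := by
  unfold P1
  rw [if_pos hy]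

theorem ZRet_notMem (hK : Body K ρ R) {y : E} (hy : 1 ≤ ‖y - P K y‖) : y ∉ K := by
  intro h
  rw [P_of_mem hK h, sub_self, norm_zero] at hy
  linarith

theorem P1_mem (hK : Body K ρ R) {y : E} (hy : 1 ≤ ‖y - P K y‖) : P1 K y ∈ S K := by
  unfold P1
  split_ifs with h
  · exact le_antisymm h hy
  · exact ret_mem hK (ZRet_notMem hK hy)

theorem ZRet_sub (hK : Body K ρ R) {y : E} (hy : 1 ≤ ‖y - P K y‖) :
    y - P1 K y = (‖y - P K y‖ - 1) • (‖y - P K y‖⁻¹ • (y - P K y)) := by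
  have h : ‖y - P K y‖ ≠ 0 := by linarith
  rw [P1_eq hK, max_eq_right hy, smul_smul, sub_mul, mul_inv_cancel₀ h, one_mul, sub_smul, one_smul]
  abel

theorem P1_dist (hK : Body K ρ R) {y : E} (hy : 1 ≤ ‖y - P K y‖) : ‖y - P1 K y‖ = ‖y - P K y‖ - 1 := by
  have h : ‖y - P K y‖ ≠ 0 := by linarith
  rw [ZRet_sub hK hy, norm_smul, norm_smul, norm_inv, norm_norm, inv_mul_cancel₀ h, mul_one, Real.norm_eq_abs,
    abs_of_nonneg (by linarith)]

theorem ZRet_nu (hK : Body K ρ R) {y : E} (hy : 1 ≤ ‖y - P K y‖) :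
    y - P1 K y = (‖y - P K y‖ - 1) • nu K (P1 K y) := by
  have h : ‖y - P K y‖ ≠ 0 := by linarith
  rw [ZRet_sub hK hy]
  congr 1
  have e : P1 K y = ret K y := by rw [P1_eq hK, max_eq_right hy, ret]
  rw [nu, e, ZRet_P hK, ret, add_sub_cancel_left]

/-- variational inequality for the projection onto `K1` -/
theorem P1_var (hK : Body K ρ R) (y : E) {v : E} (hv : ‖v - P K v‖ ≤ 1) : inner ℝ (y - P1 K y) (v - P1 K y) ≤ 0 := by
  rcases le_total ‖y - P K y‖ 1 with h | h
  · rw [P1_of_le h, sub_self, inner_zero_left]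
  · rw [ZRet_nu hK h, real_inner_smul_left]
    exact mul_nonpos_of_nonneg_of_nonpos (by linarith) (side hK (P1_mem hK h) hv)

theorem ZRet_in (hK : Body K ρ R) (y : E) : ‖P1 K y - P K (P1 K y)‖ ≤ 1 := by
  rcases le_total ‖y - P K y‖ 1 with h | h
  · rw [P1_of_le h]
    exact h
  · exact le_of_eq (P1_mem hK h)

theorem P1_nonexp (hK : Body K ρ R) (y z : E) : ‖P1 K y - P1 K z‖ ≤ ‖y - z‖ := by
  have h1 := P1_var hK y (ZRet_in hK z)
  have h2 := P1_var hK z (ZRet_in hK y)
  set a := P1 K y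
  set b := P1 K z
  have h3 : ‖a - b‖ ^ 2 ≤ inner ℝ (y - z) (a - b) := by
    rw [← real_inner_self_eq_norm_sq]
    have e1 : inner ℝ (y - a) (b - a) = - inner ℝ (y - a) (a - b) := by
      rw [← inner_neg_right, neg_sub]
    have e2 : inner ℝ (y - z) (a - b) = inner ℝ (y - a) (a - b) + inner ℝ (a - b) (a - b) - inner ℝ (z - b) (a - b) := by
      rw [← inner_add_left, ← inner_sub_left]
      congr 1
      abel
    rw [e1] at h1
    linarith
  have h4 : inner ℝ (y - z) (a - b) ≤ ‖y - z‖ * ‖a - b‖ := real_inner_le_norm _ _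
  by_cases h5 : ‖a - b‖ = 0
  · rw [h5]
    exact norm_nonneg _
  · have h6 : 0 < ‖a - b‖ := lt_of_le_of_ne (norm_nonneg _) (Ne.symm h5)
    nlinarith

end

end Pool.Agent.E8N.ZRet
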