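import Pool.Agent.E8N.ZProj

/-!
# E8N section 0: the outer parallel hypersurface
-/

set_option autoImplicit false

open Metric Set Filter Topology

namespace Pool.Agent.E8N.ZSurf

noncomputable section

variable {E : Type*} [NormedAddCommGroup E] [InnerProductSpace ℝ E] [FiniteDimensional ℝ E]
variable {K : Set E} {ρ R : ℝ}

open ZProj

theorem nu_norm {x : E} (hx : x ∈ S K) : ‖nu K x‖ = 1 := hx

theorem nu_lip (hK : Body K ρ R) (x y : E) : ‖nu K x - nu K y‖ ≤ ‖x - y‖ := by
  have h1 := P_firm hK x y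
  have h2 : nu K x - nu K y = (x - y) - (P K x - P K y) := by
    unfold nu
    abel
  have h3 : ‖nu K x - nu K y‖ ^ 2 ≤ ‖x - y‖ ^ 2 := by
    rw [h2, norm_sub_sq_real]
    nlinarith [sq_nonneg ‖P K x - P K y‖]
  exact le_of_sq_le_sq h3 (norm_nonneg _)

theorem nu_cont (hK : Body K ρ R) : Continuous (nu K) := continuous_id.sub (P_cont hK)

theorem ZSurf_self {x : E} (hx : x ∈ S K) : inner ℝ (nu K x) (x - P K x) = 1 := by
  have h : inner ℝ (nu K x) (x - P K x) = ‖nu K x‖ ^ 2 := real_inner_self_eq_norm_sq _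
  rw [h, nu_norm hx, one_pow]

/-- `K1 = {dist ≤ 1}` lies on one side of the tangent plane of `S K` at `x` -/
theorem side (hK : Body K ρ R) {x y : E} (hx : x ∈ S K) (hy : ‖y - P K y‖ ≤ 1) :
    inner ℝ (nu K x) (y - x) ≤ 0 := by
  have h1 : y - x = (y - P K y) + (P K y - P K x) - (x - P K x) := by abel
  have h2 := P_var hK x (P_mem hK y)
  have h3 := real_inner_le_norm (nu K x) (y - P K y)
  rw [nu_norm hx, one_mul] at h3
  have h4 : inner ℝ (nu K x) (P K y - P K x) ≤ 0 := h2
  rw [h1, inner_sub_right, inner_add_right, ZSurf_self hx]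
  linarith

/-- the other side has distance at least one from `K` -/
theorem side' (hK : Body K ρ R) {x y : E} (hx : x ∈ S K) (hy : 0 ≤ inner ℝ (nu K x) (y - x)) :
    1 ≤ ‖y - P K y‖ := by
  have h1 : y - x = (y - P K y) + (P K y - P K x) - (x - P K x) := by abel
  have h2 := P_var hK x (P_mem hK y)
  have h3 := real_inner_le_norm (nu K x) (y - P K y)
  rw [nu_norm hx, one_mul] at h3
  have h4 : inner ℝ (nu K x) (P K y - P K x) ≤ 0 := h2
  rw [h1, inner_sub_right, inner_add_right, ZSurf_self hx] at hy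
  linarith

/-- unit balls around points of `K` are in `K1` -/
theorem ball_K1 (hK : Body K ρ R) {z y : E} (hz : z ∈ K) (hy : ‖y - z‖ ≤ 1) : ‖y - P K y‖ ≤ 1 :=
  (P_near hK y hz).trans hy

theorem K1_convex (hK : Body K ρ R) : Convex ℝ {y : E | ‖y - P K y‖ ≤ 1} := by
  intro y1 h1 y2 h2 a b ha hb hab
  have h1' : ‖y1 - P K y1‖ ≤ 1 := h1
  have h2' : ‖y2 - P K y2‖ ≤ 1 := h2
  have hz : a • P K y1 + b • P K y2 ∈ K := hK.conv (P_mem hK y1) (P_mem hK y2) ha hb hab
  refine ball_K1 hK hz ?_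
  have h3 : a • y1 + b • y2 - (a • P K y1 + b • P K y2) = a • (y1 - P K y1) + b • (y2 - P K y2) := by
    rw [smul_sub, smul_sub]
    abel
  rw [h3]
  calc ‖a • (y1 - P K y1) + b • (y2 - P K y2)‖ ≤ ‖a • (y1 - P K y1)‖ + ‖b • (y2 - P K y2)‖ :=
        norm_add_le _ _
    _ = a * ‖y1 - P K y1‖ + b * ‖y2 - P K y2‖ := by
        rw [norm_smul, norm_smul, Real.norm_of_nonneg ha, Real.norm_of_nonneg hb]
    _ ≤ a * 1 + b * 1 :=
        add_le_add (mul_le_mul_of_nonneg_left h1' ha) (mul_le_mul_of_nonneg_left h2' hb)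
    _ = 1 := by rw [mul_one, mul_one, hab]

theorem K1_compact (hK : Body K ρ R) : IsCompact {y : E | ‖y - P K y‖ ≤ 1} := by
  have : ProperSpace E := FiniteDimensional.proper_real E
  refine Metric.isCompact_of_isClosed_isBounded ?_ ?_
  · exact isClosed_le (nu_cont hK).norm continuous_const
  · refine (isBounded_closedBall (x := (0 : E)) (r := R + 1)).subset ?_
    intro y hy
    have hy' : ‖y - P K y‖ ≤ 1 := hy
    have h1 := hK.sub (P_mem hK y)
    rw [mem_closedBall_zero_iff] at h1 ⊢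
    have h2 : y = P K y + (y - P K y) := by abel
    calc ‖y‖ = ‖P K y + (y - P K y)‖ := by rw [← h2]
      _ ≤ ‖P K y‖ + ‖y - P K y‖ := norm_add_le _ _
      _ ≤ R + 1 := add_le_add h1 hy'

theorem S_compact (hK : Body K ρ R) : IsCompact (S K) := by
  refine (K1_compact hK).of_isClosed_subset ?_ ?_
  · exact isClosed_eq (nu_cont hK).norm continuous_const
  · intro x hx
    have h : ‖x - P K x‖ = 1 := hx
    exact h.le

theorem S_bound (hK : Body K ρ R) {x p : E} (hx : x ∈ S K) (hp : p ∈ K) : F p x ≤ 2 * R + 1 := by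
  have h0 : ‖x - P K x‖ = 1 := hx
  have h1 := hK.sub (P_mem hK x)
  have h2 := hK.sub hp
  rw [mem_closedBall_zero_iff] at h1 h2
  have h3 : x - p = (x - P K x) + P K x - p := by abel
  unfold F
  rw [h3]
  have h4 := norm_sub_le ((x - P K x) + P K x) p
  have h5 := norm_add_le (x - P K x) (P K x)
  linarith

theorem one_le_F (hK : Body K ρ R) {x p : E} (hx : x ∈ S K) (hp : p ∈ K) : 1 ≤ F p x := by
  have h0 : ‖x - P K x‖ = 1 := hx
  rw [← h0]
  exact P_near hK x hp

theorem one_lt_F (hK : Body K ρ R) {x p : E} (hx : x ∈ S K) (hp : p ∈ interior K) : 1 < F p x := by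
  have h1 := one_le_F hK hx (interior_subset hp)
  by_contra hcon
  have h2 : F p x = 1 := le_antisymm (not_lt.1 hcon) h1
  have hopen : IsOpen (interior K) := isOpen_interior
  obtain ⟨ε, hε, hball⟩ := Metric.isOpen_iff.1 hopen p hp
  set δ := min (ε / 2) (1 / 2) with hδ
  have hδ0 : 0 < δ := lt_min (by linarith) (by norm_num)
  have hδ1 : δ ≤ 1 / 2 := min_le_right _ _
  have hδε : δ < ε := lt_of_le_of_lt (min_le_left _ _) (by linarith)
  have h3 : ‖x - p‖ = 1 := h2
  have h4 : p + δ • (x - p) ∈ K := by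
    apply interior_subset
    apply hball
    rw [Metric.mem_ball, dist_eq_norm, add_sub_cancel_left, norm_smul, h3, mul_one,
      Real.norm_of_nonneg hδ0.le]
    exact hδε
  have h5 := one_le_F hK hx h4
  have h6 : F (p + δ • (x - p)) x = 1 - δ := by
    unfold F
    have h7 : x - (p + δ • (x - p)) = (1 - δ) • (x - p) := by
      rw [sub_smul, one_smul]
      abel
    rw [h7, norm_smul, h3, mul_one, Real.norm_of_nonneg (by linarith)]
  rw [h6] at h5
  linarith

theorem F_lip (p q x : E) : |F p x - F q x| ≤ ‖p - q‖ := by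
  unfold F
  have h := abs_norm_sub_norm_le (x - p) (x - q)
  have h2 : x - p - (x - q) = -(p - q) := by abel
  rw [h2, norm_neg] at h
  exact h

theorem F_lip' (p x y : E) : |F p x - F p y| ≤ ‖x - y‖ := by
  unfold F
  have h := abs_norm_sub_norm_le (x - p) (y - p)
  have h2 : x - p - (y - p) = x - y := by abel
  rw [h2] at h
  exact h

theorem S_disj (hK : Body K ρ R) {x : E} (hx : x ∈ S K) : x ∉ K := by
  intro h
  have h0 : ‖x - P K x‖ = 1 := hx
  rw [P_of_mem hK h, sub_self, norm_zero] at h0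
  exact zero_ne_one h0

/-- `p` is well below the tangent plane -/
theorem inner_ge_one (hK : Body K ρ R) {x p : E} (hx : x ∈ S K) (hp : p ∈ K) : 1 ≤ inner ℝ (nu K x) (x - p) := by
  have h1 : x - p = (x - P K x) - (p - P K x) := by abel
  have h2 : inner ℝ (nu K x) (p - P K x) ≤ 0 := P_var hK x hp
  rw [h1, inner_sub_right, ZSurf_self hx]
  linarith

end

end Pool.Agent.E8N.ZSurf
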